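import Pool.Agent.HighLow_e5c6.Weights

/-!
# A maximiser of the relaxed value has no atom in `(0, 1]`
-/

set_option autoImplicit false
set_option linter.unusedSectionVars false
set_option linter.unusedVariables false

namespace Pool.Agent.HighLow

open MeasureTheory Set STree

/-- Replace the mass `t` of the atom `x` by the measure `t ∑ λ k δ_{x - u k}`. -/
noncomputable def spread (ν : Measure ℝ) (x t : ℝ) (lam : ℕ → ℝ) (I : Finset ℕ) : Measure ℝ :=
  ν.restrict {x}ᶜ + ENNReal.ofReal (ν.real {x} - t) • Measure.dirac x +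
    ∑ k ∈ I, ENNReal.ofReal (t * lam k) • Measure.dirac (x - u k)

section spread

variable {ν : Measure ℝ} [IsProbabilityMeasure ν] {x t : ℝ} {lam : ℕ → ℝ} {I : Finset ℕ}

lemma spread_univ (ht : 0 ≤ t) (htm : t ≤ ν.real {x}) (hl : ∀ k ∈ I, 0 ≤ lam k)
    (hs : ∑ k ∈ I, lam k = 1) : spread ν x t lam I univ = 1 := by
  have h1 : ∑ k ∈ I, ENNReal.ofReal (t * lam k) = ENNReal.ofReal t := by
    rw [← ENNReal.ofReal_sum_of_nonneg (fun k hk => mul_nonneg ht (hl k hk)), ← Finset.mul_sum,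
      hs, mul_one]
  have h2 : (spread ν x t lam I) univ = ν {x}ᶜ + ENNReal.ofReal (ν.real {x} - t) +
      ENNReal.ofReal t := by
    rw [spread, Measure.add_apply, Measure.add_apply, Measure.restrict_apply_univ,
      Measure.smul_apply, Measure.finset_sum_apply, Measure.dirac_apply_of_mem (mem_univ _),
      smul_eq_mul, mul_one, ← h1]
    congr 1
    refine Finset.sum_congr rfl fun k _ => ?_
    rw [Measure.smul_apply, Measure.dirac_apply_of_mem (mem_univ _), smul_eq_mul, mul_one]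
  rw [h2, add_assoc, ← ENNReal.ofReal_add (by linarith) ht, sub_add_cancel,
    ofReal_measureReal, add_comm, measure_add_measure_compl (measurableSet_singleton x),
    measure_univ]

lemma isProb_spread (ht : 0 ≤ t) (htm : t ≤ ν.real {x}) (hl : ∀ k ∈ I, 0 ≤ lam k)
    (hs : ∑ k ∈ I, lam k = 1) : IsProbabilityMeasure (spread ν x t lam I) :=
  ⟨spread_univ ht htm hl hs⟩

lemma spread_compl (hν : ν (Icc 0 1)ᶜ = 0) (hx : x ∈ Icc (0 : ℝ) 1)
    (hu : ∀ k ∈ I, x - u k ∈ Icc (0 : ℝ) 1) : spread ν x t lam I (Icc 0 1)ᶜ = 0 := by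
  rw [spread, Measure.add_apply, Measure.add_apply, Measure.smul_apply, Measure.finset_sum_apply,
    Measure.dirac_apply' _ measurableSet_Icc.compl,
    Set.indicator_of_notMem (by simpa using hx)]
  have h1 : ν.restrict {x}ᶜ (Icc 0 1)ᶜ = 0 :=
    le_antisymm ((Measure.restrict_apply_le _ _).trans hν.le) (zero_le)
  rw [h1, smul_zero, zero_add, zero_add]
  refine Finset.sum_eq_zero fun k hk => ?_
  rw [Measure.smul_apply, Measure.dirac_apply' _ measurableSet_Icc.compl,
    Set.indicator_of_notMem (by simpa using hu k hk), smul_zero]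

lemma spread_null (htm : t < ν.real {x}) {c : ℝ} (hc : spread ν x t lam I {c} = 0) :
    ν {c} = 0 := by
  rw [spread, Measure.add_apply, Measure.add_apply] at hc
  have h0 := add_eq_zero.1 hc
  have h1 := add_eq_zero.1 h0.1
  by_cases hcx : c = x
  · exfalso
    subst hcx
    have h2 := h1.2
    rw [Measure.smul_apply, Measure.dirac_apply_of_mem (mem_singleton _), smul_eq_mul, mul_one,
      ENNReal.ofReal_eq_zero] at h2
    linarith
  · have h2 := h1.1
    rw [Measure.restrict_apply (measurableSet_singleton c)] at h2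
    have : ({c} : Set ℝ) ∩ {x}ᶜ = {c} := by
      apply inter_eq_self_of_subset_left
      intro y hy
      rw [mem_singleton_iff] at hy
      rw [hy]
      simpa using hcx
    rwa [this] at h2

lemma spread_integral (ht : 0 ≤ t) (htm : t ≤ ν.real {x}) (hl : ∀ k ∈ I, 0 ≤ lam k)
    (hx : x ∈ Icc (0 : ℝ) 1) (hu : ∀ k ∈ I, x - u k ∈ Icc (0 : ℝ) 1) {f : ℝ → ℝ}
    (hf : IntegrableOn f (Icc 0 1) ν) (hfm : Measurable f) :
    ∫ h in Icc 0 1, f h ∂(spread ν x t lam I) =
      ∫ h in Icc 0 1, f h ∂ν - t * f x + t * ∑ k ∈ I, lam k * f (x - u k) := by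
  set g := (Icc (0 : ℝ) 1).indicator f with hg
  have hgν : Integrable g ν := (integrable_indicator_iff measurableSet_Icc).2 hf
  rw [← integral_indicator measurableSet_Icc, ← integral_indicator measurableSet_Icc, ← hg, spread]
  have hi1 : Integrable g (ν.restrict {x}ᶜ) := hgν.restrict
  have hid : ∀ y : ℝ, Integrable g (Measure.dirac y) := fun y =>
    integrable_dirac (by simp [enorm_eq_nnnorm])
  have hi2 : Integrable g (ENNReal.ofReal (ν.real {x} - t) • Measure.dirac x) :=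
    (hid x).smul_measure ENNReal.ofReal_ne_top
  have hi3 : ∀ k ∈ I, Integrable g (ENNReal.ofReal (t * lam k) • Measure.dirac (x - u k)) :=
    fun k _ => (hid _).smul_measure ENNReal.ofReal_ne_top
  rw [integral_add_measure (hi1.add_measure hi2) (integrable_finsetSum_measure.2 hi3),
    integral_add_measure hi1 hi2, integral_finsetSum_measure hi3, integral_smul_measure,
    integral_dirac, ENNReal.toReal_ofReal (by linarith), smul_eq_mul]
  have h1 : ∫ h, g h ∂ν = ∫ h in {x}ᶜ, g h ∂ν + ν.real {x} * g x := by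
    rw [← integral_add_compl (measurableSet_singleton x) hgν, Measure.restrict_singleton,
      integral_smul_measure, integral_dirac, smul_eq_mul, add_comm]
    rfl
  rw [h1]
  have hgx : g x = f x := by rw [hg, Set.indicator_of_mem hx]
  have h2 : ∑ k ∈ I, ∫ h, g h ∂(ENNReal.ofReal (t * lam k) • Measure.dirac (x - u k)) =
      t * ∑ k ∈ I, lam k * f (x - u k) := by
    rw [Finset.mul_sum]
    refine Finset.sum_congr rfl fun k hk => ?_
    rw [integral_smul_measure, integral_dirac, ENNReal.toReal_ofReal (mul_nonneg ht (hl k hk)),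
      smul_eq_mul, hg, Set.indicator_of_mem (hu k hk)]
    ring
  rw [h2, hgx]
  ring

end spread

lemma all_ne_ae {μ : Measure ℝ} {T : STree} (hT : Null μ T) : ∀ᵐ h ∂μ, All (fun c => c ≠ h) T := by
  induction T with
  | leaf => exact Filter.Eventually.of_forall fun _ => trivial
  | node c l r ihl ihr =>
    filter_upwards [ihl hT.2.1, ihr hT.2.2, (measure_eq_zero_iff_ae_notMem.1 hT.1)] with h h1 h2 h3
    refine ⟨fun hc => h3 ?_, h1, h2⟩
    rw [hc]; rfl

/-- Fine trees do at least as well. -/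
lemma exists_fine_int (μ : Measure ℝ) [IsFiniteMeasure μ] {δ : ℝ} (hδ : 0 < δ) {T : STree}
    (hT : Null μ T) : ∃ T' : STree, Null μ T' ∧ Fine δ T' 0 1 ∧
      ∫ h in Icc 0 1, cost T' 0 1 h ∂μ ≤ ∫ h in Icc 0 1, cost T 0 1 h ∂μ := by
  obtain ⟨T', h1, h2, h3⟩ := exists_fine (p := fun c => μ {c} = 0)
    (fun s t h => exists_null μ h) hδ T 0 1 one_pos hT
  refine ⟨T', h1, h2, ?_⟩
  refine integral_mono_ae (cost_integrableOn μ T' 0 1) (cost_integrableOn μ T 0 1) ?_
  filter_upwards [ae_restrict_mem measurableSet_Icc, ae_restrict_of_ae (all_ne_ae hT)] with h hh ha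
  exact h3 h hh.1 hh.2 ha

/-- A maximiser of the relaxed value has no atom in `(0, 1]`. -/
theorem atom_exclusion (ν : Measure ℝ) [IsProbabilityMeasure ν] (hν : ν (Icc 0 1)ᶜ = 0) {v : ℝ}
    (hv0 : 0 ≤ v) (hv1 : v ≤ 1)
    (H1 : ∀ T, Null ν T → v ≤ ∫ h in Icc 0 1, cost T 0 1 h ∂ν)
    (H2 : ∀ μ : Measure ℝ, IsProbabilityMeasure μ → μ (Icc 0 1)ᶜ = 0 → ∀ ε : ℝ, 0 < ε →
      ∃ T, Null μ T ∧ ∫ h in Icc 0 1, cost T 0 1 h ∂μ ≤ v + ε)
    {x : ℝ} (hx0 : 0 < x) (hx1 : x ≤ 1) : ν {x} = 0 := by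
  by_contra hne
  have hm : 0 < ν.real {x} := by
    rw [measureReal_def]
    exact ENNReal.toReal_pos hne (measure_ne_top _ _)
  obtain ⟨S, hksx, hKs, hδ, hκ, hκ1, hb0, ⟨k₂, hk21, hk22, hk23⟩, hmain⟩ :=
    exists_setup ν hx0 hm (by rw [measureReal_def, measure_univ]; simp)
  set m := ν.real {x} with hmdef
  have hm1 : m ≤ 1 := S.m_le_one
  set I := Finset.Ico S.ks S.Ke with hI
  set Z := ∑ k ∈ I, S.b k / u k with hZ
  have hbu : ∀ k, 0 ≤ S.b k / u k := fun k => div_nonneg (S.b_nonneg k) (u_pos k).le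
  have hZ0 : 0 < Z := by
    have h1 : S.b k₂ / u k₂ ≤ Z :=
      Finset.single_le_sum (f := fun k => S.b k / u k) (fun k _ => hbu k)
        (by rw [hI, Finset.mem_Ico]; exact ⟨hk21, hk22⟩)
    have h2 : 0 < S.b k₂ / u k₂ := div_pos hk23 (u_pos _)
    linarith
  set lam : ℕ → ℝ := fun k => S.b k / u k / Z with hlam
  have hl : ∀ k ∈ I, 0 ≤ lam k := fun k _ => div_nonneg (hbu k) hZ0.le
  have hs : ∑ k ∈ I, lam k = 1 := by
    simp only [hlam]
    rw [← Finset.sum_div, ← hZ, div_self hZ0.ne']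
  have hu : ∀ k ∈ I, x - u k ∈ Icc (0 : ℝ) 1 := by
    intro k hk
    rw [hI, Finset.mem_Ico] at hk
    have h1 := u_anti hk.1
    have h2 := u_pos k
    have h3 := u_pos S.ks
    exact ⟨by linarith, by linarith⟩
  set t := S.κ * m / 8 with ht
  have ht0 : 0 < t := by positivity
  have htm : t ≤ m / 8 := by
    rw [ht]; nlinarith
  set ε := min (S.κ / 4) (t / (2 * Z)) with hε
  have hε0 : 0 < ε := lt_min (by positivity) (by positivity)
  set μ := spread ν x t lam I with hμ
  haveI : IsProbabilityMeasure μ := isProb_spread ht0.le (by linarith) hl hs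
  have hμc : μ (Icc 0 1)ᶜ = 0 := spread_compl hν ⟨hx0.le, hx1⟩ hu
  obtain ⟨T₀, hT₀, hT₀le⟩ := H2 μ inferInstance hμc ε hε0
  obtain ⟨T, hTμ, hF, hTle⟩ := exists_fine_int μ hδ hT₀
  have hTν : Null ν T := All.mono (fun c hc => spread_null (by linarith) hc) hTμ
  have hint := spread_integral (ν := ν) ht0.le (by linarith) hl ⟨hx0.le, hx1⟩ hu
    (cost_integrableOn ν T 0 1) (measurable_cost T 0 1)
  rw [← hμ] at hint
  set J := ∫ h in Icc 0 1, cost T 0 1 h ∂ν with hJ
  have hcx0 : 0 ≤ cost T 0 1 x := cost_nonneg T hx0.le hx1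
  have hsum0 : 0 ≤ ∑ k ∈ I, lam k * cost T 0 1 (x - u k) :=
    Finset.sum_nonneg fun k hk => mul_nonneg (hl k hk) (cost_nonneg T (hu k hk).1 (hu k hk).2)
  have hvJ : v ≤ J := H1 T hTν
  have hmJ : cost T 0 1 x * m ≤ J := by
    have h1 : ∫ h in ({x} : Set ℝ), cost T 0 1 h ∂ν ≤ ∫ h in Icc 0 1, cost T 0 1 h ∂ν := by
      refine setIntegral_mono_set (cost_integrableOn ν T 0 1) ?_ ?_
      · filter_upwards [ae_restrict_mem measurableSet_Icc] with h hh
        exact cost_nonneg T hh.1 hh.2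
      · apply HasSubset.Subset.eventuallyLE
        rw [Set.singleton_subset_iff]
        exact ⟨hx0.le, hx1⟩
    rw [Measure.restrict_singleton, integral_smul_measure, integral_dirac, smul_eq_mul] at h1
    rw [mul_comm]
    exact h1
  have hJε : J - t * cost T 0 1 x + t * ∑ k ∈ I, lam k * cost T 0 1 (x - u k) ≤ v + ε := by
    rw [← hint]
    exact hTle.trans hT₀le
  have hεκ : ε ≤ S.κ / 4 := min_le_left _ _
  have hεZ : ε ≤ t / (2 * Z) := min_le_right _ _
  -- J ≤ v + κ
  have htc : t * cost T 0 1 x ≤ S.κ / 8 * J := by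
    have : t * cost T 0 1 x = S.κ / 8 * (cost T 0 1 x * m) := by rw [ht]; ring
    rw [this]
    exact mul_le_mul_of_nonneg_left hmJ (by positivity)
  have hJκ : J ≤ v + S.κ := by
    have h1 : 0 ≤ t * ∑ k ∈ I, lam k * cost T 0 1 (x - u k) := mul_nonneg ht0.le hsum0
    have h2 : J * (1 - S.κ / 8) ≤ v + S.κ / 4 := by linarith
    have h3 : v + S.κ / 4 ≤ (v + S.κ) * (1 - S.κ / 8) := by nlinarith
    have h4 : 0 < 1 - S.κ / 8 := by linarith
    exact le_of_mul_le_mul_right (h2.trans h3) h4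
  have hopt : NearOpt ν S.κ 0 1 T := by
    intro T' hT'
    have := H1 T' hT'
    linarith
  have hc2 : cost T 0 1 x ≤ 2 / m := by
    rw [le_div_iff₀ hm]
    linarith
  have hΓ := hmain T 1 hF hTν hopt hx1 hc2
  -- rewrite the potential
  have hΓ' : ∑ k ∈ Finset.Ico S.ks S.Ke, S.b k * ((cost T 0 1 (x - u k) - cost T 0 1 x) / u k) =
      Z * (∑ k ∈ I, lam k * cost T 0 1 (x - u k) - cost T 0 1 x) := by
    have h1 : cost T 0 1 x = ∑ k ∈ I, lam k * cost T 0 1 x := by
      rw [← Finset.sum_mul, hs, one_mul]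
    rw [h1, ← Finset.sum_sub_distrib, Finset.mul_sum]
    refine Finset.sum_congr rfl fun k hk => ?_
    rw [← h1]
    simp only [hlam]
    have h2 := (u_pos k).ne'
    field_simp
  rw [hΓ'] at hΓ
  have h5 : 1 / Z ≤ ∑ k ∈ I, lam k * cost T 0 1 (x - u k) - cost T 0 1 x := by
    rw [div_le_iff₀ hZ0]
    linarith
  have h6 : t * (1 / Z) ≤ t * (∑ k ∈ I, lam k * cost T 0 1 (x - u k) - cost T 0 1 x) :=
    mul_le_mul_of_nonneg_left h5 ht0.le
  have h7 : t / (2 * Z) = t * (1 / Z) / 2 := by field_simp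
  have h8 : 0 < t * (1 / Z) := by positivity
  rw [h7] at hεZ
  linarith

end Pool.Agent.HighLow
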