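import Pool.Agent.HighLow_e5c6.Smear

/-!
# Lower bounds for the maximin value from finitely many clusters
-/

set_option autoImplicit false

namespace Pool.Agent.HighLow

open MeasureTheory Set STree
open scoped ENNReal

/-- A cut separates an interval of indices into two intervals. -/
lemma exists_cut_index (x : ℕ → ℝ) (c : ℝ) (i : ℕ) : ∀ j, i ≤ j →
    (∀ k l, i ≤ k → k < l → l < j → x k < x l) → (∀ l, i ≤ l → l < j → c ≠ x l) →
    ∃ s, i ≤ s ∧ s ≤ j ∧ (∀ l, i ≤ l → l < s → x l < c) ∧ (∀ l, s ≤ l → l < j → c < x l) := by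
  intro j hij
  induction j, hij using Nat.le_induction with
  | base => intro _ _; exact ⟨i, le_rfl, le_rfl, by intro l h1 h2; omega, by intro l h1 h2; omega⟩
  | succ j hij ih =>
    intro hx hc
    obtain ⟨s, h1, h2, h3, h4⟩ := ih (fun k l hk hkl hl => hx k l hk hkl (by omega))
      (fun l hl hlj => hc l hl (by omega))
    rcases lt_or_gt_of_ne (hc j hij (by omega)) with hcj | hcj
    · refine ⟨s, h1, by omega, h3, fun l hl hlj => ?_⟩
      rcases Nat.lt_succ_iff_lt_or_eq.1 hlj with h | h
      · exact h4 l hl h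
      · rw [h]; exact hcj
    · have hsj : s = j := by
        by_contra hne
        have hlt : s < j := by omega
        have h5 := h4 s le_rfl hlt
        have h6 := hx s j h1 hlt (by omega)
        linarith
      refine ⟨j + 1, by omega, le_rfl, fun l hl hlj => ?_, by intro l h1 h2; omega⟩
      rcases Nat.lt_succ_iff_lt_or_eq.1 hlj with h | h
      · exact h3 l hl (by omega)
      · rw [h]; exact hcj

/-- The dynamic programming lower bound. -/
theorem cluster_cost {N : ℕ} (x m : ℕ → ℝ) (C : ℕ → ℕ → ℝ)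
    (hx : ∀ k l, k < l → l < N → x k < x l) (hm : ∀ l, l < N → 0 ≤ m l)
    (hC1 : ∀ i, i < N → C i (i + 1) ≤ 0)
    (hleaf : ∀ i j, i + 1 < j → j ≤ N →
      C i j ≤ 2 * (x (j - 1) - x i) * ∑ l ∈ Finset.Ico i j, m l)
    (hcut1 : ∀ i s j, i < s → s < j → j ≤ N → C i j ≤ C i s + C s j +
      (∑ l ∈ Finset.Ico i s, m l * (x (s - 1) - x l) +
        ∑ l ∈ Finset.Ico s j, m l * (x l - x (s - 1))))
    (hcut2 : ∀ i s j, i < s → s < j → j ≤ N → C i j ≤ C i s + C s j +
      (∑ l ∈ Finset.Ico i s, m l * (x s - x l) + ∑ l ∈ Finset.Ico s j, m l * (x l - x s)))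
    (T : STree) : ∀ (a b : ℝ) (i j : ℕ), i < j → j ≤ N → a ≤ x i → x (j - 1) ≤ b →
    All (fun c => ∀ l, l < N → c ≠ x l) T →
    C i j ≤ ∑ l ∈ Finset.Ico i j, m l * cost T a b (x l) := by
  induction T with
  | leaf =>
    intro a b i j hij hj ha hb _
    have hM : 0 ≤ ∑ l ∈ Finset.Ico i j, m l := Finset.sum_nonneg fun l hl => by
      rw [Finset.mem_Ico] at hl
      exact hm l (by omega)
    have hxx : x i ≤ x (j - 1) := by
      rcases Nat.lt_or_ge i (j - 1) with h | h
      · exact (hx i (j - 1) h (by omega)).le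
      · rw [show j - 1 = i by omega]
    simp only [cost_leaf]
    rw [← Finset.sum_mul]
    rcases Nat.lt_or_ge (i + 1) j with h | h
    · refine (hleaf i j h hj).trans ?_
      calc 2 * (x (j - 1) - x i) * ∑ l ∈ Finset.Ico i j, m l
          ≤ 2 * (b - a) * ∑ l ∈ Finset.Ico i j, m l :=
            mul_le_mul_of_nonneg_right (by linarith) hM
        _ = _ := by ring
    · have : j = i + 1 := by omega
      subst this
      exact (hC1 i (by omega)).trans (mul_nonneg hM (by linarith))
  | node c l r ihl ihr =>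
    intro a b i j hij hj ha hb hT
    obtain ⟨s, hs1, hs2, hs3, hs4⟩ := exists_cut_index x c i j hij.le
      (fun k l' _ hkl hl' => hx k l' hkl (by omega)) (fun l' _ hl' => hT.1 l' (by omega))
    rw [← Finset.sum_Ico_consecutive _ hs1 hs2]
    have e1 : ∑ k ∈ Finset.Ico i s, m k * cost (node c l r) a b (x k) =
        ∑ k ∈ Finset.Ico i s, m k * (c - x k) +
          ∑ k ∈ Finset.Ico i s, m k * cost l a (min b c) (x k) := by
      rw [← Finset.sum_add_distrib]
      refine Finset.sum_congr rfl fun k hk => ?_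
      rw [Finset.mem_Ico] at hk
      rw [cost_node_lt (hs3 k hk.1 hk.2)]
      ring
    have e2 : ∑ k ∈ Finset.Ico s j, m k * cost (node c l r) a b (x k) =
        ∑ k ∈ Finset.Ico s j, m k * (x k - c) +
          ∑ k ∈ Finset.Ico s j, m k * cost r (max a c) b (x k) := by
      rw [← Finset.sum_add_distrib]
      refine Finset.sum_congr rfl fun k hk => ?_
      rw [Finset.mem_Ico] at hk
      rw [cost_node_ge (hs4 k hk.1 hk.2).le]
      ring
    rw [e1, e2]
    have p1 : 0 ≤ ∑ k ∈ Finset.Ico i s, m k * (c - x k) := Finset.sum_nonneg fun k hk => by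
      rw [Finset.mem_Ico] at hk
      exact mul_nonneg (hm k (by omega)) (by linarith [hs3 k hk.1 hk.2])
    have p2 : 0 ≤ ∑ k ∈ Finset.Ico s j, m k * (x k - c) := Finset.sum_nonneg fun k hk => by
      rw [Finset.mem_Ico] at hk
      exact mul_nonneg (hm k (by omega)) (by linarith [hs4 k hk.1 hk.2])
    rcases Nat.eq_or_lt_of_le hs1 with h1 | h1
    · -- everything lies to the right of the cut
      subst h1
      have h3 := hs4 i le_rfl hij
      have h4 := ihr (max a c) b i j hij hj (max_le ha h3.le) hb hT.2.2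
      rw [Finset.Ico_self, Finset.sum_empty, Finset.sum_empty]
      linarith
    rcases Nat.eq_or_lt_of_le hs2 with h2 | h2
    · subst h2
      have h3 := hs3 (s - 1) (by omega) (by omega)
      have h4 := ihl a (min b c) i s hij hj ha (le_min hb h3.le) hT.2.1
      rw [Finset.Ico_self, Finset.sum_empty, Finset.sum_empty]
      linarith
    · have h3 := hs3 (s - 1) (by omega) (by omega)
      have h3' := hs4 s le_rfl h2
      have hxb : x (s - 1) ≤ x (j - 1) := (hx (s - 1) (j - 1) (by omega) (by omega)).le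
      have hxa : x i ≤ x s := (hx i s h1 (by omega)).le
      have q1 := ihl a (min b c) i s h1 (by omega) ha (le_min (by linarith) h3.le) hT.2.1
      have q2 := ihr (max a c) b s j h2 hj (max_le (by linarith) h3'.le) hb hT.2.2
      -- the linear function of the cut
      set A := ∑ k ∈ Finset.Ico i s, m k - ∑ k ∈ Finset.Ico s j, m k with hA
      have hlin : ∀ c' : ℝ, ∑ k ∈ Finset.Ico i s, m k * (c' - x k) +
          ∑ k ∈ Finset.Ico s j, m k * (x k - c') =
          A * c' + (∑ k ∈ Finset.Ico s j, m k * x k - ∑ k ∈ Finset.Ico i s, m k * x k) := by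
        intro c'
        simp only [mul_sub, Finset.sum_sub_distrib, ← Finset.sum_mul, hA]
        ring
      have hc1 := hcut1 i s j h1 h2 hj
      have hc2 := hcut2 i s j h1 h2 hj
      rw [hlin] at hc1 hc2
      have hc := hlin c
      rcases le_total 0 A with hA0 | hA0
      · have := mul_le_mul_of_nonneg_left h3.le hA0
        linarith
      · have := mul_le_mul_of_nonpos_left h3'.le hA0
        linarith

/-- Lower bound for the maximin value. -/
theorem cluster_lower {N : ℕ} (hN : 0 < N) (x m : ℕ → ℝ) (C : ℕ → ℕ → ℝ)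
    (hx01 : ∀ l, l < N → x l ∈ Icc (0 : ℝ) 1)
    (hx : ∀ k l, k < l → l < N → x k < x l) (hm : ∀ l, l < N → 0 < m l)
    (hm1 : ∑ l ∈ Finset.range N, m l = 1)
    (hC1 : ∀ i, i < N → C i (i + 1) ≤ 0)
    (hleaf : ∀ i j, i + 1 < j → j ≤ N →
      C i j ≤ 2 * (x (j - 1) - x i) * ∑ l ∈ Finset.Ico i j, m l)
    (hcut1 : ∀ i s j, i < s → s < j → j ≤ N → C i j ≤ C i s + C s j +
      (∑ l ∈ Finset.Ico i s, m l * (x (s - 1) - x l) +
        ∑ l ∈ Finset.Ico s j, m l * (x l - x (s - 1))))
    (hcut2 : ∀ i s j, i < s → s < j → j ≤ N → C i j ≤ C i s + C s j +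
      (∑ l ∈ Finset.Ico i s, m l * (x s - x l) + ∑ l ∈ Finset.Ico s j, m l * (x l - x s))) :
    ENNReal.ofReal (C 0 N) ≤ maximin := by
  classical
  set μ : Measure ℝ := ∑ l ∈ Finset.range N, ENNReal.ofReal (m l) • Measure.dirac (x l) with hμ
  have hprob : IsProbabilityMeasure μ := by
    constructor
    rw [hμ, Measure.finset_sum_apply]
    simp only [Measure.smul_apply, measure_univ, smul_eq_mul, mul_one]
    rw [← ENNReal.ofReal_sum_of_nonneg (fun i hi => (hm i (Finset.mem_range.1 hi)).le), hm1,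
      ENNReal.ofReal_one]
  have hcompl : μ (Icc 0 1)ᶜ = 0 := by
    rw [hμ, Measure.finset_sum_apply]
    refine Finset.sum_eq_zero fun l hl => ?_
    rw [Measure.smul_apply, Measure.dirac_apply' _ measurableSet_Icc.compl,
      Set.indicator_of_notMem (by
        simp only [mem_compl_iff, not_not]
        exact hx01 l (Finset.mem_range.1 hl)), smul_zero]
  have hpos : ∀ l, l < N → μ {x l} ≠ 0 := by
    intro l hl h0
    rw [hμ, Measure.finset_sum_apply] at h0
    have h1 := (Finset.sum_eq_zero_iff.1 h0) l (Finset.mem_range.2 hl)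
    rw [Measure.smul_apply, Measure.dirac_apply' _ (measurableSet_singleton _),
      Set.indicator_of_mem (mem_singleton _), Pi.one_apply, smul_eq_mul, mul_one,
      ENNReal.ofReal_eq_zero] at h1
    linarith [hm l hl]
  have hint : ∀ T : STree, ∫ h in Icc 0 1, cost T 0 1 h ∂μ =
      ∑ l ∈ Finset.range N, m l * cost T 0 1 (x l) := by
    intro T
    have hres : μ.restrict (Icc 0 1) = μ := by
      rw [Measure.restrict_eq_self_of_ae_mem]
      rw [ae_iff]; exact hcompl
    rw [hres, hμ, integral_finset_sum_measure]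
    · refine Finset.sum_congr rfl fun l hl => ?_
      rw [integral_smul_measure, integral_dirac,
        ENNReal.toReal_ofReal (hm l (Finset.mem_range.1 hl)).le, smul_eq_mul]
    · intro l _
      exact (integrable_dirac (by simp)).smul_measure ENNReal.ofReal_ne_top
  rw [← ofReal_vR]
  apply ENNReal.ofReal_le_ofReal
  refine le_of_forall_pos_le_add fun ε hε => ?_
  obtain ⟨T, hT, hTle⟩ := relaxed_le μ hprob hcompl ε hε
  rw [hint] at hTle
  refine le_trans ?_ hTle
  rw [Finset.range_eq_Ico]
  refine cluster_cost x m C hx (fun l hl => (hm l hl).le) hC1 hleaf hcut1 hcut2 T 0 1 0 N hN le_rfl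
    (hx01 0 hN).1 (hx01 (N - 1) (by omega)).2 ?_
  refine All.mono ?_ hT
  intro c hc l hl he
  rw [he] at hc
  exact hpos l hl hc

end Pool.Agent.HighLow
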