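import Pool.Agent.HighLow_e5c6.ClusterCheck
import Pool.Agent.HighLow_e5c6.ClusterData

/-!
# The maximin value is at least `605 / 1000`
-/

set_option autoImplicit false

namespace Pool.Agent.HighLow

open ClusterData
open scoped ENNReal

theorem chkX_data : chkX 100 dX = true := by decide +kernel

theorem chkOne_data : chkOne 100 20000 dX dW dM dC = true := by decide +kernel

theorem chkLeaf_data : chkLeaf 100 dX dW dC = true := by decide +kernel

theorem chkAll_data : chkAll 100 dX dW dM dC = true := by decide +kernel

theorem dW_zero : dg dW 0 = 0 := by decide +kernel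

theorem dW_last : dg dW 100 = 200000 := by decide +kernel

theorem dC_value : Nat.ble 2420000000 (tb dC 0 100) = true := by decide +kernel

/-- **The hider can guarantee `0.605`.** -/
theorem maximin_ge : ENNReal.ofReal (605 / 1000) ≤ maximin := by
  have h := Nat.le_of_ble_eq_true dC_value
  have main := lower_of_checks 100 20000 200000 dX dW dM dC
    (by norm_num) (by norm_num) (by norm_num) dW_zero dW_last chkX_data chkOne_data chkLeaf_data
    chkAll_data
  generalize tb dC 0 100 = t at h main
  refine le_trans (ENNReal.ofReal_le_ofReal ?_) main
  have h2 : (2420000000 : ℝ) ≤ (t : ℝ) := by exact_mod_cast h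
  rw [le_div_iff₀ (by norm_num)]
  push_cast
  linarith

end Pool.Agent.HighLow
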