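import Pool.Agent.HighLow_e5c6.ClusterInt

/-!
# The cluster bound with packed integer data

The data are packed into natural numbers, 32 bits for each entry; the inequalities are Boolean
functions of these numbers.
-/

set_option autoImplicit false

namespace Pool.Agent.HighLow

open MeasureTheory Set
open scoped ENNReal

/-- The entry number `k` of a packed table. -/
def dg (B k : ℕ) : ℕ := Nat.mod (Nat.shiftRight B (Nat.mul 32 k)) 4294967296

/-- The entry `i < j` of the table of costs. -/
def tb (C i j : ℕ) : ℕ := dg C (Nat.add (Nat.div (Nat.mul j (Nat.pred j)) 2) i)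

/-- The cut inequality for `i < s < j` and the cut `x`. -/
def chkX1 (W M C i s j x : ℕ) : Bool :=
  Nat.ble (Nat.add (tb C i j) (Nat.add (Nat.mul x (Nat.add (dg W i) (dg W j)))
      (Nat.mul 2 (dg M s))))
    (Nat.add (Nat.add (tb C i s) (tb C s j)) (Nat.add (Nat.mul (Nat.mul 2 x) (dg W s))
      (Nat.add (dg M i) (dg M j))))

/-- The relevant cut inequality for `i < s < j`. -/
def chkCut (X W M C i s j : ℕ) : Bool :=
  match Nat.ble (Nat.add (dg W i) (dg W j)) (Nat.mul 2 (dg W s)) with
  | true => chkX1 W M C i s j (dg X (Nat.pred s))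
  | false => chkX1 W M C i s j (dg X s)

/-- The condition for all numbers below `n`. -/
def allBelow (f : ℕ → Bool) : ℕ → Bool
  | 0 => true
  | n + 1 => f n && allBelow f n

lemma allBelow_spec {f : ℕ → Bool} : ∀ {n : ℕ}, allBelow f n = true → ∀ k < n, f k = true := by
  intro n
  induction n with
  | zero => intro _ k hk; omega
  | succ n ih =>
    intro h k hk
    rw [allBelow, Bool.and_eq_true] at h
    rcases Nat.lt_or_ge k n with h1 | h1
    · exact ih h.2 k h1
    · rw [show k = n by omega]
      exact h.1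

/-- All cut inequalities. -/
def chkAll (N X W M C : ℕ) : Bool :=
  allBelow (fun j => allBelow (fun i => allBelow (fun d =>
    chkCut X W M C i (Nat.add (Nat.succ i) d) (Nat.succ j)) (Nat.sub j i)) j) N

/-- The conditions on single indices. -/
def chkOne (N SX X W M C : ℕ) : Bool :=
  allBelow (fun i => Nat.ble (dg W i + 1) (dg W (i + 1)) &&
    Nat.beq (dg M (i + 1) + dg W i * dg X i) (dg M i + dg W (i + 1) * dg X i) &&
    Nat.ble (dg X i) SX && Nat.beq (tb C i (i + 1)) 0) N

/-- The positions increase. -/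
def chkX (N X : ℕ) : Bool := allBelow (fun i => Nat.ble (dg X i + 1) (dg X (i + 1))) (N - 1)

/-- The leaf inequalities. -/
def chkLeaf (N X W C : ℕ) : Bool :=
  allBelow (fun j => allBelow (fun i =>
    Nat.ble (tb C i (j + 1) + 2 * dg X i * (dg W (j + 1) - dg W i))
      (2 * dg X j * (dg W (j + 1) - dg W i))) j) N

/-- The cluster bound from the Boolean checks. -/
theorem lower_of_checks (N SX SW X W M C : ℕ) (hN : 0 < N) (hSX : 0 < SX) (hSW : 0 < SW)
    (h0 : dg W 0 = 0) (hW : dg W N = SW) (c1 : chkX N X = true)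
    (c2 : chkOne N SX X W M C = true) (c3 : chkLeaf N X W C = true)
    (c4 : chkAll N X W M C = true) :
    ENNReal.ofReal ((tb C 0 N : ℝ) / (SX * SW)) ≤ maximin := by
  have d1 : ∀ i, i + 1 < N → dg X i < dg X (i + 1) := by
    intro i hi
    exact Nat.le_of_ble_eq_true (allBelow_spec c1 i (by omega))
  have d2 : ∀ i, i < N → dg W i < dg W (i + 1) ∧
      dg M (i + 1) + dg W i * dg X i = dg M i + dg W (i + 1) * dg X i ∧ dg X i ≤ SX ∧
      tb C i (i + 1) = 0 := by
    intro i hi
    have h := allBelow_spec c2 i hi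
    simp only [Bool.and_eq_true] at h
    exact ⟨Nat.le_of_ble_eq_true h.1.1.1, Nat.eq_of_beq_eq_true h.1.1.2,
      Nat.le_of_ble_eq_true h.1.2, Nat.eq_of_beq_eq_true h.2⟩
  have d2' : ∀ i j, i ≤ j → j ≤ N → dg W i ≤ dg W j := by
    intro i j hij
    induction j, hij using Nat.le_induction with
    | base => intro _; exact le_rfl
    | succ j _ ih => intro hj; exact (ih (by omega)).trans (d2 j (by omega)).1.le
  have d3 : ∀ i j, i + 1 < j → j ≤ N →
      tb C i j + 2 * dg X i * (dg W j - dg W i) ≤ 2 * dg X (j - 1) * (dg W j - dg W i) := by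
    intro i j hij hj
    have h := allBelow_spec (allBelow_spec c3 (j - 1) (by omega)) i (by omega)
    rw [show j - 1 + 1 = j by omega] at h
    exact Nat.le_of_ble_eq_true h
  have d4 : ∀ i s j, i < s → s < j → j ≤ N → chkCut X W M C i s j = true := by
    intro i s j h1 h2 h3
    have h := allBelow_spec (allBelow_spec (allBelow_spec c4 (j - 1) (by omega)) i (by omega))
      (s - (i + 1)) (show s - (i + 1) < j - 1 - i by omega)
    have e1 : Nat.add (Nat.succ i) (s - (i + 1)) = s := by
      show i + 1 + (s - (i + 1)) = s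
      omega
    have e2 : Nat.succ (j - 1) = j := by omega
    rw [e1, e2] at h
    exact h
  have d5 : ∀ i s j, i < s → s < j → j ≤ N → ∀ x : ℤ, x = dg X (s - 1) ∨ x = dg X s →
      (tb C i j : ℤ) ≤ tb C i s + tb C s j +
        (x * (2 * dg W s - dg W i - dg W j) + (dg M i + dg M j - 2 * dg M s)) := by
    intro i s j h1 h2 h3 x hx
    have h := d4 i s j h1 h2 h3
    have hXX : (dg X (s - 1) : ℤ) ≤ dg X s := by
      have := d1 (s - 1) (by omega)
      rw [show s - 1 + 1 = s by omega] at this
      exact_mod_cast this.le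
    unfold chkCut at h
    rcases hb : Nat.ble (Nat.add (dg W i) (dg W j)) (Nat.mul 2 (dg W s)) with _ | _
    · rw [hb] at h
      have h5 : tb C i j + (dg X s * (dg W i + dg W j) + 2 * dg M s) ≤
          tb C i s + tb C s j + (2 * dg X s * dg W s + (dg M i + dg M j)) :=
        Nat.le_of_ble_eq_true h
      have h6 : ¬ (dg W i + dg W j ≤ 2 * dg W s) := by
        intro hcon
        have : Nat.ble (Nat.add (dg W i) (dg W j)) (Nat.mul 2 (dg W s)) = true :=
          Nat.ble_eq_true_of_le hcon
        rw [hb] at this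
        exact Bool.noConfusion this
      push Not at h6
      have h5' : (tb C i j : ℤ) + (dg X s * (dg W i + dg W j) + 2 * dg M s) ≤
          tb C i s + tb C s j + (2 * dg X s * dg W s + (dg M i + dg M j)) := by exact_mod_cast h5
      have h6' : (2 * dg W s : ℤ) < dg W i + dg W j := by exact_mod_cast h6
      rcases hx with rfl | rfl
      · nlinarith
      · nlinarith
    · rw [hb] at h
      have h5 : tb C i j + (dg X (s - 1) * (dg W i + dg W j) + 2 * dg M s) ≤
          tb C i s + tb C s j + (2 * dg X (s - 1) * dg W s + (dg M i + dg M j)) :=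
        Nat.le_of_ble_eq_true h
      have h6 : dg W i + dg W j ≤ 2 * dg W s := Nat.le_of_ble_eq_true hb
      have h5' : (tb C i j : ℤ) + (dg X (s - 1) * (dg W i + dg W j) + 2 * dg M s) ≤
          tb C i s + tb C s j + (2 * dg X (s - 1) * dg W s + (dg M i + dg M j)) := by
        exact_mod_cast h5
      have h6' : (dg W i + dg W j : ℤ) ≤ 2 * dg W s := by exact_mod_cast h6
      rcases hx with rfl | rfl
      · nlinarith
      · nlinarith
  have main := cluster_lower_int (N := N) (SX := SX) (SW := SW) hN (by exact_mod_cast hSX)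
    (by exact_mod_cast hSW) (fun i => (dg X i : ℤ)) (fun i => (dg W i : ℤ))
    (fun i => (dg M i : ℤ)) (fun i j => (tb C i j : ℤ)) (by simp [h0]) (by simp [hW])
    (fun i hi => by exact_mod_cast (d2 i hi).1) ?_ (fun i _ => by positivity)
    (fun i hi => by exact_mod_cast (d2 i hi).2.2.1) (fun i hi => by exact_mod_cast d1 i hi)
    (fun i hi => by
      show (tb C i (i + 1) : ℤ) ≤ 0
      rw [(d2 i hi).2.2.2]
      exact le_rfl) ?_
    (fun i s j h1 h2 h3 => d5 i s j h1 h2 h3 _ (Or.inl rfl))
    (fun i s j h1 h2 h3 => d5 i s j h1 h2 h3 _ (Or.inr rfl))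
  · simpa using main
  · intro i hi
    have h : (dg M (i + 1) : ℤ) + dg W i * dg X i = dg M i + dg W (i + 1) * dg X i := by
      exact_mod_cast (d2 i hi).2.1
    show (dg M (i + 1) : ℤ) = dg M i + (dg W (i + 1) - dg W i) * dg X i
    linarith
  · intro i j hij hj
    show (tb C i j : ℤ) ≤ 2 * ((dg X (j - 1) : ℤ) - dg X i) * (dg W j - dg W i)
    have h1 := d3 i j hij hj
    have h2 := d2' i j (by omega) hj
    have h3 : (tb C i j : ℤ) + 2 * dg X i * ((dg W j : ℤ) - dg W i) ≤
        2 * dg X (j - 1) * ((dg W j : ℤ) - dg W i) := by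
      have h4 : ((dg W j - dg W i : ℕ) : ℤ) = (dg W j : ℤ) - dg W i := Nat.cast_sub h2
      rw [← h4]
      exact_mod_cast h1
    linarith

end Pool.Agent.HighLow
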