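import Pool.Agent.HighLow_e5c6.Cluster

/-!
# The cluster bound with integer data
-/

set_option autoImplicit false

namespace Pool.Agent.HighLow

open MeasureTheory Set
open scoped ENNReal

/-- The cluster bound for positions `X i / SX` and cumulative weights `Wp i / SW`. -/
theorem cluster_lower_int {N : ℕ} {SX SW : ℤ} (hN : 0 < N) (hSX : 0 < SX) (hSW : 0 < SW)
    (X Wp Mp : ℕ → ℤ) (Cz : ℕ → ℕ → ℤ) (hW0 : Wp 0 = 0) (hWN : Wp N = SW)
    (hstepW : ∀ i, i < N → Wp i < Wp (i + 1))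
    (hstepM : ∀ i, i < N → Mp (i + 1) = Mp i + (Wp (i + 1) - Wp i) * X i)
    (hX0 : ∀ i, i < N → 0 ≤ X i) (hX1 : ∀ i, i < N → X i ≤ SX)
    (hXs : ∀ i, i + 1 < N → X i < X (i + 1))
    (hC1 : ∀ i, i < N → Cz i (i + 1) ≤ 0)
    (hleaf : ∀ i j, i + 1 < j → j ≤ N → Cz i j ≤ 2 * (X (j - 1) - X i) * (Wp j - Wp i))
    (hcut1 : ∀ i s j, i < s → s < j → j ≤ N → Cz i j ≤ Cz i s + Cz s j +
      (X (s - 1) * (2 * Wp s - Wp i - Wp j) + (Mp i + Mp j - 2 * Mp s)))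
    (hcut2 : ∀ i s j, i < s → s < j → j ≤ N → Cz i j ≤ Cz i s + Cz s j +
      (X s * (2 * Wp s - Wp i - Wp j) + (Mp i + Mp j - 2 * Mp s))) :
    ENNReal.ofReal ((Cz 0 N : ℝ) / (SX * SW)) ≤ maximin := by
  have hSX' : (0 : ℝ) < SX := by exact_mod_cast hSX
  have hSW' : (0 : ℝ) < SW := by exact_mod_cast hSW
  have hSS : (0 : ℝ) < SX * SW := mul_pos hSX' hSW'
  -- prefix sums
  have hWsum : ∀ i j, i ≤ j → j ≤ N →
      ∑ l ∈ Finset.Ico i j, (Wp (l + 1) - Wp l) = Wp j - Wp i := by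
    intro i j hij hj
    exact Finset.sum_Ico_sub Wp hij
  have hMsum : ∀ i j, i ≤ j → j ≤ N →
      ∑ l ∈ Finset.Ico i j, (Wp (l + 1) - Wp l) * X l = Mp j - Mp i := by
    intro i j hij hj
    rw [← Finset.sum_Ico_sub Mp hij]
    refine Finset.sum_congr rfl fun l hl => ?_
    rw [Finset.mem_Ico] at hl
    rw [hstepM l (by omega)]
    ring
  have hWr : ∀ i j, i ≤ j → j ≤ N →
      ∑ l ∈ Finset.Ico i j, ((Wp (l + 1) - Wp l : ℤ) : ℝ) / SW = ((Wp j - Wp i : ℤ) : ℝ) / SW := by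
    intro i j hij hj
    rw [← Finset.sum_div, ← hWsum i j hij hj]
    push_cast
    rfl
  have hMr : ∀ i j, i ≤ j → j ≤ N →
      ∑ l ∈ Finset.Ico i j, ((Wp (l + 1) - Wp l : ℤ) : ℝ) / SW * ((X l : ℝ) / SX) =
        ((Mp j - Mp i : ℤ) : ℝ) / (SX * SW) := by
    intro i j hij hj
    rw [← hMsum i j hij hj]
    push_cast
    rw [Finset.sum_div]
    refine Finset.sum_congr rfl fun l _ => ?_
    field_simp
  have hlin : ∀ (i s j : ℕ) (c : ℤ), i ≤ s → s ≤ j → j ≤ N →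
      ∑ l ∈ Finset.Ico i s, ((Wp (l + 1) - Wp l : ℤ) : ℝ) / SW * ((c : ℝ) / SX - (X l : ℝ) / SX) +
      ∑ l ∈ Finset.Ico s j, ((Wp (l + 1) - Wp l : ℤ) : ℝ) / SW * ((X l : ℝ) / SX - (c : ℝ) / SX) =
      ((c * (2 * Wp s - Wp i - Wp j) + (Mp i + Mp j - 2 * Mp s) : ℤ) : ℝ) / (SX * SW) := by
    intro i s j c h1 h2 h3
    simp only [mul_sub, Finset.sum_sub_distrib]
    rw [← Finset.sum_mul, ← Finset.sum_mul, hWr i s h1 (by omega), hWr s j h2 h3,
      hMr i s h1 (by omega), hMr s j h2 h3]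
    push_cast
    field_simp
    ring
  have main := cluster_lower (N := N) hN (fun l => (X l : ℝ) / SX)
    (fun l => ((Wp (l + 1) - Wp l : ℤ) : ℝ) / SW) (fun i j => (Cz i j : ℝ) / (SX * SW))
    ?_ ?_ ?_ ?_ ?_ ?_ ?_ ?_
  · exact main
  · intro l hl
    constructor
    · exact div_nonneg (by exact_mod_cast hX0 l hl) hSX'.le
    · rw [div_le_one hSX']
      exact_mod_cast hX1 l hl
  · -- strict monotonicity
    intro k l hkl hl
    have key : ∀ d : ℕ, k + d + 1 < N → X k < X (k + d + 1) := by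
      intro d
      induction d with
      | zero => intro h; exact hXs k h
      | succ d ih =>
        intro h
        exact lt_trans (ih (by omega)) (hXs (k + d + 1) h)
    have h1 := key (l - k - 1) (by omega)
    rw [show k + (l - k - 1) + 1 = l by omega] at h1
    show (X k : ℝ) / SX < (X l : ℝ) / SX
    rw [div_lt_div_iff_of_pos_right hSX']
    exact_mod_cast h1
  · intro l hl
    have := hstepW l hl
    have h1 : (0 : ℝ) < ((Wp (l + 1) - Wp l : ℤ) : ℝ) := by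
      exact_mod_cast (by linarith : 0 < Wp (l + 1) - Wp l)
    exact div_pos h1 hSW'
  · rw [Finset.range_eq_Ico, hWr 0 N (by omega) le_rfl, hW0, hWN, sub_zero, div_self hSW'.ne']
  · intro i hi
    exact div_nonpos_of_nonpos_of_nonneg (by exact_mod_cast hC1 i hi) hSS.le
  · intro i j hij hj
    show (Cz i j : ℝ) / (SX * SW) ≤
      2 * ((X (j - 1) : ℝ) / SX - (X i : ℝ) / SX) * ∑ l ∈ Finset.Ico i j,
        ((Wp (l + 1) - Wp l : ℤ) : ℝ) / SW
    rw [hWr i j (by omega) hj]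
    have h1 : (Cz i j : ℝ) ≤ ((2 * (X (j - 1) - X i) * (Wp j - Wp i) : ℤ) : ℝ) := by
      exact_mod_cast hleaf i j hij hj
    calc (Cz i j : ℝ) / (SX * SW)
        ≤ ((2 * (X (j - 1) - X i) * (Wp j - Wp i) : ℤ) : ℝ) / (SX * SW) :=
          div_le_div_of_nonneg_right h1 hSS.le
      _ = _ := by
          push_cast
          field_simp
  · intro i s j h1 h2 h3
    show (Cz i j : ℝ) / (SX * SW) ≤ (Cz i s : ℝ) / (SX * SW) + (Cz s j : ℝ) / (SX * SW) +
      (∑ l ∈ Finset.Ico i s, ((Wp (l + 1) - Wp l : ℤ) : ℝ) / SW *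
          ((X (s - 1) : ℝ) / SX - (X l : ℝ) / SX) +
        ∑ l ∈ Finset.Ico s j, ((Wp (l + 1) - Wp l : ℤ) : ℝ) / SW *
          ((X l : ℝ) / SX - (X (s - 1) : ℝ) / SX))
    rw [hlin i s j (X (s - 1)) h1.le h2.le h3, ← add_div, ← add_div]
    refine div_le_div_of_nonneg_right ?_ hSS.le
    exact_mod_cast hcut1 i s j h1 h2 h3
  · intro i s j h1 h2 h3
    show (Cz i j : ℝ) / (SX * SW) ≤ (Cz i s : ℝ) / (SX * SW) + (Cz s j : ℝ) / (SX * SW) +
      (∑ l ∈ Finset.Ico i s, ((Wp (l + 1) - Wp l : ℤ) : ℝ) / SW *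
          ((X s : ℝ) / SX - (X l : ℝ) / SX) +
        ∑ l ∈ Finset.Ico s j, ((Wp (l + 1) - Wp l : ℤ) : ℝ) / SW *
          ((X l : ℝ) / SX - (X s : ℝ) / SX))
    rw [hlin i s j (X s) h1.le h2.le h3, ← add_div, ← add_div]
    refine div_le_div_of_nonneg_right ?_ hSS.le
    exact_mod_cast hcut2 i s j h1 h2 h3

end Pool.Agent.HighLow
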