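import Pool.Agent.HighLow_e5c6.Game

/-!
# A rational version of Alpern's continuation strategy

In state `k` (number of guesses that were too low minus number of guesses that were too high)
with current interval `[a, b]` the next guess is `a + cG k * (b - a)`; for `|k| ≥ 6` Red continues
by bisection.  The remaining payoff is at most `cA k * (b - a) - k * (h - a)`.
-/

set_option autoImplicit false

namespace Pool.Agent.HighLow

open MeasureTheory Set
open scoped ENNReal

/-- Position of the next guess in state `k`. -/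
noncomputable def cG (k : ℤ) : ℝ :=
  if k = 0 then 1 / 2
  else if k = 1 then 7688 / 10000
  else if k = 2 then 9237 / 10000
  else if k = 3 then 9809 / 10000
  else if k = 4 then 9961 / 10000
  else if k = 5 then 9994 / 10000
  else if k = -1 then 1 - 7688 / 10000
  else if k = -2 then 1 - 9237 / 10000
  else if k = -3 then 1 - 9809 / 10000
  else if k = -4 then 1 - 9961 / 10000
  else 1 - 9994 / 10000

/-- Ten thousand times the constant `cA k`. -/
def cAz (k : ℤ) : ℤ :=
  if k = 0 then 6246
  else if k = 1 then 12492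
  else if k = 2 then 20778
  else if k = 3 then 30193
  else if k = 4 then 40040
  else if k = 5 then 50012
  else if k = -1 then 2492
  else if k = -2 then 778
  else if k = -3 then 193
  else if k = -4 then 40
  else if k = -5 then 12
  else max k 0 * 10000 + 10000

/-- The constant in the payoff bound for state `k`. -/
noncomputable def cA (k : ℤ) : ℝ := (cAz k : ℝ) / 10000

lemma cG_nonneg (k : ℤ) : 0 ≤ cG k := by
  unfold cG
  split_ifs <;> norm_num

lemma cG_le_one (k : ℤ) : cG k ≤ 1 := by
  unfold cG
  split_ifs <;> norm_num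

lemma cA_large {k : ℤ} (hk : 6 ≤ |k|) : cA k = max (k : ℝ) 0 + 1 := by
  unfold cA cAz
  have h : ∀ m : ℤ, |m| < 6 → k ≠ m := by
    intro m hm he
    rw [he] at hk
    omega
  rw [if_neg (h 0 (by norm_num)), if_neg (h 1 (by norm_num)), if_neg (h 2 (by norm_num)),
    if_neg (h 3 (by norm_num)), if_neg (h 4 (by norm_num)), if_neg (h 5 (by norm_num)),
    if_neg (h (-1) (by norm_num)), if_neg (h (-2) (by norm_num)), if_neg (h (-3) (by norm_num)),
    if_neg (h (-4) (by norm_num)), if_neg (h (-5) (by norm_num))]
  push_cast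
  ring

lemma cA_left {k : ℤ} (hk : |k| < 6) : cG k * (1 + cA (k - 1)) ≤ cA k := by
  rw [abs_lt] at hk
  obtain ⟨h1, h2⟩ := hk
  interval_cases k <;> norm_num [cG, cA, cAz]

lemma cA_right {k : ℤ} (hk : |k| < 6) : cA (k + 1) * (1 - cG k) + k * cG k ≤ cA k := by
  rw [abs_lt] at hk
  obtain ⟨h1, h2⟩ := hk
  interval_cases k <;> norm_num [cG, cA, cAz]

lemma cA_ge (k : ℤ) : max (k : ℝ) 0 ≤ cA k := by
  rcases le_or_gt 6 |k| with hk | hk
  · rw [cA_large hk]; linarith
  · rw [abs_lt] at hk
    obtain ⟨h1, h2⟩ := hk
    interval_cases k <;> norm_num [cA, cAz]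

lemma cA_bound_nonneg {k : ℤ} {a b h : ℝ} (h1 : a ≤ h) (h2 : h ≤ b) :
    0 ≤ cA k * (b - a) - k * (h - a) := by
  have h3 := cA_ge k
  have h4 : (k : ℝ) * (h - a) ≤ max (k : ℝ) 0 * (b - a) := by
    calc (k : ℝ) * (h - a) ≤ max (k : ℝ) 0 * (h - a) :=
          mul_le_mul_of_nonneg_right (le_max_left _ _) (by linarith)
      _ ≤ max (k : ℝ) 0 * (b - a) :=
          mul_le_mul_of_nonneg_left (by linarith) (le_max_right _ _)
  have h5 : max (k : ℝ) 0 * (b - a) ≤ cA k * (b - a) :=
    mul_le_mul_of_nonneg_right h3 (by linarith)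
  linarith

/-- The guesses of the continuation strategy. -/
noncomputable def con : List Bool → ℤ → ℝ → ℝ → ℝ
  | [], k, a, b => if 6 ≤ |k| then (a + b) / 2 else a + cG k * (b - a)
  | true :: L, k, a, b => if 6 ≤ |k| then bis ((a + b) / 2) b L
      else con L (k + 1) (a + cG k * (b - a)) b
  | false :: L, k, a, b => if 6 ≤ |k| then bis a ((a + b) / 2) L
      else con L (k - 1) a (a + cG k * (b - a))

/-- The continuation strategy in state `k` on `[a, b]`. -/
noncomputable def conS (k : ℤ) (a b : ℝ) : Strategy :=
  fun L => projIcc 0 1 zero_le_one (con L k a b)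

lemma conS_large {k : ℤ} (hk : 6 ≤ |k|) (a b : ℝ) : conS k a b = bisS a b := by
  funext L
  unfold conS bisS
  congr 1
  rcases L with _ | ⟨x, L⟩
  · rw [con, if_pos hk]; rfl
  · cases x
    · rw [con, if_pos hk]; rfl
    · rw [con, if_pos hk]; rfl

lemma pay_conS (n : ℕ) : ∀ (k : ℤ) (a b : ℝ), 0 ≤ a → b ≤ 1 → ∀ h : Icc (0 : ℝ) 1, a ≤ h →
    (h : ℝ) ≤ b → pay n (conS k a b) h ≤ ENNReal.ofReal (cA k * (b - a) - k * (h - a)) := by
  induction n with
  | zero => intro k a b _ _ h _ _; simp [pay]
  | succ n ih =>
    intro k a b ha hb h h1 h2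
    rcases le_or_gt 6 |k| with hk | hk
    · rw [conS_large hk]
      refine (pay_bisS (n + 1) a b ha hb h h1 h2).trans (ENNReal.ofReal_le_ofReal ?_)
      rw [cA_large hk]
      rcases le_total (k : ℝ) 0 with h0 | h0
      · rw [max_eq_right h0]
        have : (k : ℝ) * (h - a) ≤ 0 := mul_nonpos_of_nonpos_of_nonneg h0 (by linarith)
        linarith
      · rw [max_eq_left h0]
        have : (k : ℝ) * (h - a) ≤ k * (b - a) := mul_le_mul_of_nonneg_left (by linarith) h0
        linarith
    · have hk' : ¬ 6 ≤ |k| := not_le.2 hk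
      set c := a + cG k * (b - a) with hc
      have hac : a ≤ c := by
        have := mul_nonneg (cG_nonneg k) (sub_nonneg.2 (h1.trans h2))
        linarith
      have hcb : c ≤ b := by
        have := mul_le_mul_of_nonneg_right (cG_le_one k) (sub_nonneg.2 (h1.trans h2))
        linarith
      have hcv : ((conS k a b [] : Icc (0 : ℝ) 1) : ℝ) = c := by
        simp only [conS, con, if_neg hk']
        rw [projIcc_of_mem zero_le_one (show a + cG k * (b - a) ∈ Icc (0 : ℝ) 1 from
          ⟨by linarith, by linarith⟩)]
      have hst : sub (conS k a b) true = conS (k + 1) c b := by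
        funext L
        simp only [sub, conS, con, if_neg hk', hc]
      have hsf : sub (conS k a b) false = conS (k - 1) a c := by
        funext L
        simp only [sub, conS, con, if_neg hk', hc]
      rw [pay]
      rw [hcv]
      split_ifs with c1 c2
      · have : ((conS k a b [] : Icc (0 : ℝ) 1) : ℝ) = h := by rw [c1]
        rw [hcv] at this
        rw [this, sub_self, abs_zero, ENNReal.ofReal_zero, add_zero]
        exact zero_le
      · have h3 : ((conS k a b [] : Icc (0 : ℝ) 1) : ℝ) < h := c2
        rw [hcv] at h3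
        rw [hst]
        refine (add_le_add le_rfl (ih (k + 1) c b (by linarith) hb h h3.le h2)).trans ?_
        rw [← ENNReal.ofReal_add (abs_nonneg _) (cA_bound_nonneg h3.le h2)]
        apply ENNReal.ofReal_le_ofReal
        rw [abs_sub_comm, abs_of_pos (by linarith)]
        have h4 := mul_le_mul_of_nonneg_right (cA_right hk) (sub_nonneg.2 (h1.trans h2))
        have h5 : b - c = (1 - cG k) * (b - a) := by rw [hc]; ring
        have h6 : c - a = cG k * (b - a) := by rw [hc]; ring
        push_cast
        have h7 : cA (k + 1) * (b - c) + k * (c - a) ≤ cA k * (b - a) := by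
          rw [h5, h6]
          calc cA (k + 1) * ((1 - cG k) * (b - a)) + k * (cG k * (b - a))
              = (cA (k + 1) * (1 - cG k) + k * cG k) * (b - a) := by ring
            _ ≤ cA k * (b - a) := h4
        linarith
      · have h3 : (h : ℝ) ≤ c := by
          rw [← hcv]
          exact not_lt.1 c2
        rw [hsf]
        refine (add_le_add le_rfl (ih (k - 1) a c ha (by linarith) h h1 h3)).trans ?_
        rw [← ENNReal.ofReal_add (abs_nonneg _) (cA_bound_nonneg h1 h3)]
        apply ENNReal.ofReal_le_ofReal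
        rw [abs_of_nonneg (by linarith)]
        have h4 := mul_le_mul_of_nonneg_right (cA_left hk) (sub_nonneg.2 (h1.trans h2))
        have h6 : c - a = cG k * (b - a) := by rw [hc]; ring
        push_cast
        have h7 : (c - a) + cA (k - 1) * (c - a) ≤ cA k * (b - a) := by
          rw [h6]
          calc cG k * (b - a) + cA (k - 1) * (cG k * (b - a))
              = (cG k * (1 + cA (k - 1))) * (b - a) := by ring
            _ ≤ cA k * (b - a) := h4
        linarith

lemma payoff_conS {k : ℤ} {a b : ℝ} (ha : 0 ≤ a) (hb : b ≤ 1) (h : Icc (0 : ℝ) 1) (h1 : a ≤ h)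
    (h2 : (h : ℝ) ≤ b) :
    payoff (conS k a b) h ≤ ENNReal.ofReal (cA k * (b - a) - k * (h - a)) := by
  rw [payoff_eq_iSup]
  exact iSup_le fun n => pay_conS n k a b ha hb h h1 h2

end Pool.Agent.HighLow
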