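import Pool.Agent.HighLow_e5c6.Smear

/-!
# Existence of an optimal hider strategy, and absence of atoms
-/

set_option autoImplicit false
set_option linter.unusedSectionVars false
set_option linter.unusedVariables false

namespace Pool.Agent.HighLow

open MeasureTheory Set STree Filter Topology
open scoped ENNReal BoundedContinuousFunction

/-- Truncated distance to the cuts. -/
noncomputable def dcut : STree → ℝ → ℝ
  | leaf, _ => 1
  | node c l r, h => min |c - h| (min (dcut l h) (dcut r h))

lemma continuous_dcut (T : STree) : Continuous (dcut T) := by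
  induction T with
  | leaf => exact continuous_const
  | node c l r ihl ihr =>
    exact ((continuous_const.sub continuous_id).abs).min (ihl.min ihr)

lemma dcut_nonneg (T : STree) (h : ℝ) : 0 ≤ dcut T h := by
  induction T with
  | leaf => exact zero_le_one
  | node c l r ihl ihr => exact le_min (abs_nonneg _) (le_min ihl ihr)

lemma dcut_pos {T : STree} {h : ℝ} (hT : All (fun c => c ≠ h) T) : 0 < dcut T h := by
  induction T with
  | leaf => exact one_pos
  | node c l r ihl ihr =>
    exact lt_min (abs_pos.2 (sub_ne_zero.2 hT.1)) (lt_min (ihl hT.2.1) (ihr hT.2.2))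

lemma all_of_dcut {T : STree} {h : ℝ} (hd : dcut T h ≠ 0) : All (fun c => c ≠ h) T := by
  induction T with
  | leaf => trivial
  | node c l r ihl ihr =>
    have h1 : 0 < dcut (node c l r) h := lt_of_le_of_ne (dcut_nonneg _ _) (Ne.symm hd)
    have h2 : 0 < min |c - h| (min (dcut l h) (dcut r h)) := h1
    rw [lt_min_iff, lt_min_iff] at h2
    refine ⟨?_, ihl h2.2.1.ne', ihr h2.2.2.ne'⟩
    intro hc
    rw [hc, sub_self, abs_zero] at h2
    exact lt_irrefl _ h2.1

lemma continuousAt_cost (T : STree) : ∀ (a b h : ℝ), All (fun c => c ≠ h) T →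
    ContinuousAt (fun y => cost T a b y) h := by
  induction T with
  | leaf => intro a b h _; simp only [cost_leaf]; exact continuousAt_const
  | node c l r ihl ihr =>
    intro a b h hT
    rcases lt_or_gt_of_ne hT.1 with hc | hc
    · have h1 : (fun y => cost (node c l r) a b y) =ᶠ[𝓝 h]
          fun y => (y - c) + cost r (max a c) b y := by
        filter_upwards [lt_mem_nhds hc] with y hy
        exact cost_node_ge (le_of_lt hy)
      refine ContinuousAt.congr ?_ h1.symm
      exact (continuousAt_id.sub continuousAt_const).add (ihr _ _ _ hT.2.2)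
    · have h1 : (fun y => cost (node c l r) a b y) =ᶠ[𝓝 h]
          fun y => (c - y) + cost l a (min b c) y := by
        filter_upwards [gt_mem_nhds hc] with y hy
        exact cost_node_lt hy
      refine ContinuousAt.congr ?_ h1.symm
      exact (continuousAt_const.sub continuousAt_id).add (ihl _ _ _ hT.2.1)

/-- A continuous majorant of the cost, close to it away from the cuts. -/
lemma exists_majorant (T : STree) {M : ℝ} (hM0 : 0 ≤ M)
    (hM : ∀ h : Icc (0 : ℝ) 1, cost T 0 1 h ≤ M) {s : ℝ} (hs : 0 < s) :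
    ∃ f : Icc (0 : ℝ) 1 →ᵇ ℝ, (∀ h : Icc (0 : ℝ) 1, cost T 0 1 h ≤ f h) ∧
      ∀ h : Icc (0 : ℝ) 1, f h ≤ cost T 0 1 h + M * (1 - min 1 (dcut T h / s)) := by
  set χ : ℝ → ℝ := fun y => min 1 (dcut T y / s) with hχ
  have hχc : Continuous χ := continuous_const.min ((continuous_dcut T).div_const s)
  have hχ0 : ∀ y, 0 ≤ χ y := fun y => le_min zero_le_one (div_nonneg (dcut_nonneg T y) hs.le)
  have hχ1 : ∀ y, χ y ≤ 1 := fun y => min_le_left _ _
  have hcont : Continuous (fun h : Icc (0 : ℝ) 1 => χ h * cost T 0 1 h) := by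
    rw [continuous_iff_continuousAt]
    intro h
    by_cases hd : dcut T h = 0
    · have hχh : χ h = 0 := by simp only [hχ, hd, zero_div]; exact min_eq_right zero_le_one
      have hval : χ h * cost T 0 1 h = 0 := by rw [hχh, zero_mul]
      show Tendsto _ _ (𝓝 (χ h * cost T 0 1 h))
      rw [hval]
      have hlim : Tendsto (fun y : Icc (0 : ℝ) 1 => χ y * M) (𝓝 h) (𝓝 0) := by
        have h1 : Continuous (fun y : Icc (0 : ℝ) 1 => χ y * M) :=
          (hχc.comp continuous_subtype_val).mul continuous_const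
        have h2 := h1.tendsto h
        rw [hχh, zero_mul] at h2
        exact h2
      refine squeeze_zero (fun y => mul_nonneg (hχ0 _) (cost_nonneg T y.2.1 y.2.2)) (fun y => ?_)
        hlim
      exact mul_le_mul_of_nonneg_left (hM y) (hχ0 _)
    · have h1 : ContinuousAt (fun y : ℝ => χ y * cost T 0 1 y) h :=
        hχc.continuousAt.mul (continuousAt_cost T 0 1 h (all_of_dcut hd))
      exact ContinuousAt.comp (f := fun y : Icc (0 : ℝ) 1 => (y : ℝ)) h1
        continuous_subtype_val.continuousAt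
  set f : Icc (0 : ℝ) 1 → ℝ := fun h => χ h * cost T 0 1 h + (1 - χ h) * M with hf
  have hfc : Continuous f :=
    hcont.add ((continuous_const.sub (hχc.comp continuous_subtype_val)).mul continuous_const)
  refine ⟨BoundedContinuousFunction.mkOfCompact ⟨f, hfc⟩, fun h => ?_, fun h => ?_⟩
  · show cost T 0 1 h ≤ f h
    simp only [hf]
    have h1 := hM h
    have h2 := hχ1 h
    nlinarith
  · show f h ≤ _
    simp only [hf]
    have h1 := cost_nonneg T h.2.1 h.2.2
    have h2 := hχ1 h
    nlinarith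

lemma integrable_cost01 (ν : Measure (Icc (0 : ℝ) 1)) [IsFiniteMeasure ν] (T : STree) :
    Integrable (fun h : Icc (0 : ℝ) 1 => cost T 0 1 h) ν := by
  obtain ⟨M, hM0, hM⟩ := exists_bound T 0 1
  refine Integrable.of_bound ((measurable_cost T 0 1).comp
    measurable_subtype_coe).aestronglyMeasurable M (Filter.Eventually.of_forall fun h => ?_)
  rw [Real.norm_eq_abs]
  rw [abs_of_nonneg (cost_nonneg T h.2.1 h.2.2)]
  exact hM le_rfl le_rfl h.2.1 h.2.2

/-- If all continuous majorants of costs have large integral, so do the costs of trees with null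
cuts. -/
lemma cost_ge_of_majorants (ν : Measure (Icc (0 : ℝ) 1)) [IsProbabilityMeasure ν] {v : ℝ}
    (H : ∀ (T : STree) (f : Icc (0 : ℝ) 1 →ᵇ ℝ), (∀ h : Icc (0 : ℝ) 1, cost T 0 1 h ≤ f h) → v ≤ ∫ h, f h ∂ν)
    (T : STree) (hT : ∀ᵐ h : Icc (0 : ℝ) 1 ∂ν, All (fun c => c ≠ (h : ℝ)) T) :
    v ≤ ∫ h : Icc (0 : ℝ) 1, cost T 0 1 h ∂ν := by
  obtain ⟨M, hM0, hM⟩ := exists_bound T 0 1
  have hM' : ∀ h : Icc (0 : ℝ) 1, cost T 0 1 h ≤ M := fun h => hM le_rfl le_rfl h.2.1 h.2.2
  set s : ℕ → ℝ := fun n => 1 / ((n : ℝ) + 1) with hs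
  have hs0 : ∀ n, 0 < s n := fun n => by positivity
  set F : ℕ → Icc (0 : ℝ) 1 → ℝ := fun n h => M * (1 - min 1 (dcut T h / s n)) with hF
  have hFcont : ∀ n, Continuous (F n) := fun n =>
    continuous_const.mul (continuous_const.sub (continuous_const.min
      (((continuous_dcut T).comp continuous_subtype_val).div_const (s n))))
  have hF0 : ∀ n h, 0 ≤ F n h := fun n h =>
    mul_nonneg hM0 (sub_nonneg.2 (min_le_left _ _))
  have hFM : ∀ n h, F n h ≤ M := fun n h => by
    have : 0 ≤ min 1 (dcut T h / s n) :=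
      le_min zero_le_one (div_nonneg (dcut_nonneg T h) (hs0 n).le)
    simp only [hF]
    nlinarith
  have hlim : Tendsto (fun n => ∫ h, F n h ∂ν) atTop (𝓝 (∫ h, (0 : ℝ) ∂ν)) := by
    refine tendsto_integral_of_dominated_convergence (fun _ => M)
      (fun n => (hFcont n).aestronglyMeasurable) (integrable_const _) ?_ ?_
    · intro n
      refine Filter.Eventually.of_forall fun h => ?_
      rw [Real.norm_eq_abs, abs_of_nonneg (hF0 n h)]
      exact hFM n h
    · filter_upwards [hT] with h hh
      have hd := dcut_pos hh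
      refine tendsto_const_nhds.congr' ?_
      obtain ⟨N, hN⟩ := exists_nat_gt (1 / dcut T h)
      filter_upwards [eventually_ge_atTop N] with n hn
      have h1 : 1 ≤ dcut T h / s n := by
        rw [le_div_iff₀ (hs0 n), one_mul]
        simp only [hs]
        rw [div_le_iff₀ (by positivity)]
        rw [div_lt_iff₀ hd] at hN
        have : (N : ℝ) ≤ n := by exact_mod_cast hn
        nlinarith
      simp only [hF]
      rw [min_eq_left h1, sub_self, mul_zero]
  rw [integral_zero] at hlim
  have hall : ∀ n, v - ∫ h : Icc (0 : ℝ) 1, cost T 0 1 h ∂ν ≤ ∫ h, F n h ∂ν := by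
    intro n
    obtain ⟨f, hf1, hf2⟩ := exists_majorant T hM0 hM' (hs0 n)
    have h1 := H T f hf1
    have hFi : Integrable (F n) ν := by
      refine Integrable.of_bound (hFcont n).aestronglyMeasurable M
        (Filter.Eventually.of_forall fun h => ?_)
      rw [Real.norm_eq_abs, abs_of_nonneg (hF0 n h)]
      exact hFM n h
    have h2 : ∫ h, f h ∂ν ≤ ∫ h : Icc (0 : ℝ) 1, (cost T 0 1 h + F n h) ∂ν :=
      integral_mono (f.integrable ν) ((integrable_cost01 ν T).add hFi) hf2
    rw [integral_add (integrable_cost01 ν T) hFi] at h2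
    linarith
  have := ge_of_tendsto' hlim hall
  linarith

/-- The relaxed value attains its maximum. -/
theorem exists_relaxed_optimal : ∃ ν : ProbabilityMeasure (Icc (0 : ℝ) 1),
    ∀ (T : STree) (f : Icc (0 : ℝ) 1 →ᵇ ℝ), (∀ h : Icc (0 : ℝ) 1, cost T 0 1 h ≤ f h) →
      vR ≤ ∫ h, f h ∂(ν : Measure (Icc (0 : ℝ) 1)) := by
  set ε : ℕ → ℝ := fun n => 1 / ((n : ℝ) + 1) with hε
  have hε0 : ∀ n, 0 < ε n := fun n => by positivity
  set K : ℕ → Set (ProbabilityMeasure (Icc (0 : ℝ) 1)) := fun n =>
    {ν | ∀ (T : STree) (f : Icc (0 : ℝ) 1 →ᵇ ℝ), (∀ h : Icc (0 : ℝ) 1, cost T 0 1 h ≤ f h) →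
      vR - ε n ≤ ∫ h, f h ∂(ν : Measure (Icc (0 : ℝ) 1))} with hK
  have hclosed : ∀ n, IsClosed (K n) := by
    intro n
    simp only [hK, Set.ofPred_forall]
    refine isClosed_iInter fun T => isClosed_iInter fun f => isClosed_iInter fun _ => ?_
    exact isClosed_le continuous_const
      (ProbabilityMeasure.continuous_integral_boundedContinuousFunction f)
  have hanti : ∀ n, K (n + 1) ⊆ K n := by
    intro n ν hν T f hf
    refine le_trans ?_ (hν T f hf)
    have : ε (n + 1) ≤ ε n := by
      simp only [hε]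
      apply one_div_le_one_div_of_le (by positivity)
      push_cast
      linarith
    linarith
  have hne : ∀ n, (K n).Nonempty := by
    intro n
    rcases le_or_gt (vR - ε n) 0 with h0 | h0
    · refine ⟨diracProba ⟨0, by norm_num, by norm_num⟩, fun T f hf => h0.trans ?_⟩
      exact integral_nonneg fun h => (cost_nonneg T h.2.1 h.2.2).trans (hf h)
    · have h1 : ENNReal.ofReal (vR - ε n) < maximin := by
        rw [← ofReal_vR]
        exact (ENNReal.ofReal_lt_ofReal_iff (by linarith [hε0 n])).2 (by linarith [hε0 n])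
      obtain ⟨ν, hν⟩ := lt_iSup_iff.1 h1
      refine ⟨ν, fun T f hf => ?_⟩
      obtain ⟨g, hg⟩ := exists_strategy T 0 1 le_rfl le_rfl
      have h2 : ENNReal.ofReal (vR - ε n) ≤
          ENNReal.ofReal (∫ h, f h ∂(ν : Measure (Icc (0 : ℝ) 1))) := by
        rw [ofReal_integral_eq_lintegral_ofReal (f.integrable _)
          (Filter.Eventually.of_forall fun h => (cost_nonneg T h.2.1 h.2.2).trans (hf h))]
        refine hν.le.trans ((guaranteed_le ν g).trans (lintegral_mono fun h => ?_))
        exact (hg h h.2.1 h.2.2).trans (ENNReal.ofReal_le_ofReal (hf h))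
      exact (ENNReal.ofReal_le_ofReal_iff (integral_nonneg fun h =>
        (cost_nonneg T h.2.1 h.2.2).trans (hf h))).1 h2
  obtain ⟨ν, hν⟩ := IsCompact.nonempty_iInter_of_sequence_nonempty_isCompact_isClosed K hanti hne
    (hclosed 0).isCompact hclosed
  refine ⟨ν, fun T f hf => ?_⟩
  rw [mem_iInter] at hν
  refine le_of_forall_pos_le_add fun η hη => ?_
  obtain ⟨n, hn⟩ := exists_nat_one_div_lt hη
  have h1 := hν n T f hf
  have h2 : ε n < η := hn
  linarith

/-! ### Reflection -/

/-- The mirror image of a tree. -/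
noncomputable def mir : STree → STree
  | leaf => leaf
  | node c l r => node (1 - c) (mir r) (mir l)

lemma cost_mir (T : STree) : ∀ (a b h : ℝ), All (fun c => c ≠ h) T →
    cost (mir T) (1 - b) (1 - a) (1 - h) = cost T a b h := by
  induction T with
  | leaf => intro a b h _; simp only [mir, cost_leaf]; ring
  | node c l r ihl ihr =>
    intro a b h hT
    rcases lt_or_gt_of_ne hT.1 with hc | hc
    · rw [mir, cost_node_lt (show 1 - h < 1 - c by linarith), cost_node_ge hc.le]
      have h1 : min (1 - a) (1 - c) = 1 - max a c := by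
        rcases le_total a c with h2 | h2
        · rw [max_eq_right h2, min_eq_right (by linarith)]
        · rw [max_eq_left h2, min_eq_left (by linarith)]
      rw [h1, ihr _ _ _ hT.2.2]
      ring
    · rw [mir, cost_node_ge (show 1 - c ≤ 1 - h by linarith), cost_node_lt hc]
      have h1 : max (1 - b) (1 - c) = 1 - min b c := by
        rcases le_total b c with h2 | h2
        · rw [min_eq_left h2, max_eq_left (by linarith)]
        · rw [min_eq_right h2, max_eq_right (by linarith)]
      rw [h1, ihl _ _ _ hT.2.1]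
      ring

lemma null_mir {μ : Measure ℝ} {T : STree} (hT : Null (μ.map (fun y => 1 - y)) T) :
    Null μ (mir T) := by
  induction T with
  | leaf => trivial
  | node c l r ihl ihr =>
    refine ⟨?_, ihr hT.2.2, ihl hT.2.1⟩
    have h1 : (μ.map (fun y => 1 - y)) {c} = 0 := hT.1
    rw [Measure.map_apply (by fun_prop) (measurableSet_singleton c)] at h1
    have h2 : (fun y : ℝ => 1 - y) ⁻¹' {c} = {1 - c} := by
      ext y
      simp only [mem_preimage, mem_singleton_iff]
      constructor <;> intro h <;> linarith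
    rwa [h2] at h1

/-- A maximiser of the relaxed value has no atoms. -/
theorem no_atoms (μ : Measure ℝ) [IsProbabilityMeasure μ] (hμ : μ (Icc 0 1)ᶜ = 0)
    (H1 : ∀ T, Null μ T → vR ≤ ∫ h in Icc 0 1, cost T 0 1 h ∂μ) (x : ℝ) : μ {x} = 0 := by
  rcases lt_or_ge 1 x with h1 | h1
  · refine measure_mono_null ?_ hμ
    rw [Set.singleton_subset_iff]
    intro hmem
    exact absurd hmem.2 (not_le.2 h1)
  rcases lt_trichotomy x 0 with h0 | h0 | h0
  · refine measure_mono_null ?_ hμ
    rw [Set.singleton_subset_iff]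
    intro hmem
    exact absurd hmem.1 (not_le.2 h0)
  · -- reflection
    set μ' := μ.map (fun y : ℝ => 1 - y) with hμ'
    have hm : Measurable (fun y : ℝ => 1 - y) := by fun_prop
    have : IsProbabilityMeasure μ' := Measure.isProbabilityMeasure_map hm.aemeasurable
    have hc : μ' (Icc 0 1)ᶜ = 0 := by
      rw [hμ', Measure.map_apply hm measurableSet_Icc.compl]
      have : (fun y : ℝ => 1 - y) ⁻¹' (Icc 0 1)ᶜ = (Icc 0 1)ᶜ := by
        ext y
        simp only [mem_preimage, mem_compl_iff, mem_Icc, not_iff_not]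
        constructor <;> rintro ⟨h2, h3⟩ <;> constructor <;> linarith
      rw [this]
      exact hμ
    have h2 := atom_exclusion μ' hc vR_nonneg vR_le_one (fun T hT => ?_)
      (fun μ hp hμ ε hε => relaxed_le μ hp hμ ε hε) (x := 1) one_pos le_rfl
    · rw [hμ', Measure.map_apply hm (measurableSet_singleton 1)] at h2
      have h3 : (fun y : ℝ => 1 - y) ⁻¹' {1} = {x} := by
        ext y
        simp only [mem_preimage, mem_singleton_iff]
        constructor <;> intro h <;> linarith
      rwa [h3] at h2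
    · have hn := null_mir hT
      refine (H1 (mir T) hn).trans (le_of_eq ?_)
      rw [hμ', setIntegral_map measurableSet_Icc
        (measurable_cost T 0 1).aestronglyMeasurable hm.aemeasurable]
      have e1 : (fun y : ℝ => 1 - y) ⁻¹' (Icc 0 1) = Icc 0 1 := by
        ext y
        simp only [mem_preimage, mem_Icc]
        constructor <;> rintro ⟨h2, h3⟩ <;> constructor <;> linarith
      rw [e1]
      refine integral_congr_ae ?_
      have hall := all_ne_ae hT
      rw [ae_map_iff hm.aemeasurable] at hall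
      · filter_upwards [ae_restrict_of_ae hall] with y hy
        have := cost_mir T 0 1 (1 - y) hy
        simpa using this
      · have : {h : ℝ | All (fun c => c ≠ h) T} = {h : ℝ | dcut T h ≠ 0} := by
          ext h
          exact ⟨fun h1 => (dcut_pos h1).ne', fun h1 => all_of_dcut h1⟩
        rw [this]
        exact (measurableSet_eq_fun (continuous_dcut T).measurable measurable_const).compl
  · exact atom_exclusion μ hμ vR_nonneg vR_le_one H1
      (fun μ hp hμ ε hε => relaxed_le μ hp hμ ε hε) h0 h1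

/-- The measure on the real line associated with a hider strategy. -/
noncomputable def toR (ν : Measure (Icc (0 : ℝ) 1)) : Measure ℝ := ν.map ((↑) : Icc (0 : ℝ) 1 → ℝ)

lemma toR_compl (ν : Measure (Icc (0 : ℝ) 1)) : toR ν (Icc 0 1)ᶜ = 0 := by
  unfold toR
  rw [Measure.map_apply measurable_subtype_coe measurableSet_Icc.compl]
  have : ((↑) : Icc (0 : ℝ) 1 → ℝ) ⁻¹' (Icc 0 1)ᶜ = ∅ := by
    ext h
    simp only [mem_preimage, mem_compl_iff, mem_empty_iff_false, iff_false, not_not]
    exact h.2
  rw [this, measure_empty]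

lemma toR_singleton (ν : Measure (Icc (0 : ℝ) 1)) (h : Icc (0 : ℝ) 1) :
    toR ν {(h : ℝ)} = ν {h} := by
  unfold toR
  rw [Measure.map_apply measurable_subtype_coe (measurableSet_singleton _)]
  congr 1
  ext y
  simp only [mem_preimage, mem_singleton_iff]
  exact Subtype.coe_inj

lemma int_toR (ν : Measure (Icc (0 : ℝ) 1)) (T : STree) :
    ∫ h in Icc 0 1, cost T 0 1 h ∂(toR ν) = ∫ h : Icc (0 : ℝ) 1, cost T 0 1 h ∂ν := by
  have e1 : (toR ν).restrict (Icc 0 1) = toR ν := by
    rw [Measure.restrict_eq_self_of_ae_mem]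
    rw [ae_iff]; exact toR_compl ν
  rw [e1, toR, integral_map measurable_subtype_coe.aemeasurable
    (measurable_cost T 0 1).aestronglyMeasurable]

lemma nonatomic_of_cost_ge (ν : Measure (Icc (0 : ℝ) 1)) [IsProbabilityMeasure ν]
    (H : ∀ T : STree, (∀ᵐ h : Icc (0 : ℝ) 1 ∂ν, All (fun c => c ≠ (h : ℝ)) T) →
      vR ≤ ∫ h : Icc (0 : ℝ) 1, cost T 0 1 h ∂ν) (h : Icc (0 : ℝ) 1) : ν {h} = 0 := by
  have : IsProbabilityMeasure (toR ν) :=
    Measure.isProbabilityMeasure_map measurable_subtype_coe.aemeasurable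
  rw [← toR_singleton]
  refine no_atoms (toR ν) (toR_compl ν) (fun T hT => ?_) h
  rw [int_toR]
  exact H T (ae_of_ae_map measurable_subtype_coe.aemeasurable (all_ne_ae hT))

/-- A nonatomic measure all of whose tree costs are large is optimal. -/
lemma guaranteed_ge_of_nonatomic (ν : ProbabilityMeasure (Icc (0 : ℝ) 1))
    (hna : ∀ h : Icc (0 : ℝ) 1, (ν : Measure (Icc (0 : ℝ) 1)) {h} = 0)
    (H : ∀ T : STree, vR ≤ ∫ h : Icc (0 : ℝ) 1, cost T 0 1 h ∂(ν : Measure (Icc (0 : ℝ) 1))) :
    maximin ≤ guaranteed ν := by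
  refine le_guaranteed fun g => ?_
  rcases eq_or_ne (∫⁻ h, payoff g h ∂(ν : Measure (Icc (0 : ℝ) 1))) ∞ with htop | hfin
  · rw [htop]; exact le_top
  set A := (∫⁻ h, payoff g h ∂(ν : Measure (Icc (0 : ℝ) 1))).toReal with hA
  have hA0 : 0 ≤ A := ENNReal.toReal_nonneg
  have hAe : ∫⁻ h, payoff g h ∂(ν : Measure (Icc (0 : ℝ) 1)) = ENNReal.ofReal A :=
    (ENNReal.ofReal_toReal hfin).symm
  rw [hAe, ← ofReal_vR]
  apply ENNReal.ofReal_le_ofReal
  refine le_of_forall_pos_le_add fun ε hε => ?_
  obtain ⟨T, hT⟩ := exists_trunc (ν : Measure (Icc (0 : ℝ) 1)) hna g hA0 hAe.le hε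
  rw [← ofReal_integral_eq_lintegral_ofReal (integrable_cost01 _ T)
    (Filter.Eventually.of_forall fun h => cost_nonneg T h.2.1 h.2.2)] at hT
  exact (H T).trans ((ENNReal.ofReal_le_ofReal_iff (by linarith)).1 hT)

lemma all_ae_of_nonatomic {ν : Measure (Icc (0 : ℝ) 1)} (hna : ∀ h : Icc (0 : ℝ) 1, ν {h} = 0)
    (T : STree) : ∀ᵐ h : Icc (0 : ℝ) 1 ∂ν, All (fun c => c ≠ (h : ℝ)) T := by
  induction T with
  | leaf => exact Filter.Eventually.of_forall fun _ => trivial
  | node c l r ihl ihr =>
    have h1 : ∀ᵐ h : Icc (0 : ℝ) 1 ∂ν, c ≠ (h : ℝ) := by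
      by_cases hc : c ∈ Icc (0 : ℝ) 1
      · filter_upwards [measure_eq_zero_iff_ae_notMem.1 (hna ⟨c, hc⟩)] with h hh he
        exact hh (Subtype.ext he.symm)
      · exact Filter.Eventually.of_forall fun h he => hc (he ▸ h.2)
    filter_upwards [h1, ihl, ihr] with h h1 h2 h3
    exact ⟨h1, h2, h3⟩

/-- **The hider has an optimal strategy.** -/
theorem exists_optimal : ∃ ν : ProbabilityMeasure (Icc (0 : ℝ) 1), guaranteed ν = maximin := by
  obtain ⟨ν, hν⟩ := exists_relaxed_optimal
  have hna : ∀ h : Icc (0 : ℝ) 1, (ν : Measure (Icc (0 : ℝ) 1)) {h} = 0 :=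
    nonatomic_of_cost_ge (ν : Measure (Icc (0 : ℝ) 1))
      (fun T hT => cost_ge_of_majorants (ν : Measure (Icc (0 : ℝ) 1)) hν T hT)
  refine ⟨ν, le_antisymm (le_iSup guaranteed ν) ?_⟩
  exact guaranteed_ge_of_nonatomic ν hna fun T =>
    cost_ge_of_majorants (ν : Measure (Icc (0 : ℝ) 1)) hν T (all_ae_of_nonatomic hna T)

/-- An optimal strategy has large cost against every tree. -/
lemma cost_ge_of_optimal {ν : ProbabilityMeasure (Icc (0 : ℝ) 1)} (hν : guaranteed ν = maximin)
    (T : STree) : vR ≤ ∫ h : Icc (0 : ℝ) 1, cost T 0 1 h ∂(ν : Measure (Icc (0 : ℝ) 1)) := by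
  obtain ⟨g, hg⟩ := exists_strategy T 0 1 le_rfl le_rfl
  have h2 : ENNReal.ofReal vR ≤
      ENNReal.ofReal (∫ h : Icc (0 : ℝ) 1, cost T 0 1 h ∂(ν : Measure (Icc (0 : ℝ) 1))) := by
    rw [ofReal_integral_eq_lintegral_ofReal (integrable_cost01 _ T)
      (Filter.Eventually.of_forall fun h => cost_nonneg T h.2.1 h.2.2), ofReal_vR, ← hν]
    exact (guaranteed_le ν g).trans (lintegral_mono fun h => hg h h.2.1 h.2.2)
  exact (ENNReal.ofReal_le_ofReal_iff (integral_nonneg fun h =>
    cost_nonneg T h.2.1 h.2.2)).1 h2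

/-- **Optimal hider strategies have no atoms.** -/
theorem optimal_nonatomic {ν : ProbabilityMeasure (Icc (0 : ℝ) 1)}
    (hν : guaranteed ν = maximin) (h : Icc (0 : ℝ) 1) : (ν : Measure (Icc (0 : ℝ) 1)) {h} = 0 :=
  nonatomic_of_cost_ge (ν : Measure (Icc (0 : ℝ) 1)) (fun T _ => cost_ge_of_optimal hν T) h

end Pool.Agent.HighLow
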