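import Pool.Agent.HighLow_e5c6.PathLemma

/-!
# The potential inequality far from the atom
-/

set_option autoImplicit false
set_option linter.unusedSectionVars false
set_option linter.unusedVariables false

namespace Pool.Agent.HighLow

open MeasureTheory Set STree

namespace Setup

variable {ν : Measure ℝ} [IsFiniteMeasure ν] {x : ℝ} (S : Setup ν x)

lemma nonpos_spine {y p R : ℝ} {X : STree} {k₀ j : ℕ} (hks : S.ks ≤ k₀) (hk : k₀ ≤ j)
    (hj : j ≤ S.Ke) (hF : Fine S.δ X p y)
    (hp : ∀ k, k₀ ≤ k → k < j → p ≤ x - u k ∧ x - u k ≤ y) (hR : R ≤ 0) :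
    S.N * ∑ k ∈ Finset.Ico k₀ j, S.τ k - S.M * S.τ (j - 1) ≤
    ∑ k ∈ Finset.Ico k₀ j, S.b k * ((cost X p y (x - u k) - R) / u k) := by
  refine (S.ent_half X hks hk hj le_rfl hF hp).trans ?_
  rw [Finset.mul_sum]
  refine Finset.sum_le_sum fun k hk => ?_
  rw [Finset.mem_Ico] at hk
  have h0 := cost_nonneg X (hp k hk.1 hk.2).1 (hp k hk.1 hk.2).2
  have huk := u_pos k
  have h1 : 0 ≤ cost X p y (x - u k) / u k := div_nonneg h0 huk.le
  have h2 : cost X p y (x - u k) / u k ≤ (cost X p y (x - u k) - R) / u k :=
    div_le_div_of_nonneg_right (by linarith) huk.le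
  have h3 := S.τ_le_b k
  have h4 := S.hτ k
  calc 1 / 2 * (S.τ k * (cost X p y (x - u k) / u k))
      ≤ S.τ k * (cost X p y (x - u k) / u k) := by nlinarith
    _ ≤ S.b k * (cost X p y (x - u k) / u k) := mul_le_mul_of_nonneg_right h3 h1
    _ ≤ _ := mul_le_mul_of_nonneg_left h2 (S.b_nonneg k)

/-- Potential inequality for a right spine that starts far away from the atom. -/
theorem far_spine {y K : ℝ} {j : ℕ} (hks : S.ks < j) (hj : j ≤ S.Ke) (hyx : y < x)
    (hy0 : ν {y} = 0) (hK0 : 0 ≤ K) (hK : K ≤ 3 * u (j - 1))
    (huy : ∀ k, S.ks ≤ k → k < j → x - u k ≤ y) (X : STree) :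
    ∀ (p R : ℝ), Fine S.δ X p y → Null ν X → p ≤ x - 2 * u S.ks → p < y → PP ν x X p y R K →
    -(4 + 32 / ν.real {x}) - max 0 R / (2 * u S.ks) +
      (S.N * ∑ k ∈ Finset.Ico S.ks j, S.τ k - 4 * (S.M * S.τ (j - 1))) ≤
    ∑ k ∈ Finset.Ico S.ks j, S.b k * ((cost X p y (x - u k) - R) / u k) := by
  set m := ν.real {x} with hm
  have hm0 : 0 < m := S.hm
  have hm1 : m ≤ 1 := S.m_le_one
  set ul := u (j - 1) with hul
  have hul0 : 0 < ul := u_pos _
  set U := 2 * u S.ks with hU
  have hU0 : 0 < U := by have := u_pos S.ks; linarith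
  have hMτ : 0 ≤ S.M * S.τ (j - 1) := mul_nonneg S.hM (S.hτ _)
  have h32 : 0 < 32 / m := by positivity
  have hule : ∀ k, S.ks ≤ k → u k ≤ U / 2 := fun k hk => by
    have := u_anti hk
    linarith
  have hsb : ∑ k ∈ Finset.Ico S.ks j, S.b k ≤ 1 := S.sum_b_le_one le_rfl hj
  have hnonpos : ∀ (X : STree) (p R : ℝ), Fine S.δ X p y → p ≤ x - U → R ≤ 0 →
      -(4 + 32 / m) - max 0 R / U +
      (S.N * ∑ k ∈ Finset.Ico S.ks j, S.τ k - 4 * (S.M * S.τ (j - 1))) ≤
      ∑ k ∈ Finset.Ico S.ks j, S.b k * ((cost X p y (x - u k) - R) / u k) := by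
    intro X p R hF hp hR
    have h1 := S.nonpos_spine (y := y) le_rfl hks.le hj hF (fun k h1 h2 =>
      ⟨by linarith [hule k h1], huy k h1 h2⟩) hR
    rw [max_eq_left hR, zero_div]
    linarith
  induction X with
  | leaf =>
    intro p R hF hN hp hpy hPP
    exfalso
    have h1 : y - p ≤ S.δ := hF
    have h2 := S.hδ S.ks (by omega)
    have h3 := huy S.ks le_rfl hks
    have := u_pos S.ks
    linarith
  | node d l r ihl ihr =>
    intro p R hF hN hp hpy hPP
    rcases le_or_gt R 0 with hR | hR
    · exact hnonpos _ p R hF hp hR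
    obtain ⟨hpd, hdy, hFl, hFr⟩ := hF
    set v := x - d with hv
    have hv0 : 0 < v := by linarith
    have hPPr : PP ν x r d y (R - v) K := pp_step hpd.le hdy.le hyx.le hN hPP
    rw [max_eq_right hR.le]
    rcases le_or_gt d (x - U) with hdU | hdU
    · -- a far cut
      have hright : ∀ k ∈ Finset.Ico S.ks j, S.b k *
          ((cost (node d l r) p y (x - u k) - R) / u k) =
          -S.b k + S.b k * ((cost r d y (x - u k) - (R - v)) / u k) := by
        intro k hk
        rw [Finset.mem_Ico] at hk
        have := hule k hk.1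
        rw [cost_node_ge' (by linarith) hpd.le]
        have huk := (u_pos k).ne'
        field_simp
        ring
      rw [Finset.sum_congr rfl hright, Finset.sum_add_distrib, Finset.sum_neg_distrib]
      rcases le_or_gt R v with hRv | hRv
      · have h1 := S.nonpos_spine (y := y) (p := d) (R := R - v) le_rfl hks.le hj hFr (fun k h1 h2 =>
          ⟨by linarith [hule k h1], huy k h1 h2⟩) (by linarith)
        have h2 : 0 ≤ R / U := div_nonneg hR.le hU0.le
        linarith
      · have h1 := ihr d (R - v) hFr hN.2.2 hdU hdy hPPr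
        rw [max_eq_right (by linarith)] at h1
        have h2 : (R - v) / U ≤ R / U - 1 := by
          rw [div_le_iff₀ hU0, sub_mul, div_mul_cancel₀ _ hU0.ne']
          linarith
        linarith
    · -- the first near cut
      have hRv : R ≤ 203 / 200 * v + 3 * ul / m := by
        have h1 := pp_atom_le hdy.le hyx hK0 hPPr
        have h2 := S.near_le (p := d) (by linarith)
        rw [← hm] at h2
        have h7 : (x - d) * ν.real (Ico d x) ≤ v * (m / 200) :=
          mul_le_mul_of_nonneg_left h2 hv0.le
        have h8 : R * m ≤ (203 / 200 * v + 3 * ul / m) * m := by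
          have e1 : (203 / 200 * v + 3 * ul / m) * m = 203 / 200 * (v * m) + 3 * ul := by
            field_simp
          rw [e1]
          have : 0 ≤ v * m := by positivity
          nlinarith
        exact le_of_mul_le_mul_right h8 hm0
      obtain ⟨j', hj1, hj2, hbig, hsmall⟩ := exists_split v S.ks j hks.le
      have hleft : ∀ k ∈ Finset.Ico S.ks j', cost (node d l r) p y (x - u k) =
          (u k - v) + cost l p d (x - u k) := by
        intro k hk
        rw [Finset.mem_Ico] at hk
        have := hbig k hk.1 hk.2
        rw [cost_node_lt' (by linarith) hdy.le]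
        ring
      have hlp : ∀ k, S.ks ≤ k → k < j' → p ≤ x - u k ∧ x - u k ≤ d := fun k h1 h2 =>
        ⟨by linarith [hule k h1], by linarith [hbig k h1 h2]⟩
      have hfirst : -(3 + 3 / m) * ∑ k ∈ Finset.Ico S.ks j', S.b k +
          (S.N * ∑ k ∈ Finset.Ico S.ks j', S.τ k - S.M * S.τ (j' - 1)) ≤
          ∑ k ∈ Finset.Ico S.ks j', S.b k * ((cost (node d l r) p y (x - u k) - R) / u k) := by
        have h1 := S.nonpos_spine (y := d) (p := p) (R := 0) (X := l) le_rfl hj1 (by omega) hFl hlp
          le_rfl
        refine (add_le_add_right h1 _).trans ?_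
        rw [Finset.mul_sum, ← Finset.sum_add_distrib]
        refine Finset.sum_le_sum fun k hk => ?_
        rw [hleft k hk]
        rw [Finset.mem_Ico] at hk
        have hku := hbig k hk.1 hk.2
        have huk := u_pos k
        have hulk : ul ≤ u k := u_anti (by omega)
        have e1 : -(3 + 3 / m) + (cost l p d (x - u k) - 0) / u k ≤
            (u k - v + cost l p d (x - u k) - R) / u k := by
          rw [← sub_nonneg]
          have : (u k - v + cost l p d (x - u k) - R) / u k -
              (-(3 + 3 / m) + (cost l p d (x - u k) - 0) / u k) =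
              ((4 + 3 / m) * u k - v - R) / u k := by
            field_simp
            ring
          rw [this]
          apply div_nonneg _ huk.le
          have h2 : 3 * ul / m ≤ 3 / m * u k := by
            rw [mul_div_right_comm]
            exact mul_le_mul_of_nonneg_left hulk (by positivity)
          linarith
        calc -(3 + 3 / m) * S.b k + S.b k * ((cost l p d (x - u k) - 0) / u k)
            = S.b k * (-(3 + 3 / m) + (cost l p d (x - u k) - 0) / u k) := by ring
          _ ≤ _ := mul_le_mul_of_nonneg_left e1 (S.b_nonneg k)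
      have hsb1 := S.sum_b_le_one (k₀ := S.ks) (j := j') le_rfl (by omega)
      have hb1 := S.sum_b_nonneg S.ks j'
      have h3m : 0 < 3 / m := by positivity
      have h3232 : 32 / m = 3 / m + 29 / m := by ring
      have hR0 : 0 ≤ R / U := div_nonneg hR.le hU0.le
      have hprod : (3 + 3 / m) * ∑ k ∈ Finset.Ico S.ks j', S.b k ≤ 3 + 3 / m := by
        nlinarith
      have hMτ' : S.M * S.τ (j' - 1) ≤ S.M * S.τ (j - 1) :=
        mul_le_mul_of_nonneg_left (S.hτm (by omega)) S.hM
      have h29 : 0 < 29 / m := by positivity
      rcases hj2.eq_or_lt with hjj | hjj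
      · subst hjj
        linarith
      · -- second part
        have hsumb := sum_split hj1 hj2 S.b
        have hsumτ := sum_split hj1 hj2 S.τ
        have hsumc := sum_split hj1 hj2
          (fun k => S.b k * ((cost (node d l r) p y (x - u k) - R) / u k))
        have hsecond : ∑ k ∈ Finset.Ico j' j, S.b k *
            ((cost (node d l r) p y (x - u k) - R) / u k) =
            -∑ k ∈ Finset.Ico j' j, S.b k +
            ∑ k ∈ Finset.Ico j' j, S.b k * ((cost r d y (x - u k) - (R - v)) / u k) := by
          rw [← Finset.sum_neg_distrib, ← Finset.sum_add_distrib]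
          refine Finset.sum_congr rfl fun k hk => ?_
          rw [Finset.mem_Ico] at hk
          have := hsmall k hk.1 hk.2
          rw [cost_node_ge' (by linarith) hpd.le]
          have huk := (u_pos k).ne'
          field_simp
          ring
        have hvu : v ≤ 2 * u j' := by
          rcases hj1.eq_or_lt with h | h
          · rw [← h]; linarith
          · have h1 := hbig (j' - 1) (by omega) (by omega)
            have h2 : u j' = u (j' - 1) / 2 := by
              rw [← u_succ]; congr 1; omega
            linarith
        have hsp := S.spine_lemma (θ := 0) (ζ := 24 * ul / m) (K := K) hj hyx hy0 le_rfl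
          (by norm_num) (by
            rw [le_div_iff₀ hm0, ← hul]; nlinarith) hK0 (by
            rw [← hm]
            have : m / 8 * (24 * ul / m) = 3 * ul := by field_simp; norm_num
            rw [this]; exact hK) r d (R - v) j' hj1 hjj hFr hN.2.2 (by linarith)
          (fun k h1 h2 => hsmall k h1 h2) hvu (fun k h1 h2 => huy k (by omega) h2) hdy hPPr
        have hsb2 := S.sum_b_le_one (k₀ := j') (j := j) hj1 hj
        have hb2 := S.sum_b_nonneg j' j
        rw [zero_mul, add_zero, ← hul] at hsp
        have e1 : 6 / 5 * (24 * ul / m / ul) = 28.8 / m := by field_simp; norm_num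
        rw [e1] at hsp
        have e2 : 28.8 / m ≤ 29 / m := by gcongr; norm_num
        have e3 : 28.8 / m * ∑ k ∈ Finset.Ico j' j, S.b k ≤ 29 / m := by
          have : 0 ≤ 28.8 / m := by positivity
          nlinarith
        rw [hsumc, hsumτ, hsecond]
        linarith

/-- Potential inequality for the whole path of the atom. -/
theorem far_path (hKs : S.ks < S.Ke) (T : STree) :
    ∀ (a b : ℝ), Fine S.δ T a b → Null ν T → NearOpt ν S.κ a b T → a < x → x ≤ b →
    a ≤ x - 2 * u S.ks →
    -(9 + 32 / ν.real {x}) - 2 * cost T a b x / (2 * u S.ks) +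
      (S.N * ∑ k ∈ Finset.Ico S.ks S.Ke, S.τ k - 6 * (S.M * S.τ (S.Ke - 1))) ≤
    ∑ k ∈ Finset.Ico S.ks S.Ke, S.b k * ((cost T a b (x - u k) - cost T a b x) / u k) := by
  set m := ν.real {x} with hm
  have hm0 : 0 < m := S.hm
  have hm1 : m ≤ 1 := S.m_le_one
  set U := 2 * u S.ks with hU
  have hU0 : 0 < U := by have := u_pos S.ks; linarith
  have hMτ : 0 ≤ S.M * S.τ (S.Ke - 1) := mul_nonneg S.hM (S.hτ _)
  have h32 : 0 < 32 / m := by positivity
  have hule : ∀ k, S.ks ≤ k → u k ≤ U / 2 := fun k hk => by
    have := u_anti hk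
    linarith
  have hsb : ∑ k ∈ Finset.Ico S.ks S.Ke, S.b k ≤ 1 := S.sum_b_le_one le_rfl le_rfl
  induction T with
  | leaf =>
    intro a b hF hN hopt hax hxb haU
    exfalso
    have h1 : b - a ≤ S.δ := hF
    have h2 := S.hδ S.ks hKs
    have := u_pos S.ks
    linarith
  | node c l r ihl ihr =>
    intro a b hF hN hopt hax hxb haU
    have hcx' : c ≠ x := by
      intro h
      rw [← h, measureReal_def, hN.1] at hm
      simp at hm
      linarith
    obtain ⟨hac, hcb, hFl, hFr⟩ := hF
    rcases lt_or_gt_of_ne hcx' with hcx | hcx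
    swap
    · -- a cut to the right of the atom
      have hIH := ihl a c hFl hN.2.1 (NearOpt.left hac.le hcb.le hN hopt) hax hcx.le haU
      have h1 : cost l a c x ≤ cost (node c l r) a b x := by
        rw [cost_node_lt' hcx hcb.le]; linarith
      have h2 : 2 * cost l a c x / U ≤ 2 * cost (node c l r) a b x / U := by gcongr
      have h3 : ∑ k ∈ Finset.Ico S.ks S.Ke, S.b k *
          ((cost l a c (x - u k) - cost l a c x) / u k) ≤
          ∑ k ∈ Finset.Ico S.ks S.Ke, S.b k *
          ((cost (node c l r) a b (x - u k) - cost (node c l r) a b x) / u k) := by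
        refine Finset.sum_le_sum fun k hk => ?_
        have huk := u_pos k
        apply mul_le_mul_of_nonneg_left _ (S.b_nonneg k)
        apply div_le_div_of_nonneg_right _ huk.le
        rw [cost_node_lt' (by linarith) hcb.le, cost_node_lt' hcx hcb.le]
        linarith
      linarith
    set w := x - c with hw
    have hw0 : 0 < w := by linarith
    set R := cost r c b x with hR
    have hR0 : 0 ≤ R := cost_nonneg r hcx.le hxb
    have hcost : cost (node c l r) a b x = w + R := cost_node_ge' hcx.le hac.le
    have hRU : 0 ≤ R / U := div_nonneg hR0 hU0.le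
    have hsplit : 2 * (w + R) / U = 2 * w / U + 2 * (R / U) := by ring
    rw [hcost, hsplit]
    rcases le_or_gt c (x - U) with hcU | hcU
    · -- a far cut
      have hright : ∀ k ∈ Finset.Ico S.ks S.Ke, S.b k *
          ((cost (node c l r) a b (x - u k) - (w + R)) / u k) =
          -S.b k + S.b k * ((cost r c b (x - u k) - cost r c b x) / u k) := by
        intro k hk
        rw [Finset.mem_Ico] at hk
        have := hule k hk.1
        rw [cost_node_ge' (by linarith) hac.le]
        have huk := (u_pos k).ne'
        field_simp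
        ring
      rw [Finset.sum_congr rfl hright, Finset.sum_add_distrib, Finset.sum_neg_distrib]
      have hIH := ihr c b hFr hN.2.2 (NearOpt.right hac.le hcb.le hN hopt) hcx hxb hcU
      have h2 : 2 ≤ 2 * w / U := by
        rw [le_div_iff₀ hU0]; linarith
      have h3 : 2 * cost r c b x / U = 2 * (R / U) := by rw [hR]; ring
      rw [h3] at hIH
      linarith
    -- the first near cut
    have hwU : 0 ≤ 2 * w / U := div_nonneg (by linarith) hU0.le
    set E := (4 * w * ν.real (Ico c x) + S.κ) / m with hE
    have hnr : All (fun c => c ≠ x) r := by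
      refine All.mono ?_ hN.2.2
      intro c' hc' h
      rw [← h, measureReal_def, hc'] at hm
      simp at hm
      linarith
    have hN1 : ∀ h, c ≤ h → h < x → cost r c b x ≤ cost r c b h + E :=
      cost_atom_le S.hm S.hκ0 r hFr hN.2.2 hnr (NearOpt.right hac.le hcb.le hN hopt) hcx hxb
    have hnc := S.near_le (p := c) (by linarith)
    rw [← hm] at hnc
    have hκm : 0 ≤ S.κ / m := div_nonneg S.hκ0 hm0.le
    have hE0 : 0 ≤ E := div_nonneg (add_nonneg (by
      have : 0 ≤ w * ν.real (Ico c x) := mul_nonneg hw0.le measureReal_nonneg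
      linarith) S.hκ0) hm0.le
    have hEle : E ≤ w / 50 + S.κ / m := by
      rw [hE, add_div]
      have e1 : 4 * w * ν.real (Ico c x) / m ≤ w / 50 := by
        rw [div_le_iff₀ hm0]
        have : w * ν.real (Ico c x) ≤ w * (m / 200) := mul_le_mul_of_nonneg_left hnc hw0.le
        linarith
      linarith
    set K := S.κ + w * ν.real (Ico a x) + E * ν.real (Ico c x) with hK
    have hwν : w * ν.real (Ico a x) ≤ w * 1 :=
      mul_le_mul_of_nonneg_left (S.real_le_one _) hw0.le
    have hEν : E * ν.real (Ico c x) ≤ E * 1 := mul_le_mul_of_nonneg_left (S.real_le_one _) hE0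
    have hwν0 : 0 ≤ w * ν.real (Ico a x) := mul_nonneg hw0.le measureReal_nonneg
    have hEνc0 : 0 ≤ E * ν.real (Ico c x) := mul_nonneg hE0 measureReal_nonneg
    have hK0 : 0 ≤ K := by
      have := S.hκ0
      linarith
    have hPP : PP ν x l a c R K := pp_base hac hcx hxb hN hopt hE0 hN1
    have hKle : ∀ k, k < S.Ke → w ≤ u k → K ≤ 3 * u k := by
      intro k hk hwk
      have h0 : u (S.Ke - 1) ≤ u k := u_anti (by omega)
      have h1 := S.hκ
      have huk := u_pos k
      have h2 : S.κ / m ≤ 1 / 100 * u k := by
        rw [div_le_iff₀ hm0]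
        refine h1.trans ?_
        rw [← hm]
        nlinarith
      have h3 : S.κ ≤ 1 / 100 * u k := by
        have : S.κ ≤ S.κ / m := by
          rw [le_div_iff₀ hm0]
          have := S.hκ0
          nlinarith
        linarith
      linarith
    have hc0 : ν {c} = 0 := hN.1
    obtain ⟨j', hj1, hj2, hbig, hsmall⟩ := exists_split w S.ks S.Ke hKs.le
    have hsumτ := sum_split hj1 hj2 S.τ
    have hsumc := sum_split hj1 hj2 (fun k => S.b k *
      ((cost (node c l r) a b (x - u k) - (w + R)) / u k))
    -- left part
    have hleftpart : -(5 + 32 / m) - R / U +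
        (S.N * ∑ k ∈ Finset.Ico S.ks j', S.τ k - 4 * (S.M * S.τ (S.Ke - 1))) ≤
        ∑ k ∈ Finset.Ico S.ks j', S.b k *
          ((cost (node c l r) a b (x - u k) - (w + R)) / u k) := by
      rcases hj1.eq_or_lt with h | h
      · rw [← h, Finset.Ico_self, Finset.sum_empty, Finset.sum_empty]
        linarith
      · have hfs := S.far_spine (K := K) h (by omega) hcx hc0 hK0
          (hKle _ (by omega) (hbig (j' - 1) (by omega) (by omega)).le)
          (fun k h1 h2 => by linarith [hbig k h1 h2]) l a R hFl hN.2.1 haU hac hPP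
        rw [max_eq_right hR0, ← hm, ← hU] at hfs
        have hMτ' : S.M * S.τ (j' - 1) ≤ S.M * S.τ (S.Ke - 1) :=
          mul_le_mul_of_nonneg_left (S.hτm (by omega)) S.hM
        have hsb1 := S.sum_b_le_one (k₀ := S.ks) (j := j') le_rfl (by omega)
        have hfirst : -1 * ∑ k ∈ Finset.Ico S.ks j', S.b k +
            ∑ k ∈ Finset.Ico S.ks j', S.b k * ((cost l a c (x - u k) - R) / u k) ≤
            ∑ k ∈ Finset.Ico S.ks j', S.b k *
              ((cost (node c l r) a b (x - u k) - (w + R)) / u k) := by
          rw [Finset.mul_sum, ← Finset.sum_add_distrib]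
          refine Finset.sum_le_sum fun k hk => ?_
          rw [Finset.mem_Ico] at hk
          have hku := hbig k hk.1 hk.2
          rw [cost_node_lt' (by linarith) hcb.le]
          have huk := u_pos k
          have e1 : -1 + (cost l a c (x - u k) - R) / u k ≤
              (c - (x - u k) + cost l a c (x - u k) - (w + R)) / u k := by
            rw [← sub_nonneg]
            have : (c - (x - u k) + cost l a c (x - u k) - (w + R)) / u k -
                (-1 + (cost l a c (x - u k) - R) / u k) = (2 * (u k - w)) / u k := by
              rw [hw]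
              field_simp
              ring
            rw [this]
            exact div_nonneg (by linarith) huk.le
          calc -1 * S.b k + S.b k * ((cost l a c (x - u k) - R) / u k)
              = S.b k * (-1 + (cost l a c (x - u k) - R) / u k) := by ring
            _ ≤ _ := mul_le_mul_of_nonneg_left e1 (S.b_nonneg k)
        linarith
    -- right part
    have hrightpart : -4 +
        (S.N * ∑ k ∈ Finset.Ico j' S.Ke, S.τ k - 2 * (S.M * S.τ (S.Ke - 1))) ≤
        ∑ k ∈ Finset.Ico j' S.Ke, S.b k *
          ((cost (node c l r) a b (x - u k) - (w + R)) / u k) := by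
      have hwu : x - c ≤ 2 * u j' ∨ j' = S.Ke := by
        rcases hj2.eq_or_lt with h | h
        · exact Or.inr h
        · left
          rcases hj1.eq_or_lt with h' | h'
          · rw [← h']; linarith
          · have h1 := hbig (j' - 1) (by omega) (by omega)
            have h2 : u j' = u (j' - 1) / 2 := by
              rw [← u_succ]; congr 1; omega
            linarith
      rcases hwu with hwu | hjK
      · have hIH := S.path_lemma r c b j' hj1 hj2 hFr hN.2.2 (NearOpt.right hac.le hcb.le hN hopt) hcx
          hxb (by linarith) (fun k h1 h2 => hsmall k h1 h2) hwu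
        have hsb2 := S.sum_b_le_one (k₀ := j') (j := S.Ke) hj1 le_rfl
        have hb2 := S.sum_b_nonneg j' S.Ke
        have hsecond : ∑ k ∈ Finset.Ico j' S.Ke, S.b k *
            ((cost (node c l r) a b (x - u k) - (w + R)) / u k) =
            -∑ k ∈ Finset.Ico j' S.Ke, S.b k +
            ∑ k ∈ Finset.Ico j' S.Ke, S.b k * ((cost r c b (x - u k) - cost r c b x) / u k) := by
          rw [← Finset.sum_neg_distrib, ← Finset.sum_add_distrib]
          refine Finset.sum_congr rfl fun k hk => ?_
          rw [Finset.mem_Ico] at hk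
          have := hsmall k hk.1 hk.2
          rw [cost_node_ge' (by linarith) hac.le]
          have huk := (u_pos k).ne'
          field_simp
          ring
        rw [hsecond]
        linarith
      · rw [hjK, Finset.Ico_self, Finset.sum_empty, Finset.sum_empty]
        linarith
    rw [hsumc, hsumτ]
    linarith

end Setup

end Pool.Agent.HighLow
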