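import Pool.Agent.HighLow_e5c6.Exists

/-!
# Finite high-low games

The finite game with `N` cells: Blue chooses a cell, Red chooses a finite search tree whose cuts
are boundaries of cells.  The number of cuts on a path is controlled by the cost.
-/

set_option autoImplicit false

namespace Pool.Agent.HighLow

open MeasureTheory Set STree Filter Topology
open scoped ENNReal

/-- Finite search trees whose cuts are boundaries `s / N` of cells. -/
inductive BTree : Type
  | leaf : BTree
  | node (s : ℕ) (l r : BTree) : BTree

namespace BTree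

/-- All cuts lie strictly inside their intervals. -/
def WF : BTree → ℕ → ℕ → Prop
  | leaf, _, _ => True
  | node s l r, a, b => a < s ∧ s < b ∧ WF l a s ∧ WF r s b

/-- The payoff of the tree if Blue chose the cell `i`: the distances between the cuts and the
midpoint of the cell, and the length of the last interval. -/
noncomputable def bcost (N : ℕ) : BTree → ℕ → ℕ → ℕ → ℝ
  | leaf, a, b, _ => ((b : ℝ) - a) / N
  | node s l r, a, b, i => |(s : ℝ) / N - (i + 1 / 2) / N| +
      if i < s then bcost N l a s i else bcost N r s b i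

/-- The number of cuts below the cell `i` on its path. -/
def depL : BTree → ℕ → ℕ
  | leaf, _ => 0
  | node s l r, i => if i < s then depL l i else depL r i + 1

/-- The number of cuts above the cell `i` on its path. -/
def depR : BTree → ℕ → ℕ
  | leaf, _ => 0
  | node s l r, i => if i < s then depR l i + 1 else depR r i

/-- The number of cuts on the path of the cell `i`. -/
def dep (T : BTree) (i : ℕ) : ℕ := depL T i + depR T i

lemma dep_bounds {N : ℕ} (hN : 0 < N) (T : BTree) : ∀ (a b i : ℕ), WF T a b → a ≤ i → i < b →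
    depL T i + a ≤ i ∧ depR T i + 1 + i ≤ b ∧
      (depL T i : ℝ) ^ 2 + (depR T i : ℝ) ^ 2 ≤ 2 * N * bcost N T a b i ∧
      0 ≤ bcost N T a b i := by
  have hN' : (0 : ℝ) < N := by exact_mod_cast hN
  induction T with
  | leaf =>
    intro a b i _ ha hb
    have h1 : (a : ℝ) ≤ i := by exact_mod_cast ha
    have h2 : (i : ℝ) < b := by exact_mod_cast hb
    have h3 : 0 ≤ ((b : ℝ) - a) / N := div_nonneg (by linarith) hN'.le
    refine ⟨by simp [depL, ha], by simp [depR]; omega, ?_, h3⟩
    simp only [depL, depR, bcost, Nat.cast_zero]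
    have : 0 ≤ 2 * (N : ℝ) * (((b : ℝ) - a) / N) := by positivity
    linarith
  | node s l r ihl ihr =>
    intro a b i hw ha hb
    obtain ⟨hs1, hs2, hwl, hwr⟩ := hw
    by_cases hi : i < s
    · obtain ⟨h1, h2, h3, h4⟩ := ihl a s i hwl ha hi
      simp only [depL, depR, bcost, if_pos hi]
      have e : |(s : ℝ) / N - (i + 1 / 2) / N| = ((s : ℝ) - i - 1 / 2) / N := by
        rw [← sub_div, abs_of_nonneg]
        · ring
        · have : (i : ℝ) + 1 ≤ s := by exact_mod_cast hi
          exact div_nonneg (by linarith) hN'.le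
      have h5 : (depR l i : ℝ) + 1 + i ≤ s := by exact_mod_cast h2
      have h6 : 0 ≤ ((s : ℝ) - i - 1 / 2) / N := by
        have : (0 : ℝ) ≤ depR l i := Nat.cast_nonneg _
        exact div_nonneg (by linarith) hN'.le
      refine ⟨h1, by omega, ?_, by rw [e]; linarith⟩
      rw [e]
      push_cast
      have h7 : 2 * (N : ℝ) * (((s : ℝ) - i - 1 / 2) / N + bcost N l a s i) =
          2 * ((s : ℝ) - i - 1 / 2) + 2 * N * bcost N l a s i := by
        field_simp
      rw [h7]
      nlinarith
    · obtain ⟨h1, h2, h3, h4⟩ := ihr s b i hwr (not_lt.1 hi) hb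
      simp only [depL, depR, bcost, if_neg hi]
      have hsi : (s : ℝ) ≤ i := by exact_mod_cast not_lt.1 hi
      have e : |(s : ℝ) / N - (i + 1 / 2) / N| = ((i : ℝ) + 1 / 2 - s) / N := by
        rw [← sub_div, abs_of_nonpos]
        · ring
        · exact div_nonpos_of_nonpos_of_nonneg (by linarith) hN'.le
      have h5 : (depL r i : ℝ) + s ≤ i := by exact_mod_cast h1
      have h6 : 0 ≤ ((i : ℝ) + 1 / 2 - s) / N := div_nonneg (by linarith) hN'.le
      refine ⟨by omega, h2, ?_, by rw [e]; linarith⟩
      rw [e]
      push_cast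
      have h7 : 2 * (N : ℝ) * (((i : ℝ) + 1 / 2 - s) / N + bcost N r s b i) =
          2 * ((i : ℝ) + 1 / 2 - s) + 2 * N * bcost N r s b i := by
        field_simp
      rw [h7]
      nlinarith

/-- The square of the number of cuts is at most `4 N` times the cost. -/
lemma dep_sq_le {N : ℕ} (hN : 0 < N) {T : BTree} {a b i : ℕ} (hw : WF T a b) (ha : a ≤ i)
    (hb : i < b) : (dep T i : ℝ) ^ 2 ≤ 4 * N * bcost N T a b i := by
  obtain ⟨_, _, h3, _⟩ := dep_bounds hN T a b i hw ha hb
  unfold dep
  push_cast
  nlinarith [sq_nonneg ((depL T i : ℝ) - depR T i)]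

/-- The strategy which uses the tree and then bisection. -/
noncomputable def bstrat (N : ℕ) : BTree → ℕ → ℕ → Strategy
  | leaf, a, b => bisS ((a : ℝ) / N) ((b : ℝ) / N)
  | node s l r, a, b => nodeS (projIcc 0 1 zero_le_one ((s : ℝ) / N)) (bstrat N l a s)
      (bstrat N r s b)

lemma payoff_bstrat {N : ℕ} (hN : 0 < N) (T : BTree) : ∀ (a b i : ℕ) (h : Icc (0 : ℝ) 1),
    WF T a b → a ≤ i → i < b → b ≤ N → (i : ℝ) / N ≤ h → (h : ℝ) ≤ ((i : ℝ) + 1) / N →
    payoff (bstrat N T a b) h ≤ ENNReal.ofReal (bcost N T a b i + dep T i / (2 * N)) := by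
  have hN' : (0 : ℝ) < N := by exact_mod_cast hN
  induction T with
  | leaf =>
    intro a b i h _ ha hb hbN h1 h2
    have ha' : (a : ℝ) ≤ i := by exact_mod_cast ha
    have hb' : (i : ℝ) + 1 ≤ b := by exact_mod_cast hb
    have hbN' : (b : ℝ) ≤ N := by exact_mod_cast hbN
    have h3 : (a : ℝ) / N ≤ h := (div_le_div_of_nonneg_right ha' hN'.le).trans h1
    have h4 : (h : ℝ) ≤ (b : ℝ) / N := h2.trans (div_le_div_of_nonneg_right hb' hN'.le)
    have h5 := payoff_bisS (a := (a : ℝ) / N) (b := (b : ℝ) / N) (by positivity)
      ((div_le_one hN').2 hbN') h h3 h4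
    refine h5.trans (ENNReal.ofReal_le_ofReal ?_)
    simp only [bcost, dep, depL, depR]
    rw [← sub_div]
    simp
  | node s l r ihl ihr =>
    intro a b i h hw ha hb hbN h1 h2
    have hfull := (dep_bounds hN (node s l r) a b i hw ha hb).2.2.2
    obtain ⟨hs1, hs2, hwl, hwr⟩ := hw
    have hs01 : (s : ℝ) / N ∈ Icc (0 : ℝ) 1 := by
      refine ⟨by positivity, (div_le_one hN').2 ?_⟩
      exact_mod_cast (by omega : s ≤ N)
    have hcv : ((bstrat N (node s l r) a b [] : Icc (0 : ℝ) 1) : ℝ) = (s : ℝ) / N := by
      simp only [bstrat, nodeS_nil]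
      rw [projIcc_of_mem zero_le_one hs01]
    have hmid : |(s : ℝ) / N - h| ≤ |(s : ℝ) / N - (i + 1 / 2) / N| + 1 / (2 * N) := by
      have h3 : |(i + 1 / 2 : ℝ) / N - h| ≤ 1 / (2 * N) := by
        rw [abs_le]
        have e1 : ((i : ℝ) + 1 / 2) / N = (i : ℝ) / N + 1 / (2 * N) := by field_simp
        have e2 : ((i : ℝ) + 1) / N = (i : ℝ) / N + 1 / (2 * N) + 1 / (2 * N) := by
          field_simp; ring
        rw [e2] at h2
        rw [e1]
        constructor <;> linarith
      calc |(s : ℝ) / N - h| = |((s : ℝ) / N - (i + 1 / 2) / N) + ((i + 1 / 2 : ℝ) / N - h)| := by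
            congr 1; ring
        _ ≤ |(s : ℝ) / N - (i + 1 / 2) / N| + |(i + 1 / 2 : ℝ) / N - h| := abs_add_le _ _
        _ ≤ _ := by linarith
    by_cases hi : i < s
    · have hhs : (h : ℝ) ≤ (s : ℝ) / N := by
        refine h2.trans (div_le_div_of_nonneg_right ?_ hN'.le)
        exact_mod_cast hi
      have hb2 := (dep_bounds hN l a s i hwl ha hi).2.2.2
      rcases hhs.eq_or_lt with he | hlt
      · have : bstrat N (node s l r) a b [] = h := Subtype.ext (by rw [hcv, he])
        rw [payoff_of_eq this]
        exact zero_le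
      · have hgt : h < bstrat N (node s l r) a b [] := by
          rw [← Subtype.coe_lt_coe, hcv]; exact hlt
        have hIH := ihl a s i h hwl ha hi (by omega) h1 h2
        rw [payoff_of_gt hgt, hcv]
        have e : sub (bstrat N (node s l r) a b) false = bstrat N l a s := rfl
        rw [e]
        simp only [bcost, dep, depL, depR, if_pos hi] at *
        push_cast
        calc ENNReal.ofReal ((s : ℝ) / N - h) + payoff (bstrat N l a s) h
            ≤ ENNReal.ofReal ((s : ℝ) / N - h) +
              ENNReal.ofReal (bcost N l a s i + ((depL l i + depR l i : ℕ) : ℝ) / (2 * N)) :=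
              add_le_add le_rfl hIH
          _ = ENNReal.ofReal (((s : ℝ) / N - h) +
              (bcost N l a s i + ((depL l i + depR l i : ℕ) : ℝ) / (2 * N))) := by
              rw [← ENNReal.ofReal_add (by linarith) (by positivity)]
          _ ≤ _ := by
              apply ENNReal.ofReal_le_ofReal
              have h3 : (s : ℝ) / N - h ≤ |(s : ℝ) / N - h| := le_abs_self _
              have h4 : ((depL l i : ℝ) + (depR l i + 1)) / (2 * N) =
                  ((depL l i : ℝ) + depR l i) / (2 * N) + 1 / (2 * N) := by
                rw [← add_div]; ring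
              push_cast
              rw [h4]
              linarith
    · have hhs : (s : ℝ) / N ≤ h := by
        refine le_trans (div_le_div_of_nonneg_right ?_ hN'.le) h1
        exact_mod_cast not_lt.1 hi
      have hb2 := (dep_bounds hN r s b i hwr (not_lt.1 hi) hb).2.2.2
      rcases hhs.eq_or_lt with he | hlt
      · have : bstrat N (node s l r) a b [] = h := Subtype.ext (by rw [hcv, he])
        rw [payoff_of_eq this]
        exact zero_le
      · have hgt : bstrat N (node s l r) a b [] < h := by
          rw [← Subtype.coe_lt_coe, hcv]; exact hlt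
        have hIH := ihr s b i h hwr (not_lt.1 hi) hb hbN h1 h2
        rw [payoff_of_lt hgt, hcv]
        have e : sub (bstrat N (node s l r) a b) true = bstrat N r s b := rfl
        rw [e]
        simp only [bcost, dep, depL, depR, if_neg hi] at *
        push_cast
        calc ENNReal.ofReal ((h : ℝ) - s / N) + payoff (bstrat N r s b) h
            ≤ ENNReal.ofReal ((h : ℝ) - s / N) +
              ENNReal.ofReal (bcost N r s b i + ((depL r i + depR r i : ℕ) : ℝ) / (2 * N)) :=
              add_le_add le_rfl hIH
          _ = ENNReal.ofReal (((h : ℝ) - s / N) +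
              (bcost N r s b i + ((depL r i + depR r i : ℕ) : ℝ) / (2 * N))) := by
              rw [← ENNReal.ofReal_add (by linarith) (by positivity)]
          _ ≤ _ := by
              apply ENNReal.ofReal_le_ofReal
              have h3 : (h : ℝ) - s / N ≤ |(s : ℝ) / N - h| := by
                rw [abs_sub_comm]; exact le_abs_self _
              have h4 : ((depL r i : ℝ) + 1 + depR r i) / (2 * N) =
                  ((depL r i : ℝ) + depR r i) / (2 * N) + 1 / (2 * N) := by
                rw [← add_div]; ring
              push_cast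
              rw [h4]
              linarith

end BTree

end Pool.Agent.HighLow
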