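import Pool.Agent.HighLow_e5c6.Gap

/-!
# The set of optimal hider strategies: convexity, compactness, symmetry
-/

set_option autoImplicit false
set_option linter.unusedSectionVars false
set_option linter.unusedVariables false

namespace Pool.Agent.HighLow

open MeasureTheory Set STree Filter Topology
open scoped ENNReal BoundedContinuousFunction

/-- The mirror image of a strategy of Red. -/
noncomputable def mirS (g : Strategy) : Strategy := fun L => unitInterval.symm (g (L.map not))

lemma mirS_nil (g : Strategy) : mirS g [] = unitInterval.symm (g []) := rfl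

lemma sub_mirS (g : Strategy) (b : Bool) : sub (mirS g) b = mirS (sub g (!b)) := rfl

lemma pay_mirS (n : ℕ) : ∀ (g : Strategy) (h : Icc (0 : ℝ) 1),
    pay n (mirS g) (unitInterval.symm h) = pay n g h := by
  induction n with
  | zero => intro g h; rfl
  | succ n ih =>
    intro g h
    rw [pay, pay, mirS_nil]
    have h1 : |((unitInterval.symm (g []) : Icc (0 : ℝ) 1) : ℝ) -
        (unitInterval.symm h : Icc (0 : ℝ) 1)| = |((g [] : Icc (0 : ℝ) 1) : ℝ) - h| := by
      rw [unitInterval.coe_symm_eq, unitInterval.coe_symm_eq, abs_sub_comm]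
      congr 1
      ring
    rw [h1]
    congr 1
    rcases lt_trichotomy (g []) h with hc | hc | hc
    · have h2 : unitInterval.symm h < unitInterval.symm (g []) := unitInterval.symm_lt_symm.2 hc
      rw [if_neg h2.ne', if_neg (not_lt.2 h2.le), if_neg hc.ne, if_pos hc, sub_mirS]
      exact ih _ _
    · rw [if_pos (by rw [hc]), if_pos hc]
    · have h2 : unitInterval.symm (g []) < unitInterval.symm h := unitInterval.symm_lt_symm.2 hc
      rw [if_neg h2.ne, if_pos h2, if_neg hc.ne', if_neg (not_lt.2 hc.le), sub_mirS]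
      exact ih _ _

lemma payoff_mirS (g : Strategy) (h : Icc (0 : ℝ) 1) :
    payoff g (unitInterval.symm h) = payoff (mirS g) h := by
  have h1 := fun n => pay_mirS n g (unitInterval.symm h)
  simp only [unitInterval.symm_symm] at h1
  rw [payoff_eq_iSup, payoff_eq_iSup]
  exact iSup_congr fun n => (h1 n).symm

lemma measurable_symm : Measurable (unitInterval.symm : Icc (0 : ℝ) 1 → Icc (0 : ℝ) 1) :=
  unitInterval.continuous_symm.measurable

/-- A mixture of two optimal strategies is optimal. -/
theorem optimal_mix {μ μ' ρ : ProbabilityMeasure (Icc (0 : ℝ) 1)} (h1 : guaranteed μ = maximin)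
    (h2 : guaranteed μ' = maximin) {t : ℝ} (ht0 : 0 ≤ t) (ht1 : t ≤ 1)
    (hρ : (ρ : Measure (Icc (0 : ℝ) 1)) = ENNReal.ofReal (1 - t) • (μ : Measure (Icc (0 : ℝ) 1)) +
      ENNReal.ofReal t • (μ' : Measure (Icc (0 : ℝ) 1))) : guaranteed ρ = maximin := by
  refine le_antisymm (le_iSup guaranteed ρ) (le_guaranteed fun g => ?_)
  rw [hρ, lintegral_add_measure, lintegral_smul_measure, lintegral_smul_measure, smul_eq_mul,
    smul_eq_mul]
  calc maximin = ENNReal.ofReal (1 - t) * maximin + ENNReal.ofReal t * maximin := by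
        rw [← add_mul, ← ENNReal.ofReal_add (by linarith) ht0]
        simp
    _ ≤ _ := by
        refine add_le_add (mul_le_mul_right ?_ _) (mul_le_mul_right ?_ _)
        · rw [← h1]; exact guaranteed_le μ g
        · rw [← h2]; exact guaranteed_le μ' g

/-- The reflection of an optimal strategy is optimal. -/
theorem optimal_flip {μ ρ : ProbabilityMeasure (Icc (0 : ℝ) 1)} (h1 : guaranteed μ = maximin)
    (hρ : (ρ : Measure (Icc (0 : ℝ) 1)) =
      (μ : Measure (Icc (0 : ℝ) 1)).map unitInterval.symm) : guaranteed ρ = maximin := by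
  refine le_antisymm (le_iSup guaranteed ρ) (le_guaranteed fun g => ?_)
  rw [hρ, lintegral_map (measurable_payoff_right g) measurable_symm]
  simp only [payoff_mirS]
  rw [← h1]
  exact guaranteed_le μ (mirS g)

/-- There is an optimal strategy which is symmetric about `1/2`. -/
theorem exists_symmetric : ∃ ν : ProbabilityMeasure (Icc (0 : ℝ) 1), guaranteed ν = maximin ∧
    (ν : Measure (Icc (0 : ℝ) 1)).map unitInterval.symm = (ν : Measure (Icc (0 : ℝ) 1)) := by
  obtain ⟨μ, hμ⟩ := exists_optimal
  have hp : IsProbabilityMeasure ((μ : Measure (Icc (0 : ℝ) 1)).map unitInterval.symm) :=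
    Measure.isProbabilityMeasure_map measurable_symm.aemeasurable
  have hflip : guaranteed ⟨_, hp⟩ = maximin := optimal_flip hμ rfl
  have hq : IsProbabilityMeasure (ENNReal.ofReal (1 - 1 / 2) • (μ : Measure (Icc (0 : ℝ) 1)) +
      ENNReal.ofReal (1 / 2) • (μ : Measure (Icc (0 : ℝ) 1)).map unitInterval.symm) := by
    constructor
    rw [Measure.add_apply, Measure.smul_apply, Measure.smul_apply, measure_univ, measure_univ,
      smul_eq_mul, smul_eq_mul, mul_one, mul_one, ← ENNReal.ofReal_add (by norm_num) (by norm_num)]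
    norm_num
  refine ⟨⟨_, hq⟩, optimal_mix (t := 1 / 2) hμ hflip (by norm_num) (by norm_num) rfl, ?_⟩
  show (ENNReal.ofReal (1 - 1 / 2) • (μ : Measure (Icc (0 : ℝ) 1)) +
      ENNReal.ofReal (1 / 2) • (μ : Measure (Icc (0 : ℝ) 1)).map unitInterval.symm).map
      unitInterval.symm = ENNReal.ofReal (1 - 1 / 2) • (μ : Measure (Icc (0 : ℝ) 1)) +
      ENNReal.ofReal (1 / 2) • (μ : Measure (Icc (0 : ℝ) 1)).map unitInterval.symm
  have e : (1 : ℝ) - 1 / 2 = 1 / 2 := by norm_num
  rw [e, Measure.map_add _ _ measurable_symm, Measure.map_smul, Measure.map_smul,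
    Measure.map_map measurable_symm measurable_symm]
  have e2 : (unitInterval.symm ∘ unitInterval.symm : Icc (0 : ℝ) 1 → Icc (0 : ℝ) 1) = id := by
    funext x
    exact unitInterval.symm_symm x
  rw [e2, Measure.map_id, add_comm]

/-- Characterisation of optimality by continuous majorants of tree costs. -/
lemma optimal_iff (ν : ProbabilityMeasure (Icc (0 : ℝ) 1)) : guaranteed ν = maximin ↔
    ∀ (T : STree) (f : Icc (0 : ℝ) 1 →ᵇ ℝ), (∀ h : Icc (0 : ℝ) 1, cost T 0 1 h ≤ f h) →
      vR ≤ ∫ h, f h ∂(ν : Measure (Icc (0 : ℝ) 1)) := by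
  constructor
  · intro hν T f hf
    exact (cost_ge_of_optimal hν T).trans
      (integral_mono (integrable_cost01 _ T) (f.integrable _) hf)
  · intro hν
    have hna : ∀ h : Icc (0 : ℝ) 1, (ν : Measure (Icc (0 : ℝ) 1)) {h} = 0 :=
      nonatomic_of_cost_ge (ν : Measure (Icc (0 : ℝ) 1))
        (fun T hT => cost_ge_of_majorants (ν : Measure (Icc (0 : ℝ) 1)) hν T hT)
    refine le_antisymm (le_iSup guaranteed ν) ?_
    exact guaranteed_ge_of_nonatomic ν hna fun T =>
      cost_ge_of_majorants (ν : Measure (Icc (0 : ℝ) 1)) hν T (all_ae_of_nonatomic hna T)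

/-- The set of optimal strategies is weakly compact. -/
theorem isCompact_optimal :
    IsCompact {ν : ProbabilityMeasure (Icc (0 : ℝ) 1) | guaranteed ν = maximin} := by
  apply IsClosed.isCompact
  simp only [optimal_iff, Set.ofPred_forall]
  refine isClosed_iInter fun T => isClosed_iInter fun f => isClosed_iInter fun _ => ?_
  exact isClosed_le continuous_const
    (ProbabilityMeasure.continuous_integral_boundedContinuousFunction f)

end Pool.Agent.HighLow
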