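import Pool.Agent.HighLow_e5c6.Finite
import Pool.Agent.HighLow_e5c6.Cluster
import Pool.Agent.HighLow_e5c6.Symm

/-!
# Finite high-low games approximate the continuous game

The value of the finite game with `N` cells differs from the maximin value by `O(N^(-1/2))`, and
spreading the weights of an optimal strategy of the finite game uniformly over the cells is an
`O(N^(-1/2))`-optimal hider strategy.
-/

set_option autoImplicit false

namespace Pool.Agent.HighLow

open MeasureTheory Set STree Filter Topology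
open scoped ENNReal

namespace BTree

/-- Expected payoff of the tree against the weights `m` of the cells. -/
noncomputable def fcost (N : ℕ) (T : BTree) (m : Fin N → ℝ) : ℝ :=
  ∑ i : Fin N, m i * bcost N T 0 N i

/-- The value of the finite game: the supremum of what weights `m` can guarantee. -/
noncomputable def fval (N : ℕ) : ℝ :=
  sSup {v : ℝ | ∃ m ∈ stdSimplex ℝ (Fin N), ∀ T : BTree, WF T 0 N → v ≤ fcost N T m}

/-- The number of cuts in terms of the cost. -/
lemma dep_le {N : ℕ} (hN : 0 < N) {T : BTree} {a b i : ℕ} (hw : WF T a b) (ha : a ≤ i)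
    (hb : i < b) : (dep T i : ℝ) / (2 * N) ≤ (bcost N T a b i + 1) / (2 * √N) := by
  have hN' : (0 : ℝ) < N := by exact_mod_cast hN
  have hs : 0 < √(N : ℝ) := Real.sqrt_pos.2 hN'
  have hss : √(N : ℝ) * √(N : ℝ) = N := Real.mul_self_sqrt hN'.le
  have h1 := dep_sq_le hN hw ha hb
  rw [div_le_div_iff₀ (by positivity) (by positivity)]
  have h2 : (dep T i : ℝ) * (4 * √N) ≤ 4 * N * bcost N T a b i + 4 * N := by
    nlinarith [sq_nonneg ((dep T i : ℝ) - 2 * √N)]
  nlinarith

end BTree

open BTree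

/-! ### The upper bound -/

/-- The index of the cell of a hidden number. -/
noncomputable def idx (N : ℕ) (h : Icc (0 : ℝ) 1) : ℕ := min ⌊(N : ℝ) * h⌋₊ (N - 1)

lemma idx_lt {N : ℕ} (hN : 0 < N) (h : Icc (0 : ℝ) 1) : idx N h < N := by
  unfold idx
  omega

lemma idx_bounds {N : ℕ} (hN : 0 < N) (h : Icc (0 : ℝ) 1) :
    (idx N h : ℝ) / N ≤ h ∧ (h : ℝ) ≤ ((idx N h : ℝ) + 1) / N := by
  have hN' : (0 : ℝ) < N := by exact_mod_cast hN
  have hn : 0 ≤ (N : ℝ) * h := mul_nonneg hN'.le h.2.1
  have h1 : (⌊(N : ℝ) * h⌋₊ : ℝ) ≤ N * h := Nat.floor_le hn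
  have h2 : (N : ℝ) * h < ⌊(N : ℝ) * h⌋₊ + 1 := Nat.lt_floor_add_one _
  rw [div_le_iff₀ hN', le_div_iff₀ hN']
  unfold idx
  rcases le_total ⌊(N : ℝ) * h⌋₊ (N - 1) with h3 | h3
  · rw [min_eq_left h3]
    constructor <;> linarith
  · rw [min_eq_right h3]
    have h4 : ((N - 1 : ℕ) : ℝ) ≤ ⌊(N : ℝ) * h⌋₊ := by exact_mod_cast h3
    have h5 : ((N - 1 : ℕ) : ℝ) + 1 = N := by
      have : N - 1 + 1 = N := by omega
      exact_mod_cast this
    constructor
    · linarith
    · rw [h5]
      have := mul_le_mul_of_nonneg_left h.2.2 hN'.le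
      linarith

lemma measurable_idx (N : ℕ) : Measurable (idx N) := by
  unfold idx
  exact (Nat.measurable_floor.comp (measurable_const.mul measurable_subtype_coe)).min
    measurable_const

lemma lintegral_idx {N : ℕ} (hN : 0 < N) (ν : Measure (Icc (0 : ℝ) 1)) (φ : ℕ → ℝ≥0∞) :
    ∫⁻ h, φ (idx N h) ∂ν = ∑ i : Fin N, φ i * ν {h | idx N h = i} := by
  have h1 : ∫⁻ h, φ (idx N h) ∂ν = ∫⁻ n, φ n ∂(ν.map (idx N)) :=
    (lintegral_map (measurable_of_countable φ) (measurable_idx N)).symm
  rw [h1, lintegral_countable']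
  rw [tsum_eq_sum (s := Finset.range N), Finset.sum_range]
  · refine Finset.sum_congr rfl fun i _ => ?_
    rw [Measure.map_apply (measurable_idx N) (measurableSet_singleton _)]
    rfl
  · intro i hi
    rw [Finset.mem_range, not_lt] at hi
    rw [Measure.map_apply (measurable_idx N) (measurableSet_singleton _)]
    have : idx N ⁻¹' {i} = ∅ := by
      ext h
      simp only [mem_preimage, mem_singleton_iff, mem_empty_iff_false, iff_false]
      have := idx_lt hN h
      omega
    rw [this, measure_empty, mul_zero]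

/-- The weights of the cells. -/
noncomputable def wts (N : ℕ) (ν : ProbabilityMeasure (Icc (0 : ℝ) 1)) : Fin N → ℝ :=
  fun i => (ν : Measure (Icc (0 : ℝ) 1)).real {h | idx N h = i}

lemma wts_mem {N : ℕ} (hN : 0 < N) (ν : ProbabilityMeasure (Icc (0 : ℝ) 1)) :
    wts N ν ∈ stdSimplex ℝ (Fin N) := by
  refine ⟨fun i => measureReal_nonneg, ?_⟩
  have h1 := lintegral_idx hN (ν : Measure (Icc (0 : ℝ) 1)) (fun _ => 1)
  simp only [lintegral_const, measure_univ, mul_one, one_mul] at h1
  have h2 := congrArg ENNReal.toReal h1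
  rw [ENNReal.toReal_one, ENNReal.toReal_sum (fun i _ => measure_ne_top _ _)] at h2
  exact h2.symm

/-- What `ν` guarantees is at most the expected payoff of a tree plus an error. -/
lemma guaranteed_le_fcost {N : ℕ} (hN : 0 < N) (ν : ProbabilityMeasure (Icc (0 : ℝ) 1))
    {T : BTree} (hT : WF T 0 N) : guaranteed ν ≤
      ENNReal.ofReal (fcost N T (wts N ν) + (fcost N T (wts N ν) + 1) / (2 * √N)) := by
  have hN' : (0 : ℝ) < N := by exact_mod_cast hN
  have hs : 0 < √(N : ℝ) := Real.sqrt_pos.2 hN'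
  have hb0 : ∀ i : Fin N, 0 ≤ bcost N T 0 N i := fun i =>
    (dep_bounds hN T 0 N i hT (Nat.zero_le _) i.2).2.2.2
  refine (guaranteed_le ν (bstrat N T 0 N)).trans ?_
  have hsum : ∑ i : Fin N, wts N ν i = 1 := (wts_mem hN ν).2
  calc ∫⁻ h, payoff (bstrat N T 0 N) h ∂(ν : Measure (Icc (0 : ℝ) 1))
      ≤ ∫⁻ h, (fun i : ℕ => ENNReal.ofReal (bcost N T 0 N i + dep T i / (2 * N))) (idx N h)
          ∂(ν : Measure (Icc (0 : ℝ) 1)) := by
        refine lintegral_mono fun h => ?_
        exact payoff_bstrat hN T 0 N (idx N h) h hT (Nat.zero_le _) (idx_lt hN h) le_rfl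
          (idx_bounds hN h).1 (idx_bounds hN h).2
    _ = ∑ i : Fin N, ENNReal.ofReal (bcost N T 0 N i + dep T i / (2 * N)) *
          (ν : Measure (Icc (0 : ℝ) 1)) {h | idx N h = i} :=
        lintegral_idx hN (ν : Measure (Icc (0 : ℝ) 1))
          (fun i : ℕ => ENNReal.ofReal (bcost N T 0 N i + dep T i / (2 * N)))
    _ ≤ ∑ i : Fin N, ENNReal.ofReal (wts N ν i *
          (bcost N T 0 N i + (bcost N T 0 N i + 1) / (2 * √N))) := by
        refine Finset.sum_le_sum fun i _ => ?_
        have e : (ν : Measure (Icc (0 : ℝ) 1)) {h | idx N h = i} =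
            ENNReal.ofReal (wts N ν i) :=
          (ENNReal.ofReal_toReal (measure_ne_top _ _)).symm
        have hw0 : 0 ≤ wts N ν i := measureReal_nonneg
        rw [e, mul_comm, ENNReal.ofReal_mul hw0]
        refine mul_le_mul_right (ENNReal.ofReal_le_ofReal ?_) _
        have := dep_le hN hT (Nat.zero_le _) i.2
        linarith
    _ = ENNReal.ofReal (∑ i : Fin N, wts N ν i *
          (bcost N T 0 N i + (bcost N T 0 N i + 1) / (2 * √N))) := by
        rw [ENNReal.ofReal_sum_of_nonneg]
        intro i _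
        have := hb0 i
        exact mul_nonneg measureReal_nonneg (by positivity)
    _ = _ := by
        congr 1
        have e : ∀ i : Fin N, wts N ν i *
            (bcost N T 0 N i + (bcost N T 0 N i + 1) / (2 * √N)) =
            wts N ν i * bcost N T 0 N i + (wts N ν i * bcost N T 0 N i) / (2 * √N) +
              wts N ν i / (2 * √N) := fun i => by ring
        simp only [e, Finset.sum_add_distrib, ← Finset.sum_div, hsum]
        unfold fcost
        ring

lemma fcost_leaf {N : ℕ} (hN : 0 < N) {m : Fin N → ℝ} (hm : m ∈ stdSimplex ℝ (Fin N)) :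
    fcost N BTree.leaf m = 1 := by
  have hN' : (0 : ℝ) < N := by exact_mod_cast hN
  have e : ∀ i : Fin N, m i * bcost N BTree.leaf 0 N i = m i := fun i => by
    simp only [bcost, Nat.cast_zero, sub_zero]
    rw [div_self hN'.ne', mul_one]
  unfold fcost
  simp only [e]
  exact hm.2

lemma fset_bddAbove {N : ℕ} (hN : 0 < N) :
    BddAbove {v : ℝ | ∃ m ∈ stdSimplex ℝ (Fin N), ∀ T : BTree, WF T 0 N → v ≤ fcost N T m} := by
  refine ⟨1, ?_⟩
  rintro v ⟨m, hm, hv⟩
  have := hv BTree.leaf trivial
  rwa [fcost_leaf hN hm] at this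

/-- The value of the finite game is at least the maximin value minus an error. -/
theorem vR_le_fval {N : ℕ} (hN : 0 < N) : vR - 1 / √N ≤ fval N := by
  obtain ⟨ν, hν⟩ := exists_optimal
  have hN' : (0 : ℝ) < N := by exact_mod_cast hN
  have hs : 0 < √(N : ℝ) := Real.sqrt_pos.2 hN'
  refine le_csSup (fset_bddAbove hN) ⟨wts N ν, wts_mem hN ν, fun T hT => ?_⟩
  have h1 := guaranteed_le_fcost hN ν hT
  rw [hν, ← ofReal_vR] at h1
  have hC0 : 0 ≤ fcost N T (wts N ν) := by
    unfold fcost
    refine Finset.sum_nonneg fun i _ => mul_nonneg measureReal_nonneg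
      (dep_bounds hN T 0 N i hT (Nat.zero_le _) i.2).2.2.2
  set C := fcost N T (wts N ν) with hC
  have h2 : vR ≤ C + (C + 1) / (2 * √N) :=
    (ENNReal.ofReal_le_ofReal_iff (by positivity)).1 h1
  rcases le_or_gt C 1 with hC1 | hC1
  · have h3 : (C + 1) / (2 * √N) ≤ 1 / √N := by
      rw [div_le_div_iff₀ (by positivity) hs]
      nlinarith
    linarith
  · have h3 := vR_le_one
    have h4 : 0 < 1 / √(N : ℝ) := by positivity
    linarith

/-! ### The lower bound -/

/-- The BTree induced by a tree with real cuts on the points `(i + u) / N`. -/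
lemma exists_induced {N : ℕ} (hN : 0 < N) {u : ℝ} (T : STree) :
    ∀ (α β : ℝ) (a b : ℕ), a < b → α ≤ ((a : ℝ) + u) / N → (((b : ℝ) - 1) + u) / N ≤ β →
    All (fun c => ∀ i : ℕ, c ≠ ((i : ℝ) + u) / N) T →
    ∃ T' : BTree, WF T' a b ∧ ∀ i : ℕ, a ≤ i → i < b →
      bcost N T' a b i - dep T' i / (2 * N) - 1 / N ≤ cost T α β (((i : ℝ) + u) / N) := by
  have hN' : (0 : ℝ) < N := by exact_mod_cast hN
  induction T with
  | leaf =>
    intro α β a b hab ha hb _
    refine ⟨BTree.leaf, trivial, fun i hi1 hi2 => ?_⟩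
    simp only [bcost, dep, depL, depR, cost_leaf]
    have h1 : (a : ℝ) + 1 ≤ b := by exact_mod_cast hab
    have e1 : (((b : ℝ) - 1) + u) / N - ((a : ℝ) + u) / N = ((b : ℝ) - a) / N - 1 / N := by
      rw [← sub_div, ← sub_div]; ring
    have h2 : 0 ≤ ((b : ℝ) - a) / N - 1 / N := by
      rw [← sub_div]; exact div_nonneg (by linarith) hN'.le
    simp only [Nat.cast_zero, add_zero, zero_div, sub_zero]
    linarith
  | node c l r ihl ihr =>
    intro α β a b hab ha hb hT
    have hx : ∀ k l' : ℕ, k < l' → ((k : ℝ) + u) / N < ((l' : ℝ) + u) / N := by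
      intro k l' hkl
      have : (k : ℝ) < l' := by exact_mod_cast hkl
      rw [div_lt_div_iff_of_pos_right hN']
      linarith
    obtain ⟨s, hs1, hs2, hs3, hs4⟩ := exists_cut_index (fun i : ℕ => ((i : ℝ) + u) / N) c a b
      hab.le (fun k l' _ hkl _ => hx k l' hkl) (fun l' _ _ => hT.1 l')
    have hbm : (((b - 1 : ℕ) : ℝ) + u) / N = (((b : ℝ) - 1) + u) / N := by
      rw [Nat.cast_sub (by omega)]; simp
    rcases Nat.eq_or_lt_of_le hs1 with h1 | h1
    · subst h1
      have h3 := hs4 a le_rfl hab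
      obtain ⟨T', hw, hT'⟩ := ihr (max α c) β a b hab (max_le ha h3.le) hb hT.2.2
      refine ⟨T', hw, fun i hi1 hi2 => (hT' i hi1 hi2).trans ?_⟩
      have h4 := hs4 i hi1 hi2
      rw [cost_node_ge h4.le]
      linarith
    rcases Nat.eq_or_lt_of_le hs2 with h2 | h2
    · subst h2
      have h3 := hs3 (s - 1) (by omega) (by omega)
      rw [hbm] at h3
      obtain ⟨T', hw, hT'⟩ := ihl α (min β c) a s hab ha (le_min hb h3.le) hT.2.1
      refine ⟨T', hw, fun i hi1 hi2 => (hT' i hi1 hi2).trans ?_⟩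
      have h4 := hs3 i hi1 hi2
      rw [cost_node_lt h4]
      linarith
    · have h3 := hs3 (s - 1) (by omega) (by omega)
      have h3' := hs4 s le_rfl h2
      have hsm : (((s - 1 : ℕ) : ℝ) + u) / N = (((s : ℝ) - 1) + u) / N := by
        rw [Nat.cast_sub (by omega)]; simp
      simp only [hsm] at h3
      have hxb : (((s : ℝ) - 1) + u) / N ≤ β := by
        refine le_trans ?_ hb
        have : (s : ℝ) ≤ b := by exact_mod_cast h2.le
        exact div_le_div_of_nonneg_right (by linarith) hN'.le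
      have hxa : α ≤ ((s : ℝ) + u) / N := ha.trans (hx a s h1).le
      obtain ⟨L, hwl, hL⟩ := ihl α (min β c) a s h1 ha (le_min hxb h3.le) hT.2.1
      obtain ⟨R, hwr, hR⟩ := ihr (max α c) β s b h2 (max_le hxa h3'.le) hb hT.2.2
      refine ⟨BTree.node s L R, ⟨h1, h2, hwl, hwr⟩, fun i hi1 hi2 => ?_⟩
      by_cases hi : i < s
      · have h4 := hL i hi1 hi
        have h5 := hs3 i hi1 hi
        rw [cost_node_lt h5]
        simp only [bcost, dep, depL, depR, if_pos hi] at *
        have his : (i : ℝ) + 1 ≤ s := by exact_mod_cast hi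
        have e : |(s : ℝ) / N - (i + 1 / 2) / N| = ((s : ℝ) - i - 1 / 2) / N := by
          rw [← sub_div, abs_of_nonneg]
          · ring
          · exact div_nonneg (by linarith) hN'.le
        have e2 : ((s : ℝ) - i - 1 / 2) / N - 1 / (2 * N) =
            (((s : ℝ) - 1) + u) / N - ((i : ℝ) + u) / N := by
          field_simp; ring
        have e3 : (((depL L i + (depR L i + 1) : ℕ)) : ℝ) / (2 * N) =
            ((depL L i + depR L i : ℕ) : ℝ) / (2 * N) + 1 / (2 * N) := by
          push_cast; rw [← add_div]; ring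
        rw [e, e3]
        linarith
      · have h4 := hR i (not_lt.1 hi) hi2
        have h5 := hs4 i (not_lt.1 hi) hi2
        rw [cost_node_ge h5.le]
        simp only [bcost, dep, depL, depR, if_neg hi] at *
        have his : (s : ℝ) ≤ i := by exact_mod_cast not_lt.1 hi
        have e : |(s : ℝ) / N - (i + 1 / 2) / N| = ((i : ℝ) + 1 / 2 - s) / N := by
          rw [← sub_div, abs_of_nonpos]
          · ring
          · exact div_nonpos_of_nonpos_of_nonneg (by linarith) hN'.le
        have e2 : ((i : ℝ) + 1 / 2 - s) / N - 1 / (2 * N) =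
            ((i : ℝ) + u) / N - ((s : ℝ) + u) / N := by
          field_simp; ring
        have e3 : (((depL R i + 1 + depR R i : ℕ)) : ℝ) / (2 * N) =
            ((depL R i + depR R i : ℕ) : ℝ) / (2 * N) + 1 / (2 * N) := by
          push_cast; rw [← add_div]; ring
        rw [e, e3]
        linarith

/-- The affine map of `[0, 1]` onto the cell `i`. -/
noncomputable def cellMap (N : ℕ) (i : Fin N) (u : Icc (0 : ℝ) 1) : Icc (0 : ℝ) 1 :=
  projIcc 0 1 zero_le_one (((i : ℝ) + u) / N)

lemma cellMap_coe {N : ℕ} (i : Fin N) (u : Icc (0 : ℝ) 1) :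
    ((cellMap N i u : Icc (0 : ℝ) 1) : ℝ) = ((i : ℝ) + u) / N := by
  have hN' : (0 : ℝ) < N := by exact_mod_cast (Nat.zero_lt_of_lt i.2)
  unfold cellMap
  rw [projIcc_of_mem zero_le_one]
  have h0 := u.2.1
  have h1 := u.2.2
  have h2 : (i : ℝ) + 1 ≤ N := by exact_mod_cast i.2
  refine ⟨by positivity, (div_le_one hN').2 (by linarith)⟩

lemma measurable_cellMap {N : ℕ} (i : Fin N) : Measurable (cellMap N i) := by
  unfold cellMap
  exact continuous_projIcc.measurable.comp
    ((measurable_const.add measurable_subtype_coe).div_const _)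

/-- The distribution obtained by choosing a cell with the weights `m` and then a uniformly
distributed point of the cell. -/
noncomputable def smear (N : ℕ) (m : Fin N → ℝ) : Measure (Icc (0 : ℝ) 1) :=
  ∑ i : Fin N, ENNReal.ofReal (m i) • (volume : Measure (Icc (0 : ℝ) 1)).map (cellMap N i)

lemma smear_prob {N : ℕ} {m : Fin N → ℝ} (hm : m ∈ stdSimplex ℝ (Fin N)) :
    IsProbabilityMeasure (smear N m) := by
  constructor
  unfold smear
  rw [Measure.finsetSum_apply]
  have e : ∀ i : Fin N, ((volume : Measure (Icc (0 : ℝ) 1)).map (cellMap N i)) univ = 1 := by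
    intro i
    rw [Measure.map_apply (measurable_cellMap i) MeasurableSet.univ, preimage_univ, measure_univ]
  simp only [Measure.smul_apply, e, smul_eq_mul, mul_one]
  rw [← ENNReal.ofReal_sum_of_nonneg (fun i _ => hm.1 i), hm.2, ENNReal.ofReal_one]

lemma lintegral_smear {N : ℕ} (m : Fin N → ℝ) {f : Icc (0 : ℝ) 1 → ℝ≥0∞} (hf : Measurable f) :
    ∫⁻ h, f h ∂(smear N m) =
      ∑ i : Fin N, ENNReal.ofReal (m i) * ∫⁻ u, f (cellMap N i u) := by
  unfold smear
  rw [lintegral_finsetSum_measure]
  refine Finset.sum_congr rfl fun i _ => ?_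
  rw [lintegral_smul_measure, lintegral_map hf (measurable_cellMap i), smul_eq_mul]

lemma smear_singleton {N : ℕ} (m : Fin N → ℝ) (x : Icc (0 : ℝ) 1) : smear N m {x} = 0 := by
  unfold smear
  rw [Measure.finsetSum_apply]
  refine Finset.sum_eq_zero fun i _ => ?_
  have hN' : (0 : ℝ) < N := by exact_mod_cast (Nat.zero_lt_of_lt i.2)
  rw [Measure.smul_apply, Measure.map_apply (measurable_cellMap i) (measurableSet_singleton x)]
  have h1 : (cellMap N i ⁻¹' {x}).Subsingleton := by
    intro u hu v hv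
    have e : cellMap N i u = cellMap N i v := (show _ = x from hu).trans (show _ = x from hv).symm
    have e2 := congrArg (fun z : Icc (0 : ℝ) 1 => (z : ℝ)) e
    simp only [cellMap_coe] at e2
    rw [div_left_inj' hN'.ne'] at e2
    exact Subtype.ext (by linarith)
  rw [h1.measure_zero (volume : Measure (Icc (0 : ℝ) 1)), smul_zero]

/-- A lower bound for what a nonatomic strategy guarantees. -/
lemma guaranteed_ge_of_cost (ν : ProbabilityMeasure (Icc (0 : ℝ) 1))
    (hna : ∀ h : Icc (0 : ℝ) 1, (ν : Measure (Icc (0 : ℝ) 1)) {h} = 0) {w : ℝ}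
    (H : ∀ T : STree, w ≤ ∫ h : Icc (0 : ℝ) 1, cost T 0 1 h ∂(ν : Measure (Icc (0 : ℝ) 1))) :
    ENNReal.ofReal w ≤ guaranteed ν := by
  refine le_guaranteed fun g => ?_
  rcases eq_or_ne (∫⁻ h, payoff g h ∂(ν : Measure (Icc (0 : ℝ) 1))) ∞ with htop | hfin
  · rw [htop]; exact le_top
  set A := (∫⁻ h, payoff g h ∂(ν : Measure (Icc (0 : ℝ) 1))).toReal with hA
  have hA0 : 0 ≤ A := ENNReal.toReal_nonneg
  have hAe : ∫⁻ h, payoff g h ∂(ν : Measure (Icc (0 : ℝ) 1)) = ENNReal.ofReal A :=
    (ENNReal.ofReal_toReal hfin).symm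
  rw [hAe]
  apply ENNReal.ofReal_le_ofReal
  refine le_of_forall_pos_le_add fun ε hε => ?_
  obtain ⟨T, hT⟩ := exists_trunc (ν : Measure (Icc (0 : ℝ) 1)) hna g hA0 hAe.le hε
  rw [← ofReal_integral_eq_lintegral_ofReal (integrable_cost01 _ T)
    (Filter.Eventually.of_forall fun h => cost_nonneg T h.2.1 h.2.2)] at hT
  exact (H T).trans ((ENNReal.ofReal_le_ofReal_iff (by linarith)).1 hT)

/-- For almost every shift the points of the cells avoid the cuts. -/
lemma ae_avoid {N : ℕ} (hN : 0 < N) (T : STree) : ∀ᵐ u : Icc (0 : ℝ) 1,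
    All (fun c => ∀ i : ℕ, c ≠ ((i : ℝ) + u) / N) T := by
  have hN' : (0 : ℝ) < N := by exact_mod_cast hN
  induction T with
  | leaf => exact Filter.Eventually.of_forall fun _ => trivial
  | node c l r ihl ihr =>
    have h1 : ∀ᵐ u : Icc (0 : ℝ) 1, ∀ i : ℕ, c ≠ ((i : ℝ) + u) / N := by
      rw [ae_all_iff]
      intro i
      have h2 : {u : Icc (0 : ℝ) 1 | ¬ c ≠ ((i : ℝ) + u) / N}.Subsingleton := by
        intro u hu v hv
        have e1 : c = ((i : ℝ) + u) / N := not_not.1 hu
        have e2 : c = ((i : ℝ) + v) / N := not_not.1 hv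
        rw [e1, div_left_inj' hN'.ne'] at e2
        exact Subtype.ext (by linarith)
      rw [ae_iff]
      exact h2.measure_zero _
    filter_upwards [h1, ihl, ihr] with u h1 h2 h3
    exact ⟨h1, h2, h3⟩

/-- **What the spread-out weights guarantee.** -/
theorem guaranteed_smear_ge {N : ℕ} (hN : 0 < N) {m : Fin N → ℝ}
    (hm : m ∈ stdSimplex ℝ (Fin N)) {v : ℝ} (hv : ∀ T : BTree, WF T 0 N → v ≤ fcost N T m)
    (ν : ProbabilityMeasure (Icc (0 : ℝ) 1)) (hν : (ν : Measure (Icc (0 : ℝ) 1)) = smear N m) :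
    ENNReal.ofReal (v - 1 / √N - 1 / N) ≤ guaranteed ν := by
  have hN' : (0 : ℝ) < N := by exact_mod_cast hN
  have hs : 0 < √(N : ℝ) := Real.sqrt_pos.2 hN'
  have hs1 : 1 ≤ √(N : ℝ) := Real.one_le_sqrt.2 (by exact_mod_cast hN)
  have hv1 : v ≤ 1 := by
    have := hv BTree.leaf trivial
    rwa [fcost_leaf hN hm] at this
  refine guaranteed_ge_of_cost ν (fun h => by rw [hν]; exact smear_singleton m h) fun T => ?_
  rw [hν]
  -- the pointwise bound
  have key : ∀ᵐ u : Icc (0 : ℝ) 1, v - 1 / √N - 1 / N ≤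
      ∑ i : Fin N, m i * cost T 0 1 (((i : ℝ) + u) / N) := by
    filter_upwards [ae_avoid hN T] with u hu
    obtain ⟨T', hw, hT'⟩ := exists_induced hN T 0 1 0 N hN
      (by have := u.2.1; positivity) ((div_le_one hN').2 (by linarith [u.2.2])) hu
    have h1 : ∑ i : Fin N, m i * (bcost N T' 0 N i - (bcost N T' 0 N i + 1) / (2 * √N) - 1 / N) ≤
        ∑ i : Fin N, m i * cost T 0 1 (((i : ℝ) + u) / N) := by
      refine Finset.sum_le_sum fun i _ => mul_le_mul_of_nonneg_left ?_ (hm.1 i)
      have h2 := hT' i (Nat.zero_le _) i.2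
      have h3 := dep_le hN hw (Nat.zero_le _) i.2
      linarith
    refine le_trans ?_ h1
    have e : ∀ i : Fin N, m i *
        (bcost N T' 0 N i - (bcost N T' 0 N i + 1) / (2 * √N) - 1 / N) =
        m i * bcost N T' 0 N i - (m i * bcost N T' 0 N i) / (2 * √N) - m i / (2 * √N) -
          m i / N := fun i => by ring
    simp only [e, Finset.sum_sub_distrib, ← Finset.sum_div, hm.2]
    have h4 := hv T' hw
    have e2 : ∑ i : Fin N, m i * bcost N T' 0 N i = fcost N T' m := rfl
    rw [e2]
    set C := fcost N T' m with hC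
    have h5 : v / (2 * √N) ≤ 1 / (2 * √N) := div_le_div_of_nonneg_right hv1 (by positivity)
    have h6 : (C - v) / (2 * √N) ≤ C - v := div_le_self (by linarith) (by linarith)
    have h7 : (C - v) / (2 * √N) = C / (2 * √N) - v / (2 * √N) := by rw [sub_div]
    have h8 : 1 / √(N : ℝ) = 1 / (2 * √N) + 1 / (2 * √N) := by
      field_simp; norm_num
    linarith
  -- integrate
  have hint : ∫ h, cost T 0 1 (h : Icc (0 : ℝ) 1) ∂(smear N m) =
      ∫ u : Icc (0 : ℝ) 1, ∑ i : Fin N, m i * cost T 0 1 (((i : ℝ) + u) / N) := by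
    have hc : Measurable (fun h : Icc (0 : ℝ) 1 => cost T 0 1 h) :=
      (measurable_cost T 0 1).comp measurable_subtype_coe
    have hcI : ∀ i : Fin N, Integrable (fun h : Icc (0 : ℝ) 1 => cost T 0 1 h)
        ((volume : Measure (Icc (0 : ℝ) 1)).map (cellMap N i)) := fun i => by
      have : IsProbabilityMeasure ((volume : Measure (Icc (0 : ℝ) 1)).map (cellMap N i)) :=
        Measure.isProbabilityMeasure_map (measurable_cellMap i).aemeasurable
      exact integrable_cost01 _ T
    unfold smear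
    rw [integral_finsetSum_measure (fun i _ => (hcI i).smul_measure ENNReal.ofReal_ne_top)]
    rw [integral_finsetSum]
    · refine Finset.sum_congr rfl fun i _ => ?_
      rw [integral_smul_measure, integral_map (measurable_cellMap i).aemeasurable
        hc.aestronglyMeasurable, ENNReal.toReal_ofReal (hm.1 i), smul_eq_mul,
        ← integral_const_mul]
      refine integral_congr_ae (Filter.Eventually.of_forall fun u => ?_)
      simp only [cellMap_coe]
    · intro i _
      have h1 := (hcI i).comp_measurable (measurable_cellMap i)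
      have h2 : (fun u : Icc (0 : ℝ) 1 => m i * cost T 0 1 (((i : ℝ) + u) / N)) =
          fun u => m i * ((fun h : Icc (0 : ℝ) 1 => cost T 0 1 h) ∘ cellMap N i) u := by
        funext u
        simp only [Function.comp, cellMap_coe]
      rw [h2]
      exact h1.const_mul _
  rw [hint]
  have hI : Integrable (fun u : Icc (0 : ℝ) 1 =>
      ∑ i : Fin N, m i * cost T 0 1 (((i : ℝ) + u) / N)) := by
    refine integrable_finsetSum _ fun i _ => ?_
    have : IsProbabilityMeasure ((volume : Measure (Icc (0 : ℝ) 1)).map (cellMap N i)) :=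
      Measure.isProbabilityMeasure_map (measurable_cellMap i).aemeasurable
    have h1 := (integrable_cost01 ((volume : Measure (Icc (0 : ℝ) 1)).map
      (cellMap N i)) T).comp_measurable (measurable_cellMap i)
    have h2 : (fun u : Icc (0 : ℝ) 1 => m i * cost T 0 1 (((i : ℝ) + u) / N)) =
        fun u => m i * ((fun h : Icc (0 : ℝ) 1 => cost T 0 1 h) ∘ cellMap N i) u := by
      funext u
      simp only [Function.comp, cellMap_coe]
    rw [h2]
    exact h1.const_mul _
  calc v - 1 / √N - 1 / N = ∫ _ : Icc (0 : ℝ) 1, (v - 1 / √N - 1 / N) := by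
        rw [integral_const]; simp
    _ ≤ _ := integral_mono_ae (integrable_const _) hI key

end Pool.Agent.HighLow
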