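import Pool.Agent.HighLow_e5c6.FiniteGame

/-!
# Explicit nearly optimal hider strategies

Optimal weights of the finite games exist; spread over the cells they are nearly optimal, and
every weak limit point is an optimal hider strategy.
-/

set_option autoImplicit false

namespace Pool.Agent.HighLow

open MeasureTheory Set STree Filter Topology
open scoped ENNReal BoundedContinuousFunction

namespace BTree

/-- The weights `m` are optimal for Blue in the finite game. -/
def OptFin (N : ℕ) (m : Fin N → ℝ) : Prop :=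
  m ∈ stdSimplex ℝ (Fin N) ∧ ∀ T : BTree, WF T 0 N → fval N ≤ fcost N T m

/-- There are only finitely many trees. -/
lemma finite_WF (n : ℕ) : ∀ a b : ℕ, b ≤ a + n → {T : BTree | WF T a b}.Finite := by
  induction n with
  | zero =>
    intro a b hab
    refine (finite_singleton BTree.leaf).subset ?_
    intro T hT
    cases T with
    | leaf => rfl
    | node s l r =>
      obtain ⟨h1, h2, _, _⟩ := (show WF (node s l r) a b from hT)
      omega
  | succ n ih =>
    intro a b hab
    have h1 : (⋃ s ∈ Finset.Ioo a b,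
        image2 (fun l r => BTree.node s l r) {T | WF T a s} {T | WF T s b}).Finite := by
      refine (Finset.finite_toSet _).biUnion fun s hs => ?_
      have hs' := Finset.mem_Ioo.1 (Finset.mem_coe.1 hs)
      exact (ih a s (by omega)).image2 _ (ih s b (by omega))
    refine ((finite_singleton BTree.leaf).union h1).subset ?_
    intro T hT
    cases T with
    | leaf => left; rfl
    | node s l r =>
      right
      obtain ⟨h2, h3, h4, h5⟩ := (show WF (node s l r) a b from hT)
      rw [mem_iUnion₂]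
      exact ⟨s, Finset.mem_Ioo.2 ⟨h2, h3⟩, l, h4, r, h5, rfl⟩

lemma continuous_fcost (N : ℕ) (T : BTree) : Continuous (fcost N T) := by
  unfold fcost
  exact continuous_finsetSum _ fun i _ => (continuous_apply i).mul continuous_const

/-- Optimal weights exist. -/
theorem exists_optFin {N : ℕ} (hN : 0 < N) : ∃ m, OptFin N m := by
  set S : Set ℝ := {v : ℝ | ∃ m ∈ stdSimplex ℝ (Fin N), ∀ T : BTree, WF T 0 N → v ≤ fcost N T m}
    with hS
  have hbdd : BddAbove S := fset_bddAbove hN
  have hne : S.Nonempty := by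
    obtain ⟨ν, _⟩ := exists_optimal
    refine ⟨0, wts N ν, wts_mem hN ν, fun T hT => ?_⟩
    unfold fcost
    exact Finset.sum_nonneg fun i _ => mul_nonneg measureReal_nonneg
      (dep_bounds hN T 0 N i hT (Nat.zero_le _) i.2).2.2.2
  set ε : ℕ → ℝ := fun n => 1 / ((n : ℝ) + 1) with hε
  have hε0 : ∀ n, 0 < ε n := fun n => by positivity
  set K : ℕ → Set (Fin N → ℝ) := fun n =>
    stdSimplex ℝ (Fin N) ∩ {m | ∀ T : BTree, WF T 0 N → fval N - ε n ≤ fcost N T m} with hK
  have hclosed : ∀ n, IsClosed (K n) := by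
    intro n
    refine (isClosed_stdSimplex (𝕜 := ℝ) (ι := Fin N)).inter ?_
    simp only [Set.ofPred_forall]
    refine isClosed_iInter fun T => isClosed_iInter fun _ => ?_
    exact isClosed_le continuous_const (continuous_fcost N T)
  have hcomp : ∀ n, IsCompact (K n) := fun n =>
    (isCompact_stdSimplex ℝ (Fin N)).of_isClosed_subset (hclosed n) inter_subset_left
  have hanti : ∀ n, K (n + 1) ⊆ K n := by
    rintro n m ⟨hm, hm2⟩
    refine ⟨hm, fun T hT => le_trans ?_ (hm2 T hT)⟩
    have : ε (n + 1) ≤ ε n := by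
      simp only [hε]
      apply one_div_le_one_div_of_le (by positivity)
      push_cast
      linarith
    linarith
  have hKne : ∀ n, (K n).Nonempty := by
    intro n
    obtain ⟨v, ⟨m, hm, hv⟩, hlt⟩ := exists_lt_of_lt_csSup hne
      (show fval N - ε n < sSup S from by
        have := hε0 n
        show fval N - ε n < fval N
        linarith)
    exact ⟨m, hm, fun T hT => hlt.le.trans (hv T hT)⟩
  obtain ⟨m, hm⟩ := IsCompact.nonempty_iInter_of_sequence_nonempty_isCompact_isClosed K hanti hKne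
    (hcomp 0) hclosed
  rw [mem_iInter] at hm
  refine ⟨m, (hm 0).1, fun T hT => ?_⟩
  refine le_of_forall_pos_le_add fun η hη => ?_
  obtain ⟨n, hn⟩ := exists_nat_one_div_lt hη
  have h1 := (hm n).2 T hT
  have h2 : ε n < η := hn
  linarith

end BTree

open BTree

lemma inv_le_inv_sqrt {N : ℕ} (hN : 0 < N) : 1 / (N : ℝ) ≤ 1 / √N := by
  have hN' : (0 : ℝ) < N := by exact_mod_cast hN
  have h1 : (1 : ℝ) ≤ N := by exact_mod_cast hN
  apply one_div_le_one_div_of_le (Real.sqrt_pos.2 hN')
  rw [Real.sqrt_le_left hN'.le]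
  nlinarith

theorem fval_le {N : ℕ} (hN : 0 < N) : fval N ≤ vR + 2 / √N := by
  have hN' : (0 : ℝ) < N := by exact_mod_cast hN
  obtain ⟨m, hm, hv⟩ := exists_optFin hN
  have hp := smear_prob hm
  have h1 := guaranteed_smear_ge hN hm hv ⟨smear N m, hp⟩ rfl
  have h2 : ENNReal.ofReal (fval N - 1 / √N - 1 / N) ≤ ENNReal.ofReal vR := by
    rw [ofReal_vR]
    exact h1.trans (le_iSup guaranteed _)
  have h3 := (ENNReal.ofReal_le_ofReal_iff vR_nonneg).1 h2
  have h4 := inv_le_inv_sqrt hN
  have h5 : 2 / √(N : ℝ) = 1 / √N + 1 / √N := by rw [← add_div]; norm_num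
  linarith

/-- The values of the finite games converge to the maximin value. -/
theorem abs_fval_sub {N : ℕ} (hN : 0 < N) : |maximin.toReal - fval N| ≤ 2 / √N := by
  have h1 := fval_le hN
  have h2 := vR_le_fval hN
  have h5 : 2 / √(N : ℝ) = 1 / √N + 1 / √N := by rw [← add_div]; norm_num
  have h6 : 0 < 1 / √(N : ℝ) := by
    have hN' : (0 : ℝ) < N := by exact_mod_cast hN
    have := Real.sqrt_pos.2 hN'
    positivity
  rw [abs_le]
  have e : maximin.toReal = vR := rfl
  rw [e]
  constructor <;> linarith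

/-- **Explicit nearly optimal hider strategies.** -/
theorem smear_nearly_optimal {N : ℕ} (hN : 0 < N) {m : Fin N → ℝ} (hm : OptFin N m)
    (ν : ProbabilityMeasure (Icc (0 : ℝ) 1)) (hν : (ν : Measure (Icc (0 : ℝ) 1)) = smear N m) :
    maximin ≤ guaranteed ν + ENNReal.ofReal (3 / √N) := by
  have hN' : (0 : ℝ) < N := by exact_mod_cast hN
  have hs := Real.sqrt_pos.2 hN'
  have h1 := guaranteed_smear_ge hN hm.1 hm.2 ν hν
  have h2 := vR_le_fval hN
  have h4 := inv_le_inv_sqrt hN
  have h5 : 3 / √(N : ℝ) = 1 / √N + 1 / √N + 1 / √N := by rw [← add_div, ← add_div]; norm_num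
  calc maximin = ENNReal.ofReal vR := ofReal_vR.symm
    _ ≤ ENNReal.ofReal ((fval N - 1 / √N - 1 / N) + 3 / √N) :=
        ENNReal.ofReal_le_ofReal (by linarith)
    _ ≤ ENNReal.ofReal (fval N - 1 / √N - 1 / N) + ENNReal.ofReal (3 / √N) :=
        ENNReal.ofReal_add_le
    _ ≤ _ := add_le_add h1 le_rfl

/-- **Weak limit points are optimal.** -/
theorem limit_optimal {m : ∀ N : ℕ, Fin (N + 1) → ℝ}
    {νs : ℕ → ProbabilityMeasure (Icc (0 : ℝ) 1)} {ν : ProbabilityMeasure (Icc (0 : ℝ) 1)}
    {φ : ℕ → ℕ} (hm : ∀ N, OptFin (N + 1) (m N))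
    (hνs : ∀ N, (νs N : Measure (Icc (0 : ℝ) 1)) = smear (N + 1) (m N))
    (hφ : Tendsto φ atTop atTop) (hlim : Tendsto (fun n => νs (φ n)) atTop (𝓝 ν)) :
    guaranteed ν = maximin := by
  rw [optimal_iff]
  intro T f hf
  have h1 : ∀ N : ℕ, vR - 3 / √((N : ℝ) + 1) ≤ ∫ h, f h ∂(νs N : Measure (Icc (0 : ℝ) 1)) := by
    intro N
    have h2 := smear_nearly_optimal (Nat.succ_pos N) (hm N) (νs N) (hνs N)
    obtain ⟨g, hg⟩ := exists_strategy T 0 1 le_rfl le_rfl
    have h3 : guaranteed (νs N) ≤
        ENNReal.ofReal (∫ h, f h ∂(νs N : Measure (Icc (0 : ℝ) 1))) := by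
      rw [ofReal_integral_eq_lintegral_ofReal (f.integrable _)
        (Filter.Eventually.of_forall fun h => (cost_nonneg T h.2.1 h.2.2).trans (hf h))]
      exact (guaranteed_le (νs N) g).trans (lintegral_mono fun h =>
        (hg h h.2.1 h.2.2).trans (ENNReal.ofReal_le_ofReal (hf h)))
    have h4 : 0 ≤ ∫ h, f h ∂(νs N : Measure (Icc (0 : ℝ) 1)) :=
      integral_nonneg fun h => (cost_nonneg T h.2.1 h.2.2).trans (hf h)
    have h5 : ENNReal.ofReal vR ≤ ENNReal.ofReal
        (∫ h, f h ∂(νs N : Measure (Icc (0 : ℝ) 1)) + 3 / √((N + 1 : ℕ) : ℝ)) := by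
      rw [ofReal_vR, ENNReal.ofReal_add h4 (by positivity)]
      exact h2.trans (add_le_add h3 le_rfl)
    have h6 := (ENNReal.ofReal_le_ofReal_iff (by positivity)).1 h5
    push_cast at h6
    linarith
  have hl1 : Tendsto (fun n => ∫ h, f h ∂(νs (φ n) : Measure (Icc (0 : ℝ) 1))) atTop
      (𝓝 (∫ h, f h ∂(ν : Measure (Icc (0 : ℝ) 1)))) :=
    ((ProbabilityMeasure.continuous_integral_boundedContinuousFunction f).tendsto ν).comp hlim
  have hl2 : Tendsto (fun n => vR - 3 / √((φ n : ℝ) + 1)) atTop (𝓝 (vR - 0)) := by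
    refine tendsto_const_nhds.sub ?_
    have h7 : Tendsto (fun n => √((φ n : ℝ) + 1)) atTop atTop := by
      refine Real.tendsto_sqrt_atTop.comp ?_
      exact tendsto_atTop_add_const_right _ _ (tendsto_natCast_atTop_atTop.comp hφ)
    exact h7.const_div_atTop 3
  rw [sub_zero] at hl2
  exact le_of_tendsto_of_tendsto' hl2 hl1 fun n => h1 (φ n)

end Pool.Agent.HighLow
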