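import Mathlib

/-!
# The continuous high-low game: definitions and basic recursion
-/

set_option autoImplicit false
set_option linter.unusedSectionVars false
set_option linter.unusedVariables false

namespace Pool.Agent.HighLow

open MeasureTheory Set
open scoped ENNReal

/-- A pure strategy of Red: the next guess as a function of the answers received so far (in
chronological order; `true` means too low, `false` means too high). -/
abbrev Strategy : Type := List Bool → Icc (0 : ℝ) 1

/-- The first `n` answers if Red plays `g` and the secret number is `h`. -/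
noncomputable def answers (g : Strategy) (h : Icc (0 : ℝ) 1) : ℕ → List Bool
  | 0 => []
  | n + 1 => answers g h n ++ [decide (g (answers g h n) < h)]

/-- The guess number `n` (starting with number `0`). -/
noncomputable def guess (g : Strategy) (h : Icc (0 : ℝ) 1) (n : ℕ) : Icc (0 : ℝ) 1 :=
  g (answers g h n)

/-- The payoff `P = ∑ |g_n - h|`; the game stops once the secret number has been guessed. -/
noncomputable def payoff (g : Strategy) (h : Icc (0 : ℝ) 1) : ℝ≥0∞ :=
  ∑' n : ℕ, if ∃ i < n, guess g h i = h then 0 else ENNReal.ofReal |(guess g h n : ℝ) - h|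

/-- Expected payoff if Red plays the mixed strategy `σ` and Blue plays `ν`. -/
noncomputable def expectedPayoff (ν : ProbabilityMeasure (Icc (0 : ℝ) 1))
    (σ : ProbabilityMeasure Strategy) : ℝ≥0∞ :=
  ∫⁻ p, payoff p.2 p.1 ∂((ν : Measure (Icc (0 : ℝ) 1)).prod (σ : Measure Strategy))

/-- What the hider strategy `ν` guarantees: the infimum over all mixed strategies of Red. -/
noncomputable def guaranteed (ν : ProbabilityMeasure (Icc (0 : ℝ) 1)) : ℝ≥0∞ :=
  ⨅ σ : ProbabilityMeasure Strategy, expectedPayoff ν σ

/-- The maximin value of the hider. -/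
noncomputable def maximin : ℝ≥0∞ := ⨆ ν : ProbabilityMeasure (Icc (0 : ℝ) 1), guaranteed ν

/-- The substrategy after the first answer `b`. -/
def sub (g : Strategy) (b : Bool) : Strategy := fun L => g (b :: L)

/-- The strategy that first guesses `c` and then continues with `l` or `r`. -/
def nodeS (c : Icc (0 : ℝ) 1) (l r : Strategy) : Strategy
  | [] => c
  | false :: L => l L
  | true :: L => r L

@[simp] lemma nodeS_nil (c : Icc (0 : ℝ) 1) (l r : Strategy) : nodeS c l r [] = c := rfl
@[simp] lemma sub_nodeS_false (c : Icc (0 : ℝ) 1) (l r : Strategy) :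
    sub (nodeS c l r) false = l := rfl
@[simp] lemma sub_nodeS_true (c : Icc (0 : ℝ) 1) (l r : Strategy) :
    sub (nodeS c l r) true = r := rfl

lemma answers_succ (g : Strategy) (h : Icc (0 : ℝ) 1) (n : ℕ) :
    answers g h (n + 1) = decide (g [] < h) :: answers (sub g (decide (g [] < h))) h n := by
  induction n with
  | zero => rfl
  | succ n ih =>
    rw [answers, ih]
    rw [answers]
    rfl

lemma guess_succ (g : Strategy) (h : Icc (0 : ℝ) 1) (n : ℕ) :
    guess g h (n + 1) = guess (sub g (decide (g [] < h))) h n := by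
  unfold guess
  rw [answers_succ]
  rfl

/-- The payoff of the first `n` guesses. -/
noncomputable def pay : ℕ → Strategy → Icc (0 : ℝ) 1 → ℝ≥0∞
  | 0, _, _ => 0
  | n + 1, g, h => ENNReal.ofReal |(g [] : ℝ) - h| +
      if g [] = h then 0 else if g [] < h then pay n (sub g true) h else pay n (sub g false) h

lemma pay_succ' (n : ℕ) (g : Strategy) (h : Icc (0 : ℝ) 1) : pay (n + 1) g h =
    ENNReal.ofReal |(g [] : ℝ) - h| +
      if g [] = h then 0 else pay n (sub g (decide (g [] < h))) h := by
  rw [pay]
  by_cases h1 : g [] = h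
  · simp [h1]
  · by_cases h2 : g [] < h
    · simp [h1, h2]
    · simp [h1, h2]

lemma sum_eq_pay (n : ℕ) : ∀ (g : Strategy) (h : Icc (0 : ℝ) 1),
    ∑ j ∈ Finset.range n, (if ∃ i < j, guess g h i = h then (0 : ℝ≥0∞)
      else ENNReal.ofReal |(guess g h j : ℝ) - h|) = pay n g h := by
  induction n with
  | zero => intro g h; simp [pay]
  | succ n ih =>
    intro g h
    rw [Finset.sum_range_succ', pay_succ', add_comm]
    have h00 : (if ∃ i < 0, guess g h i = h then (0 : ℝ≥0∞)
        else ENNReal.ofReal |(guess g h 0 : ℝ) - h|) = ENNReal.ofReal |(g [] : ℝ) - h| := by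
      rw [if_neg (by rintro ⟨i, hi, _⟩; omega)]
      rfl
    rw [h00]
    congr 1
    · split_ifs with h1
      · refine Finset.sum_eq_zero fun j _ => ?_
        rw [if_pos]
        exact ⟨0, Nat.succ_pos j, h1⟩
      · rw [← ih]
        refine Finset.sum_congr rfl fun j _ => ?_
        have hiff : (∃ i < j + 1, guess g h i = h) ↔
            ∃ i < j, guess (sub g (decide (g [] < h))) h i = h := by
          constructor
          · rintro ⟨i, hi, hgi⟩
            rcases i with _ | i
            · exact absurd hgi h1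
            · exact ⟨i, by omega, by rw [← guess_succ]; exact hgi⟩
          · rintro ⟨i, hi, hgi⟩
            exact ⟨i + 1, by omega, by rw [guess_succ]; exact hgi⟩
        simp only [hiff, guess_succ]

lemma payoff_eq_iSup (g : Strategy) (h : Icc (0 : ℝ) 1) : payoff g h = ⨆ n, pay n g h := by
  unfold payoff
  rw [ENNReal.tsum_eq_iSup_nat]
  exact iSup_congr fun n => sum_eq_pay n g h

lemma pay_le_payoff (n : ℕ) (g : Strategy) (h : Icc (0 : ℝ) 1) : pay n g h ≤ payoff g h := by
  rw [payoff_eq_iSup]
  exact le_iSup (fun n => pay n g h) n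

lemma pay_mono (g : Strategy) (h : Icc (0 : ℝ) 1) : Monotone (fun n => pay n g h) := by
  refine monotone_nat_of_le_succ fun n => ?_
  rw [← sum_eq_pay, ← sum_eq_pay, Finset.sum_range_succ]
  exact le_self_add

lemma payoff_rec (g : Strategy) (h : Icc (0 : ℝ) 1) : payoff g h =
    ENNReal.ofReal |(g [] : ℝ) - h| +
      if g [] = h then 0 else payoff (sub g (decide (g [] < h))) h := by
  have h1 : payoff g h = ⨆ n, pay (n + 1) g h := by
    rw [payoff_eq_iSup]
    exact ((pay_mono g h).iSup_nat_add 1).symm
  rw [h1]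
  split_ifs with hc
  · simp only [pay_succ', if_pos hc, add_zero]
    exact ciSup_const
  · simp only [pay_succ', if_neg hc]
    rw [← ENNReal.add_iSup, payoff_eq_iSup]

lemma payoff_of_eq {g : Strategy} {h : Icc (0 : ℝ) 1} (hc : g [] = h) : payoff g h = 0 := by
  rw [payoff_rec, if_pos hc, hc]
  simp

lemma payoff_of_lt {g : Strategy} {h : Icc (0 : ℝ) 1} (hc : g [] < h) :
    payoff g h = ENNReal.ofReal ((h : ℝ) - g []) + payoff (sub g true) h := by
  rw [payoff_rec, if_neg hc.ne, decide_eq_true hc]
  have : ((g [] : Icc (0 : ℝ) 1) : ℝ) < h := hc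
  rw [abs_sub_comm, abs_of_pos (by linarith)]

lemma payoff_of_gt {g : Strategy} {h : Icc (0 : ℝ) 1} (hc : h < g []) :
    payoff g h = ENNReal.ofReal ((g [] : ℝ) - h) + payoff (sub g false) h := by
  rw [payoff_rec, if_neg hc.ne', decide_eq_false (not_lt.2 hc.le)]
  have : (h : ℝ) < ((g [] : Icc (0 : ℝ) 1) : ℝ) := hc
  rw [abs_of_pos (by linarith)]

/-! ### Measurability -/

lemma measurable_sub (b : Bool) : Measurable (fun g : Strategy => sub g b) :=
  measurable_pi_lambda _ fun L => measurable_pi_apply (b :: L)

lemma measurable_pay (n : ℕ) :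
    Measurable (fun p : Icc (0 : ℝ) 1 × Strategy => pay n p.2 p.1) := by
  induction n with
  | zero => exact measurable_const
  | succ n ih =>
    simp only [pay]
    have hg : Measurable (fun p : Icc (0 : ℝ) 1 × Strategy => p.2 []) :=
      (measurable_pi_apply ([] : List Bool)).comp measurable_snd
    have hh : Measurable (fun p : Icc (0 : ℝ) 1 × Strategy => p.1) := measurable_fst
    have hr : Measurable (fun p : Icc (0 : ℝ) 1 × Strategy =>
        ENNReal.ofReal |((p.2 [] : Icc (0 : ℝ) 1) : ℝ) - p.1|) :=
      ENNReal.measurable_ofReal.comp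
        (((measurable_subtype_coe.comp hg).sub (measurable_subtype_coe.comp hh)).abs)
    refine hr.add ?_
    · refine Measurable.ite (measurableSet_eq_fun hg hh) measurable_const ?_
      refine Measurable.ite (measurableSet_lt hg hh) ?_ ?_
      · exact ih.comp (hh.prodMk ((measurable_sub true).comp measurable_snd))
      · exact ih.comp (hh.prodMk ((measurable_sub false).comp measurable_snd))

lemma measurable_payoff :
    Measurable (fun p : Icc (0 : ℝ) 1 × Strategy => payoff p.2 p.1) := by
  simp only [payoff_eq_iSup]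
  exact Measurable.iSup fun n => measurable_pay n

lemma measurable_payoff_right (g : Strategy) : Measurable (fun h => payoff g h) :=
  measurable_payoff.comp (measurable_id.prodMk measurable_const)

lemma measurable_pay_right (n : ℕ) (g : Strategy) : Measurable (fun h => pay n g h) :=
  (measurable_pay n).comp (measurable_id.prodMk measurable_const)

/-! ### Mixed strategies of Red do not help against a fixed hider strategy -/

lemma expectedPayoff_eq (ν : ProbabilityMeasure (Icc (0 : ℝ) 1))
    (σ : ProbabilityMeasure Strategy) : expectedPayoff ν σ =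
      ∫⁻ g, ∫⁻ h, payoff g h ∂(ν : Measure (Icc (0 : ℝ) 1)) ∂(σ : Measure Strategy) := by
  unfold expectedPayoff
  rw [lintegral_prod_symm _ measurable_payoff.aemeasurable]

lemma guaranteed_le (ν : ProbabilityMeasure (Icc (0 : ℝ) 1)) (g : Strategy) :
    guaranteed ν ≤ ∫⁻ h, payoff g h ∂(ν : Measure (Icc (0 : ℝ) 1)) := by
  refine (iInf_le _ (diracProba g)).trans ?_
  rw [expectedPayoff_eq]
  apply le_of_eq
  have : ((diracProba g : ProbabilityMeasure Strategy) : Measure Strategy) = Measure.dirac g := rfl
  rw [this, lintegral_dirac']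
  exact (measurable_payoff.comp measurable_swap).lintegral_prod_right'

lemma le_guaranteed {ν : ProbabilityMeasure (Icc (0 : ℝ) 1)} {A : ℝ≥0∞}
    (h : ∀ g : Strategy, A ≤ ∫⁻ h, payoff g h ∂(ν : Measure (Icc (0 : ℝ) 1))) :
    A ≤ guaranteed ν := by
  refine le_iInf fun σ => ?_
  rw [expectedPayoff_eq]
  calc A = ∫⁻ _, A ∂(σ : Measure Strategy) := by simp
    _ ≤ _ := lintegral_mono fun g => h g

lemma exists_near_guaranteed (ν : ProbabilityMeasure (Icc (0 : ℝ) 1)) {A : ℝ≥0∞}
    (hA : guaranteed ν < A) :
    ∃ g : Strategy, ∫⁻ h, payoff g h ∂(ν : Measure (Icc (0 : ℝ) 1)) < A := by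
  by_contra hcon
  push Not at hcon
  exact absurd (le_guaranteed hcon) (not_le.2 hA)

/-! ### Bisection -/

/-- Bisection guesses. -/
noncomputable def bis : ℝ → ℝ → List Bool → ℝ
  | a, b, [] => (a + b) / 2
  | a, b, true :: L => bis ((a + b) / 2) b L
  | a, b, false :: L => bis a ((a + b) / 2) L

/-- The bisection strategy. -/
noncomputable def bisS (a b : ℝ) : Strategy := fun L => projIcc 0 1 zero_le_one (bis a b L)

lemma pay_bisS (n : ℕ) : ∀ (a b : ℝ), 0 ≤ a → b ≤ 1 → ∀ h : Icc (0 : ℝ) 1, a ≤ h → (h : ℝ) ≤ b →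
    pay n (bisS a b) h ≤ ENNReal.ofReal (b - a) := by
  induction n with
  | zero => intro a b _ _ h _ _; simp [pay]
  | succ n ih =>
    intro a b ha hb h h1 h2
    have hmid : ((bisS a b [] : Icc (0 : ℝ) 1) : ℝ) = (a + b) / 2 := by
      simp only [bisS, bis]
      rw [projIcc_of_mem zero_le_one (show (a + b) / 2 ∈ Icc (0 : ℝ) 1 from
        ⟨by linarith, by linarith⟩)]
    have hst : sub (bisS a b) true = bisS ((a + b) / 2) b := rfl
    have hsf : sub (bisS a b) false = bisS a ((a + b) / 2) := rfl
    rw [pay]
    have habs : |((bisS a b [] : Icc (0 : ℝ) 1) : ℝ) - h| ≤ (b - a) / 2 := by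
      rw [hmid, abs_le]
      constructor <;> linarith
    have hrest : (if bisS a b [] = h then 0 else if bisS a b [] < h then pay n (sub (bisS a b) true) h
        else pay n (sub (bisS a b) false) h) ≤ ENNReal.ofReal ((b - a) / 2) := by
      split_ifs with c1 c2
      · exact zero_le
      · have : ((bisS a b [] : Icc (0 : ℝ) 1) : ℝ) < h := c2
        rw [hmid] at this
        rw [hst]
        refine (ih _ _ (by linarith) hb h this.le h2).trans ?_
        apply ENNReal.ofReal_le_ofReal
        linarith
      · have : (h : ℝ) ≤ ((bisS a b [] : Icc (0 : ℝ) 1) : ℝ) := not_lt.1 c2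
        rw [hmid] at this
        rw [hsf]
        refine (ih _ _ ha (by linarith) h h1 this).trans ?_
        apply ENNReal.ofReal_le_ofReal
        linarith
    calc _ ≤ ENNReal.ofReal ((b - a) / 2) + ENNReal.ofReal ((b - a) / 2) :=
          add_le_add (ENNReal.ofReal_le_ofReal habs) hrest
      _ = ENNReal.ofReal (b - a) := by
        rw [← ENNReal.ofReal_add (by linarith) (by linarith)]
        congr 1
        ring

lemma payoff_bisS {a b : ℝ} (ha : 0 ≤ a) (hb : b ≤ 1) (h : Icc (0 : ℝ) 1) (h1 : a ≤ h)
    (h2 : (h : ℝ) ≤ b) : payoff (bisS a b) h ≤ ENNReal.ofReal (b - a) := by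
  rw [payoff_eq_iSup]
  exact iSup_le fun n => pay_bisS n a b ha hb h h1 h2

lemma guaranteed_le_one (ν : ProbabilityMeasure (Icc (0 : ℝ) 1)) : guaranteed ν ≤ 1 := by
  refine (guaranteed_le ν (bisS 0 1)).trans ?_
  calc ∫⁻ h, payoff (bisS 0 1) h ∂(ν : Measure (Icc (0 : ℝ) 1))
      ≤ ∫⁻ h, 1 ∂(ν : Measure (Icc (0 : ℝ) 1)) := by
        refine lintegral_mono fun h => ?_
        have := payoff_bisS le_rfl le_rfl h h.2.1 h.2.2
        simpa using this
    _ = 1 := by simp

lemma maximin_le_one : maximin ≤ 1 := iSup_le guaranteed_le_one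

end Pool.Agent.HighLow
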