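import Pool.Agent.HighLow_e5c6.Exists

/-!
# Optimal hider strategies have full support
-/

set_option autoImplicit false
set_option linter.unusedSectionVars false
set_option linter.unusedVariables false

namespace Pool.Agent.HighLow

open MeasureTheory Set Filter Topology
open scoped ENNReal


/-- `g` is an exact best response of Red to `ρ`, with finite expected payoff. -/
def Opt (g : Strategy) (ρ : Measure (Icc (0 : ℝ) 1)) : Prop :=
  ∫⁻ h, payoff g h ∂ρ ≠ ∞ ∧ ∀ g' : Strategy, ∫⁻ h, payoff g h ∂ρ ≤ ∫⁻ h, payoff g' h ∂ρ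

lemma payoff_indicator (g : Strategy) (h : (Icc (0 : ℝ) 1)) : payoff g h =
    ENNReal.ofReal |(g [] : ℝ) - h| + (Iio (g [])).indicator (payoff (sub g false)) h +
      (Ioi (g [])).indicator (payoff (sub g true)) h := by
  rcases lt_trichotomy (g []) h with hc | hc | hc
  · rw [payoff_of_lt hc, indicator_of_notMem (by simpa using hc.le),
      indicator_of_mem (by simpa using hc), add_zero, abs_sub_comm,
      abs_of_pos (sub_pos.2 (show ((g [] : (Icc (0 : ℝ) 1)) : ℝ) < h from hc))]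
  · rw [payoff_of_eq hc, hc, sub_self, abs_zero, ENNReal.ofReal_zero,
      indicator_of_notMem (by simp), indicator_of_notMem (by simp)]
    simp
  · rw [payoff_of_gt hc, indicator_of_mem (by simpa using hc),
      indicator_of_notMem (by simpa using hc.le), add_zero,
      abs_of_pos (sub_pos.2 (show (h : ℝ) < ((g [] : (Icc (0 : ℝ) 1)) : ℝ) from hc))]

lemma measurable_dist (c : (Icc (0 : ℝ) 1)) : Measurable (fun h : (Icc (0 : ℝ) 1) => ENNReal.ofReal |(c : ℝ) - h|) :=
  ENNReal.measurable_ofReal.comp ((measurable_const.sub measurable_subtype_coe).abs)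

lemma lintegral_payoff (g : Strategy) (ρ : Measure (Icc (0 : ℝ) 1)) : ∫⁻ h, payoff g h ∂ρ =
    ∫⁻ h : (Icc (0 : ℝ) 1), ENNReal.ofReal |(g [] : ℝ) - h| ∂ρ +
      ∫⁻ h in Iio (g []), payoff (sub g false) h ∂ρ +
      ∫⁻ h in Ioi (g []), payoff (sub g true) h ∂ρ := by
  have h1 : (fun h : (Icc (0 : ℝ) 1) => payoff g h) = fun h : (Icc (0 : ℝ) 1) => ENNReal.ofReal |(g [] : ℝ) - h| +
      (Iio (g [])).indicator (payoff (sub g false)) h +
      (Ioi (g [])).indicator (payoff (sub g true)) h := funext (payoff_indicator g)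
  have m1 : Measurable ((Iio (g [])).indicator (payoff (sub g false))) :=
    (measurable_payoff_right _).indicator measurableSet_Iio
  have m2 : Measurable ((Ioi (g [])).indicator (payoff (sub g true))) :=
    (measurable_payoff_right _).indicator measurableSet_Ioi
  rw [h1, lintegral_add_right _ m2, lintegral_add_right _ m1,
    lintegral_indicator measurableSet_Iio, lintegral_indicator measurableSet_Ioi]

lemma opt_false {g : Strategy} {ρ : Measure (Icc (0 : ℝ) 1)} (H : Opt g ρ) :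
    Opt (sub g false) (ρ.restrict (Iio (g []))) := by
  have h0 := H.1
  rw [lintegral_payoff] at h0
  have h1 : ∫⁻ h : (Icc (0 : ℝ) 1), ENNReal.ofReal |(g [] : ℝ) - h| ∂ρ ≠ ∞ := by
    intro h; apply h0; rw [h]; simp
  have h2 : ∫⁻ h in Iio (g []), payoff (sub g false) h ∂ρ ≠ ∞ := by
    intro h; apply h0; rw [h]; simp
  have h3 : ∫⁻ h in Ioi (g []), payoff (sub g true) h ∂ρ ≠ ∞ := by
    intro h; apply h0; rw [h]; simp
  refine ⟨h2, fun g' => ?_⟩
  have h4 := H.2 (nodeS (g []) g' (sub g true))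
  rw [lintegral_payoff g, lintegral_payoff (nodeS (g []) g' (sub g true))] at h4
  simp only [nodeS_nil, sub_nodeS_false, sub_nodeS_true] at h4
  have h5 := (ENNReal.add_le_add_iff_right h3).1 h4
  exact (ENNReal.add_le_add_iff_left h1).1 h5

lemma opt_true {g : Strategy} {ρ : Measure (Icc (0 : ℝ) 1)} (H : Opt g ρ) :
    Opt (sub g true) (ρ.restrict (Ioi (g []))) := by
  have h0 := H.1
  rw [lintegral_payoff] at h0
  have h1 : ∫⁻ h : (Icc (0 : ℝ) 1), ENNReal.ofReal |(g [] : ℝ) - h| ∂ρ +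
      ∫⁻ h in Iio (g []), payoff (sub g false) h ∂ρ ≠ ∞ := by
    intro h; apply h0; rw [h]; simp
  have h3 : ∫⁻ h in Ioi (g []), payoff (sub g true) h ∂ρ ≠ ∞ := by
    intro h; apply h0; rw [h]; simp
  refine ⟨h3, fun g' => ?_⟩
  have h4 := H.2 (nodeS (g []) (sub g false) g')
  rw [lintegral_payoff g, lintegral_payoff (nodeS (g []) (sub g false) g')] at h4
  simp only [nodeS_nil, sub_nodeS_false, sub_nodeS_true] at h4
  exact (ENNReal.add_le_add_iff_left h1).1 h4

lemma dist_pos {ρ : Measure (Icc (0 : ℝ) 1)} (hna : ∀ h, ρ {h} = 0) (hρ : ρ ≠ 0) (c : (Icc (0 : ℝ) 1)) :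
    ∫⁻ h : (Icc (0 : ℝ) 1), ENNReal.ofReal |(c : ℝ) - h| ∂ρ ≠ 0 := by
  intro h0
  rw [lintegral_eq_zero_iff (measurable_dist c)] at h0
  apply hρ
  rw [← Measure.measure_univ_eq_zero]
  refine measure_mono_null ?_ (measure_union_null (hna c) (ae_iff.1 h0))
  intro h _
  by_cases hc : h = c
  · exact Or.inl hc
  · right
    simp only [mem_ofPred_eq, Pi.zero_apply, ENNReal.ofReal_eq_zero, not_le]
    rw [abs_pos, sub_ne_zero]
    exact fun e => hc (Subtype.ext e.symm)

lemma restrict_eq_self_of_null {ρ : Measure (Icc (0 : ℝ) 1)} {s : Set (Icc (0 : ℝ) 1)} (h : ρ sᶜ = 0) :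
    ρ.restrict s = ρ :=
  Measure.restrict_eq_self_of_ae_mem (by rw [ae_iff]; exact h)

lemma nowaste_left {g : Strategy} {ρ : Measure (Icc (0 : ℝ) 1)} (H : Opt g ρ) (hna : ∀ h, ρ {h} = 0)
    (hρ : ρ ≠ 0) : ρ (Iio (g [])) ≠ 0 := by
  intro h0
  have hr : ρ.restrict (Ioi (g [])) = ρ := by
    apply restrict_eq_self_of_null
    refine measure_mono_null ?_ (measure_union_null h0 (hna (g [])))
    intro h hh
    simp only [mem_compl_iff, mem_Ioi, not_lt] at hh
    rcases hh.lt_or_eq with h1 | h1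
    · exact Or.inl h1
    · exact Or.inr h1
  have h1 := H.2 (sub g true)
  have hfin := H.1
  have h2 := lintegral_payoff g ρ
  rw [hr, Measure.restrict_eq_zero.2 h0, lintegral_zero_measure, add_zero] at h2
  have h3 : ∫⁻ h, payoff (sub g true) h ∂ρ ≠ ∞ := by
    intro h; apply hfin; rw [h2, h]; simp
  rw [h2] at h1
  have h4 : ∫⁻ h : (Icc (0 : ℝ) 1), ENNReal.ofReal |(g [] : ℝ) - h| ∂ρ + ∫⁻ h, payoff (sub g true) h ∂ρ ≤
      0 + ∫⁻ h, payoff (sub g true) h ∂ρ := by rw [zero_add]; exact h1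
  have h5 := (ENNReal.add_le_add_iff_right h3).1 h4
  exact dist_pos hna hρ (g []) (le_antisymm h5 zero_le)

lemma nowaste_right {g : Strategy} {ρ : Measure (Icc (0 : ℝ) 1)} (H : Opt g ρ) (hna : ∀ h, ρ {h} = 0)
    (hρ : ρ ≠ 0) : ρ (Ioi (g [])) ≠ 0 := by
  intro h0
  have hr : ρ.restrict (Iio (g [])) = ρ := by
    apply restrict_eq_self_of_null
    refine measure_mono_null ?_ (measure_union_null h0 (hna (g [])))
    intro h hh
    simp only [mem_compl_iff, mem_Iio, not_lt] at hh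
    rcases hh.lt_or_eq with h1 | h1
    · exact Or.inl h1
    · exact Or.inr h1.symm
  have h1 := H.2 (sub g false)
  have hfin := H.1
  have h2 := lintegral_payoff g ρ
  rw [hr, Measure.restrict_eq_zero.2 h0, lintegral_zero_measure, add_zero] at h2
  have h3 : ∫⁻ h, payoff (sub g false) h ∂ρ ≠ ∞ := by
    intro h; apply hfin; rw [h2, h]; simp
  rw [h2] at h1
  have h4 : ∫⁻ h : (Icc (0 : ℝ) 1), ENNReal.ofReal |(g [] : ℝ) - h| ∂ρ + ∫⁻ h, payoff (sub g false) h ∂ρ ≤
      0 + ∫⁻ h, payoff (sub g false) h ∂ρ := by rw [zero_add]; exact h1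
  have h5 := (ENNReal.add_le_add_iff_right h3).1 h4
  exact dist_pos hna hρ (g []) (le_antisymm h5 zero_le)

lemma restrict_na {ρ : Measure (Icc (0 : ℝ) 1)} (hna : ∀ h, ρ {h} = 0) (s : Set (Icc (0 : ℝ) 1)) (h : (Icc (0 : ℝ) 1)) :
    ρ.restrict s {h} = 0 :=
  le_antisymm ((Measure.restrict_apply_le s {h}).trans (hna h).le) zero_le

lemma restrict_ne {ρ : Measure (Icc (0 : ℝ) 1)} {s : Set (Icc (0 : ℝ) 1)} (h : ρ s ≠ 0) : ρ.restrict s ≠ 0 := by
  rwa [Ne, Measure.restrict_eq_zero]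

/-- Points to the right of the support are never found. -/
lemma far_right {α h : (Icc (0 : ℝ) 1)} (hα : α < h) (n : ℕ) : ∀ (g : Strategy) (ρ : Measure (Icc (0 : ℝ) 1)), Opt g ρ →
    (∀ h, ρ {h} = 0) → ρ ≠ 0 → ρ (Ioi α) = 0 →
    (n : ℝ≥0∞) * ENNReal.ofReal ((h : ℝ) - α) ≤ payoff g h := by
  induction n with
  | zero => intro g ρ _ _ _ _; simp
  | succ n ih =>
    intro g ρ H hna hρ hz
    have hr := nowaste_right H hna hρ
    have hc : g [] < α := by
      by_contra hcon
      push Not at hcon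
      exact hr (measure_mono_null (Ioi_subset_Ioi hcon) hz)
    have h1 := ih (sub g true) (ρ.restrict (Ioi (g []))) (opt_true H) (restrict_na hna _)
      (restrict_ne hr) (le_antisymm ((Measure.restrict_apply_le _ _).trans hz.le) zero_le)
    rw [payoff_of_lt (hc.trans hα)]
    push_cast
    rw [add_mul, one_mul, add_comm]
    refine add_le_add (ENNReal.ofReal_le_ofReal ?_) h1
    have : ((g [] : (Icc (0 : ℝ) 1)) : ℝ) < α := hc
    linarith

lemma far_left {β h : (Icc (0 : ℝ) 1)} (hβ : h < β) (n : ℕ) : ∀ (g : Strategy) (ρ : Measure (Icc (0 : ℝ) 1)), Opt g ρ →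
    (∀ h, ρ {h} = 0) → ρ ≠ 0 → ρ (Iio β) = 0 →
    (n : ℝ≥0∞) * ENNReal.ofReal ((β : ℝ) - h) ≤ payoff g h := by
  induction n with
  | zero => intro g ρ _ _ _ _; simp
  | succ n ih =>
    intro g ρ H hna hρ hz
    have hr := nowaste_left H hna hρ
    have hc : β < g [] := by
      by_contra hcon
      push Not at hcon
      exact hr (measure_mono_null (Iio_subset_Iio hcon) hz)
    have h1 := ih (sub g false) (ρ.restrict (Iio (g []))) (opt_false H) (restrict_na hna _)
      (restrict_ne hr) (le_antisymm ((Measure.restrict_apply_le _ _).trans hz.le) zero_le)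
    rw [payoff_of_gt (hβ.trans hc)]
    push_cast
    rw [add_mul, one_mul, add_comm]
    refine add_le_add (ENNReal.ofReal_le_ofReal ?_) h1
    have : (β : ℝ) < ((g [] : (Icc (0 : ℝ) 1)) : ℝ) := hc
    linarith

lemma eq_top_of_nat_mul_le {A : ℝ≥0∞} {d : ℝ} (hd : 0 < d)
    (h : ∀ n : ℕ, (n : ℝ≥0∞) * ENNReal.ofReal d ≤ A) : A = ∞ := by
  by_contra hA
  have h0 : ENNReal.ofReal d ≠ 0 := by simpa using hd
  obtain ⟨n, hn⟩ := ENNReal.exists_nat_mul_gt h0 hA
  exact absurd (h n) (not_le.2 hn)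

/-- At most one point of a gap is found by a best response. -/
lemma gap_pair {α β h₁ h₂ : (Icc (0 : ℝ) 1)} (h1 : α < h₁) (h12 : h₁ < h₂) (h2 : h₂ < β) (n : ℕ) :
    ∀ (g : Strategy) (ρ : Measure (Icc (0 : ℝ) 1)), Opt g ρ → (∀ h, ρ {h} = 0) → ρ ≠ 0 →
    ρ (Ioo α β) = 0 →
    (n : ℝ≥0∞) * ENNReal.ofReal ((h₂ : ℝ) - h₁) ≤ payoff g h₁ + payoff g h₂ := by
  induction n with
  | zero => intro g ρ _ _ _ _; simp
  | succ n ih =>
    intro g ρ H hna hρ hz
    have hr := nowaste_right H hna hρ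
    have hl := nowaste_left H hna hρ
    rcases lt_trichotomy (g []) h₁ with hc | hc | hc
    · -- guess to the left of both
      have h3 := ih (sub g true) (ρ.restrict (Ioi (g []))) (opt_true H) (restrict_na hna _)
        (restrict_ne hr) (le_antisymm ((Measure.restrict_apply_le _ _).trans hz.le) zero_le)
      rw [payoff_of_lt hc, payoff_of_lt (hc.trans h12)]
      push_cast
      rw [add_mul, one_mul]
      have hcr : ((g [] : (Icc (0 : ℝ) 1)) : ℝ) < h₁ := hc
      calc (n : ℝ≥0∞) * ENNReal.ofReal ((h₂ : ℝ) - h₁) + ENNReal.ofReal ((h₂ : ℝ) - h₁)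
          ≤ (payoff (sub g true) h₁ + payoff (sub g true) h₂) +
            ENNReal.ofReal ((h₂ : ℝ) - (g [] : (Icc (0 : ℝ) 1))) :=
            add_le_add h3 (ENNReal.ofReal_le_ofReal (by linarith))
        _ ≤ (payoff (sub g true) h₁ + payoff (sub g true) h₂) +
            ENNReal.ofReal ((h₂ : ℝ) - (g [] : (Icc (0 : ℝ) 1))) + ENNReal.ofReal ((h₁ : ℝ) - (g [] : (Icc (0 : ℝ) 1))) :=
            le_self_add
        _ = _ := by ring
    · -- guess equal to `h₁`
      have h3 : payoff g h₂ = ∞ := by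
        rw [payoff_of_lt (hc.trans_lt h12)]
        have h4 : payoff (sub g true) h₂ = ∞ := by
          refine eq_top_of_nat_mul_le (d := (β : ℝ) - h₂) (sub_pos.2 h2) fun m => ?_
          refine far_left h2 m _ (ρ.restrict (Ioi (g []))) (opt_true H) (restrict_na hna _)
            (restrict_ne hr) ?_
          rw [Measure.restrict_apply measurableSet_Iio]
          refine measure_mono_null ?_ hz
          rintro y ⟨hy1, hy2⟩
          exact ⟨(hc ▸ h1).trans hy2, hy1⟩
        rw [h4]; simp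
      rw [h3]; simp
    · rcases lt_or_ge h₂ (g []) with hd | hd
      · -- guess to the right of both
        have h3 := ih (sub g false) (ρ.restrict (Iio (g []))) (opt_false H) (restrict_na hna _)
          (restrict_ne hl) (le_antisymm ((Measure.restrict_apply_le _ _).trans hz.le) zero_le)
        rw [payoff_of_gt hc, payoff_of_gt hd]
        push_cast
        rw [add_mul, one_mul]
        have hcr : (h₂ : ℝ) < ((g [] : (Icc (0 : ℝ) 1)) : ℝ) := hd
        calc (n : ℝ≥0∞) * ENNReal.ofReal ((h₂ : ℝ) - h₁) + ENNReal.ofReal ((h₂ : ℝ) - h₁)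
            ≤ (payoff (sub g false) h₁ + payoff (sub g false) h₂) +
              ENNReal.ofReal (((g [] : (Icc (0 : ℝ) 1)) : ℝ) - h₁) :=
              add_le_add h3 (ENNReal.ofReal_le_ofReal (by linarith))
          _ ≤ (payoff (sub g false) h₁ + payoff (sub g false) h₂) +
              ENNReal.ofReal (((g [] : (Icc (0 : ℝ) 1)) : ℝ) - h₁) + ENNReal.ofReal (((g [] : (Icc (0 : ℝ) 1)) : ℝ) - h₂) :=
              le_self_add
          _ = _ := by ring
      · -- guess in between
        have h3 : payoff g h₁ = ∞ := by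
          rw [payoff_of_gt hc]
          have h4 : payoff (sub g false) h₁ = ∞ := by
            refine eq_top_of_nat_mul_le (d := (h₁ : ℝ) - α) (sub_pos.2 h1) fun m => ?_
            refine far_right h1 m _ (ρ.restrict (Iio (g []))) (opt_false H) (restrict_na hna _)
              (restrict_ne hl) ?_
            rw [Measure.restrict_apply measurableSet_Ioi]
            refine measure_mono_null ?_ hz
            rintro y ⟨hy1, hy2⟩
            exact ⟨hy1, (lt_of_lt_of_le hy2 hd).trans h2⟩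
          rw [h4]; simp
        rw [h3]; simp

/-- A best response has infinite expected payoff on a gap of the support. -/
lemma gap_integral {α β : (Icc (0 : ℝ) 1)} {g : Strategy} {ρ : Measure (Icc (0 : ℝ) 1)} (H : Opt g ρ)
    (hna : ∀ h, ρ {h} = 0) (hρ : ρ ≠ 0) (hz : ρ (Ioo α β) = 0) {lam : Measure (Icc (0 : ℝ) 1)}
    [IsProbabilityMeasure lam] (hlna : ∀ h, lam {h} = 0) (hlam : lam (Ioo α β)ᶜ = 0) :
    ∫⁻ h, payoff g h ∂lam = ∞ := by
  have hss : {h | h ∈ Ioo α β ∧ payoff g h ≠ ∞}.Subsingleton := by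
    rintro x ⟨hx, hx'⟩ y ⟨hy, hy'⟩
    have key : ∀ {x y : (Icc (0 : ℝ) 1)}, x ∈ Ioo α β → y ∈ Ioo α β → x < y → payoff g x ≠ ∞ →
        payoff g y ≠ ∞ → False := by
      intro x y hx hy hxy hx' hy'
      have h1 := eq_top_of_nat_mul_le (d := (y : ℝ) - x) (sub_pos.2 hxy)
        (fun n => gap_pair hx.1 hxy hy.2 n g ρ H hna hρ hz)
      exact (ENNReal.add_ne_top.2 ⟨hx', hy'⟩) h1
    rcases lt_trichotomy x y with h | h | h
    · exact (key hx hy h hx' hy').elim
    · exact h
    · exact (key hy hx h hy' hx').elim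
  have h0 : lam {h | h ∈ Ioo α β ∧ payoff g h ≠ ∞} = 0 := by
    rcases hss.eq_empty_or_singleton with h | ⟨x, h⟩
    · rw [h, measure_empty]
    · rw [h, hlna]
  have h1 : ∀ᵐ h ∂lam, payoff g h = ∞ := by
    rw [ae_iff]
    refine measure_mono_null ?_ (measure_union_null h0 hlam)
    intro h hh
    by_cases hm : h ∈ Ioo α β
    · exact Or.inl ⟨hm, hh⟩
    · exact Or.inr hm
  rw [lintegral_congr_ae h1, lintegral_const, measure_univ, mul_one]

/-! ### Compactness -/

lemma tendsto_pay (N : ℕ) : ∀ (G : ℕ → Strategy) (g : Strategy) (h : (Icc (0 : ℝ) 1)),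
    Tendsto G atTop (𝓝 g) → h ∉ range g →
    Tendsto (fun n => pay N (G n) h) atTop (𝓝 (pay N g h)) := by
  induction N with
  | zero => intro G g h _ _; simp only [pay]; exact tendsto_const_nhds
  | succ N ih =>
    intro G g h hG hh
    have hG' : ∀ L, Tendsto (fun n => G n L) atTop (𝓝 (g L)) := fun L =>
      (tendsto_pi_nhds.1 hG) L
    have hs : ∀ b, Tendsto (fun n => sub (G n) b) atTop (𝓝 (sub g b)) := fun b =>
      tendsto_pi_nhds.2 fun L => hG' (b :: L)
    have hsr : ∀ b, h ∉ range (sub g b) := fun b ⟨L, hL⟩ => hh ⟨b :: L, hL⟩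
    have h1 : Tendsto (fun n => ENNReal.ofReal |((G n [] : (Icc (0 : ℝ) 1)) : ℝ) - h|) atTop
        (𝓝 (ENNReal.ofReal |((g [] : (Icc (0 : ℝ) 1)) : ℝ) - h|)) := by
      refine (ENNReal.continuous_ofReal.tendsto _).comp ?_
      exact (((continuous_subtype_val.tendsto _).comp (hG' [])).sub tendsto_const_nhds).abs
    rcases lt_trichotomy (g []) h with hc | hc | hc
    · have h2 : (fun n => ENNReal.ofReal |((G n [] : (Icc (0 : ℝ) 1)) : ℝ) - h| + pay N (sub (G n) true) h)
          =ᶠ[atTop] fun n => pay (N + 1) (G n) h := by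
        filter_upwards [(hG' []).eventually (gt_mem_nhds hc)] with n hn
        rw [pay, if_neg hn.ne, if_pos hn]
      refine Tendsto.congr' h2 ?_
      rw [pay, if_neg hc.ne, if_pos hc]
      exact h1.add (ih _ _ _ (hs true) (hsr true))
    · exact absurd ⟨[], hc⟩ hh
    · have h2 : (fun n => ENNReal.ofReal |((G n [] : (Icc (0 : ℝ) 1)) : ℝ) - h| + pay N (sub (G n) false) h)
          =ᶠ[atTop] fun n => pay (N + 1) (G n) h := by
        filter_upwards [(hG' []).eventually (lt_mem_nhds hc)] with n hn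
        rw [pay, if_neg hn.ne', if_neg (not_lt.2 hn.le)]
      refine Tendsto.congr' h2 ?_
      rw [pay, if_neg hc.ne', if_neg (not_lt.2 hc.le)]
      exact h1.add (ih _ _ _ (hs false) (hsr false))

/-- Fatou's lemma for strategies. -/
lemma payoff_liminf {G : ℕ → Strategy} {g : Strategy} (hG : Tendsto G atTop (𝓝 g))
    {ρ : Measure (Icc (0 : ℝ) 1)} (hna : ∀ h, ρ {h} = 0) :
    ∫⁻ h, payoff g h ∂ρ ≤ liminf (fun n => ∫⁻ h, payoff (G n) h ∂ρ) atTop := by
  have hrange : ρ (range g) = 0 := by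
    rw [← biUnion_of_singleton (range g)]
    rw [measure_biUnion_null_iff (countable_range g)]
    exact fun h _ => hna h
  have h1 : ∀ N, ∫⁻ h, pay N g h ∂ρ ≤ liminf (fun n => ∫⁻ h, payoff (G n) h ∂ρ) atTop := by
    intro N
    calc ∫⁻ h, pay N g h ∂ρ = ∫⁻ h, liminf (fun n => pay N (G n) h) atTop ∂ρ := by
          refine lintegral_congr_ae ?_
          filter_upwards [measure_eq_zero_iff_ae_notMem.1 hrange] with h hh
          exact (tendsto_pay N G g h hG hh).liminf_eq.symm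
      _ ≤ liminf (fun n => ∫⁻ h, pay N (G n) h ∂ρ) atTop :=
          lintegral_liminf_le fun n => measurable_pay_right N (G n)
      _ ≤ liminf (fun n => ∫⁻ h, payoff (G n) h ∂ρ) atTop := by
          refine liminf_le_liminf (Filter.Eventually.of_forall fun n => ?_)
          exact lintegral_mono fun h => pay_le_payoff N (G n) h
  have h2 : ∫⁻ h, payoff g h ∂ρ = ⨆ N, ∫⁻ h, pay N g h ∂ρ := by
    simp only [payoff_eq_iSup]
    exact lintegral_iSup (fun N => measurable_pay_right N g)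
      (fun a b hab h => pay_mono g h hab)
  rw [h2]
  exact iSup_le h1

/-- The uniform distribution on an interval. -/
lemma exists_uniform {α β : (Icc (0 : ℝ) 1)} (h : α < β) : ∃ lam : ProbabilityMeasure (Icc (0 : ℝ) 1),
    (∀ x, (lam : Measure (Icc (0 : ℝ) 1)) {x} = 0) ∧ (lam : Measure (Icc (0 : ℝ) 1)) (Ioo α β)ᶜ = 0 := by
  have hvol : (volume : Measure (Icc (0 : ℝ) 1)) (Ioo α β) ≠ 0 := by
    have h1 : (volume : Measure (Icc (0 : ℝ) 1)) (Ioo α β) = volume (Ioo (α : ℝ) β) := by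
      rw [Measure.Subtype.volume_def, comap_subtype_coe_apply measurableSet_Icc]
      congr 1
      ext y
      constructor
      · rintro ⟨x, hx, rfl⟩
        exact hx
      · intro hy
        exact ⟨⟨y, α.2.1.trans hy.1.le, hy.2.le.trans β.2.2⟩, hy, rfl⟩
    rw [h1, Real.volume_Ioo]
    simpa using h
  have hsing : ∀ x : (Icc (0 : ℝ) 1), (volume : Measure (Icc (0 : ℝ) 1)) {x} = 0 := by
    intro x
    rw [Measure.Subtype.volume_def, comap_subtype_coe_apply measurableSet_Icc]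
    simp
  have hp : IsProbabilityMeasure (ProbabilityTheory.cond (volume : Measure (Icc (0 : ℝ) 1)) (Ioo α β)) :=
    ProbabilityTheory.cond_isProbabilityMeasure hvol
  refine ⟨⟨_, hp⟩, fun x => ?_, ?_⟩
  · show ProbabilityTheory.cond (volume : Measure (Icc (0 : ℝ) 1)) (Ioo α β) {x} = 0
    rw [ProbabilityTheory.cond_apply measurableSet_Ioo,
      measure_mono_null inter_subset_right (hsing x), mul_zero]
  · show ProbabilityTheory.cond (volume : Measure (Icc (0 : ℝ) 1)) (Ioo α β) (Ioo α β)ᶜ = 0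
    rw [ProbabilityTheory.cond_apply measurableSet_Ioo, inter_compl_self, measure_empty,
      mul_zero]

/-- Mixtures of hider strategies. -/
lemma exists_mix (μ lam : ProbabilityMeasure (Icc (0 : ℝ) 1)) {t : ℝ} (h0 : 0 ≤ t) (h1 : t ≤ 1) :
    ∃ ρ : ProbabilityMeasure (Icc (0 : ℝ) 1), ∀ f : (Icc (0 : ℝ) 1) → ℝ≥0∞,
      ∫⁻ h, f h ∂(ρ : Measure (Icc (0 : ℝ) 1)) = ENNReal.ofReal (1 - t) * ∫⁻ h, f h ∂(μ : Measure (Icc (0 : ℝ) 1)) +
        ENNReal.ofReal t * ∫⁻ h, f h ∂(lam : Measure (Icc (0 : ℝ) 1)) := by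
  have hp : IsProbabilityMeasure (ENNReal.ofReal (1 - t) • (μ : Measure (Icc (0 : ℝ) 1)) +
      ENNReal.ofReal t • (lam : Measure (Icc (0 : ℝ) 1))) := by
    constructor
    rw [Measure.add_apply, Measure.smul_apply, Measure.smul_apply, measure_univ, measure_univ,
      smul_eq_mul, smul_eq_mul, mul_one, mul_one, ← ENNReal.ofReal_add (by linarith) h0]
    simp
  refine ⟨⟨_, hp⟩, fun f => ?_⟩
  show ∫⁻ h, f h ∂(ENNReal.ofReal (1 - t) • (μ : Measure (Icc (0 : ℝ) 1)) +
      ENNReal.ofReal t • (lam : Measure (Icc (0 : ℝ) 1))) = _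
  rw [lintegral_add_measure, lintegral_smul_measure, lintegral_smul_measure, smul_eq_mul,
    smul_eq_mul]

/-- An optimal strategy gives positive mass to every interval. -/
lemma optimal_interval {ν : ProbabilityMeasure (Icc (0 : ℝ) 1)} (hν : guaranteed ν = maximin) {α β : (Icc (0 : ℝ) 1)}
    (hαβ : α < β) : (ν : Measure (Icc (0 : ℝ) 1)) (Ioo α β) ≠ 0 := by
  intro hz
  have hna := optimal_nonatomic hν
  obtain ⟨lam, hlna, hlam⟩ := exists_uniform hαβ
  set t : ℕ → ℝ := fun n => 1 / ((n : ℝ) + 2) with ht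
  have ht0 : ∀ n, 0 < t n := fun n => by positivity
  have ht1 : ∀ n, t n ≤ 1 / 2 := fun n => by
    simp only [ht]
    apply one_div_le_one_div_of_le (by norm_num)
    have : (0 : ℝ) ≤ n := Nat.cast_nonneg n
    linarith
  set v := vR with hv
  have hv0 : 0 ≤ v := vR_nonneg
  have hv1 : v ≤ 1 := vR_le_one
  have hex : ∀ n, ∃ g : Strategy,
      ∫⁻ h, payoff g h ∂(ν : Measure (Icc (0 : ℝ) 1)) ≤ ENNReal.ofReal (v + 3 * t n) ∧
      ∫⁻ h, payoff g h ∂(lam : Measure (Icc (0 : ℝ) 1)) ≤ 2 := by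
    intro n
    obtain ⟨ρ, hρ⟩ := exists_mix ν lam (ht0 n).le ((ht1 n).trans (by norm_num))
    have h1 : guaranteed ρ < ENNReal.ofReal (v + t n ^ 2) := by
      refine lt_of_le_of_lt (le_iSup guaranteed ρ) ?_
      show maximin < _
      rw [← ofReal_vR]
      have : 0 < t n ^ 2 := pow_pos (ht0 n) 2
      exact (ENNReal.ofReal_lt_ofReal_iff (by linarith)).2 (by linarith)
    obtain ⟨g, hg⟩ := exists_near_guaranteed ρ h1
    rw [hρ] at hg
    have hA : ENNReal.ofReal v ≤ ∫⁻ h, payoff g h ∂(ν : Measure (Icc (0 : ℝ) 1)) := by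
      rw [hv, ofReal_vR, ← hν]; exact guaranteed_le ν g
    have e1 : ENNReal.ofReal (1 - t n) ≠ 0 := by
      have := ht1 n
      simp only [ne_eq, ENNReal.ofReal_eq_zero, not_le]; linarith
    have e2 : ENNReal.ofReal (t n) ≠ 0 := by
      simp only [ne_eq, ENNReal.ofReal_eq_zero, not_le]; exact ht0 n
    have hAfin : ∫⁻ h, payoff g h ∂(ν : Measure (Icc (0 : ℝ) 1)) ≠ ∞ := by
      intro h; rw [h, ENNReal.mul_top e1] at hg; simp at hg
    have hBfin : ∫⁻ h, payoff g h ∂(lam : Measure (Icc (0 : ℝ) 1)) ≠ ∞ := by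
      intro h; rw [h, ENNReal.mul_top e2] at hg; simp at hg
    refine ⟨g, ?_⟩
    set A := (∫⁻ h, payoff g h ∂(ν : Measure (Icc (0 : ℝ) 1))).toReal with hAd
    set B := (∫⁻ h, payoff g h ∂(lam : Measure (Icc (0 : ℝ) 1))).toReal with hBd
    have hA0 : 0 ≤ A := ENNReal.toReal_nonneg
    have hB0 : 0 ≤ B := ENNReal.toReal_nonneg
    have hAe : ∫⁻ h, payoff g h ∂(ν : Measure (Icc (0 : ℝ) 1)) = ENNReal.ofReal A :=
      (ENNReal.ofReal_toReal hAfin).symm
    have hBe : ∫⁻ h, payoff g h ∂(lam : Measure (Icc (0 : ℝ) 1)) = ENNReal.ofReal B :=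
      (ENNReal.ofReal_toReal hBfin).symm
    rw [hAe, hBe] at hg ⊢
    rw [hAe] at hA
    have hA' : v ≤ A := (ENNReal.ofReal_le_ofReal_iff hA0).1 hA
    have ht1' := ht1 n
    have ht0' := ht0 n
    rw [← ENNReal.ofReal_mul (by linarith), ← ENNReal.ofReal_mul ht0'.le,
      ← ENNReal.ofReal_add (mul_nonneg (by linarith) hA0) (mul_nonneg ht0'.le hB0)] at hg
    have hg' := (ENNReal.ofReal_lt_ofReal_iff (by positivity)).1 hg
    constructor
    · apply ENNReal.ofReal_le_ofReal
      nlinarith [mul_nonneg ht0'.le hB0, mul_pos ht0' ht0']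
    · have : B ≤ 2 := by
        have h3 : t n * B < t n * (v + t n) := by nlinarith
        have h4 := lt_of_mul_lt_mul_left h3 ht0'.le
        linarith
      calc ENNReal.ofReal B ≤ ENNReal.ofReal 2 := ENNReal.ofReal_le_ofReal this
        _ = 2 := by simp
  choose G hG1 hG2 using hex
  obtain ⟨g, φ, hφ, hgl⟩ := CompactSpace.tendsto_subseq G
  have h1 : ∫⁻ h, payoff g h ∂(ν : Measure (Icc (0 : ℝ) 1)) ≤ ENNReal.ofReal v := by
    refine (payoff_liminf hgl hna).trans ?_
    have h2 : Tendsto (fun n => ENNReal.ofReal (v + 3 * t (φ n))) atTop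
        (𝓝 (ENNReal.ofReal v)) := by
      refine (ENNReal.continuous_ofReal.tendsto _).comp ?_
      have h3 : Tendsto t atTop (𝓝 0) := by
        simp only [ht]
        refine Tendsto.div_atTop tendsto_const_nhds ?_
        exact tendsto_atTop_add_const_right _ _ tendsto_natCast_atTop_atTop
      have h4 := (h3.comp hφ.tendsto_atTop).const_mul 3
      have h5 := h4.const_add v
      simpa using h5
    rw [← h2.liminf_eq]
    exact liminf_le_liminf (Filter.Eventually.of_forall fun n => hG1 (φ n))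
  have h2 : ∫⁻ h, payoff g h ∂(lam : Measure (Icc (0 : ℝ) 1)) ≤ 2 := by
    refine (payoff_liminf hgl hlna).trans ?_
    calc liminf (fun n => ∫⁻ h, payoff ((G ∘ φ) n) h ∂(lam : Measure (Icc (0 : ℝ) 1))) atTop
        ≤ liminf (fun _ : ℕ => (2 : ℝ≥0∞)) atTop :=
          liminf_le_liminf (Filter.Eventually.of_forall fun n => hG2 (φ n))
      _ = 2 := by simp
  have hopt : Opt g (ν : Measure (Icc (0 : ℝ) 1)) := by
    refine ⟨ne_top_of_le_ne_top ENNReal.ofReal_ne_top h1, fun g' => h1.trans ?_⟩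
    rw [hv, ofReal_vR, ← hν]
    exact guaranteed_le ν g'
  have h3 := gap_integral hopt hna (IsProbabilityMeasure.ne_zero _) hz hlna hlam
  rw [h3] at h2
  simp at h2

/-- **Optimal hider strategies have full support.** -/
theorem optimal_pos {ν : ProbabilityMeasure (Icc (0 : ℝ) 1)} (hν : guaranteed ν = maximin) {U : Set (Icc (0 : ℝ) 1)}
    (hU : IsOpen U) (hne : U.Nonempty) : 0 < (ν : Measure (Icc (0 : ℝ) 1)) U := by
  obtain ⟨x, hx⟩ := hne
  obtain ⟨ε, hε, hball⟩ := Metric.isOpen_iff.1 hU x hx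
  have hx0 := x.2.1
  have hx1 := x.2.2
  set α : (Icc (0 : ℝ) 1) := ⟨max 0 ((x : ℝ) - ε), le_max_left _ _, max_le zero_le_one (by linarith)⟩ with hα
  set β : (Icc (0 : ℝ) 1) := ⟨min 1 ((x : ℝ) + ε), le_min zero_le_one (by linarith), min_le_left _ _⟩ with hβ
  have hαβ : α < β := by
    show max 0 ((x : ℝ) - ε) < min 1 ((x : ℝ) + ε)
    refine max_lt (lt_min zero_lt_one (by linarith)) (lt_min (by linarith) (by linarith))
  refine lt_of_lt_of_le (pos_iff_ne_zero.2 (optimal_interval hν hαβ)) (measure_mono ?_)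
  rintro y ⟨hy1, hy2⟩
  apply hball
  rw [Metric.mem_ball, Subtype.dist_eq, Real.dist_eq, abs_lt]
  have h1 : max 0 ((x : ℝ) - ε) < y := hy1
  have h2 : (y : ℝ) < min 1 ((x : ℝ) + ε) := hy2
  have h3 := lt_of_le_of_lt (le_max_right 0 ((x : ℝ) - ε)) h1
  have h4 := lt_of_lt_of_le h2 (min_le_right 1 ((x : ℝ) + ε))
  constructor <;> linarith

end Pool.Agent.HighLow
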