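import Pool.Agent.HighLow_e5c6.SlowVar

/-!
# The continuous high-low game: slow variation at the endpoints

The distribution function of an optimal hider strategy is slowly varying at the endpoints; it is
larger than every power, and there is no density in `L^p` near an endpoint, `p > 1`.
-/

set_option autoImplicit false

namespace Pool.Agent.HighLow

open MeasureTheory Set Filter Topology
open scoped ENNReal

/-- The mass of `[0, y]`. -/
noncomputable def massL (ν : ProbabilityMeasure (Icc (0 : ℝ) 1)) (y : ℝ) : ℝ :=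
  (ν : Measure (Icc (0 : ℝ) 1)).real {h | (h : ℝ) ≤ y}

/-- The mass of `[1 - y, 1]`. -/
noncomputable def massR (ν : ProbabilityMeasure (Icc (0 : ℝ) 1)) (y : ℝ) : ℝ :=
  (ν : Measure (Icc (0 : ℝ) 1)).real {h | 1 - y ≤ (h : ℝ)}

lemma massL_eq {ν : ProbabilityMeasure (Icc (0 : ℝ) 1)} (hν : guaranteed ν = maximin) (y : ℝ) :
    massL ν y = (ν : Measure (Icc (0 : ℝ) 1)).real (lowSet y) := by
  unfold massL Measure.real
  congr 1
  refine le_antisymm ?_ (measure_mono fun h hh => le_of_lt (show (h : ℝ) < y from hh))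
  have h1 : {h : Icc (0 : ℝ) 1 | (h : ℝ) ≤ y} ⊆ lowSet y ∪ {h | (h : ℝ) = y} := by
    intro h hh
    rcases (show (h : ℝ) ≤ y from hh).lt_or_eq with h2 | h2
    · left; exact h2
    · right; exact h2
  have h2 : (ν : Measure (Icc (0 : ℝ) 1)) {h | (h : ℝ) = y} = 0 := by
    by_cases hy : y ∈ Icc (0 : ℝ) 1
    · refine measure_mono_null ?_ (optimal_nonatomic hν ⟨y, hy⟩)
      intro h hh
      exact Subtype.ext hh
    · have : {h : Icc (0 : ℝ) 1 | (h : ℝ) = y} = ∅ := by
        ext h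
        simp only [Set.mem_ofPred_eq, mem_empty_iff_false, iff_false]
        rintro rfl
        exact hy h.2
      rw [this, measure_empty]
  calc (ν : Measure (Icc (0 : ℝ) 1)) {h | (h : ℝ) ≤ y}
      ≤ (ν : Measure (Icc (0 : ℝ) 1)) (lowSet y) +
        (ν : Measure (Icc (0 : ℝ) 1)) {h | (h : ℝ) = y} :=
        (measure_mono h1).trans (measure_union_le _ _)
    _ = _ := by rw [h2, add_zero]

lemma massL_pos {ν : ProbabilityMeasure (Icc (0 : ℝ) 1)} (hν : guaranteed ν = maximin) {y : ℝ}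
    (hy : 0 < y) : 0 < massL ν y := by
  rw [massL_eq hν]
  exact ENNReal.toReal_pos (lowSet_pos hν hy).ne' (measure_ne_top _ _)

lemma massL_mono (ν : ProbabilityMeasure (Icc (0 : ℝ) 1)) {y z : ℝ} (h : y ≤ z) :
    massL ν y ≤ massL ν z :=
  measureReal_mono (fun _ hx => le_trans hx h)

/-- The relative mass of `[t y, y)` is small. -/
lemma diff_le {ν : ProbabilityMeasure (Icc (0 : ℝ) 1)} (hν : guaranteed ν = maximin) {t : ℝ}
    (ht0 : 0 < t) (ht1 : t ≤ 1) {m : ℕ} (hm : 0 < m) :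
    ∃ y₀ : ℝ, 0 < y₀ ∧ y₀ ≤ 1 ∧ ∀ y, 0 < y → y ≤ y₀ →
      massL ν y - massL ν (t * y) ≤ 4 / (t * m) * massL ν y := by
  obtain ⟨y₀, h0, h1, h2⟩ := moment_small hν m
  refine ⟨y₀, h0, h1, fun y hy0 hy => ?_⟩
  have h3 := h2 y hy0 hy
  set μ : Measure (Icc (0 : ℝ) 1) := (ν : Measure (Icc (0 : ℝ) 1)) with hμ
  have hsub : lowSet (t * y) ⊆ lowSet y := by
    intro h hh
    have h4 : (h : ℝ) < t * y := hh
    show (h : ℝ) < y
    nlinarith
  have hD : μ.real (lowSet y \ lowSet (t * y)) = massL ν y - massL ν (t * y) := by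
    rw [massL_eq hν, massL_eq hν, measureReal_sdiff hsub (measurableSet_lowSet _)]
  have h4 : ENNReal.ofReal (t * y) * μ (lowSet y \ lowSet (t * y)) ≤
      ∫⁻ h in lowSet y, ENNReal.ofReal (h : Icc (0 : ℝ) 1) ∂μ := by
    have hm1 : MeasurableSet (lowSet y \ lowSet (t * y)) :=
      (measurableSet_lowSet _).diff (measurableSet_lowSet _)
    calc ENNReal.ofReal (t * y) * μ (lowSet y \ lowSet (t * y))
        = ∫⁻ h in lowSet y \ lowSet (t * y), ENNReal.ofReal (t * y) ∂μ := by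
          rw [setLIntegral_const]
      _ ≤ ∫⁻ h in lowSet y \ lowSet (t * y), ENNReal.ofReal (h : Icc (0 : ℝ) 1) ∂μ :=
          setLIntegral_mono' hm1 fun h hh => ENNReal.ofReal_le_ofReal (not_lt.1 hh.2)
      _ ≤ _ := lintegral_mono_set sdiff_subset
  have h5 : (m : ℝ≥0∞) * (ENNReal.ofReal (t * y) * μ (lowSet y \ lowSet (t * y))) ≤
      ENNReal.ofReal (4 * y) * μ (lowSet y) := (mul_le_mul_right h4 _).trans h3
  have h6 := ENNReal.toReal_mono (ENNReal.mul_ne_top ENNReal.ofReal_ne_top (measure_ne_top _ _)) h5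
  rw [ENNReal.toReal_mul, ENNReal.toReal_mul, ENNReal.toReal_mul, ENNReal.toReal_natCast,
    ENNReal.toReal_ofReal (by positivity), ENNReal.toReal_ofReal (by positivity)] at h6
  have e1 : (μ (lowSet y \ lowSet (t * y))).toReal = massL ν y - massL ν (t * y) := hD
  have e2 : (μ (lowSet y)).toReal = massL ν y := (massL_eq hν y).symm
  rw [e1, e2] at h6
  have hm' : (0 : ℝ) < m := by exact_mod_cast hm
  rw [div_mul_eq_mul_div, le_div_iff₀ (by positivity)]
  have h7 : y * ((massL ν y - massL ν (t * y)) * (t * m)) ≤ y * (4 * massL ν y) := by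
    calc y * ((massL ν y - massL ν (t * y)) * (t * m))
        = m * (t * y * (massL ν y - massL ν (t * y))) := by ring
      _ ≤ 4 * y * massL ν y := h6
      _ = y * (4 * massL ν y) := by ring
  exact le_of_mul_le_mul_left h7 hy0

/-- Slow variation at `0`, for factors below one. -/
lemma slow_lt_one {ν : ProbabilityMeasure (Icc (0 : ℝ) 1)} (hν : guaranteed ν = maximin) {t : ℝ}
    (ht0 : 0 < t) (ht1 : t ≤ 1) :
    Tendsto (fun y => massL ν (t * y) / massL ν y) (𝓝[>] 0) (𝓝 1) := by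
  rw [Metric.tendsto_nhdsWithin_nhds]
  intro ε hε
  obtain ⟨m, hm⟩ := exists_nat_gt (8 / (t * ε))
  have hm0 : 0 < m := by
    have h1 : (0 : ℝ) < 8 / (t * ε) := by positivity
    have : (0 : ℝ) < m := h1.trans hm
    exact_mod_cast this
  obtain ⟨y₀, h0, h1, h2⟩ := diff_le hν ht0 ht1 hm0
  refine ⟨y₀, h0, fun y hy hdist => ?_⟩
  have hy0 : 0 < y := hy
  rw [Real.dist_eq, sub_zero, abs_of_pos hy0] at hdist
  have h3 := h2 y hy0 hdist.le
  have hF := massL_pos hν hy0
  have hle : massL ν (t * y) ≤ massL ν y := massL_mono ν (by nlinarith)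
  rw [Real.dist_eq, abs_sub_comm, abs_of_nonneg (by
    rw [sub_nonneg, div_le_one hF]; exact hle)]
  have hm' : (0 : ℝ) < m := by exact_mod_cast hm0
  have h4 : 4 / (t * m) < ε := by
    rw [div_lt_iff₀ (by positivity)] at hm ⊢
    nlinarith
  have h5 : 1 - massL ν (t * y) / massL ν y = (massL ν y - massL ν (t * y)) / massL ν y := by
    field_simp
  rw [h5, div_lt_iff₀ hF]
  refine lt_of_le_of_lt h3 ?_
  exact mul_lt_mul_of_pos_right h4 hF

/-- **Slow variation at `0`.** -/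
theorem slow_variation {ν : ProbabilityMeasure (Icc (0 : ℝ) 1)} (hν : guaranteed ν = maximin)
    {t : ℝ} (ht0 : 0 < t) :
    Tendsto (fun y => massL ν (t * y) / massL ν y) (𝓝[>] 0) (𝓝 1) := by
  rcases le_or_gt t 1 with ht1 | ht1
  · exact slow_lt_one hν ht0 ht1
  · have h1 := slow_lt_one hν (t := t⁻¹) (inv_pos.2 ht0) (inv_le_one_of_one_le₀ ht1.le)
    have h2 : Tendsto (fun y : ℝ => t * y) (𝓝[>] 0) (𝓝[>] 0) := by
      refine tendsto_nhdsWithin_iff.2 ⟨?_, ?_⟩
      · have h3 : Tendsto (fun y : ℝ => t * y) (𝓝 0) (𝓝 (t * 0)) :=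
          (continuous_const.mul continuous_id).tendsto 0
        rw [mul_zero] at h3
        exact h3.mono_left nhdsWithin_le_nhds
      · filter_upwards [self_mem_nhdsWithin] with y hy
        exact mul_pos ht0 hy
    have h3 := (h1.comp h2).inv₀ one_ne_zero
    rw [inv_one] at h3
    refine h3.congr fun y => ?_
    simp only [Function.comp]
    rw [inv_div, ← mul_assoc, inv_mul_cancel₀ ht0.ne', one_mul]

/-- **The distribution function is larger than every power.** -/
theorem mass_ge_power {ν : ProbabilityMeasure (Icc (0 : ℝ) 1)} (hν : guaranteed ν = maximin)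
    {a : ℝ} (ha : 0 < a) : ∃ c : ℝ, 0 < c ∧ ∀ y, 0 < y → y ≤ 1 → c * y ^ a ≤ massL ν y := by
  -- the ratio for `t = 1/2`
  have hθ : (1 / 2 : ℝ) ^ a < 1 := Real.rpow_lt_one (by norm_num) (by norm_num) ha
  have h1 : ∀ᶠ y in 𝓝[>] (0 : ℝ), (1 / 2 : ℝ) ^ a < massL ν (1 / 2 * y) / massL ν y :=
    (slow_variation hν (t := 1 / 2) (by norm_num)).eventually (lt_mem_nhds hθ)
  rw [eventually_nhdsWithin_iff, Metric.eventually_nhds_iff] at h1
  obtain ⟨δ, hδ0, hδ⟩ := h1
  set y₀ := min (δ / 2) 1 with hy₀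
  have hy0 : 0 < y₀ := lt_min (by linarith) one_pos
  have hy01 : y₀ ≤ 1 := min_le_right _ _
  have hstep : ∀ y, 0 < y → y ≤ y₀ → (1 / 2 : ℝ) ^ a * massL ν y ≤ massL ν (1 / 2 * y) := by
    intro y hy hyy
    have h2 : dist y 0 < δ := by
      rw [Real.dist_eq, sub_zero, abs_of_pos hy]
      have : y₀ ≤ δ / 2 := min_le_left _ _
      linarith
    have h3 := hδ h2 hy
    rw [lt_div_iff₀ (massL_pos hν hy)] at h3
    exact h3.le
  have hpow : ∀ j : ℕ, ((1 / 2 : ℝ) ^ a) ^ j * massL ν y₀ ≤ massL ν ((1 / 2) ^ j * y₀) := by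
    intro j
    induction j with
    | zero => simp
    | succ j ih =>
      have h2 : (1 / 2 : ℝ) ^ j * y₀ ≤ y₀ := by
        have : (1 / 2 : ℝ) ^ j ≤ 1 := pow_le_one₀ (by norm_num) (by norm_num)
        nlinarith
      have h3 := hstep ((1 / 2) ^ j * y₀) (by positivity) h2
      calc ((1 / 2 : ℝ) ^ a) ^ (j + 1) * massL ν y₀
          = (1 / 2 : ℝ) ^ a * (((1 / 2 : ℝ) ^ a) ^ j * massL ν y₀) := by ring
        _ ≤ (1 / 2 : ℝ) ^ a * massL ν ((1 / 2) ^ j * y₀) :=
            mul_le_mul_of_nonneg_left ih (by positivity)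
        _ ≤ massL ν (1 / 2 * ((1 / 2) ^ j * y₀)) := h3
        _ = _ := by congr 1; ring
  refine ⟨(1 / 2 : ℝ) ^ a * massL ν y₀, by have := massL_pos hν hy0; positivity, ?_⟩
  intro y hy hy1
  have hF0 := massL_pos hν hy0
  rcases le_or_gt y y₀ with hle | hgt
  · obtain ⟨j, hj1, hj2⟩ := exists_nat_pow_near_of_lt_one (x := y / y₀) (y := (1 / 2 : ℝ))
      (by positivity) ((div_le_one hy0).2 hle) (by norm_num) (by norm_num)
    rw [lt_div_iff₀ hy0] at hj1
    rw [div_le_iff₀ hy0] at hj2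
    have h2 : y ^ a ≤ ((1 / 2 : ℝ) ^ a) ^ j := by
      calc y ^ a ≤ ((1 / 2) ^ j * y₀) ^ a := Real.rpow_le_rpow hy.le hj2 ha.le
        _ ≤ ((1 / 2 : ℝ) ^ j) ^ a := by
            apply Real.rpow_le_rpow (by positivity) _ ha.le
            have : (0 : ℝ) < (1 / 2) ^ j := by positivity
            nlinarith
        _ = ((1 / 2 : ℝ) ^ a) ^ j := by
            rw [← Real.rpow_natCast, ← Real.rpow_mul (by norm_num), mul_comm,
              Real.rpow_mul (by norm_num), Real.rpow_natCast]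
    calc (1 / 2 : ℝ) ^ a * massL ν y₀ * y ^ a
        ≤ (1 / 2 : ℝ) ^ a * massL ν y₀ * ((1 / 2 : ℝ) ^ a) ^ j :=
          mul_le_mul_of_nonneg_left h2 (by positivity)
      _ = ((1 / 2 : ℝ) ^ a) ^ (j + 1) * massL ν y₀ := by ring
      _ ≤ massL ν ((1 / 2) ^ (j + 1) * y₀) := hpow (j + 1)
      _ ≤ massL ν y := massL_mono ν hj1.le
  · have h2 : y ^ a ≤ 1 := Real.rpow_le_one hy.le hy1 ha.le
    calc (1 / 2 : ℝ) ^ a * massL ν y₀ * y ^ a ≤ 1 * massL ν y₀ * 1 := by
          gcongr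
      _ = massL ν y₀ := by ring
      _ ≤ massL ν y := massL_mono ν hgt.le

/-! ### No density in `L^p` near an endpoint -/

lemma volume_lowSet {y : ℝ} (h0 : 0 ≤ y) (h1 : y ≤ 1) :
    (volume : Measure (Icc (0 : ℝ) 1)) (lowSet y) = ENNReal.ofReal y := by
  have e : lowSet y = Iio (⟨y, h0, h1⟩ : unitInterval) := rfl
  rw [e]
  exact unitInterval.volume_Iio _

/-- There is no density in `L^p` near `0`. -/
theorem no_lp_left {ν : ProbabilityMeasure (Icc (0 : ℝ) 1)} (hν : guaranteed ν = maximin)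
    {f : Icc (0 : ℝ) 1 → ℝ≥0∞} (hf : Measurable f) {δ : ℝ} (hδ : 0 < δ)
    (hd : ∀ y, 0 < y → y ≤ δ → (ν : Measure (Icc (0 : ℝ) 1)) (lowSet y) ≤
      ∫⁻ h in lowSet y, f h) {p : ℝ} (hp : 1 < p) : ∫⁻ h in lowSet δ, f h ^ p = ∞ := by
  by_contra hfin
  set K := ∫⁻ h in lowSet δ, f h ^ p with hK
  set q := Real.conjExponent p with hq
  have hpq : p.HolderConjugate q := Real.HolderConjugate.conjExponent hp
  have hp0 : 0 < p := by linarith
  have hq0 : 0 < q := hpq.symm.pos
  have hC : K ^ (1 / p) ≠ ∞ := ENNReal.rpow_ne_top_of_nonneg (by positivity) hfin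
  set C := (K ^ (1 / p)).toReal with hCdef
  have hC0 : 0 ≤ C := ENNReal.toReal_nonneg
  have hbound : ∀ y, 0 < y → y ≤ δ → y ≤ 1 → massL ν y ≤ C * y ^ (1 / q) := by
    intro y hy0 hyδ hy1
    have h1 : (ν : Measure (Icc (0 : ℝ) 1)) (lowSet y) ≤
        K ^ (1 / p) * ENNReal.ofReal y ^ (1 / q) := by
      refine (hd y hy0 hyδ).trans ?_
      have h2 := ENNReal.lintegral_mul_le_Lp_mul_Lq
        ((volume : Measure (Icc (0 : ℝ) 1)).restrict (lowSet y)) hpq
        (f := f) (g := fun _ => 1) hf.aemeasurable aemeasurable_const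
      have h2' : ∫⁻ h in lowSet y, f h ≤ (∫⁻ h in lowSet y, f h ^ p) ^ (1 / p) *
          (∫⁻ _ in lowSet y, ((1 : ℝ≥0∞)) ^ q ∂(volume : Measure (Icc (0 : ℝ) 1))) ^ (1 / q) := by
        refine le_trans (le_of_eq ?_) h2
        refine lintegral_congr fun h => ?_
        rw [Pi.mul_apply, mul_one]
      have e2 : ∫⁻ _ in lowSet y, ((1 : ℝ≥0∞)) ^ q ∂(volume : Measure (Icc (0 : ℝ) 1)) =
          ENNReal.ofReal y := by
        simp only [ENNReal.one_rpow]
        rw [setLIntegral_const, one_mul, volume_lowSet hy0.le hy1]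
      rw [e2] at h2'
      refine h2'.trans (mul_le_mul_left ?_ _)
      exact ENNReal.rpow_le_rpow (lintegral_mono_set fun h hh => lt_of_lt_of_le
        (show (h : ℝ) < y from hh) hyδ) (by positivity)
    have h3 := ENNReal.toReal_mono (ENNReal.mul_ne_top hC
      (ENNReal.rpow_ne_top_of_nonneg (by positivity) ENNReal.ofReal_ne_top)) h1
    have e3 : (ENNReal.ofReal y ^ (1 / q)).toReal = y ^ (1 / q) := by
      rw [← ENNReal.toReal_rpow, ENNReal.toReal_ofReal hy0.le]
    rw [ENNReal.toReal_mul, e3] at h3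
    rw [massL_eq hν]
    exact h3
  obtain ⟨c, hc0, hc⟩ := mass_ge_power hν (a := 1 / (2 * q)) (by positivity)
  set a := 1 / (2 * q) with ha
  have ha0 : 0 < a := by positivity
  set z := (c / (2 * (C + 1))) ^ (1 / a) with hz
  have hz0 : 0 < z := by positivity
  set y := min (min δ 1) z with hy
  have hy0 : 0 < y := lt_min (lt_min hδ one_pos) hz0
  have hyδ : y ≤ δ := (min_le_left _ _).trans (min_le_left _ _)
  have hy1 : y ≤ 1 := (min_le_left _ _).trans (min_le_right _ _)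
  have hyz : y ≤ z := min_le_right _ _
  have h4 : y ^ a ≤ c / (2 * (C + 1)) := by
    calc y ^ a ≤ z ^ a := Real.rpow_le_rpow hy0.le hyz ha0.le
      _ = c / (2 * (C + 1)) := by
        rw [hz, ← Real.rpow_mul (by positivity), one_div, inv_mul_cancel₀ ha0.ne', Real.rpow_one]
  have h5 := (hc y hy0 hy1).trans (hbound y hy0 hyδ hy1)
  have h6 : y ^ (1 / q) = y ^ a * y ^ a := by
    rw [← Real.rpow_add hy0]
    congr 1
    rw [ha]
    field_simp
    norm_num
  rw [h6, ← mul_assoc] at h5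
  have h7 : 0 < y ^ a := Real.rpow_pos_of_pos hy0 a
  have h8 : c ≤ C * y ^ a := le_of_mul_le_mul_right h5 h7
  rw [le_div_iff₀ (by positivity)] at h4
  nlinarith

/-! ### The right endpoint -/

/-- The reflected strategy. -/
noncomputable def flipν (ν : ProbabilityMeasure (Icc (0 : ℝ) 1)) :
    ProbabilityMeasure (Icc (0 : ℝ) 1) :=
  ⟨(ν : Measure (Icc (0 : ℝ) 1)).map unitInterval.symm,
    Measure.isProbabilityMeasure_map measurable_symm.aemeasurable⟩

lemma flipν_optimal {ν : ProbabilityMeasure (Icc (0 : ℝ) 1)} (hν : guaranteed ν = maximin) :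
    guaranteed (flipν ν) = maximin := optimal_flip hν rfl

lemma flipν_apply (ν : ProbabilityMeasure (Icc (0 : ℝ) 1)) {A : Set (Icc (0 : ℝ) 1)}
    (hA : MeasurableSet A) : (flipν ν : Measure (Icc (0 : ℝ) 1)) A =
      (ν : Measure (Icc (0 : ℝ) 1)) (unitInterval.symm ⁻¹' A) :=
  Measure.map_apply measurable_symm hA

lemma massR_eq (ν : ProbabilityMeasure (Icc (0 : ℝ) 1)) (y : ℝ) :
    massR ν y = massL (flipν ν) y := by
  unfold massR massL Measure.real
  congr 1
  rw [flipν_apply ν (measurableSet_le measurable_subtype_coe measurable_const)]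
  congr 1
  ext h
  show 1 - y ≤ (h : ℝ) ↔ 1 - (h : ℝ) ≤ y
  constructor <;> intro h1 <;> linarith

theorem slow_variation_right {ν : ProbabilityMeasure (Icc (0 : ℝ) 1)}
    (hν : guaranteed ν = maximin) {t : ℝ} (ht0 : 0 < t) :
    Tendsto (fun y => massR ν (t * y) / massR ν y) (𝓝[>] 0) (𝓝 1) := by
  simp only [massR_eq]
  exact slow_variation (flipν_optimal hν) ht0

theorem massR_ge_power {ν : ProbabilityMeasure (Icc (0 : ℝ) 1)} (hν : guaranteed ν = maximin)
    {a : ℝ} (ha : 0 < a) : ∃ c : ℝ, 0 < c ∧ ∀ y, 0 < y → y ≤ 1 → c * y ^ a ≤ massR ν y := by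
  simp only [massR_eq]
  exact mass_ge_power (flipν_optimal hν) ha

/-- **No density in `L^p` near an endpoint.** -/
theorem no_lp {ν : ProbabilityMeasure (Icc (0 : ℝ) 1)} (hν : guaranteed ν = maximin)
    {f : Icc (0 : ℝ) 1 → ℝ≥0∞} (hf : Measurable f) {U : Set (Icc (0 : ℝ) 1)} (hU : IsOpen U)
    (hmem : (0 : Icc (0 : ℝ) 1) ∈ U ∨ (1 : Icc (0 : ℝ) 1) ∈ U)
    (hd : ∀ A ⊆ U, MeasurableSet A → (ν : Measure (Icc (0 : ℝ) 1)) A = ∫⁻ h in A, f h)
    {p : ℝ} (hp : 1 < p) : ∫⁻ h in U, f h ^ p = ∞ := by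
  -- an open set around `0` contains a `lowSet`
  have hball : ∀ V : Set (Icc (0 : ℝ) 1), IsOpen V → (0 : Icc (0 : ℝ) 1) ∈ V →
      ∃ δ : ℝ, 0 < δ ∧ lowSet δ ⊆ V := by
    intro V hV h0
    obtain ⟨δ, hδ, hb⟩ := Metric.isOpen_iff.1 hV 0 h0
    refine ⟨δ, hδ, fun h hh => hb ?_⟩
    rw [Metric.mem_ball, Subtype.dist_eq, Real.dist_eq]
    show |(h : ℝ) - 0| < δ
    rw [sub_zero, abs_of_nonneg h.2.1]
    exact hh
  rcases hmem with h0 | h1
  · obtain ⟨δ, hδ, hsub⟩ := hball U hU h0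
    have h2 := no_lp_left hν hf hδ (fun y _ hyδ => (hd (lowSet y) (fun h hh => hsub
      (lt_of_lt_of_le (show (h : ℝ) < y from hh) hyδ)) (measurableSet_lowSet y)).le) hp
    exact top_le_iff.1 (h2 ▸ lintegral_mono_set hsub)
  · set V : Set (Icc (0 : ℝ) 1) := unitInterval.symm ⁻¹' U with hVdef
    have hV : IsOpen V := hU.preimage unitInterval.continuous_symm
    have h0V : (0 : Icc (0 : ℝ) 1) ∈ V := by
      show unitInterval.symm (0 : unitInterval) ∈ U
      rw [unitInterval.symm_zero]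
      exact h1
    obtain ⟨δ, hδ, hsub⟩ := hball V hV h0V
    have hmp := unitInterval.measurePreserving_symm
    have hemb : MeasurableEmbedding (unitInterval.symm : Icc (0 : ℝ) 1 → Icc (0 : ℝ) 1) :=
      unitInterval.symmHomeomorph.measurableEmbedding
    have hswap : ∀ (F : Icc (0 : ℝ) 1 → ℝ≥0∞) (A : Set (Icc (0 : ℝ) 1)),
        ∫⁻ h in unitInterval.symm ⁻¹' A, F (unitInterval.symm h) = ∫⁻ h in A, F h := by
      intro F A
      exact hmp.setLIntegral_comp_preimage_emb hemb F A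
    have hpre : ∀ A : Set (Icc (0 : ℝ) 1),
        unitInterval.symm ⁻¹' (unitInterval.symm ⁻¹' A) = A := by
      intro A
      ext h
      simp only [mem_preimage]
      rw [unitInterval.symm_symm]
    have h2 := no_lp_left (flipν_optimal hν) (f := fun h => f (unitInterval.symm h))
      (hf.comp measurable_symm) hδ (fun y _ hyδ => by
        rw [flipν_apply ν (measurableSet_lowSet y), hd _ (fun h hh => ?_)
          (measurable_symm (measurableSet_lowSet y))]
        · have e := hswap f (unitInterval.symm ⁻¹' lowSet y)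
          rw [hpre] at e
          exact e.symm.le
        · have h3 : unitInterval.symm h ∈ lowSet y := hh
          have h4 : unitInterval.symm h ∈ V :=
            hsub (lt_of_lt_of_le (show ((unitInterval.symm h : Icc (0 : ℝ) 1) : ℝ) < y from h3)
              hyδ)
          have h5 : unitInterval.symm (unitInterval.symm h) ∈ U := h4
          rwa [unitInterval.symm_symm] at h5) hp
    have h3 : ∫⁻ h in V, f (unitInterval.symm h) ^ p = ∞ :=
      top_le_iff.1 (h2 ▸ lintegral_mono_set hsub)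
    have h4 := hswap (fun h => f h ^ p) U
    rw [← h4]
    exact h3

end Pool.Agent.HighLow
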