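import Pool.Agent.HighLow_e5c6.RedOpt
import Pool.Agent.HighLow_e5c6.Symm

/-!
# The continuous high-low game: the leftmost path of a strategy

Surgery on the leftmost path: after `n` answers `too high` the strategy is replaced.
-/

set_option autoImplicit false

namespace Pool.Agent.HighLow

open MeasureTheory Set Filter Topology
open scoped ENNReal

/-- The substrategy after `n` answers `too high`. -/
def subs : ℕ → Strategy → Strategy
  | 0, g => g
  | n + 1, g => subs n (sub g false)

/-- The guess after `n` answers `too high`. -/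
def lg (g : Strategy) (n : ℕ) : Icc (0 : ℝ) 1 := subs n g []

lemma lg_zero (g : Strategy) : lg g 0 = g [] := rfl

lemma lg_succ (g : Strategy) (n : ℕ) : lg g (n + 1) = lg (sub g false) n := rfl

/-- Replace the strategy after `n` answers `too high` by `r`. -/
def graft : ℕ → Strategy → Strategy → Strategy
  | 0, _, r => r
  | n + 1, g, r => nodeS (g []) (graft n (sub g false) r) (sub g true)

/-- The payoff of the first `n` guesses if all of them are too high. -/
noncomputable def lpay (n : ℕ) (g : Strategy) (h : Icc (0 : ℝ) 1) : ℝ≥0∞ :=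
  ∑ i ∈ Finset.range n, ENNReal.ofReal ((lg g i : ℝ) - h)

lemma lpay_succ (n : ℕ) (g : Strategy) (h : Icc (0 : ℝ) 1) : lpay (n + 1) g h =
    ENNReal.ofReal ((g [] : ℝ) - h) + lpay n (sub g false) h := by
  unfold lpay
  rw [Finset.sum_range_succ', add_comm]
  rfl

lemma payoff_above (n : ℕ) : ∀ (g : Strategy) (h : Icc (0 : ℝ) 1), (∀ i < n, h < lg g i) →
    payoff g h = lpay n g h + payoff (subs n g) h := by
  induction n with
  | zero => intro g h _; simp [lpay, subs]
  | succ n ih =>
    intro g h H
    have h0 : h < g [] := H 0 (Nat.succ_pos n)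
    rw [payoff_of_gt h0, ih (sub g false) h (fun i hi => H (i + 1) (by omega)), lpay_succ, add_assoc]
    rfl

lemma payoff_graft_above (n : ℕ) : ∀ (g r : Strategy) (h : Icc (0 : ℝ) 1), (∀ i < n, h < lg g i) →
    payoff (graft n g r) h = lpay n g h + payoff r h := by
  induction n with
  | zero => intro g r h _; simp [lpay, graft]
  | succ n ih =>
    intro g r h H
    have h0 : h < g [] := H 0 (Nat.succ_pos n)
    have h1 : h < graft (n + 1) g r [] := h0
    rw [payoff_of_gt h1]
    have e : sub (graft (n + 1) g r) false = graft n (sub g false) r := rfl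
    rw [e, ih (sub g false) r h (fun i hi => H (i + 1) (by omega)), lpay_succ, add_assoc]
    rfl

lemma payoff_graft_below (n : ℕ) : ∀ (g r : Strategy) (h : Icc (0 : ℝ) 1), (∃ i < n, lg g i ≤ h) →
    payoff (graft n g r) h = payoff g h := by
  induction n with
  | zero => rintro g r h ⟨i, hi, _⟩; omega
  | succ n ih =>
    rintro g r h ⟨i, hi, hle⟩
    rcases lt_trichotomy (g []) h with hc | hc | hc
    · have h1 : graft (n + 1) g r [] < h := hc
      rw [payoff_of_lt h1, payoff_of_lt hc]
      rfl
    · have h1 : graft (n + 1) g r [] = h := hc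
      rw [payoff_of_eq h1, payoff_of_eq hc]
    · have h1 : h < graft (n + 1) g r [] := hc
      rw [payoff_of_gt h1, payoff_of_gt hc]
      have e : sub (graft (n + 1) g r) false = graft n (sub g false) r := rfl
      have e2 : graft (n + 1) g r [] = g [] := rfl
      rw [e, e2, ih (sub g false) r h]
      rcases i with _ | i
      · exact absurd hc (not_lt.2 hle)
      · exact ⟨i, by omega, hle⟩

lemma continuous_subs (n : ℕ) : Continuous (fun g : Strategy => subs n g) := by
  induction n with
  | zero => exact continuous_id
  | succ n ih => exact ih.comp (continuous_sub false)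

lemma measurable_lg (n : ℕ) : Measurable (fun g : Strategy => lg g n) :=
  ((continuous_apply ([] : List Bool)).comp (continuous_subs n)).measurable

/-- `payoff g h + n h ≤ payoff g 0 + rest`. -/
lemma payoff_add_le {n : ℕ} {g : Strategy} {y : ℝ} (hg : ∀ i < n, y < lg g i)
    {h : Icc (0 : ℝ) 1} (hh : (h : ℝ) < y) :
    payoff g h + n * ENNReal.ofReal h ≤ payoff g 0 + payoff (subs n g) h := by
  have h1 : ∀ i < n, h < lg g i := fun i hi => by
    have := hg i hi
    show (h : ℝ) < lg g i
    linarith
  have h2 : ∀ i < n, (0 : Icc (0 : ℝ) 1) < lg g i := fun i hi => by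
    have := hg i hi
    show (0 : ℝ) < lg g i
    linarith [h.2.1]
  have h3 : lpay n g h + n * ENNReal.ofReal h ≤ payoff g 0 := by
    calc lpay n g h + n * ENNReal.ofReal h
        = ∑ i ∈ Finset.range n, (ENNReal.ofReal ((lg g i : ℝ) - h) + ENNReal.ofReal h) := by
          rw [Finset.sum_add_distrib, Finset.sum_const, Finset.card_range, nsmul_eq_mul]
          rfl
      _ = lpay n g 0 := by
          unfold lpay
          refine Finset.sum_congr rfl fun i hi => ?_
          have := hg i (Finset.mem_range.1 hi)
          rw [← ENNReal.ofReal_add (by linarith) h.2.1]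
          congr 1
          show (lg g i : ℝ) - h + h = (lg g i : ℝ) - (0 : ℝ)
          ring
      _ ≤ payoff g 0 := by
          rw [payoff_above n g 0 h2]
          exact le_self_add
  calc payoff g h + n * ENNReal.ofReal h
      = (lpay n g h + n * ENNReal.ofReal h) + payoff (subs n g) h := by
        rw [payoff_above n g h h1]
        ring
    _ ≤ payoff g 0 + payoff (subs n g) h := add_le_add h3 le_rfl

/-- Some leftmost guess is at most `y` if the payoff is finite below `y`. -/
lemma exists_lg_le {g : Strategy} {y : ℝ} {h : Icc (0 : ℝ) 1} (hh : (h : ℝ) < y)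
    (hfin : payoff g h ≠ ∞) : ∃ n, (lg g n : ℝ) ≤ y := by
  by_contra hcon
  push Not at hcon
  have h1 : ∀ n : ℕ, (n : ℝ≥0∞) * ENNReal.ofReal (y - h) ≤ payoff g h := by
    intro n
    rw [payoff_above n g h (fun i _ => by
      show (h : ℝ) < lg g i
      linarith [hcon i])]
    refine le_trans ?_ le_self_add
    calc (n : ℝ≥0∞) * ENNReal.ofReal (y - h)
        = ∑ i ∈ Finset.range n, ENNReal.ofReal (y - h) := by
          rw [Finset.sum_const, Finset.card_range, nsmul_eq_mul]
      _ ≤ lpay n g h := Finset.sum_le_sum fun i _ =>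
          ENNReal.ofReal_le_ofReal (by linarith [hcon i])
  have h2 : ENNReal.ofReal (y - h) ≠ 0 := by
    rw [Ne, ENNReal.ofReal_eq_zero]
    push Not
    linarith
  obtain ⟨n, hn⟩ := ENNReal.exists_nat_mul_gt h2 hfin
  exact absurd (h1 n) (not_le.2 hn)

end Pool.Agent.HighLow
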