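import Pool.Agent.HighLow_e5c6.Omega

/-!
# Local inequalities for nearly optimal trees near an atom
-/

set_option autoImplicit false
set_option linter.unusedSectionVars false
set_option linter.unusedVariables false

namespace Pool.Agent.HighLow

open MeasureTheory Set STree

variable {ν : Measure ℝ} [IsFiniteMeasure ν] {x : ℝ}

/-- `[p, x]` is `[p, x)` together with the point `x`. -/
lemma split_Ico_singleton {f : ℝ → ℝ} {p : ℝ} (hp : p ≤ x) (hf : IntegrableOn f (Icc p x) ν) :
    ∫ h in Icc p x, f h ∂ν = ∫ h in Ico p x, f h ∂ν + f x * ν.real {x} := by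
  rw [← Ico_union_right hp, setIntegral_union (by rw [Set.disjoint_singleton_right]; simp)
    (measurableSet_singleton x) (hf.mono_set Ico_subset_Icc_self)
    (hf.mono_set (by rw [Set.singleton_subset_iff]; exact ⟨hp, le_rfl⟩))]
  congr 1
  rw [Measure.restrict_singleton, integral_smul_measure, integral_dirac, smul_eq_mul, mul_comm]
  rfl

lemma lin_int {f : ℝ → ℝ} (hf : Continuous f) (a b : ℝ) : IntegrableOn f (Icc a b) ν :=
  hf.integrableOn_Icc

lemma omega_le_simple {q : ℝ} (hqx : q < x) :
    omega ν x q ≤ 3 * (x - q) * ν.real (Ico q x) := by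
  refine (omega_isolate hqx (N := leaf) trivial).trans ?_
  have h1 : ∫ h in Ico q x, ((x - h) + cost leaf q x h) ∂ν ≤ ∫ h in Ico q x, (3 * (x - q)) ∂ν := by
    refine setIntegral_mono_on ?_ (integrableOn_const (measure_ne_top _ _)) measurableSet_Ico ?_
    · exact ((lin_int (by fun_prop) q x).add (cost_integrableOn ν leaf q x)).mono_set
        Ico_subset_Icc_self
    · intro h hh
      simp only [cost_leaf]
      linarith [hh.1]
  rw [setIntegral_const, smul_eq_mul] at h1
  linarith

lemma int_xmh_le {a : ℝ} (hax : a ≤ x) :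
    ∫ h in Icc a x, (x - h) ∂ν ≤ (x - a) * ν.real (Ico a x) := by
  rw [split_Ico_singleton hax (lin_int (by fun_prop) a x), sub_self, zero_mul, add_zero]
  have h1 : ∫ h in Ico a x, (x - h) ∂ν ≤ ∫ h in Ico a x, (x - a) ∂ν := by
    refine setIntegral_mono_on ((lin_int (by fun_prop) a x).mono_set Ico_subset_Icc_self)
      (integrableOn_const (measure_ne_top _ _)) measurableSet_Ico ?_
    intro h hh
    linarith [hh.1]
  rw [setIntegral_const, smul_eq_mul] at h1
  linarith

/-- (N1): to the left of the atom the cost is at least the cost of the atom, up to a small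
error. -/
lemma cost_atom_le {δ κ : ℝ} (hm : 0 < ν.real {x}) (hκ : 0 ≤ κ) (T : STree) :
    ∀ {a b : ℝ}, Fine δ T a b → Null ν T → All (fun c => c ≠ x) T → NearOpt ν κ a b T →
    a < x → x ≤ b → ∀ h, a ≤ h → h < x →
    cost T a b x ≤ cost T a b h + (4 * (x - a) * ν.real (Ico a x) + κ) / ν.real {x} := by
  induction T with
  | leaf =>
    intro a b _ _ _ _ hax hxb h _ _
    simp only [cost_leaf]
    have : 0 ≤ (4 * (x - a) * ν.real (Ico a x) + κ) / ν.real {x} := by
      have h1 : 0 ≤ (x - a) * ν.real (Ico a x) := mul_nonneg (by linarith) measureReal_nonneg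
      have h2 : 4 * (x - a) * ν.real (Ico a x) = 4 * ((x - a) * ν.real (Ico a x)) := by ring
      rw [h2]
      positivity
    linarith
  | node c l r ihl ihr =>
    intro a b hF hN hne hopt hax hxb h hah hhx
    rcases lt_or_gt_of_ne hne.1 with hcx | hcx
    · -- the cut separates the atom from the left part
      have h1 := base_exchange hF.1 hcx hxb hN hopt
      have h2 := omega_le_simple (ν := ν) hax
      have h3 := int_xmh_le (ν := ν) hax.le
      rw [split_Ico_singleton hax.le (cost_integrableOn' ν _ le_rfl hxb)] at h1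
      have h4 : 0 ≤ ∫ h in Ico a x, cost (node c l r) a b h ∂ν :=
        setIntegral_nonneg measurableSet_Ico fun h hh =>
          cost_nonneg _ hh.1 (hh.2.le.trans hxb)
      have h5 : cost (node c l r) a b x * ν.real {x} ≤ 4 * (x - a) * ν.real (Ico a x) + κ := by
        linarith
      have h6 : cost (node c l r) a b x ≤
          (4 * (x - a) * ν.real (Ico a x) + κ) / ν.real {x} := by
        rw [le_div_iff₀ hm]; exact h5
      have h7 := cost_nonneg (node c l r) hah (hhx.le.trans hxb)
      linarith
    · have hhc : h < c := hhx.trans hcx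
      rw [cost_node_lt' hcx hF.2.1.le, cost_node_lt' hhc hF.2.1.le]
      have := ihl hF.2.2.1 hN.2.1 hne.2.1 (NearOpt.left hF.1.le hF.2.1.le hN hopt) hax hcx.le h
        hah hhx
      linarith

/-- `PP X p y R K`: the tree `X` on `[p, y]`, together with the cost `R` for the points in
`(y, x]`, is optimal for searching `[p, x]` up to `K`. -/
def PP (ν : Measure ℝ) (x : ℝ) (X : STree) (p y R K : ℝ) : Prop :=
  ∫ h in Icc p y, cost X p y h ∂ν + R * ν.real (Ioc y x) ≤ omega ν x p + K

lemma pp_base {κ a b c E : ℝ} {l r : STree} (hac : a < c) (hcx : c < x) (hxb : x ≤ b)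
    (hN : Null ν (node c l r)) (hopt : NearOpt ν κ a b (node c l r)) (hE0 : 0 ≤ E)
    (hE : ∀ h, c ≤ h → h < x → cost r c b x ≤ cost r c b h + E) :
    PP ν x l a c (cost r c b x) (κ + (x - c) * ν.real (Ico a x) + E * ν.real (Ico c x)) := by
  unfold PP
  set R := cost r c b x with hR
  have hax : a < x := hac.trans hcx
  have hcb : c ≤ b := by linarith
  have h1 := base_exchange hac hcx hxb hN hopt
  have hint : IntegrableOn (fun h => cost (node c l r) a b h) (Icc a x) ν :=
    cost_integrableOn' ν _ le_rfl hxb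
  rw [split_Icc hac.le hcx.le hN.1 hint,
    split_Icc (f := fun h => x - h) hac.le hcx.le hN.1 (lin_int (by fun_prop) a x)] at h1
  have e1 : ∫ h in Icc a c, cost (node c l r) a b h ∂ν =
      ∫ h in Icc a c, (c - h) ∂ν + ∫ h in Icc a c, cost l a c h ∂ν := by
    rw [integral_Icc_eq_integral_Ico' hN.1, integral_Icc_eq_integral_Ico' hN.1,
      integral_Icc_eq_integral_Ico' hN.1, ← integral_add]
    · refine setIntegral_congr_fun measurableSet_Ico fun h hh => ?_
      rw [cost_node_lt' hh.2 hcb]
    · exact (lin_int (by fun_prop) a c).mono_set Ico_subset_Icc_self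
    · exact (cost_integrableOn ν l a c).mono_set Ico_subset_Icc_self
  have e2 : R * ν.real (Ioc c x) - E * ν.real (Ico c x) ≤
      ∫ h in Icc c x, cost (node c l r) a b h ∂ν := by
    have hi2 : IntegrableOn (fun h => cost (node c l r) a b h) (Icc c x) ν :=
      hint.mono_set (Icc_subset_Icc_left hac.le)
    rw [split_Ico_singleton hcx.le hi2]
    have hx' : R ≤ cost (node c l r) a b x := by
      rw [cost_node_ge' hcx.le hac.le]; linarith
    have h3 : ∫ h in Ico c x, (R - E) ∂ν ≤ ∫ h in Ico c x, cost (node c l r) a b h ∂ν := by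
      refine setIntegral_mono_on (integrableOn_const (measure_ne_top _ _))
        (hi2.mono_set Ico_subset_Icc_self) measurableSet_Ico ?_
      intro h hh
      rw [cost_node_ge' hh.1 hac.le]
      have := hE h hh.1 hh.2
      linarith [hh.1]
    rw [setIntegral_const, smul_eq_mul] at h3
    have h4 : ν.real (Ioc c x) = ν.real (Ico c x) + ν.real {x} := by
      have hA : ν.real (Icc c x) = ν.real (Ioc c x) := by
        rw [← Ioc_union_left hcx.le, measureReal_union (by simp) (measurableSet_singleton c)]
        have : ν.real {c} = 0 := by rw [Measure.real, hN.1]; rfl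
        linarith
      rw [← hA, ← Ico_union_right hcx.le, measureReal_union (by simp) (measurableSet_singleton x)]
    have h5 : R * ν.real {x} ≤ cost (node c l r) a b x * ν.real {x} :=
      mul_le_mul_of_nonneg_right hx' measureReal_nonneg
    rw [h4]
    nlinarith
  have e3 : ∫ h in Icc a c, (x - h) ∂ν = ∫ h in Icc a c, (c - h) ∂ν +
      (x - c) * ν.real (Icc a c) := by
    have : ∫ h in Icc a c, (x - h) ∂ν = ∫ h in Icc a c, ((c - h) + (x - c)) ∂ν := by
      congr 1; ext h; ring
    rw [this, integral_add (lin_int (by fun_prop) a c) (integrableOn_const (measure_ne_top _ _)),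
      setIntegral_const, smul_eq_mul]
    ring
  have e4 := int_xmh_le (ν := ν) hcx.le
  have e5 : ν.real (Icc a c) + ν.real (Ico c x) = ν.real (Ico a x) := by
    have hA : ν.real (Icc a c) = ν.real (Ico a c) := by
      rw [← Ico_union_right hac.le, measureReal_union (by simp) (measurableSet_singleton c)]
      have : ν.real {c} = 0 := by rw [Measure.real, hN.1]; rfl
      linarith
    rw [hA, ← measureReal_union _ measurableSet_Ico, Ico_union_Ico_eq_Ico hac.le hcx.le]
    rw [Set.disjoint_left]
    intro y h1 h2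
    exact absurd h1.2 (not_lt.2 h2.1)
  rw [e1, e3] at h1
  have e6 : (x - c) * ν.real (Icc a c) + (x - c) * ν.real (Ico c x) =
      (x - c) * ν.real (Ico a x) := by rw [← mul_add, e5]
  linarith

lemma pp_step {p y d R K : ℝ} {l r : STree} (hpd : p ≤ d) (hdy : d ≤ y) (hyx : y ≤ x)
    (hN : Null ν (node d l r)) (h : PP ν x (node d l r) p y R K) :
    PP ν x r d y (R - (x - d)) K := by
  unfold PP at h ⊢
  rw [int_cost_node hpd hdy hN.1] at h
  have h1 := omega_split (x := x) hpd (hdy.trans hyx) hN.1 hN.2.1
  rw [split_Icc_Ioc (f := fun h => h - d) hdy hyx (lin_int (by fun_prop) d x)] at h1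
  have h2 : ∫ h in Ioc y x, (h - d) ∂ν ≤ (x - d) * ν.real (Ioc y x) := by
    have h3 : ∫ h in Ioc y x, (h - d) ∂ν ≤ ∫ h in Ioc y x, (x - d) ∂ν := by
      refine setIntegral_mono_on ((lin_int (by fun_prop) y x).mono_set Ioc_subset_Icc_self)
        (integrableOn_const (measure_ne_top _ _)) measurableSet_Ioc ?_
      intro h hh
      linarith [hh.2]
    rw [setIntegral_const, smul_eq_mul] at h3
    linarith
  linarith

lemma pp_atom_le {p y R K : ℝ} {X : STree} (hpy : p ≤ y) (hyx : y < x) (hK : 0 ≤ K)
    (h : PP ν x X p y R K) : R * ν.real {x} ≤ 3 * (x - p) * ν.real (Ico p x) + K := by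
  have hpx : p < x := lt_of_le_of_lt hpy hyx
  have hn : 0 ≤ 3 * (x - p) * ν.real (Ico p x) := by
    have : 0 ≤ (x - p) * ν.real (Ico p x) := mul_nonneg (by linarith) measureReal_nonneg
    nlinarith
  rcases le_or_gt 0 R with hR | hR
  · unfold PP at h
    have h1 := omega_le_simple (ν := ν) hpx
    have h2 : 0 ≤ ∫ h in Icc p y, cost X p y h ∂ν :=
      setIntegral_nonneg measurableSet_Icc fun h hh => cost_nonneg _ hh.1 hh.2
    have h3 : R * ν.real {x} ≤ R * ν.real (Ioc y x) :=
      mul_le_mul_of_nonneg_left (measureReal_mono (by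
        rw [Set.singleton_subset_iff]; exact ⟨hyx, le_rfl⟩)) hR
    linarith
  · have : R * ν.real {x} ≤ 0 := mul_nonpos_of_nonpos_of_nonneg hR.le measureReal_nonneg
    linarith

end Pool.Agent.HighLow
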