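import Pool.Agent.HighLow_e5c6.Exists

/-!
# The continuous high-low game: near-optimal mixed strategies of Red

For every `ε > 0` some mixed strategy of Red has expected payoff at most `maximin + ε` against
every hidden number.  The proof separates the cone of continuous majorants of expected payoffs
from the functions smaller than `maximin + ε` and represents the functional by a measure.
-/

set_option autoImplicit false

namespace Pool.Agent.HighLow

open MeasureTheory Set STree Filter Topology
open scoped ENNReal BoundedContinuousFunction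

/-- Expected payoff of a mixed strategy at the hidden number `h`. -/
noncomputable def redCost (σ : ProbabilityMeasure Strategy) (h : Icc (0 : ℝ) 1) : ℝ≥0∞ :=
  ∫⁻ g, payoff g h ∂(σ : Measure Strategy)

lemma measurable_payoff_left (h : Icc (0 : ℝ) 1) : Measurable (fun g : Strategy => payoff g h) :=
  measurable_payoff.comp (measurable_const.prodMk measurable_id)

lemma redCost_dirac (g : Strategy) (h : Icc (0 : ℝ) 1) :
    redCost (diracProba g) h = payoff g h := by
  have e : ((diracProba g : ProbabilityMeasure Strategy) : Measure Strategy) = Measure.dirac g :=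
    rfl
  unfold redCost
  rw [e, lintegral_dirac' _ (measurable_payoff_left h)]

/-- Convex combination of two mixed strategies. -/
noncomputable def mixS (σ τ : ProbabilityMeasure Strategy) (a b : ℝ) (ha : 0 ≤ a) (hb : 0 ≤ b)
    (hab : a + b = 1) : ProbabilityMeasure Strategy :=
  ⟨ENNReal.ofReal a • (σ : Measure Strategy) + ENNReal.ofReal b • (τ : Measure Strategy), ⟨by
    rw [Measure.add_apply, Measure.smul_apply, Measure.smul_apply, measure_univ, measure_univ,
      smul_eq_mul, smul_eq_mul, mul_one, mul_one, ← ENNReal.ofReal_add ha hb, hab,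
      ENNReal.ofReal_one]⟩⟩

lemma redCost_mixS (σ τ : ProbabilityMeasure Strategy) (a b : ℝ) (ha : 0 ≤ a) (hb : 0 ≤ b)
    (hab : a + b = 1) (h : Icc (0 : ℝ) 1) : redCost (mixS σ τ a b ha hb hab) h =
      ENNReal.ofReal a * redCost σ h + ENNReal.ofReal b * redCost τ h := by
  have e : ((mixS σ τ a b ha hb hab : ProbabilityMeasure Strategy) : Measure Strategy) =
    ENNReal.ofReal a • (σ : Measure Strategy) + ENNReal.ofReal b • (τ : Measure Strategy) := rfl
  unfold redCost
  rw [e, lintegral_add_measure, lintegral_smul_measure, lintegral_smul_measure, smul_eq_mul,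
    smul_eq_mul]

/-- Continuous nonnegative functions which dominate the expected payoff of some mixed strategy. -/
def domSet : Set C(Icc (0 : ℝ) 1, ℝ) :=
  {f | (∀ h, 0 ≤ f h) ∧ ∃ σ : ProbabilityMeasure Strategy, ∀ h, redCost σ h ≤ ENNReal.ofReal (f h)}

lemma convex_domSet : Convex ℝ domSet := by
  rintro f ⟨hf, σ, hσ⟩ f' ⟨hf', τ, hτ⟩ a b ha hb hab
  refine ⟨fun h => ?_, mixS σ τ a b ha hb hab, fun h => ?_⟩
  · show 0 ≤ a * f h + b * f' h
    have := mul_nonneg ha (hf h)
    have := mul_nonneg hb (hf' h)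
    linarith
  · rw [redCost_mixS]
    show _ ≤ ENNReal.ofReal (a * f h + b * f' h)
    rw [ENNReal.ofReal_add (mul_nonneg ha (hf h)) (mul_nonneg hb (hf' h)),
      ENNReal.ofReal_mul ha, ENNReal.ofReal_mul hb]
    gcongr
    · exact hσ h
    · exact hτ h

lemma mem_domSet_of_majorant (T : STree) (f : C(Icc (0 : ℝ) 1, ℝ))
    (hf : ∀ h : Icc (0 : ℝ) 1, cost T 0 1 h ≤ f h) : f ∈ domSet := by
  obtain ⟨g, hg⟩ := exists_strategy T 0 1 le_rfl le_rfl
  refine ⟨fun h => (cost_nonneg T h.2.1 h.2.2).trans (hf h), diracProba g, fun h => ?_⟩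
  rw [redCost_dirac]
  exact (hg h h.2.1 h.2.2).trans (ENNReal.ofReal_le_ofReal (hf h))

/-- The functions smaller than `c`. -/
def below (c : ℝ) : Set C(Icc (0 : ℝ) 1, ℝ) := {f | ∀ h, f h < c}

lemma isOpen_below (c : ℝ) : IsOpen (below c) := by
  have h := ContinuousMap.isOpen_setOfPred_mapsTo (X := Icc (0 : ℝ) 1) (Y := ℝ)
    isCompact_univ (isOpen_Iio (a := c))
  convert! h using 1
  ext f
  constructor
  · intro hf x _
    exact hf x
  · intro hf x
    exact hf (mem_univ x)

lemma convex_below (c : ℝ) : Convex ℝ (below c) := by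
  intro f hf f' hf' a b ha hb hab h
  show a * f h + b * f' h < c
  have h1 := hf h
  have h2 := hf' h
  rcases eq_or_lt_of_le ha with h0 | h0
  · have : b = 1 := by linarith
    rw [← h0, this]
    linarith
  · have h3 : a * f h < a * c := mul_lt_mul_of_pos_left h1 h0
    have h4 : b * f' h ≤ b * c := mul_le_mul_of_nonneg_left h2.le hb
    have h5 : a * c + b * c = c := by rw [← add_mul, hab, one_mul]
    linarith

/-- **Near-optimal mixed strategies of Red.** -/
theorem exists_near_optimal {ε : ℝ} (hε : 0 < ε) :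
    ∃ σ : ProbabilityMeasure Strategy, ∀ h, redCost σ h ≤ ENNReal.ofReal (vR + ε) := by
  set c := vR + ε with hc
  have hc0 : 0 < c := by have := vR_nonneg; linarith
  by_contra hcon
  have hdisj : Disjoint (below c) domSet := by
    rw [Set.disjoint_left]
    rintro f hf ⟨_, σ, hσ⟩
    exact hcon ⟨σ, fun h => (hσ h).trans (ENNReal.ofReal_le_ofReal (hf h).le)⟩
  obtain ⟨Λ, u, h1, h2⟩ := geometric_hahn_banach_open (convex_below c) (isOpen_below c)
    convex_domSet hdisj
  -- positivity
  have hpos : ∀ f : C(Icc (0 : ℝ) 1, ℝ), (∀ h, 0 ≤ f h) → 0 ≤ Λ f := by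
    intro f hf
    by_contra hneg
    push Not at hneg
    obtain ⟨n, hn⟩ := exists_nat_gt (u / (-Λ f))
    have h3 : (-(n : ℝ)) • f ∈ below c := by
      intro h
      show -(n : ℝ) * f h < c
      have := mul_nonneg (Nat.cast_nonneg (α := ℝ) n) (hf h)
      linarith
    have h4 := h1 _ h3
    rw [map_smul, smul_eq_mul] at h4
    rw [div_lt_iff₀ (by linarith)] at hn
    nlinarith
  set one : C(Icc (0 : ℝ) 1, ℝ) := ContinuousMap.const _ (1 : ℝ) with hone
  set m := Λ one with hm
  have hm0 : 0 ≤ m := hpos one fun h => zero_le_one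
  -- the mass is positive
  have hfin : ∀ f : C(Icc (0 : ℝ) 1, ℝ), |Λ f| ≤ ‖f‖ * m := by
    intro f
    rw [abs_le]
    constructor
    · have h3 := hpos (f + ‖f‖ • one) fun h => by
        show 0 ≤ f h + ‖f‖ * 1
        have := (abs_le.1 (f.norm_coe_le_norm h)).1
        linarith
      rw [map_add, map_smul, smul_eq_mul] at h3
      linarith
    · have h3 := hpos (‖f‖ • one - f) fun h => by
        show 0 ≤ ‖f‖ * 1 - f h
        have := (abs_le.1 (f.norm_coe_le_norm h)).2
        linarith
      rw [map_sub, map_smul, smul_eq_mul] at h3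
      linarith
  have hu0 : 0 < u := by
    have h3 : (0 : C(Icc (0 : ℝ) 1, ℝ)) ∈ below c := fun h => hc0
    have := h1 _ h3
    rwa [map_zero] at this
  have htwo : (2 : ℝ) • one ∈ domSet := by
    refine mem_domSet_of_majorant leaf _ fun h => ?_
    rw [cost_leaf]
    show 2 * ((1 : ℝ) - 0) ≤ 2 * 1
    norm_num
  have hmpos : 0 < m := by
    have h3 := h2 _ htwo
    rw [map_smul, smul_eq_mul] at h3
    linarith
  have hcm : c * m ≤ u := by
    refine le_of_forall_lt fun t ht => ?_
    have h3 : (t / m) • one ∈ below c := by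
      intro h
      show t / m * 1 < c
      rw [mul_one, div_lt_iff₀ hmpos]
      exact ht
    have h4 := h1 _ h3
    rw [map_smul, smul_eq_mul, ← hm, div_mul_cancel₀ _ hmpos.ne'] at h4
    exact h4
  -- the representing measure
  let emb : CompactlySupportedContinuousMap (Icc (0 : ℝ) 1) ℝ → C(Icc (0 : ℝ) 1, ℝ) :=
    fun f => f.toContinuousMap
  let Λ' : CompactlySupportedContinuousMap (Icc (0 : ℝ) 1) ℝ →ₚ[ℝ] ℝ :=
  { toFun := fun f => m⁻¹ * Λ (emb f)
    map_add' := by
      intro f g
      have : emb (f + g) = emb f + emb g := rfl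
      rw [this, map_add]
      ring
    map_smul' := by
      intro r f
      have : emb (r • f) = r • emb f := rfl
      rw [this, map_smul]
      simp only [smul_eq_mul, RingHom.id_apply]
      ring
    monotone' := by
      intro f g hfg
      have h3 := hpos (emb g - emb f) fun h => sub_nonneg.2 (hfg h)
      rw [map_sub] at h3
      exact mul_le_mul_of_nonneg_left (by linarith) (inv_nonneg.2 hm0) }
  set μ : Measure (Icc (0 : ℝ) 1) := RealRMK.rieszMeasure Λ' with hμ
  have hint : ∀ f : C(Icc (0 : ℝ) 1, ℝ), ∫ h, f h ∂μ = m⁻¹ * Λ f := by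
    intro f
    let f' : CompactlySupportedContinuousMap (Icc (0 : ℝ) 1) ℝ :=
    { toFun := f
      hasCompactSupport' := HasCompactSupport.of_compactSpace _ }
    have h3 := RealRMK.integral_rieszMeasure Λ' f'
    exact h3
  have hprob : IsProbabilityMeasure μ := by
    have h3 := hint one
    rw [← hm, inv_mul_cancel₀ hmpos.ne'] at h3
    have h4 : ∫ h : Icc (0 : ℝ) 1, one h ∂μ = μ.real univ := by
      show ∫ h : Icc (0 : ℝ) 1, (1 : ℝ) ∂μ = μ.real univ
      rw [integral_const, smul_eq_mul, mul_one]
    rw [h4] at h3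
    constructor
    have h5 : (μ univ).toReal = 1 := h3
    rw [← ENNReal.toReal_eq_one_iff]
    exact h5
  -- all majorants have integral at least `c`
  have hmaj : ∀ (T : STree) (f : Icc (0 : ℝ) 1 →ᵇ ℝ), (∀ h : Icc (0 : ℝ) 1, cost T 0 1 h ≤ f h) →
      c ≤ ∫ h, f h ∂μ := by
    intro T f hf
    have h3 := h2 _ (mem_domSet_of_majorant T f.toContinuousMap hf)
    have h4 := hint f.toContinuousMap
    have h5 : ∫ h, f h ∂μ = m⁻¹ * Λ f.toContinuousMap := h4
    rw [h5, ← div_eq_inv_mul, le_div_iff₀ hmpos]
    exact hcm.trans h3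
  have : IsProbabilityMeasure (toR μ) :=
    Measure.isProbabilityMeasure_map measurable_subtype_coe.aemeasurable
  obtain ⟨T, hT, hTle⟩ := relaxed_le (toR μ) inferInstance (toR_compl μ) (ε / 2) (by linarith)
  rw [int_toR] at hTle
  have h3 := cost_ge_of_majorants μ hmaj T
    (ae_of_ae_map measurable_subtype_coe.aemeasurable (all_ne_ae hT))
  linarith

end Pool.Agent.HighLow
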