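import Pool.Agent.HighLow_e5c6.MixData

/-!
# The explicit mixture guarantees `615 / 1000`

The integer inequalities for the explicit mixture are checked by evaluation.
-/

set_option autoImplicit false

namespace Pool.Agent.HighLow

open MeasureTheory Set

/-- Weighted sum of the bounds. -/
def wsum (D j : ℕ) : List (ℕ × QT) → ℤ
  | [] => 0
  | p :: L => (p.1 : ℤ) * p.2.val 0 0 D j + wsum D j L

/-- Total weight. -/
def wtot : List (ℕ × QT) → ℕ
  | [] => 0
  | p :: L => p.1 + wtot L

/-- All trees are well formed. -/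
def oks (D : ℕ) : List (ℕ × QT) → Bool
  | [] => true
  | p :: L => p.2.ok 0 D && oks D L

/-- The inequality in the cells below `j`. -/
def chkUpTo (D p q : ℕ) (L : List (ℕ × QT)) : ℕ → Bool
  | 0 => true
  | j + 1 => decide (wsum D j L * (q : ℤ) ≤ p * ((wtot L : ℕ) * (10000 * D))) &&
      chkUpTo D p q L j

lemma wsum_eq (D j : ℕ) (L : List (ℕ × QT)) :
    ∑ i : Fin L.length, ((L[i.1].1 : ℕ) : ℤ) * (L[i.1].2).val 0 0 D j = wsum D j L := by
  rw [Fin.sum_univ_fun_getElem L (fun p : ℕ × QT => (p.1 : ℤ) * p.2.val 0 0 D j)]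
  induction L with
  | nil => rfl
  | cons p L ih => rw [List.map_cons, List.sum_cons, ih, wsum]

lemma wtot_eq (L : List (ℕ × QT)) : ∑ i : Fin L.length, L[i.1].1 = wtot L := by
  rw [Fin.sum_univ_fun_getElem L (fun p : ℕ × QT => p.1)]
  induction L with
  | nil => rfl
  | cons p L ih => rw [List.map_cons, List.sum_cons, ih, wtot]

lemma oks_get (D : ℕ) {L : List (ℕ × QT)} (h : oks D L = true) (i : Fin L.length) :
    (L[i.1].2).ok 0 D = true := by
  have key : ∀ p ∈ L, p.2.ok 0 D = true := by
    induction L with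
    | nil => intro p hp; exact absurd hp (List.not_mem_nil)
    | cons q L ih =>
      rw [oks, Bool.and_eq_true] at h
      intro p hp
      rcases List.mem_cons.1 hp with rfl | hp
      · exact h.1
      · rcases i with ⟨i, hi⟩
        exact ih h.2 ⟨0, List.length_pos_of_mem hp⟩ p hp
  exact key _ (List.getElem_mem i.2)

lemma chk_spec {D p q : ℕ} {L : List (ℕ × QT)} : ∀ {n : ℕ}, chkUpTo D p q L n = true →
    ∀ j < n, wsum D j L * (q : ℤ) ≤ p * ((wtot L : ℕ) * (10000 * D)) := by
  intro n
  induction n with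
  | zero => intro _ j hj; omega
  | succ n ih =>
    intro h j hj
    rw [chkUpTo, Bool.and_eq_true, decide_eq_true_eq] at h
    rcases Nat.lt_or_ge j n with h1 | h1
    · exact ih h.2 j h1
    · rw [show j = n by omega]
      exact h.1

/-- The list version of the mixture theorem. -/
theorem exists_mixture_list (D : ℕ) (hD : 0 < D) (L : List (ℕ × QT)) (hw : 0 < wtot L)
    (hok : oks D L = true) (p q : ℕ) (hq : 0 < q) (hc : chkUpTo D p q L (D + 1) = true) :
    ∃ σ : ProbabilityMeasure Strategy, ∀ h : Icc (0 : ℝ) 1,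
      ∫⁻ g, payoff g h ∂(σ : Measure Strategy) ≤ ENNReal.ofReal ((p : ℝ) / q) := by
  refine exists_mixture D hD (fun i : Fin L.length => L[i.1].2) (fun i => L[i.1].1) ?_
    (oks_get D hok) p q hq fun j hj => ?_
  · rw [wtot_eq]; exact hw
  · rw [wsum_eq, wtot_eq]
    exact chk_spec hc j (by omega)

/-- **An explicit mixed strategy of Red guarantees `0.615`.** -/
theorem mixture_615 : ∃ σ : ProbabilityMeasure Strategy, ∀ h : Icc (0 : ℝ) 1,
    ∫⁻ g, payoff g h ∂(σ : Measure Strategy) ≤ ENNReal.ofReal (((615 : ℕ) : ℝ) / (1000 : ℕ)) := by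
  refine exists_mixture_list 112 (by norm_num) MixData.data ?_ ?_ 615 1000 (by norm_num) ?_
  · decide +kernel
  · decide +kernel
  · decide +kernel

end Pool.Agent.HighLow
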