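import Pool.Agent.HighLow_e5c6.Mixq

/-!
# An explicit mixture of search trees

Numerical data: 111 trees with cuts in `{0, 1/112, ..., 1}` and their integer weights.  The mixture
guarantees Red an expected payoff of at most `615/1000`.
-/

set_option autoImplicit false
set_option linter.style.longLine false

namespace Pool.Agent.HighLow.MixData

/-- Shorthand for a leaf. -/
abbrev o : QT := QT.leaf

/-- Shorthand for a node. -/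
abbrev n (k : ℕ) (l r : QT) : QT := QT.node k l r

def t0 : QT :=
  n 59 (n 14 (n 2 o (n 7 (n 3 o (n 5 (n 4 o o) o)) (n 11 (n 9 (n 8 o o) o) (n 13 o o)))) (n 39
    (n 22 (n 17 (n 15 o (n 16 o o)) (n 19 (n 18 o o) (n 20 o (n 21 o o)))) (n 30 (n 26 (n 24 (n 23
    o o) (n 25 o o)) (n 28 (n 27 o o) (n 29 o o))) (n 35 (n 32 (n 31 o o) (n 34 o o)) (n 37 (n 36
    o o) (n 38 o o))))) (n 52 (n 47 (n 43 (n 41 (n 40 o o) (n 42 o o)) (n 45 (n 44 o o) (n 46 o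
    o))) (n 50 o (n 51 o o))) (n 56 (n 54 o (n 55 o o)) (n 58 (n 57 o o) o))))) (n 103 (n 84 (n 68
    (n 62 (n 60 o (n 61 o o)) (n 64 (n 63 o o) (n 66 (n 65 o o) (n 67 o o)))) (n 76 (n 72 (n 70 (n
    69 o o) (n 71 o o)) (n 74 (n 73 o o) (n 75 o o))) (n 80 (n 78 (n 77 o o) (n 79 o o)) (n 82 o
    (n 83 o o))))) (n 96 (n 92 (n 88 (n 86 (n 85 o o) (n 87 o o)) (n 90 (n 89 o o) (n 91 o o))) (n
    94 o (n 95 o o))) (n 100 (n 98 o (n 99 o o)) (n 102 (n 101 o o) o)))) (n 111 (n 109 (n 106 (n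
    104 o o) (n 108 o o)) (n 110 o o)) o))

def t1 : QT :=
  n 53 (n 9 (n 1 o (n 3 (n 2 o o) (n 6 (n 4 o o) (n 8 o o)))) (n 28 (n 16 (n 12 (n 10 o (n 11 o
    o)) (n 14 (n 13 o o) o)) (n 20 (n 18 (n 17 o o) o) (n 24 (n 22 (n 21 o o) (n 23 o o)) (n 26 (n
    25 o o) (n 27 o o))))) (n 44 (n 36 (n 32 (n 30 (n 29 o o) (n 31 o o)) (n 34 (n 33 o o) (n 35 o
    o))) (n 40 (n 38 (n 37 o o) (n 39 o o)) (n 42 (n 41 o o) (n 43 o o)))) (n 50 (n 48 (n 46 (n 45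
    o o) (n 47 o o)) (n 49 o o)) (n 52 (n 51 o o) o))))) (n 97 (n 72 (n 60 (n 56 (n 54 o (n 55 o
    o)) (n 58 (n 57 o o) o)) (n 65 (n 62 (n 61 o o) o) (n 68 o (n 70 (n 69 o o) (n 71 o o))))) (n
    88 (n 80 (n 76 (n 74 (n 73 o o) (n 75 o o)) (n 78 (n 77 o o) (n 79 o o))) (n 84 (n 82 (n 81 o
    o) (n 83 o o)) (n 86 (n 85 o o) (n 87 o o)))) (n 94 (n 92 (n 90 (n 89 o o) o) (n 93 o o)) (n
    96 (n 95 o o) o)))) (n 110 (n 104 (n 100 (n 99 (n 98 o o) o) (n 102 o (n 103 o o))) (n 108 (n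
    106 o (n 107 o o)) (n 109 o o))) o))

def t2 : QT :=
  n 53 (n 9 (n 1 o (n 3 (n 2 o o) (n 6 (n 4 o o) (n 8 o o)))) (n 28 (n 16 (n 12 (n 10 o (n 11 o
    o)) (n 14 (n 13 o o) o)) (n 20 (n 18 (n 17 o o) o) (n 24 (n 22 (n 21 o o) (n 23 o o)) (n 26 (n
    25 o o) (n 27 o o))))) (n 44 (n 36 (n 32 (n 30 (n 29 o o) (n 31 o o)) (n 34 (n 33 o o) (n 35 o
    o))) (n 40 (n 38 (n 37 o o) (n 39 o o)) (n 42 (n 41 o o) (n 43 o o)))) (n 50 (n 48 (n 46 (n 45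
    o o) (n 47 o o)) (n 49 o o)) (n 52 (n 51 o o) o))))) (n 98 (n 72 (n 60 (n 56 (n 54 o (n 55 o
    o)) (n 58 (n 57 o o) o)) (n 65 (n 62 (n 61 o o) o) (n 68 o (n 70 (n 69 o o) (n 71 o o))))) (n
    89 (n 81 (n 76 (n 74 (n 73 o o) (n 75 o o)) (n 78 (n 77 o o) (n 80 o o))) (n 85 (n 83 (n 82 o
    o) (n 84 o o)) (n 87 (n 86 o o) (n 88 o o)))) (n 95 (n 93 (n 91 (n 90 o o) (n 92 o o)) (n 94 o
    o)) (n 97 (n 96 o o) o)))) (n 110 (n 105 (n 101 (n 99 o o) (n 103 o (n 104 o o))) (n 109 (n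
    107 o (n 108 o o)) o)) o))

def t3 : QT :=
  n 51 (n 7 o (n 24 (n 14 (n 10 (n 8 o (n 9 o o)) (n 12 (n 11 o o) o)) (n 18 (n 16 (n 15 o o) o)
    (n 20 o (n 22 (n 21 o o) (n 23 o o))))) (n 40 (n 32 (n 28 (n 26 (n 25 o o) (n 27 o o)) (n 30
    (n 29 o o) (n 31 o o))) (n 36 (n 34 (n 33 o o) (n 35 o o)) (n 38 (n 37 o o) (n 39 o o)))) (n
    47 (n 44 (n 42 (n 41 o o) (n 43 o o)) (n 46 (n 45 o o) o)) (n 50 (n 49 (n 48 o o) o) o))))) (n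
    96 (n 69 (n 58 (n 54 (n 52 o (n 53 o o)) (n 56 (n 55 o o) o)) (n 62 (n 60 (n 59 o o) o) (n 65
    o (n 67 (n 66 o o) (n 68 o o))))) (n 85 (n 77 (n 73 (n 71 (n 70 o o) (n 72 o o)) (n 75 (n 74 o
    o) (n 76 o o))) (n 81 (n 79 (n 78 o o) (n 80 o o)) (n 83 (n 82 o o) (n 84 o o)))) (n 92 (n 89
    (n 87 (n 86 o o) (n 88 o o)) (n 91 (n 90 o o) o)) (n 95 (n 94 o o) o)))) (n 110 (n 103 (n 99
    (n 97 o o) (n 101 o (n 102 o o))) (n 108 (n 105 o (n 107 (n 106 o o) o)) (n 109 o o))) o))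

def t4 : QT :=
  n 57 (n 13 (n 1 o (n 4 (n 2 o o) (n 9 (n 7 (n 5 o (n 6 o o)) o) (n 11 o (n 12 o o))))) (n 36
    (n 21 (n 16 (n 14 o (n 15 o o)) (n 18 (n 17 o o) (n 19 o (n 20 o o)))) (n 28 (n 24 (n 22 o (n
    23 o o)) (n 26 (n 25 o o) (n 27 o o))) (n 32 (n 30 (n 29 o o) (n 31 o o)) (n 34 (n 33 o o) (n
    35 o o))))) (n 50 (n 44 (n 40 (n 38 (n 37 o o) (n 39 o o)) (n 42 (n 41 o o) (n 43 o o))) (n 48
    (n 46 (n 45 o o) (n 47 o o)) (n 49 o o))) (n 54 (n 52 o (n 53 o o)) (n 56 (n 55 o o) o))))) (n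
    101 (n 80 (n 65 (n 60 (n 58 o (n 59 o o)) (n 62 (n 61 o o) (n 63 o (n 64 o o)))) (n 72 (n 68
    (n 66 o (n 67 o o)) (n 70 (n 69 o o) (n 71 o o))) (n 76 (n 74 (n 73 o o) (n 75 o o)) (n 78 (n
    77 o o) (n 79 o o))))) (n 94 (n 88 (n 84 (n 82 (n 81 o o) (n 83 o o)) (n 86 (n 85 o o) (n 87 o
    o))) (n 92 (n 90 (n 89 o o) (n 91 o o)) (n 93 o o))) (n 98 (n 96 o (n 97 o o)) (n 100 (n 99 o
    o) o)))) (n 111 (n 108 (n 104 (n 102 o o) (n 106 o (n 107 o o))) (n 110 o o)) o))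

def t5 : QT :=
  n 51 (n 7 (n 1 o (n 2 o (n 3 o (n 5 o (n 6 o o))))) (n 24 (n 14 (n 10 (n 8 o (n 9 o o)) (n 12
    (n 11 o o) o)) (n 18 (n 16 (n 15 o o) o) (n 21 (n 19 o (n 20 o o)) (n 23 (n 22 o o) o)))) (n
    40 (n 32 (n 28 (n 26 (n 25 o o) (n 27 o o)) (n 30 (n 29 o o) (n 31 o o))) (n 36 (n 34 (n 33 o
    o) (n 35 o o)) (n 38 (n 37 o o) (n 39 o o)))) (n 47 (n 44 (n 42 (n 41 o o) (n 43 o o)) (n 46
    (n 45 o o) o)) (n 50 (n 49 (n 48 o o) o) o))))) (n 95 (n 68 (n 58 (n 54 (n 52 o (n 53 o o)) (n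
    56 (n 55 o o) o)) (n 62 (n 60 (n 59 o o) o) (n 65 o (n 67 (n 66 o o) o)))) (n 84 (n 76 (n 72
    (n 70 (n 69 o o) (n 71 o o)) (n 74 (n 73 o o) (n 75 o o))) (n 80 (n 78 (n 77 o o) (n 79 o o))
    (n 82 (n 81 o o) (n 83 o o)))) (n 91 (n 88 (n 86 (n 85 o o) (n 87 o o)) (n 90 (n 89 o o) o))
    (n 94 (n 93 (n 92 o o) o) o)))) (n 110 (n 103 (n 99 (n 97 (n 96 o o) o) (n 101 o (n 102 o o)))
    (n 107 (n 105 o (n 106 o o)) (n 109 (n 108 o o) o))) o))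

def t6 : QT :=
  n 52 (n 8 (n 1 o (n 2 o (n 4 o (n 6 o (n 7 o o))))) (n 27 (n 15 (n 11 (n 9 o (n 10 o o)) (n 13
    (n 12 o o) o)) (n 19 (n 17 (n 16 o o) o) (n 23 (n 21 (n 20 o o) (n 22 o o)) (n 25 (n 24 o o)
    (n 26 o o))))) (n 43 (n 35 (n 31 (n 29 (n 28 o o) (n 30 o o)) (n 33 (n 32 o o) (n 34 o o))) (n
    39 (n 37 (n 36 o o) (n 38 o o)) (n 41 (n 40 o o) (n 42 o o)))) (n 49 (n 47 (n 45 (n 44 o o) (n
    46 o o)) (n 48 o o)) (n 51 (n 50 o o) o))))) (n 97 (n 71 (n 59 (n 55 (n 53 o (n 54 o o)) (n 57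
    (n 56 o o) o)) (n 64 (n 61 (n 60 o o) o) (n 67 o (n 69 (n 68 o o) (n 70 o o))))) (n 88 (n 80
    (n 75 (n 73 (n 72 o o) (n 74 o o)) (n 77 (n 76 o o) (n 79 o o))) (n 84 (n 82 (n 81 o o) (n 83
    o o)) (n 86 (n 85 o o) (n 87 o o)))) (n 94 (n 92 (n 90 (n 89 o o) (n 91 o o)) (n 93 o o)) (n
    96 (n 95 o o) o)))) (n 110 (n 104 (n 100 (n 99 (n 98 o o) o) (n 102 o (n 103 o o))) (n 108 (n
    106 o (n 107 o o)) (n 109 o o))) o))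

def t7 : QT :=
  n 50 (n 5 o (n 23 (n 13 (n 9 (n 6 o (n 7 o (n 8 o o))) (n 11 (n 10 o o) o)) (n 17 (n 15 (n 14
    o o) o) (n 19 o (n 21 (n 20 o o) (n 22 o o))))) (n 39 (n 31 (n 27 (n 25 (n 24 o o) (n 26 o o))
    (n 29 (n 28 o o) (n 30 o o))) (n 35 (n 33 (n 32 o o) (n 34 o o)) (n 37 (n 36 o o) (n 38 o
    o)))) (n 46 (n 43 (n 41 (n 40 o o) (n 42 o o)) (n 45 (n 44 o o) o)) (n 49 (n 48 (n 47 o o) o)
    o))))) (n 95 (n 67 (n 57 (n 53 (n 51 o (n 52 o o)) (n 55 (n 54 o o) o)) (n 61 (n 59 (n 58 o o)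
    o) (n 64 o (n 66 (n 65 o o) o)))) (n 83 (n 75 (n 71 (n 69 (n 68 o o) (n 70 o o)) (n 73 (n 72 o
    o) (n 74 o o))) (n 79 (n 77 (n 76 o o) (n 78 o o)) (n 81 (n 80 o o) (n 82 o o)))) (n 91 (n 87
    (n 85 (n 84 o o) (n 86 o o)) (n 89 (n 88 o o) (n 90 o o))) (n 94 (n 93 (n 92 o o) o) o)))) (n
    110 (n 103 (n 99 (n 97 (n 96 o o) o) (n 101 o (n 102 o o))) (n 107 (n 105 o (n 106 o o)) (n
    109 (n 108 o o) o))) o))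

def t8 : QT :=
  n 63 (n 18 (n 3 o (n 11 (n 7 (n 4 o (n 5 o (n 6 o o))) (n 9 (n 8 o o) o)) (n 14 (n 13 (n 12 o
    o) o) (n 16 o (n 17 o o))))) (n 46 (n 31 (n 23 (n 19 o (n 21 (n 20 o o) (n 22 o o))) (n 27 (n
    25 (n 24 o o) (n 26 o o)) (n 29 (n 28 o o) (n 30 o o)))) (n 39 (n 35 (n 33 (n 32 o o) (n 34 o
    o)) (n 37 (n 36 o o) (n 38 o o))) (n 43 (n 41 (n 40 o o) (n 42 o o)) (n 45 (n 44 o o) o)))) (n
    55 (n 51 (n 49 (n 48 (n 47 o o) o) o) (n 53 o (n 54 o o))) (n 59 (n 57 o (n 58 o o)) (n 62 (n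
    61 (n 60 o o) o) o))))) (n 107 (n 90 (n 75 (n 68 (n 64 o (n 66 (n 65 o o) (n 67 o o))) (n 71
    (n 69 o (n 70 o o)) (n 73 (n 72 o o) (n 74 o o)))) (n 83 (n 79 (n 77 (n 76 o o) (n 78 o o)) (n
    81 (n 80 o o) (n 82 o o))) (n 87 (n 85 (n 84 o o) (n 86 o o)) (n 89 (n 88 o o) o)))) (n 99 (n
    95 (n 93 (n 91 o (n 92 o o)) o) (n 97 o (n 98 o o))) (n 103 (n 101 o (n 102 o o)) (n 106 (n
    105 (n 104 o o) o) o)))) o)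

def t9 : QT :=
  n 54 (n 10 (n 1 o (n 3 (n 2 o o) (n 7 (n 5 (n 4 o o) o) (n 9 o o)))) (n 30 (n 17 (n 13 (n 11 o
    (n 12 o o)) (n 15 (n 14 o o) o)) (n 22 (n 19 (n 18 o o) (n 20 o (n 21 o o))) (n 26 (n 24 (n 23
    o o) (n 25 o o)) (n 28 (n 27 o o) (n 29 o o))))) (n 46 (n 39 (n 35 (n 32 (n 31 o o) (n 33 o
    o)) (n 37 (n 36 o o) (n 38 o o))) (n 43 (n 41 (n 40 o o) (n 42 o o)) (n 45 (n 44 o o) o))) (n
    51 (n 49 (n 48 (n 47 o o) o) (n 50 o o)) (n 53 (n 52 o o) o))))) (n 99 (n 74 (n 61 (n 57 (n 55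
    o (n 56 o o)) (n 59 (n 58 o o) o)) (n 66 (n 63 (n 62 o o) o) (n 70 (n 68 (n 67 o o) (n 69 o
    o)) (n 72 (n 71 o o) (n 73 o o))))) (n 91 (n 83 (n 79 (n 76 (n 75 o o) (n 77 o o)) (n 81 (n 80
    o o) (n 82 o o))) (n 87 (n 85 (n 84 o o) (n 86 o o)) (n 89 (n 88 o o) (n 90 o o)))) (n 96 (n
    94 (n 93 (n 92 o o) o) (n 95 o o)) (n 98 (n 97 o o) o)))) (n 111 (n 108 (n 103 (n 101 (n 100 o
    o) o) (n 105 o (n 107 (n 106 o o) o))) (n 110 o o)) o))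

def t10 : QT :=
  n 49 (n 5 o (n 22 (n 13 (n 9 (n 6 o (n 7 o (n 8 o o))) (n 11 (n 10 o o) o)) (n 17 (n 15 (n 14
    o o) o) (n 19 o (n 21 (n 20 o o) o)))) (n 37 (n 29 (n 25 (n 23 o (n 24 o o)) (n 27 (n 26 o o)
    (n 28 o o))) (n 33 (n 31 (n 30 o o) (n 32 o o)) (n 35 (n 34 o o) (n 36 o o)))) (n 45 (n 41 (n
    39 (n 38 o o) (n 40 o o)) (n 43 (n 42 o o) (n 44 o o))) (n 48 (n 47 (n 46 o o) o) o))))) (n 94
    (n 66 (n 57 (n 53 (n 50 o (n 51 o (n 52 o o))) (n 55 (n 54 o o) o)) (n 61 (n 59 (n 58 o o) o)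
    (n 63 o (n 64 o (n 65 o o))))) (n 81 (n 73 (n 69 (n 67 o (n 68 o o)) (n 71 (n 70 o o) (n 72 o
    o))) (n 77 (n 75 (n 74 o o) (n 76 o o)) (n 79 (n 78 o o) (n 80 o o)))) (n 89 (n 85 (n 83 (n 82
    o o) (n 84 o o)) (n 87 (n 86 o o) (n 88 o o))) (n 93 (n 91 (n 90 o o) (n 92 o o)) o)))) (n 110
    (n 102 (n 98 (n 96 (n 95 o o) o) (n 100 o (n 101 o o))) (n 107 (n 104 o (n 106 (n 105 o o) o))
    (n 109 (n 108 o o) o))) o))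

def t11 : QT :=
  n 62 (n 17 (n 2 o (n 10 (n 5 (n 3 o (n 4 o o)) (n 8 (n 6 o (n 7 o o)) o)) (n 14 (n 12 (n 11 o
    o) o) (n 16 o o)))) (n 45 (n 29 (n 21 (n 18 o (n 19 o (n 20 o o))) (n 25 (n 23 (n 22 o o) (n
    24 o o)) (n 27 (n 26 o o) (n 28 o o)))) (n 37 (n 33 (n 31 (n 30 o o) (n 32 o o)) (n 35 (n 34 o
    o) (n 36 o o))) (n 41 (n 39 (n 38 o o) (n 40 o o)) (n 43 (n 42 o o) (n 44 o o))))) (n 55 (n 51
    (n 49 (n 47 (n 46 o o) (n 48 o o)) o) (n 53 o (n 54 o o))) (n 59 (n 57 o (n 58 o o)) (n 61 (n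
    60 o o) o))))) (n 107 (n 89 (n 73 (n 66 (n 63 o (n 64 o (n 65 o o))) (n 69 (n 67 o (n 68 o o))
    (n 71 (n 70 o o) (n 72 o o)))) (n 81 (n 77 (n 75 (n 74 o o) (n 76 o o)) (n 79 (n 78 o o) (n 80
    o o))) (n 85 (n 83 o (n 84 o o)) (n 87 (n 86 o o) (n 88 o o))))) (n 99 (n 95 (n 93 (n 91 (n 90
    o o) (n 92 o o)) o) (n 97 o (n 98 o o))) (n 103 (n 101 o (n 102 o o)) (n 106 (n 105 (n 104 o
    o) o) o)))) o)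

def t12 : QT :=
  n 59 (n 15 (n 2 o (n 8 (n 4 o (n 6 (n 5 o o) o)) (n 12 (n 10 (n 9 o o) o) (n 13 o (n 14 o
    o))))) (n 40 (n 24 (n 18 (n 16 o (n 17 o o)) (n 20 (n 19 o o) (n 22 (n 21 o o) (n 23 o o))))
    (n 32 (n 28 (n 26 (n 25 o o) (n 27 o o)) (n 30 (n 29 o o) (n 31 o o))) (n 36 (n 34 (n 33 o o)
    (n 35 o o)) (n 38 (n 37 o o) (n 39 o o))))) (n 52 (n 47 (n 44 (n 42 (n 41 o o) (n 43 o o)) o)
    (n 50 o (n 51 o o))) (n 56 (n 54 o (n 55 o o)) (n 58 (n 57 o o) o))))) (n 103 (n 84 (n 68 (n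
    62 (n 60 o (n 61 o o)) (n 64 (n 63 o o) (n 66 (n 65 o o) (n 67 o o)))) (n 76 (n 72 (n 70 (n 69
    o o) (n 71 o o)) (n 74 (n 73 o o) (n 75 o o))) (n 80 (n 78 (n 77 o o) (n 79 o o)) (n 82 (n 81
    o o) (n 83 o o))))) (n 96 (n 92 (n 88 (n 86 (n 85 o o) (n 87 o o)) (n 90 (n 89 o o) (n 91 o
    o))) (n 94 o (n 95 o o))) (n 100 (n 98 o (n 99 o o)) (n 102 (n 101 o o) o)))) (n 111 (n 109 (n
    106 (n 104 o o) (n 108 o o)) (n 110 o o)) o))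

def t13 : QT :=
  n 50 (n 6 o (n 24 (n 14 (n 10 (n 7 o (n 8 o (n 9 o o))) (n 12 (n 11 o o) o)) (n 18 (n 16 (n 15
    o o) o) (n 21 (n 19 o (n 20 o o)) (n 23 (n 22 o o) o)))) (n 39 (n 31 (n 27 (n 25 o (n 26 o o))
    (n 29 (n 28 o o) (n 30 o o))) (n 35 (n 33 (n 32 o o) (n 34 o o)) (n 37 (n 36 o o) (n 38 o
    o)))) (n 46 (n 43 (n 41 (n 40 o o) (n 42 o o)) (n 45 (n 44 o o) o)) (n 49 (n 48 (n 47 o o) o)
    o))))) (n 95 (n 67 (n 57 (n 53 (n 51 o (n 52 o o)) (n 55 (n 54 o o) o)) (n 61 (n 59 (n 58 o o)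
    o) (n 64 o (n 66 (n 65 o o) o)))) (n 83 (n 75 (n 71 (n 69 (n 68 o o) (n 70 o o)) (n 73 (n 72 o
    o) (n 74 o o))) (n 79 (n 77 (n 76 o o) (n 78 o o)) (n 81 (n 80 o o) (n 82 o o)))) (n 91 (n 87
    (n 85 (n 84 o o) (n 86 o o)) (n 89 (n 88 o o) (n 90 o o))) (n 94 (n 93 (n 92 o o) o) o)))) (n
    110 (n 103 (n 99 (n 97 (n 96 o o) o) (n 101 o (n 102 o o))) (n 108 (n 105 o (n 107 (n 106 o o)
    o)) o)) o))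

def t14 : QT :=
  n 55 (n 10 (n 1 o (n 3 (n 2 o o) (n 7 (n 5 (n 4 o o) o) (n 9 o o)))) (n 31 (n 17 (n 13 (n 11 o
    (n 12 o o)) (n 15 (n 14 o o) o)) (n 23 (n 19 (n 18 o o) (n 21 (n 20 o o) (n 22 o o))) (n 27 (n
    25 (n 24 o o) (n 26 o o)) (n 29 (n 28 o o) (n 30 o o))))) (n 47 (n 40 (n 36 (n 33 (n 32 o o)
    (n 34 o o)) (n 38 (n 37 o o) (n 39 o o))) (n 44 (n 42 (n 41 o o) (n 43 o o)) (n 46 (n 45 o o)
    o))) (n 52 (n 50 (n 49 (n 48 o o) o) (n 51 o o)) (n 54 (n 53 o o) o))))) (n 100 (n 77 (n 63 (n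
    58 (n 56 o (n 57 o o)) (n 60 (n 59 o o) o)) (n 69 (n 65 (n 64 o o) (n 67 (n 66 o o) (n 68 o
    o))) (n 73 (n 71 (n 70 o o) (n 72 o o)) (n 75 (n 74 o o) (n 76 o o))))) (n 93 (n 86 (n 82 (n
    80 (n 78 o (n 79 o o)) (n 81 o o)) (n 84 (n 83 o o) (n 85 o o))) (n 90 (n 88 (n 87 o o) (n 89
    o o)) (n 92 (n 91 o o) o))) (n 97 (n 95 o (n 96 o o)) (n 99 (n 98 o o) o)))) (n 111 (n 108 (n
    103 (n 101 o o) (n 105 o (n 107 (n 106 o o) o))) (n 110 o o)) o))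

def t15 : QT :=
  n 60 (n 15 (n 2 o (n 8 (n 4 o (n 6 (n 5 o o) o)) (n 12 (n 10 (n 9 o o) o) (n 13 o (n 14 o
    o))))) (n 42 (n 25 (n 18 (n 16 o (n 17 o o)) (n 21 (n 19 o (n 20 o o)) (n 23 (n 22 o o) (n 24
    o o)))) (n 33 (n 29 (n 27 (n 26 o o) (n 28 o o)) (n 31 (n 30 o o) (n 32 o o))) (n 38 (n 35 (n
    34 o o) (n 37 o o)) (n 40 (n 39 o o) (n 41 o o))))) (n 53 (n 49 (n 46 (n 44 (n 43 o o) (n 45 o
    o)) (n 48 (n 47 o o) o)) (n 51 o (n 52 o o))) (n 57 (n 55 o (n 56 o o)) (n 59 (n 58 o o)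
    o))))) (n 104 (n 86 (n 70 (n 63 (n 61 o (n 62 o o)) (n 66 (n 64 o (n 65 o o)) (n 68 (n 67 o o)
    (n 69 o o)))) (n 78 (n 74 (n 72 (n 71 o o) (n 73 o o)) (n 76 (n 75 o o) o)) (n 82 (n 80 (n 79
    o o) o) (n 84 (n 83 o o) (n 85 o o))))) (n 97 (n 93 (n 89 (n 87 o (n 88 o o)) (n 91 (n 90 o o)
    (n 92 o o))) (n 95 o (n 96 o o))) (n 101 (n 99 o (n 100 o o)) (n 103 (n 102 o o) o)))) (n 111
    (n 110 (n 108 (n 106 (n 105 o o) o) o) o) o))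

def t16 : QT :=
  n 50 (n 5 o (n 23 (n 13 (n 9 (n 6 o (n 7 o (n 8 o o))) (n 11 (n 10 o o) o)) (n 17 (n 15 (n 14
    o o) o) (n 19 o (n 21 (n 20 o o) (n 22 o o))))) (n 38 (n 30 (n 26 (n 24 o (n 25 o o)) (n 28 (n
    27 o o) (n 29 o o))) (n 34 (n 32 (n 31 o o) (n 33 o o)) (n 36 (n 35 o o) (n 37 o o)))) (n 46
    (n 42 (n 40 (n 39 o o) (n 41 o o)) (n 44 (n 43 o o) (n 45 o o))) (n 49 (n 48 (n 47 o o) o)
    o))))) (n 94 (n 66 (n 57 (n 53 (n 51 o (n 52 o o)) (n 55 (n 54 o o) o)) (n 61 (n 59 (n 58 o o)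
    o) (n 63 o (n 64 o (n 65 o o))))) (n 81 (n 73 (n 69 (n 67 o (n 68 o o)) (n 71 (n 70 o o) (n 72
    o o))) (n 77 (n 75 (n 74 o o) (n 76 o o)) (n 79 (n 78 o o) (n 80 o o)))) (n 89 (n 85 (n 83 (n
    82 o o) (n 84 o o)) (n 87 (n 86 o o) (n 88 o o))) (n 93 (n 91 (n 90 o o) (n 92 o o)) o)))) (n
    110 (n 102 (n 98 (n 96 (n 95 o o) o) (n 100 o (n 101 o o))) (n 107 (n 104 o (n 106 (n 105 o o)
    o)) (n 109 (n 108 o o) o))) o))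

def t17 : QT :=
  n 59 (n 14 (n 2 o (n 7 (n 3 o (n 5 (n 4 o o) o)) (n 11 (n 9 (n 8 o o) o) (n 13 o o)))) (n 39
    (n 23 (n 17 (n 15 o (n 16 o o)) (n 19 (n 18 o o) (n 21 (n 20 o o) (n 22 o o)))) (n 31 (n 27 (n
    25 (n 24 o o) (n 26 o o)) (n 29 (n 28 o o) o)) (n 35 (n 33 (n 32 o o) (n 34 o o)) (n 37 (n 36
    o o) (n 38 o o))))) (n 52 (n 47 (n 43 (n 41 (n 40 o o) (n 42 o o)) (n 45 (n 44 o o) (n 46 o
    o))) (n 50 o (n 51 o o))) (n 56 (n 54 o (n 55 o o)) (n 58 (n 57 o o) o))))) (n 103 (n 84 (n 68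
    (n 62 (n 60 o (n 61 o o)) (n 64 (n 63 o o) (n 66 (n 65 o o) (n 67 o o)))) (n 76 (n 72 (n 70 (n
    69 o o) (n 71 o o)) (n 74 (n 73 o o) (n 75 o o))) (n 80 (n 78 (n 77 o o) (n 79 o o)) (n 82 o
    (n 83 o o))))) (n 96 (n 92 (n 88 (n 86 (n 85 o o) (n 87 o o)) (n 90 (n 89 o o) (n 91 o o))) (n
    94 o (n 95 o o))) (n 100 (n 98 o (n 99 o o)) (n 102 (n 101 o o) o)))) (n 111 (n 109 (n 106 (n
    104 o o) (n 108 o o)) o) o))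

def t18 : QT :=
  n 52 (n 8 (n 1 o (n 2 o (n 4 o (n 6 o (n 7 o o))))) (n 26 (n 15 (n 11 (n 9 o (n 10 o o)) (n 13
    (n 12 o o) o)) (n 19 (n 17 (n 16 o o) o) (n 22 (n 20 o (n 21 o o)) (n 24 (n 23 o o) (n 25 o
    o))))) (n 42 (n 34 (n 30 (n 28 (n 27 o o) (n 29 o o)) (n 32 (n 31 o o) (n 33 o o))) (n 38 (n
    36 o (n 37 o o)) (n 40 (n 39 o o) (n 41 o o)))) (n 49 (n 46 (n 44 (n 43 o o) (n 45 o o)) (n 48
    (n 47 o o) o)) (n 51 (n 50 o o) o))))) (n 97 (n 71 (n 60 (n 56 (n 53 o (n 54 o (n 55 o o))) (n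
    58 (n 57 o o) o)) (n 64 (n 62 (n 61 o o) o) (n 67 o (n 69 (n 68 o o) (n 70 o o))))) (n 88 (n
    80 (n 75 (n 73 (n 72 o o) (n 74 o o)) (n 77 (n 76 o o) (n 79 o o))) (n 84 (n 82 (n 81 o o) (n
    83 o o)) (n 86 (n 85 o o) (n 87 o o)))) (n 94 (n 92 (n 90 (n 89 o o) o) (n 93 o o)) (n 96 (n
    95 o o) o)))) (n 110 (n 104 (n 100 (n 99 (n 98 o o) o) (n 102 o (n 103 o o))) (n 108 (n 106 o
    (n 107 o o)) o)) o))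

def t19 : QT :=
  n 50 (n 6 o (n 24 (n 14 (n 10 (n 7 o (n 8 o (n 9 o o))) (n 12 (n 11 o o) o)) (n 18 (n 16 (n 15
    o o) o) (n 21 (n 19 o (n 20 o o)) (n 23 (n 22 o o) o)))) (n 39 (n 31 (n 27 (n 25 o (n 26 o o))
    (n 29 (n 28 o o) o)) (n 35 (n 33 (n 32 o o) (n 34 o o)) (n 37 (n 36 o o) (n 38 o o)))) (n 46
    (n 43 (n 41 (n 40 o o) (n 42 o o)) (n 45 (n 44 o o) o)) (n 49 (n 48 (n 47 o o) o) o))))) (n 95
    (n 67 (n 57 (n 53 (n 51 o (n 52 o o)) (n 55 (n 54 o o) o)) (n 61 (n 59 (n 58 o o) o) (n 64 o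
    (n 66 (n 65 o o) o)))) (n 83 (n 75 (n 71 (n 69 (n 68 o o) (n 70 o o)) (n 73 (n 72 o o) (n 74 o
    o))) (n 79 (n 77 (n 76 o o) (n 78 o o)) (n 81 (n 80 o o) (n 82 o o)))) (n 91 (n 87 (n 85 (n 84
    o o) (n 86 o o)) (n 89 (n 88 o o) (n 90 o o))) (n 94 (n 93 (n 92 o o) o) o)))) (n 110 (n 103
    (n 99 (n 97 (n 96 o o) o) (n 101 o (n 102 o o))) (n 107 (n 105 o (n 106 o o)) (n 109 (n 108 o
    o) o))) o))

def t20 : QT :=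
  n 55 (n 11 (n 1 o (n 4 (n 2 o o) (n 8 (n 6 (n 5 o o) o) (n 10 o o)))) (n 32 (n 18 (n 14 (n 12
    o (n 13 o o)) (n 16 (n 15 o o) o)) (n 24 (n 20 (n 19 o o) (n 22 o (n 23 o o))) (n 28 (n 26 (n
    25 o o) (n 27 o o)) (n 30 (n 29 o o) (n 31 o o))))) (n 47 (n 40 (n 36 (n 34 (n 33 o o) o) (n
    38 (n 37 o o) (n 39 o o))) (n 44 (n 42 (n 41 o o) (n 43 o o)) (n 46 (n 45 o o) o))) (n 52 (n
    50 o (n 51 o o)) (n 54 (n 53 o o) o))))) (n 100 (n 77 (n 63 (n 58 (n 56 o (n 57 o o)) (n 60 (n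
    59 o o) o)) (n 69 (n 65 (n 64 o o) (n 67 (n 66 o o) (n 68 o o))) (n 73 (n 71 (n 70 o o) (n 72
    o o)) (n 75 (n 74 o o) (n 76 o o))))) (n 92 (n 85 (n 81 (n 79 (n 78 o o) (n 80 o o)) (n 83 o
    (n 84 o o))) (n 89 (n 87 (n 86 o o) (n 88 o o)) (n 91 (n 90 o o) o))) (n 97 (n 95 (n 94 (n 93
    o o) o) (n 96 o o)) (n 99 (n 98 o o) o)))) (n 111 (n 108 (n 103 (n 101 o o) (n 105 o (n 107 (n
    106 o o) o))) (n 110 o o)) o))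

def t21 : QT :=
  n 63 (n 18 (n 2 o (n 10 (n 5 (n 3 o (n 4 o o)) (n 8 (n 6 o (n 7 o o)) o)) (n 14 (n 12 (n 11 o
    o) o) (n 16 o (n 17 o o))))) (n 46 (n 31 (n 23 (n 19 o (n 21 (n 20 o o) (n 22 o o))) (n 27 (n
    25 (n 24 o o) (n 26 o o)) (n 29 (n 28 o o) (n 30 o o)))) (n 39 (n 35 (n 33 (n 32 o o) (n 34 o
    o)) (n 37 (n 36 o o) (n 38 o o))) (n 43 (n 41 (n 40 o o) (n 42 o o)) (n 45 (n 44 o o) o)))) (n
    55 (n 51 (n 49 (n 48 (n 47 o o) o) o) (n 53 o (n 54 o o))) (n 59 (n 57 o (n 58 o o)) (n 62 (n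
    61 (n 60 o o) o) o))))) (n 107 (n 90 (n 75 (n 68 (n 64 o (n 66 (n 65 o o) (n 67 o o))) (n 71
    (n 69 o (n 70 o o)) (n 73 (n 72 o o) (n 74 o o)))) (n 83 (n 79 (n 77 (n 76 o o) (n 78 o o)) (n
    81 (n 80 o o) (n 82 o o))) (n 87 (n 85 (n 84 o o) (n 86 o o)) (n 89 (n 88 o o) o)))) (n 99 (n
    95 (n 93 (n 91 o (n 92 o o)) o) (n 97 o (n 98 o o))) (n 103 (n 101 o (n 102 o o)) (n 106 (n
    105 (n 104 o o) o) o)))) o)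

def t22 : QT :=
  n 62 (n 17 (n 2 o (n 10 (n 5 (n 3 o (n 4 o o)) (n 8 (n 6 o (n 7 o o)) o)) (n 14 (n 12 (n 11 o
    o) o) (n 16 o o)))) (n 44 (n 28 (n 21 (n 18 o (n 19 o (n 20 o o))) (n 24 (n 22 o (n 23 o o))
    (n 26 (n 25 o o) (n 27 o o)))) (n 36 (n 32 (n 30 (n 29 o o) (n 31 o o)) (n 34 (n 33 o o) (n 35
    o o))) (n 40 (n 38 (n 37 o o) (n 39 o o)) (n 42 (n 41 o o) (n 43 o o))))) (n 54 (n 50 (n 48 (n
    46 (n 45 o o) (n 47 o o)) o) (n 52 o (n 53 o o))) (n 58 (n 56 o (n 57 o o)) (n 61 (n 60 (n 59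
    o o) o) o))))) (n 107 (n 89 (n 74 (n 66 (n 63 o (n 64 o (n 65 o o))) (n 70 (n 68 (n 67 o o) (n
    69 o o)) (n 72 (n 71 o o) (n 73 o o)))) (n 82 (n 78 (n 76 (n 75 o o) (n 77 o o)) (n 80 (n 79 o
    o) o)) (n 86 (n 84 (n 83 o o) (n 85 o o)) (n 88 (n 87 o o) o)))) (n 99 (n 95 (n 93 (n 91 (n 90
    o o) (n 92 o o)) o) (n 97 o (n 98 o o))) (n 103 (n 101 o (n 102 o o)) (n 106 (n 105 (n 104 o
    o) o) o)))) o)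

def t23 : QT :=
  n 56 (n 12 (n 1 o (n 4 (n 2 o o) (n 8 (n 6 (n 5 o o) o) (n 10 o (n 11 o o))))) (n 34 (n 19 (n
    15 (n 13 o (n 14 o o)) (n 17 (n 16 o o) o)) (n 26 (n 22 (n 20 o (n 21 o o)) (n 24 (n 23 o o)
    (n 25 o o))) (n 30 (n 28 (n 27 o o) (n 29 o o)) (n 32 (n 31 o o) (n 33 o o))))) (n 48 (n 42 (n
    38 (n 36 (n 35 o o) (n 37 o o)) (n 40 (n 39 o o) (n 41 o o))) (n 45 o (n 47 (n 46 o o) o))) (n
    53 (n 51 o (n 52 o o)) (n 55 (n 54 o o) o))))) (n 100 (n 78 (n 64 (n 59 (n 57 o (n 58 o o)) (n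
    61 (n 60 o o) o)) (n 70 (n 67 (n 65 o (n 66 o o)) o) (n 74 (n 72 (n 71 o o) (n 73 o o)) (n 76
    (n 75 o o) (n 77 o o))))) (n 93 (n 86 (n 82 (n 80 (n 79 o o) (n 81 o o)) (n 84 (n 83 o o) (n
    85 o o))) (n 90 (n 88 (n 87 o o) (n 89 o o)) (n 92 (n 91 o o) o))) (n 97 (n 95 o (n 96 o o))
    (n 99 (n 98 o o) o)))) (n 111 (n 108 (n 104 (n 102 (n 101 o o) o) (n 106 o (n 107 o o))) (n
    110 o o)) o))

def t24 : QT :=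
  n 51 (n 7 (n 1 o (n 2 o (n 3 o (n 5 o (n 6 o o))))) (n 24 (n 14 (n 10 (n 8 o (n 9 o o)) (n 12
    (n 11 o o) o)) (n 18 (n 16 (n 15 o o) o) (n 21 (n 19 o (n 20 o o)) (n 23 (n 22 o o) o)))) (n
    40 (n 32 (n 28 (n 26 (n 25 o o) (n 27 o o)) (n 30 o (n 31 o o))) (n 36 (n 34 (n 33 o o) (n 35
    o o)) (n 38 (n 37 o o) (n 39 o o)))) (n 47 (n 44 (n 42 (n 41 o o) (n 43 o o)) (n 46 (n 45 o o)
    o)) (n 50 (n 49 (n 48 o o) o) o))))) (n 96 (n 69 (n 58 (n 54 (n 52 o (n 53 o o)) (n 56 (n 55 o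
    o) o)) (n 62 (n 60 (n 59 o o) o) (n 65 (n 63 o (n 64 o o)) (n 67 (n 66 o o) (n 68 o o))))) (n
    85 (n 77 (n 73 (n 71 (n 70 o o) (n 72 o o)) (n 75 (n 74 o o) (n 76 o o))) (n 81 (n 79 (n 78 o
    o) (n 80 o o)) (n 83 (n 82 o o) (n 84 o o)))) (n 92 (n 89 (n 87 (n 86 o o) (n 88 o o)) (n 91
    (n 90 o o) o)) (n 95 (n 94 o o) o)))) (n 110 (n 103 (n 99 (n 97 o o) (n 101 o (n 102 o o))) (n
    107 (n 105 o (n 106 o o)) (n 109 (n 108 o o) o))) o))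

def t25 : QT :=
  n 54 (n 10 (n 1 o (n 3 o (n 7 (n 5 (n 4 o o) o) (n 9 o o)))) (n 30 (n 17 (n 13 (n 11 o (n 12 o
    o)) (n 15 (n 14 o o) o)) (n 22 (n 19 (n 18 o o) (n 20 o (n 21 o o))) (n 26 (n 24 (n 23 o o) (n
    25 o o)) (n 28 (n 27 o o) (n 29 o o))))) (n 46 (n 39 (n 35 (n 32 (n 31 o o) (n 33 o o)) (n 37
    (n 36 o o) (n 38 o o))) (n 43 (n 41 (n 40 o o) (n 42 o o)) (n 45 (n 44 o o) o))) (n 51 (n 49
    (n 48 (n 47 o o) o) (n 50 o o)) (n 53 (n 52 o o) o))))) (n 99 (n 75 (n 62 (n 58 (n 55 o (n 57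
    (n 56 o o) o)) (n 60 (n 59 o o) o)) (n 67 (n 64 (n 63 o o) o) (n 71 (n 69 (n 68 o o) (n 70 o
    o)) (n 73 (n 72 o o) (n 74 o o))))) (n 91 (n 84 (n 80 (n 77 (n 76 o o) (n 78 o o)) (n 82 (n 81
    o o) (n 83 o o))) (n 88 (n 86 (n 85 o o) (n 87 o o)) (n 90 (n 89 o o) o))) (n 96 (n 94 (n 93
    (n 92 o o) o) (n 95 o o)) (n 98 (n 97 o o) o)))) (n 111 (n 108 (n 103 (n 101 (n 100 o o) o) (n
    105 o (n 107 (n 106 o o) o))) (n 110 o o)) o))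

def t26 : QT :=
  n 56 (n 12 (n 1 o (n 4 (n 2 o o) (n 9 (n 7 (n 5 o (n 6 o o)) o) (n 11 o o)))) (n 34 (n 19 (n
    15 (n 13 o (n 14 o o)) (n 17 (n 16 o o) o)) (n 26 (n 22 (n 20 o (n 21 o o)) (n 24 (n 23 o o)
    (n 25 o o))) (n 30 (n 28 (n 27 o o) (n 29 o o)) (n 32 (n 31 o o) (n 33 o o))))) (n 48 (n 42 (n
    38 (n 36 (n 35 o o) (n 37 o o)) (n 40 (n 39 o o) (n 41 o o))) (n 45 o (n 47 (n 46 o o) o))) (n
    53 (n 51 o (n 52 o o)) (n 55 (n 54 o o) o))))) (n 101 (n 80 (n 64 (n 59 (n 57 o (n 58 o o)) (n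
    61 (n 60 o o) o)) (n 71 (n 67 (n 65 o (n 66 o o)) (n 69 (n 68 o o) (n 70 o o))) (n 75 (n 73 (n
    72 o o) (n 74 o o)) (n 78 (n 77 o o) (n 79 o o))))) (n 94 (n 88 (n 84 (n 82 (n 81 o o) (n 83 o
    o)) (n 86 (n 85 o o) (n 87 o o))) (n 92 (n 90 (n 89 o o) (n 91 o o)) (n 93 o o))) (n 98 (n 96
    o (n 97 o o)) (n 100 (n 99 o o) o)))) (n 111 (n 108 (n 104 (n 102 o o) (n 106 o (n 107 o o)))
    (n 110 o o)) o))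

def t27 : QT :=
  n 60 (n 16 (n 2 o (n 9 (n 5 (n 3 o (n 4 o o)) (n 7 (n 6 o o) o)) (n 13 (n 11 (n 10 o o) o) (n
    15 o o)))) (n 43 (n 27 (n 20 (n 17 o (n 18 o o)) (n 23 (n 21 o (n 22 o o)) (n 25 (n 24 o o) (n
    26 o o)))) (n 35 (n 31 (n 29 (n 28 o o) (n 30 o o)) (n 33 (n 32 o o) (n 34 o o))) (n 39 (n 37
    (n 36 o o) (n 38 o o)) (n 41 (n 40 o o) (n 42 o o))))) (n 53 (n 49 (n 47 (n 45 (n 44 o o) (n
    46 o o)) o) (n 51 o (n 52 o o))) (n 57 (n 55 o (n 56 o o)) (n 59 (n 58 o o) o))))) (n 104 (n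
    86 (n 70 (n 63 (n 61 o (n 62 o o)) (n 66 (n 64 o (n 65 o o)) (n 68 (n 67 o o) (n 69 o o)))) (n
    78 (n 74 (n 72 (n 71 o o) (n 73 o o)) (n 76 (n 75 o o) o)) (n 82 (n 80 (n 79 o o) o) (n 84 (n
    83 o o) (n 85 o o))))) (n 97 (n 93 (n 90 (n 88 (n 87 o o) (n 89 o o)) (n 92 (n 91 o o) o)) (n
    95 o (n 96 o o))) (n 101 (n 99 o (n 100 o o)) (n 103 (n 102 o o) o)))) (n 111 (n 110 (n 108 (n
    106 (n 105 o o) o) o) o) o))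

def t28 : QT :=
  n 52 (n 8 (n 1 o (n 2 o (n 4 o (n 6 o (n 7 o o))))) (n 26 (n 15 (n 11 (n 9 o (n 10 o o)) (n 13
    (n 12 o o) o)) (n 19 (n 17 (n 16 o o) o) (n 23 (n 21 (n 20 o o) (n 22 o o)) (n 25 (n 24 o o)
    o)))) (n 42 (n 34 (n 30 (n 28 (n 27 o o) o) (n 32 (n 31 o o) (n 33 o o))) (n 38 (n 36 (n 35 o
    o) (n 37 o o)) (n 40 (n 39 o o) (n 41 o o)))) (n 49 (n 46 (n 44 (n 43 o o) (n 45 o o)) (n 48
    (n 47 o o) o)) (n 51 (n 50 o o) o))))) (n 97 (n 71 (n 60 (n 56 (n 53 o (n 54 o (n 55 o o))) (n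
    58 (n 57 o o) o)) (n 64 (n 62 (n 61 o o) o) (n 67 o (n 69 (n 68 o o) (n 70 o o))))) (n 88 (n
    80 (n 75 (n 73 (n 72 o o) (n 74 o o)) o) (n 84 (n 82 (n 81 o o) (n 83 o o)) (n 86 (n 85 o o)
    (n 87 o o)))) (n 94 (n 92 (n 90 (n 89 o o) (n 91 o o)) (n 93 o o)) (n 96 (n 95 o o) o)))) (n
    110 (n 104 (n 100 (n 99 (n 98 o o) o) (n 102 o (n 103 o o))) (n 108 (n 106 o (n 107 o o)) o))
    o))

def t29 : QT :=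
  n 57 (n 13 (n 1 o (n 4 (n 2 o o) (n 9 (n 7 (n 5 o (n 6 o o)) o) (n 11 o (n 12 o o))))) (n 36
    (n 21 (n 16 (n 14 o (n 15 o o)) (n 18 (n 17 o o) (n 19 o (n 20 o o)))) (n 28 (n 24 (n 22 o (n
    23 o o)) (n 26 (n 25 o o) (n 27 o o))) (n 32 (n 30 o (n 31 o o)) (n 34 (n 33 o o) (n 35 o
    o))))) (n 50 (n 44 (n 40 (n 38 (n 37 o o) (n 39 o o)) (n 42 (n 41 o o) (n 43 o o))) (n 48 (n
    46 (n 45 o o) (n 47 o o)) (n 49 o o))) (n 54 (n 52 o (n 53 o o)) (n 56 (n 55 o o) o))))) (n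
    101 (n 80 (n 65 (n 60 (n 58 o (n 59 o o)) (n 62 (n 61 o o) o)) (n 72 (n 68 (n 66 o (n 67 o o))
    (n 70 (n 69 o o) (n 71 o o))) (n 76 (n 74 (n 73 o o) (n 75 o o)) (n 78 o (n 79 o o))))) (n 94
    (n 88 (n 84 (n 82 (n 81 o o) (n 83 o o)) (n 86 (n 85 o o) (n 87 o o))) (n 92 (n 90 (n 89 o o)
    o) (n 93 o o))) (n 98 (n 96 o (n 97 o o)) (n 100 (n 99 o o) o)))) (n 111 (n 108 (n 104 (n 102
    o o) (n 106 o (n 107 o o))) (n 110 o o)) o))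

def t30 : QT :=
  n 51 (n 7 o (n 24 (n 14 (n 10 (n 8 o (n 9 o o)) (n 12 (n 11 o o) o)) (n 18 (n 16 (n 15 o o) o)
    (n 20 o (n 22 (n 21 o o) (n 23 o o))))) (n 40 (n 32 (n 28 (n 26 (n 25 o o) (n 27 o o)) (n 30 o
    (n 31 o o))) (n 36 (n 34 (n 33 o o) (n 35 o o)) (n 38 (n 37 o o) (n 39 o o)))) (n 47 (n 44 (n
    42 (n 41 o o) (n 43 o o)) (n 46 (n 45 o o) o)) (n 50 (n 49 (n 48 o o) o) o))))) (n 95 (n 68 (n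
    58 (n 54 (n 52 o (n 53 o o)) (n 56 (n 55 o o) o)) (n 62 (n 60 (n 59 o o) o) (n 65 (n 63 o (n
    64 o o)) (n 67 (n 66 o o) o)))) (n 84 (n 76 (n 72 (n 70 (n 69 o o) (n 71 o o)) (n 74 (n 73 o
    o) (n 75 o o))) (n 80 (n 78 (n 77 o o) (n 79 o o)) (n 82 o (n 83 o o)))) (n 91 (n 88 (n 86 (n
    85 o o) (n 87 o o)) (n 90 (n 89 o o) o)) (n 94 (n 93 (n 92 o o) o) o)))) (n 110 (n 103 (n 99
    (n 97 (n 96 o o) o) (n 101 o (n 102 o o))) (n 107 (n 105 o (n 106 o o)) (n 109 (n 108 o o)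
    o))) o))

def t31 : QT :=
  n 61 (n 16 (n 2 o (n 9 (n 5 (n 3 o (n 4 o o)) (n 7 (n 6 o o) o)) (n 13 (n 11 (n 10 o o) o) (n
    15 o o)))) (n 43 (n 27 (n 20 (n 17 o (n 18 o o)) (n 23 (n 21 o (n 22 o o)) (n 25 (n 24 o o) (n
    26 o o)))) (n 35 (n 31 (n 29 (n 28 o o) (n 30 o o)) (n 33 (n 32 o o) (n 34 o o))) (n 39 (n 37
    (n 36 o o) (n 38 o o)) (n 41 (n 40 o o) (n 42 o o))))) (n 54 (n 50 (n 47 (n 45 (n 44 o o) (n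
    46 o o)) o) (n 52 o (n 53 o o))) (n 58 (n 56 o (n 57 o o)) (n 60 (n 59 o o) o))))) (n 105 (n
    87 (n 71 (n 65 (n 62 o (n 63 o (n 64 o o))) (n 68 (n 66 o (n 67 o o)) o)) (n 79 (n 75 (n 73 (n
    72 o o) (n 74 o o)) (n 77 (n 76 o o) (n 78 o o))) (n 83 (n 81 (n 80 o o) (n 82 o o)) (n 85 (n
    84 o o) (n 86 o o))))) (n 97 (n 93 (n 90 (n 88 o (n 89 o o)) (n 92 (n 91 o o) o)) (n 95 o (n
    96 o o))) (n 101 (n 99 o (n 100 o o)) (n 104 (n 103 (n 102 o o) o) o)))) (n 111 (n 110 (n 109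
    (n 107 (n 106 o o) o) o) o) o))

def t32 : QT :=
  n 60 (n 15 (n 2 o (n 8 (n 4 (n 3 o o) (n 6 (n 5 o o) o)) (n 12 (n 10 (n 9 o o) o) (n 13 o (n
    14 o o))))) (n 41 (n 24 (n 18 (n 16 o (n 17 o o)) (n 20 (n 19 o o) (n 22 (n 21 o o) (n 23 o
    o)))) (n 32 (n 28 (n 26 (n 25 o o) (n 27 o o)) (n 30 (n 29 o o) (n 31 o o))) (n 37 o (n 39 (n
    38 o o) (n 40 o o))))) (n 52 (n 48 (n 45 (n 43 (n 42 o o) (n 44 o o)) o) (n 50 o (n 51 o o)))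
    (n 56 (n 54 o (n 55 o o)) (n 59 (n 58 (n 57 o o) o) o))))) (n 104 (n 86 (n 70 (n 63 (n 61 o (n
    62 o o)) (n 66 (n 64 o (n 65 o o)) (n 68 (n 67 o o) (n 69 o o)))) (n 78 (n 74 (n 72 (n 71 o o)
    (n 73 o o)) (n 76 (n 75 o o) o)) (n 82 (n 80 (n 79 o o) (n 81 o o)) (n 84 (n 83 o o) (n 85 o
    o))))) (n 97 (n 93 (n 89 (n 87 o (n 88 o o)) (n 91 (n 90 o o) (n 92 o o))) (n 95 o (n 96 o
    o))) (n 101 (n 99 o (n 100 o o)) (n 103 (n 102 o o) o)))) (n 111 (n 110 (n 108 (n 106 (n 105 o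
    o) o) o) o) o))

def t33 : QT :=
  n 61 (n 16 (n 2 o (n 9 (n 5 (n 3 o (n 4 o o)) (n 7 (n 6 o o) o)) (n 13 (n 11 (n 10 o o) o) (n
    15 o o)))) (n 43 (n 27 (n 20 (n 17 o (n 18 o o)) (n 23 (n 21 o (n 22 o o)) (n 25 (n 24 o o) (n
    26 o o)))) (n 35 (n 31 (n 29 (n 28 o o) (n 30 o o)) (n 33 (n 32 o o) (n 34 o o))) (n 39 (n 37
    (n 36 o o) (n 38 o o)) (n 41 (n 40 o o) (n 42 o o))))) (n 54 (n 50 (n 47 (n 45 (n 44 o o) (n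
    46 o o)) o) (n 52 o (n 53 o o))) (n 58 (n 56 o (n 57 o o)) (n 60 (n 59 o o) o))))) (n 105 (n
    87 (n 71 (n 65 (n 62 o (n 63 o (n 64 o o))) (n 68 (n 66 o (n 67 o o)) o)) (n 79 (n 75 (n 73 (n
    72 o o) (n 74 o o)) (n 77 (n 76 o o) (n 78 o o))) (n 83 (n 81 (n 80 o o) (n 82 o o)) (n 85 (n
    84 o o) (n 86 o o))))) (n 97 (n 93 (n 90 (n 88 o (n 89 o o)) (n 92 (n 91 o o) o)) (n 95 o (n
    96 o o))) (n 101 (n 99 o (n 100 o o)) (n 104 (n 103 (n 102 o o) o) o)))) o)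

def t34 : QT :=
  n 56 (n 11 (n 1 o (n 4 (n 2 o o) (n 8 (n 6 (n 5 o o) o) (n 10 o o)))) (n 32 (n 18 (n 14 (n 12
    o (n 13 o o)) (n 16 (n 15 o o) o)) (n 24 (n 20 (n 19 o o) (n 22 (n 21 o o) (n 23 o o))) (n 28
    (n 26 (n 25 o o) (n 27 o o)) (n 30 (n 29 o o) (n 31 o o))))) (n 48 (n 41 (n 37 (n 34 (n 33 o
    o) (n 35 o o)) (n 39 (n 38 o o) (n 40 o o))) (n 45 (n 43 (n 42 o o) (n 44 o o)) (n 47 (n 46 o
    o) o))) (n 53 (n 51 o (n 52 o o)) (n 55 (n 54 o o) o))))) (n 100 (n 78 (n 64 (n 59 (n 57 o (n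
    58 o o)) (n 61 (n 60 o o) o)) (n 70 (n 67 (n 65 o (n 66 o o)) o) (n 74 (n 72 (n 71 o o) (n 73
    o o)) (n 76 (n 75 o o) (n 77 o o))))) (n 93 (n 86 (n 82 (n 80 (n 79 o o) (n 81 o o)) (n 84 (n
    83 o o) (n 85 o o))) (n 90 (n 88 (n 87 o o) (n 89 o o)) (n 92 (n 91 o o) o))) (n 97 (n 95 o (n
    96 o o)) (n 99 (n 98 o o) o)))) (n 111 (n 108 (n 103 (n 101 o o) (n 105 o (n 107 (n 106 o o)
    o))) (n 110 o o)) o))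

def t35 : QT :=
  n 57 (n 12 (n 1 o (n 4 (n 2 o o) (n 9 (n 7 (n 5 o (n 6 o o)) o) (n 11 o o)))) (n 35 (n 20 (n
    15 (n 13 o (n 14 o o)) (n 17 (n 16 o o) (n 18 o (n 19 o o)))) (n 27 (n 23 (n 21 o (n 22 o o))
    (n 25 (n 24 o o) (n 26 o o))) (n 31 (n 29 (n 28 o o) o) (n 33 (n 32 o o) (n 34 o o))))) (n 49
    (n 43 (n 39 (n 37 (n 36 o o) (n 38 o o)) (n 41 (n 40 o o) (n 42 o o))) (n 47 (n 45 (n 44 o o)
    (n 46 o o)) (n 48 o o))) (n 54 (n 52 o (n 53 o o)) (n 56 (n 55 o o) o))))) (n 102 (n 81 (n 65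
    (n 60 (n 58 o (n 59 o o)) (n 62 (n 61 o o) o)) (n 72 (n 68 (n 66 o (n 67 o o)) (n 70 (n 69 o
    o) (n 71 o o))) (n 76 (n 74 (n 73 o o) (n 75 o o)) (n 79 (n 78 o o) (n 80 o o))))) (n 95 (n 89
    (n 85 (n 83 (n 82 o o) (n 84 o o)) (n 87 (n 86 o o) (n 88 o o))) (n 93 (n 91 (n 90 o o) (n 92
    o o)) (n 94 o o))) (n 99 (n 97 o (n 98 o o)) (n 101 (n 100 o o) o)))) (n 111 (n 109 (n 105 (n
    103 o o) (n 107 o (n 108 o o))) o) o))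

def t36 : QT :=
  n 53 (n 9 (n 1 o (n 3 (n 2 o o) (n 6 (n 4 o o) (n 8 o o)))) (n 28 (n 16 (n 12 (n 10 o (n 11 o
    o)) (n 14 (n 13 o o) o)) (n 20 (n 18 (n 17 o o) o) (n 24 (n 22 (n 21 o o) (n 23 o o)) (n 26 (n
    25 o o) (n 27 o o))))) (n 44 (n 36 (n 32 (n 30 (n 29 o o) (n 31 o o)) (n 34 (n 33 o o) (n 35 o
    o))) (n 40 (n 38 (n 37 o o) (n 39 o o)) (n 42 (n 41 o o) (n 43 o o)))) (n 50 (n 48 (n 46 (n 45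
    o o) (n 47 o o)) (n 49 o o)) (n 52 (n 51 o o) o))))) (n 98 (n 73 (n 60 (n 56 (n 54 o (n 55 o
    o)) (n 58 (n 57 o o) o)) (n 65 (n 62 (n 61 o o) o) (n 69 (n 67 (n 66 o o) (n 68 o o)) (n 71 (n
    70 o o) (n 72 o o))))) (n 90 (n 82 (n 77 (n 75 (n 74 o o) (n 76 o o)) (n 80 (n 78 o o) o)) (n
    86 (n 84 (n 83 o o) (n 85 o o)) (n 88 (n 87 o o) (n 89 o o)))) (n 95 (n 93 (n 92 (n 91 o o) o)
    (n 94 o o)) (n 97 (n 96 o o) o)))) (n 110 (n 105 (n 101 (n 99 o o) (n 103 o (n 104 o o))) (n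
    109 (n 107 o (n 108 o o)) o)) o))

def t37 : QT :=
  n 56 (n 11 (n 1 o (n 4 (n 2 o o) (n 8 (n 6 (n 5 o o) o) (n 10 o o)))) (n 33 (n 18 (n 14 (n 12
    o (n 13 o o)) (n 16 (n 15 o o) o)) (n 25 (n 21 (n 19 o (n 20 o o)) (n 23 (n 22 o o) (n 24 o
    o))) (n 29 (n 27 (n 26 o o) (n 28 o o)) (n 31 o (n 32 o o))))) (n 48 (n 41 (n 37 (n 35 (n 34 o
    o) (n 36 o o)) (n 39 (n 38 o o) (n 40 o o))) (n 45 (n 43 (n 42 o o) (n 44 o o)) (n 47 (n 46 o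
    o) o))) (n 53 (n 51 o (n 52 o o)) (n 55 (n 54 o o) o))))) (n 100 (n 78 (n 64 (n 59 (n 57 o (n
    58 o o)) (n 61 (n 60 o o) o)) (n 70 (n 67 (n 65 o (n 66 o o)) o) (n 74 (n 72 (n 71 o o) (n 73
    o o)) (n 76 (n 75 o o) (n 77 o o))))) (n 93 (n 86 (n 82 (n 80 (n 79 o o) (n 81 o o)) (n 84 (n
    83 o o) (n 85 o o))) (n 90 (n 88 (n 87 o o) (n 89 o o)) (n 92 (n 91 o o) o))) (n 97 (n 95 o (n
    96 o o)) (n 99 (n 98 o o) o)))) (n 111 (n 108 (n 103 (n 101 o o) (n 105 o (n 107 (n 106 o o)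
    o))) (n 110 o o)) o))

def t38 : QT :=
  n 53 (n 9 (n 1 o (n 3 (n 2 o o) (n 6 (n 4 o o) (n 8 o o)))) (n 28 (n 16 (n 12 (n 10 o (n 11 o
    o)) (n 14 (n 13 o o) o)) (n 20 (n 18 (n 17 o o) o) (n 24 (n 22 o (n 23 o o)) (n 26 (n 25 o o)
    (n 27 o o))))) (n 44 (n 36 (n 32 (n 30 (n 29 o o) (n 31 o o)) (n 34 (n 33 o o) (n 35 o o))) (n
    40 (n 38 (n 37 o o) (n 39 o o)) (n 42 (n 41 o o) (n 43 o o)))) (n 50 (n 48 (n 46 (n 45 o o) (n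
    47 o o)) (n 49 o o)) (n 52 (n 51 o o) o))))) (n 98 (n 73 (n 60 (n 56 (n 54 o (n 55 o o)) (n 58
    (n 57 o o) o)) (n 65 (n 62 (n 61 o o) o) (n 69 (n 67 (n 66 o o) (n 68 o o)) (n 71 (n 70 o o)
    (n 72 o o))))) (n 89 (n 81 (n 77 (n 75 (n 74 o o) (n 76 o o)) (n 79 (n 78 o o) (n 80 o o))) (n
    85 (n 83 (n 82 o o) (n 84 o o)) (n 87 (n 86 o o) (n 88 o o)))) (n 95 (n 93 (n 91 (n 90 o o) (n
    92 o o)) (n 94 o o)) (n 97 (n 96 o o) o)))) (n 110 (n 105 (n 101 (n 99 o o) (n 103 o (n 104 o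
    o))) (n 109 (n 107 o (n 108 o o)) o)) o))

def t39 : QT :=
  n 61 (n 17 (n 2 o (n 9 (n 5 (n 3 o (n 4 o o)) (n 7 (n 6 o o) o)) (n 13 (n 11 (n 10 o o) o) (n
    15 o (n 16 o o))))) (n 44 (n 28 (n 21 (n 18 o (n 19 o (n 20 o o))) (n 24 (n 22 o (n 23 o o))
    (n 26 (n 25 o o) (n 27 o o)))) (n 36 (n 32 (n 30 (n 29 o o) (n 31 o o)) (n 34 (n 33 o o) (n 35
    o o))) (n 40 (n 38 (n 37 o o) (n 39 o o)) (n 42 (n 41 o o) (n 43 o o))))) (n 54 (n 50 (n 47 (n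
    45 o (n 46 o o)) o) (n 52 o (n 53 o o))) (n 58 (n 56 o (n 57 o o)) (n 60 (n 59 o o) o))))) (n
    105 (n 88 (n 72 (n 65 (n 62 o (n 63 o (n 64 o o))) (n 68 (n 66 o (n 67 o o)) (n 70 (n 69 o o)
    (n 71 o o)))) (n 80 (n 76 (n 74 (n 73 o o) (n 75 o o)) (n 78 (n 77 o o) (n 79 o o))) (n 84 (n
    82 (n 81 o o) o) (n 86 (n 85 o o) (n 87 o o))))) (n 98 (n 94 (n 91 (n 89 o (n 90 o o)) (n 93
    (n 92 o o) o)) (n 96 o (n 97 o o))) (n 102 (n 100 o (n 101 o o)) (n 104 (n 103 o o) o)))) o)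

def t40 : QT :=
  n 62 (n 17 (n 2 o (n 9 (n 4 (n 3 o o) (n 7 (n 5 o (n 6 o o)) o)) (n 13 (n 11 (n 10 o o) o) (n
    15 o (n 16 o o))))) (n 44 (n 28 (n 21 (n 18 o (n 19 o (n 20 o o))) (n 24 (n 22 o (n 23 o o))
    (n 26 (n 25 o o) (n 27 o o)))) (n 36 (n 32 (n 30 (n 29 o o) (n 31 o o)) (n 34 (n 33 o o) (n 35
    o o))) (n 40 (n 38 (n 37 o o) (n 39 o o)) (n 42 (n 41 o o) (n 43 o o))))) (n 54 (n 50 (n 47 (n
    45 o (n 46 o o)) o) (n 52 o (n 53 o o))) (n 58 (n 56 o (n 57 o o)) (n 61 (n 60 (n 59 o o) o)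
    o))))) (n 106 (n 88 (n 73 (n 66 (n 63 o (n 64 o (n 65 o o))) (n 69 (n 67 o (n 68 o o)) (n 71
    (n 70 o o) (n 72 o o)))) (n 81 (n 77 (n 75 (n 74 o o) (n 76 o o)) (n 79 (n 78 o o) (n 80 o
    o))) (n 85 (n 83 o (n 84 o o)) (n 87 (n 86 o o) o)))) (n 98 (n 94 (n 92 (n 90 (n 89 o o) (n 91
    o o)) o) (n 96 o (n 97 o o))) (n 102 (n 100 o (n 101 o o)) (n 105 (n 104 (n 103 o o) o) o))))
    o)

def t41 : QT :=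
  n 61 (n 16 (n 2 o (n 9 (n 5 (n 3 o (n 4 o o)) (n 7 (n 6 o o) o)) (n 13 (n 11 (n 10 o o) o) (n
    15 o o)))) (n 44 (n 27 (n 20 (n 17 o (n 18 o o)) (n 23 (n 21 o (n 22 o o)) (n 25 (n 24 o o) (n
    26 o o)))) (n 36 (n 31 (n 29 (n 28 o o) (n 30 o o)) (n 34 (n 32 o o) (n 35 o o))) (n 40 (n 38
    (n 37 o o) (n 39 o o)) (n 42 (n 41 o o) (n 43 o o))))) (n 54 (n 50 (n 48 (n 46 (n 45 o o) (n
    47 o o)) o) (n 52 o (n 53 o o))) (n 58 (n 56 o (n 57 o o)) (n 60 (n 59 o o) o))))) (n 105 (n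
    88 (n 72 (n 65 (n 62 o (n 63 o (n 64 o o))) (n 68 (n 66 o (n 67 o o)) (n 70 (n 69 o o) (n 71 o
    o)))) (n 80 (n 76 (n 74 (n 73 o o) (n 75 o o)) (n 78 (n 77 o o) (n 79 o o))) (n 84 (n 82 (n 81
    o o) (n 83 o o)) (n 86 (n 85 o o) (n 87 o o))))) (n 98 (n 94 (n 92 (n 90 (n 89 o o) (n 91 o
    o)) o) (n 96 o (n 97 o o))) (n 102 (n 100 o (n 101 o o)) (n 104 (n 103 o o) o)))) o)

def t42 : QT :=
  n 53 (n 9 (n 1 o (n 3 o (n 6 (n 4 o o) (n 8 o o)))) (n 28 (n 16 (n 12 (n 10 o (n 11 o o)) (n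
    14 (n 13 o o) o)) (n 20 (n 18 (n 17 o o) o) (n 24 (n 22 (n 21 o o) (n 23 o o)) (n 26 (n 25 o
    o) (n 27 o o))))) (n 44 (n 36 (n 32 (n 30 (n 29 o o) o) (n 34 (n 33 o o) (n 35 o o))) (n 40 (n
    38 (n 37 o o) (n 39 o o)) (n 42 (n 41 o o) (n 43 o o)))) (n 50 (n 48 (n 46 (n 45 o o) (n 47 o
    o)) (n 49 o o)) (n 52 (n 51 o o) o))))) (n 98 (n 73 (n 60 (n 56 (n 54 o (n 55 o o)) (n 58 (n
    57 o o) o)) (n 65 (n 62 (n 61 o o) o) (n 69 (n 67 (n 66 o o) (n 68 o o)) (n 71 (n 70 o o) (n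
    72 o o))))) (n 89 (n 81 (n 77 (n 75 (n 74 o o) (n 76 o o)) (n 79 (n 78 o o) (n 80 o o))) (n 85
    (n 83 o (n 84 o o)) (n 87 (n 86 o o) (n 88 o o)))) (n 95 (n 93 (n 91 (n 90 o o) (n 92 o o)) (n
    94 o o)) (n 97 (n 96 o o) o)))) (n 110 (n 105 (n 101 (n 99 o o) (n 103 o (n 104 o o))) (n 109
    (n 107 o (n 108 o o)) o)) o))

def t43 : QT :=
  n 58 (n 14 (n 2 o (n 7 (n 3 o (n 5 (n 4 o o) o)) (n 11 (n 9 (n 8 o o) o) (n 13 o o)))) (n 38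
    (n 22 (n 17 (n 15 o (n 16 o o)) (n 19 (n 18 o o) (n 20 o (n 21 o o)))) (n 29 (n 25 (n 23 o (n
    24 o o)) (n 27 (n 26 o o) (n 28 o o))) (n 33 (n 31 (n 30 o o) (n 32 o o)) (n 36 (n 35 o o) (n
    37 o o))))) (n 51 (n 46 (n 42 (n 40 (n 39 o o) (n 41 o o)) (n 44 (n 43 o o) (n 45 o o))) (n 49
    o (n 50 o o))) (n 55 (n 53 o (n 54 o o)) (n 57 (n 56 o o) o))))) (n 102 (n 82 (n 66 (n 61 (n
    59 o (n 60 o o)) (n 63 (n 62 o o) (n 64 o (n 65 o o)))) (n 73 (n 69 (n 67 o (n 68 o o)) (n 71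
    (n 70 o o) (n 72 o o))) (n 77 (n 75 (n 74 o o) (n 76 o o)) (n 80 (n 79 o o) (n 81 o o))))) (n
    95 (n 90 (n 86 (n 84 (n 83 o o) (n 85 o o)) (n 88 (n 87 o o) (n 89 o o))) (n 93 (n 92 (n 91 o
    o) o) (n 94 o o))) (n 99 (n 97 o (n 98 o o)) (n 101 (n 100 o o) o)))) (n 111 (n 109 (n 105 (n
    103 o o) (n 107 o (n 108 o o))) (n 110 o o)) o))

def t44 : QT :=
  n 60 (n 15 (n 2 o (n 8 (n 4 o (n 6 (n 5 o o) o)) (n 12 (n 10 (n 9 o o) o) (n 13 o (n 14 o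
    o))))) (n 41 (n 24 (n 18 (n 16 o (n 17 o o)) (n 20 (n 19 o o) (n 22 (n 21 o o) (n 23 o o))))
    (n 32 (n 28 (n 26 (n 25 o o) (n 27 o o)) (n 30 o (n 31 o o))) (n 37 (n 35 (n 33 o o) (n 36 o
    o)) (n 39 (n 38 o o) (n 40 o o))))) (n 52 (n 48 (n 45 (n 43 (n 42 o o) (n 44 o o)) o) (n 50 o
    (n 51 o o))) (n 56 (n 54 o (n 55 o o)) (n 59 (n 58 (n 57 o o) o) o))))) (n 104 (n 86 (n 70 (n
    63 (n 61 o (n 62 o o)) (n 66 (n 64 o (n 65 o o)) (n 68 (n 67 o o) (n 69 o o)))) (n 78 (n 74 (n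
    72 (n 71 o o) (n 73 o o)) (n 76 (n 75 o o) (n 77 o o))) (n 82 (n 80 (n 79 o o) (n 81 o o)) (n
    84 (n 83 o o) (n 85 o o))))) (n 97 (n 93 (n 90 (n 88 (n 87 o o) (n 89 o o)) (n 92 (n 91 o o)
    o)) (n 95 o (n 96 o o))) (n 101 (n 99 o (n 100 o o)) (n 103 (n 102 o o) o)))) (n 111 (n 110 (n
    108 (n 106 (n 105 o o) o) o) o) o))

def t45 : QT :=
  n 61 (n 17 (n 2 o (n 9 (n 4 (n 3 o o) (n 7 (n 5 o (n 6 o o)) o)) (n 13 (n 11 (n 10 o o) o) (n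
    15 o (n 16 o o))))) (n 44 (n 28 (n 21 (n 18 o (n 19 o (n 20 o o))) (n 24 (n 22 o (n 23 o o))
    (n 26 (n 25 o o) (n 27 o o)))) (n 36 (n 32 (n 30 (n 29 o o) (n 31 o o)) (n 34 (n 33 o o) (n 35
    o o))) (n 40 (n 38 (n 37 o o) (n 39 o o)) (n 42 (n 41 o o) (n 43 o o))))) (n 54 (n 50 (n 48 (n
    46 (n 45 o o) (n 47 o o)) o) (n 52 o (n 53 o o))) (n 58 (n 56 o (n 57 o o)) (n 60 (n 59 o o)
    o))))) (n 105 (n 87 (n 71 (n 65 (n 62 o (n 63 o (n 64 o o))) (n 68 (n 66 o (n 67 o o)) o)) (n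
    79 (n 75 (n 73 (n 72 o o) (n 74 o o)) (n 77 (n 76 o o) (n 78 o o))) (n 83 (n 81 (n 80 o o) (n
    82 o o)) (n 85 (n 84 o o) (n 86 o o))))) (n 97 (n 93 (n 90 (n 88 o (n 89 o o)) (n 92 (n 91 o
    o) o)) (n 95 o (n 96 o o))) (n 101 (n 99 o (n 100 o o)) (n 104 (n 103 (n 102 o o) o) o)))) (n
    111 (n 110 (n 109 (n 107 (n 106 o o) o) o) o) o))

def t46 : QT :=
  n 63 (n 18 (n 2 o (n 10 (n 5 (n 3 o (n 4 o o)) (n 8 (n 6 o (n 7 o o)) o)) (n 14 (n 12 (n 11 o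
    o) o) (n 16 o (n 17 o o))))) (n 46 (n 31 (n 23 (n 19 o (n 21 (n 20 o o) (n 22 o o))) (n 27 (n
    25 (n 24 o o) (n 26 o o)) (n 29 (n 28 o o) (n 30 o o)))) (n 39 (n 35 (n 33 (n 32 o o) (n 34 o
    o)) (n 37 (n 36 o o) (n 38 o o))) (n 43 (n 41 (n 40 o o) (n 42 o o)) (n 45 (n 44 o o) o)))) (n
    55 (n 51 (n 49 (n 48 (n 47 o o) o) o) (n 53 o (n 54 o o))) (n 59 (n 57 o (n 58 o o)) (n 62 (n
    61 (n 60 o o) o) o))))) (n 107 (n 90 (n 75 (n 67 (n 64 o (n 65 o (n 66 o o))) (n 71 (n 69 (n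
    68 o o) (n 70 o o)) (n 73 (n 72 o o) (n 74 o o)))) (n 83 (n 79 (n 77 (n 76 o o) (n 78 o o)) (n
    81 (n 80 o o) (n 82 o o))) (n 87 (n 85 (n 84 o o) (n 86 o o)) (n 89 (n 88 o o) o)))) (n 99 (n
    95 (n 93 (n 91 o (n 92 o o)) o) (n 97 o (n 98 o o))) (n 103 (n 101 o (n 102 o o)) (n 106 (n
    105 (n 104 o o) o) o)))) o)

def t47 : QT :=
  n 58 (n 13 (n 1 o (n 4 (n 2 o o) (n 9 (n 7 (n 5 o (n 6 o o)) o) (n 11 o (n 12 o o))))) (n 38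
    (n 21 (n 16 (n 14 o (n 15 o o)) (n 18 (n 17 o o) (n 19 o (n 20 o o)))) (n 29 (n 25 (n 23 (n 22
    o o) (n 24 o o)) (n 27 (n 26 o o) (n 28 o o))) (n 33 (n 31 (n 30 o o) (n 32 o o)) (n 36 (n 35
    o o) (n 37 o o))))) (n 51 (n 46 (n 42 (n 40 (n 39 o o) (n 41 o o)) (n 44 (n 43 o o) (n 45 o
    o))) (n 49 (n 48 (n 47 o o) o) (n 50 o o))) (n 55 (n 53 o (n 54 o o)) (n 57 (n 56 o o) o)))))
    (n 102 (n 82 (n 66 (n 61 (n 59 o (n 60 o o)) (n 63 (n 62 o o) (n 64 o (n 65 o o)))) (n 73 (n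
    69 (n 67 o (n 68 o o)) (n 71 (n 70 o o) (n 72 o o))) (n 78 (n 75 (n 74 o o) (n 77 o o)) (n 80
    (n 79 o o) (n 81 o o))))) (n 95 (n 90 (n 86 (n 84 (n 83 o o) (n 85 o o)) (n 88 (n 87 o o) (n
    89 o o))) (n 93 (n 92 (n 91 o o) o) (n 94 o o))) (n 99 (n 97 o (n 98 o o)) (n 101 (n 100 o o)
    o)))) (n 111 (n 109 (n 105 (n 103 o o) (n 107 o (n 108 o o))) (n 110 o o)) o))

def t48 : QT :=
  n 53 (n 9 (n 1 o (n 3 (n 2 o o) (n 6 (n 4 o o) (n 8 o o)))) (n 28 (n 16 (n 12 (n 10 o (n 11 o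
    o)) (n 14 (n 13 o o) o)) (n 20 (n 18 (n 17 o o) o) (n 24 (n 22 (n 21 o o) (n 23 o o)) (n 26 (n
    25 o o) (n 27 o o))))) (n 44 (n 36 (n 32 (n 30 (n 29 o o) (n 31 o o)) (n 34 (n 33 o o) (n 35 o
    o))) (n 40 (n 38 (n 37 o o) (n 39 o o)) (n 42 (n 41 o o) (n 43 o o)))) (n 50 (n 48 (n 46 (n 45
    o o) (n 47 o o)) (n 49 o o)) (n 52 (n 51 o o) o))))) (n 97 (n 71 (n 60 (n 56 (n 54 o (n 55 o
    o)) (n 58 (n 57 o o) o)) (n 64 (n 62 (n 61 o o) o) (n 67 o (n 69 (n 68 o o) (n 70 o o))))) (n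
    88 (n 80 (n 75 (n 73 (n 72 o o) (n 74 o o)) o) (n 84 (n 82 (n 81 o o) o) (n 86 (n 85 o o) (n
    87 o o)))) (n 94 (n 92 (n 90 (n 89 o o) o) (n 93 o o)) (n 96 (n 95 o o) o)))) (n 110 (n 104 (n
    100 (n 99 (n 98 o o) o) (n 102 o (n 103 o o))) (n 108 (n 106 o (n 107 o o)) o)) o))

def t49 : QT :=
  n 57 (n 12 (n 1 o (n 4 (n 2 o o) (n 9 (n 7 (n 5 o (n 6 o o)) o) (n 11 o o)))) (n 35 (n 20 (n
    15 (n 13 o (n 14 o o)) (n 17 (n 16 o o) (n 18 o (n 19 o o)))) (n 27 (n 23 (n 21 o (n 22 o o))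
    (n 25 (n 24 o o) (n 26 o o))) (n 31 (n 29 (n 28 o o) o) (n 33 (n 32 o o) (n 34 o o))))) (n 50
    (n 44 (n 40 (n 38 (n 36 o (n 37 o o)) (n 39 o o)) (n 42 (n 41 o o) (n 43 o o))) (n 48 (n 46 (n
    45 o o) (n 47 o o)) (n 49 o o))) (n 54 (n 52 o (n 53 o o)) (n 56 (n 55 o o) o))))) (n 101 (n
    80 (n 65 (n 60 (n 58 o (n 59 o o)) (n 62 (n 61 o o) o)) (n 72 (n 68 (n 66 o (n 67 o o)) (n 70
    (n 69 o o) (n 71 o o))) (n 76 (n 74 (n 73 o o) (n 75 o o)) (n 78 o (n 79 o o))))) (n 94 (n 88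
    (n 84 (n 82 (n 81 o o) (n 83 o o)) (n 86 (n 85 o o) (n 87 o o))) (n 92 (n 90 (n 89 o o) (n 91
    o o)) (n 93 o o))) (n 98 (n 96 o (n 97 o o)) (n 100 (n 99 o o) o)))) (n 111 (n 108 (n 104 (n
    102 o o) (n 106 o (n 107 o o))) (n 110 o o)) o))

def t50 : QT :=
  n 55 (n 11 (n 1 o (n 4 (n 2 o o) (n 8 (n 6 (n 5 o o) o) (n 10 o o)))) (n 32 (n 18 (n 14 (n 12
    o (n 13 o o)) (n 16 (n 15 o o) o)) (n 24 (n 20 (n 19 o o) (n 22 (n 21 o o) (n 23 o o))) (n 28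
    (n 26 (n 25 o o) (n 27 o o)) (n 30 (n 29 o o) (n 31 o o))))) (n 47 (n 40 (n 36 (n 34 (n 33 o
    o) o) (n 38 (n 37 o o) (n 39 o o))) (n 44 (n 42 (n 41 o o) (n 43 o o)) (n 46 (n 45 o o) o)))
    (n 52 (n 50 o (n 51 o o)) (n 54 (n 53 o o) o))))) (n 100 (n 77 (n 62 (n 58 (n 56 o (n 57 o o))
    (n 60 (n 59 o o) o)) (n 68 (n 64 (n 63 o o) (n 66 (n 65 o o) (n 67 o o))) (n 72 (n 70 (n 69 o
    o) (n 71 o o)) (n 74 (n 73 o o) (n 76 (n 75 o o) o))))) (n 92 (n 85 (n 81 (n 79 (n 78 o o) (n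
    80 o o)) (n 83 o (n 84 o o))) (n 89 (n 87 (n 86 o o) (n 88 o o)) (n 91 (n 90 o o) o))) (n 97
    (n 95 (n 94 (n 93 o o) o) (n 96 o o)) (n 99 (n 98 o o) o)))) (n 111 (n 108 (n 103 (n 101 o o)
    (n 105 o (n 107 (n 106 o o) o))) (n 110 o o)) o))

def t51 : QT :=
  n 61 (n 16 (n 2 o (n 9 (n 4 o (n 7 (n 5 o (n 6 o o)) o)) (n 13 (n 11 (n 10 o o) o) (n 15 o
    o)))) (n 44 (n 27 (n 20 (n 17 o (n 18 o o)) (n 23 (n 21 o (n 22 o o)) (n 25 (n 24 o o) (n 26 o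
    o)))) (n 36 (n 31 (n 29 (n 28 o o) (n 30 o o)) (n 34 (n 32 o o) (n 35 o o))) (n 40 (n 38 (n 37
    o o) (n 39 o o)) (n 42 (n 41 o o) (n 43 o o))))) (n 54 (n 50 (n 47 (n 45 o (n 46 o o)) (n 49
    (n 48 o o) o)) (n 52 o (n 53 o o))) (n 58 (n 56 o (n 57 o o)) (n 60 (n 59 o o) o))))) (n 105
    (n 87 (n 71 (n 65 (n 62 o (n 63 o (n 64 o o))) (n 68 (n 66 o (n 67 o o)) o)) (n 79 (n 75 (n 73
    (n 72 o o) (n 74 o o)) (n 77 (n 76 o o) (n 78 o o))) (n 83 (n 81 (n 80 o o) (n 82 o o)) (n 85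
    (n 84 o o) (n 86 o o))))) (n 97 (n 93 (n 90 (n 88 o (n 89 o o)) (n 92 (n 91 o o) o)) (n 95 o
    (n 96 o o))) (n 101 (n 99 o (n 100 o o)) (n 104 (n 103 (n 102 o o) o) o)))) o)

def t52 : QT :=
  n 59 (n 14 (n 2 o (n 7 (n 3 o (n 5 (n 4 o o) o)) (n 11 (n 9 (n 8 o o) o) (n 13 o o)))) (n 39
    (n 22 (n 17 (n 15 o (n 16 o o)) (n 19 (n 18 o o) (n 20 o (n 21 o o)))) (n 30 (n 26 (n 24 (n 23
    o o) (n 25 o o)) (n 28 (n 27 o o) (n 29 o o))) (n 35 (n 32 o (n 34 o o)) (n 37 (n 36 o o) (n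
    38 o o))))) (n 52 (n 47 (n 43 (n 41 (n 40 o o) (n 42 o o)) (n 45 (n 44 o o) (n 46 o o))) (n 50
    o (n 51 o o))) (n 56 (n 54 o (n 55 o o)) (n 58 (n 57 o o) o))))) (n 103 (n 84 (n 68 (n 62 (n
    60 o (n 61 o o)) (n 64 (n 63 o o) (n 66 (n 65 o o) (n 67 o o)))) (n 76 (n 72 (n 70 (n 69 o o)
    (n 71 o o)) (n 74 (n 73 o o) (n 75 o o))) (n 80 (n 78 (n 77 o o) (n 79 o o)) (n 82 (n 81 o o)
    (n 83 o o))))) (n 96 (n 92 (n 88 (n 86 (n 85 o o) (n 87 o o)) (n 90 (n 89 o o) o)) (n 94 o (n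
    95 o o))) (n 100 (n 98 o (n 99 o o)) (n 102 (n 101 o o) o)))) (n 111 (n 109 (n 106 (n 104 o o)
    (n 108 o o)) o) o))

def t53 : QT :=
  n 52 (n 8 (n 1 o (n 2 o (n 4 o (n 6 o (n 7 o o))))) (n 26 (n 15 (n 11 (n 9 o (n 10 o o)) (n 13
    (n 12 o o) o)) (n 19 (n 17 (n 16 o o) o) (n 22 (n 20 o (n 21 o o)) (n 24 (n 23 o o) (n 25 o
    o))))) (n 42 (n 34 (n 30 (n 28 (n 27 o o) o) (n 32 o (n 33 o o))) (n 38 (n 36 (n 35 o o) (n 37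
    o o)) (n 40 (n 39 o o) (n 41 o o)))) (n 49 (n 46 (n 44 (n 43 o o) (n 45 o o)) (n 48 (n 47 o o)
    o)) (n 51 (n 50 o o) o))))) (n 97 (n 71 (n 60 (n 56 (n 53 o (n 54 o (n 55 o o))) (n 58 (n 57 o
    o) o)) (n 64 (n 62 (n 61 o o) o) (n 67 o (n 69 (n 68 o o) (n 70 o o))))) (n 88 (n 80 (n 75 (n
    73 (n 72 o o) (n 74 o o)) o) (n 84 (n 82 (n 81 o o) o) (n 86 (n 85 o o) (n 87 o o)))) (n 94 (n
    92 (n 90 (n 89 o o) (n 91 o o)) (n 93 o o)) (n 96 (n 95 o o) o)))) (n 110 (n 104 (n 100 (n 99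
    (n 98 o o) o) (n 102 o (n 103 o o))) (n 108 (n 106 o (n 107 o o)) (n 109 o o))) o))

def t54 : QT :=
  n 59 (n 15 (n 2 o (n 8 (n 4 (n 3 o o) (n 6 (n 5 o o) o)) (n 12 (n 10 (n 9 o o) o) (n 13 o (n
    14 o o))))) (n 40 (n 24 (n 18 (n 16 o (n 17 o o)) (n 20 (n 19 o o) (n 22 o (n 23 o o)))) (n 32
    (n 28 (n 26 (n 25 o o) (n 27 o o)) (n 30 o (n 31 o o))) (n 36 (n 34 (n 33 o o) (n 35 o o)) (n
    38 (n 37 o o) (n 39 o o))))) (n 52 (n 47 (n 44 (n 42 (n 41 o o) (n 43 o o)) o) (n 50 (n 49 (n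
    48 o o) o) (n 51 o o))) (n 56 (n 54 o (n 55 o o)) (n 58 (n 57 o o) o))))) (n 103 (n 84 (n 68
    (n 62 (n 60 o (n 61 o o)) (n 64 (n 63 o o) (n 66 (n 65 o o) (n 67 o o)))) (n 76 (n 72 (n 70 (n
    69 o o) (n 71 o o)) (n 74 (n 73 o o) (n 75 o o))) (n 80 (n 78 (n 77 o o) (n 79 o o)) (n 82 (n
    81 o o) (n 83 o o))))) (n 96 (n 92 (n 88 (n 86 (n 85 o o) (n 87 o o)) (n 90 (n 89 o o) (n 91 o
    o))) (n 94 o (n 95 o o))) (n 100 (n 98 o (n 99 o o)) (n 102 (n 101 o o) o)))) (n 111 (n 109 (n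
    106 (n 104 o o) (n 108 o o)) o) o))

def t55 : QT :=
  n 52 (n 7 (n 1 o (n 2 o (n 3 o (n 5 o (n 6 o o))))) (n 26 (n 15 (n 11 (n 8 o (n 9 o (n 10 o
    o))) (n 13 (n 12 o o) o)) (n 19 (n 17 (n 16 o o) o) (n 23 (n 21 (n 20 o o) (n 22 o o)) (n 25
    (n 24 o o) o)))) (n 42 (n 34 (n 30 (n 28 (n 27 o o) (n 29 o o)) (n 32 o (n 33 o o))) (n 38 (n
    36 o (n 37 o o)) (n 40 (n 39 o o) (n 41 o o)))) (n 49 (n 46 (n 44 (n 43 o o) (n 45 o o)) (n 48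
    (n 47 o o) o)) (n 51 (n 50 o o) o))))) (n 96 (n 70 (n 59 (n 55 (n 53 o (n 54 o o)) (n 57 (n 56
    o o) o)) (n 63 (n 61 (n 60 o o) o) (n 66 o (n 68 (n 67 o o) (n 69 o o))))) (n 86 (n 78 (n 74
    (n 72 (n 71 o o) (n 73 o o)) (n 76 (n 75 o o) o)) (n 82 (n 80 (n 79 o o) o) (n 84 o (n 85 o
    o)))) (n 93 (n 90 (n 88 (n 87 o o) (n 89 o o)) (n 92 (n 91 o o) o)) (n 95 (n 94 o o) o)))) (n
    110 (n 103 (n 99 (n 97 o o) (n 101 o (n 102 o o))) (n 108 (n 105 o (n 107 (n 106 o o) o)) o))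
    o))

def t56 : QT :=
  n 62 (n 17 (n 2 o (n 10 (n 5 (n 3 o (n 4 o o)) (n 8 (n 6 o (n 7 o o)) o)) (n 14 (n 12 (n 11 o
    o) o) (n 16 o o)))) (n 45 (n 29 (n 21 (n 18 o (n 19 o (n 20 o o))) (n 25 (n 23 (n 22 o o) (n
    24 o o)) (n 27 (n 26 o o) (n 28 o o)))) (n 37 (n 33 (n 31 (n 30 o o) (n 32 o o)) (n 35 (n 34 o
    o) (n 36 o o))) (n 41 (n 39 (n 38 o o) (n 40 o o)) (n 43 (n 42 o o) (n 44 o o))))) (n 55 (n 51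
    (n 48 (n 46 o (n 47 o o)) o) (n 53 o (n 54 o o))) (n 59 (n 57 o (n 58 o o)) (n 61 (n 60 o o)
    o))))) (n 106 (n 88 (n 73 (n 66 (n 63 o (n 64 o (n 65 o o))) (n 69 (n 67 o (n 68 o o)) (n 71
    (n 70 o o) (n 72 o o)))) (n 81 (n 77 (n 75 (n 74 o o) (n 76 o o)) (n 79 (n 78 o o) (n 80 o
    o))) (n 85 (n 83 (n 82 o o) (n 84 o o)) (n 87 (n 86 o o) o)))) (n 98 (n 94 (n 92 (n 90 (n 89 o
    o) (n 91 o o)) o) (n 96 o (n 97 o o))) (n 102 (n 100 o (n 101 o o)) (n 105 (n 104 (n 103 o o)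
    o) o)))) o)

def t57 : QT :=
  n 52 (n 8 (n 1 o (n 2 o (n 4 o (n 6 o (n 7 o o))))) (n 26 (n 15 (n 11 (n 9 o (n 10 o o)) (n 13
    (n 12 o o) o)) (n 19 (n 17 (n 16 o o) o) (n 22 (n 20 o (n 21 o o)) (n 24 (n 23 o o) (n 25 o
    o))))) (n 42 (n 34 (n 30 (n 28 (n 27 o o) (n 29 o o)) (n 32 (n 31 o o) (n 33 o o))) (n 38 (n
    36 o (n 37 o o)) (n 40 (n 39 o o) (n 41 o o)))) (n 49 (n 46 (n 44 (n 43 o o) (n 45 o o)) (n 48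
    (n 47 o o) o)) (n 51 (n 50 o o) o))))) (n 96 (n 69 (n 59 (n 55 (n 53 o (n 54 o o)) (n 57 (n 56
    o o) o)) (n 63 (n 61 (n 60 o o) o) (n 65 o (n 67 (n 66 o o) (n 68 o o))))) (n 85 (n 77 (n 73
    (n 71 (n 70 o o) (n 72 o o)) (n 75 (n 74 o o) (n 76 o o))) (n 81 (n 79 (n 78 o o) (n 80 o o))
    (n 83 (n 82 o o) (n 84 o o)))) (n 92 (n 89 (n 87 (n 86 o o) (n 88 o o)) (n 91 (n 90 o o) o))
    (n 95 (n 94 o o) o)))) (n 110 (n 103 (n 99 (n 97 o o) (n 101 o (n 102 o o))) (n 108 (n 105 o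
    (n 107 (n 106 o o) o)) (n 109 o o))) o))

def t58 : QT :=
  n 55 (n 11 (n 1 o (n 4 (n 2 o o) (n 8 (n 6 (n 5 o o) o) (n 10 o o)))) (n 32 (n 18 (n 14 (n 12
    o (n 13 o o)) (n 16 (n 15 o o) o)) (n 24 (n 20 (n 19 o o) (n 22 (n 21 o o) (n 23 o o))) (n 28
    (n 26 (n 25 o o) (n 27 o o)) (n 30 (n 29 o o) (n 31 o o))))) (n 47 (n 40 (n 36 (n 34 (n 33 o
    o) (n 35 o o)) (n 38 (n 37 o o) (n 39 o o))) (n 44 (n 42 (n 41 o o) (n 43 o o)) (n 46 (n 45 o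
    o) o))) (n 52 (n 50 o (n 51 o o)) (n 54 (n 53 o o) o))))) (n 100 (n 77 (n 63 (n 58 (n 56 o (n
    57 o o)) (n 60 (n 59 o o) o)) (n 69 (n 65 (n 64 o o) (n 67 (n 66 o o) (n 68 o o))) (n 73 (n 71
    (n 70 o o) (n 72 o o)) (n 75 (n 74 o o) (n 76 o o))))) (n 92 (n 85 (n 81 (n 79 (n 78 o o) (n
    80 o o)) (n 83 (n 82 o o) (n 84 o o))) (n 89 (n 87 (n 86 o o) (n 88 o o)) (n 91 (n 90 o o)
    o))) (n 97 (n 95 (n 94 (n 93 o o) o) (n 96 o o)) (n 99 (n 98 o o) o)))) (n 111 (n 108 (n 104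
    (n 102 (n 101 o o) o) (n 106 o (n 107 o o))) (n 110 o o)) o))

def t59 : QT :=
  n 55 (n 11 (n 1 o (n 4 (n 2 o o) (n 8 (n 6 (n 5 o o) o) (n 10 o o)))) (n 32 (n 18 (n 14 (n 12
    o (n 13 o o)) (n 16 (n 15 o o) o)) (n 24 (n 20 (n 19 o o) (n 22 o (n 23 o o))) (n 28 (n 26 (n
    25 o o) (n 27 o o)) (n 30 (n 29 o o) (n 31 o o))))) (n 47 (n 40 (n 36 (n 34 (n 33 o o) (n 35 o
    o)) (n 38 (n 37 o o) (n 39 o o))) (n 44 (n 42 (n 41 o o) (n 43 o o)) (n 46 (n 45 o o) o))) (n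
    52 (n 50 o (n 51 o o)) (n 54 (n 53 o o) o))))) (n 100 (n 77 (n 62 (n 58 (n 56 o (n 57 o o)) (n
    60 (n 59 o o) o)) (n 68 (n 64 (n 63 o o) (n 66 (n 65 o o) (n 67 o o))) (n 72 (n 70 (n 69 o o)
    (n 71 o o)) (n 74 (n 73 o o) (n 76 (n 75 o o) o))))) (n 93 (n 86 (n 82 (n 80 (n 78 o (n 79 o
    o)) (n 81 o o)) (n 84 (n 83 o o) (n 85 o o))) (n 90 (n 88 (n 87 o o) (n 89 o o)) (n 92 o o)))
    (n 97 (n 95 o (n 96 o o)) (n 99 (n 98 o o) o)))) (n 111 (n 108 (n 104 (n 102 (n 101 o o) o) (n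
    106 o (n 107 o o))) (n 110 o o)) o))

def t60 : QT :=
  n 53 (n 9 (n 1 o (n 3 (n 2 o o) (n 6 (n 4 o o) (n 8 o o)))) (n 28 (n 16 (n 12 (n 10 o (n 11 o
    o)) (n 14 (n 13 o o) o)) (n 20 (n 18 (n 17 o o) o) (n 24 (n 22 (n 21 o o) (n 23 o o)) (n 26 (n
    25 o o) (n 27 o o))))) (n 44 (n 36 (n 32 (n 30 (n 29 o o) (n 31 o o)) (n 34 (n 33 o o) (n 35 o
    o))) (n 40 (n 38 (n 37 o o) (n 39 o o)) (n 42 (n 41 o o) (n 43 o o)))) (n 50 (n 48 (n 46 (n 45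
    o o) (n 47 o o)) (n 49 o o)) (n 52 (n 51 o o) o))))) (n 97 (n 71 (n 60 (n 56 (n 54 o (n 55 o
    o)) (n 58 (n 57 o o) o)) (n 64 (n 62 (n 61 o o) o) (n 67 o (n 69 (n 68 o o) (n 70 o o))))) (n
    88 (n 80 (n 75 (n 73 (n 72 o o) (n 74 o o)) (n 78 (n 76 o o) (n 79 o o))) (n 84 (n 82 (n 81 o
    o) (n 83 o o)) (n 86 (n 85 o o) (n 87 o o)))) (n 94 (n 92 (n 90 (n 89 o o) (n 91 o o)) (n 93 o
    o)) (n 96 (n 95 o o) o)))) (n 110 (n 104 (n 100 (n 99 (n 98 o o) o) (n 102 o (n 103 o o))) (n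
    108 (n 106 o (n 107 o o)) o)) o))

def t61 : QT :=
  n 54 (n 10 (n 1 o (n 3 o (n 7 (n 5 (n 4 o o) o) (n 9 o o)))) (n 30 (n 17 (n 13 (n 11 o (n 12 o
    o)) (n 15 (n 14 o o) o)) (n 22 (n 19 (n 18 o o) (n 20 o (n 21 o o))) (n 26 (n 24 (n 23 o o) (n
    25 o o)) (n 28 (n 27 o o) (n 29 o o))))) (n 46 (n 39 (n 34 (n 32 (n 31 o o) (n 33 o o)) (n 37
    (n 35 o o) (n 38 o o))) (n 43 (n 41 (n 40 o o) (n 42 o o)) (n 45 (n 44 o o) o))) (n 51 (n 49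
    (n 48 (n 47 o o) o) (n 50 o o)) (n 53 (n 52 o o) o))))) (n 98 (n 74 (n 61 (n 57 (n 55 o (n 56
    o o)) (n 59 (n 58 o o) o)) (n 66 (n 63 (n 62 o o) (n 64 o (n 65 o o))) (n 70 (n 68 (n 67 o o)
    (n 69 o o)) (n 72 (n 71 o o) (n 73 o o))))) (n 90 (n 83 (n 79 (n 76 (n 75 o o) (n 77 o o)) (n
    81 (n 80 o o) (n 82 o o))) (n 87 (n 85 (n 84 o o) (n 86 o o)) (n 89 (n 88 o o) o))) (n 95 (n
    93 (n 92 (n 91 o o) o) (n 94 o o)) (n 97 (n 96 o o) o)))) (n 110 (n 105 (n 101 (n 99 o o) (n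
    103 o (n 104 o o))) (n 109 (n 107 o (n 108 o o)) o)) o))

def t62 : QT :=
  n 51 (n 7 (n 1 o (n 2 o (n 3 o (n 5 o (n 6 o o))))) (n 25 (n 15 (n 11 (n 8 o (n 9 o (n 10 o
    o))) (n 13 (n 12 o o) o)) (n 19 (n 17 (n 16 o o) o) (n 22 (n 20 o (n 21 o o)) (n 24 (n 23 o o)
    o)))) (n 41 (n 33 (n 29 (n 27 (n 26 o o) (n 28 o o)) (n 31 (n 30 o o) (n 32 o o))) (n 37 (n 35
    (n 34 o o) (n 36 o o)) (n 39 (n 38 o o) (n 40 o o)))) (n 47 (n 44 o (n 46 (n 45 o o) o)) (n 50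
    (n 49 (n 48 o o) o) o))))) (n 96 (n 69 (n 58 (n 54 (n 52 o (n 53 o o)) (n 56 (n 55 o o) o)) (n
    62 (n 60 (n 59 o o) o) (n 65 o (n 67 (n 66 o o) (n 68 o o))))) (n 85 (n 77 (n 73 (n 71 (n 70 o
    o) (n 72 o o)) (n 75 (n 74 o o) (n 76 o o))) (n 81 (n 79 (n 78 o o) (n 80 o o)) (n 83 (n 82 o
    o) (n 84 o o)))) (n 92 (n 89 (n 87 (n 86 o o) (n 88 o o)) (n 91 (n 90 o o) o)) (n 95 (n 94 o
    o) o)))) (n 110 (n 103 (n 99 (n 97 o o) (n 101 o (n 102 o o))) (n 107 (n 105 o (n 106 o o)) (n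
    109 (n 108 o o) o))) o))

def t63 : QT :=
  n 60 (n 16 (n 2 o (n 9 (n 5 (n 3 o (n 4 o o)) (n 7 (n 6 o o) o)) (n 13 (n 11 (n 10 o o) o) (n
    15 o o)))) (n 42 (n 26 (n 19 (n 17 o (n 18 o o)) (n 22 (n 20 o (n 21 o o)) (n 24 (n 23 o o) (n
    25 o o)))) (n 34 (n 30 (n 28 (n 27 o o) o) (n 32 (n 31 o o) (n 33 o o))) (n 38 (n 36 o (n 37 o
    o)) (n 40 (n 39 o o) (n 41 o o))))) (n 53 (n 49 (n 46 (n 44 (n 43 o o) (n 45 o o)) o) (n 51 o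
    (n 52 o o))) (n 57 (n 55 o (n 56 o o)) (n 59 (n 58 o o) o))))) (n 104 (n 86 (n 70 (n 63 (n 61
    o (n 62 o o)) (n 66 (n 64 o (n 65 o o)) (n 68 (n 67 o o) (n 69 o o)))) (n 78 (n 74 (n 72 (n 71
    o o) (n 73 o o)) (n 76 (n 75 o o) o)) (n 82 (n 80 (n 79 o o) (n 81 o o)) (n 84 (n 83 o o) (n
    85 o o))))) (n 97 (n 93 (n 90 (n 88 (n 87 o o) (n 89 o o)) (n 92 (n 91 o o) o)) (n 95 o (n 96
    o o))) (n 101 (n 99 o (n 100 o o)) (n 103 (n 102 o o) o)))) (n 111 (n 110 (n 108 (n 106 (n 105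
    o o) o) o) o) o))

def t64 : QT :=
  n 62 (n 18 (n 2 o (n 10 (n 5 (n 3 o (n 4 o o)) (n 8 (n 6 o (n 7 o o)) o)) (n 14 (n 12 (n 11 o
    o) o) (n 16 o (n 17 o o))))) (n 46 (n 31 (n 23 (n 19 o (n 21 (n 20 o o) (n 22 o o))) (n 27 (n
    25 (n 24 o o) (n 26 o o)) (n 29 (n 28 o o) (n 30 o o)))) (n 39 (n 35 (n 33 (n 32 o o) (n 34 o
    o)) (n 37 (n 36 o o) (n 38 o o))) (n 43 (n 41 (n 40 o o) (n 42 o o)) (n 45 (n 44 o o) o)))) (n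
    55 (n 51 (n 49 (n 48 (n 47 o o) o) o) (n 53 o (n 54 o o))) (n 59 (n 57 o (n 58 o o)) (n 61 (n
    60 o o) o))))) (n 106 (n 88 (n 73 (n 66 (n 63 o (n 64 o (n 65 o o))) (n 69 (n 67 o (n 68 o o))
    (n 71 (n 70 o o) (n 72 o o)))) (n 81 (n 77 (n 75 (n 74 o o) (n 76 o o)) (n 79 (n 78 o o) (n 80
    o o))) (n 85 (n 83 o (n 84 o o)) (n 87 (n 86 o o) o)))) (n 98 (n 94 (n 92 (n 90 (n 89 o o) (n
    91 o o)) o) (n 96 o (n 97 o o))) (n 102 (n 100 o (n 101 o o)) (n 105 (n 104 (n 103 o o) o)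
    o)))) o)

def t65 : QT :=
  n 59 (n 15 (n 2 o (n 8 (n 4 (n 3 o o) (n 6 (n 5 o o) o)) (n 12 (n 10 (n 9 o o) o) (n 13 o (n
    14 o o))))) (n 41 (n 24 (n 18 (n 16 o (n 17 o o)) (n 20 (n 19 o o) (n 22 o (n 23 o o)))) (n 32
    (n 28 (n 26 (n 25 o o) (n 27 o o)) (n 30 o (n 31 o o))) (n 37 o (n 39 (n 38 o o) (n 40 o
    o))))) (n 52 (n 48 (n 45 (n 43 (n 42 o o) (n 44 o o)) o) (n 50 o (n 51 o o))) (n 56 (n 54 o (n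
    55 o o)) (n 58 (n 57 o o) o))))) (n 103 (n 84 (n 68 (n 62 (n 60 o (n 61 o o)) (n 64 (n 63 o o)
    (n 66 (n 65 o o) (n 67 o o)))) (n 76 (n 72 (n 70 (n 69 o o) (n 71 o o)) (n 74 (n 73 o o) (n 75
    o o))) (n 80 (n 78 (n 77 o o) (n 79 o o)) (n 82 (n 81 o o) (n 83 o o))))) (n 96 (n 92 (n 88 (n
    86 (n 85 o o) (n 87 o o)) (n 90 (n 89 o o) (n 91 o o))) (n 94 o (n 95 o o))) (n 100 (n 98 o (n
    99 o o)) (n 102 (n 101 o o) o)))) (n 111 (n 109 (n 106 (n 104 o o) (n 108 o o)) (n 110 o o))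
    o))

def t66 : QT :=
  n 60 (n 15 (n 2 o (n 8 (n 4 o (n 6 (n 5 o o) o)) (n 12 (n 10 (n 9 o o) o) (n 13 o (n 14 o
    o))))) (n 42 (n 25 (n 18 (n 16 o (n 17 o o)) (n 21 (n 19 o (n 20 o o)) (n 23 (n 22 o o) (n 24
    o o)))) (n 33 (n 29 (n 27 (n 26 o o) (n 28 o o)) (n 31 (n 30 o o) (n 32 o o))) (n 38 (n 36 (n
    34 o o) (n 37 o o)) (n 40 (n 39 o o) (n 41 o o))))) (n 53 (n 49 (n 46 (n 44 (n 43 o o) (n 45 o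
    o)) o) (n 51 o (n 52 o o))) (n 57 (n 55 o (n 56 o o)) (n 59 (n 58 o o) o))))) (n 104 (n 86 (n
    70 (n 63 (n 61 o (n 62 o o)) (n 66 (n 64 o (n 65 o o)) (n 68 (n 67 o o) (n 69 o o)))) (n 78 (n
    74 (n 72 (n 71 o o) (n 73 o o)) (n 76 (n 75 o o) (n 77 o o))) (n 82 (n 80 (n 79 o o) (n 81 o
    o)) (n 84 o (n 85 o o))))) (n 97 (n 93 (n 89 (n 87 o (n 88 o o)) (n 91 (n 90 o o) (n 92 o o)))
    (n 95 o (n 96 o o))) (n 101 (n 99 o (n 100 o o)) (n 103 (n 102 o o) o)))) (n 111 (n 110 (n 108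
    (n 106 (n 105 o o) o) o) o) o))

def t67 : QT :=
  n 57 (n 12 (n 1 o (n 4 (n 2 o o) (n 8 (n 6 (n 5 o o) o) (n 10 o (n 11 o o))))) (n 35 (n 19 (n
    15 (n 13 o (n 14 o o)) (n 17 (n 16 o o) o)) (n 26 (n 22 (n 20 o (n 21 o o)) (n 24 (n 23 o o)
    (n 25 o o))) (n 30 (n 28 (n 27 o o) (n 29 o o)) (n 32 (n 31 o o) (n 34 (n 33 o o) o))))) (n 49
    (n 43 (n 39 (n 37 (n 36 o o) (n 38 o o)) (n 41 (n 40 o o) (n 42 o o))) (n 47 (n 45 (n 44 o o)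
    (n 46 o o)) (n 48 o o))) (n 54 (n 52 o (n 53 o o)) (n 56 (n 55 o o) o))))) (n 101 (n 80 (n 65
    (n 60 (n 58 o (n 59 o o)) (n 62 (n 61 o o) o)) (n 72 (n 68 (n 66 o (n 67 o o)) (n 70 (n 69 o
    o) (n 71 o o))) (n 76 (n 74 (n 73 o o) (n 75 o o)) (n 78 o (n 79 o o))))) (n 94 (n 88 (n 84 (n
    82 (n 81 o o) (n 83 o o)) (n 86 (n 85 o o) (n 87 o o))) (n 92 (n 90 (n 89 o o) (n 91 o o)) (n
    93 o o))) (n 98 (n 96 o (n 97 o o)) (n 100 (n 99 o o) o)))) (n 111 (n 108 (n 104 (n 102 o o)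
    (n 106 o (n 107 o o))) (n 110 o o)) o))

def t68 : QT :=
  n 58 (n 13 (n 1 o (n 4 (n 2 o o) (n 9 (n 7 (n 5 o (n 6 o o)) o) (n 11 o (n 12 o o))))) (n 37
    (n 21 (n 16 (n 14 o (n 15 o o)) (n 18 (n 17 o o) (n 19 o (n 20 o o)))) (n 28 (n 24 (n 22 o (n
    23 o o)) (n 26 (n 25 o o) (n 27 o o))) (n 32 (n 30 (n 29 o o) (n 31 o o)) (n 35 (n 34 o o) (n
    36 o o))))) (n 50 (n 45 (n 41 (n 39 (n 38 o o) (n 40 o o)) (n 43 (n 42 o o) (n 44 o o))) (n 48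
    o (n 49 o o))) (n 54 (n 52 o (n 53 o o)) (n 57 (n 55 o (n 56 o o)) o))))) (n 102 (n 82 (n 66
    (n 61 (n 59 o (n 60 o o)) (n 63 (n 62 o o) (n 64 o (n 65 o o)))) (n 73 (n 69 (n 67 o (n 68 o
    o)) (n 71 (n 70 o o) (n 72 o o))) (n 77 (n 75 (n 74 o o) (n 76 o o)) (n 80 (n 79 o o) (n 81 o
    o))))) (n 95 (n 90 (n 86 (n 84 (n 83 o o) (n 85 o o)) (n 88 (n 87 o o) (n 89 o o))) (n 93 (n
    92 (n 91 o o) o) (n 94 o o))) (n 99 (n 97 o (n 98 o o)) (n 101 (n 100 o o) o)))) (n 111 (n 109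
    (n 105 (n 103 o o) (n 107 o (n 108 o o))) o) o))

def t69 : QT :=
  n 60 (n 15 (n 2 o (n 8 (n 4 (n 3 o o) (n 6 (n 5 o o) o)) (n 12 (n 10 (n 9 o o) o) (n 13 o (n
    14 o o))))) (n 42 (n 25 (n 18 (n 16 o (n 17 o o)) (n 21 (n 19 o (n 20 o o)) (n 23 (n 22 o o)
    (n 24 o o)))) (n 33 (n 29 (n 27 (n 26 o o) (n 28 o o)) (n 31 (n 30 o o) (n 32 o o))) (n 38 (n
    36 (n 34 o o) (n 37 o o)) (n 40 (n 39 o o) (n 41 o o))))) (n 53 (n 49 (n 46 (n 44 (n 43 o o)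
    (n 45 o o)) (n 48 (n 47 o o) o)) (n 51 o (n 52 o o))) (n 57 (n 55 o (n 56 o o)) (n 59 (n 58 o
    o) o))))) (n 104 (n 86 (n 70 (n 63 (n 61 o (n 62 o o)) (n 66 (n 64 o (n 65 o o)) (n 68 (n 67 o
    o) (n 69 o o)))) (n 78 (n 74 (n 72 (n 71 o o) (n 73 o o)) (n 76 (n 75 o o) o)) (n 82 (n 80 (n
    79 o o) o) (n 84 o (n 85 o o))))) (n 97 (n 93 (n 90 (n 88 (n 87 o o) (n 89 o o)) (n 92 (n 91 o
    o) o)) (n 95 o (n 96 o o))) (n 101 (n 99 o (n 100 o o)) (n 103 (n 102 o o) o)))) (n 111 (n 110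
    (n 108 (n 106 (n 105 o o) o) o) o) o))

def t70 : QT :=
  n 59 (n 14 (n 2 o (n 7 (n 3 o (n 5 (n 4 o o) o)) (n 11 (n 9 (n 8 o o) o) (n 13 o o)))) (n 39
    (n 23 (n 17 (n 15 o (n 16 o o)) (n 19 (n 18 o o) (n 21 (n 20 o o) (n 22 o o)))) (n 31 (n 27 (n
    25 (n 24 o o) (n 26 o o)) (n 29 (n 28 o o) (n 30 o o))) (n 35 (n 33 (n 32 o o) (n 34 o o)) (n
    37 (n 36 o o) (n 38 o o))))) (n 52 (n 47 (n 43 (n 41 (n 40 o o) (n 42 o o)) (n 45 (n 44 o o)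
    (n 46 o o))) (n 50 (n 49 (n 48 o o) o) (n 51 o o))) (n 56 (n 54 o (n 55 o o)) (n 58 (n 57 o o)
    o))))) (n 103 (n 84 (n 68 (n 62 (n 60 o (n 61 o o)) (n 64 (n 63 o o) (n 66 (n 65 o o) (n 67 o
    o)))) (n 76 (n 72 (n 70 (n 69 o o) (n 71 o o)) (n 74 (n 73 o o) (n 75 o o))) (n 80 (n 78 (n 77
    o o) (n 79 o o)) (n 82 (n 81 o o) (n 83 o o))))) (n 96 (n 92 (n 88 (n 86 (n 85 o o) (n 87 o
    o)) (n 90 (n 89 o o) (n 91 o o))) (n 94 o (n 95 o o))) (n 100 (n 98 o (n 99 o o)) (n 102 (n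
    101 o o) o)))) (n 111 (n 109 (n 106 (n 104 o o) (n 108 o o)) (n 110 o o)) o))

def t71 : QT :=
  n 54 (n 10 (n 1 o (n 3 (n 2 o o) (n 7 (n 5 (n 4 o o) o) (n 9 o o)))) (n 30 (n 17 (n 13 (n 11 o
    (n 12 o o)) (n 15 (n 14 o o) o)) (n 22 (n 19 (n 18 o o) (n 20 o (n 21 o o))) (n 26 (n 24 (n 23
    o o) (n 25 o o)) (n 28 (n 27 o o) (n 29 o o))))) (n 46 (n 39 (n 34 (n 32 (n 31 o o) (n 33 o
    o)) (n 37 (n 35 o o) (n 38 o o))) (n 43 (n 41 (n 40 o o) (n 42 o o)) (n 45 (n 44 o o) o))) (n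
    51 (n 49 (n 48 (n 47 o o) o) (n 50 o o)) (n 53 (n 52 o o) o))))) (n 99 (n 75 (n 62 (n 58 (n 55
    o (n 57 (n 56 o o) o)) (n 60 (n 59 o o) o)) (n 67 (n 64 (n 63 o o) o) (n 71 (n 69 (n 68 o o)
    (n 70 o o)) (n 73 (n 72 o o) (n 74 o o))))) (n 91 (n 84 (n 80 (n 77 (n 76 o o) (n 78 o o)) (n
    82 (n 81 o o) o)) (n 88 (n 86 (n 85 o o) (n 87 o o)) (n 90 (n 89 o o) o))) (n 96 (n 94 (n 93
    (n 92 o o) o) (n 95 o o)) (n 98 (n 97 o o) o)))) (n 111 (n 108 (n 103 (n 101 (n 100 o o) o) (n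
    105 o (n 107 (n 106 o o) o))) (n 110 o o)) o))

def t72 : QT :=
  n 59 (n 14 (n 2 o (n 7 (n 3 o (n 5 (n 4 o o) o)) (n 11 (n 9 (n 8 o o) o) (n 13 o o)))) (n 40
    (n 23 (n 17 (n 15 o (n 16 o o)) (n 19 (n 18 o o) (n 21 (n 20 o o) (n 22 o o)))) (n 31 (n 27 (n
    25 (n 24 o o) (n 26 o o)) (n 29 (n 28 o o) (n 30 o o))) (n 36 (n 34 (n 32 o o) (n 35 o o)) (n
    38 (n 37 o o) (n 39 o o))))) (n 52 (n 47 (n 44 (n 42 (n 41 o o) (n 43 o o)) o) (n 50 o (n 51 o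
    o))) (n 56 (n 54 o (n 55 o o)) (n 58 (n 57 o o) o))))) (n 103 (n 84 (n 68 (n 62 (n 60 o (n 61
    o o)) (n 64 (n 63 o o) (n 66 (n 65 o o) (n 67 o o)))) (n 76 (n 72 (n 70 (n 69 o o) (n 71 o o))
    (n 74 (n 73 o o) (n 75 o o))) (n 80 (n 78 (n 77 o o) (n 79 o o)) (n 82 (n 81 o o) (n 83 o
    o))))) (n 96 (n 92 (n 88 (n 86 (n 85 o o) (n 87 o o)) (n 90 (n 89 o o) (n 91 o o))) (n 94 o (n
    95 o o))) (n 100 (n 98 o (n 99 o o)) (n 102 (n 101 o o) o)))) (n 111 (n 109 (n 106 (n 104 o o)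
    (n 108 o o)) (n 110 o o)) o))

def t73 : QT :=
  n 51 (n 7 o (n 24 (n 14 (n 10 (n 8 o (n 9 o o)) (n 12 (n 11 o o) o)) (n 18 (n 16 (n 15 o o) o)
    (n 21 (n 19 o (n 20 o o)) (n 23 (n 22 o o) o)))) (n 40 (n 32 (n 28 (n 26 (n 25 o o) (n 27 o
    o)) (n 30 o (n 31 o o))) (n 36 (n 34 (n 33 o o) (n 35 o o)) (n 38 (n 37 o o) (n 39 o o)))) (n
    47 (n 44 (n 42 (n 41 o o) (n 43 o o)) (n 46 (n 45 o o) o)) (n 50 (n 49 (n 48 o o) o) o))))) (n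
    95 (n 68 (n 58 (n 54 (n 52 o (n 53 o o)) (n 56 (n 55 o o) o)) (n 62 (n 60 (n 59 o o) o) (n 64
    o (n 66 (n 65 o o) (n 67 o o))))) (n 84 (n 76 (n 72 (n 70 (n 69 o o) (n 71 o o)) (n 74 (n 73 o
    o) (n 75 o o))) (n 80 (n 78 (n 77 o o) (n 79 o o)) (n 82 (n 81 o o) (n 83 o o)))) (n 91 (n 88
    (n 86 (n 85 o o) (n 87 o o)) (n 90 (n 89 o o) o)) (n 94 (n 93 (n 92 o o) o) o)))) (n 110 (n
    103 (n 99 (n 97 (n 96 o o) o) (n 101 o (n 102 o o))) (n 108 (n 105 o (n 107 (n 106 o o) o))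
    o)) o))

def t74 : QT :=
  n 56 (n 11 (n 1 o (n 4 (n 2 o o) (n 8 (n 6 (n 5 o o) o) (n 10 o o)))) (n 32 (n 18 (n 14 (n 12
    o (n 13 o o)) (n 16 (n 15 o o) o)) (n 24 (n 20 (n 19 o o) (n 22 o (n 23 o o))) (n 28 (n 26 (n
    25 o o) (n 27 o o)) (n 30 (n 29 o o) (n 31 o o))))) (n 48 (n 41 (n 37 (n 34 (n 33 o o) (n 35 o
    o)) (n 39 (n 38 o o) (n 40 o o))) (n 45 (n 43 (n 42 o o) (n 44 o o)) (n 47 (n 46 o o) o))) (n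
    53 (n 51 o (n 52 o o)) (n 55 (n 54 o o) o))))) (n 101 (n 80 (n 64 (n 59 (n 57 o (n 58 o o)) (n
    61 (n 60 o o) o)) (n 71 (n 67 (n 65 o (n 66 o o)) (n 69 (n 68 o o) (n 70 o o))) (n 75 (n 73 (n
    72 o o) (n 74 o o)) (n 78 (n 77 o o) (n 79 o o))))) (n 94 (n 88 (n 84 (n 82 (n 81 o o) (n 83 o
    o)) (n 86 (n 85 o o) (n 87 o o))) (n 92 (n 90 (n 89 o o) (n 91 o o)) (n 93 o o))) (n 98 (n 96
    o (n 97 o o)) (n 100 (n 99 o o) o)))) (n 111 (n 108 (n 104 (n 102 o o) (n 106 o (n 107 o o)))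
    (n 110 o o)) o))

def t75 : QT :=
  n 61 (n 16 (n 2 o (n 9 (n 4 (n 3 o o) (n 7 (n 5 o (n 6 o o)) o)) (n 13 (n 11 (n 10 o o) o) (n
    15 o o)))) (n 43 (n 27 (n 20 (n 17 o (n 18 o o)) (n 23 (n 21 o (n 22 o o)) (n 25 (n 24 o o) (n
    26 o o)))) (n 35 (n 31 (n 29 (n 28 o o) (n 30 o o)) (n 33 (n 32 o o) (n 34 o o))) (n 39 (n 37
    (n 36 o o) (n 38 o o)) (n 41 (n 40 o o) (n 42 o o))))) (n 54 (n 50 (n 47 (n 45 (n 44 o o) (n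
    46 o o)) o) (n 52 o (n 53 o o))) (n 58 (n 56 o (n 57 o o)) (n 60 (n 59 o o) o))))) (n 105 (n
    88 (n 72 (n 65 (n 62 o (n 63 o (n 64 o o))) (n 68 (n 66 o (n 67 o o)) (n 70 (n 69 o o) (n 71 o
    o)))) (n 80 (n 76 (n 74 (n 73 o o) (n 75 o o)) (n 78 (n 77 o o) (n 79 o o))) (n 84 (n 82 (n 81
    o o) (n 83 o o)) (n 86 (n 85 o o) (n 87 o o))))) (n 98 (n 94 (n 91 (n 89 o (n 90 o o)) (n 93
    (n 92 o o) o)) (n 96 o (n 97 o o))) (n 102 (n 100 o (n 101 o o)) (n 104 (n 103 o o) o)))) (n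
    111 (n 110 (n 109 (n 107 (n 106 o o) o) o) o) o))

def t76 : QT :=
  n 60 (n 15 (n 2 o (n 8 (n 4 o (n 6 (n 5 o o) o)) (n 12 (n 10 (n 9 o o) o) (n 13 o (n 14 o
    o))))) (n 41 (n 24 (n 18 (n 16 o (n 17 o o)) (n 20 (n 19 o o) (n 22 (n 21 o o) (n 23 o o))))
    (n 32 (n 28 (n 26 (n 25 o o) (n 27 o o)) (n 30 o (n 31 o o))) (n 37 o (n 39 (n 38 o o) (n 40 o
    o))))) (n 53 (n 48 (n 45 (n 43 (n 42 o o) (n 44 o o)) o) (n 51 o (n 52 o o))) (n 57 (n 55 o (n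
    56 o o)) (n 59 (n 58 o o) o))))) (n 104 (n 86 (n 70 (n 63 (n 61 o (n 62 o o)) (n 66 (n 64 o (n
    65 o o)) (n 68 (n 67 o o) (n 69 o o)))) (n 78 (n 74 (n 72 (n 71 o o) (n 73 o o)) (n 76 (n 75 o
    o) o)) (n 82 (n 80 (n 79 o o) (n 81 o o)) (n 84 (n 83 o o) (n 85 o o))))) (n 97 (n 93 (n 90 (n
    88 (n 87 o o) (n 89 o o)) (n 92 (n 91 o o) o)) (n 95 o (n 96 o o))) (n 101 (n 99 o (n 100 o
    o)) (n 103 (n 102 o o) o)))) (n 111 (n 110 (n 108 (n 106 (n 105 o o) o) o) o) o))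

def t77 : QT :=
  n 54 (n 10 (n 1 o (n 3 (n 2 o o) (n 7 (n 5 (n 4 o o) o) (n 9 o o)))) (n 30 (n 17 (n 13 (n 11 o
    (n 12 o o)) (n 15 (n 14 o o) o)) (n 22 (n 19 (n 18 o o) (n 20 o (n 21 o o))) (n 26 (n 24 (n 23
    o o) (n 25 o o)) (n 28 (n 27 o o) (n 29 o o))))) (n 46 (n 39 (n 35 (n 32 (n 31 o o) (n 33 o
    o)) (n 37 (n 36 o o) (n 38 o o))) (n 43 (n 41 (n 40 o o) (n 42 o o)) (n 45 (n 44 o o) o))) (n
    51 (n 49 (n 48 (n 47 o o) o) (n 50 o o)) (n 53 (n 52 o o) o))))) (n 99 (n 74 (n 61 (n 57 (n 55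
    o (n 56 o o)) (n 59 (n 58 o o) o)) (n 66 (n 63 (n 62 o o) (n 64 o (n 65 o o))) (n 70 (n 68 (n
    67 o o) (n 69 o o)) (n 72 (n 71 o o) (n 73 o o))))) (n 91 (n 83 (n 79 (n 76 (n 75 o o) (n 77 o
    o)) (n 81 (n 80 o o) (n 82 o o))) (n 87 (n 85 (n 84 o o) (n 86 o o)) (n 89 (n 88 o o) (n 90 o
    o)))) (n 96 (n 94 (n 93 (n 92 o o) o) (n 95 o o)) (n 98 (n 97 o o) o)))) (n 111 (n 108 (n 103
    (n 101 (n 100 o o) o) (n 105 o (n 107 (n 106 o o) o))) (n 110 o o)) o))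

def t78 : QT :=
  n 50 (n 5 o (n 23 (n 13 (n 9 (n 6 o (n 7 o (n 8 o o))) (n 11 (n 10 o o) o)) (n 17 (n 15 (n 14
    o o) o) (n 19 o (n 21 (n 20 o o) (n 22 o o))))) (n 38 (n 30 (n 26 (n 24 o (n 25 o o)) (n 28 (n
    27 o o) (n 29 o o))) (n 34 (n 32 (n 31 o o) (n 33 o o)) (n 36 (n 35 o o) (n 37 o o)))) (n 46
    (n 42 (n 40 (n 39 o o) (n 41 o o)) (n 44 (n 43 o o) (n 45 o o))) (n 49 (n 48 (n 47 o o) o)
    o))))) (n 95 (n 67 (n 57 (n 53 (n 51 o (n 52 o o)) (n 55 (n 54 o o) o)) (n 61 (n 59 (n 58 o o)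
    o) (n 63 o (n 65 (n 64 o o) (n 66 o o))))) (n 83 (n 75 (n 71 (n 69 (n 68 o o) (n 70 o o)) (n
    73 (n 72 o o) (n 74 o o))) (n 79 (n 77 (n 76 o o) (n 78 o o)) (n 81 (n 80 o o) (n 82 o o))))
    (n 91 (n 87 (n 85 (n 84 o o) (n 86 o o)) (n 89 (n 88 o o) (n 90 o o))) (n 94 (n 93 (n 92 o o)
    o) o)))) (n 110 (n 103 (n 99 (n 97 (n 96 o o) o) (n 101 o (n 102 o o))) (n 107 (n 105 o (n 106
    o o)) (n 109 (n 108 o o) o))) o))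

def t79 : QT :=
  n 52 (n 8 (n 1 o (n 2 o (n 4 o (n 6 o (n 7 o o))))) (n 26 (n 15 (n 11 (n 9 o (n 10 o o)) (n 13
    (n 12 o o) o)) (n 19 (n 17 (n 16 o o) o) (n 22 (n 20 o (n 21 o o)) (n 24 (n 23 o o) (n 25 o
    o))))) (n 42 (n 34 (n 30 (n 28 (n 27 o o) o) (n 32 (n 31 o o) (n 33 o o))) (n 38 (n 36 (n 35 o
    o) (n 37 o o)) (n 40 (n 39 o o) (n 41 o o)))) (n 49 (n 46 (n 44 (n 43 o o) (n 45 o o)) (n 48
    (n 47 o o) o)) (n 51 (n 50 o o) o))))) (n 97 (n 71 (n 59 (n 55 (n 53 o (n 54 o o)) (n 57 (n 56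
    o o) o)) (n 64 (n 61 (n 60 o o) o) (n 67 o (n 69 (n 68 o o) (n 70 o o))))) (n 88 (n 80 (n 75
    (n 73 (n 72 o o) (n 74 o o)) (n 77 (n 76 o o) (n 79 o o))) (n 84 (n 82 (n 81 o o) (n 83 o o))
    (n 86 (n 85 o o) (n 87 o o)))) (n 94 (n 92 (n 90 (n 89 o o) (n 91 o o)) (n 93 o o)) (n 96 (n
    95 o o) o)))) (n 110 (n 104 (n 100 (n 99 (n 98 o o) o) (n 102 o (n 103 o o))) (n 108 (n 106 o
    (n 107 o o)) (n 109 o o))) o))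

def t80 : QT :=
  n 52 (n 8 (n 1 o (n 2 o (n 4 o (n 6 o (n 7 o o))))) (n 26 (n 15 (n 11 (n 9 o (n 10 o o)) (n 13
    (n 12 o o) o)) (n 19 (n 17 (n 16 o o) o) (n 22 (n 20 o (n 21 o o)) (n 24 (n 23 o o) (n 25 o
    o))))) (n 42 (n 34 (n 30 (n 28 (n 27 o o) (n 29 o o)) (n 32 (n 31 o o) (n 33 o o))) (n 38 (n
    36 o (n 37 o o)) (n 40 (n 39 o o) (n 41 o o)))) (n 49 (n 46 (n 44 (n 43 o o) (n 45 o o)) (n 48
    (n 47 o o) o)) (n 51 (n 50 o o) o))))) (n 97 (n 70 (n 59 (n 55 (n 53 o (n 54 o o)) (n 57 (n 56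
    o o) o)) (n 63 (n 61 (n 60 o o) o) (n 66 (n 64 o (n 65 o o)) (n 68 (n 67 o o) (n 69 o o)))))
    (n 87 (n 79 (n 74 (n 72 (n 71 o o) (n 73 o o)) (n 76 (n 75 o o) (n 78 o o))) (n 83 (n 81 (n 80
    o o) (n 82 o o)) (n 85 (n 84 o o) (n 86 o o)))) (n 94 (n 91 (n 89 (n 88 o o) (n 90 o o)) (n 93
    (n 92 o o) o)) (n 96 (n 95 o o) o)))) (n 110 (n 104 (n 100 (n 99 (n 98 o o) o) (n 102 o (n 103
    o o))) (n 108 (n 106 o (n 107 o o)) o)) o))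

def t81 : QT :=
  n 56 (n 12 (n 1 o (n 4 (n 2 o o) (n 8 (n 6 (n 5 o o) o) (n 10 o (n 11 o o))))) (n 34 (n 19 (n
    15 (n 13 o (n 14 o o)) (n 17 (n 16 o o) o)) (n 26 (n 22 (n 20 o (n 21 o o)) (n 24 (n 23 o o)
    (n 25 o o))) (n 30 (n 28 (n 27 o o) (n 29 o o)) (n 32 (n 31 o o) (n 33 o o))))) (n 48 (n 42 (n
    38 (n 36 (n 35 o o) (n 37 o o)) (n 40 (n 39 o o) (n 41 o o))) (n 45 o (n 47 (n 46 o o) o))) (n
    53 (n 51 o (n 52 o o)) (n 55 (n 54 o o) o))))) (n 101 (n 79 (n 64 (n 59 (n 57 o (n 58 o o)) (n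
    61 (n 60 o o) o)) (n 71 (n 67 (n 65 o (n 66 o o)) (n 69 (n 68 o o) (n 70 o o))) (n 75 (n 73 (n
    72 o o) (n 74 o o)) (n 77 (n 76 o o) (n 78 o o))))) (n 94 (n 87 (n 83 (n 81 (n 80 o o) (n 82 o
    o)) (n 85 (n 84 o o) (n 86 o o))) (n 91 (n 89 (n 88 o o) (n 90 o o)) (n 93 (n 92 o o) o))) (n
    98 (n 96 o (n 97 o o)) (n 100 (n 99 o o) o)))) (n 111 (n 108 (n 104 (n 102 o o) (n 106 o (n
    107 o o))) (n 110 o o)) o))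

def t82 : QT :=
  n 52 (n 8 (n 1 o (n 2 o (n 4 o (n 6 o (n 7 o o))))) (n 26 (n 15 (n 11 (n 9 o (n 10 o o)) (n 13
    (n 12 o o) o)) (n 19 (n 17 (n 16 o o) o) (n 23 (n 21 (n 20 o o) (n 22 o o)) (n 25 (n 24 o o)
    o)))) (n 42 (n 34 (n 30 (n 28 (n 27 o o) (n 29 o o)) (n 32 (n 31 o o) (n 33 o o))) (n 38 (n 36
    o (n 37 o o)) (n 40 (n 39 o o) (n 41 o o)))) (n 49 (n 46 (n 44 (n 43 o o) (n 45 o o)) (n 48 (n
    47 o o) o)) (n 51 (n 50 o o) o))))) (n 97 (n 70 (n 59 (n 55 (n 53 o (n 54 o o)) (n 57 (n 56 o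
    o) o)) (n 63 (n 61 (n 60 o o) o) (n 66 (n 64 o (n 65 o o)) (n 68 (n 67 o o) (n 69 o o))))) (n
    87 (n 79 (n 74 (n 72 (n 71 o o) (n 73 o o)) (n 77 (n 75 o o) (n 78 o o))) (n 83 (n 81 (n 80 o
    o) (n 82 o o)) (n 85 (n 84 o o) (n 86 o o)))) (n 94 (n 91 (n 89 (n 88 o o) (n 90 o o)) (n 93
    (n 92 o o) o)) (n 96 (n 95 o o) o)))) (n 110 (n 104 (n 100 (n 99 (n 98 o o) o) (n 102 o (n 103
    o o))) (n 108 (n 106 o (n 107 o o)) (n 109 o o))) o))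

def t83 : QT :=
  n 62 (n 17 (n 2 o (n 9 (n 5 (n 3 o (n 4 o o)) (n 7 (n 6 o o) o)) (n 13 (n 11 (n 10 o o) o) (n
    15 o (n 16 o o))))) (n 45 (n 29 (n 21 (n 18 o (n 19 o (n 20 o o))) (n 25 (n 23 (n 22 o o) (n
    24 o o)) (n 27 (n 26 o o) (n 28 o o)))) (n 37 (n 33 (n 31 (n 30 o o) (n 32 o o)) (n 35 (n 34 o
    o) (n 36 o o))) (n 41 (n 39 (n 38 o o) (n 40 o o)) (n 43 (n 42 o o) (n 44 o o))))) (n 55 (n 51
    (n 48 (n 46 o (n 47 o o)) o) (n 53 o (n 54 o o))) (n 59 (n 57 o (n 58 o o)) (n 61 (n 60 o o)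
    o))))) (n 107 (n 89 (n 74 (n 66 (n 63 o (n 64 o (n 65 o o))) (n 70 (n 68 (n 67 o o) (n 69 o
    o)) (n 72 (n 71 o o) (n 73 o o)))) (n 82 (n 78 (n 76 (n 75 o o) (n 77 o o)) (n 80 (n 79 o o)
    (n 81 o o))) (n 86 (n 84 (n 83 o o) (n 85 o o)) (n 88 (n 87 o o) o)))) (n 99 (n 95 (n 93 (n 91
    (n 90 o o) (n 92 o o)) o) (n 97 o (n 98 o o))) (n 103 (n 101 o (n 102 o o)) (n 106 (n 105 (n
    104 o o) o) o)))) o)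

def t84 : QT :=
  n 60 (n 15 (n 2 o (n 8 (n 4 o (n 6 (n 5 o o) o)) (n 12 (n 10 (n 9 o o) o) (n 13 o (n 14 o
    o))))) (n 41 (n 24 (n 18 (n 16 o (n 17 o o)) (n 20 (n 19 o o) (n 22 (n 21 o o) (n 23 o o))))
    (n 32 (n 28 (n 26 (n 25 o o) (n 27 o o)) (n 30 (n 29 o o) (n 31 o o))) (n 37 (n 35 (n 33 o o)
    (n 36 o o)) (n 39 (n 38 o o) (n 40 o o))))) (n 53 (n 48 (n 45 (n 43 (n 42 o o) (n 44 o o)) o)
    (n 51 o (n 52 o o))) (n 57 (n 55 o (n 56 o o)) (n 59 (n 58 o o) o))))) (n 104 (n 86 (n 70 (n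
    63 (n 61 o (n 62 o o)) (n 66 (n 64 o (n 65 o o)) (n 68 (n 67 o o) (n 69 o o)))) (n 78 (n 74 (n
    72 (n 71 o o) (n 73 o o)) (n 76 (n 75 o o) o)) (n 82 (n 80 (n 79 o o) (n 81 o o)) (n 84 o (n
    85 o o))))) (n 97 (n 93 (n 89 (n 87 o (n 88 o o)) (n 91 (n 90 o o) (n 92 o o))) (n 95 o (n 96
    o o))) (n 101 (n 99 o (n 100 o o)) (n 103 (n 102 o o) o)))) (n 111 (n 110 (n 108 (n 106 (n 105
    o o) o) o) o) o))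

def t85 : QT :=
  n 52 (n 7 (n 1 o (n 2 o (n 3 o (n 5 o (n 6 o o))))) (n 26 (n 15 (n 11 (n 8 o (n 9 o (n 10 o
    o))) (n 13 (n 12 o o) o)) (n 19 (n 17 (n 16 o o) o) (n 22 (n 20 o (n 21 o o)) (n 24 (n 23 o o)
    (n 25 o o))))) (n 42 (n 34 (n 30 (n 28 (n 27 o o) o) (n 32 (n 31 o o) (n 33 o o))) (n 38 (n 36
    o (n 37 o o)) (n 40 (n 39 o o) (n 41 o o)))) (n 49 (n 46 (n 44 (n 43 o o) (n 45 o o)) (n 48 (n
    47 o o) o)) (n 51 (n 50 o o) o))))) (n 97 (n 71 (n 60 (n 56 (n 53 o (n 54 o (n 55 o o))) (n 58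
    (n 57 o o) o)) (n 64 (n 62 (n 61 o o) o) (n 67 o (n 69 (n 68 o o) (n 70 o o))))) (n 88 (n 80
    (n 75 (n 73 (n 72 o o) (n 74 o o)) o) (n 84 (n 82 (n 81 o o) (n 83 o o)) (n 86 (n 85 o o) (n
    87 o o)))) (n 94 (n 92 (n 90 (n 89 o o) (n 91 o o)) (n 93 o o)) (n 96 (n 95 o o) o)))) (n 110
    (n 104 (n 100 (n 99 (n 98 o o) o) (n 102 o (n 103 o o))) (n 108 (n 106 o (n 107 o o)) (n 109 o
    o))) o))

def t86 : QT :=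
  n 55 (n 10 (n 1 o (n 3 o (n 7 (n 5 (n 4 o o) o) (n 9 o o)))) (n 31 (n 17 (n 13 (n 11 o (n 12 o
    o)) (n 15 (n 14 o o) o)) (n 23 (n 19 (n 18 o o) (n 21 (n 20 o o) (n 22 o o))) (n 27 (n 25 (n
    24 o o) (n 26 o o)) (n 29 (n 28 o o) (n 30 o o))))) (n 47 (n 40 (n 36 (n 33 (n 32 o o) (n 34 o
    o)) (n 38 (n 37 o o) (n 39 o o))) (n 44 (n 42 (n 41 o o) (n 43 o o)) (n 46 (n 45 o o) o))) (n
    52 (n 50 o (n 51 o o)) (n 54 (n 53 o o) o))))) (n 100 (n 77 (n 63 (n 58 (n 56 o (n 57 o o)) (n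
    60 (n 59 o o) o)) (n 69 (n 65 (n 64 o o) (n 67 (n 66 o o) (n 68 o o))) (n 73 (n 71 (n 70 o o)
    (n 72 o o)) (n 75 (n 74 o o) (n 76 o o))))) (n 92 (n 85 (n 81 (n 79 (n 78 o o) (n 80 o o)) (n
    83 (n 82 o o) (n 84 o o))) (n 89 (n 87 (n 86 o o) (n 88 o o)) (n 91 (n 90 o o) o))) (n 97 (n
    95 (n 94 (n 93 o o) o) (n 96 o o)) (n 99 (n 98 o o) o)))) (n 111 (n 108 (n 104 (n 102 (n 101 o
    o) o) (n 106 o (n 107 o o))) (n 110 o o)) o))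

def t87 : QT :=
  n 55 (n 11 (n 1 o (n 4 (n 2 o o) (n 8 (n 6 (n 5 o o) o) (n 10 o o)))) (n 32 (n 18 (n 14 (n 12
    o (n 13 o o)) (n 16 (n 15 o o) o)) (n 24 (n 20 (n 19 o o) (n 22 (n 21 o o) (n 23 o o))) (n 28
    (n 26 (n 25 o o) (n 27 o o)) (n 30 (n 29 o o) (n 31 o o))))) (n 47 (n 40 (n 36 (n 34 (n 33 o
    o) o) (n 38 (n 37 o o) (n 39 o o))) (n 44 (n 42 (n 41 o o) (n 43 o o)) (n 46 (n 45 o o) o)))
    (n 52 (n 50 o (n 51 o o)) (n 54 (n 53 o o) o))))) (n 99 (n 76 (n 62 (n 58 (n 56 o (n 57 o o))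
    (n 60 (n 59 o o) o)) (n 68 (n 64 (n 63 o o) (n 66 (n 65 o o) (n 67 o o))) (n 72 (n 70 (n 69 o
    o) (n 71 o o)) (n 74 (n 73 o o) (n 75 o o))))) (n 91 (n 84 (n 80 (n 78 (n 77 o o) (n 79 o o))
    (n 82 (n 81 o o) o)) (n 88 (n 86 (n 85 o o) (n 87 o o)) (n 90 (n 89 o o) o))) (n 96 (n 94 (n
    93 (n 92 o o) o) (n 95 o o)) (n 98 (n 97 o o) o)))) (n 111 (n 108 (n 103 (n 101 (n 100 o o) o)
    (n 105 o (n 107 (n 106 o o) o))) (n 110 o o)) o))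

def t88 : QT :=
  n 49 (n 5 o (n 22 (n 13 (n 9 (n 6 o (n 7 o (n 8 o o))) (n 11 (n 10 o o) o)) (n 17 (n 15 (n 14
    o o) o) (n 19 o (n 21 (n 20 o o) o)))) (n 37 (n 29 (n 25 (n 23 o (n 24 o o)) (n 27 (n 26 o o)
    (n 28 o o))) (n 33 (n 31 (n 30 o o) (n 32 o o)) (n 35 (n 34 o o) (n 36 o o)))) (n 44 (n 41 (n
    39 (n 38 o o) (n 40 o o)) (n 43 (n 42 o o) o)) (n 48 (n 46 (n 45 o o) (n 47 o o)) o))))) (n 94
    (n 66 (n 57 (n 53 (n 50 o (n 51 o (n 52 o o))) (n 55 (n 54 o o) o)) (n 61 (n 59 (n 58 o o) o)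
    (n 63 o (n 64 o (n 65 o o))))) (n 81 (n 73 (n 69 (n 67 o (n 68 o o)) (n 71 (n 70 o o) (n 72 o
    o))) (n 77 (n 75 (n 74 o o) (n 76 o o)) (n 79 (n 78 o o) (n 80 o o)))) (n 89 (n 85 (n 83 (n 82
    o o) (n 84 o o)) (n 87 (n 86 o o) (n 88 o o))) (n 93 (n 91 (n 90 o o) (n 92 o o)) o)))) (n 110
    (n 102 (n 98 (n 96 (n 95 o o) o) (n 100 o (n 101 o o))) (n 107 (n 104 o (n 106 (n 105 o o) o))
    (n 109 (n 108 o o) o))) o))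

def t89 : QT :=
  n 62 (n 17 (n 2 o (n 9 (n 5 (n 3 o (n 4 o o)) (n 7 (n 6 o o) o)) (n 13 (n 11 (n 10 o o) o) (n
    15 o (n 16 o o))))) (n 45 (n 29 (n 21 (n 18 o (n 19 o (n 20 o o))) (n 25 (n 23 (n 22 o o) (n
    24 o o)) (n 27 (n 26 o o) (n 28 o o)))) (n 37 (n 33 (n 31 (n 30 o o) (n 32 o o)) (n 35 (n 34 o
    o) (n 36 o o))) (n 41 (n 39 (n 38 o o) (n 40 o o)) (n 43 (n 42 o o) (n 44 o o))))) (n 55 (n 51
    (n 49 (n 47 (n 46 o o) (n 48 o o)) o) (n 53 o (n 54 o o))) (n 59 (n 57 o (n 58 o o)) (n 61 (n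
    60 o o) o))))) (n 106 (n 88 (n 73 (n 66 (n 63 o (n 64 o (n 65 o o))) (n 69 (n 67 o (n 68 o o))
    (n 71 (n 70 o o) (n 72 o o)))) (n 81 (n 77 (n 75 (n 74 o o) (n 76 o o)) (n 79 (n 78 o o) (n 80
    o o))) (n 85 (n 83 (n 82 o o) (n 84 o o)) (n 87 (n 86 o o) o)))) (n 98 (n 94 (n 91 (n 89 o (n
    90 o o)) (n 93 (n 92 o o) o)) (n 96 o (n 97 o o))) (n 102 (n 100 o (n 101 o o)) (n 105 (n 104
    (n 103 o o) o) o)))) o)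

def t90 : QT :=
  n 55 (n 11 (n 1 o (n 4 (n 2 o o) (n 8 (n 6 (n 5 o o) o) (n 10 o o)))) (n 32 (n 18 (n 14 (n 12
    o (n 13 o o)) (n 16 (n 15 o o) o)) (n 24 (n 20 (n 19 o o) (n 22 (n 21 o o) (n 23 o o))) (n 28
    (n 26 (n 25 o o) (n 27 o o)) (n 30 (n 29 o o) (n 31 o o))))) (n 47 (n 40 (n 36 (n 34 (n 33 o
    o) o) (n 38 (n 37 o o) (n 39 o o))) (n 44 (n 42 (n 41 o o) (n 43 o o)) (n 46 (n 45 o o) o)))
    (n 52 (n 50 o (n 51 o o)) (n 54 (n 53 o o) o))))) (n 100 (n 77 (n 63 (n 58 (n 56 o (n 57 o o))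
    (n 60 (n 59 o o) o)) (n 69 (n 65 (n 64 o o) (n 67 (n 66 o o) (n 68 o o))) (n 73 (n 71 (n 70 o
    o) (n 72 o o)) (n 75 (n 74 o o) (n 76 o o))))) (n 93 (n 86 (n 82 (n 80 (n 78 o (n 79 o o)) (n
    81 o o)) (n 84 (n 83 o o) (n 85 o o))) (n 90 (n 88 (n 87 o o) (n 89 o o)) (n 92 (n 91 o o)
    o))) (n 97 (n 95 o (n 96 o o)) (n 99 (n 98 o o) o)))) (n 111 (n 108 (n 103 (n 101 o o) (n 105
    o (n 107 (n 106 o o) o))) (n 110 o o)) o))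

def t91 : QT :=
  n 54 (n 10 (n 1 o (n 3 o (n 7 (n 5 (n 4 o o) o) (n 9 o o)))) (n 30 (n 17 (n 13 (n 11 o (n 12 o
    o)) (n 15 (n 14 o o) o)) (n 22 (n 19 (n 18 o o) (n 20 o (n 21 o o))) (n 26 (n 24 (n 23 o o) (n
    25 o o)) (n 28 (n 27 o o) (n 29 o o))))) (n 46 (n 39 (n 34 (n 32 (n 31 o o) (n 33 o o)) (n 37
    (n 35 o o) (n 38 o o))) (n 43 (n 41 (n 40 o o) (n 42 o o)) (n 45 (n 44 o o) o))) (n 51 (n 49 o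
    (n 50 o o)) (n 53 (n 52 o o) o))))) (n 99 (n 74 (n 61 (n 57 (n 55 o (n 56 o o)) (n 59 (n 58 o
    o) o)) (n 66 (n 63 (n 62 o o) (n 64 o (n 65 o o))) (n 70 (n 68 (n 67 o o) (n 69 o o)) (n 72 (n
    71 o o) (n 73 o o))))) (n 91 (n 83 (n 79 (n 76 (n 75 o o) (n 77 o o)) (n 81 (n 80 o o) (n 82 o
    o))) (n 87 (n 85 (n 84 o o) (n 86 o o)) (n 89 (n 88 o o) (n 90 o o)))) (n 96 (n 94 (n 93 (n 92
    o o) o) (n 95 o o)) (n 98 (n 97 o o) o)))) (n 111 (n 108 (n 103 (n 101 (n 100 o o) o) (n 105 o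
    (n 107 (n 106 o o) o))) (n 110 o o)) o))

def t92 : QT :=
  n 60 (n 15 (n 2 o (n 8 (n 4 (n 3 o o) (n 6 (n 5 o o) o)) (n 12 (n 10 (n 9 o o) o) (n 13 o (n
    14 o o))))) (n 42 (n 25 (n 18 (n 16 o (n 17 o o)) (n 21 (n 19 o (n 20 o o)) (n 23 (n 22 o o)
    (n 24 o o)))) (n 33 (n 29 (n 27 (n 26 o o) (n 28 o o)) (n 31 (n 30 o o) (n 32 o o))) (n 38 (n
    35 (n 34 o o) (n 37 o o)) (n 40 (n 39 o o) (n 41 o o))))) (n 53 (n 49 (n 46 (n 44 (n 43 o o)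
    (n 45 o o)) o) (n 51 o (n 52 o o))) (n 57 (n 55 o (n 56 o o)) (n 59 (n 58 o o) o))))) (n 104
    (n 85 (n 69 (n 63 (n 61 o (n 62 o o)) (n 65 (n 64 o o) (n 67 (n 66 o o) (n 68 o o)))) (n 77 (n
    73 (n 71 (n 70 o o) (n 72 o o)) (n 75 (n 74 o o) (n 76 o o))) (n 81 (n 79 (n 78 o o) (n 80 o
    o)) (n 83 (n 82 o o) (n 84 o o))))) (n 97 (n 93 (n 89 (n 87 (n 86 o o) (n 88 o o)) (n 91 (n 90
    o o) (n 92 o o))) (n 95 o (n 96 o o))) (n 101 (n 99 o (n 100 o o)) (n 103 (n 102 o o) o)))) (n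
    111 (n 110 (n 108 (n 106 (n 105 o o) o) o) o) o))

def t93 : QT :=
  n 50 (n 5 o (n 23 (n 13 (n 9 (n 6 o (n 7 o (n 8 o o))) (n 11 (n 10 o o) o)) (n 17 (n 15 (n 14
    o o) o) (n 19 o (n 21 (n 20 o o) (n 22 o o))))) (n 38 (n 30 (n 26 (n 24 o (n 25 o o)) (n 28 (n
    27 o o) (n 29 o o))) (n 34 (n 32 (n 31 o o) (n 33 o o)) (n 36 (n 35 o o) (n 37 o o)))) (n 46
    (n 42 (n 40 (n 39 o o) (n 41 o o)) (n 44 (n 43 o o) (n 45 o o))) (n 49 (n 48 (n 47 o o) o)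
    o))))) (n 95 (n 67 (n 57 (n 53 (n 51 o (n 52 o o)) (n 55 (n 54 o o) o)) (n 61 (n 59 (n 58 o o)
    o) (n 64 o (n 66 (n 65 o o) o)))) (n 83 (n 75 (n 71 (n 69 (n 68 o o) (n 70 o o)) (n 73 (n 72 o
    o) (n 74 o o))) (n 79 (n 77 (n 76 o o) (n 78 o o)) (n 81 (n 80 o o) (n 82 o o)))) (n 91 (n 87
    (n 85 (n 84 o o) (n 86 o o)) (n 89 (n 88 o o) (n 90 o o))) (n 94 (n 93 (n 92 o o) o) o)))) (n
    110 (n 102 (n 98 (n 96 o o) (n 100 o (n 101 o o))) (n 107 (n 104 o (n 106 (n 105 o o) o)) (n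
    109 (n 108 o o) o))) o))

def t94 : QT :=
  n 51 (n 7 (n 1 o (n 2 o (n 3 o (n 5 o (n 6 o o))))) (n 24 (n 14 (n 10 (n 8 o (n 9 o o)) (n 12
    (n 11 o o) o)) (n 18 (n 16 (n 15 o o) o) (n 20 o (n 22 (n 21 o o) (n 23 o o))))) (n 40 (n 32
    (n 28 (n 26 (n 25 o o) (n 27 o o)) (n 30 (n 29 o o) (n 31 o o))) (n 36 (n 34 (n 33 o o) (n 35
    o o)) (n 38 (n 37 o o) (n 39 o o)))) (n 47 (n 44 (n 42 (n 41 o o) (n 43 o o)) (n 46 (n 45 o o)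
    o)) (n 50 (n 49 (n 48 o o) o) o))))) (n 96 (n 69 (n 58 (n 54 (n 52 o (n 53 o o)) (n 56 (n 55 o
    o) o)) (n 62 (n 60 (n 59 o o) o) (n 65 o (n 67 (n 66 o o) (n 68 o o))))) (n 85 (n 77 (n 73 (n
    71 (n 70 o o) (n 72 o o)) (n 75 (n 74 o o) (n 76 o o))) (n 81 (n 79 (n 78 o o) (n 80 o o)) (n
    83 (n 82 o o) (n 84 o o)))) (n 92 (n 89 (n 87 (n 86 o o) (n 88 o o)) (n 91 (n 90 o o) o)) (n
    95 (n 94 o o) o)))) (n 110 (n 103 (n 99 (n 97 o o) (n 101 o (n 102 o o))) (n 107 (n 105 o (n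
    106 o o)) (n 109 (n 108 o o) o))) o))

def t95 : QT :=
  n 51 (n 7 o (n 24 (n 14 (n 10 (n 8 o (n 9 o o)) (n 12 (n 11 o o) o)) (n 18 (n 16 (n 15 o o) o)
    (n 20 o (n 22 (n 21 o o) (n 23 o o))))) (n 40 (n 32 (n 28 (n 26 (n 25 o o) (n 27 o o)) (n 30 o
    (n 31 o o))) (n 36 (n 34 (n 33 o o) (n 35 o o)) (n 38 (n 37 o o) (n 39 o o)))) (n 47 (n 44 (n
    42 (n 41 o o) (n 43 o o)) (n 46 (n 45 o o) o)) (n 50 (n 49 (n 48 o o) o) o))))) (n 96 (n 68 (n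
    58 (n 54 (n 52 o (n 53 o o)) (n 56 (n 55 o o) o)) (n 62 (n 60 (n 59 o o) o) (n 65 o (n 67 (n
    66 o o) o)))) (n 85 (n 76 (n 72 (n 70 (n 69 o o) (n 71 o o)) (n 74 (n 73 o o) (n 75 o o))) (n
    81 (n 78 (n 77 o o) (n 80 o o)) (n 83 (n 82 o o) (n 84 o o)))) (n 92 (n 89 (n 87 (n 86 o o) (n
    88 o o)) (n 91 (n 90 o o) o)) (n 95 (n 94 o o) o)))) (n 110 (n 103 (n 99 (n 97 o o) (n 101 o
    (n 102 o o))) (n 107 (n 105 o (n 106 o o)) (n 109 (n 108 o o) o))) o))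

def t96 : QT :=
  n 52 (n 8 (n 1 o (n 2 o (n 4 o (n 6 o (n 7 o o))))) (n 27 (n 15 (n 11 (n 9 o (n 10 o o)) (n 13
    (n 12 o o) o)) (n 19 (n 17 (n 16 o o) o) (n 23 (n 21 (n 20 o o) (n 22 o o)) (n 25 (n 24 o o)
    (n 26 o o))))) (n 43 (n 35 (n 31 (n 29 (n 28 o o) (n 30 o o)) (n 33 (n 32 o o) (n 34 o o))) (n
    39 (n 37 (n 36 o o) (n 38 o o)) (n 41 (n 40 o o) (n 42 o o)))) (n 49 (n 47 (n 45 (n 44 o o) (n
    46 o o)) (n 48 o o)) (n 51 (n 50 o o) o))))) (n 96 (n 70 (n 59 (n 55 (n 53 o (n 54 o o)) (n 57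
    (n 56 o o) o)) (n 63 (n 61 (n 60 o o) o) (n 66 (n 64 o (n 65 o o)) (n 68 (n 67 o o) (n 69 o
    o))))) (n 86 (n 78 (n 74 (n 72 (n 71 o o) (n 73 o o)) (n 76 (n 75 o o) o)) (n 82 (n 80 (n 79 o
    o) (n 81 o o)) (n 84 (n 83 o o) (n 85 o o)))) (n 93 (n 90 (n 88 (n 87 o o) (n 89 o o)) (n 92
    (n 91 o o) o)) (n 95 (n 94 o o) o)))) (n 110 (n 103 (n 99 (n 97 o o) (n 101 o (n 102 o o))) (n
    108 (n 105 o (n 107 (n 106 o o) o)) o)) o))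

def t97 : QT :=
  n 52 (n 8 (n 1 o (n 2 o (n 4 o (n 6 o (n 7 o o))))) (n 26 (n 15 (n 11 (n 9 o (n 10 o o)) (n 13
    (n 12 o o) o)) (n 19 (n 17 (n 16 o o) o) (n 22 (n 20 o (n 21 o o)) (n 24 (n 23 o o) (n 25 o
    o))))) (n 42 (n 34 (n 30 (n 28 (n 27 o o) (n 29 o o)) (n 32 (n 31 o o) (n 33 o o))) (n 38 (n
    36 o (n 37 o o)) (n 40 (n 39 o o) (n 41 o o)))) (n 49 (n 46 (n 44 (n 43 o o) (n 45 o o)) (n 48
    (n 47 o o) o)) (n 51 (n 50 o o) o))))) (n 97 (n 71 (n 59 (n 55 (n 53 o (n 54 o o)) (n 57 (n 56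
    o o) o)) (n 64 (n 61 (n 60 o o) o) (n 67 o (n 69 (n 68 o o) (n 70 o o))))) (n 88 (n 80 (n 75
    (n 73 (n 72 o o) (n 74 o o)) o) (n 84 (n 82 (n 81 o o) (n 83 o o)) (n 86 (n 85 o o) (n 87 o
    o)))) (n 94 (n 92 (n 90 (n 89 o o) (n 91 o o)) (n 93 o o)) (n 96 (n 95 o o) o)))) (n 110 (n
    104 (n 100 (n 99 (n 98 o o) o) (n 102 o (n 103 o o))) (n 108 (n 106 o (n 107 o o)) o)) o))

def t98 : QT :=
  n 51 (n 7 (n 1 o (n 2 o (n 3 o (n 5 o (n 6 o o))))) (n 24 (n 14 (n 10 (n 8 o (n 9 o o)) (n 12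
    (n 11 o o) o)) (n 18 (n 16 (n 15 o o) o) (n 20 o (n 22 (n 21 o o) (n 23 o o))))) (n 40 (n 32
    (n 28 (n 26 (n 25 o o) (n 27 o o)) (n 30 o (n 31 o o))) (n 36 (n 34 (n 33 o o) (n 35 o o)) (n
    38 (n 37 o o) (n 39 o o)))) (n 47 (n 44 (n 42 (n 41 o o) (n 43 o o)) (n 46 (n 45 o o) o)) (n
    50 (n 49 (n 48 o o) o) o))))) (n 95 (n 68 (n 58 (n 54 (n 52 o (n 53 o o)) (n 56 (n 55 o o) o))
    (n 62 (n 60 (n 59 o o) o) (n 65 (n 63 o (n 64 o o)) (n 67 (n 66 o o) o)))) (n 84 (n 76 (n 72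
    (n 70 (n 69 o o) (n 71 o o)) (n 74 (n 73 o o) (n 75 o o))) (n 80 (n 78 (n 77 o o) (n 79 o o))
    (n 82 (n 81 o o) (n 83 o o)))) (n 91 (n 88 (n 86 (n 85 o o) (n 87 o o)) (n 90 (n 89 o o) o))
    (n 94 (n 93 (n 92 o o) o) o)))) (n 110 (n 103 (n 99 (n 97 (n 96 o o) o) (n 101 o (n 102 o o)))
    (n 108 (n 105 o (n 107 (n 106 o o) o)) o)) o))

def t99 : QT :=
  n 61 (n 16 (n 2 o (n 9 (n 5 (n 3 o (n 4 o o)) (n 7 (n 6 o o) o)) (n 13 (n 11 (n 10 o o) o) (n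
    15 o o)))) (n 43 (n 27 (n 20 (n 17 o (n 18 o o)) (n 23 (n 21 o (n 22 o o)) (n 25 (n 24 o o) (n
    26 o o)))) (n 35 (n 31 (n 29 (n 28 o o) (n 30 o o)) (n 33 (n 32 o o) (n 34 o o))) (n 39 (n 37
    (n 36 o o) (n 38 o o)) (n 41 (n 40 o o) (n 42 o o))))) (n 54 (n 50 (n 47 (n 45 (n 44 o o) (n
    46 o o)) o) (n 52 o (n 53 o o))) (n 58 (n 56 o (n 57 o o)) (n 60 (n 59 o o) o))))) (n 105 (n
    88 (n 72 (n 65 (n 62 o (n 63 o (n 64 o o))) (n 68 (n 66 o (n 67 o o)) (n 70 (n 69 o o) (n 71 o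
    o)))) (n 80 (n 76 (n 74 (n 73 o o) (n 75 o o)) (n 78 (n 77 o o) (n 79 o o))) (n 84 (n 82 (n 81
    o o) o) (n 86 (n 85 o o) (n 87 o o))))) (n 98 (n 94 (n 92 (n 90 (n 89 o o) (n 91 o o)) o) (n
    96 o (n 97 o o))) (n 102 (n 100 o (n 101 o o)) (n 104 (n 103 o o) o)))) (n 111 (n 110 (n 109
    (n 107 (n 106 o o) o) o) o) o))

def t100 : QT :=
  n 49 (n 5 o (n 22 (n 13 (n 9 (n 6 o (n 7 o (n 8 o o))) (n 11 (n 10 o o) o)) (n 17 (n 15 (n 14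
    o o) o) (n 19 o (n 21 (n 20 o o) o)))) (n 37 (n 29 (n 25 (n 23 o (n 24 o o)) (n 27 (n 26 o o)
    (n 28 o o))) (n 33 (n 31 (n 30 o o) (n 32 o o)) (n 35 (n 34 o o) (n 36 o o)))) (n 44 (n 41 (n
    39 (n 38 o o) (n 40 o o)) (n 43 (n 42 o o) o)) (n 48 (n 46 (n 45 o o) (n 47 o o)) o))))) (n 94
    (n 66 (n 57 (n 53 (n 50 o (n 51 o (n 52 o o))) (n 55 (n 54 o o) o)) (n 61 (n 59 (n 58 o o) o)
    (n 63 o (n 64 o (n 65 o o))))) (n 81 (n 73 (n 69 (n 67 o (n 68 o o)) (n 71 (n 70 o o) (n 72 o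
    o))) (n 77 (n 75 (n 74 o o) (n 76 o o)) (n 79 (n 78 o o) (n 80 o o)))) (n 89 (n 85 (n 83 (n 82
    o o) (n 84 o o)) (n 87 (n 86 o o) (n 88 o o))) (n 93 (n 91 (n 90 o o) (n 92 o o)) o)))) (n 109
    (n 101 (n 98 (n 96 (n 95 o o) o) (n 99 o (n 100 o o))) (n 105 (n 103 o (n 104 o o)) (n 108 (n
    107 (n 106 o o) o) o))) o))

def t101 : QT :=
  n 62 (n 17 (n 2 o (n 9 (n 4 o (n 7 (n 5 o (n 6 o o)) o)) (n 13 (n 11 (n 10 o o) o) (n 15 o (n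
    16 o o))))) (n 45 (n 29 (n 21 (n 18 o (n 19 o (n 20 o o))) (n 25 (n 23 (n 22 o o) (n 24 o o))
    (n 27 (n 26 o o) (n 28 o o)))) (n 37 (n 33 (n 31 (n 30 o o) (n 32 o o)) (n 35 (n 34 o o) (n 36
    o o))) (n 41 (n 39 (n 38 o o) (n 40 o o)) (n 43 (n 42 o o) (n 44 o o))))) (n 55 (n 51 (n 48 (n
    46 o (n 47 o o)) o) (n 53 o (n 54 o o))) (n 59 (n 57 o (n 58 o o)) (n 61 (n 60 o o) o))))) (n
    106 (n 88 (n 73 (n 66 (n 63 o (n 64 o (n 65 o o))) (n 69 (n 67 o (n 68 o o)) (n 71 (n 70 o o)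
    (n 72 o o)))) (n 81 (n 77 (n 75 (n 74 o o) (n 76 o o)) (n 79 (n 78 o o) (n 80 o o))) (n 85 (n
    83 o (n 84 o o)) (n 87 (n 86 o o) o)))) (n 98 (n 94 (n 91 (n 89 o (n 90 o o)) (n 93 (n 92 o o)
    o)) (n 96 o (n 97 o o))) (n 102 (n 100 o (n 101 o o)) (n 105 (n 104 (n 103 o o) o) o)))) o)

def t102 : QT :=
  n 50 (n 6 o (n 24 (n 14 (n 10 (n 7 o (n 8 o (n 9 o o))) (n 12 (n 11 o o) o)) (n 18 (n 16 (n 15
    o o) o) (n 20 o (n 22 (n 21 o o) (n 23 o o))))) (n 39 (n 31 (n 27 (n 25 o (n 26 o o)) (n 29 (n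
    28 o o) (n 30 o o))) (n 35 (n 33 (n 32 o o) (n 34 o o)) (n 37 (n 36 o o) (n 38 o o)))) (n 46
    (n 43 (n 41 (n 40 o o) (n 42 o o)) (n 45 (n 44 o o) o)) (n 49 (n 48 (n 47 o o) o) o))))) (n 95
    (n 68 (n 58 (n 54 (n 51 o (n 52 o (n 53 o o))) (n 56 (n 55 o o) o)) (n 62 (n 60 (n 59 o o) o)
    (n 64 o (n 66 (n 65 o o) (n 67 o o))))) (n 84 (n 76 (n 72 (n 70 (n 69 o o) (n 71 o o)) (n 74
    (n 73 o o) (n 75 o o))) (n 80 (n 78 (n 77 o o) (n 79 o o)) (n 82 (n 81 o o) (n 83 o o)))) (n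
    91 (n 88 (n 86 (n 85 o o) (n 87 o o)) (n 90 (n 89 o o) o)) (n 94 (n 93 (n 92 o o) o) o)))) (n
    110 (n 103 (n 99 (n 97 (n 96 o o) o) (n 101 o (n 102 o o))) (n 107 (n 105 o (n 106 o o)) (n
    109 (n 108 o o) o))) o))

def t103 : QT :=
  n 59 (n 15 (n 2 o (n 8 (n 4 o (n 6 (n 5 o o) o)) (n 12 (n 10 (n 9 o o) o) (n 13 o (n 14 o
    o))))) (n 41 (n 24 (n 18 (n 16 o (n 17 o o)) (n 20 (n 19 o o) (n 22 (n 21 o o) (n 23 o o))))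
    (n 32 (n 28 (n 26 (n 25 o o) (n 27 o o)) (n 30 o (n 31 o o))) (n 37 (n 34 (n 33 o o) (n 36 o
    o)) (n 39 (n 38 o o) (n 40 o o))))) (n 52 (n 48 (n 45 (n 43 (n 42 o o) (n 44 o o)) o) (n 50 o
    (n 51 o o))) (n 56 (n 54 o (n 55 o o)) (n 58 (n 57 o o) o))))) (n 103 (n 84 (n 68 (n 62 (n 60
    o (n 61 o o)) (n 64 (n 63 o o) (n 66 (n 65 o o) (n 67 o o)))) (n 76 (n 72 (n 70 (n 69 o o) (n
    71 o o)) (n 74 (n 73 o o) (n 75 o o))) (n 80 (n 78 (n 77 o o) (n 79 o o)) (n 82 (n 81 o o) (n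
    83 o o))))) (n 96 (n 92 (n 88 (n 86 (n 85 o o) (n 87 o o)) (n 90 (n 89 o o) (n 91 o o))) (n 94
    o (n 95 o o))) (n 100 (n 98 o (n 99 o o)) (n 102 (n 101 o o) o)))) (n 111 (n 109 (n 106 (n 104
    o o) (n 108 o o)) o) o))

def t104 : QT :=
  n 60 (n 15 (n 2 o (n 8 (n 4 (n 3 o o) (n 6 (n 5 o o) o)) (n 12 (n 10 (n 9 o o) o) (n 13 o (n
    14 o o))))) (n 42 (n 25 (n 18 (n 16 o (n 17 o o)) (n 21 (n 19 o (n 20 o o)) (n 23 (n 22 o o)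
    (n 24 o o)))) (n 33 (n 29 (n 27 (n 26 o o) (n 28 o o)) (n 31 (n 30 o o) (n 32 o o))) (n 38 (n
    35 (n 34 o o) (n 37 o o)) (n 40 (n 39 o o) (n 41 o o))))) (n 53 (n 49 (n 46 (n 44 (n 43 o o)
    (n 45 o o)) o) (n 51 o (n 52 o o))) (n 57 (n 55 o (n 56 o o)) (n 59 (n 58 o o) o))))) (n 104
    (n 86 (n 70 (n 63 (n 61 o (n 62 o o)) (n 66 (n 64 o (n 65 o o)) (n 68 (n 67 o o) (n 69 o o))))
    (n 78 (n 74 (n 72 (n 71 o o) (n 73 o o)) (n 76 (n 75 o o) o)) (n 82 (n 80 (n 79 o o) (n 81 o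
    o)) (n 84 (n 83 o o) (n 85 o o))))) (n 97 (n 93 (n 90 (n 88 (n 87 o o) (n 89 o o)) (n 92 (n 91
    o o) o)) (n 95 o (n 96 o o))) (n 101 (n 99 o (n 100 o o)) (n 103 (n 102 o o) o)))) (n 111 (n
    110 (n 108 (n 106 (n 105 o o) o) o) o) o))

def t105 : QT :=
  n 50 (n 6 o (n 24 (n 14 (n 10 (n 7 o (n 8 o (n 9 o o))) (n 12 (n 11 o o) o)) (n 18 (n 16 (n 15
    o o) o) (n 20 o (n 22 (n 21 o o) (n 23 o o))))) (n 39 (n 31 (n 27 (n 25 o (n 26 o o)) (n 29 (n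
    28 o o) (n 30 o o))) (n 35 (n 33 (n 32 o o) (n 34 o o)) (n 37 (n 36 o o) (n 38 o o)))) (n 46
    (n 43 (n 41 (n 40 o o) (n 42 o o)) (n 45 (n 44 o o) o)) (n 49 (n 48 (n 47 o o) o) o))))) (n 95
    (n 67 (n 57 (n 53 (n 51 o (n 52 o o)) (n 55 (n 54 o o) o)) (n 61 (n 59 (n 58 o o) o) (n 63 o
    (n 65 (n 64 o o) (n 66 o o))))) (n 83 (n 75 (n 71 (n 69 (n 68 o o) (n 70 o o)) (n 73 (n 72 o
    o) (n 74 o o))) (n 79 (n 77 (n 76 o o) (n 78 o o)) (n 81 (n 80 o o) (n 82 o o)))) (n 91 (n 87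
    (n 85 (n 84 o o) (n 86 o o)) (n 89 (n 88 o o) (n 90 o o))) (n 94 (n 93 (n 92 o o) o) o)))) (n
    110 (n 102 (n 98 (n 96 o o) (n 100 o (n 101 o o))) (n 107 (n 104 o (n 106 (n 105 o o) o)) (n
    109 (n 108 o o) o))) o))

def t106 : QT :=
  n 52 (n 7 o (n 26 (n 15 (n 11 (n 8 o (n 9 o (n 10 o o))) (n 13 (n 12 o o) o)) (n 19 (n 17 (n
    16 o o) o) (n 22 (n 20 o (n 21 o o)) (n 24 (n 23 o o) (n 25 o o))))) (n 42 (n 34 (n 30 (n 28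
    (n 27 o o) o) (n 32 o (n 33 o o))) (n 38 (n 36 (n 35 o o) (n 37 o o)) (n 40 (n 39 o o) (n 41 o
    o)))) (n 49 (n 46 (n 44 (n 43 o o) (n 45 o o)) (n 48 (n 47 o o) o)) (n 51 (n 50 o o) o))))) (n
    97 (n 70 (n 59 (n 55 (n 53 o (n 54 o o)) (n 57 (n 56 o o) o)) (n 63 (n 61 (n 60 o o) o) (n 66
    (n 64 o (n 65 o o)) (n 68 (n 67 o o) (n 69 o o))))) (n 87 (n 79 (n 74 (n 72 (n 71 o o) (n 73 o
    o)) (n 77 (n 75 o o) (n 78 o o))) (n 83 (n 81 (n 80 o o) (n 82 o o)) (n 85 (n 84 o o) (n 86 o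
    o)))) (n 94 (n 91 (n 89 (n 88 o o) (n 90 o o)) (n 93 (n 92 o o) o)) (n 96 (n 95 o o) o)))) (n
    110 (n 104 (n 100 (n 99 (n 98 o o) o) (n 102 o (n 103 o o))) (n 108 (n 106 o (n 107 o o)) o))
    o))

def t107 : QT :=
  n 58 (n 13 (n 1 o (n 4 (n 2 o o) (n 9 (n 7 (n 5 o (n 6 o o)) o) (n 11 o (n 12 o o))))) (n 38
    (n 21 (n 16 (n 14 o (n 15 o o)) (n 18 (n 17 o o) (n 19 o (n 20 o o)))) (n 29 (n 25 (n 23 (n 22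
    o o) (n 24 o o)) (n 27 (n 26 o o) (n 28 o o))) (n 33 (n 31 (n 30 o o) (n 32 o o)) (n 36 (n 35
    o o) (n 37 o o))))) (n 51 (n 46 (n 42 (n 40 (n 39 o o) (n 41 o o)) (n 44 (n 43 o o) (n 45 o
    o))) (n 49 (n 48 (n 47 o o) o) (n 50 o o))) (n 55 (n 53 o (n 54 o o)) (n 57 (n 56 o o) o)))))
    (n 102 (n 82 (n 66 (n 61 (n 59 o (n 60 o o)) (n 63 (n 62 o o) (n 64 o (n 65 o o)))) (n 73 (n
    69 (n 67 o (n 68 o o)) (n 71 (n 70 o o) (n 72 o o))) (n 77 (n 75 (n 74 o o) (n 76 o o)) (n 80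
    (n 79 o o) (n 81 o o))))) (n 95 (n 90 (n 86 (n 84 (n 83 o o) (n 85 o o)) (n 88 (n 87 o o) (n
    89 o o))) (n 93 (n 92 (n 91 o o) o) (n 94 o o))) (n 99 (n 97 o (n 98 o o)) (n 101 (n 100 o o)
    o)))) (n 111 (n 109 (n 105 (n 103 o o) (n 107 o (n 108 o o))) (n 110 o o)) o))

def t108 : QT :=
  n 60 (n 15 (n 2 o (n 8 (n 4 o (n 6 (n 5 o o) o)) (n 12 (n 10 (n 9 o o) o) (n 13 o (n 14 o
    o))))) (n 42 (n 25 (n 18 (n 16 o (n 17 o o)) (n 21 (n 19 o (n 20 o o)) (n 23 (n 22 o o) (n 24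
    o o)))) (n 33 (n 29 (n 27 (n 26 o o) (n 28 o o)) (n 31 (n 30 o o) (n 32 o o))) (n 38 (n 36 (n
    34 o o) (n 37 o o)) (n 40 (n 39 o o) (n 41 o o))))) (n 53 (n 49 (n 46 (n 44 (n 43 o o) (n 45 o
    o)) o) (n 51 o (n 52 o o))) (n 57 (n 55 o (n 56 o o)) (n 59 (n 58 o o) o))))) (n 105 (n 86 (n
    70 (n 63 (n 61 o (n 62 o o)) (n 66 (n 64 o (n 65 o o)) (n 68 (n 67 o o) (n 69 o o)))) (n 78 (n
    74 (n 72 (n 71 o o) (n 73 o o)) (n 76 (n 75 o o) (n 77 o o))) (n 82 (n 80 (n 79 o o) (n 81 o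
    o)) (n 84 (n 83 o o) (n 85 o o))))) (n 97 (n 93 (n 89 (n 87 o (n 88 o o)) (n 91 (n 90 o o) (n
    92 o o))) (n 95 o (n 96 o o))) (n 101 (n 99 o (n 100 o o)) (n 104 (n 103 (n 102 o o) o) o))))
    o)

def t109 : QT :=
  n 57 (n 12 (n 1 o (n 4 (n 2 o o) (n 9 (n 7 (n 5 o (n 6 o o)) o) (n 11 o o)))) (n 35 (n 20 (n
    15 (n 13 o (n 14 o o)) (n 17 (n 16 o o) (n 18 o (n 19 o o)))) (n 27 (n 23 (n 21 o (n 22 o o))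
    (n 25 (n 24 o o) (n 26 o o))) (n 31 (n 29 (n 28 o o) o) (n 33 (n 32 o o) (n 34 o o))))) (n 49
    (n 43 (n 39 (n 37 (n 36 o o) (n 38 o o)) (n 41 (n 40 o o) (n 42 o o))) (n 47 (n 45 (n 44 o o)
    (n 46 o o)) (n 48 o o))) (n 54 (n 52 o (n 53 o o)) (n 56 (n 55 o o) o))))) (n 101 (n 80 (n 65
    (n 60 (n 58 o (n 59 o o)) (n 62 (n 61 o o) o)) (n 72 (n 68 (n 66 o (n 67 o o)) (n 70 (n 69 o
    o) (n 71 o o))) (n 76 (n 74 (n 73 o o) (n 75 o o)) (n 78 o (n 79 o o))))) (n 94 (n 88 (n 84 (n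
    82 (n 81 o o) (n 83 o o)) (n 86 (n 85 o o) (n 87 o o))) (n 92 (n 90 (n 89 o o) (n 91 o o)) (n
    93 o o))) (n 98 (n 96 o (n 97 o o)) (n 100 (n 99 o o) o)))) (n 111 (n 108 (n 104 (n 102 o o)
    (n 106 o (n 107 o o))) (n 110 o o)) o))

def t110 : QT :=
  n 60 (n 15 (n 2 o (n 8 (n 4 o (n 6 (n 5 o o) o)) (n 12 (n 10 (n 9 o o) o) (n 13 o (n 14 o
    o))))) (n 42 (n 25 (n 18 (n 16 o (n 17 o o)) (n 21 (n 19 o (n 20 o o)) (n 23 (n 22 o o) (n 24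
    o o)))) (n 33 (n 29 (n 27 (n 26 o o) (n 28 o o)) (n 31 (n 30 o o) (n 32 o o))) (n 38 (n 36 (n
    34 o o) (n 37 o o)) (n 40 (n 39 o o) (n 41 o o))))) (n 53 (n 49 (n 46 (n 44 (n 43 o o) (n 45 o
    o)) o) (n 51 o (n 52 o o))) (n 57 (n 55 o (n 56 o o)) (n 59 (n 58 o o) o))))) (n 104 (n 86 (n
    70 (n 63 (n 61 o (n 62 o o)) (n 66 (n 64 o (n 65 o o)) (n 68 (n 67 o o) (n 69 o o)))) (n 78 (n
    74 (n 72 (n 71 o o) (n 73 o o)) (n 76 (n 75 o o) o)) (n 82 (n 80 (n 79 o o) (n 81 o o)) (n 84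
    (n 83 o o) (n 85 o o))))) (n 97 (n 93 (n 89 (n 87 o (n 88 o o)) (n 91 (n 90 o o) (n 92 o o)))
    (n 95 o (n 96 o o))) (n 101 (n 99 o (n 100 o o)) (n 103 (n 102 o o) o)))) (n 111 (n 110 (n 108
    (n 106 (n 105 o o) o) o) o) o))

/-- The weighted trees. -/
def data : List (ℕ × QT) :=
  [(1541, t0), (4799, t1), (7673, t2), (6167, t3), (8450, t4), (3024, t5), (1147, t6), (1765,
    t7), (6725, t8), (56381, t9), (28388, t10), (1763, t11), (4279, t12), (6749, t13), (781,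
    t14), (207, t15), (1209, t16), (15773, t17), (2225, t18), (12545, t19), (5270, t20), (13531,
    t21), (2005, t22), (30046, t23), (10895, t24), (4093, t25), (16248, t26), (10731, t27),
    (3228, t28), (8523, t29), (1336, t30), (13162, t31), (3786, t32), (4891, t33), (16248, t34),
    (8834, t35), (5474, t36), (8321, t37), (2963, t38), (1664, t39), (7687, t40), (2066, t41),
    (35121, t42), (15490, t43), (3095, t44), (6055, t45), (28379, t46), (32324, t47), (886,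
    t48), (18759, t49), (16539, t50), (16, t51), (3933, t52), (301, t53), (521, t54), (257,
    t55), (13355, t56), (10730, t57), (5885, t58), (2221, t59), (17079, t60), (15490, t61),
    (24126, t62), (3732, t63), (1209, t64), (894, t65), (8137, t66), (7839, t67), (18772, t68),
    (2535, t69), (22312, t70), (14677, t71), (7670, t72), (440, t73), (10716, t74), (12191,
    t75), (2923, t76), (620, t77), (3713, t78), (9450, t79), (15045, t80), (8321, t81), (22714,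
    t82), (6974, t83), (9713, t84), (1130, t85), (8052, t86), (16973, t87), (13521, t88),
    (15021, t89), (4838, t90), (2144, t91), (4622, t92), (4056, t93), (2697, t94), (2080, t95),
    (3476, t96), (2036, t97), (2920, t98), (13638, t99), (6725, t100), (4779, t101), (9693,
    t102), (17072, t103), (18144, t104), (13062, t105), (240, t106), (26818, t107), (1629,
    t108), (8155, t109), (2725, t110)]

end Pool.Agent.HighLow.MixData
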