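import Pool.Agent.HighLow_e5c6.Contin

/-!
# Mixtures of finite search trees with rational cuts

The trees have cuts `n / D`; at a leaf Red uses the continuation strategy.  The bound for the
payoff is constant between neighbouring cuts and is computed with integers.
-/

set_option autoImplicit false

namespace Pool.Agent.HighLow

open MeasureTheory Set
open scoped ENNReal

/-- Finite search trees whose cuts are `n / D`. -/
inductive QT : Type
  | leaf : QT
  | node (n : ℕ) (l r : QT) : QT

namespace QT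

/-- The cuts lie strictly inside their intervals. -/
def ok : QT → ℕ → ℕ → Bool
  | leaf, a, b => decide (a ≤ b)
  | node n l r, a, b => decide (a < n) && decide (n < b) && ok l a n && ok r n b

/-- The payoff bound, times `10000 * D`, for secret numbers in `[j / D, (j + 1) / D)`. -/
def val : QT → ℤ → ℕ → ℕ → ℕ → ℤ
  | leaf, k, a, b, _ => cAz k * ((b : ℤ) - a)
  | node n l r, k, a, b, j =>
      if j < n then ((n : ℤ) - a) * 10000 + val l (k - 1) a n j
      else k * ((n : ℤ) - a) * 10000 + val r (k + 1) n b j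

/-- The strategy of a tree. -/
noncomputable def strat (D : ℕ) : QT → ℤ → ℕ → ℕ → Strategy
  | leaf, k, a, b => conS k ((a : ℝ) / D) ((b : ℝ) / D)
  | node n l r, k, a, b => nodeS (projIcc 0 1 zero_le_one ((n : ℝ) / D))
      (strat D l (k - 1) a n) (strat D r (k + 1) n b)

/-- The real bound. -/
noncomputable def rb (D : ℕ) (T : QT) (k : ℤ) (a b j : ℕ) (h : ℝ) : ℝ :=
  (T.val k a b j : ℝ) / (10000 * D) - k * (h - (a : ℝ) / D)

lemma rb_leaf {D : ℕ} (hD : 0 < D) (k : ℤ) (a b j : ℕ) (h : ℝ) :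
    rb D leaf k a b j h = cA k * ((b : ℝ) / D - (a : ℝ) / D) - k * (h - (a : ℝ) / D) := by
  have : (D : ℝ) ≠ 0 := by exact_mod_cast hD.ne'
  unfold rb val cA
  push_cast
  field_simp

lemma rb_node_lt {D : ℕ} (hD : 0 < D) {n : ℕ} {l r : QT} (k : ℤ) (a b : ℕ) {j : ℕ} (h : ℝ)
    (hj : j < n) :
    rb D (node n l r) k a b j h = ((n : ℝ) / D - h) + rb D l (k - 1) a n j h := by
  have : (D : ℝ) ≠ 0 := by exact_mod_cast hD.ne'
  unfold rb
  rw [val, if_pos hj]
  push_cast
  field_simp
  ring

lemma rb_node_ge {D : ℕ} (hD : 0 < D) {n : ℕ} {l r : QT} (k : ℤ) (a b : ℕ) {j : ℕ} (h : ℝ)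
    (hj : ¬ j < n) :
    rb D (node n l r) k a b j h = (h - (n : ℝ) / D) + rb D r (k + 1) n b j h := by
  have : (D : ℝ) ≠ 0 := by exact_mod_cast hD.ne'
  unfold rb
  rw [val, if_neg hj]
  push_cast
  field_simp
  ring

lemma bound {D : ℕ} (hD : 0 < D) (T : QT) : ∀ (k : ℤ) (a b : ℕ), T.ok a b = true → b ≤ D →
    ∀ (j : ℕ) (h : Icc (0 : ℝ) 1), (j : ℝ) / D ≤ h → (h : ℝ) < ((j : ℝ) + 1) / D →
    (a : ℝ) / D ≤ h → (h : ℝ) ≤ (b : ℝ) / D →
    0 ≤ rb D T k a b j h ∧ payoff (strat D T k a b) h ≤ ENNReal.ofReal (rb D T k a b j h) := by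
  have hD0 : (0 : ℝ) < D := by exact_mod_cast hD
  induction T with
  | leaf =>
    intro k a b hok hb j h hj1 hj2 h1 h2
    rw [rb_leaf hD]
    refine ⟨cA_bound_nonneg h1 h2, payoff_conS (by positivity) ?_ h h1 h2⟩
    rw [div_le_one hD0]
    exact_mod_cast hb
  | node n l r ihl ihr =>
    intro k a b hok hb j h hj1 hj2 h1 h2
    simp only [ok, Bool.and_eq_true, decide_eq_true_eq] at hok
    obtain ⟨⟨⟨han, hnb⟩, hl⟩, hr⟩ := hok
    have hn01 : (n : ℝ) / D ∈ Icc (0 : ℝ) 1 := by
      refine ⟨by positivity, ?_⟩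
      rw [div_le_one hD0]
      exact_mod_cast (by omega : n ≤ D)
    have hcv : ((strat D (node n l r) k a b [] : Icc (0 : ℝ) 1) : ℝ) = (n : ℝ) / D := by
      simp only [strat, nodeS_nil]
      rw [projIcc_of_mem zero_le_one hn01]
    rcases lt_or_ge (h : ℝ) ((n : ℝ) / D) with hc | hc
    · have hjn : j < n := by
        have h3 : (j : ℝ) / D < (n : ℝ) / D := lt_of_le_of_lt hj1 hc
        rw [div_lt_div_iff_of_pos_right hD0] at h3
        exact_mod_cast h3
      rw [rb_node_lt hD k a b h hjn]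
      obtain ⟨hn, hp⟩ := ihl (k - 1) a n hl (by omega) j h hj1 hj2 h1 hc.le
      refine ⟨by linarith, ?_⟩
      have hgt : h < strat D (node n l r) k a b [] := by
        rw [← Subtype.coe_lt_coe, hcv]; exact hc
      rw [payoff_of_gt hgt, hcv, ENNReal.ofReal_add (by linarith) hn]
      exact add_le_add le_rfl hp
    · have hjn : ¬ j < n := by
        intro hlt
        have h3 : ((j : ℝ) + 1) / D ≤ (n : ℝ) / D := by
          rw [div_le_div_iff_of_pos_right hD0]
          exact_mod_cast hlt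
        linarith
      rw [rb_node_ge hD k a b h hjn]
      obtain ⟨hn, hp⟩ := ihr (k + 1) n b hr hb j h hj1 hj2 hc h2
      refine ⟨by linarith, ?_⟩
      rcases hc.eq_or_lt with he | hlt
      · have heq : strat D (node n l r) k a b [] = h := by
          apply Subtype.ext
          rw [hcv, he]
        rw [payoff_of_eq heq]
        exact zero_le
      · have hlt' : strat D (node n l r) k a b [] < h := by
          rw [← Subtype.coe_lt_coe, hcv]; exact hlt
        rw [payoff_of_lt hlt', hcv, ENNReal.ofReal_add (by linarith) hn]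
        exact add_le_add le_rfl hp

end QT

/-- A mixture of finite trees guarantees the bound computed from the integer values. -/
theorem exists_mixture {r : ℕ} (D : ℕ) (hD : 0 < D) (T : Fin r → QT) (w : Fin r → ℕ)
    (hw : 0 < ∑ i, w i) (hok : ∀ i, (T i).ok 0 D = true) (p q : ℕ) (hq : 0 < q)
    (hcheck : ∀ j ≤ D, (∑ i, (w i : ℤ) * (T i).val 0 0 D j) * q ≤
      p * ((∑ i, w i : ℕ) * (10000 * D))) :
    ∃ σ : ProbabilityMeasure Strategy, ∀ h : Icc (0 : ℝ) 1,
      ∫⁻ g, payoff g h ∂(σ : Measure Strategy) ≤ ENNReal.ofReal ((p : ℝ) / q) := by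
  classical
  set W : ℕ := ∑ i, w i with hW
  have hD0 : (0 : ℝ) < D := by exact_mod_cast hD
  have hW0 : (0 : ℝ) < W := by exact_mod_cast hw
  have hq0 : (0 : ℝ) < q := by exact_mod_cast hq
  set m : Measure Strategy := ∑ i, ENNReal.ofReal ((w i : ℝ) / W) •
    Measure.dirac ((T i).strat D 0 0 D) with hm
  have hsum : ∑ i, (w i : ℝ) / W = 1 := by
    rw [← Finset.sum_div, div_eq_one_iff_eq hW0.ne', hW]
    push_cast
    rfl
  have hprob : IsProbabilityMeasure m := by
    constructor
    rw [hm, Measure.finset_sum_apply]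
    simp only [Measure.smul_apply, measure_univ, smul_eq_mul, mul_one]
    rw [← ENNReal.ofReal_sum_of_nonneg (fun i _ => by positivity), hsum, ENNReal.ofReal_one]
  refine ⟨⟨m, hprob⟩, fun h => ?_⟩
  show ∫⁻ g, payoff g h ∂m ≤ _
  have hmeas : Measurable (fun g : Strategy => payoff g h) :=
    measurable_payoff.comp (measurable_const.prodMk measurable_id)
  have hint : ∫⁻ g, payoff g h ∂m =
      ∑ i, ENNReal.ofReal ((w i : ℝ) / W) * payoff ((T i).strat D 0 0 D) h := by
    rw [hm, lintegral_finset_sum_measure]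
    refine Finset.sum_congr rfl fun i _ => ?_
    rw [lintegral_smul_measure, lintegral_dirac' _ hmeas, smul_eq_mul]
  rw [hint]
  set j : ℕ := ⌊(h : ℝ) * D⌋₊ with hj
  have hhD : 0 ≤ (h : ℝ) * D := mul_nonneg h.2.1 hD0.le
  have hj1 : (j : ℝ) / D ≤ h := by
    rw [div_le_iff₀ hD0]; exact Nat.floor_le hhD
  have hj2 : (h : ℝ) < ((j : ℝ) + 1) / D := by
    rw [lt_div_iff₀ hD0]; exact Nat.lt_floor_add_one _
  have hjD : j ≤ D := by
    have : (j : ℝ) ≤ D := by
      refine (Nat.floor_le hhD).trans ?_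
      have := mul_le_mul_of_nonneg_right h.2.2 hD0.le
      linarith
    exact_mod_cast this
  have hb : ∀ i, 0 ≤ QT.rb D (T i) 0 0 D j h ∧
      payoff ((T i).strat D 0 0 D) h ≤ ENNReal.ofReal (QT.rb D (T i) 0 0 D j h) := by
    intro i
    refine QT.bound hD (T i) 0 0 D (hok i) le_rfl j h hj1 hj2 ?_ ?_
    · simp only [Nat.cast_zero, zero_div]; exact h.2.1
    · rw [div_self hD0.ne']; exact h.2.2
  calc ∑ i, ENNReal.ofReal ((w i : ℝ) / W) * payoff ((T i).strat D 0 0 D) h
      ≤ ∑ i, ENNReal.ofReal ((w i : ℝ) / W) * ENNReal.ofReal (QT.rb D (T i) 0 0 D j h) :=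
        Finset.sum_le_sum fun i _ => mul_le_mul_right (hb i).2 _
    _ = ∑ i, ENNReal.ofReal ((w i : ℝ) / W * QT.rb D (T i) 0 0 D j h) := by
        refine Finset.sum_congr rfl fun i _ => ?_
        rw [ENNReal.ofReal_mul (by positivity)]
    _ = ENNReal.ofReal (∑ i, (w i : ℝ) / W * QT.rb D (T i) 0 0 D j h) := by
        rw [ENNReal.ofReal_sum_of_nonneg]
        intro i _
        exact mul_nonneg (by positivity) (hb i).1
    _ ≤ ENNReal.ofReal ((p : ℝ) / q) := by
        apply ENNReal.ofReal_le_ofReal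
        have h1 := hcheck j hjD
        have h2 : ((∑ i, (w i : ℤ) * (T i).val 0 0 D j : ℤ) : ℝ) * q ≤
            p * (W * (10000 * D)) := by exact_mod_cast h1
        have h3 : ∑ i, (w i : ℝ) / W * QT.rb D (T i) 0 0 D j h =
            ((∑ i, (w i : ℤ) * (T i).val 0 0 D j : ℤ) : ℝ) / (W * (10000 * D)) := by
          push_cast
          rw [Finset.sum_div]
          refine Finset.sum_congr rfl fun i _ => ?_
          unfold QT.rb
          simp only [Int.cast_zero, zero_mul, sub_zero]
          field_simp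
        rw [h3, div_le_div_iff₀ (by positivity) hq0]
        exact h2

end Pool.Agent.HighLow
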