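import Pool.Agent.HighLow_e5c6.Spine

/-!
# Integrated costs, near optimality and the optimal cost `omega` to the left of an atom
-/

set_option autoImplicit false
set_option linter.unusedSectionVars false
set_option linter.unusedVariables false

namespace Pool.Agent.HighLow

open MeasureTheory Set STree

/-- All cuts of the tree are null. -/
def Null (ν : Measure ℝ) (T : STree) : Prop := All (fun c => ν {c} = 0) T

lemma exists_null (ν : Measure ℝ) [IsFiniteMeasure ν] {s t : ℝ} (h : s < t) :
    ∃ c, s < c ∧ c < t ∧ ν {c} = 0 := by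
  have hc : Set.Countable {c : ℝ | 0 < ν {a : ℝ | (fun y : ℝ => y) a = c}} :=
    Measure.countable_meas_level_set_pos (μ := ν) (g := fun y : ℝ => y) measurable_id
  by_contra hcon
  push Not at hcon
  have hsub : Ioo s t ⊆ {c : ℝ | 0 < ν {a : ℝ | (fun y : ℝ => y) a = c}} := by
    intro c hc
    have h1 := hcon c hc.1 hc.2
    have h2 : {a : ℝ | (fun y : ℝ => y) a = c} = {c} := by ext; simp
    rw [Set.mem_ofPred_eq, h2]
    exact pos_iff_ne_zero.2 h1
  have h0 : volume (Ioo s t) = 0 := (hc.mono hsub).measure_zero volume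
  rw [Real.volume_Ioo] at h0
  have : 0 < t - s := by linarith
  rw [ENNReal.ofReal_eq_zero] at h0
  linarith

lemma exists_null_small (ν : Measure ℝ) [IsFiniteMeasure ν] (x : ℝ) {ε η₀ : ℝ} (hε : 0 < ε)
    (hη : 0 < η₀) : ∃ η, 0 < η ∧ η < η₀ ∧ ν {x + η} = 0 ∧ ν.real (Ioo x (x + η)) < ε := by
  have hanti : Antitone (fun n : ℕ => Ioo x (x + 1 / ((n : ℝ) + 1))) := by
    intro n m hnm
    apply Ioo_subset_Ioo_right
    have : (1 : ℝ) / ((m : ℝ) + 1) ≤ 1 / ((n : ℝ) + 1) := by
      apply one_div_le_one_div_of_le (by positivity)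
      have : (n : ℝ) ≤ m := by exact_mod_cast hnm
      linarith
    linarith
  have ht := tendsto_measure_iInter_atTop (μ := ν)
    (fun n : ℕ => (measurableSet_Ioo (a := x) (b := x + 1 / ((n : ℝ) + 1))).nullMeasurableSet)
    hanti ⟨0, measure_ne_top _ _⟩
  have hempty : (⋂ n : ℕ, Ioo x (x + 1 / ((n : ℝ) + 1))) = ∅ := by
    rw [eq_empty_iff_forall_notMem]
    intro y hy
    rw [mem_iInter] at hy
    have hy0 := (hy 0).1
    obtain ⟨n, hn⟩ := exists_nat_one_div_lt (sub_pos.2 hy0)
    have := (hy n).2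
    linarith
  rw [hempty, measure_empty] at ht
  have hev := ht.eventually (gt_mem_nhds (ENNReal.ofReal_pos.2 hε))
  obtain ⟨n, hn⟩ := hev.exists
  obtain ⟨c, hc1, hc2, hc3⟩ := exists_null ν
    (show x < x + min η₀ (1 / ((n : ℝ) + 1)) by
      have : 0 < min η₀ (1 / ((n : ℝ) + 1)) := lt_min hη (by positivity)
      linarith)
  refine ⟨c - x, by linarith, ?_, ?_, ?_⟩
  · have := min_le_left η₀ (1 / ((n : ℝ) + 1))
    linarith
  · rw [add_sub_cancel]; exact hc3
  · rw [add_sub_cancel]
    have h1 : ν (Ioo x c) ≤ ν (Ioo x (x + 1 / ((n : ℝ) + 1))) := by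
      apply measure_mono
      apply Ioo_subset_Ioo_right
      have := min_le_right η₀ (1 / ((n : ℝ) + 1))
      linarith
    have h2 : ν (Ioo x c) < ENNReal.ofReal ε := lt_of_le_of_lt h1 hn
    rw [Measure.real]
    exact (ENNReal.lt_ofReal_iff_toReal_lt (measure_ne_top _ _)).1 h2

section basic

variable (ν : Measure ℝ) [IsFiniteMeasure ν]

lemma cost_integrableOn (T : STree) (a b : ℝ) : IntegrableOn (fun h => cost T a b h) (Icc a b) ν := by
  obtain ⟨M, hM, hb⟩ := exists_bound T a b
  refine Measure.integrableOn_of_bounded (M := M) (measure_ne_top _ _)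
    (measurable_cost T a b).aestronglyMeasurable ?_
  filter_upwards [ae_restrict_mem measurableSet_Icc] with h hh
  rw [Real.norm_eq_abs, abs_of_nonneg (cost_nonneg T hh.1 hh.2)]
  exact hb le_rfl le_rfl hh.1 hh.2

lemma cost_integrableOn' (T : STree) {a b p q : ℝ} (h1 : a ≤ p) (h2 : q ≤ b) :
    IntegrableOn (fun h => cost T a b h) (Icc p q) ν :=
  (cost_integrableOn ν T a b).mono_set (Icc_subset_Icc h1 h2)

lemma lin_integrableOn (s t p q : ℝ) : IntegrableOn (fun h : ℝ => s + t * h) (Icc p q) ν :=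
  Continuous.integrableOn_Icc (by fun_prop)

variable {ν}

lemma split_Icc {f : ℝ → ℝ} {a b c : ℝ} (hac : a ≤ c) (hcb : c ≤ b) (hc : ν {c} = 0)
    (hf : IntegrableOn f (Icc a b) ν) :
    ∫ h in Icc a b, f h ∂ν = ∫ h in Icc a c, f h ∂ν + ∫ h in Icc c b, f h ∂ν := by
  have h1 : Icc a b = Icc a c ∪ Ioc c b := (Icc_union_Ioc_eq_Icc hac hcb).symm
  have hd : Disjoint (Icc a c) (Ioc c b) := by
    rw [Set.disjoint_left]
    intro y h1 h2
    exact absurd h1.2 (not_le.2 h2.1)
  rw [integral_Icc_eq_integral_Ioc' hc, h1, setIntegral_union hd measurableSet_Ioc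
    (hf.mono_set (Icc_subset_Icc_right hcb))
    (hf.mono_set (Ioc_subset_Icc_self.trans (Icc_subset_Icc_left hac)))]

lemma split_Icc_Ioc {f : ℝ → ℝ} {a b c : ℝ} (hac : a ≤ c) (hcb : c ≤ b)
    (hf : IntegrableOn f (Icc a b) ν) :
    ∫ h in Icc a b, f h ∂ν = ∫ h in Icc a c, f h ∂ν + ∫ h in Ioc c b, f h ∂ν := by
  have h1 : Icc a b = Icc a c ∪ Ioc c b := (Icc_union_Ioc_eq_Icc hac hcb).symm
  have hd : Disjoint (Icc a c) (Ioc c b) := by
    rw [Set.disjoint_left]
    intro y h1 h2
    exact absurd h1.2 (not_le.2 h2.1)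
  rw [h1, setIntegral_union hd measurableSet_Ioc
    (hf.mono_set (Icc_subset_Icc_right hcb))
    (hf.mono_set (Ioc_subset_Icc_self.trans (Icc_subset_Icc_left hac)))]

end basic

/-- Near optimality of a tree on the interval `[a, b]`. -/
def NearOpt (ν : Measure ℝ) (κ a b : ℝ) (T : STree) : Prop :=
  ∀ T' : STree, Null ν T' →
    ∫ h in Icc a b, cost T a b h ∂ν ≤ ∫ h in Icc a b, cost T' a b h ∂ν + κ

lemma int_cost_node {ν : Measure ℝ} [IsFiniteMeasure ν] {c a b : ℝ} {l r : STree} (hac : a ≤ c)
    (hcb : c ≤ b) (hc : ν {c} = 0) : ∫ h in Icc a b, cost (node c l r) a b h ∂ν =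
      (∫ h in Icc a c, (c - h) ∂ν + ∫ h in Icc a c, cost l a c h ∂ν) +
      (∫ h in Icc c b, (h - c) ∂ν + ∫ h in Icc c b, cost r c b h ∂ν) := by
  rw [split_Icc hac hcb hc (cost_integrableOn ν _ a b)]
  congr 1
  · rw [integral_Icc_eq_integral_Ico' hc, integral_Icc_eq_integral_Ico' hc,
      integral_Icc_eq_integral_Ico' hc, ← integral_add]
    · refine setIntegral_congr_fun measurableSet_Ico fun h hh => ?_
      rw [cost_node_lt' hh.2 hcb]
    · exact (Continuous.integrableOn_Icc (by fun_prop)).mono_set Ico_subset_Icc_self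
    · exact (cost_integrableOn ν l a c).mono_set Ico_subset_Icc_self
  · rw [← integral_add]
    · refine setIntegral_congr_fun measurableSet_Icc fun h hh => ?_
      rw [cost_node_ge' hh.1 hac]
    · exact Continuous.integrableOn_Icc (by fun_prop)
    · exact cost_integrableOn ν r c b

lemma NearOpt.left {ν : Measure ℝ} [IsFiniteMeasure ν] {κ c a b : ℝ} {l r : STree} (hac : a ≤ c)
    (hcb : c ≤ b) (hT : Null ν (node c l r)) (h : NearOpt ν κ a b (node c l r)) :
    NearOpt ν κ a c l := by
  intro T' hT'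
  have h1 := h (node c T' r) ⟨hT.1, hT', hT.2.2⟩
  rw [int_cost_node hac hcb hT.1, int_cost_node hac hcb hT.1] at h1
  linarith

lemma NearOpt.right {ν : Measure ℝ} [IsFiniteMeasure ν] {κ c a b : ℝ} {l r : STree} (hac : a ≤ c)
    (hcb : c ≤ b) (hT : Null ν (node c l r)) (h : NearOpt ν κ a b (node c l r)) :
    NearOpt ν κ c b r := by
  intro T' hT'
  have h1 := h (node c l T') ⟨hT.1, hT.2.1, hT'⟩
  rw [int_cost_node hac hcb hT.1, int_cost_node hac hcb hT.1] at h1
  linarith

/-- Optimal cost of searching in `[p, x]`. -/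
noncomputable def omega (ν : Measure ℝ) (x p : ℝ) : ℝ :=
  ⨅ X : {X : STree // Null ν X}, ∫ h in Icc p x, cost X.1 p x h ∂ν

section omega

variable {ν : Measure ℝ} [IsFiniteMeasure ν] {x : ℝ}

lemma omega_bdd (p : ℝ) : BddBelow (Set.range fun X : {X : STree // Null ν X} =>
    ∫ h in Icc p x, cost X.1 p x h ∂ν) :=
  ⟨0, by
    rintro _ ⟨X, rfl⟩
    exact setIntegral_nonneg measurableSet_Icc fun h hh => cost_nonneg _ hh.1 hh.2⟩

instance : Nonempty {X : STree // Null ν X} := ⟨⟨leaf, trivial⟩⟩

lemma omega_le {p : ℝ} {X : STree} (hX : Null ν X) :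
    omega ν x p ≤ ∫ h in Icc p x, cost X p x h ∂ν :=
  ciInf_le (omega_bdd p) (⟨X, hX⟩ : {X : STree // Null ν X})

lemma le_omega {p A : ℝ} (h : ∀ X : STree, Null ν X → A ≤ ∫ h in Icc p x, cost X p x h ∂ν) :
    A ≤ omega ν x p := le_ciInf fun X => h X.1 X.2

lemma omega_nonneg (p : ℝ) : 0 ≤ omega ν x p :=
  le_omega fun X _ => setIntegral_nonneg measurableSet_Icc fun h hh => cost_nonneg _ hh.1 hh.2

lemma omega_split {p q : ℝ} (hpq : p ≤ q) (hqx : q ≤ x) (hq : ν {q} = 0) {L : STree}
    (hL : Null ν L) : omega ν x p ≤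
      (∫ h in Icc p q, (q - h) ∂ν + ∫ h in Icc p q, cost L p q h ∂ν) +
      (∫ h in Icc q x, (h - q) ∂ν + omega ν x q) := by
  have : omega ν x p - ((∫ h in Icc p q, (q - h) ∂ν + ∫ h in Icc p q, cost L p q h ∂ν) +
      ∫ h in Icc q x, (h - q) ∂ν) ≤ omega ν x q := by
    refine le_omega fun X hX => ?_
    have h1 := omega_le (x := x) (p := p) (X := node q L X) ⟨hq, hL, hX⟩
    rw [int_cost_node hpq hqx hq] at h1
    linarith
  linarith

/-- Isolating the atom. -/
lemma omega_isolate {q : ℝ} (hqx : q < x) {N : STree} (hN : Null ν N) :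
    omega ν x q ≤ ∫ h in Ico q x, ((x - h) + cost N q x h) ∂ν := by
  refine le_of_forall_pos_le_add fun ε hε => ?_
  set V := ν.real univ with hV
  have hV0 : 0 ≤ V := measureReal_nonneg
  obtain ⟨c, hc1, hc2, hc3⟩ := exists_null ν
    (show max q (x - ε / (3 * V + 1)) < x by
      have : 0 < ε / (3 * V + 1) := by positivity
      exact max_lt hqx (by linarith))
  have hqc : q < c := lt_of_le_of_lt (le_max_left _ _) hc1
  have hcx : x - ε / (3 * V + 1) < c := lt_of_le_of_lt (le_max_right _ _) hc1
  have h1 := omega_le (ν := ν) (x := x) (p := q) (X := node c N leaf) ⟨hc3, hN, trivial⟩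
  refine h1.trans ?_
  have hsplit : ∫ h in Icc q x, cost (node c N leaf) q x h ∂ν =
      ∫ h in Ico q x, cost (node c N leaf) q x h ∂ν +
      ∫ h in {x}, cost (node c N leaf) q x h ∂ν := by
    rw [← Ico_union_right hqx.le, setIntegral_union]
    · rw [Set.disjoint_singleton_right]; simp
    · exact measurableSet_singleton x
    · exact (cost_integrableOn ν _ q x).mono_set Ico_subset_Icc_self
    · exact (cost_integrableOn ν _ q x).mono_set (by
        rw [Set.singleton_subset_iff]; exact ⟨hqx.le, le_rfl⟩)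
  rw [hsplit]
  have hb1 : ∀ h ∈ Ico q x, cost (node c N leaf) q x h ≤
      ((x - h) + cost N q x h) + 3 * (x - c) := by
    intro h hh
    rcases lt_or_ge h c with hc | hc
    · rw [cost_node_lt' hc hc2.le]
      have := cost_mono N (le_refl q) hc2.le hh.1 hc.le
      linarith
    · rw [cost_node_ge' hc hqc.le]
      have := cost_nonneg N hh.1 hh.2.le
      simp only [cost_leaf]
      linarith [hh.2]
  have hb2 : ∀ h ∈ ({x} : Set ℝ), cost (node c N leaf) q x h ≤ 3 * (x - c) := by
    intro h hh
    rw [Set.mem_singleton_iff] at hh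
    subst hh
    rw [cost_node_ge' hc2.le hqc.le]
    simp only [cost_leaf]
    linarith
  have hi1 : IntegrableOn (fun h => (x - h) + cost N q x h) (Ico q x) ν :=
    ((Continuous.integrableOn_Icc (by fun_prop : Continuous fun h : ℝ => x - h)).add
      (cost_integrableOn ν N q x)).mono_set Ico_subset_Icc_self
  have e1 : ∫ h in Ico q x, cost (node c N leaf) q x h ∂ν ≤
      ∫ h in Ico q x, ((x - h) + cost N q x h) ∂ν + 3 * (x - c) * ν.real (Ico q x) := by
    have h2 : ∫ h in Ico q x, cost (node c N leaf) q x h ∂ν ≤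
        ∫ h in Ico q x, (((x - h) + cost N q x h) + 3 * (x - c)) ∂ν :=
      setIntegral_mono_on ((cost_integrableOn ν _ q x).mono_set Ico_subset_Icc_self)
        (hi1.add (integrableOn_const (measure_ne_top _ _))) measurableSet_Ico hb1
    rw [integral_add hi1 (integrableOn_const (measure_ne_top _ _)), setIntegral_const] at h2
    rw [smul_eq_mul] at h2
    linarith
  have e2 : ∫ h in {x}, cost (node c N leaf) q x h ∂ν ≤ 3 * (x - c) * ν.real {x} := by
    have h2 : ∫ h in {x}, cost (node c N leaf) q x h ∂ν ≤ ∫ h in {x}, (3 * (x - c)) ∂ν :=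
      setIntegral_mono_on ((cost_integrableOn ν _ q x).mono_set (by
        rw [Set.singleton_subset_iff]; exact ⟨hqx.le, le_rfl⟩))
        (integrableOn_const (measure_ne_top _ _)) (measurableSet_singleton x) hb2
    rw [setIntegral_const, smul_eq_mul] at h2
    linarith
  have hreal : ν.real (Ico q x) + ν.real {x} ≤ V := by
    rw [← measureReal_union (by rw [Set.disjoint_singleton_right]; simp)
      (measurableSet_singleton x)]
    exact measureReal_mono (subset_univ _)
  have hxc : 0 ≤ x - c := by linarith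
  have h3 : 3 * (x - c) * (ν.real (Ico q x) + ν.real {x}) ≤ 3 * (x - c) * V :=
    mul_le_mul_of_nonneg_left hreal (by linarith)
  have h4 : 3 * (x - c) * V ≤ ε := by
    have h5 : x - c ≤ ε / (3 * V + 1) := by linarith
    have h6 : (x - c) * (3 * V + 1) ≤ ε := by
      rwa [le_div_iff₀ (by positivity)] at h5
    nlinarith
  linarith

/-- The basic exchange inequality: the first cut to the left of the atom can be moved to its
right. -/
lemma base_exchange {κ a b c : ℝ} {l r : STree} (hac : a < c) (hcx : c < x) (hxb : x ≤ b)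
    (hT : Null ν (node c l r)) (h : NearOpt ν κ a b (node c l r)) :
    ∫ h in Icc a x, cost (node c l r) a b h ∂ν ≤
      omega ν x a + ∫ h in Icc a x, (x - h) ∂ν + κ := by
  have hax : a ≤ x := by linarith
  suffices hs : ∀ X : STree, Null ν X → ∫ h in Icc a x, cost (node c l r) a b h ∂ν -
      (∫ h in Icc a x, (x - h) ∂ν + κ) ≤ ∫ h in Icc a x, cost X a x h ∂ν by
    have := le_omega (x := x) (p := a) hs
    linarith
  intro X hX
  refine le_of_forall_pos_le_add fun ε hε => ?_
  obtain ⟨M, hM0, hM⟩ := exists_bound (node x X leaf) a b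
  obtain ⟨M', hM'0, hM'⟩ := exists_bound X a b
  set V := ν.real univ with hV
  have hV0 : 0 ≤ V := measureReal_nonneg
  set B := M' + (b - a) + 1 with hB
  have hB0 : 0 < B := by linarith
  obtain ⟨η, hη0, hη1, hη2, hη3⟩ := exists_null_small ν x (ε := ε / (2 * B))
    (η₀ := min 1 (ε / (6 * V + 1))) (by positivity) (lt_min one_pos (by positivity))
  have hη4 : η < 1 := lt_of_lt_of_le hη1 (min_le_left _ _)
  have hη5 : η < ε / (6 * V + 1) := lt_of_lt_of_le hη1 (min_le_right _ _)
  have h1 := h (node (x + η) X r) ⟨hη2, hX, hT.2.2⟩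
  rw [split_Icc_Ioc hax hxb (cost_integrableOn ν _ a b),
    split_Icc_Ioc hax hxb (cost_integrableOn ν _ a b)] at h1
  -- left part
  have e1 : ∫ h in Icc a x, cost (node (x + η) X r) a b h ∂ν ≤
      (∫ h in Icc a x, (x - h) ∂ν + ∫ h in Icc a x, cost X a x h ∂ν) + 3 * η * V := by
    have hb1 : ∀ h ∈ Icc a x, cost (node (x + η) X r) a b h ≤
        ((x - h) + cost X a x h) + 3 * η := by
      intro h hh
      have hlt : h < x + η := by linarith [hh.2]
      rw [cost_node_lt hlt]
      have h2 := cost_right_lip X (a := a) (b := x) (b' := min b (x + η)) (h := h)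
        (le_min hxb (by linarith)) hh.1 hh.2
      have h3 : min b (x + η) ≤ x + η := min_le_right _ _
      linarith
    have hi1 : IntegrableOn (fun h => (x - h) + cost X a x h) (Icc a x) ν :=
      (Continuous.integrableOn_Icc (by fun_prop : Continuous fun h : ℝ => x - h)).add
        (cost_integrableOn ν X a x)
    have h2 : ∫ h in Icc a x, cost (node (x + η) X r) a b h ∂ν ≤
        ∫ h in Icc a x, (((x - h) + cost X a x h) + 3 * η) ∂ν :=
      setIntegral_mono_on (cost_integrableOn' ν _ le_rfl hxb)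
        (hi1.add (integrableOn_const (measure_ne_top _ _))) measurableSet_Icc hb1
    rw [integral_add hi1 (integrableOn_const (measure_ne_top _ _)), setIntegral_const,
      integral_add (Continuous.integrableOn_Icc (by fun_prop : Continuous fun h : ℝ => x - h))
        (cost_integrableOn ν X a x), smul_eq_mul] at h2
    have h3 : ν.real (Icc a x) ≤ V := measureReal_mono (subset_univ _)
    have h4 : ν.real (Icc a x) * (3 * η) ≤ V * (3 * η) :=
      mul_le_mul_of_nonneg_right h3 (by positivity)
    linarith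
  -- right part
  have e2 : ∫ h in Ioc x b, cost (node (x + η) X r) a b h ∂ν ≤
      ∫ h in Ioc x b, cost (node c l r) a b h ∂ν + B * ν.real (Ioo x (x + η)) := by
    have hb1 : ∀ h ∈ Ioc x b, cost (node (x + η) X r) a b h ≤
        cost (node c l r) a b h + (Ioo x (x + η)).indicator (fun _ => B) h := by
      intro h hh
      rcases lt_or_ge h (x + η) with hlt | hge
      · rw [Set.indicator_of_mem (show h ∈ Ioo x (x + η) from ⟨hh.1, hlt⟩), cost_node_lt hlt]
        have h2 := hM' (a := a) (b := min b (x + η)) (h := h) le_rfl (min_le_left _ _)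
          (by linarith [hh.1]) (le_min hh.2 hlt.le)
        have h3 := cost_nonneg (node c l r) (a := a) (b := b) (h := h) (by linarith [hh.1]) hh.2
        linarith [hh.1]
      · rw [Set.indicator_of_notMem (fun hmem => absurd hmem.2 (not_lt.2 hge)), add_zero,
          cost_node_ge hge, cost_node_ge' (by linarith [hh.1]) hac.le]
        have h2 := cost_mono r (a := max a (x + η)) (b := b) (a' := c) (b' := b) (h := h)
          ((by linarith : c ≤ x + η).trans (le_max_right _ _)) le_rfl
          (max_le (by linarith) hge) hh.2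
        linarith
    have hsub : Ioc x b ⊆ Icc a b := Ioc_subset_Icc_self.trans (Icc_subset_Icc_left hax)
    have hii : IntegrableOn ((Ioo x (x + η)).indicator (fun _ => B)) (Ioc x b) ν :=
      (integrableOn_const (measure_ne_top _ _)).indicator measurableSet_Ioo
    have h2 : ∫ h in Ioc x b, cost (node (x + η) X r) a b h ∂ν ≤
        ∫ h in Ioc x b, (cost (node c l r) a b h +
          (Ioo x (x + η)).indicator (fun _ => B) h) ∂ν :=
      setIntegral_mono_on ((cost_integrableOn ν _ a b).mono_set hsub)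
        (((cost_integrableOn ν _ a b).mono_set hsub).add hii) measurableSet_Ioc hb1
    rw [integral_add ((cost_integrableOn ν _ a b).mono_set hsub) hii,
      setIntegral_indicator measurableSet_Ioo, setIntegral_const, smul_eq_mul] at h2
    have h3 : ν.real (Ioc x b ∩ Ioo x (x + η)) ≤ ν.real (Ioo x (x + η)) :=
      measureReal_mono inter_subset_right
    have h4 : ν.real (Ioc x b ∩ Ioo x (x + η)) * B ≤ ν.real (Ioo x (x + η)) * B :=
      mul_le_mul_of_nonneg_right h3 hB0.le
    linarith
  have h5 : 3 * η * V ≤ ε / 2 := by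
    have h6 : η * (6 * V + 1) ≤ ε := by
      have := hη5.le
      rwa [le_div_iff₀ (by positivity)] at this
    nlinarith
  have h6 : B * ν.real (Ioo x (x + η)) ≤ ε / 2 := by
    have h7 := hη3.le
    rw [le_div_iff₀ (by positivity)] at h7
    linarith
  linarith

end omega

end Pool.Agent.HighLow
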