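import Pool.Agent.HighLow_e5c6.SpineLemma

/-!
# The potential inequality along the path of the atom
-/

set_option autoImplicit false
set_option linter.unusedSectionVars false
set_option linter.unusedVariables false

namespace Pool.Agent.HighLow

open MeasureTheory Set STree

namespace Setup

variable {ν : Measure ℝ} [IsFiniteMeasure ν] {x : ℝ} (S : Setup ν x)

include S in
lemma real_le_one (A : Set ℝ) : ν.real A ≤ 1 :=
  (measureReal_mono (subset_univ A) (measure_ne_top _ _)).trans S.hm1

include S in
lemma m_le_one : ν.real {x} ≤ 1 := S.real_le_one _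

/-- The main potential inequality for the path of the atom, close to the atom. -/
theorem path_lemma (T : STree) :
    ∀ (a b : ℝ) (k₀ : ℕ), S.ks ≤ k₀ → k₀ ≤ S.Ke → Fine S.δ T a b → Null ν T →
    NearOpt ν S.κ a b T → a < x → x ≤ b → x - 2 * u S.ks ≤ a →
    (∀ k, k₀ ≤ k → k < S.Ke → u k ≤ x - a) → x - a ≤ 2 * u k₀ →
    -(11 / 5) * ∑ k ∈ Finset.Ico k₀ S.Ke, S.b k +
      (S.N * ∑ k ∈ Finset.Ico k₀ S.Ke, S.τ k - 2 * (S.M * S.τ (S.Ke - 1))) ≤
    ∑ k ∈ Finset.Ico k₀ S.Ke, S.b k * ((cost T a b (x - u k) - cost T a b x) / u k) := by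
  set m := ν.real {x} with hm
  have hm0 : 0 < m := S.hm
  have hm1 : m ≤ 1 := S.m_le_one
  have hMτ : ∀ i, 0 ≤ S.M * S.τ i := fun i => mul_nonneg S.hM (S.hτ _)
  have hempty : ∀ (T : STree) (a b : ℝ), -(11 / 5) * ∑ k ∈ Finset.Ico S.Ke S.Ke, S.b k +
      (S.N * ∑ k ∈ Finset.Ico S.Ke S.Ke, S.τ k - 2 * (S.M * S.τ (S.Ke - 1))) ≤
      ∑ k ∈ Finset.Ico S.Ke S.Ke, S.b k * ((cost T a b (x - u k) - cost T a b x) / u k) := by
    intro T a b
    rw [Finset.Ico_self, Finset.sum_empty, Finset.sum_empty, Finset.sum_empty]
    have := hMτ (S.Ke - 1)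
    linarith
  induction T with
  | leaf =>
    intro a b k₀ hks hkK hF hN hopt hax hxb hnear hup hu2
    rcases hkK.eq_or_lt with h | h
    · rw [h]; exact hempty leaf a b
    · exfalso
      have h1 := hup k₀ le_rfl h
      have h2 : b - a ≤ S.δ := hF
      have h3 := S.hδ k₀ h
      have h4 := u_pos k₀
      linarith
  | node c l r ihl ihr =>
    intro a b k₀ hks hkK hF hN hopt hax hxb hnear hup hu2
    rcases hkK.eq_or_lt with h | hkK'
    · rw [h]; exact hempty (node c l r) a b
    have hcx' : c ≠ x := by
      intro h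
      rw [← h, measureReal_def, hN.1] at hm
      simp at hm
      linarith
    obtain ⟨hac, hcb, hFl, hFr⟩ := hF
    rcases lt_or_gt_of_ne hcx' with hcx | hcx
    swap
    · -- a cut to the right of the atom
      have hIH := ihl a c k₀ hks hkK hFl hN.2.1 (NearOpt.left hac.le hcb.le hN hopt) hax hcx.le
        hnear hup hu2
      refine hIH.trans (Finset.sum_le_sum fun k hk => ?_)
      have huk := u_pos k
      apply mul_le_mul_of_nonneg_left _ (S.b_nonneg k)
      apply div_le_div_of_nonneg_right _ huk.le
      rw [cost_node_lt' (by linarith) hcb.le, cost_node_lt' hcx hcb.le]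
      linarith
    -- a cut to the left of the atom
    set w := x - c with hw
    have hw0 : 0 < w := by linarith
    set R := cost r c b x with hR
    have hR0 : 0 ≤ R := cost_nonneg r hcx.le hxb
    have hcost : cost (node c l r) a b x = w + R := cost_node_ge' hcx.le hac.le
    -- (N1)
    set E := (4 * w * ν.real (Ico c x) + S.κ) / m with hE
    have hnr : All (fun c => c ≠ x) r := by
      refine All.mono ?_ hN.2.2
      intro c' hc' h
      rw [← h, measureReal_def, hc'] at hm
      simp at hm
      linarith
    have hN1 : ∀ h, c ≤ h → h < x → cost r c b x ≤ cost r c b h + E :=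
      cost_atom_le S.hm S.hκ0 r hFr hN.2.2 hnr (NearOpt.right hac.le hcb.le hN hopt) hcx hxb
    have hnc := S.near_le (p := c) (by linarith)
    have hna := S.near_le hnear
    rw [← hm] at hnc hna
    have hκm : 0 ≤ S.κ / m := div_nonneg S.hκ0 hm0.le
    have hE0 : 0 ≤ E := div_nonneg (add_nonneg (by
      have : 0 ≤ w * ν.real (Ico c x) := mul_nonneg hw0.le measureReal_nonneg
      linarith) S.hκ0) hm0.le
    have hEle : E ≤ w / 50 + S.κ / m := by
      rw [hE, add_div]
      have e1 : 4 * w * ν.real (Ico c x) / m ≤ w / 50 := by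
        rw [div_le_iff₀ hm0]
        have : w * ν.real (Ico c x) ≤ w * (m / 200) := mul_le_mul_of_nonneg_left hnc hw0.le
        linarith
      linarith
    have hEm : E * m ≤ w * m / 50 + S.κ := by
      have e1 : (w / 50 + S.κ / m) * m = w * m / 50 + S.κ := by field_simp
      rw [← e1]
      exact mul_le_mul_of_nonneg_right hEle hm0.le
    have hEν : E * ν.real (Ico a x) ≤ (w * m / 50 + S.κ) / 200 := by
      calc E * ν.real (Ico a x) ≤ E * (m / 200) := mul_le_mul_of_nonneg_left hna hE0
        _ = E * m / 200 := by ring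
        _ ≤ _ := by linarith
    have hEνc : E * ν.real (Ico c x) ≤ (w * m / 50 + S.κ) / 200 := by
      calc E * ν.real (Ico c x) ≤ E * (m / 200) := mul_le_mul_of_nonneg_left hnc hE0
        _ = E * m / 200 := by ring
        _ ≤ _ := by linarith
    set K := S.κ + w * ν.real (Ico a x) + E * ν.real (Ico c x) with hK
    have hwν : w * ν.real (Ico a x) ≤ w * (m / 200) := mul_le_mul_of_nonneg_left hna hw0.le
    have hwν0 : 0 ≤ w * ν.real (Ico a x) := mul_nonneg hw0.le measureReal_nonneg
    have hEνc0 : 0 ≤ E * ν.real (Ico c x) := mul_nonneg hE0 measureReal_nonneg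
    have hK0 : 0 ≤ K := by
      have := S.hκ0
      linarith
    have hPP : PP ν x l a c R K := pp_base hac hcx hxb hN hopt hE0 hN1
    have huKe : ∀ k, k < S.Ke → u (S.Ke - 1) ≤ u k := fun k hk => u_anti (by omega)
    have hKle : ∀ k, k < S.Ke → w ≤ u k → K ≤ m / 8 * u k := by
      intro k hk hwk
      have h1 := S.hκ
      have h2 : S.κ ≤ m / 100 * u k :=
        h1.trans (mul_le_mul_of_nonneg_left (huKe k hk) (by positivity))
      have h3 : w * m ≤ u k * m := mul_le_mul_of_nonneg_right hwk hm0.le
      have h4 : 0 < u k * m := mul_pos (u_pos k) hm0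
      linarith
    have hc0 : ν {c} = 0 := hN.1
    obtain ⟨j', hj1, hj2, hbig, hsmall⟩ := exists_split w k₀ S.Ke hkK
    -- costs
    have hleft : ∀ k ∈ Finset.Ico k₀ j', cost (node c l r) a b (x - u k) =
        (u k - w) + cost l a c (x - u k) := by
      intro k hk
      rw [Finset.mem_Ico] at hk
      have := hbig k hk.1 hk.2
      rw [cost_node_lt' (by linarith) hcb.le]
      ring
    have hright : ∀ k ∈ Finset.Ico j' S.Ke, cost (node c l r) a b (x - u k) =
        (w - u k) + cost r c b (x - u k) := by
      intro k hk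
      rw [Finset.mem_Ico] at hk
      have := hsmall k hk.1 hk.2
      rw [cost_node_ge' (by linarith) hac.le]
      ring
    have hfirst : -1 * ∑ k ∈ Finset.Ico k₀ j', S.b k +
        ∑ k ∈ Finset.Ico k₀ j', S.b k * ((cost l a c (x - u k) - R) / u k) ≤
        ∑ k ∈ Finset.Ico k₀ j', S.b k *
          ((cost (node c l r) a b (x - u k) - cost (node c l r) a b x) / u k) := by
      rw [Finset.mul_sum, ← Finset.sum_add_distrib]
      refine Finset.sum_le_sum fun k hk => ?_
      rw [hleft k hk, hcost]
      rw [Finset.mem_Ico] at hk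
      have hku := hbig k hk.1 hk.2
      have huk := u_pos k
      have e1 : -1 + (cost l a c (x - u k) - R) / u k ≤
          (u k - w + cost l a c (x - u k) - (w + R)) / u k := by
        rw [← sub_nonneg]
        have : (u k - w + cost l a c (x - u k) - (w + R)) / u k -
            (-1 + (cost l a c (x - u k) - R) / u k) = (2 * (u k - w)) / u k := by
          field_simp
          ring
        rw [this]
        exact div_nonneg (by linarith) huk.le
      calc -1 * S.b k + S.b k * ((cost l a c (x - u k) - R) / u k)
          = S.b k * (-1 + (cost l a c (x - u k) - R) / u k) := by ring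
        _ ≤ _ := mul_le_mul_of_nonneg_left e1 (S.b_nonneg k)
    have hsumb := sum_split hj1 hj2 S.b
    have hsumτ := sum_split hj1 hj2 S.τ
    have hsumc := sum_split hj1 hj2 (fun k => S.b k *
      ((cost (node c l r) a b (x - u k) - cost (node c l r) a b x) / u k))
    have hb1 := S.sum_b_nonneg k₀ j'
    have hb2 := S.sum_b_nonneg j' S.Ke
    rcases hj2.eq_or_lt with hjK | hjK
    · -- all scales go to the left
      subst hjK
      have hlast := hbig (S.Ke - 1) (by omega) (by omega)
      have hsp := S.spine_lemma (θ := 0) (ζ := u (S.Ke - 1)) (K := K) le_rfl hcx hc0 le_rfl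
        (by norm_num) le_rfl hK0 (hKle _ (by omega) hlast.le) l a R k₀ hks hkK' hFl hN.2.1 hnear hup
        hu2 (fun k h1 h2 => by linarith [hbig k h1 h2]) hac hPP
      rw [div_self (u_pos _).ne', zero_mul, add_zero] at hsp
      linarith
    · -- some scales go to the right: the cut has to be expensive
      have hshift := shift_path (ν := ν) (κ := S.κ) ⟨hac, hcb, hFl, hFr⟩ hcx hxb hN hopt hE0 hN1
      rw [← hw, ← hm, ← hR] at hshift
      set Λ := spine x (x - 3 * w) l with hΛ
      set ρ := ν.real (Ico c (x - w / 2)) with hρ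
      have hρ0 : 0 ≤ ρ := measureReal_nonneg
      have hwbig : u (S.Ke - 1) ≤ w := hsmall (S.Ke - 1) (by omega) (by omega)
      have hκw : S.κ ≤ m / 100 * w :=
        S.hκ.trans (mul_le_mul_of_nonneg_left hwbig (by positivity))
      have hmax : 33 / 100 * (w * m) ≤ max 0 (Λ - R) * ρ := by
        have h4 := S.hδ (S.Ke - 1) (by omega)
        have h5 : (10 * w + S.δ) * ν.real (Ico a x) ≤ 11 * w * (m / 200) := by
          apply mul_le_mul (by linarith) hna measureReal_nonneg (by positivity)
        have h8 : 0 ≤ w * m := by positivity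
        have h9 : (10 * w + S.δ + E) * ν.real (Ico a x) =
          (10 * w + S.δ) * ν.real (Ico a x) + E * ν.real (Ico a x) := by ring
        rw [h9] at hshift
        linarith
      have hwm : 0 < w * m := by positivity
      have hΛR : 0 < Λ - R := by
        by_contra hcon
        rw [max_eq_left (not_lt.1 hcon), zero_mul] at hmax
        linarith
      rw [max_eq_right hΛR.le] at hmax
      have hk0j' : k₀ < j' := by
        by_contra hcon
        have he : j' = k₀ := by omega
        have h1 := hsmall k₀ (by omega) hkK'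
        have h2 : Λ = 0 := spine_eq_zero hFl (by linarith)
        linarith
      set k' := j' - 1 with hk'
      have hk1 : w < u k' := hbig k' (by omega) (by omega)
      have huj' : u j' = u k' / 2 := by
        have h3 : j' = k' + 1 := by omega
        rw [h3, u_succ]
      have hk2 : u k' ≤ 2 * w := by
        have h1 := hsmall j' le_rfl hjK
        linarith
      have huk := u_pos k'
      set ρk := ν.real (Ioo (x - u k') (x - u k' / 4)) with hρk
      have hρle : ρ ≤ ρk := by
        refine measureReal_mono ?_ (measure_ne_top _ _)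
        intro h hh
        exact ⟨by linarith [hh.1], by linarith [hh.2]⟩
      have hsp := S.spine_lemma (θ := 1 / 6) (ζ := u k') (K := K) (j := j') (by omega) hcx hc0
        (by norm_num) le_rfl le_rfl hK0 (hKle _ (by omega) hk1.le) l a R k₀ hks hk0j' hFl hN.2.1
        hnear (fun k h1 h2 => hup k h1 (by omega)) hu2
        (fun k h1 h2 => by linarith [hbig k h1 h2]) hac hPP
      rw [← hk', div_self huk.ne'] at hsp
      -- the gain
      have hΛle : Λ ≤ spine x (x - 3 / 2 * u k') l :=
        spine_mono (by linarith) (by linarith) l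
      set D := (spine x (x - 3 / 2 * u k') l - R) / u k' with hD
      have hDle : Λ - R ≤ 2 * w * D := by
        have e1 : spine x (x - 3 / 2 * u k') l - R = D * u k' := by
          rw [hD, div_mul_cancel₀ _ huk.ne']
        have hD0 : 0 ≤ D := div_nonneg (by linarith) huk.le
        nlinarith
      have hD0 : 0 ≤ D := div_nonneg (by linarith) huk.le
      have hDρ : 33 / 200 * m ≤ D * ρk := by
        have e1 : 33 / 100 * (w * m) ≤ 2 * w * D * ρk := by
          calc 33 / 100 * (w * m) ≤ (Λ - R) * ρ := hmax
            _ ≤ (Λ - R) * ρk := mul_le_mul_of_nonneg_left hρle hΛR.le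
            _ ≤ 2 * w * D * ρk := mul_le_mul_of_nonneg_right hDle measureReal_nonneg
        have e2 : w * (33 / 100 * m) ≤ w * (2 * D * ρk) := by linarith
        have e3 := le_of_mul_le_mul_left e2 hw0
        linarith
      have hβD : 6 ≤ S.β k' * D := by
        rw [S.hβ, ← hρk, ← hm]
        have e1 : 40 / m * ρk * D = 40 / m * (D * ρk) := by ring
        rw [e1]
        have e2 : 40 / m * (33 / 200 * m) ≤ 40 / m * (D * ρk) :=
          mul_le_mul_of_nonneg_left hDρ (by positivity)
        have e3 : 40 / m * (33 / 200 * m) = 1320 / 200 := by field_simp; norm_num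
        rw [e3] at e2
        linarith
      have hτD : 12 * (S.M * S.τ k') ≤ S.τ k' * D := by
        have h1 := S.small k'
        rw [← hρk, ← hm] at h1
        have hτ0 := S.hτ k'
        have hρk0 : 0 ≤ ρk := measureReal_nonneg
        have hρkpos : 0 < ρk := by
          rcases hρk0.eq_or_lt with h | h
          · rw [← h, mul_zero] at hDρ
            linarith
          · exact h
        have e1 : S.τ k' * (100 * S.M * ρk) ≤ S.τ k' * (200 / 33 * (D * ρk)) :=
          h1.trans (mul_le_mul_of_nonneg_left (by linarith) hτ0)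
        have e2 : (12 * (S.M * S.τ k')) * ρk ≤ (S.τ k' * D) * ρk := by
          have : 0 ≤ S.τ k' * D * ρk := by positivity
          nlinarith
        exact le_of_mul_le_mul_right e2 hρkpos
      have hgain : 1 + 2 * (S.M * S.τ k') ≤ 1 / 6 * (S.b k' * D) := by
        have : S.b k' = S.β k' + S.τ k' := rfl
        rw [this]
        linarith
      -- the right part
      have hsecond : ∑ k ∈ Finset.Ico j' S.Ke, S.b k *
          ((cost (node c l r) a b (x - u k) - cost (node c l r) a b x) / u k) =
          -∑ k ∈ Finset.Ico j' S.Ke, S.b k +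
          ∑ k ∈ Finset.Ico j' S.Ke, S.b k * ((cost r c b (x - u k) - cost r c b x) / u k) := by
        rw [← Finset.sum_neg_distrib, ← Finset.sum_add_distrib]
        refine Finset.sum_congr rfl fun k hk => ?_
        rw [hright k hk, hcost]
        have huk := (u_pos k).ne'
        field_simp
        ring
      have hIH := ihr c b j' (by omega) hjK.le hFr hN.2.2 (NearOpt.right hac.le hcb.le hN hopt) hcx
        hxb (by linarith) (fun k h1 h2 => hsmall k h1 h2) (by rw [← hw]; linarith)
      have hsb := S.sum_b_le_one (k₀ := j') (j := S.Ke) (by omega) le_rfl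
      rw [hsumb, hsumτ, hsumc, hsecond]
      linarith

end Setup

end Pool.Agent.HighLow
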