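import Pool.Agent.HighLow_e5c6.Game

/-!
# What a pure strategy of Red must allow

A lower bound for the minimax value over pure strategies, by an adversary argument: `R n k * (b - a)`
is a lower bound for the supremum of `(payoff of n guesses) + k * (h - a)` over `h` in `(a, b)`.
-/

set_option autoImplicit false

namespace Pool.Agent.HighLow

open MeasureTheory Set
open scoped ENNReal

/-- The truncated recursion of Alpern. -/
noncomputable def R : ℕ → ℤ → ℝ
  | 0, k => max (k : ℝ) 0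
  | n + 1, k => R n (k + 1) * (1 + R n (k - 1)) / (1 + R n (k - 1) + R n (k + 1) - k)

lemma R_ge (n : ℕ) : ∀ k : ℤ, max (k : ℝ) 0 ≤ R n k := by
  induction n with
  | zero => intro k; exact le_rfl
  | succ n ih =>
    intro k
    have h1 := ih (k - 1)
    have h2 := ih (k + 1)
    push_cast at h1 h2
    obtain ⟨h1a, h1b⟩ := max_le_iff.1 h1
    obtain ⟨h2a, h2b⟩ := max_le_iff.1 h2
    have hden : 0 < 1 + R n (k - 1) + R n (k + 1) - k := by linarith
    rw [R, max_le_iff]
    constructor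
    · rw [le_div_iff₀ hden]
      nlinarith [mul_nonneg (show 0 ≤ R n (k + 1) - k by linarith)
        (show 0 ≤ 1 + R n (k - 1) - k by linarith)]
    · exact div_nonneg (mul_nonneg h2b (by linarith)) hden.le

lemma R_ge_cast (n : ℕ) (k : ℤ) : (k : ℝ) ≤ R n k := (le_max_left _ _).trans (R_ge n k)

lemma R_nonneg (n : ℕ) (k : ℤ) : 0 ≤ R n k := (le_max_right _ _).trans (R_ge n k)

lemma R_den_pos (n : ℕ) (k : ℤ) : 0 < 1 + R n (k - 1) + R n (k + 1) - k := by
  have h1 := R_nonneg n (k - 1)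
  have h2 := R_ge_cast n (k + 1)
  push_cast at h2
  linarith

lemma R_succ_mul (n : ℕ) (k : ℤ) : R (n + 1) k * (1 + R n (k - 1) + R n (k + 1) - k) =
    R n (k + 1) * (1 + R n (k - 1)) := by
  rw [R, div_mul_cancel₀ _ (R_den_pos n k).ne']

lemma R_succ_le_right (n : ℕ) (k : ℤ) : R (n + 1) k ≤ R n (k + 1) := by
  have h1 := R_nonneg n (k + 1)
  have h2 := R_ge_cast n (k + 1)
  push_cast at h2
  rw [R, div_le_iff₀ (R_den_pos n k)]
  nlinarith

lemma R_succ_le_left (n : ℕ) (k : ℤ) : R (n + 1) k ≤ 1 + R n (k - 1) := by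
  have h1 := R_nonneg n (k - 1)
  have h2 := R_ge_cast n (k - 1)
  push_cast at h2
  rw [R, div_le_iff₀ (R_den_pos n k)]
  nlinarith

lemma ofReal_le_add {x y z : ℝ} (h : x ≤ y + z) :
    ENNReal.ofReal x ≤ ENNReal.ofReal y + ENNReal.ofReal z :=
  (ENNReal.ofReal_le_ofReal h).trans ENNReal.ofReal_add_le

/-- The adversary. -/
lemma adversary (n : ℕ) : ∀ (k : ℤ) (a b : ℝ) (g : Strategy) (ρ : ℝ), 0 ≤ a → b ≤ 1 → a < b →
    ρ < R n k * (b - a) → ∃ h : Icc (0 : ℝ) 1, a < h ∧ (h : ℝ) < b ∧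
      ENNReal.ofReal (ρ - k * (h - a)) ≤ pay n g h := by
  induction n with
  | zero =>
    intro k a b g ρ ha hb hab hρ
    simp only [R] at hρ
    rcases le_total (k : ℝ) 0 with hk | hk
    · rw [max_eq_right hk, zero_mul] at hρ
      -- choose h close to a
      set t : ℝ := min ((b - a) / 2) (-ρ / (1 - k)) with ht
      have hk1 : (0 : ℝ) < 1 - k := by linarith
      have ht0 : 0 < t := lt_min (by linarith) (div_pos (by linarith) hk1)
      have ht1 : t ≤ (b - a) / 2 := min_le_left _ _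
      have ht2 : t * (1 - k) ≤ -ρ := by
        rw [← le_div_iff₀ hk1]; exact min_le_right _ _
      refine ⟨⟨a + t, by linarith, by linarith⟩, by simpa using ht0, by simp; linarith, ?_⟩
      simp only [pay, add_sub_cancel_left]
      rw [nonpos_iff_eq_zero, ENNReal.ofReal_eq_zero]
      nlinarith
    · rw [max_eq_left hk] at hρ
      rcases hk.eq_or_lt with hk0 | hk0
      · rw [← hk0, zero_mul] at hρ
        refine ⟨⟨(a + b) / 2, by linarith, by linarith⟩, by simp; linarith, by simp; linarith, ?_⟩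
        rw [← hk0, zero_mul, sub_zero]
        simp only [pay]
        rw [nonpos_iff_eq_zero, ENNReal.ofReal_eq_zero]
        exact hρ.le
      · set t : ℝ := max ((b - a) / 2) (ρ / k) with ht
        have ht0 : 0 < t := lt_max_of_lt_left (by linarith)
        have ht1 : t < b - a := by
          apply max_lt (by linarith)
          rw [div_lt_iff₀ hk0]
          linarith
        have ht2 : ρ ≤ t * k := by
          rw [← div_le_iff₀ hk0]; exact le_max_right _ _
        refine ⟨⟨a + t, by linarith, by linarith⟩, by simpa using ht0, by simp; linarith, ?_⟩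
        simp only [pay, add_sub_cancel_left]
        rw [nonpos_iff_eq_zero, ENNReal.ofReal_eq_zero]
        linarith
  | succ n ih =>
    intro k a b g ρ ha hb hab hρ
    set c : ℝ := ((g [] : Icc (0 : ℝ) 1) : ℝ) with hc
    have hL : ∀ h : Icc (0 : ℝ) 1, (h : ℝ) < c → pay (n + 1) g h =
        ENNReal.ofReal (c - h) + pay n (sub g false) h := by
      intro h hh
      have h1 : h < g [] := hh
      rw [pay, if_neg h1.ne', if_neg (not_lt.2 h1.le), abs_of_pos (by linarith)]
    have hRt : ∀ h : Icc (0 : ℝ) 1, c < (h : ℝ) → pay (n + 1) g h =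
        ENNReal.ofReal (h - c) + pay n (sub g true) h := by
      intro h hh
      have h1 : g [] < h := hh
      rw [pay, if_neg h1.ne, if_pos h1, abs_sub_comm, abs_of_pos (by linarith)]
    rcases le_or_gt c a with hca | hca
    · -- the guess is to the left of the interval
      have h1 : ρ < R n (k + 1) * (b - a) :=
        lt_of_lt_of_le hρ (mul_le_mul_of_nonneg_right (R_succ_le_right n k) (by linarith))
      obtain ⟨h, hh1, hh2, hh3⟩ := ih (k + 1) a b (sub g true) ρ ha hb hab h1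
      refine ⟨h, hh1, hh2, ?_⟩
      rw [hRt h (by linarith)]
      refine le_trans ?_ (add_le_add le_rfl hh3)
      apply ofReal_le_add
      push_cast
      linarith
    rcases le_or_gt b c with hcb | hcb
    · -- the guess is to the right of the interval
      have h1 : ρ - (b - a) < R n (k - 1) * (b - a) := by
        have := mul_le_mul_of_nonneg_right (R_succ_le_left n k) (show 0 ≤ b - a by linarith)
        linarith
      obtain ⟨h, hh1, hh2, hh3⟩ := ih (k - 1) a b (sub g false) (ρ - (b - a)) ha hb hab h1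
      refine ⟨h, hh1, hh2, ?_⟩
      rw [hL h (by linarith)]
      refine le_trans ?_ (add_le_add le_rfl hh3)
      apply ofReal_le_add
      push_cast
      linarith
    · by_cases hl : ρ - (c - a) < R n (k - 1) * (c - a)
      · obtain ⟨h, hh1, hh2, hh3⟩ := ih (k - 1) a c (sub g false) (ρ - (c - a)) ha
          (by linarith) hca hl
        refine ⟨h, hh1, by linarith, ?_⟩
        rw [hL h hh2]
        refine le_trans ?_ (add_le_add le_rfl hh3)
        apply ofReal_le_add
        push_cast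
        linarith
      · by_cases hr : ρ - k * (c - a) < R n (k + 1) * (b - c)
        · obtain ⟨h, hh1, hh2, hh3⟩ := ih (k + 1) c b (sub g true) (ρ - k * (c - a))
            (by linarith) hb hcb hr
          refine ⟨h, by linarith, hh2, ?_⟩
          rw [hRt h hh1]
          refine le_trans ?_ (add_le_add le_rfl hh3)
          apply ofReal_le_add
          push_cast
          linarith
        · exfalso
          push Not at hl hr
          have hden := R_den_pos n k
          have hmul := R_succ_mul n k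
          have h1 := R_nonneg n (k - 1)
          have h2 := R_ge_cast n (k + 1)
          push_cast at h2
          have e1 := mul_le_mul_of_nonneg_left hl (show 0 ≤ R n (k + 1) - k by linarith)
          have e2 := mul_le_mul_of_nonneg_left hr (show 0 ≤ 1 + R n (k - 1) by linarith)
          have e3 := mul_lt_mul_of_pos_right hρ hden
          have e4 : R (n + 1) k * (b - a) * (1 + R n (k - 1) + R n (k + 1) - k) =
              R n (k + 1) * (1 + R n (k - 1)) * (b - a) := by
            rw [← hmul]; ring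
          rw [e4] at e3
          nlinarith

/-- Every pure strategy allows at least `R n 0`. -/
theorem R_le_iSup_payoff (n : ℕ) (g : Strategy) :
    ENNReal.ofReal (R n 0) ≤ ⨆ h : Icc (0 : ℝ) 1, payoff g h := by
  refine le_of_forall_lt fun x hx => ?_
  obtain ⟨r, hr1, hr2⟩ := ENNReal.lt_iff_exists_real_btwn.1 hx
  have hr : r < R n 0 := by
    by_contra hcon
    exact absurd (ENNReal.ofReal_le_ofReal (not_lt.1 hcon)) (not_le.2 hr2.2)
  obtain ⟨h, h1, h2, h3⟩ := adversary n 0 0 1 g r le_rfl le_rfl one_pos (by simpa using hr)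
  simp only [Int.cast_zero, zero_mul, sub_zero] at h3
  exact lt_of_lt_of_le hr2.1 (h3.trans ((pay_le_payoff n g h).trans (le_iSup (payoff g) h)))

/-- Monotonicity of the recursion. -/
lemma step {n : ℕ} {k : ℤ} {x y z : ℝ} (hx : x ≤ R n (k - 1)) (hy : y ≤ R n (k + 1))
    (hx0 : max ((k : ℝ) - 1) 0 ≤ x) (hy0 : max ((k : ℝ) + 1) 0 ≤ y)
    (hz : z * (1 + x + y - k) ≤ y * (1 + x)) : z ≤ R (n + 1) k := by
  obtain ⟨hx1, hx2⟩ := max_le_iff.1 hx0
  obtain ⟨hy1, hy2⟩ := max_le_iff.1 hy0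
  have hd : 0 < 1 + x + y - k := by linarith
  have hz' : z ≤ y * (1 + x) / (1 + x + y - k) := by rwa [le_div_iff₀ hd]
  refine hz'.trans ?_
  rw [R, div_le_div_iff₀ hd (R_den_pos n k)]
  -- in two steps
  set X := R n (k - 1) with hX
  set Y := R n (k + 1) with hY
  -- y (1+x) (1+X+Y-k) ≤ Y (1+X) (1+x+y-k)
  have e1 : 0 ≤ (Y - y) * ((1 + x) * (1 + x - k)) :=
    mul_nonneg (by linarith) (mul_nonneg (by linarith) (by linarith))
  have e2 : 0 ≤ (X - x) * (Y * (y - k)) :=
    mul_nonneg (by linarith) (mul_nonneg (by linarith) (by linarith))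
  have e3 : Y * (1 + X) * (1 + x + y - k) - y * (1 + x) * (1 + X + Y - k) =
      (Y - y) * ((1 + x) * (1 + x - k)) + (X - x) * (Y * (y - k)) +
      (Y - y) * (X - x) * (1 + x) := by ring
  have e4 : 0 ≤ (Y - y) * (X - x) * (1 + x) :=
    mul_nonneg (mul_nonneg (by linarith) (by linarith)) (by linarith)
  linarith

/-- The numerical value after nine steps. -/
lemma R_nine : (31217 / 50000 : ℝ) ≤ R 9 0 := by
  have r0_m5 : (0 : ℝ) ≤ R 0 (-5) := le_trans (by norm_num) (R_ge 0 (-5))
  have r0_m3 : (0 : ℝ) ≤ R 0 (-3) := le_trans (by norm_num) (R_ge 0 (-3))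
  have r0_m1 : (0 : ℝ) ≤ R 0 (-1) := le_trans (by norm_num) (R_ge 0 (-1))
  have r0_1 : (1 : ℝ) ≤ R 0 (1) := le_trans (by norm_num) (R_ge 0 (1))
  have r0_3 : (3 : ℝ) ≤ R 0 (3) := le_trans (by norm_num) (R_ge 0 (3))
  have r0_5 : (5 : ℝ) ≤ R 0 (5) := le_trans (by norm_num) (R_ge 0 (5))
  have r1_m4 : (0 : ℝ) ≤ R 1 (-4) :=
    step r0_m5 r0_m3 (by norm_num) (by norm_num) (by norm_num)
  have r1_m2 : (0 : ℝ) ≤ R 1 (-2) :=
    step r0_m3 r0_m1 (by norm_num) (by norm_num) (by norm_num)
  have r1_0 : (1 / 2 : ℝ) ≤ R 1 (0) :=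
    step r0_m1 r0_1 (by norm_num) (by norm_num) (by norm_num)
  have r1_2 : (2 : ℝ) ≤ R 1 (2) :=
    step r0_1 r0_3 (by norm_num) (by norm_num) (by norm_num)
  have r1_4 : (4 : ℝ) ≤ R 1 (4) :=
    step r0_3 r0_5 (by norm_num) (by norm_num) (by norm_num)
  have r2_m5 : (0 : ℝ) ≤ R 2 (-5) := le_trans (by norm_num) (R_ge 2 (-5))
  have r2_m3 : (0 : ℝ) ≤ R 2 (-3) :=
    step r1_m4 r1_m2 (by norm_num) (by norm_num) (by norm_num)
  have r2_m1 : (1 / 5 : ℝ) ≤ R 2 (-1) :=
    step r1_m2 r1_0 (by norm_num) (by norm_num) (by norm_num)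
  have r2_1 : (6 / 5 : ℝ) ≤ R 2 (1) :=
    step r1_0 r1_2 (by norm_num) (by norm_num) (by norm_num)
  have r2_3 : (3 : ℝ) ≤ R 2 (3) :=
    step r1_2 r1_4 (by norm_num) (by norm_num) (by norm_num)
  have r2_5 : (5 : ℝ) ≤ R 2 (5) := le_trans (by norm_num) (R_ge 2 (5))
  have r3_m4 : (0 : ℝ) ≤ R 3 (-4) :=
    step r2_m5 r2_m3 (by norm_num) (by norm_num) (by norm_num)
  have r3_m2 : (1 / 16 : ℝ) ≤ R 3 (-2) :=
    step r2_m3 r2_m1 (by norm_num) (by norm_num) (by norm_num)
  have r3_0 : (3 / 5 : ℝ) ≤ R 3 (0) :=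
    step r2_m1 r2_1 (by norm_num) (by norm_num) (by norm_num)
  have r3_2 : (33 / 16 : ℝ) ≤ R 3 (2) :=
    step r2_1 r2_3 (by norm_num) (by norm_num) (by norm_num)
  have r3_4 : (4 : ℝ) ≤ R 3 (4) :=
    step r2_3 r2_5 (by norm_num) (by norm_num) (by norm_num)
  have r4_m5 : (0 : ℝ) ≤ R 4 (-5) := le_trans (by norm_num) (R_ge 4 (-5))
  have r4_m3 : (769 / 50000 : ℝ) ≤ R 4 (-3) :=
    step r3_m4 r3_m2 (by norm_num) (by norm_num) (by norm_num)
  have r4_m1 : (23943 / 100000 : ℝ) ≤ R 4 (-1) :=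
    step r3_m2 r3_0 (by norm_num) (by norm_num) (by norm_num)
  have r4_1 : (123943 / 100000 : ℝ) ≤ R 4 (1) :=
    step r3_0 r3_2 (by norm_num) (by norm_num) (by norm_num)
  have r4_3 : (150769 / 50000 : ℝ) ≤ R 4 (3) :=
    step r3_2 r3_4 (by norm_num) (by norm_num) (by norm_num)
  have r4_5 : (5 : ℝ) ≤ R 4 (5) := le_trans (by norm_num) (R_ge 4 (5))
  have r5_m4 : (153 / 50000 : ℝ) ≤ R 5 (-4) :=
    step r4_m5 r4_m3 (by norm_num) (by norm_num) (by norm_num)
  have r5_m2 : (7469 / 100000 : ℝ) ≤ R 5 (-2) :=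
    step r4_m3 r4_m1 (by norm_num) (by norm_num) (by norm_num)
  have r5_0 : (61971 / 100000 : ℝ) ≤ R 5 (0) :=
    step r4_m1 r4_1 (by norm_num) (by norm_num) (by norm_num)
  have r5_2 : (207469 / 100000 : ℝ) ≤ R 5 (2) :=
    step r4_1 r4_3 (by norm_num) (by norm_num) (by norm_num)
  have r5_4 : (200153 / 50000 : ℝ) ≤ R 5 (4) :=
    step r4_3 r4_5 (by norm_num) (by norm_num) (by norm_num)
  have r6_m3 : (1837 / 100000 : ℝ) ≤ R 6 (-3) :=
    step r5_m4 r5_m2 (by norm_num) (by norm_num) (by norm_num)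
  have r6_m1 : (24717 / 100000 : ℝ) ≤ R 6 (-1) :=
    step r5_m2 r5_0 (by norm_num) (by norm_num) (by norm_num)
  have r6_1 : (124717 / 100000 : ℝ) ≤ R 6 (1) :=
    step r5_0 r5_2 (by norm_num) (by norm_num) (by norm_num)
  have r6_3 : (301837 / 100000 : ℝ) ≤ R 6 (3) :=
    step r5_2 r5_4 (by norm_num) (by norm_num) (by norm_num)
  have r7_m2 : (1927 / 25000 : ℝ) ≤ R 7 (-2) :=
    step r6_m3 r6_m1 (by norm_num) (by norm_num) (by norm_num)
  have r7_0 : (31179 / 50000 : ℝ) ≤ R 7 (0) :=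
    step r6_m1 r6_1 (by norm_num) (by norm_num) (by norm_num)
  have r7_2 : (51927 / 25000 : ℝ) ≤ R 7 (2) :=
    step r6_1 r6_3 (by norm_num) (by norm_num) (by norm_num)
  have r8_m1 : (24869 / 100000 : ℝ) ≤ R 8 (-1) :=
    step r7_m2 r7_0 (by norm_num) (by norm_num) (by norm_num)
  have r8_1 : (124869 / 100000 : ℝ) ≤ R 8 (1) :=
    step r7_0 r7_2 (by norm_num) (by norm_num) (by norm_num)
  have r9_0 : (31217 / 50000 : ℝ) ≤ R 9 (0) :=
    step r8_m1 r8_1 (by norm_num) (by norm_num) (by norm_num)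
  exact r9_0

/-- Every pure strategy of Red allows a payoff of at least `0.62434`. -/
theorem pure_lower (g : Strategy) :
    ENNReal.ofReal (31217 / 50000) ≤ ⨆ h : Icc (0 : ℝ) 1, payoff g h :=
  (ENNReal.ofReal_le_ofReal R_nine).trans (R_le_iSup_payoff 9 g)

end Pool.Agent.HighLow
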