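import Pool.Agent.HighLow_e5c6.Minimax

/-!
# The continuous high-low game: optimal mixed strategies of Red

The game has a value and both players have optimal strategies.  The payoff is approximated from
below by functions which are continuous in the strategy and in the hidden number.
-/

set_option autoImplicit false

namespace Pool.Agent.HighLow

open MeasureTheory Set Filter Topology
open scoped ENNReal BoundedContinuousFunction

/-- A continuous lower approximation of the payoff of the first `n` guesses. -/
noncomputable def payc (s : ℝ) : ℕ → Strategy → Icc (0 : ℝ) 1 → ℝ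
  | 0, _, _ => 0
  | n + 1, g, h => |(g [] : ℝ) - h| +
      min 1 (max ((h : ℝ) - g []) 0 / s) * payc s n (sub g true) h +
      min 1 (max ((g [] : ℝ) - h) 0 / s) * payc s n (sub g false) h

lemma continuous_sub (b : Bool) : Continuous (fun g : Strategy => sub g b) :=
  continuous_pi fun L => continuous_apply (b :: L)

lemma continuous_payc (s : ℝ) (n : ℕ) :
    Continuous (fun p : Icc (0 : ℝ) 1 × Strategy => payc s n p.2 p.1) := by
  induction n with
  | zero => exact continuous_const
  | succ n ih =>
    have hg : Continuous (fun p : Icc (0 : ℝ) 1 × Strategy => ((p.2 [] : Icc (0 : ℝ) 1) : ℝ)) :=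
      continuous_subtype_val.comp ((continuous_apply ([] : List Bool)).comp continuous_snd)
    have hh : Continuous (fun p : Icc (0 : ℝ) 1 × Strategy => ((p.1 : Icc (0 : ℝ) 1) : ℝ)) :=
      continuous_subtype_val.comp continuous_fst
    have ht : ∀ b : Bool, Continuous (fun p : Icc (0 : ℝ) 1 × Strategy =>
        payc s n (sub p.2 b) p.1) := fun b =>
      ih.comp (continuous_fst.prodMk ((continuous_sub b).comp continuous_snd))
    show Continuous (fun p : Icc (0 : ℝ) 1 × Strategy => |((p.2 [] : Icc (0 : ℝ) 1) : ℝ) - p.1| +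
      min 1 (max ((p.1 : ℝ) - (p.2 [] : Icc (0 : ℝ) 1)) 0 / s) * payc s n (sub p.2 true) p.1 +
      min 1 (max (((p.2 [] : Icc (0 : ℝ) 1) : ℝ) - p.1) 0 / s) * payc s n (sub p.2 false) p.1)
    exact ((hg.sub hh).abs.add ((continuous_const.min
      (((hh.sub hg).max continuous_const).div_const s)).mul (ht true))).add
      ((continuous_const.min (((hg.sub hh).max continuous_const).div_const s)).mul (ht false))

lemma factor_nonneg {s : ℝ} (hs : 0 < s) (x : ℝ) : 0 ≤ min 1 (max x 0 / s) :=
  le_min zero_le_one (div_nonneg (le_max_right _ _) hs.le)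

lemma payc_nonneg {s : ℝ} (hs : 0 < s) (n : ℕ) : ∀ (g : Strategy) (h : Icc (0 : ℝ) 1),
    0 ≤ payc s n g h := by
  induction n with
  | zero => intro g h; exact le_rfl
  | succ n ih =>
    intro g h
    rw [payc]
    have h1 := mul_nonneg (factor_nonneg hs ((h : ℝ) - g [])) (ih (sub g true) h)
    have h2 := mul_nonneg (factor_nonneg hs ((g [] : ℝ) - h)) (ih (sub g false) h)
    have h3 := abs_nonneg ((g [] : ℝ) - h)
    linarith

lemma payc_le_pay {s : ℝ} (hs : 0 < s) (n : ℕ) : ∀ (g : Strategy) (h : Icc (0 : ℝ) 1),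
    ENNReal.ofReal (payc s n g h) ≤ pay n g h := by
  induction n with
  | zero => intro g h; simp [payc, pay]
  | succ n ih =>
    intro g h
    rw [payc, pay]
    rcases lt_trichotomy (g []) h with hc | hc | hc
    · have hc' : ((g [] : Icc (0 : ℝ) 1) : ℝ) < h := hc
      rw [if_neg hc.ne, if_pos hc, max_eq_right (show ((g [] : ℝ) - h) ≤ 0 by linarith), zero_div,
        min_eq_right zero_le_one, zero_mul, add_zero]
      refine (ENNReal.ofReal_add_le).trans ?_
      gcongr
      refine (ENNReal.ofReal_le_ofReal ?_).trans (ih (sub g true) h)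
      exact mul_le_of_le_one_left (payc_nonneg hs n _ h) (min_le_left _ _)
    · rw [if_pos hc, hc]
      simp
    · have hc' : (h : ℝ) < ((g [] : Icc (0 : ℝ) 1) : ℝ) := hc
      rw [if_neg hc.ne', if_neg (not_lt.2 hc.le),
        max_eq_right (show ((h : ℝ) - g []) ≤ 0 by linarith), zero_div,
        min_eq_right zero_le_one, zero_mul, add_zero]
      refine (ENNReal.ofReal_add_le).trans ?_
      gcongr
      refine (ENNReal.ofReal_le_ofReal ?_).trans (ih (sub g false) h)
      exact mul_le_of_le_one_left (payc_nonneg hs n _ h) (min_le_left _ _)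

/-- The parameters of the approximation. -/
noncomputable def sk (k : ℕ) : ℝ := 1 / ((k : ℝ) + 1)

lemma sk_pos (k : ℕ) : 0 < sk k := by unfold sk; positivity

lemma eventually_factor {x : ℝ} (hx : 0 < x) : ∀ᶠ k in atTop, min 1 (max x 0 / sk k) = 1 := by
  obtain ⟨N, hN⟩ := exists_nat_gt (1 / x)
  filter_upwards [eventually_ge_atTop N] with n hn
  apply min_eq_left
  rw [max_eq_left hx.le, le_div_iff₀ (sk_pos n), one_mul]
  unfold sk
  rw [div_le_iff₀ (by positivity)]
  rw [div_lt_iff₀ hx] at hN
  have : (N : ℝ) ≤ n := by exact_mod_cast hn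
  nlinarith

lemma eventually_payc (n : ℕ) : ∀ (g : Strategy) (h : Icc (0 : ℝ) 1),
    ∀ᶠ k in atTop, ENNReal.ofReal (payc (sk k) n g h) = pay n g h := by
  induction n with
  | zero => intro g h; simp [payc, pay]
  | succ n ih =>
    intro g h
    rcases lt_trichotomy (g []) h with hc | hc | hc
    · have hc' : ((g [] : Icc (0 : ℝ) 1) : ℝ) < h := hc
      filter_upwards [eventually_factor (show 0 < (h : ℝ) - g [] by linarith),
        ih (sub g true) h] with k hk1 hk2
      rw [payc, pay, if_neg hc.ne, if_pos hc,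
        max_eq_right (show ((g [] : ℝ) - h) ≤ 0 by linarith), zero_div,
        min_eq_right zero_le_one, zero_mul, add_zero, hk1, one_mul,
        ENNReal.ofReal_add (abs_nonneg _) (payc_nonneg (sk_pos k) n _ h), hk2]
    · refine Filter.Eventually.of_forall fun k => ?_
      rw [payc, pay, if_pos hc, hc]
      simp
    · have hc' : (h : ℝ) < ((g [] : Icc (0 : ℝ) 1) : ℝ) := hc
      filter_upwards [eventually_factor (show 0 < (g [] : ℝ) - h by linarith),
        ih (sub g false) h] with k hk1 hk2
      rw [payc, pay, if_neg hc.ne', if_neg (not_lt.2 hc.le),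
        max_eq_right (show ((h : ℝ) - g []) ≤ 0 by linarith), zero_div,
        min_eq_right zero_le_one, zero_mul, add_zero, hk1, one_mul,
        ENNReal.ofReal_add (abs_nonneg _) (payc_nonneg (sk_pos k) n _ h), hk2]

/-- The approximation as a bounded continuous function of the strategy. -/
noncomputable def paycF (s : ℝ) (n : ℕ) (h : Icc (0 : ℝ) 1) : Strategy →ᵇ ℝ :=
  BoundedContinuousFunction.mkOfCompact ⟨fun g => payc s n g h,
    (continuous_payc s n).comp (continuous_const.prodMk continuous_id)⟩

lemma paycF_apply (s : ℝ) (n : ℕ) (h : Icc (0 : ℝ) 1) (g : Strategy) :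
    paycF s n h g = payc s n g h := rfl

lemma redCost_eq_iSup (σ : ProbabilityMeasure Strategy) (h : Icc (0 : ℝ) 1) :
    redCost σ h = ⨆ n, ∫⁻ g, pay n g h ∂(σ : Measure Strategy) := by
  unfold redCost
  simp only [payoff_eq_iSup]
  exact lintegral_iSup (fun n => (measurable_pay n).comp (measurable_const.prodMk measurable_id))
    fun i j hij g => pay_mono g h hij

/-- The bound on the expected payoff in terms of the continuous approximations. -/
lemma redCost_le_iff (σ : ProbabilityMeasure Strategy) (h : Icc (0 : ℝ) 1) {c : ℝ} (hc : 0 ≤ c) :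
    redCost σ h ≤ ENNReal.ofReal c ↔
      ∀ n k : ℕ, ∫ g, paycF (sk k) n h g ∂(σ : Measure Strategy) ≤ c := by
  have hof : ∀ n k : ℕ, ENNReal.ofReal (∫ g, paycF (sk k) n h g ∂(σ : Measure Strategy)) =
      ∫⁻ g, ENNReal.ofReal (payc (sk k) n g h) ∂(σ : Measure Strategy) := by
    intro n k
    rw [ofReal_integral_eq_lintegral_ofReal ((paycF (sk k) n h).integrable _)
      (Filter.Eventually.of_forall fun g => payc_nonneg (sk_pos k) n g h)]
    rfl
  constructor
  · intro H n k
    rw [← ENNReal.ofReal_le_ofReal_iff hc, hof]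
    refine (lintegral_mono fun g => ?_).trans H
    exact (payc_le_pay (sk_pos k) n g h).trans (pay_le_payoff n g h)
  · intro H
    rw [redCost_eq_iSup]
    refine iSup_le fun n => ?_
    have hlim : ∀ g : Strategy, liminf (fun k => ENNReal.ofReal (payc (sk k) n g h)) atTop =
        pay n g h := by
      intro g
      have h1 : Tendsto (fun k => ENNReal.ofReal (payc (sk k) n g h)) atTop (𝓝 (pay n g h)) :=
        tendsto_const_nhds.congr' (by
          filter_upwards [eventually_payc n g h] with k hk
          exact hk.symm)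
      exact h1.liminf_eq
    calc ∫⁻ g, pay n g h ∂(σ : Measure Strategy)
        = ∫⁻ g, liminf (fun k => ENNReal.ofReal (payc (sk k) n g h)) atTop
            ∂(σ : Measure Strategy) := by simp only [hlim]
      _ ≤ liminf (fun k => ∫⁻ g, ENNReal.ofReal (payc (sk k) n g h) ∂(σ : Measure Strategy))
            atTop := by
          refine lintegral_liminf_le fun k => ?_
          exact ENNReal.measurable_ofReal.comp (paycF (sk k) n h).continuous.measurable
      _ ≤ ENNReal.ofReal c := by
          refine liminf_le_of_le (by isBoundedDefault) fun b hb => ?_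
          obtain ⟨k, hk⟩ := hb.exists
          refine hk.trans ?_
          rw [← hof]
          exact ENNReal.ofReal_le_ofReal (H n k)

/-- The mixed strategies of Red which guarantee `c`. -/
def redSet (c : ℝ) : Set (ProbabilityMeasure Strategy) :=
  {σ | ∀ h, redCost σ h ≤ ENNReal.ofReal c}

lemma isClosed_redSet {c : ℝ} (hc : 0 ≤ c) : IsClosed (redSet c) := by
  have e : redSet c = ⋂ h : Icc (0 : ℝ) 1, ⋂ n : ℕ, ⋂ k : ℕ,
      {σ : ProbabilityMeasure Strategy | ∫ g, paycF (sk k) n h g ∂(σ : Measure Strategy) ≤ c} := by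
    ext σ
    simp only [redSet, Set.mem_ofPred_eq, mem_iInter]
    exact forall_congr' fun h => redCost_le_iff σ h hc
  rw [e]
  refine isClosed_iInter fun h => isClosed_iInter fun n => isClosed_iInter fun k => ?_
  exact isClosed_le
    (ProbabilityMeasure.continuous_integral_boundedContinuousFunction (paycF (sk k) n h))
    continuous_const

/-- **Red has an optimal mixed strategy, which guarantees the maximin value.** -/
theorem exists_red_optimal : ∃ σ : ProbabilityMeasure Strategy, ∀ h, redCost σ h ≤ maximin := by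
  set ε : ℕ → ℝ := fun n => 1 / ((n : ℝ) + 1) with hε
  have hε0 : ∀ n, 0 < ε n := fun n => by positivity
  have hanti : ∀ n, redSet (vR + ε (n + 1)) ⊆ redSet (vR + ε n) := by
    intro n σ hσ h
    refine (hσ h).trans (ENNReal.ofReal_le_ofReal ?_)
    have : ε (n + 1) ≤ ε n := by
      simp only [hε]
      apply one_div_le_one_div_of_le (by positivity)
      push_cast
      linarith
    linarith
  have hcl : ∀ n, IsClosed (redSet (vR + ε n)) := fun n =>
    isClosed_redSet (by have := vR_nonneg; have := hε0 n; linarith)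
  obtain ⟨σ, hσ⟩ := IsCompact.nonempty_iInter_of_sequence_nonempty_isCompact_isClosed
    (fun n => redSet (vR + ε n)) hanti (fun n => exists_near_optimal (hε0 n))
    (hcl 0).isCompact hcl
  refine ⟨σ, fun h => ?_⟩
  rw [mem_iInter] at hσ
  rw [← ofReal_vR]
  refine ENNReal.le_of_forall_pos_le_add fun η hη _ => ?_
  obtain ⟨n, hn⟩ := exists_nat_one_div_lt (show (0 : ℝ) < (η : ℝ) from hη)
  refine (hσ n h).trans ?_
  rw [← ENNReal.ofReal_coe_nnreal, ← ENNReal.ofReal_add vR_nonneg (NNReal.coe_nonneg η)]
  apply ENNReal.ofReal_le_ofReal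
  have : ε n < η := hn
  linarith

lemma expectedPayoff_swap (ν : ProbabilityMeasure (Icc (0 : ℝ) 1))
    (σ : ProbabilityMeasure Strategy) : expectedPayoff ν σ =
      ∫⁻ h, redCost σ h ∂(ν : Measure (Icc (0 : ℝ) 1)) := by
  unfold expectedPayoff redCost
  exact lintegral_prod _ measurable_payoff.aemeasurable

lemma expectedPayoff_le {σ : ProbabilityMeasure Strategy} {c : ℝ≥0∞} (hσ : ∀ h, redCost σ h ≤ c)
    (ν : ProbabilityMeasure (Icc (0 : ℝ) 1)) : expectedPayoff ν σ ≤ c := by
  rw [expectedPayoff_swap]
  calc ∫⁻ h, redCost σ h ∂(ν : Measure (Icc (0 : ℝ) 1))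
      ≤ ∫⁻ _, c ∂(ν : Measure (Icc (0 : ℝ) 1)) := lintegral_mono fun h => hσ h
    _ = c := by simp

/-- The payoff against a point mass. -/
lemma expectedPayoff_dirac (σ : ProbabilityMeasure Strategy) (h : Icc (0 : ℝ) 1) :
    expectedPayoff (diracProba h) σ = redCost σ h := by
  rw [expectedPayoff_swap]
  have e : ((diracProba h : ProbabilityMeasure (Icc (0 : ℝ) 1)) : Measure (Icc (0 : ℝ) 1)) =
    Measure.dirac h := rfl
  rw [e, lintegral_dirac']
  exact measurable_payoff.lintegral_prod_right'

/-- **Saddle point.** -/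
theorem saddle : ∃ (ν : ProbabilityMeasure (Icc (0 : ℝ) 1)) (σ : ProbabilityMeasure Strategy),
    (∀ ν', expectedPayoff ν' σ ≤ maximin) ∧ (∀ σ', maximin ≤ expectedPayoff ν σ') := by
  obtain ⟨ν, hν⟩ := exists_optimal
  obtain ⟨σ, hσ⟩ := exists_red_optimal
  exact ⟨ν, σ, fun ν' => expectedPayoff_le hσ ν', fun σ' => by rw [← hν]; exact iInf_le _ σ'⟩

/-! ### Equalisation -/

/-- A mixed strategy of Red is optimal iff it guarantees the value. -/
lemma equalise_ae {ν : ProbabilityMeasure (Icc (0 : ℝ) 1)} {σ : ProbabilityMeasure Strategy}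
    (hν : guaranteed ν = maximin) (hσ : ∀ h, redCost σ h ≤ maximin) :
    ∀ᵐ h ∂(ν : Measure (Icc (0 : ℝ) 1)), redCost σ h = maximin := by
  have hmeas : Measurable (fun h => redCost σ h) := measurable_payoff.lintegral_prod_right'
  have h1 : maximin ≤ ∫⁻ h, redCost σ h ∂(ν : Measure (Icc (0 : ℝ) 1)) := by
    rw [← expectedPayoff_swap, ← hν]
    exact iInf_le _ σ
  have h2 : ∫⁻ _, maximin ∂(ν : Measure (Icc (0 : ℝ) 1)) ≤
      ∫⁻ h, redCost σ h ∂(ν : Measure (Icc (0 : ℝ) 1)) := by simpa using h1
  exact ae_eq_of_ae_le_of_lintegral_le (Filter.Eventually.of_forall fun h => hσ h)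
    (ne_top_of_le_ne_top maximin_ne_top (by
      rw [← expectedPayoff_swap]; exact expectedPayoff_le hσ ν))
    aemeasurable_const h2

lemma continuous_int_payc (σ : ProbabilityMeasure Strategy) (s : ℝ) (n : ℕ) :
    Continuous (fun h : Icc (0 : ℝ) 1 => ∫ g, paycF s n h g ∂(σ : Measure Strategy)) := by
  have h1 := continuous_parametric_integral_of_continuous (μ := (σ : Measure Strategy))
    (f := fun (h : Icc (0 : ℝ) 1) (g : Strategy) => payc s n g h) (continuous_payc s n)
    (s := univ) isCompact_univ
  simpa only [Measure.restrict_univ, paycF_apply] using h1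

/-- The set of hidden numbers where the expected payoff exceeds `c` is open. -/
lemma isOpen_lt_redCost (σ : ProbabilityMeasure Strategy) {c : ℝ} (hc : 0 ≤ c) :
    IsOpen {h : Icc (0 : ℝ) 1 | ENNReal.ofReal c < redCost σ h} := by
  have e : {h : Icc (0 : ℝ) 1 | ENNReal.ofReal c < redCost σ h} = ⋃ n : ℕ, ⋃ k : ℕ,
      {h : Icc (0 : ℝ) 1 | c < ∫ g, paycF (sk k) n h g ∂(σ : Measure Strategy)} := by
    ext h
    simp only [Set.mem_ofPred_eq, mem_iUnion]
    rw [← not_le, redCost_le_iff σ h hc]
    push Not
    exact Iff.rfl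
  rw [e]
  exact isOpen_iUnion fun n => isOpen_iUnion fun k =>
    isOpen_lt continuous_const (continuous_int_payc σ (sk k) n)

/-- An optimal strategy of Red has expected payoff equal to the value on a dense `G_δ` set. -/
theorem equalise_dense {σ : ProbabilityMeasure Strategy} (hσ : ∀ h, redCost σ h ≤ maximin)
    (hpos : 0 < vR)
    (hfull : ∃ ν : ProbabilityMeasure (Icc (0 : ℝ) 1), guaranteed ν = maximin ∧
      ∀ U : Set (Icc (0 : ℝ) 1), IsOpen U → U.Nonempty → 0 < (ν : Measure (Icc (0 : ℝ) 1)) U) :
    IsGδ {h | redCost σ h = maximin} ∧ Dense {h | redCost σ h = maximin} := by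
  constructor
  · have e : {h | redCost σ h = maximin} = ⋂ n : ℕ,
        {h : Icc (0 : ℝ) 1 | ENNReal.ofReal (vR * (1 - 1 / ((n : ℝ) + 1))) < redCost σ h} := by
      ext h
      simp only [Set.mem_ofPred_eq, mem_iInter]
      constructor
      · intro hh n
        rw [hh, ← ofReal_vR]
        refine (ENNReal.ofReal_lt_ofReal_iff hpos).2 ?_
        have : 0 < 1 / ((n : ℝ) + 1) := by positivity
        nlinarith
      · intro H
        refine le_antisymm (hσ h) ?_
        rw [← ofReal_vR]
        have hfin : redCost σ h ≠ ∞ := ne_top_of_le_ne_top maximin_ne_top (hσ h)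
        rw [← ENNReal.ofReal_toReal hfin]
        apply ENNReal.ofReal_le_ofReal
        refine le_of_forall_pos_le_add fun η hη => ?_
        obtain ⟨n, hn⟩ := exists_nat_one_div_lt (show 0 < η / vR from div_pos hη hpos)
        have h1 := H n
        rw [← ENNReal.ofReal_toReal hfin] at h1
        have h2 := (ENNReal.ofReal_lt_ofReal_iff_of_nonneg (by
          have : 1 / ((n : ℝ) + 1) ≤ 1 := by
            rw [div_le_one (by positivity)]
            have := Nat.cast_nonneg (α := ℝ) n
            linarith
          exact mul_nonneg hpos.le (by linarith))).1 h1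
        rw [lt_div_iff₀ hpos] at hn
        have h3 : vR * (1 - 1 / ((n : ℝ) + 1)) = vR - 1 / ((n : ℝ) + 1) * vR := by ring
        rw [h3] at h2
        linarith
    rw [e]
    refine IsGδ.iInter_of_isOpen fun n => isOpen_lt_redCost σ ?_
    have : 1 / ((n : ℝ) + 1) ≤ 1 := by
      rw [div_le_one (by positivity)]
      have := Nat.cast_nonneg (α := ℝ) n
      linarith
    exact mul_nonneg hpos.le (by linarith)
  · obtain ⟨ν, hν, hU⟩ := hfull
    rw [dense_iff_inter_open]
    intro U hUo hUne
    by_contra hne
    rw [Set.not_nonempty_iff_eq_empty] at hne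
    have h1 := equalise_ae hν hσ
    have h2 := hU U hUo hUne
    have h3 : (ν : Measure (Icc (0 : ℝ) 1)) U ≤
        (ν : Measure (Icc (0 : ℝ) 1)) {h | ¬ redCost σ h = maximin} := by
      apply measure_mono
      intro h hh hcon
      have : h ∈ U ∩ {h | redCost σ h = maximin} := ⟨hh, hcon⟩
      rw [hne] at this
      exact this
    rw [ae_iff] at h1
    rw [h1] at h3
    exact absurd h2 (not_lt.2 h3)

end Pool.Agent.HighLow
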