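import Pool.Agent.HighLow_e5c6.Tree

/-!
# Dyadic scales and the entropy lower bound for search trees
-/

set_option autoImplicit false

namespace Pool.Agent.HighLow

/-- The dyadic scales `u k = 2 ^ (-k)`. -/
noncomputable def u (k : ℕ) : ℝ := (1 / 2 : ℝ) ^ k

lemma u_pos (k : ℕ) : 0 < u k := by unfold u; positivity

lemma u_succ (k : ℕ) : u (k + 1) = u k / 2 := by unfold u; rw [pow_succ]; ring

lemma u_le_half {k j : ℕ} (h : k < j) : u j ≤ u k / 2 := by
  obtain ⟨i, rfl⟩ := Nat.exists_eq_add_of_lt h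
  unfold u
  rw [pow_succ, pow_add]
  have h1 : (0 : ℝ) < (1 / 2 : ℝ) ^ k := by positivity
  have h2 : (1 / 2 : ℝ) ^ i ≤ 1 := pow_le_one₀ (by norm_num) (by norm_num)
  nlinarith

lemma u_anti {k j : ℕ} (h : k ≤ j) : u j ≤ u k := by
  rcases h.eq_or_lt with h | h
  · rw [h]
  · have := u_le_half h
    have := u_pos k
    linarith

lemma u_lt {k j : ℕ} (h : k < j) : u j < u k := by
  have := u_le_half h
  have := u_pos k
  linarith

lemma exists_u_lt {s : ℝ} (hs : 0 < s) : ∃ k, u k < s := by
  obtain ⟨n, hn⟩ := exists_pow_lt_of_lt_one hs (by norm_num : (1 / 2 : ℝ) < 1)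
  exact ⟨n, hn⟩

/-- The scales in `[k₀, j)` larger than `w` are exactly those in `[k₀, j')`. -/
lemma exists_split (w : ℝ) (k₀ j : ℕ) (hk : k₀ ≤ j) : ∃ j', k₀ ≤ j' ∧ j' ≤ j ∧
    (∀ k, k₀ ≤ k → k < j' → w < u k) ∧ (∀ k, j' ≤ k → k < j → u k ≤ w) := by
  induction j, hk using Nat.le_induction with
  | base => exact ⟨k₀, le_refl _, le_refl _, fun k h1 h2 => by omega, fun k h1 h2 => by omega⟩
  | succ j hj ih =>
    obtain ⟨j', h1, h2, h3, h4⟩ := ih
    rcases lt_or_ge w (u j) with h | h
    · refine ⟨j + 1, by omega, le_refl _, fun k hk1 hk2 => ?_, fun k h5 h6 => by omega⟩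
      exact lt_of_lt_of_le h (u_anti (by omega))
    · refine ⟨j', h1, by omega, h3, fun k h5 h6 => ?_⟩
      rcases Nat.lt_succ_iff_lt_or_eq.1 h6 with h7 | h7
      · exact h4 k h5 h7
      · rw [h7]; exact h

namespace STree

lemma cut_cost (x c : ℝ) (S : Finset ℕ) :
    (((S.card : ℝ)) - 1) / 8 ≤ ∑ k ∈ S, |c - (x - u k)| / u k := by
  classical
  set S1 := S.filter (fun k => |c - (x - u k)| < u k / 8) with hS1
  set S2 := S.filter (fun k => ¬ |c - (x - u k)| < u k / 8) with hS2
  have hcard : S1.card ≤ 1 := by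
    rw [Finset.card_le_one]
    have key : ∀ a ∈ S1, ∀ b ∈ S1, a < b → False := by
      intro a ha b hb hab
      rw [hS1, Finset.mem_filter] at ha hb
      have h1 := abs_lt.1 ha.2
      have h2 := abs_lt.1 hb.2
      have h3 := u_le_half hab
      have h4 := u_pos a
      have h5 := u_pos b
      linarith [h1.1, h1.2, h2.1, h2.2]
    intro a ha b hb
    rcases lt_trichotomy a b with h | h | h
    · exact (key a ha b hb h).elim
    · exact h
    · exact (key b hb a ha h).elim
  have hsum : (S2.card : ℝ) * (1 / 8) ≤ ∑ k ∈ S2, |c - (x - u k)| / u k := by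
    rw [← nsmul_eq_mul]
    refine Finset.card_nsmul_le_sum _ _ _ fun k hk => ?_
    rw [hS2, Finset.mem_filter] at hk
    rw [le_div_iff₀ (u_pos k)]
    linarith [not_lt.1 hk.2]
  have hle : ∑ k ∈ S2, |c - (x - u k)| / u k ≤ ∑ k ∈ S, |c - (x - u k)| / u k :=
    Finset.sum_le_sum_of_subset_of_nonneg (Finset.filter_subset _ _)
      (fun k _ _ => div_nonneg (abs_nonneg _) (u_pos k).le)
  have hc : (S.card : ℝ) = S1.card + S2.card := by
    have := Finset.card_filter_add_card_filter_not (s := S) (fun k => |c - (x - u k)| < u k / 8)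
    rw [← this]; push_cast; rfl
  have h1 : (S1.card : ℝ) ≤ 1 := by exact_mod_cast hcard
  linarith

/-- Searching among `n` dyadic points costs at least `t n - O(2 ^ t)` in units of the scales. -/
lemma entropy_bound {δ : ℝ} (x : ℝ) (T : STree) : ∀ (a b : ℝ) (S : Finset ℕ) (t : ℕ),
    Fine δ T a b → (∀ k ∈ S, a ≤ x - u k ∧ x - u k ≤ b) → (∀ k ∈ S, δ < u k / 2) →
    ((t : ℝ) * S.card - 2 ^ (t + 1) + 1) / 8 ≤ ∑ k ∈ S, cost T a b (x - u k) / u k := by
  classical
  induction T with
  | leaf =>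
    intro a b S t hF hS hδ
    have hcard : S.card ≤ 1 := by
      rw [Finset.card_le_one]
      have key : ∀ i ∈ S, ∀ j ∈ S, i < j → False := by
        intro i hi j hj hij
        have h1 := hS i hi
        have h2 := hS j hj
        have h3 := u_le_half hij
        have h4 := hδ i hi
        have h5 : b - a ≤ δ := hF
        linarith [h1.1, h1.2, h2.1, h2.2]
      intro i hi j hj
      rcases lt_trichotomy i j with h | h | h
      · exact (key i hi j hj h).elim
      · exact h
      · exact (key j hj i hi h).elim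
    have h0 : 0 ≤ ∑ k ∈ S, cost leaf a b (x - u k) / u k :=
      Finset.sum_nonneg fun k hk => div_nonneg (cost_nonneg _ (hS k hk).1 (hS k hk).2) (u_pos k).le
    refine le_trans ?_ h0
    have h1 : (S.card : ℝ) ≤ 1 := by exact_mod_cast hcard
    have h2 : (t : ℝ) + 1 ≤ 2 ^ (t + 1) := by
      have : t + 1 ≤ 2 ^ (t + 1) := (Nat.lt_two_pow_self).le
      exact_mod_cast this
    have h3 : (t : ℝ) * S.card ≤ t := by
      have : (0 : ℝ) ≤ t := Nat.cast_nonneg t
      nlinarith
    linarith
  | node c l r ihl ihr =>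
    intro a b S t hF hS hδ
    obtain ⟨hac, hcb, hFl, hFr⟩ := hF
    set S1 := S.filter (fun k => x - u k < c) with hS1
    set S2 := S.filter (fun k => ¬ x - u k < c) with hS2
    have hm1 : ∀ k ∈ S1, k ∈ S ∧ x - u k < c := fun k hk => by
      rw [hS1, Finset.mem_filter] at hk; exact hk
    have hm2 : ∀ k ∈ S2, k ∈ S ∧ c ≤ x - u k := fun k hk => by
      rw [hS2, Finset.mem_filter] at hk; exact ⟨hk.1, not_lt.1 hk.2⟩
    have hsplit : ∑ k ∈ S, cost (node c l r) a b (x - u k) / u k =
        ∑ k ∈ S, |c - (x - u k)| / u k + (∑ k ∈ S1, cost l a c (x - u k) / u k +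
          ∑ k ∈ S2, cost r c b (x - u k) / u k) := by
      have e1 : ∑ k ∈ S1, cost l a c (x - u k) / u k + ∑ k ∈ S2, cost r c b (x - u k) / u k =
          ∑ k ∈ S, (if x - u k < c then cost l a c (x - u k) / u k
            else cost r c b (x - u k) / u k) := by
        rw [Finset.sum_ite]
      rw [e1, ← Finset.sum_add_distrib]
      refine Finset.sum_congr rfl fun k hk => ?_
      rw [cost_node, min_eq_right hcb.le, max_eq_right hac.le]
      split_ifs <;> rw [add_div]
    have hl := ihl a c S1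
    have hr := ihr c b S2
    have hSl : ∀ k ∈ S1, a ≤ x - u k ∧ x - u k ≤ c := fun k hk =>
      ⟨(hS k (hm1 k hk).1).1, (hm1 k hk).2.le⟩
    have hSr : ∀ k ∈ S2, c ≤ x - u k ∧ x - u k ≤ b := fun k hk =>
      ⟨(hm2 k hk).2, (hS k (hm2 k hk).1).2⟩
    have hδl : ∀ k ∈ S1, δ < u k / 2 := fun k hk => hδ k (hm1 k hk).1
    have hδr : ∀ k ∈ S2, δ < u k / 2 := fun k hk => hδ k (hm2 k hk).1
    have hcut0 : 0 ≤ ∑ k ∈ S, |c - (x - u k)| / u k :=
      Finset.sum_nonneg fun k _ => div_nonneg (abs_nonneg _) (u_pos k).le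
    have hl0 : 0 ≤ ∑ k ∈ S1, cost l a c (x - u k) / u k :=
      Finset.sum_nonneg fun k hk => div_nonneg (cost_nonneg _ (hSl k hk).1 (hSl k hk).2) (u_pos k).le
    have hr0 : 0 ≤ ∑ k ∈ S2, cost r c b (x - u k) / u k :=
      Finset.sum_nonneg fun k hk => div_nonneg (cost_nonneg _ (hSr k hk).1 (hSr k hk).2) (u_pos k).le
    have hcard : (S.card : ℝ) = S1.card + S2.card := by
      have := Finset.card_filter_add_card_filter_not (s := S) (fun k => x - u k < c)
      rw [← this]; push_cast; rfl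
    rw [hsplit]
    rcases Finset.eq_empty_or_nonempty S1 with he | hne1
    · have h1 := hr t hFr hSr hδr
      rw [he, Finset.card_empty, Nat.cast_zero, zero_add] at hcard
      rw [hcard]
      linarith
    rcases Finset.eq_empty_or_nonempty S2 with he | hne2
    · have h1 := hl t hFl hSl hδl
      rw [he, Finset.card_empty, Nat.cast_zero, add_zero] at hcard
      rw [hcard]
      linarith
    rcases t with _ | t
    · simp only [Nat.cast_zero, zero_mul]
      linarith
    · have h1 := hl t hFl hSl hδl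
      have h2 := hr t hFr hSr hδr
      have h3 := cut_cost x c S
      have h4 : (2 : ℝ) ^ (t + 1 + 1) = 2 * 2 ^ (t + 1) := by ring
      rw [h4]
      push_cast
      rw [hcard] at h3 ⊢
      nlinarith

end STree

end Pool.Agent.HighLow
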