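import Pool.Agent.HighLow_e5c6.FiniteLimit

/-!
# Selecting one optimal hider strategy: the largest mean difference

The mean difference `E |X - Y|` of two independent random numbers with law `ν` is a strictly
concave and weakly continuous function of `ν`. So exactly one optimal hider strategy has the
largest mean difference, and it is the weak limit of the solutions of explicit finite problems.
-/

set_option autoImplicit false

namespace Pool.Agent.HighLow

open MeasureTheory Set STree Filter Topology BTree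
open scoped ENNReal BoundedContinuousFunction

/-- The mean difference `E |X - Y|`, where `X` and `Y` are independent with law `ν`. -/
noncomputable def meanDiff (ν : Measure (Icc (0 : ℝ) 1)) : ℝ :=
  ∫ p : Icc (0 : ℝ) 1 × Icc (0 : ℝ) 1, |(p.1 : ℝ) - p.2| ∂(ν.prod ν)

/-- The distribution function. -/
noncomputable def dF (ν : Measure (Icc (0 : ℝ) 1)) (t : Icc (0 : ℝ) 1) : ℝ := ν.real (Iic t)

/-- The mean difference is weakly continuous. -/
lemma continuous_meanDiff : Continuous (fun ν : ProbabilityMeasure (Icc (0 : ℝ) 1) =>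
    meanDiff (ν : Measure (Icc (0 : ℝ) 1))) := by
  set f : (Icc (0 : ℝ) 1 × Icc (0 : ℝ) 1) →ᵇ ℝ := BoundedContinuousFunction.mkOfCompact
    ⟨fun p => |(p.1 : ℝ) - p.2|, by fun_prop⟩ with hf
  exact (ProbabilityMeasure.continuous_integral_boundedContinuousFunction f).comp
    (ProbabilityMeasure.continuous_prod.comp (continuous_id.prodMk continuous_id))

lemma vol_Ico (x y : Icc (0 : ℝ) 1) :
    (volume : Measure (Icc (0 : ℝ) 1)).real (Ico x y) = max ((y : ℝ) - x) 0 := by
  have h := unitInterval.volume_Ico x y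
  unfold Measure.real
  rw [h, ENNReal.toReal_ofReal']

lemma abs_sub_eq (x y : Icc (0 : ℝ) 1) :
    |(x : ℝ) - y| = ∫ t : Icc (0 : ℝ) 1, ((Ico x y).indicator (1 : Icc (0 : ℝ) 1 → ℝ) t +
      (Ico y x).indicator (1 : Icc (0 : ℝ) 1 → ℝ) t) := by
  have hi : ∀ x y : Icc (0 : ℝ) 1, Integrable ((Ico x y).indicator (1 : Icc (0 : ℝ) 1 → ℝ))
      (volume : Measure (Icc (0 : ℝ) 1)) := fun x y =>
    (integrable_const (1 : ℝ)).indicator measurableSet_Ico
  rw [integral_add (hi x y) (hi y x),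
    integral_indicator_one measurableSet_Ico, integral_indicator_one measurableSet_Ico,
    vol_Ico, vol_Ico]
  rcases le_total (x : ℝ) y with h | h
  · rw [abs_of_nonpos (by linarith), max_eq_left (by linarith), max_eq_right (by linarith)]
    ring
  · rw [abs_of_nonneg (by linarith), max_eq_right (by linarith), max_eq_left (by linarith)]
    ring

lemma integrable_of_bdd {X : Type*} [MeasurableSpace X] (μ : Measure X) [IsFiniteMeasure μ]
    {f : X → ℝ} (hf : Measurable f) {C : ℝ} (hC : ∀ x, |f x| ≤ C) : Integrable f μ :=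
  (integrable_const C).mono' hf.aestronglyMeasurable
    (Filter.Eventually.of_forall fun x => by rw [Real.norm_eq_abs]; exact hC x)

lemma measurable_dF (ν : Measure (Icc (0 : ℝ) 1)) [IsFiniteMeasure ν] : Measurable (dF ν) := by
  apply Monotone.measurable
  intro s t hst
  exact measureReal_mono (Iic_subset_Iic.2 hst)

lemma dF_nonneg (ν : Measure (Icc (0 : ℝ) 1)) (t : Icc (0 : ℝ) 1) : 0 ≤ dF ν t :=
  measureReal_nonneg

lemma dF_le_one (ν : Measure (Icc (0 : ℝ) 1)) [IsProbabilityMeasure ν] (t : Icc (0 : ℝ) 1) :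
    dF ν t ≤ 1 := measureReal_le_one

/-- `E |X - Y| = 2 ∫ F (1 - F)`. -/
lemma meanDiff_eq (ν : Measure (Icc (0 : ℝ) 1)) [IsProbabilityMeasure ν] :
    meanDiff ν = 2 * ∫ t : Icc (0 : ℝ) 1, dF ν t * (1 - dF ν t) := by
  set S : Set ((Icc (0 : ℝ) 1 × Icc (0 : ℝ) 1) × Icc (0 : ℝ) 1) :=
    {q | q.1.1 ≤ q.2 ∧ q.2 < q.1.2} with hS
  set S' : Set ((Icc (0 : ℝ) 1 × Icc (0 : ℝ) 1) × Icc (0 : ℝ) 1) :=
    {q | q.1.2 ≤ q.2 ∧ q.2 < q.1.1} with hS'
  have m1 : Measurable (fun q : (Icc (0 : ℝ) 1 × Icc (0 : ℝ) 1) × Icc (0 : ℝ) 1 => q.1.1) :=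
    measurable_fst.comp measurable_fst
  have m2 : Measurable (fun q : (Icc (0 : ℝ) 1 × Icc (0 : ℝ) 1) × Icc (0 : ℝ) 1 => q.1.2) :=
    measurable_snd.comp measurable_fst
  have m3 : Measurable (fun q : (Icc (0 : ℝ) 1 × Icc (0 : ℝ) 1) × Icc (0 : ℝ) 1 => q.2) :=
    measurable_snd
  have a1 := measurableSet_le m1 m3
  have a2 := measurableSet_lt m3 m2
  have a3 := measurableSet_le m2 m3
  have a4 := measurableSet_lt m3 m1
  have hSm : MeasurableSet S := a1.inter a2
  have hSm' : MeasurableSet S' := a3.inter a4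
  have hgm : Measurable (fun q : (Icc (0 : ℝ) 1 × Icc (0 : ℝ) 1) × Icc (0 : ℝ) 1 =>
      S.indicator (fun _ => (1 : ℝ)) q + S'.indicator (fun _ => (1 : ℝ)) q) :=
    (measurable_const.indicator hSm).add (measurable_const.indicator hSm')
  have hgi : Integrable (fun q : (Icc (0 : ℝ) 1 × Icc (0 : ℝ) 1) × Icc (0 : ℝ) 1 =>
      S.indicator (fun _ => (1 : ℝ)) q + S'.indicator (fun _ => (1 : ℝ)) q)
      ((ν.prod ν).prod (volume : Measure (Icc (0 : ℝ) 1))) := by
    refine integrable_of_bdd _ hgm (C := 2) fun q => ?_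
    by_cases h1 : q ∈ S <;> by_cases h2 : q ∈ S' <;> norm_num [h1, h2]
  have e1 : meanDiff ν = ∫ p : Icc (0 : ℝ) 1 × Icc (0 : ℝ) 1, ∫ t : Icc (0 : ℝ) 1,
      (S.indicator (fun _ => (1 : ℝ)) (p, t) + S'.indicator (fun _ => (1 : ℝ)) (p, t)) ∂(volume)
        ∂(ν.prod ν) := by
    unfold meanDiff
    refine integral_congr_ae (Filter.Eventually.of_forall fun p => ?_)
    beta_reduce
    rw [abs_sub_eq p.1 p.2]
    refine integral_congr_ae (Filter.Eventually.of_forall fun t => ?_)
    simp only [indicator, hS, hS', mem_ofPred_eq, mem_Ico, Pi.one_apply]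
  rw [e1, integral_integral_swap hgi, ← integral_const_mul]
  refine integral_congr_ae (Filter.Eventually.of_forall fun t => ?_)
  show ∫ p : Icc (0 : ℝ) 1 × Icc (0 : ℝ) 1,
      (S.indicator (fun _ => (1 : ℝ)) (p, t) + S'.indicator (fun _ => (1 : ℝ)) (p, t)) ∂(ν.prod ν) =
    2 * (dF ν t * (1 - dF ν t))
  have e2 : ∀ p : Icc (0 : ℝ) 1 × Icc (0 : ℝ) 1,
      S.indicator (fun _ => (1 : ℝ)) (p, t) + S'.indicator (fun _ => (1 : ℝ)) (p, t) =
      (Iic t ×ˢ Ioi t).indicator (1 : Icc (0 : ℝ) 1 × Icc (0 : ℝ) 1 → ℝ) p +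
        (Ioi t ×ˢ Iic t).indicator (1 : Icc (0 : ℝ) 1 × Icc (0 : ℝ) 1 → ℝ) p := by
    intro p
    simp only [indicator, hS, hS', mem_ofPred_eq, mem_prod, mem_Iic, mem_Ioi, Pi.one_apply,
      and_comm]
  have hm1 : MeasurableSet ((Iic t : Set (Icc (0 : ℝ) 1)) ×ˢ (Ioi t : Set (Icc (0 : ℝ) 1))) :=
    measurableSet_Iic.prod measurableSet_Ioi
  have hm2 : MeasurableSet ((Ioi t : Set (Icc (0 : ℝ) 1)) ×ˢ (Iic t : Set (Icc (0 : ℝ) 1))) :=
    measurableSet_Ioi.prod measurableSet_Iic
  simp only [e2]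
  have hi : ∀ A : Set (Icc (0 : ℝ) 1 × Icc (0 : ℝ) 1), MeasurableSet A →
      Integrable (A.indicator (1 : Icc (0 : ℝ) 1 × Icc (0 : ℝ) 1 → ℝ)) (ν.prod ν) := fun A hA =>
    (integrable_const (1 : ℝ)).indicator hA
  rw [integral_add (hi _ hm1) (hi _ hm2), integral_indicator_one hm1,
    integral_indicator_one hm2]
  have h3 : ν.real (Ioi t) = 1 - dF ν t := by
    have := probReal_compl_eq_one_sub (μ := ν) (s := Iic t) measurableSet_Iic
    rwa [compl_Iic] at this
  rw [measureReal_prod_prod, measureReal_prod_prod, h3]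
  unfold dF
  ring

/-! ### Strict concavity -/

lemma dF_mix {μ ν ρ : Measure (Icc (0 : ℝ) 1)} [IsProbabilityMeasure μ] [IsProbabilityMeasure ν]
    (hρ : ρ = ENNReal.ofReal (1 - 1 / 2) • μ + ENNReal.ofReal (1 / 2) • ν)
    (t : Icc (0 : ℝ) 1) : dF ρ t = (dF μ t + dF ν t) / 2 := by
  unfold dF Measure.real
  rw [hρ, Measure.add_apply, Measure.smul_apply, Measure.smul_apply, smul_eq_mul, smul_eq_mul,
    ENNReal.toReal_add (ENNReal.mul_ne_top ENNReal.ofReal_ne_top (measure_ne_top _ _))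
      (ENNReal.mul_ne_top ENNReal.ofReal_ne_top (measure_ne_top _ _)), ENNReal.toReal_mul,
    ENNReal.toReal_mul, ENNReal.toReal_ofReal (by norm_num), ENNReal.toReal_ofReal (by norm_num)]
  ring

/-- The mean difference of the midpoint. -/
lemma meanDiff_mid {μ ν ρ : Measure (Icc (0 : ℝ) 1)} [IsProbabilityMeasure μ]
    [IsProbabilityMeasure ν] [IsProbabilityMeasure ρ]
    (hρ : ρ = ENNReal.ofReal (1 - 1 / 2) • μ + ENNReal.ofReal (1 / 2) • ν) :
    meanDiff ρ = (meanDiff μ + meanDiff ν) / 2 +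
      1 / 2 * ∫ t : Icc (0 : ℝ) 1, (dF μ t - dF ν t) ^ 2 := by
  have hμ := measurable_dF μ
  have hν := measurable_dF ν
  have bμ := dF_nonneg μ
  have bν := dF_nonneg ν
  have cμ := dF_le_one μ
  have cν := dF_le_one ν
  have i1 : Integrable (fun t => dF μ t * (1 - dF μ t)) (volume : Measure (Icc (0 : ℝ) 1)) :=
    integrable_of_bdd _ (hμ.mul (measurable_const.sub hμ)) (C := 1) fun t => by
      rw [abs_of_nonneg (mul_nonneg (bμ t) (by linarith [cμ t]))]
      nlinarith [bμ t, cμ t]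
  have i2 : Integrable (fun t => dF ν t * (1 - dF ν t)) (volume : Measure (Icc (0 : ℝ) 1)) :=
    integrable_of_bdd _ (hν.mul (measurable_const.sub hν)) (C := 1) fun t => by
      rw [abs_of_nonneg (mul_nonneg (bν t) (by linarith [cν t]))]
      nlinarith [bν t, cν t]
  have i3 : Integrable (fun t => (dF μ t - dF ν t) ^ 2) (volume : Measure (Icc (0 : ℝ) 1)) :=
    integrable_of_bdd _ ((hμ.sub hν).pow_const 2) (C := 1) fun t => by
      rw [abs_of_nonneg (sq_nonneg _)]
      nlinarith [bμ t, cμ t, bν t, cν t]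
  rw [meanDiff_eq ρ, meanDiff_eq μ, meanDiff_eq ν]
  have e : ∀ t, dF ρ t * (1 - dF ρ t) = 1 / 2 * (dF μ t * (1 - dF μ t)) +
      1 / 2 * (dF ν t * (1 - dF ν t)) + 1 / 4 * (dF μ t - dF ν t) ^ 2 := by
    intro t
    rw [dF_mix hρ t]
    ring
  simp only [e]
  have i12 : Integrable (fun t => 1 / 2 * (dF μ t * (1 - dF μ t)) +
      1 / 2 * (dF ν t * (1 - dF ν t))) (volume : Measure (Icc (0 : ℝ) 1)) :=
    (i1.const_mul _).add (i2.const_mul _)
  rw [integral_add i12 (i3.const_mul _), integral_add (i1.const_mul _) (i2.const_mul _),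
    integral_const_mul, integral_const_mul, integral_const_mul]
  ring

lemma openPos : (volume : Measure (Icc (0 : ℝ) 1)).IsOpenPosMeasure := by
  constructor
  intro U hU hne h0
  obtain ⟨x, hx⟩ := hne
  obtain ⟨ε, hε, hball⟩ := Metric.isOpen_iff.1 hU x hx
  -- a second point of `[0, 1]` close to `x`
  obtain ⟨y, hy0, hy1, hyx, hyε⟩ : ∃ y : ℝ, 0 ≤ y ∧ y ≤ 1 ∧ y ≠ x ∧ |y - x| < ε := by
    have hx0 := x.2.1
    have hx1 := x.2.2
    rcases lt_or_ge (x : ℝ) 1 with h | h
    · refine ⟨min 1 (x + ε / 2), le_min zero_le_one (by linarith), min_le_left _ _, ?_, ?_⟩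
      · exact ne_of_gt (lt_min h (by linarith))
      · rw [abs_lt]
        have h1 : (x : ℝ) < min 1 (x + ε / 2) := lt_min h (by linarith)
        have h2 : min 1 ((x : ℝ) + ε / 2) ≤ x + ε / 2 := min_le_right _ _
        constructor <;> linarith
    · refine ⟨max 0 (x - ε / 2), le_max_left _ _, max_le zero_le_one (by linarith), ?_, ?_⟩
      · exact ne_of_lt (max_lt (by linarith) (by linarith))
      · rw [abs_lt]
        have h1 : max 0 ((x : ℝ) - ε / 2) < x := max_lt (by linarith) (by linarith)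
        have h2 : (x : ℝ) - ε / 2 ≤ max 0 ((x : ℝ) - ε / 2) := le_max_right _ _
        constructor <;> linarith
  set z : Icc (0 : ℝ) 1 := ⟨y, hy0, hy1⟩ with hz
  have key : ∀ a b : Icc (0 : ℝ) 1, Ico a b ⊆ U → (b : ℝ) ≤ a := by
    intro a b hab
    have h1 : (volume : Measure (Icc (0 : ℝ) 1)).real (Ico a b) = 0 := by
      unfold Measure.real
      rw [measure_mono_null hab h0, ENNReal.toReal_zero]
    rw [vol_Ico] at h1
    have := le_max_left ((b : ℝ) - a) 0
    linarith
  rcases lt_or_gt_of_ne hyx with h | h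
  · have h1 := key z x fun t ht => hball (by
      have ht1 : y ≤ t := ht.1
      have ht2 : (t : ℝ) < x := ht.2
      rw [Metric.mem_ball, Subtype.dist_eq, Real.dist_eq, abs_lt]
      rw [abs_lt] at hyε
      constructor <;> linarith [hyε.1])
    exact absurd h1 (not_le.2 h)
  · have h1 := key x z fun t ht => hball (by
      have ht1 : (x : ℝ) ≤ t := ht.1
      have ht2 : (t : ℝ) < y := ht.2
      rw [Metric.mem_ball, Subtype.dist_eq, Real.dist_eq, abs_lt]
      rw [abs_lt] at hyε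
      constructor <;> linarith [hyε.2])
    exact absurd h1 (not_le.2 h)

lemma continuous_dF (ν : Measure (Icc (0 : ℝ) 1)) [IsProbabilityMeasure ν]
    (hna : ∀ h : Icc (0 : ℝ) 1, ν {h} = 0) : Continuous (dF ν) := by
  have e : dF ν = fun t => ∫ x, (Iic t).indicator (1 : Icc (0 : ℝ) 1 → ℝ) x ∂ν := by
    funext t
    rw [integral_indicator_one measurableSet_Iic]
    rfl
  rw [e, continuous_iff_continuousAt]
  intro t₀
  refine continuousAt_of_dominated (bound := fun _ => 1)
    (Filter.Eventually.of_forall fun t =>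
      ((measurable_one.indicator measurableSet_Iic).aestronglyMeasurable))
    (Filter.Eventually.of_forall fun t => Filter.Eventually.of_forall fun x => ?_)
    (integrable_const _) ?_
  · by_cases h : x ∈ Iic t <;> simp [h]
  · have h1 : ∀ᵐ x ∂ν, x ≠ t₀ := by
      rw [ae_iff]
      simpa using hna t₀
    filter_upwards [h1] with x hx
    rcases lt_or_gt_of_ne hx with h | h
    · refine (continuousAt_const (y := (1 : ℝ))).congr ?_
      filter_upwards [lt_mem_nhds h] with t ht
      simp [indicator, ht.le]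
    · refine (continuousAt_const (y := (0 : ℝ))).congr ?_
      filter_upwards [gt_mem_nhds h] with t ht
      simp [indicator, ht]

/-- Two nonatomic distributions with the same distribution function almost everywhere agree. -/
lemma eq_of_integral_sq {μ ν : Measure (Icc (0 : ℝ) 1)} [IsProbabilityMeasure μ]
    [IsProbabilityMeasure ν] (hμ : ∀ h : Icc (0 : ℝ) 1, μ {h} = 0)
    (hν : ∀ h : Icc (0 : ℝ) 1, ν {h} = 0)
    (h0 : ∫ t : Icc (0 : ℝ) 1, (dF μ t - dF ν t) ^ 2 ≤ 0) : μ = ν := by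
  have hc : Continuous fun t => (dF μ t - dF ν t) ^ 2 :=
    ((continuous_dF μ hμ).sub (continuous_dF ν hν)).pow 2
  have hi : Integrable (fun t => (dF μ t - dF ν t) ^ 2) (volume : Measure (Icc (0 : ℝ) 1)) :=
    integrable_of_bdd _ (((measurable_dF μ).sub (measurable_dF ν)).pow_const 2) (C := 1)
      fun t => by
        rw [abs_of_nonneg (sq_nonneg _)]
        nlinarith [dF_nonneg μ t, dF_le_one μ t, dF_nonneg ν t, dF_le_one ν t]
  have h1 : ∫ t : Icc (0 : ℝ) 1, (dF μ t - dF ν t) ^ 2 = 0 :=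
    le_antisymm h0 (integral_nonneg fun t => sq_nonneg _)
  have h2 := (integral_eq_zero_iff_of_nonneg (fun t => sq_nonneg (dF μ t - dF ν t)) hi).1 h1
  have := openPos
  have h3 := (Continuous.ae_eq_iff_eq (volume : Measure (Icc (0 : ℝ) 1)) hc
    continuous_const).1 h2
  refine Measure.ext_of_Iic μ ν fun t => ?_
  have h4 : (dF μ t - dF ν t) ^ 2 = 0 := congrFun h3 t
  have h5 : dF μ t = dF ν t := by
    have := pow_eq_zero_iff (two_ne_zero) |>.1 h4
    linarith
  unfold dF Measure.real at h5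
  exact (ENNReal.toReal_eq_toReal_iff' (measure_ne_top _ _) (measure_ne_top _ _)).1 h5

lemma isProb_mid (μ ν : Measure (Icc (0 : ℝ) 1)) [IsProbabilityMeasure μ]
    [IsProbabilityMeasure ν] : IsProbabilityMeasure
      (ENNReal.ofReal (1 - 1 / 2) • μ + ENNReal.ofReal (1 / 2) • ν) := by
  constructor
  rw [Measure.add_apply, Measure.smul_apply, Measure.smul_apply, measure_univ, measure_univ,
    smul_eq_mul, smul_eq_mul, mul_one, mul_one, ← ENNReal.ofReal_add (by norm_num) (by norm_num)]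
  norm_num

/-- Two nonatomic distributions agree if the midpoint does not have a larger mean difference. -/
lemma eq_of_mid_le {μ ν : Measure (Icc (0 : ℝ) 1)} [IsProbabilityMeasure μ]
    [IsProbabilityMeasure ν] (hμ : ∀ h : Icc (0 : ℝ) 1, μ {h} = 0)
    (hν : ∀ h : Icc (0 : ℝ) 1, ν {h} = 0)
    (h : meanDiff (ENNReal.ofReal (1 - 1 / 2) • μ + ENNReal.ofReal (1 / 2) • ν) ≤
      (meanDiff μ + meanDiff ν) / 2) : μ = ν := by
  have := isProb_mid μ ν
  rw [meanDiff_mid rfl] at h
  exact eq_of_integral_sq hμ hν (by linarith)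

/-- Reflection does not change the mean difference. -/
lemma meanDiff_symm (ν : Measure (Icc (0 : ℝ) 1)) [IsProbabilityMeasure ν] :
    meanDiff (ν.map unitInterval.symm) = meanDiff ν := by
  have hm := measurable_symm
  unfold meanDiff
  have hp : (ν.map unitInterval.symm).prod (ν.map unitInterval.symm) =
      (ν.prod ν).map (Prod.map unitInterval.symm unitInterval.symm) :=
    Measure.map_prod_map ν ν hm hm
  have hc : Continuous fun p : Icc (0 : ℝ) 1 × Icc (0 : ℝ) 1 => |(p.1 : ℝ) - p.2| := by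
    fun_prop
  rw [hp, integral_map (hm.prodMap hm).aemeasurable hc.aestronglyMeasurable]
  refine integral_congr_ae (Filter.Eventually.of_forall fun p => ?_)
  show |(1 - (p.1 : ℝ)) - (1 - (p.2 : ℝ))| = |(p.1 : ℝ) - p.2|
  rw [abs_sub_comm]
  congr 1
  ring

/-! ### The optimal strategy with the largest mean difference -/

/-- An optimal strategy with the largest mean difference exists. -/
lemma exists_max : ∃ ν : ProbabilityMeasure (Icc (0 : ℝ) 1), guaranteed ν = maximin ∧
    ∀ ν' : ProbabilityMeasure (Icc (0 : ℝ) 1), guaranteed ν' = maximin →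
      meanDiff (ν' : Measure (Icc (0 : ℝ) 1)) ≤ meanDiff (ν : Measure (Icc (0 : ℝ) 1)) := by
  obtain ⟨ν₀, h0⟩ := exists_optimal
  obtain ⟨ν, hν, hmax⟩ := isCompact_optimal.exists_isMaxOn ⟨ν₀, h0⟩
    continuous_meanDiff.continuousOn
  exact ⟨ν, hν, fun ν' hν' => hmax hν'⟩

/-- It is unique. -/
lemma max_unique {μ ν : ProbabilityMeasure (Icc (0 : ℝ) 1)} (hμ : guaranteed μ = maximin)
    (hν : guaranteed ν = maximin)
    (hmax : ∀ ν' : ProbabilityMeasure (Icc (0 : ℝ) 1), guaranteed ν' = maximin →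
      meanDiff (ν' : Measure (Icc (0 : ℝ) 1)) ≤ meanDiff (ν : Measure (Icc (0 : ℝ) 1)))
    (hle : meanDiff (ν : Measure (Icc (0 : ℝ) 1)) ≤ meanDiff (μ : Measure (Icc (0 : ℝ) 1))) :
    μ = ν := by
  have hp := isProb_mid (μ : Measure (Icc (0 : ℝ) 1)) (ν : Measure (Icc (0 : ℝ) 1))
  have h1 : guaranteed ⟨_, hp⟩ = maximin :=
    optimal_mix hμ hν (by norm_num) (by norm_num) rfl
  have h2 := hmax _ h1
  have h3 : (μ : Measure (Icc (0 : ℝ) 1)) = (ν : Measure (Icc (0 : ℝ) 1)) := by
    refine eq_of_mid_le (optimal_nonatomic hμ) (optimal_nonatomic hν) (le_trans h2 ?_)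
    linarith
  exact Subtype.ext h3

/-- The strategy with the largest mean difference. -/
theorem exists_unique_max : ∃ ν : ProbabilityMeasure (Icc (0 : ℝ) 1), guaranteed ν = maximin ∧
    (∀ ν' : ProbabilityMeasure (Icc (0 : ℝ) 1), guaranteed ν' = maximin → ν' ≠ ν →
      meanDiff (ν' : Measure (Icc (0 : ℝ) 1)) < meanDiff (ν : Measure (Icc (0 : ℝ) 1))) ∧
    (ν : Measure (Icc (0 : ℝ) 1)).map unitInterval.symm = (ν : Measure (Icc (0 : ℝ) 1)) := by
  obtain ⟨ν, hν, hmax⟩ := exists_max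
  refine ⟨ν, hν, fun ν' hν' hne => lt_of_not_ge fun h => hne (max_unique hν' hν hmax h), ?_⟩
  have hp : IsProbabilityMeasure ((ν : Measure (Icc (0 : ℝ) 1)).map unitInterval.symm) :=
    Measure.isProbabilityMeasure_map measurable_symm.aemeasurable
  have hflip : guaranteed ⟨_, hp⟩ = maximin := optimal_flip hν rfl
  have h1 := max_unique hflip hν hmax (by
    show meanDiff (ν : Measure (Icc (0 : ℝ) 1)) ≤
      meanDiff ((ν : Measure (Icc (0 : ℝ) 1)).map unitInterval.symm)
    rw [meanDiff_symm])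
  exact congrArg (fun μ : ProbabilityMeasure (Icc (0 : ℝ) 1) => (μ : Measure (Icc (0 : ℝ) 1))) h1

end Pool.Agent.HighLow
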