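import Pool.Agent.HighLow_e5c6.Select

/-!
# Explicit finite problems whose solutions converge to one optimal hider strategy
-/

set_option autoImplicit false

namespace Pool.Agent.HighLow

open MeasureTheory Set STree Filter Topology BTree
open scoped ENNReal BoundedContinuousFunction

namespace BTree

/-- The weights which guarantee Blue at least `fval N - 3 / √N` in the finite game. -/
def Near (N : ℕ) : Set (Fin N → ℝ) :=
  {m | m ∈ stdSimplex ℝ (Fin N) ∧ ∀ T : BTree, WF T 0 N → fval N - 3 / √N ≤ fcost N T m}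

/-- The quadratic form `(∑_{i ≠ j} m_i m_j |i - j| + (1/3) ∑ m_i²) / N`. -/
noncomputable def quad (N : ℕ) (m : Fin N → ℝ) : ℝ :=
  (∑ i : Fin N, ∑ j : Fin N, m i * m j * if i = j then 1 / 3 else |(i : ℝ) - j|) / N

/-- The weights `m` solve the quadratic programme: they maximise `quad N` on `Near N`. -/
def Selected (N : ℕ) (m : Fin N → ℝ) : Prop :=
  m ∈ Near N ∧ ∀ m' ∈ Near N, quad N m' ≤ quad N m

end BTree

/-- What the smears of nearly optimal weights guarantee. -/
theorem smear_near {N : ℕ} (hN : 0 < N) {m : Fin N → ℝ} {e : ℝ}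
    (hm : m ∈ stdSimplex ℝ (Fin N)) (hv : ∀ T : BTree, WF T 0 N → fval N - e ≤ fcost N T m)
    (ν : ProbabilityMeasure (Icc (0 : ℝ) 1)) (hν : (ν : Measure (Icc (0 : ℝ) 1)) = smear N m) :
    maximin ≤ guaranteed ν + ENNReal.ofReal (e + 3 / √N) := by
  have hN' : (0 : ℝ) < N := by exact_mod_cast hN
  have hs := Real.sqrt_pos.2 hN'
  have h1 := guaranteed_smear_ge hN hm hv ν hν
  have h2 := vR_le_fval hN
  have h4 := inv_le_inv_sqrt hN
  have h5 : 3 / √(N : ℝ) = 1 / √N + 1 / √N + 1 / √N := by rw [← add_div, ← add_div]; norm_num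
  calc maximin = ENNReal.ofReal vR := ofReal_vR.symm
    _ ≤ ENNReal.ofReal ((fval N - e - 1 / √N - 1 / N) + (e + 3 / √N)) :=
        ENNReal.ofReal_le_ofReal (by linarith)
    _ ≤ ENNReal.ofReal (fval N - e - 1 / √N - 1 / N) + ENNReal.ofReal (e + 3 / √N) :=
        ENNReal.ofReal_add_le
    _ ≤ _ := add_le_add h1 le_rfl

/-- Weak limits of nearly optimal strategies are optimal. -/
theorem limit_optimal' {νs : ℕ → ProbabilityMeasure (Icc (0 : ℝ) 1)}
    {ν : ProbabilityMeasure (Icc (0 : ℝ) 1)} {ε : ℕ → ℝ} (hε0 : ∀ n, 0 ≤ ε n)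
    (hε : Tendsto ε atTop (𝓝 0))
    (hnear : ∀ n, maximin ≤ guaranteed (νs n) + ENNReal.ofReal (ε n))
    (hlim : Tendsto νs atTop (𝓝 ν)) : guaranteed ν = maximin := by
  rw [optimal_iff]
  intro T f hf
  have h1 : ∀ n : ℕ, vR - ε n ≤ ∫ h, f h ∂(νs n : Measure (Icc (0 : ℝ) 1)) := by
    intro n
    obtain ⟨g, hg⟩ := exists_strategy T 0 1 le_rfl le_rfl
    have h3 : guaranteed (νs n) ≤
        ENNReal.ofReal (∫ h, f h ∂(νs n : Measure (Icc (0 : ℝ) 1))) := by
      rw [ofReal_integral_eq_lintegral_ofReal (f.integrable _)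
        (Filter.Eventually.of_forall fun h => (cost_nonneg T h.2.1 h.2.2).trans (hf h))]
      exact (guaranteed_le (νs n) g).trans (lintegral_mono fun h =>
        (hg h h.2.1 h.2.2).trans (ENNReal.ofReal_le_ofReal (hf h)))
    have h4 : 0 ≤ ∫ h, f h ∂(νs n : Measure (Icc (0 : ℝ) 1)) :=
      integral_nonneg fun h => (cost_nonneg T h.2.1 h.2.2).trans (hf h)
    have h5 : ENNReal.ofReal vR ≤ ENNReal.ofReal
        (∫ h, f h ∂(νs n : Measure (Icc (0 : ℝ) 1)) + ε n) := by
      rw [ofReal_vR, ENNReal.ofReal_add h4 (hε0 n)]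
      exact (hnear n).trans (add_le_add h3 le_rfl)
    have h6 := (ENNReal.ofReal_le_ofReal_iff (add_nonneg h4 (hε0 n))).1 h5
    linarith
  have hl1 : Tendsto (fun n => ∫ h, f h ∂(νs n : Measure (Icc (0 : ℝ) 1))) atTop
      (𝓝 (∫ h, f h ∂(ν : Measure (Icc (0 : ℝ) 1)))) :=
    ((ProbabilityMeasure.continuous_integral_boundedContinuousFunction f).tendsto ν).comp hlim
  have hl2 : Tendsto (fun n => vR - ε n) atTop (𝓝 (vR - 0)) := tendsto_const_nhds.sub hε
  rw [sub_zero] at hl2
  exact le_of_tendsto_of_tendsto' hl2 hl1 h1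

/-- The cell weights of an optimal strategy are in `Near N`. -/
lemma wts_near {N : ℕ} (hN : 0 < N) {ν : ProbabilityMeasure (Icc (0 : ℝ) 1)}
    (hν : guaranteed ν = maximin) : wts N ν ∈ Near N := by
  have hN' : (0 : ℝ) < N := by exact_mod_cast hN
  have hs : 0 < √(N : ℝ) := Real.sqrt_pos.2 hN'
  refine ⟨wts_mem hN ν, fun T hT => ?_⟩
  have h1 := guaranteed_le_fcost hN ν hT
  rw [hν, ← ofReal_vR] at h1
  have hC0 : 0 ≤ fcost N T (wts N ν) := by
    unfold fcost
    refine Finset.sum_nonneg fun i _ => mul_nonneg measureReal_nonneg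
      (dep_bounds hN T 0 N i hT (Nat.zero_le _) i.2).2.2.2
  have hf := fval_le hN
  have h5 : 3 / √(N : ℝ) = 2 / √N + 1 / √N := by rw [← add_div]; norm_num
  have h4 : 0 < 1 / √(N : ℝ) := by positivity
  set C := fcost N T (wts N ν) with hC
  have h2 : vR ≤ C + (C + 1) / (2 * √N) :=
    (ENNReal.ofReal_le_ofReal_iff (by positivity)).1 h1
  rcases le_or_gt C 1 with hC1 | hC1
  · have h3 : (C + 1) / (2 * √N) ≤ 1 / √N := by
      rw [div_le_div_iff₀ (by positivity) hs]
      nlinarith
    linarith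
  · have h3 := vR_le_one
    linarith

/-! ### The smears converge weakly -/

/-- The point of the cell of `h` with relative position `u`. -/
noncomputable def sPt (N : ℕ) (p : Icc (0 : ℝ) 1 × Icc (0 : ℝ) 1) : Icc (0 : ℝ) 1 :=
  projIcc 0 1 zero_le_one (((idx N p.1 : ℝ) + p.2) / N)

lemma measurable_sPt (N : ℕ) : Measurable (sPt N) := by
  unfold sPt
  have h1 : Measurable fun p : Icc (0 : ℝ) 1 × Icc (0 : ℝ) 1 => ((idx N p.1 : ℕ) : ℝ) :=
    (measurable_from_top (f := fun n : ℕ => (n : ℝ))).comp ((measurable_idx N).comp measurable_fst)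
  exact continuous_projIcc.measurable.comp
    ((h1.add (measurable_subtype_coe.comp measurable_snd)).div_const _)

lemma map_sPt {N : ℕ} (hN : 0 < N) (ν : ProbabilityMeasure (Icc (0 : ℝ) 1)) :
    ((ν : Measure (Icc (0 : ℝ) 1)).prod (volume : Measure (Icc (0 : ℝ) 1))).map (sPt N) =
      smear N (wts N ν) := by
  ext A hA
  rw [Measure.map_apply (measurable_sPt N) hA, Measure.prod_apply (measurable_sPt N hA)]
  set φ : ℕ → ℝ≥0∞ := fun i => (volume : Measure (Icc (0 : ℝ) 1))
    {u | projIcc 0 1 zero_le_one (((i : ℝ) + u) / N) ∈ A} with hφ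
  have e1 : ∀ h : Icc (0 : ℝ) 1, (volume : Measure (Icc (0 : ℝ) 1))
      (Prod.mk h ⁻¹' (sPt N ⁻¹' A)) = φ (idx N h) := fun h => rfl
  simp only [e1]
  rw [lintegral_idx hN (ν : Measure (Icc (0 : ℝ) 1)) φ]
  unfold smear
  rw [Measure.finsetSum_apply]
  refine Finset.sum_congr rfl fun i _ => ?_
  rw [Measure.smul_apply, Measure.map_apply (measurable_cellMap i) hA, smul_eq_mul, mul_comm]
  congr 1
  exact (ENNReal.ofReal_toReal (measure_ne_top _ _)).symm

lemma sPt_close {N : ℕ} (hN : 0 < N) (p : Icc (0 : ℝ) 1 × Icc (0 : ℝ) 1) :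
    |(sPt N p : ℝ) - p.1| ≤ 1 / N := by
  have hN' : (0 : ℝ) < N := by exact_mod_cast hN
  have e : (sPt N p : ℝ) = ((idx N p.1 : ℝ) + p.2) / N :=
    cellMap_coe (⟨idx N p.1, idx_lt hN p.1⟩ : Fin N) p.2
  obtain ⟨h1, h2⟩ := idx_bounds hN p.1
  have h3 : ((idx N p.1 : ℝ) + p.2) / N = (idx N p.1 : ℝ) / N + p.2 / N := by rw [add_div]
  have h4 : ((idx N p.1 : ℝ) + 1) / N = (idx N p.1 : ℝ) / N + 1 / N := by rw [add_div]
  have h5 : 0 ≤ (p.2 : ℝ) / N := div_nonneg p.2.2.1 hN'.le
  have h6 : (p.2 : ℝ) / N ≤ 1 / N := div_le_div_of_nonneg_right p.2.2.2 hN'.le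
  rw [e, h3, abs_le]
  rw [h4] at h2
  constructor <;> linarith

/-- The smears of the cell weights of `ν` converge weakly to `ν`. -/
lemma tendsto_smear_wts (ν : ProbabilityMeasure (Icc (0 : ℝ) 1))
    (νs : ℕ → ProbabilityMeasure (Icc (0 : ℝ) 1))
    (hνs : ∀ N, (νs N : Measure (Icc (0 : ℝ) 1)) = smear (N + 1) (wts (N + 1) ν)) :
    Tendsto νs atTop (𝓝 ν) := by
  rw [ProbabilityMeasure.tendsto_iff_forall_integral_tendsto]
  intro f
  have e1 : ∀ N : ℕ, ∫ h, f h ∂(νs N : Measure (Icc (0 : ℝ) 1)) =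
      ∫ p, f (sPt (N + 1) p) ∂((ν : Measure (Icc (0 : ℝ) 1)).prod
        (volume : Measure (Icc (0 : ℝ) 1))) := by
    intro N
    rw [hνs N, ← map_sPt (Nat.succ_pos N) ν,
      integral_map (measurable_sPt _).aemeasurable f.continuous.aestronglyMeasurable]
  have e2 : ∫ h, f h ∂(ν : Measure (Icc (0 : ℝ) 1)) =
      ∫ p, f p.1 ∂((ν : Measure (Icc (0 : ℝ) 1)).prod (volume : Measure (Icc (0 : ℝ) 1))) := by
    have h1 : ((ν : Measure (Icc (0 : ℝ) 1)).prod (volume : Measure (Icc (0 : ℝ) 1))).map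
        Prod.fst = (ν : Measure (Icc (0 : ℝ) 1)) := by
      rw [Measure.map_fst_prod, measure_univ, one_smul]
    conv_lhs => rw [← h1]
    rw [integral_map measurable_fst.aemeasurable f.continuous.aestronglyMeasurable]
  simp only [e1]
  rw [e2]
  refine tendsto_integral_of_dominated_convergence (fun _ => ‖f‖)
    (fun N => (f.continuous.measurable.comp (measurable_sPt _)).aestronglyMeasurable)
    (integrable_const _) (fun N => Filter.Eventually.of_forall fun p => f.norm_coe_le_norm _)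
    (Filter.Eventually.of_forall fun p => ?_)
  refine (f.continuous.tendsto p.1).comp ?_
  rw [tendsto_iff_dist_tendsto_zero]
  refine squeeze_zero (fun _ => dist_nonneg) (fun N => ?_)
    (tendsto_one_div_add_atTop_nhds_zero_nat (𝕜 := ℝ))
  rw [Subtype.dist_eq, Real.dist_eq]
  have := sPt_close (Nat.succ_pos N) p
  push_cast at this
  exact this

/-! ### The mean difference of a smear -/

lemma integral_smear {N : ℕ} {m : Fin N → ℝ} (hm : ∀ i, 0 ≤ m i) {g : Icc (0 : ℝ) 1 → ℝ}
    (hg : Continuous g) : ∫ h, g h ∂(smear N m) =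
      ∑ i : Fin N, m i * ∫ u : Icc (0 : ℝ) 1, g (cellMap N i u) := by
  set f : Icc (0 : ℝ) 1 →ᵇ ℝ := BoundedContinuousFunction.mkOfCompact ⟨g, hg⟩ with hf
  have hI : ∀ i : Fin N, Integrable (fun h : Icc (0 : ℝ) 1 => g h)
      ((volume : Measure (Icc (0 : ℝ) 1)).map (cellMap N i)) := fun i => by
    have : IsProbabilityMeasure ((volume : Measure (Icc (0 : ℝ) 1)).map (cellMap N i)) :=
      Measure.isProbabilityMeasure_map (measurable_cellMap i).aemeasurable
    exact f.integrable _
  unfold smear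
  rw [integral_finsetSum_measure (fun i _ => (hI i).smul_measure ENNReal.ofReal_ne_top)]
  refine Finset.sum_congr rfl fun i _ => ?_
  rw [integral_smul_measure, integral_map (measurable_cellMap i).aemeasurable
    hg.aestronglyMeasurable, ENNReal.toReal_ofReal (hm i), smul_eq_mul]

lemma integrable_coe : Integrable (fun u : Icc (0 : ℝ) 1 => (u : ℝ))
    (volume : Measure (Icc (0 : ℝ) 1)) :=
  integrable_of_bdd _ measurable_subtype_coe (C := 1) fun u => by
    rw [abs_of_nonneg u.2.1]
    exact u.2.2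

lemma meanDiff_volume : meanDiff (volume : Measure (Icc (0 : ℝ) 1)) = 1 / 3 := by
  rw [meanDiff_eq]
  have h1 : ∀ t : Icc (0 : ℝ) 1, dF (volume : Measure (Icc (0 : ℝ) 1)) t = t := by
    intro t
    unfold dF Measure.real
    rw [unitInterval.volume_Iic, ENNReal.toReal_ofReal t.2.1]
  simp only [h1]
  have h2 : ∫ t : Icc (0 : ℝ) 1, (t : ℝ) * (1 - t) = ∫ x in Icc (0 : ℝ) 1, x * (1 - x) :=
    integral_subtype_comap measurableSet_Icc (fun x : ℝ => x * (1 - x))
  rw [h2, integral_Icc_eq_integral_Ioc, ← intervalIntegral.integral_of_le zero_le_one]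
  have h3 : ∀ x : ℝ, x * (1 - x) = x - x ^ 2 := fun x => by ring
  simp only [h3]
  have a1 : IntervalIntegrable (fun x : ℝ => x) volume 0 1 :=
    continuous_id.intervalIntegrable _ _
  have a2 : IntervalIntegrable (fun x : ℝ => x ^ 2) volume 0 1 :=
    (continuous_pow 2).intervalIntegrable _ _
  rw [intervalIntegral.integral_sub a1 a2, integral_id, integral_pow]
  norm_num

lemma double_lt {N : ℕ} (hN : 0 < N) {i j : Fin N} (hij : j < i) :
    ∫ u : Icc (0 : ℝ) 1, ∫ v : Icc (0 : ℝ) 1, |((i : ℝ) + u) / N - ((j : ℝ) + v) / N| =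
      ((i : ℝ) - j) / N := by
  have hN' : (0 : ℝ) < N := by exact_mod_cast hN
  set c : ℝ := ∫ u : Icc (0 : ℝ) 1, (u : ℝ) with hc
  have hij' : (j : ℝ) + 1 ≤ i := by exact_mod_cast hij
  have e1 : ∀ u v : Icc (0 : ℝ) 1, |((i : ℝ) + u) / N - ((j : ℝ) + v) / N| =
      ((i : ℝ) - j) / N + (u : ℝ) / N - (v : ℝ) / N := by
    intro u v
    rw [abs_of_nonneg]
    · ring
    · rw [← sub_div]
      apply div_nonneg _ hN'.le
      linarith [u.2.1, v.2.2]
  simp only [e1]
  have i1 : Integrable (fun v : Icc (0 : ℝ) 1 => (v : ℝ) / N)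
      (volume : Measure (Icc (0 : ℝ) 1)) := integrable_coe.div_const _
  have i3 : ∫ v : Icc (0 : ℝ) 1, (v : ℝ) / N = c / N := by rw [integral_div]
  have e2 : ∀ u : Icc (0 : ℝ) 1, ∫ v : Icc (0 : ℝ) 1,
      (((i : ℝ) - j) / N + (u : ℝ) / N - (v : ℝ) / N) =
        ((i : ℝ) - j) / N + (u : ℝ) / N - c / N := by
    intro u
    rw [integral_sub (integrable_const _) i1, integral_const, i3]
    simp
  simp only [e2]
  have i2 : Integrable (fun u : Icc (0 : ℝ) 1 => ((i : ℝ) - j) / N + (u : ℝ) / N)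
      (volume : Measure (Icc (0 : ℝ) 1)) := (integrable_const _).add i1
  rw [integral_sub i2 (integrable_const _), integral_add (integrable_const _) i1, i3,
    integral_const, integral_const]
  simp

/-- The mean difference of the smear. -/
theorem meanDiff_smear {N : ℕ} {m : Fin N → ℝ} (hm : m ∈ stdSimplex ℝ (Fin N)) :
    meanDiff (smear N m) = quad N m := by
  have hp := smear_prob hm
  have hc : Continuous fun p : Icc (0 : ℝ) 1 × Icc (0 : ℝ) 1 => |(p.1 : ℝ) - p.2| := by
    fun_prop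
  set f : (Icc (0 : ℝ) 1 × Icc (0 : ℝ) 1) →ᵇ ℝ := BoundedContinuousFunction.mkOfCompact
    ⟨fun p => |(p.1 : ℝ) - p.2|, hc⟩ with hf
  have hint : Integrable (fun p : Icc (0 : ℝ) 1 × Icc (0 : ℝ) 1 => |(p.1 : ℝ) - p.2|)
      ((smear N m).prod (smear N m)) := f.integrable _
  unfold meanDiff
  rw [integral_prod _ hint]
  have e1 : ∀ x : Icc (0 : ℝ) 1, ∫ y : Icc (0 : ℝ) 1, |(x : ℝ) - y| ∂(smear N m) =
      ∑ j : Fin N, m j * ∫ v : Icc (0 : ℝ) 1, |(x : ℝ) - ((j : ℝ) + v) / N| := by
    intro x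
    rw [integral_smear hm.1 (by fun_prop : Continuous fun y : Icc (0 : ℝ) 1 => |(x : ℝ) - y|)]
    simp only [cellMap_coe]
  simp only [e1]
  have hcont : ∀ j : Fin N, Continuous fun x : Icc (0 : ℝ) 1 =>
      ∫ v : Icc (0 : ℝ) 1, |(x : ℝ) - ((j : ℝ) + v) / N| := by
    intro j
    refine continuous_of_dominated (bound := fun _ => |1| + |((j : ℝ) + 1) / N|)
      (fun x => by
        have : Continuous fun v : Icc (0 : ℝ) 1 => |(x : ℝ) - ((j : ℝ) + v) / N| := by fun_prop
        exact this.aestronglyMeasurable)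
      (fun x => Filter.Eventually.of_forall fun v => ?_) (integrable_const _)
      (Filter.Eventually.of_forall fun v => by fun_prop)
    rw [Real.norm_eq_abs, abs_abs]
    refine (abs_sub _ _).trans (add_le_add ?_ ?_)
    · rw [abs_of_nonneg x.2.1, abs_one]
      exact x.2.2
    · rcases Nat.eq_zero_or_pos N with h0 | h0
      · exact absurd j.2 (by omega)
      have hN' : (0 : ℝ) < N := by exact_mod_cast h0
      have hv := v.2.1
      have hv' := v.2.2
      rw [abs_of_nonneg (by positivity), abs_of_nonneg (by positivity)]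
      exact div_le_div_of_nonneg_right (by linarith) hN'.le
  rw [integral_smear (g := fun x : Icc (0 : ℝ) 1 =>
      ∑ j : Fin N, m j * ∫ v : Icc (0 : ℝ) 1, |(x : ℝ) - ((j : ℝ) + v) / N|) hm.1
    (continuous_finsetSum _ fun j _ => continuous_const.mul (hcont j))]
  unfold quad
  rw [Finset.sum_div]
  refine Finset.sum_congr rfl fun i _ => ?_
  have hN : 0 < N := Nat.zero_lt_of_lt i.2
  have hN' : (0 : ℝ) < N := by exact_mod_cast hN
  have hi : ∀ j : Fin N, Integrable (fun u : Icc (0 : ℝ) 1 =>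
      m j * ∫ v : Icc (0 : ℝ) 1, |(cellMap N i u : ℝ) - ((j : ℝ) + v) / N|)
      (volume : Measure (Icc (0 : ℝ) 1)) := by
    intro j
    set g : Icc (0 : ℝ) 1 →ᵇ ℝ := BoundedContinuousFunction.mkOfCompact ⟨_, hcont j⟩ with hg
    have h1 : IsProbabilityMeasure ((volume : Measure (Icc (0 : ℝ) 1)).map (cellMap N i)) :=
      Measure.isProbabilityMeasure_map (measurable_cellMap i).aemeasurable
    have h2 : Integrable (fun x => g x)
      ((volume : Measure (Icc (0 : ℝ) 1)).map (cellMap N i)) := g.integrable _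
    exact (h2.comp_measurable (measurable_cellMap i)).const_mul _
  rw [integral_finsetSum _ (fun j _ => hi j), Finset.mul_sum, Finset.sum_div]
  refine Finset.sum_congr rfl fun j _ => ?_
  rw [integral_const_mul]
  simp only [cellMap_coe]
  have key : ∫ u : Icc (0 : ℝ) 1, ∫ v : Icc (0 : ℝ) 1,
      |((i : ℝ) + u) / N - ((j : ℝ) + v) / N| =
        (if i = j then 1 / 3 else |(i : ℝ) - j|) / N := by
    rcases lt_trichotomy i j with h | h | h
    · rw [if_neg h.ne]
      have e2 : ∀ u v : Icc (0 : ℝ) 1, |((i : ℝ) + u) / N - ((j : ℝ) + v) / N| =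
          |((j : ℝ) + v) / N - ((i : ℝ) + u) / N| := fun u v => abs_sub_comm _ _
      simp only [e2]
      have hc2 : Continuous fun p : Icc (0 : ℝ) 1 × Icc (0 : ℝ) 1 =>
          |((j : ℝ) + p.2) / N - ((i : ℝ) + p.1) / N| := by fun_prop
      set f2 : (Icc (0 : ℝ) 1 × Icc (0 : ℝ) 1) →ᵇ ℝ := BoundedContinuousFunction.mkOfCompact
        ⟨_, hc2⟩ with hf2
      have h3 : Integrable (Function.uncurry fun u v : Icc (0 : ℝ) 1 =>
          |((j : ℝ) + v) / N - ((i : ℝ) + u) / N|)
          ((volume : Measure (Icc (0 : ℝ) 1)).prod (volume : Measure (Icc (0 : ℝ) 1))) :=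
        f2.integrable _
      rw [integral_integral_swap h3, double_lt hN h]
      have h4 : (i : ℝ) ≤ j := by exact_mod_cast h.le
      rw [abs_of_nonpos (by linarith)]
      ring
    · subst h
      rw [if_pos rfl]
      have e2 : ∀ u v : Icc (0 : ℝ) 1, |((i : ℝ) + u) / N - ((i : ℝ) + v) / N| =
          |(u : ℝ) - v| / N := by
        intro u v
        rw [← sub_div, abs_div, abs_of_pos hN']
        congr 2
        ring
      simp only [e2, integral_div]
      congr 1
      have hint2 : Integrable (fun p : Icc (0 : ℝ) 1 × Icc (0 : ℝ) 1 => |(p.1 : ℝ) - p.2|)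
          ((volume : Measure (Icc (0 : ℝ) 1)).prod (volume : Measure (Icc (0 : ℝ) 1))) :=
        f.integrable _
      rw [← meanDiff_volume]
      unfold meanDiff
      rw [integral_prod _ hint2]
    · rw [if_neg h.ne', double_lt hN h]
      have h4 : (j : ℝ) ≤ i := by exact_mod_cast h.le
      rw [abs_of_nonneg (by linarith)]
  rw [key]
  ring

/-! ### The selected weights -/

/-- The smear as a function of the weights. -/
noncomputable def smearP (N : ℕ) (m : stdSimplex ℝ (Fin N)) :
    ProbabilityMeasure (Icc (0 : ℝ) 1) := ⟨smear N m.1, smear_prob m.2⟩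

lemma continuous_smearP (N : ℕ) : Continuous (smearP N) := by
  rw [continuous_iff_continuousAt]
  intro m₀
  unfold ContinuousAt
  rw [ProbabilityMeasure.tendsto_iff_forall_integral_tendsto]
  intro f
  have e : ∀ m : stdSimplex ℝ (Fin N), ∫ h, f h ∂(smearP N m : Measure (Icc (0 : ℝ) 1)) =
      ∑ i : Fin N, m.1 i * ∫ u : Icc (0 : ℝ) 1, f (cellMap N i u) := by
    intro m
    show ∫ h, f h ∂(smear N m.1) = _
    have hI : ∀ i : Fin N, Integrable (fun h : Icc (0 : ℝ) 1 => f h)
        ((volume : Measure (Icc (0 : ℝ) 1)).map (cellMap N i)) := fun i => by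
      have : IsProbabilityMeasure ((volume : Measure (Icc (0 : ℝ) 1)).map (cellMap N i)) :=
        Measure.isProbabilityMeasure_map (measurable_cellMap i).aemeasurable
      exact f.integrable _
    unfold smear
    rw [integral_finsetSum_measure (fun i _ => (hI i).smul_measure ENNReal.ofReal_ne_top)]
    refine Finset.sum_congr rfl fun i _ => ?_
    rw [integral_smul_measure, integral_map (measurable_cellMap i).aemeasurable
      f.continuous.aestronglyMeasurable, ENNReal.toReal_ofReal (m.2.1 i), smul_eq_mul]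
  simp only [e]
  refine Continuous.tendsto ?_ m₀
  exact continuous_finsetSum _ fun i _ =>
    ((continuous_apply i).comp continuous_subtype_val).mul continuous_const

lemma selected_iff {N : ℕ} {m : Fin N → ℝ} : Selected N m ↔
    m ∈ Near N ∧ ∀ m' ∈ Near N, meanDiff (smear N m') ≤ meanDiff (smear N m) := by
  constructor
  · rintro ⟨h1, h2⟩
    refine ⟨h1, fun m' hm' => ?_⟩
    rw [meanDiff_smear hm'.1, meanDiff_smear h1.1]
    exact h2 m' hm'
  · rintro ⟨h1, h2⟩
    refine ⟨h1, fun m' hm' => ?_⟩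
    rw [← meanDiff_smear hm'.1, ← meanDiff_smear h1.1]
    exact h2 m' hm'

/-- Selected weights exist. -/
lemma exists_selected {N : ℕ} (hN : 0 < N) : ∃ m, Selected N m := by
  set K : Set (stdSimplex ℝ (Fin N)) :=
    {m | ∀ T : BTree, WF T 0 N → fval N - 3 / √N ≤ fcost N T m.1} with hK
  have hclosed : IsClosed K := by
    simp only [hK, Set.ofPred_forall]
    refine isClosed_iInter fun T => isClosed_iInter fun _ => ?_
    exact isClosed_le continuous_const ((continuous_fcost N T).comp continuous_subtype_val)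
  obtain ⟨ν, hν⟩ := exists_optimal
  have hw := wts_near hN hν
  obtain ⟨m, hm, hmax⟩ := hclosed.isCompact.exists_isMaxOn ⟨⟨wts N ν, hw.1⟩, hw.2⟩
    (continuous_meanDiff.comp (continuous_smearP N)).continuousOn
  exact ⟨m.1, selected_iff.2 ⟨⟨m.2, hm⟩, fun m' hm' => hmax (a := ⟨m', hm'.1⟩) hm'.2⟩⟩

/-- The smear determines the weights. -/
lemma smear_injective {N : ℕ} {m m' : Fin N → ℝ} (hm : ∀ i, 0 ≤ m i) (hm' : ∀ i, 0 ≤ m' i)
    (h : smear N m = smear N m') : m = m' := by
  classical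
  funext i
  have hN' : (0 : ℝ) < N := by exact_mod_cast (Nat.zero_lt_of_lt i.2)
  set A : Set (Icc (0 : ℝ) 1) := {x | (i : ℝ) / N < x ∧ (x : ℝ) < ((i : ℝ) + 1) / N} with hA
  have hAm : MeasurableSet A :=
    (measurableSet_lt measurable_const measurable_subtype_coe).inter
      (measurableSet_lt measurable_subtype_coe measurable_const)
  have key : ∀ w : Fin N → ℝ, smear N w A = ENNReal.ofReal (w i) := by
    intro w
    unfold smear
    rw [Measure.finsetSum_apply, Finset.sum_eq_single i]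
    · rw [Measure.smul_apply, Measure.map_apply (measurable_cellMap i) hAm, smul_eq_mul]
      have h1 : (volume : Measure (Icc (0 : ℝ) 1)) (cellMap N i ⁻¹' A)ᶜ = 0 := by
        refine measure_mono_null (t := {0, 1}) ?_ ?_
        · intro u hu
          by_contra hcon
          have hu0 : (u : ℝ) ≠ 0 := fun h0 => hcon (Or.inl (Subtype.ext h0))
          have hu1 : (u : ℝ) ≠ 1 := fun h0 => hcon (Or.inr (Subtype.ext h0))
          have hu0' : 0 < (u : ℝ) := lt_of_le_of_ne u.2.1 (Ne.symm hu0)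
          have hu1' : (u : ℝ) < 1 := lt_of_le_of_ne u.2.2 hu1
          apply hu
          show (i : ℝ) / N < (cellMap N i u : ℝ) ∧ (cellMap N i u : ℝ) < ((i : ℝ) + 1) / N
          rw [cellMap_coe]
          exact ⟨div_lt_div_of_pos_right (by linarith) hN',
            div_lt_div_of_pos_right (by linarith) hN'⟩
        · exact (Set.toFinite _).measure_zero _
      have h2 : (volume : Measure (Icc (0 : ℝ) 1)) (cellMap N i ⁻¹' A) = 1 := by
        rw [← prob_compl_eq_zero_iff ((measurable_cellMap i) hAm)]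
        exact h1
      rw [h2, mul_one]
    · intro j _ hji
      rw [Measure.smul_apply, Measure.map_apply (measurable_cellMap j) hAm]
      have h1 : cellMap N j ⁻¹' A = ∅ := by
        ext u
        simp only [mem_preimage, mem_empty_iff_false, iff_false]
        rintro ⟨ha, hb⟩
        rw [cellMap_coe] at ha hb
        have ha' := (div_lt_div_iff_of_pos_right hN').1 ha
        have hb' := (div_lt_div_iff_of_pos_right hN').1 hb
        have h3 : (i : ℝ) < (j : ℝ) + 1 := by linarith [u.2.2]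
        have h4 : (j : ℝ) < (i : ℝ) + 1 := by linarith [u.2.1]
        have h5 : (i : ℕ) < (j : ℕ) + 1 := by exact_mod_cast h3
        have h6 : (j : ℕ) < (i : ℕ) + 1 := by exact_mod_cast h4
        exact hji (Fin.ext (by omega))
      rw [h1, measure_empty, smul_zero]
    · intro hi
      exact absurd (Finset.mem_univ i) hi
  have h1 := key m
  rw [h, key m'] at h1
  exact ((ENNReal.ofReal_eq_ofReal_iff (hm' i) (hm i)).1 h1).symm

lemma smear_mid {N : ℕ} {m m' : Fin N → ℝ} (hm : ∀ i, 0 ≤ m i) (hm' : ∀ i, 0 ≤ m' i) :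
    smear N (fun i => (m i + m' i) / 2) =
      ENNReal.ofReal (1 - 1 / 2) • smear N m + ENNReal.ofReal (1 / 2) • smear N m' := by
  ext A hA
  unfold smear
  rw [Measure.add_apply, Measure.smul_apply, Measure.smul_apply, Measure.finsetSum_apply,
    Measure.finsetSum_apply, Measure.finsetSum_apply, smul_eq_mul, smul_eq_mul,
    Finset.mul_sum, Finset.mul_sum, ← Finset.sum_add_distrib]
  refine Finset.sum_congr rfl fun i _ => ?_
  simp only [Measure.smul_apply, smul_eq_mul]
  rw [← mul_assoc, ← mul_assoc, ← ENNReal.ofReal_mul (by norm_num),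
    ← ENNReal.ofReal_mul (by norm_num), ← add_mul, ← ENNReal.ofReal_add
      (mul_nonneg (by norm_num) (hm i)) (mul_nonneg (by norm_num) (hm' i))]
  congr 2
  ring

/-- Exactly one vector of weights is selected. -/
theorem existsUnique_selected {N : ℕ} (hN : 0 < N) : ∃! m, Selected N m := by
  obtain ⟨m, hm0⟩ := exists_selected hN
  refine ⟨m, hm0, fun m' hm0' => ?_⟩
  have hm := selected_iff.1 hm0
  have hm' := selected_iff.1 hm0'
  have hp := smear_prob hm.1.1
  have hp' := smear_prob hm'.1.1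
  have hmid : (fun i => (m' i + m i) / 2) ∈ Near N := by
    refine ⟨⟨fun i => ?_, ?_⟩, fun T hT => ?_⟩
    · have h1 := hm.1.1.1 i
      have h2 := hm'.1.1.1 i
      show 0 ≤ (m' i + m i) / 2
      linarith
    · rw [← Finset.sum_div, Finset.sum_add_distrib, hm.1.1.2, hm'.1.1.2]
      norm_num
    · have e : fcost N T (fun i => (m' i + m i) / 2) = (fcost N T m' + fcost N T m) / 2 := by
        unfold fcost
        rw [← Finset.sum_add_distrib, Finset.sum_div]
        exact Finset.sum_congr rfl fun i _ => by ring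
      have h1 := hm.1.2 T hT
      have h2 := hm'.1.2 T hT
      rw [e]
      linarith
  have h1 := hm.2 _ hmid
  have h2 := hm'.2 _ hm.1
  rw [smear_mid hm'.1.1.1 hm.1.1.1] at h1
  have h3 : smear N m' = smear N m :=
    eq_of_mid_le (smear_singleton m') (smear_singleton m) (by linarith)
  exact smear_injective hm'.1.1.1 hm.1.1.1 h3

/-- **The selected weights converge to one optimal strategy.** -/
theorem tendsto_selected {ν : ProbabilityMeasure (Icc (0 : ℝ) 1)} (hν : guaranteed ν = maximin)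
    (hmax : ∀ ν' : ProbabilityMeasure (Icc (0 : ℝ) 1), guaranteed ν' = maximin → ν' ≠ ν →
      meanDiff (ν' : Measure (Icc (0 : ℝ) 1)) < meanDiff (ν : Measure (Icc (0 : ℝ) 1)))
    {m : ∀ N : ℕ, Fin (N + 1) → ℝ} (hm : ∀ N, Selected (N + 1) (m N))
    {νs : ℕ → ProbabilityMeasure (Icc (0 : ℝ) 1)}
    (hνs : ∀ N, (νs N : Measure (Icc (0 : ℝ) 1)) = smear (N + 1) (m N)) :
    Tendsto νs atTop (𝓝 ν) := by
  -- the smears of the cell weights of `ν`
  set μs : ℕ → ProbabilityMeasure (Icc (0 : ℝ) 1) := fun N =>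
    ⟨smear (N + 1) (wts (N + 1) ν), smear_prob (wts_mem (Nat.succ_pos N) ν)⟩ with hμs
  have hμ : Tendsto μs atTop (𝓝 ν) := tendsto_smear_wts ν μs fun N => rfl
  have hle : ∀ N, meanDiff (μs N : Measure (Icc (0 : ℝ) 1)) ≤
      meanDiff (νs N : Measure (Icc (0 : ℝ) 1)) := by
    intro N
    rw [hνs N]
    exact (selected_iff.1 (hm N)).2 _ (wts_near (Nat.succ_pos N) hν)
  refine tendsto_of_subseq_tendsto fun ns hns => ?_
  obtain ⟨ν', -, ms, hms, hlim⟩ := (isCompact_univ
    (X := ProbabilityMeasure (Icc (0 : ℝ) 1))).tendsto_subseq (x := fun n => νs (ns n))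
      (fun n => mem_univ _)
  refine ⟨ms, ?_⟩
  have hlim' : Tendsto (fun n => νs (ns (ms n))) atTop (𝓝 ν') := hlim
  have hk : Tendsto (fun n => ns (ms n)) atTop atTop := hns.comp hms.tendsto_atTop
  have hopt : guaranteed ν' = maximin := by
    refine limit_optimal' (ε := fun n => 3 / √((ns (ms n) + 1 : ℕ) : ℝ) +
      3 / √((ns (ms n) + 1 : ℕ) : ℝ)) (fun n => by positivity) ?_ (fun n => ?_) hlim'
    · have h7 : Tendsto (fun n => √((ns (ms n) + 1 : ℕ) : ℝ)) atTop atTop := by
        refine Real.tendsto_sqrt_atTop.comp ?_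
        exact tendsto_natCast_atTop_atTop.comp ((tendsto_add_atTop_nat 1).comp hk)
      have h8 := (h7.const_div_atTop 3).add (h7.const_div_atTop 3)
      simpa using h8
    · exact smear_near (Nat.succ_pos _) (hm _).1.1 (hm _).1.2 _ (hνs _)
  have h1 : meanDiff (ν : Measure (Icc (0 : ℝ) 1)) ≤ meanDiff (ν' : Measure (Icc (0 : ℝ) 1)) :=
    le_of_tendsto_of_tendsto' ((continuous_meanDiff.tendsto ν).comp (hμ.comp hk))
      ((continuous_meanDiff.tendsto ν').comp hlim') fun n => hle _
  have h2 : ν' = ν := by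
    by_contra hne
    exact absurd h1 (not_le.2 (hmax ν' hopt hne))
  rw [h2] at hlim'
  exact hlim'

end Pool.Agent.HighLow
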