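import Pool.Agent.HighLow_e5c6.Shift

/-!
# The weights and the potential inequality along right spines
-/

set_option autoImplicit false
set_option linter.unusedSectionVars false
set_option linter.unusedVariables false

namespace Pool.Agent.HighLow

open MeasureTheory Set STree

/-- The weights used to spread the atom over the dyadic scales to its left. -/
structure Setup (ν : Measure ℝ) (x : ℝ) where
  ks : ℕ
  Ke : ℕ
  β : ℕ → ℝ
  τ : ℕ → ℝ
  N : ℝ
  M : ℝ
  δ : ℝ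
  κ : ℝ
  hm : 0 < ν.real {x}
  hm1 : ν.real univ ≤ 1
  near : ν.real (Ico (x - 2 * u ks) x) ≤ ν.real {x} / 200
  hβ : ∀ k, β k = 40 / ν.real {x} * ν.real (Ioo (x - u k) (x - u k / 4))
  hτ : ∀ k, 0 ≤ τ k
  hτm : Monotone τ
  hsum : ∑ k ∈ Finset.Ico ks Ke, (β k + τ k) ≤ 1
  small : ∀ k, τ k * (100 * M * ν.real (Ioo (x - u k) (x - u k / 4))) ≤ τ k * ν.real {x}
  ent : ∀ (X : STree) (a b : ℝ) (k₀ j : ℕ), ks ≤ k₀ → k₀ < j → j ≤ Ke → Fine δ X a b →
    (∀ k, k₀ ≤ k → k < j → a ≤ x - u k ∧ x - u k ≤ b) →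
    2 * (N * ∑ k ∈ Finset.Ico k₀ j, τ k - M * τ (j - 1)) ≤
      ∑ k ∈ Finset.Ico k₀ j, τ k * (cost X a b (x - u k) / u k)
  hM : 0 ≤ M
  hN : 0 ≤ N
  hδ : ∀ k, k < Ke → δ < u k / 2
  hκ0 : 0 ≤ κ
  hκ : κ ≤ ν.real {x} / 100 * u (Ke - 1)

namespace Setup

variable {ν : Measure ℝ} [IsFiniteMeasure ν] {x : ℝ} (S : Setup ν x)

/-- The total weight of the scale `k`. -/
noncomputable def b (k : ℕ) : ℝ := S.β k + S.τ k

lemma β_nonneg (k : ℕ) : 0 ≤ S.β k := by
  rw [S.hβ]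
  exact mul_nonneg (div_nonneg (by norm_num) S.hm.le) measureReal_nonneg

lemma b_nonneg (k : ℕ) : 0 ≤ S.b k := add_nonneg (S.β_nonneg k) (S.hτ k)

lemma τ_le_b (k : ℕ) : S.τ k ≤ S.b k := by
  have := S.β_nonneg k
  unfold b
  linarith

lemma sum_b_nonneg (k₀ j : ℕ) : 0 ≤ ∑ k ∈ Finset.Ico k₀ j, S.b k :=
  Finset.sum_nonneg fun k _ => S.b_nonneg k

lemma sum_τ_nonneg (k₀ j : ℕ) : 0 ≤ ∑ k ∈ Finset.Ico k₀ j, S.τ k :=
  Finset.sum_nonneg fun k _ => S.hτ k

lemma sum_b_le_one {k₀ j : ℕ} (hk : S.ks ≤ k₀) (hj : j ≤ S.Ke) :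
    ∑ k ∈ Finset.Ico k₀ j, S.b k ≤ 1 := by
  refine le_trans (Finset.sum_le_sum_of_subset_of_nonneg ?_ fun k _ _ => S.b_nonneg k) S.hsum
  exact Finset.Ico_subset_Ico hk hj

/-- Stopping rule: if `R` is not much larger than the scale, the entropy bound suffices. -/
lemma stop {y ζ θ : ℝ} {j : ℕ} (hj : j ≤ S.Ke) (hθ0 : 0 ≤ θ) (hθ : θ ≤ 1 / 6)
    (X : STree) {p R : ℝ} {k₀ : ℕ} (hks : S.ks ≤ k₀) (hk₀ : k₀ < j) (hF : Fine S.δ X p y)
    (hp : ∀ k, k₀ ≤ k → k < j → p ≤ x - u k ∧ x - u k ≤ y) (hζ0 : 0 ≤ ζ)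
    (hR : R ≤ 6 / 5 * ζ) :
    -(6 / 5 * (ζ / u (j - 1))) * ∑ k ∈ Finset.Ico k₀ j, S.b k +
      (S.N * ∑ k ∈ Finset.Ico k₀ j, S.τ k - S.M * S.τ (j - 1)) +
      θ * (S.b (j - 1) * ((spine x (x - 3 / 2 * u (j - 1)) X - R) / u (j - 1))) ≤
    ∑ k ∈ Finset.Ico k₀ j, S.b k * ((cost X p y (x - u k) - R) / u k) := by
  set ul := u (j - 1) with hul
  have hul0 : 0 < ul := u_pos _
  have hmem : j - 1 ∈ Finset.Ico k₀ j := by rw [Finset.mem_Ico]; omega
  have hc0 : ∀ k ∈ Finset.Ico k₀ j, 0 ≤ cost X p y (x - u k) := by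
    intro k hk
    rw [Finset.mem_Ico] at hk
    exact cost_nonneg _ (hp k hk.1 hk.2).1 (hp k hk.1 hk.2).2
  have hent := S.ent X p y k₀ j hks hk₀ hj hF hp
  -- termwise inequality
  have hterm : ∀ k ∈ Finset.Ico k₀ j,
      -(6 / 5 * (ζ / ul)) * S.b k + 1 / 2 * (S.τ k * (cost X p y (x - u k) / u k)) +
      (if k = j - 1 then (1 / 2 * (S.b k * (cost X p y (x - u k) / u k)) +
        θ * (S.b k * (-R / ul))) else 0) ≤
      S.b k * ((cost X p y (x - u k) - R) / u k) := by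
    intro k hk
    have hk' := hk
    rw [Finset.mem_Ico] at hk'
    have hck := hc0 k hk
    have hbk := S.b_nonneg k
    have htk := S.τ_le_b k
    have huk := u_pos k
    have hle : ul ≤ u k := u_anti (by omega)
    set C := cost X p y (x - u k) / u k with hC
    have hC0 : 0 ≤ C := div_nonneg hck huk.le
    have e1 : S.b k * ((cost X p y (x - u k) - R) / u k) = S.b k * C + S.b k * (-R / u k) := by
      rw [hC]; ring
    rw [e1]
    have hτC : S.τ k * C ≤ S.b k * C := mul_le_mul_of_nonneg_right htk hC0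
    have hbC : 0 ≤ S.b k * C := mul_nonneg hbk hC0
    rcases le_or_gt 0 R with hR0 | hR0
    · have e2 : -(6 / 5 * (ζ / ul)) ≤ -R / u k := by
        rw [neg_div, neg_le_neg_iff]
        calc R / u k ≤ R / ul := div_le_div_of_nonneg_left hR0 hul0 hle
          _ ≤ 6 / 5 * ζ / ul := by gcongr
          _ = 6 / 5 * (ζ / ul) := by ring
      have e3 : -(6 / 5 * (ζ / ul)) * S.b k ≤ S.b k * (-R / u k) := by
        rw [mul_comm]; exact mul_le_mul_of_nonneg_left e2 hbk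
      have e4 : θ * (S.b k * (-R / ul)) ≤ 0 := by
        apply mul_nonpos_of_nonneg_of_nonpos hθ0
        apply mul_nonpos_of_nonneg_of_nonpos hbk
        exact div_nonpos_of_nonpos_of_nonneg (by linarith) hul0.le
      split_ifs <;> linarith
    · have e3 : -(6 / 5 * (ζ / ul)) * S.b k ≤ 0 := by
        apply mul_nonpos_of_nonpos_of_nonneg _ hbk
        have : 0 ≤ ζ / ul := div_nonneg hζ0 hul0.le
        linarith
      have e5 : 0 ≤ S.b k * (-R / u k) := mul_nonneg hbk (div_nonneg (by linarith) huk.le)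
      split_ifs with hkj
      · subst hkj
        have e6 : 0 ≤ S.b (j - 1) * (-R / ul) := mul_nonneg hbk (div_nonneg (by linarith) hul0.le)
        have e7 : θ * (S.b (j - 1) * (-R / ul)) ≤ S.b (j - 1) * (-R / ul) := by
          nlinarith
        linarith
      · linarith
  have hsum := Finset.sum_le_sum hterm
  rw [Finset.sum_add_distrib, Finset.sum_add_distrib, ← Finset.mul_sum, ← Finset.mul_sum,
    Finset.sum_ite_eq' (Finset.Ico k₀ j) (j - 1), if_pos hmem] at hsum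
  -- the spine term
  have hsp := spine_le_cost (x := x) (θ := x - 3 / 2 * ul) (s := ul) hul0.le le_rfl X hF
    (hp (j - 1) (by omega) (by omega)).1 (hp (j - 1) (by omega) (by omega)).2
  have hs0 : 0 ≤ spine x (x - 3 / 2 * ul) X := spine_nonneg (by linarith) X
  have hbl := S.b_nonneg (j - 1)
  have e8 : θ * (S.b (j - 1) * ((spine x (x - 3 / 2 * ul) X - R) / ul)) ≤
      1 / 2 * (S.b (j - 1) * (cost X p y (x - u (j - 1)) / u (j - 1))) +
        θ * (S.b (j - 1) * (-R / ul)) := by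
    have e9 : θ * (S.b (j - 1) * ((spine x (x - 3 / 2 * ul) X - R) / ul)) =
        θ * (S.b (j - 1) * (spine x (x - 3 / 2 * ul) X / ul)) +
        θ * (S.b (j - 1) * (-R / ul)) := by ring
    rw [e9]
    have e10 : 0 ≤ S.b (j - 1) * (spine x (x - 3 / 2 * ul) X / ul) :=
      mul_nonneg hbl (div_nonneg hs0 hul0.le)
    have e11 : S.b (j - 1) * (spine x (x - 3 / 2 * ul) X / ul) ≤
        3 * (S.b (j - 1) * (cost X p y (x - u (j - 1)) / u (j - 1))) := by
      have : spine x (x - 3 / 2 * ul) X / ul ≤ 3 * (cost X p y (x - u (j - 1)) / u (j - 1)) := by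
        rw [← hul, mul_div_assoc']
        gcongr
      calc S.b (j - 1) * (spine x (x - 3 / 2 * ul) X / ul)
          ≤ S.b (j - 1) * (3 * (cost X p y (x - u (j - 1)) / u (j - 1))) :=
            mul_le_mul_of_nonneg_left this hbl
        _ = _ := by ring
    nlinarith
  linarith

end Setup

end Pool.Agent.HighLow
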