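import Pool.Agent.HighLow_e5c6.Local

/-!
# Shifting a cut towards the atom

The two key inequalities: a cut at distance `v` to the left of the atom is only nearly optimal if
the points just to its left are expensive.
-/

set_option autoImplicit false
set_option linter.unusedSectionVars false
set_option linter.unusedVariables false

namespace Pool.Agent.HighLow

open MeasureTheory Set STree

variable {ν : Measure ℝ} [IsFiniteMeasure ν] {x : ℝ}

lemma fine_pos {δ : ℝ} (T : STree) : ∀ {a b : ℝ}, a < b → Fine δ T a b → 0 < δ := by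
  induction T with
  | leaf => intro a b hab hF; exact lt_of_lt_of_le (by linarith) hF
  | node c l r ihl ihr => intro a b _ hF; exact ihl hF.1 hF.2.2.1

/-- (V): shifting a spine cut. -/
lemma shift_spine {δ p y d R K : ℝ} {l r : STree} (hF : Fine δ (node d l r) p y) (hyx : y < x)
    (hN : Null ν (node d l r)) (hy : ν {y} = 0) (h : PP ν x (node d l r) p y R K)
    (hR : 0 ≤ R) : R * ν.real {x} ≤ 3 / 5 * (x - d) * ν.real {x} +
      (10 * (x - d) + δ) * ν.real (Ico p x) +
      spine x (x - 3 * (x - d)) l * ν.real (Ico d (x - (x - d) / 2)) + K := by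
  obtain ⟨hpd, hdy, hFl, hFr⟩ := hF
  set v := x - d with hv
  have hv0 : 0 < v := by linarith
  have hδ : 0 < δ := fine_pos l hpd hFl
  obtain ⟨d', hd1, hd2, hd'⟩ := exists_null ν (show x - 3 / 5 * v < x - v / 2 by linarith)
  have hdd' : d < d' := by linarith
  have hd'x : d' < x := by linarith
  have hpd' : p < d' := by linarith
  have hpx : p < x := by linarith
  set Λ := spine x (x - 3 * v) l with hΛ
  have hΛ0 : 0 ≤ Λ := spine_nonneg (by linarith) l
  set G := graft (x - 3 * v) d l with hG
  set N := node y r leaf with hNdef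
  have hGN : Null ν G := graft_all hN.1 hN.2.1
  have hNN : Null ν N := ⟨hy, hN.2.2, trivial⟩
  -- upper bound for omega
  have h1 := omega_split (x := x) hpd'.le hd'x.le hd' hGN
  have h2 := omega_isolate (ν := ν) hd'x hNN
  -- the old cost
  set F : ℝ → ℝ := fun h => if h ≤ y then cost (node d l r) p y h else R with hFdef
  have hF0 : ∀ h, p ≤ h → 0 ≤ F h := by
    intro h hph
    simp only [hFdef]
    split_ifs with hc
    · exact cost_nonneg _ hph hc
    · exact hR
  have hFi : IntegrableOn F (Icc p x) ν := by
    have e : Icc p x = Icc p y ∪ Ioc y x := (Icc_union_Ioc_eq_Icc (by linarith) hyx.le).symm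
    rw [e]
    refine IntegrableOn.union ?_ ?_
    · refine (integrableOn_congr_fun ?_ measurableSet_Icc).2 (cost_integrableOn ν (node d l r) p y)
      intro h hh
      simp only [hFdef, if_pos hh.2]
    · refine (integrableOn_congr_fun ?_ measurableSet_Ioc).2
        (integrableOn_const (C := R) (measure_ne_top _ _))
      intro h hh
      simp only [hFdef, if_neg (not_le.2 hh.1)]
  have hFint : ∫ h in Icc p x, F h ∂ν =
      ∫ h in Icc p y, cost (node d l r) p y h ∂ν + R * ν.real (Ioc y x) := by
    rw [split_Icc_Ioc (hpd.le.trans hdy.le) hyx.le hFi]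
    congr 1
    · refine setIntegral_congr_fun measurableSet_Icc fun h hh => ?_
      simp only [hFdef, if_pos hh.2]
    · have : ∫ h in Ioc y x, F h ∂ν = ∫ h in Ioc y x, R ∂ν := by
        refine setIntegral_congr_fun measurableSet_Ioc fun h hh => ?_
        simp only [hFdef, if_neg (not_le.2 hh.1)]
      rw [this, setIntegral_const, smul_eq_mul, mul_comm]
  have hFx : F x = R := by simp only [hFdef, if_neg (not_le.2 hyx)]
  have hFsplit := split_Ico_singleton hpx.le hFi
  rw [hFx] at hFsplit
  -- left part
  have hset : Icc p d' = Ico p d' ∪ {d'} := (Ico_union_right hpd'.le).symm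
  have hsubA : Ico p d' ⊆ Icc p x := fun h hh => ⟨hh.1, hh.2.le.trans hd'x.le⟩
  have hindi : IntegrableOn ((Ico d d').indicator (fun _ => Λ)) (Ico p d') ν :=
    (integrableOn_const (measure_ne_top _ _)).indicator measurableSet_Ico
  have eA : ∫ h in Icc p d', (d' - h) ∂ν + ∫ h in Icc p d', cost G p d' h ∂ν ≤
      ∫ h in Ico p d', F h ∂ν + (10 * v + δ) * ν.real (Ico p d') + Λ * ν.real (Ico d d') := by
    rw [integral_Icc_eq_integral_Ico' hd', integral_Icc_eq_integral_Ico' hd', ← integral_add
      ((lin_int (by fun_prop) p d').mono_set Ico_subset_Icc_self)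
      ((cost_integrableOn ν G p d').mono_set Ico_subset_Icc_self)]
    have hle : ∫ h in Ico p d', ((d' - h) + cost G p d' h) ∂ν ≤
        ∫ h in Ico p d', ((F h + (10 * v + δ)) + (Ico d d').indicator (fun _ => Λ) h) ∂ν := by
      refine setIntegral_mono_on ?_ ?_ measurableSet_Ico ?_
      · exact ((lin_int (by fun_prop) p d').add (cost_integrableOn ν G p d')).mono_set
          Ico_subset_Icc_self
      · exact ((hFi.mono_set hsubA).add (integrableOn_const (measure_ne_top _ _))).add hindi
      · intro h hh
        rcases lt_or_ge h d with hc | hc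
        · rw [Set.indicator_of_notMem (fun hmem => absurd hmem.1 (not_le.2 hc)), add_zero]
          have e1 := graft_left (x := x) (θ := x - 3 * v) (y := d) (y' := d') (by linarith)
            hdd'.le hd'x.le l hFl hh.1 hc.le
          have e2 : F h = (d - h) + cost l p d h := by
            simp only [hFdef, if_pos (hc.le.trans hdy.le)]
            rw [cost_node_lt' hc hdy.le]
          rw [e2]
          linarith
        · rw [Set.indicator_of_mem (show h ∈ Ico d d' from ⟨hc, hh.2⟩)]
          have e1 := graft_right (x := x) (θ := x - 3 * v) (y := d) (y' := d') (by linarith)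
            hd'x.le l hFl hpd.le hc hh.2.le
          have e2 := hF0 h hh.1
          linarith
    have hFc : IntegrableOn (fun h => F h + (10 * v + δ)) (Ico p d') ν :=
      (hFi.mono_set hsubA).add (integrableOn_const (measure_ne_top _ _))
    rw [integral_add (f := fun h => F h + (10 * v + δ)) hFc hindi,
      integral_add (hFi.mono_set hsubA) (integrableOn_const (measure_ne_top _ _)),
      setIntegral_const, setIntegral_indicator measurableSet_Ico, setIntegral_const,
      smul_eq_mul, smul_eq_mul] at hle
    have e3 : ν.real (Ico p d' ∩ Ico d d') ≤ ν.real (Ico d d') :=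
      measureReal_mono inter_subset_right
    have e4 : ν.real (Ico p d' ∩ Ico d d') * Λ ≤ ν.real (Ico d d') * Λ :=
      mul_le_mul_of_nonneg_right e3 hΛ0
    linarith
  -- right part
  have hsubB : Ico d' x ⊆ Icc p x := fun h hh => ⟨hpd'.le.trans hh.1, hh.2.le⟩
  have eB : ∫ h in Ico d' x, (h - d') ∂ν + ∫ h in Ico d' x, ((x - h) + cost N d' x h) ∂ν ≤
      ∫ h in Ico d' x, F h ∂ν + 3 * v * ν.real (Ico d' x) := by
    have hiN : IntegrableOn (fun h => (x - h) + cost N d' x h) (Ico d' x) ν :=
      ((lin_int (by fun_prop) d' x).add (cost_integrableOn ν N d' x)).mono_set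
        Ico_subset_Icc_self
    have hil : IntegrableOn (fun h : ℝ => h - d') (Ico d' x) ν :=
      (lin_int (by fun_prop) d' x).mono_set Ico_subset_Icc_self
    rw [← integral_add hil hiN]
    have hle : ∫ h in Ico d' x, ((h - d') + ((x - h) + cost N d' x h)) ∂ν ≤
        ∫ h in Ico d' x, (F h + 3 * v) ∂ν := by
      refine setIntegral_mono_on (hil.add hiN)
        ((hFi.mono_set hsubB).add (integrableOn_const (measure_ne_top _ _))) measurableSet_Ico ?_
      intro h hh
      rcases lt_or_ge h y with hc | hc
      · rw [hNdef, cost_node_lt' hc hyx.le]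
        have e1 : F h = (h - d) + cost r d y h := by
          simp only [hFdef, if_pos hc.le]
          rw [cost_node_ge' (by linarith [hh.1]) hpd.le]
        have e2 := cost_mono r (a := d') (b := y) (a' := d) (b' := y) (h := h) hdd'.le le_rfl
          hh.1 hc.le
        rw [e1]
        linarith [hh.1]
      · rw [hNdef, cost_node_ge hc]
        simp only [cost_leaf]
        have e1 := hF0 h (by linarith [hh.1])
        have e2 : d' ≤ max d' y := le_max_left _ _
        linarith [hh.1, hh.2]
    rw [integral_add (hFi.mono_set hsubB) (integrableOn_const (measure_ne_top _ _)),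
      setIntegral_const, smul_eq_mul] at hle
    linarith
  have eC : ∫ h in Icc d' x, (h - d') ∂ν = ∫ h in Ico d' x, (h - d') ∂ν + (x - d') * ν.real {x} :=
    split_Ico_singleton hd'x.le (lin_int (by fun_prop) d' x)
  have eD : ∫ h in Ico p x, F h ∂ν = ∫ h in Ico p d', F h ∂ν + ∫ h in Ico d' x, F h ∂ν := by
    rw [← Ico_union_Ico_eq_Ico hpd'.le hd'x.le, setIntegral_union _ measurableSet_Ico
      (hFi.mono_set hsubA) (hFi.mono_set hsubB)]
    rw [Set.disjoint_left]
    intro y h1 h2
    exact absurd h1.2 (not_lt.2 h2.1)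
  have eE : ν.real (Ico p d') + ν.real (Ico d' x) = ν.real (Ico p x) := by
    rw [← measureReal_union _ measurableSet_Ico, Ico_union_Ico_eq_Ico hpd'.le hd'x.le]
    rw [Set.disjoint_left]
    intro y h1 h2
    exact absurd h1.2 (not_lt.2 h2.1)
  have eF : Λ * ν.real (Ico d d') ≤ Λ * ν.real (Ico d (x - v / 2)) :=
    mul_le_mul_of_nonneg_left (measureReal_mono (Ico_subset_Ico_right hd2.le)) hΛ0
  have eG : (x - d') * ν.real {x} ≤ 3 / 5 * v * ν.real {x} :=
    mul_le_mul_of_nonneg_right (by linarith) measureReal_nonneg
  have eH : 3 * v * ν.real (Ico d' x) ≤ (10 * v + δ) * ν.real (Ico d' x) :=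
    mul_le_mul_of_nonneg_right (by linarith) measureReal_nonneg
  unfold PP at h
  rw [← hFint, hFsplit, eD] at h
  rw [← eE]
  linarith

/-- (W): shifting a cut of the path of the atom. -/
lemma shift_path {δ κ a b c E : ℝ} {l r : STree} (hF : Fine δ (node c l r) a b) (hcx : c < x)
    (hxb : x ≤ b) (hN : Null ν (node c l r)) (hopt : NearOpt ν κ a b (node c l r)) (hE0 : 0 ≤ E)
    (hE : ∀ h, c ≤ h → h < x → cost r c b x ≤ cost r c b h + E) :
    2 / 5 * (x - c) * ν.real {x} ≤ κ + (10 * (x - c) + δ + E) * ν.real (Ico a x) +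
      max 0 (spine x (x - 3 * (x - c)) l - cost r c b x) *
        ν.real (Ico c (x - (x - c) / 2)) := by
  obtain ⟨hac, hcb, hFl, hFr⟩ := hF
  set w := x - c with hw
  have hw0 : 0 < w := by linarith
  have hδ : 0 < δ := fine_pos l hac hFl
  obtain ⟨c', hc1, hc2, hc'⟩ := exists_null ν (show x - 3 / 5 * w < x - w / 2 by linarith)
  have hcc' : c < c' := by linarith
  have hc'x : c' < x := by linarith
  have hax : a < x := by linarith
  set Λ := spine x (x - 3 * w) l with hΛ
  set R := cost r c b x with hR
  set G := graft (x - 3 * w) c l with hG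
  have hGN : Null ν G := graft_all hN.1 hN.2.1
  have h1 := hopt (node c' G r) ⟨hc', hGN, hN.2.2⟩
  -- pointwise comparison
  set D := max 0 (Λ - R) with hD
  have hD0 : 0 ≤ D := le_max_left _ _
  have hDle : Λ - R ≤ D := le_max_right _ _
  have hpt : ∀ h ∈ Icc a b, cost (node c' G r) a b h ≤ cost (node c l r) a b h +
      ((Ico a x).indicator (fun _ => 10 * w + δ + E) h + (Ico c c').indicator (fun _ => D) h) -
      ({x} : Set ℝ).indicator (fun _ => 2 / 5 * w) h := by
    intro h hh
    rcases lt_or_ge h c with hc | hc
    · rw [Set.indicator_of_mem (show h ∈ Ico a x from ⟨hh.1, hc.trans hcx⟩),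
        Set.indicator_of_notMem (fun hmem : h ∈ Ico c c' => absurd hmem.1 (not_le.2 hc)),
        Set.indicator_of_notMem (fun hmem : h ∈ ({x} : Set ℝ) => by
          rw [Set.mem_singleton_iff] at hmem; linarith),
        cost_node_lt' (hc.trans hcc') (by linarith), cost_node_lt' hc hcb.le]
      have e1 := graft_left (x := x) (θ := x - 3 * w) (y := c) (y' := c') (by linarith)
        hcc'.le hc'x.le l hFl hh.1 hc.le
      linarith
    · rcases lt_or_ge h c' with hc3 | hc3
      · rw [Set.indicator_of_mem (show h ∈ Ico a x from ⟨hh.1, hc3.trans hc'x⟩),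
          Set.indicator_of_mem (show h ∈ Ico c c' from ⟨hc, hc3⟩),
          Set.indicator_of_notMem (fun hmem : h ∈ ({x} : Set ℝ) => by
            rw [Set.mem_singleton_iff] at hmem; linarith),
          cost_node_lt' hc3 (by linarith), cost_node_ge' hc hac.le]
        have e1 := graft_right (x := x) (θ := x - 3 * w) (y := c) (y' := c') (by linarith)
          hc'x.le l hFl hac.le hc hc3.le
        have e2 := hE h hc (hc3.trans hc'x)
        linarith
      · rw [Set.indicator_of_notMem (fun hmem : h ∈ Ico c c' => absurd hmem.2 (not_lt.2 hc3)),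
          cost_node_ge' hc3 (by linarith), cost_node_ge' hc hac.le]
        have e2 := cost_mono r (a := c') (b := b) (a' := c) (b' := b) (h := h) hcc'.le le_rfl
          hc3 hh.2
        have e3 : 0 ≤ (Ico a x).indicator (fun _ => 10 * w + δ + E) h :=
          Set.indicator_nonneg (fun _ _ => by linarith) h
        have e4 : ({x} : Set ℝ).indicator (fun _ => 2 / 5 * w) h ≤ 2 / 5 * w :=
          Set.indicator_le_self' (fun _ _ => by linarith) h
        linarith
  have hi1 : IntegrableOn ((Ico a x).indicator (fun _ => 10 * w + δ + E)) (Icc a b) ν :=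
    (integrableOn_const (measure_ne_top _ _)).indicator measurableSet_Ico
  have hi2 : IntegrableOn ((Ico c c').indicator (fun _ => D)) (Icc a b) ν :=
    (integrableOn_const (measure_ne_top _ _)).indicator measurableSet_Ico
  have hi3 : IntegrableOn (({x} : Set ℝ).indicator (fun _ => 2 / 5 * w)) (Icc a b) ν :=
    (integrableOn_const (measure_ne_top _ _)).indicator (measurableSet_singleton x)
  have hT := cost_integrableOn ν (node c l r) a b
  have hle := setIntegral_mono_on (cost_integrableOn ν (node c' G r) a b)
    ((hT.add (hi1.add hi2)).sub hi3) measurableSet_Icc hpt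
  rw [integral_sub' (hT.add (hi1.add hi2)) hi3, integral_add' hT (hi1.add hi2),
    integral_add' hi1 hi2, setIntegral_indicator measurableSet_Ico,
    setIntegral_indicator measurableSet_Ico, setIntegral_indicator (measurableSet_singleton x),
    setIntegral_const, setIntegral_const, setIntegral_const, smul_eq_mul, smul_eq_mul,
    smul_eq_mul] at hle
  have e1 : Icc a b ∩ Ico a x = Ico a x :=
    inter_eq_self_of_subset_right fun h hh => ⟨hh.1, hh.2.le.trans hxb⟩
  have e2 : Icc a b ∩ Ico c c' = Ico c c' :=
    inter_eq_self_of_subset_right fun h hh => ⟨by linarith [hh.1], by linarith [hh.2]⟩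
  have e3 : Icc a b ∩ {x} = {x} :=
    inter_eq_self_of_subset_right (by rw [Set.singleton_subset_iff]; exact ⟨hax.le, hxb⟩)
  rw [e1, e2, e3] at hle
  have e4 : ν.real (Ico c c') * D ≤ ν.real (Ico c (x - w / 2)) * D :=
    mul_le_mul_of_nonneg_right (measureReal_mono (Ico_subset_Ico_right hc2.le)) hD0
  linarith

end Pool.Agent.HighLow
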