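import Pool.Agent.HighLow_e5c6.Leftmost

/-!
# The continuous high-low game: optimal hider strategies near the endpoint

If `ν` is optimal for the hider then `∫_{h<y} h dν` is small compared with `y ν[0,y)` as `y → 0`.
-/

set_option autoImplicit false

namespace Pool.Agent.HighLow

open MeasureTheory Set Filter Topology
open scoped ENNReal

/-- The hidden numbers below `y`. -/
def lowSet (y : ℝ) : Set (Icc (0 : ℝ) 1) := {h | (h : ℝ) < y}

lemma measurableSet_lowSet (y : ℝ) : MeasurableSet (lowSet y) :=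
  measurableSet_lt measurable_subtype_coe measurable_const

lemma isOpen_lowSet (y : ℝ) : IsOpen (lowSet y) :=
  isOpen_lt continuous_subtype_val continuous_const

lemma lowSet_pos {ν : ProbabilityMeasure (Icc (0 : ℝ) 1)} (hν : guaranteed ν = maximin) {y : ℝ}
    (hy : 0 < y) : 0 < (ν : Measure (Icc (0 : ℝ) 1)) (lowSet y) :=
  optimal_pos hν (isOpen_lowSet y) ⟨0, hy⟩

lemma exists_lower (n : ℕ) (g : Strategy) (H : ∀ i < n, 0 < (lg g i : ℝ)) :
    ∃ δ : ℝ, 0 < δ ∧ ∀ i < n, δ ≤ lg g i := by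
  induction n with
  | zero => exact ⟨1, one_pos, fun i hi => by omega⟩
  | succ n ihn =>
    obtain ⟨δ, hδ0, hδ⟩ := ihn (fun m hm => H m (by omega))
    refine ⟨min δ (lg g n), lt_min hδ0 (H n (by omega)), fun i hi => ?_⟩
    rcases Nat.lt_or_ge i n with h | h
    · exact (min_le_left _ _).trans (hδ i h)
    · rw [show i = n by omega]; exact min_le_right _ _

section best

variable {ν : ProbabilityMeasure (Icc (0 : ℝ) 1)} (hν : guaranteed ν = maximin) {g : Strategy}
  (hg : ∫⁻ h, payoff g h ∂(ν : Measure (Icc (0 : ℝ) 1)) = maximin)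

include hν hg

/-- A best response loses little below `y` after the leftmost guesses above `y`. -/
lemma rest_le {y : ℝ} (hy0 : 0 < y) (hy1 : y ≤ 1) {n : ℕ} (h1 : ∀ i < n, y < lg g i)
    (h2 : (lg g n : ℝ) ≤ y) :
    ∫⁻ h in lowSet y, payoff (subs n g) h ∂(ν : Measure (Icc (0 : ℝ) 1)) ≤
      ENNReal.ofReal (2 * y) * (ν : Measure (Icc (0 : ℝ) 1)) (lowSet y) := by
  set μ : Measure (Icc (0 : ℝ) 1) := (ν : Measure (Icc (0 : ℝ) 1)) with hμ
  set A := lowSet y with hA
  have hAm : MeasurableSet A := measurableSet_lowSet y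
  set yy : Icc (0 : ℝ) 1 := ⟨y, hy0.le, hy1⟩ with hyy
  set r : Strategy := nodeS yy (bisS 0 y) (sub (subs n g) true) with hr
  set g' : Strategy := graft n g r with hg'
  -- payoff of the modified strategy
  have hlow : ∀ h ∈ A, payoff g' h ≤ lpay n g h + ENNReal.ofReal (2 * y) := by
    intro h hh
    have hhy : (h : ℝ) < y := hh
    rw [hg', payoff_graft_above n g r h (fun i hi => by
      show (h : ℝ) < lg g i
      linarith [h1 i hi])]
    gcongr
    have h3 : h < r [] := hhy
    rw [payoff_of_gt h3]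
    have e : sub r false = bisS 0 y := rfl
    rw [e]
    have e2 : ((r [] : Icc (0 : ℝ) 1) : ℝ) = y := rfl
    rw [e2]
    calc ENNReal.ofReal (y - h) + payoff (bisS 0 y) h
        ≤ ENNReal.ofReal y + ENNReal.ofReal y := by
          refine add_le_add (ENNReal.ofReal_le_ofReal (by linarith [h.2.1])) ?_
          have := payoff_bisS (a := 0) (b := y) le_rfl hy1 h h.2.1 hhy.le
          rwa [sub_zero] at this
      _ = ENNReal.ofReal (2 * y) := by
          rw [← ENNReal.ofReal_add hy0.le hy0.le, two_mul]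
  have hhigh : ∀ h ∈ Aᶜ, payoff g' h ≤ payoff g h := by
    intro h hh
    have hhy : y ≤ (h : ℝ) := not_lt.1 hh
    by_cases hex : ∃ i < n, lg g i ≤ h
    · rw [hg', payoff_graft_below n g r h hex]
    · push Not at hex
      rw [hg', payoff_graft_above n g r h hex, payoff_above n g h hex]
      gcongr
      rcases hhy.eq_or_lt with he | hlt
      · have : r [] = h := Subtype.ext he
        rw [payoff_of_eq this]
        exact zero_le
      · have h3 : r [] < h := hlt
        have h4 : subs n g [] < h := by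
          show ((subs n g [] : Icc (0 : ℝ) 1) : ℝ) < h
          exact lt_of_le_of_lt h2 hlt
        rw [payoff_of_lt h3, payoff_of_lt h4]
        have e : sub r true = sub (subs n g) true := rfl
        rw [e]
        refine add_le_add (ENNReal.ofReal_le_ofReal ?_) le_rfl
        have e2 : ((r [] : Icc (0 : ℝ) 1) : ℝ) = y := rfl
        have e3 : ((subs n g [] : Icc (0 : ℝ) 1) : ℝ) ≤ y := h2
        rw [e2]
        linarith
  -- compare the integrals
  have hmp : Measurable (fun h : Icc (0 : ℝ) 1 => lpay n g h) := by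
    unfold lpay
    refine Finset.measurable_sum _ fun i _ => ?_
    exact ENNReal.measurable_ofReal.comp (measurable_const.sub measurable_subtype_coe)
  have hv : maximin ≤ ∫⁻ h, payoff g' h ∂μ := by rw [← hν]; exact guaranteed_le ν g'
  have hsplit : ∫⁻ h, payoff g h ∂μ = (∫⁻ h in A, lpay n g h ∂μ +
      ∫⁻ h in A, payoff (subs n g) h ∂μ) + ∫⁻ h in Aᶜ, payoff g h ∂μ := by
    rw [← lintegral_add_compl _ hAm, ← lintegral_add_left hmp]
    congr 1
    refine setLIntegral_congr_fun hAm fun h hh => ?_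
    have hhy : (h : ℝ) < y := hh
    exact payoff_above n g h (fun i hi => by
      show (h : ℝ) < lg g i
      linarith [h1 i hi])
  have hsplit' : ∫⁻ h, payoff g' h ∂μ ≤ (∫⁻ h in A, lpay n g h ∂μ +
      ENNReal.ofReal (2 * y) * μ A) + ∫⁻ h in Aᶜ, payoff g h ∂μ := by
    rw [← lintegral_add_compl _ hAm]
    refine add_le_add ?_ (setLIntegral_mono' hAm.compl hhigh)
    calc ∫⁻ h in A, payoff g' h ∂μ ≤ ∫⁻ h in A, (lpay n g h + ENNReal.ofReal (2 * y)) ∂μ :=
          setLIntegral_mono' hAm hlow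
      _ = _ := by rw [lintegral_add_left hmp, setLIntegral_const]
  have hfin : (∫⁻ h in A, lpay n g h ∂μ + ∫⁻ h in A, payoff (subs n g) h ∂μ) +
      ∫⁻ h in Aᶜ, payoff g h ∂μ ≠ ∞ := by
    rw [← hsplit, hg]; exact maximin_ne_top
  have hf1 : ∫⁻ h in Aᶜ, payoff g h ∂μ ≠ ∞ := (ENNReal.add_ne_top.1 hfin).2
  have hf2 : ∫⁻ h in A, lpay n g h ∂μ ≠ ∞ := (ENNReal.add_ne_top.1 (ENNReal.add_ne_top.1 hfin).1).1
  have hkey := hsplit.symm.le.trans ((hg.trans_le hv).trans hsplit')
  exact (ENNReal.add_le_add_iff_left hf2).1 ((ENNReal.add_le_add_iff_right hf1).1 hkey)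

/-- The leftmost guesses of a best response never hit the endpoint `0`. -/
lemma lg_pos (n : ℕ) : 0 < (lg g n : ℝ) := by
  induction n using Nat.strong_induction_on with
  | _ n ih =>
    by_contra hcon
    have h0 : (lg g n : ℝ) = 0 := le_antisymm (not_lt.1 hcon) (lg g n).2.1
    set μ : Measure (Icc (0 : ℝ) 1) := (ν : Measure (Icc (0 : ℝ) 1)) with hμ
    -- a positive lower bound for the earlier guesses
    obtain ⟨δ, hδ0, hδ⟩ := exists_lower n g ih
    set r : Strategy := sub (subs n g) true with hr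
    have hna : μ {(0 : Icc (0 : ℝ) 1)} = 0 := optimal_nonatomic hν 0
    have hAm : MeasurableSet (lowSet δ) := measurableSet_lowSet δ
    have hae : ∀ᵐ h ∂μ, payoff (graft n g r) h +
        (lowSet δ).indicator (fun h : Icc (0 : ℝ) 1 => ENNReal.ofReal h) h ≤ payoff g h := by
      filter_upwards [measure_eq_zero_iff_ae_notMem.1 hna] with h hh
      have hhpos : (0 : ℝ) < h := lt_of_le_of_ne h.2.1 (fun he => hh (by
        rw [mem_singleton_iff]; exact Subtype.ext he.symm))
      by_cases hex : ∃ i < n, lg g i ≤ h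
      · rw [payoff_graft_below n g r h hex]
        obtain ⟨i, hi, hle⟩ := hex
        have : h ∉ lowSet δ := by
          intro hcon2
          have h3 : (h : ℝ) < δ := hcon2
          have h4 : (lg g i : ℝ) ≤ h := hle
          linarith [hδ i hi]
        rw [indicator_of_notMem this, add_zero]
      · push Not at hex
        rw [payoff_graft_above n g r h hex, payoff_above n g h hex, add_assoc]
        gcongr
        have h4 : subs n g [] < h := by
          show ((subs n g [] : Icc (0 : ℝ) 1) : ℝ) < h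
          have : ((subs n g [] : Icc (0 : ℝ) 1) : ℝ) = 0 := h0
          rw [this]; exact hhpos
        rw [payoff_of_lt h4, add_comm]
        gcongr
        have e3 : ((subs n g [] : Icc (0 : ℝ) 1) : ℝ) = 0 := h0
        rw [e3, sub_zero]
        exact indicator_le_self' (fun _ _ => zero_le) h
    have hv : maximin ≤ ∫⁻ h, payoff (graft n g r) h ∂μ := by
      rw [← hν]; exact guaranteed_le ν _
    have h5 : ∫⁻ h, payoff (graft n g r) h ∂μ +
        ∫⁻ h in lowSet δ, ENNReal.ofReal h ∂μ ≤ maximin := by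
      rw [← hg, ← lintegral_indicator hAm, ← lintegral_add_left (measurable_payoff_right _)]
      exact lintegral_mono_ae hae
    have h6 : ∫⁻ h in lowSet δ, ENNReal.ofReal (h : Icc (0 : ℝ) 1) ∂μ = 0 := by
      have h7 : maximin + ∫⁻ h in lowSet δ, ENNReal.ofReal (h : Icc (0 : ℝ) 1) ∂μ ≤ maximin + 0 := by
        rw [add_zero]
        exact (add_le_add hv le_rfl).trans h5
      exact le_antisymm ((ENNReal.add_le_add_iff_left maximin_ne_top).1 h7) zero_le
    have hmh : Measurable (fun h : Icc (0 : ℝ) 1 => ENNReal.ofReal (h : ℝ)) :=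
      ENNReal.measurable_ofReal.comp measurable_subtype_coe
    rw [lintegral_eq_zero_iff hmh] at h6
    have h8 : μ (lowSet δ ∩ {0}ᶜ) = 0 := by
      rw [Filter.EventuallyEq, ae_iff, Measure.restrict_apply₀'
        hAm.nullMeasurableSet] at h6
      refine measure_mono_null ?_ h6
      rintro h ⟨hh1, hh2⟩
      refine ⟨?_, hh1⟩
      intro hcon2
      have h9 : ENNReal.ofReal (h : ℝ) = 0 := hcon2
      rw [ENNReal.ofReal_eq_zero] at h9
      exact hh2 (Subtype.ext (le_antisymm h9 h.2.1))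
    have h10 : μ (lowSet δ) = 0 := by
      have h11 : lowSet δ ⊆ (lowSet δ ∩ {0}ᶜ) ∪ {0} := by
        intro h hh
        by_cases hc : h = 0
        · right; exact hc
        · left; exact ⟨hh, hc⟩
      exact measure_mono_null h11 (measure_union_null h8 hna)
    exact absurd h10 (lowSet_pos hν hδ0).ne'

/-- The main inequality for one best response. -/
lemma best_ineq {y : ℝ} (hy0 : 0 < y) (hy1 : y ≤ 1) {m : ℕ} (hm : ∀ i < m, y < lg g i) :
    ∫⁻ h in lowSet y, payoff g h ∂(ν : Measure (Icc (0 : ℝ) 1)) +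
      m * ∫⁻ h in lowSet y, ENNReal.ofReal h ∂(ν : Measure (Icc (0 : ℝ) 1)) ≤
      payoff g 0 * (ν : Measure (Icc (0 : ℝ) 1)) (lowSet y) +
      ENNReal.ofReal (2 * y) * (ν : Measure (Icc (0 : ℝ) 1)) (lowSet y) := by
  set μ : Measure (Icc (0 : ℝ) 1) := (ν : Measure (Icc (0 : ℝ) 1)) with hμ
  -- the first leftmost guess at most `y`
  have hex : ∃ n, (lg g n : ℝ) ≤ y := by
    by_contra hcon
    have h1 : ∀ h ∈ lowSet y, payoff g h = ∞ := by
      intro h hh
      by_contra hne
      exact hcon (exists_lg_le hh hne)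
    have h2 : ∫⁻ h in lowSet y, payoff g h ∂μ = ∞ := by
      rw [setLIntegral_congr_fun (measurableSet_lowSet y) h1, setLIntegral_const,
        ENNReal.top_mul (lowSet_pos hν hy0).ne']
    have h3 : ∫⁻ h in lowSet y, payoff g h ∂μ ≤ maximin := by
      rw [← hg]; exact setLIntegral_le_lintegral _ _
    rw [h2] at h3
    exact maximin_ne_top (top_le_iff.1 h3)
  classical
  set n := Nat.find hex with hn
  have hn1 : (lg g n : ℝ) ≤ y := Nat.find_spec hex
  have hn2 : ∀ i < n, y < lg g i := fun i hi => not_le.1 (Nat.find_min hex hi)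
  have hmn : m ≤ n := by
    by_contra hcon
    push Not at hcon
    exact absurd (hm n hcon) (not_lt.2 hn1)
  have hrest := rest_le hν hg hy0 hy1 hn2 hn1
  have hmh : Measurable (fun h : Icc (0 : ℝ) 1 => ENNReal.ofReal (h : ℝ)) :=
    ENNReal.measurable_ofReal.comp measurable_subtype_coe
  calc ∫⁻ h in lowSet y, payoff g h ∂μ + m * ∫⁻ h in lowSet y, ENNReal.ofReal h ∂μ
      ≤ ∫⁻ h in lowSet y, payoff g h ∂μ + n * ∫⁻ h in lowSet y, ENNReal.ofReal h ∂μ := by
        gcongr
    _ = ∫⁻ h in lowSet y, (payoff g h + n * ENNReal.ofReal h) ∂μ := by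
        rw [lintegral_add_left (measurable_payoff_right g), lintegral_const_mul _ hmh]
    _ ≤ ∫⁻ h in lowSet y, (payoff g 0 + payoff (subs n g) h) ∂μ :=
        setLIntegral_mono' (measurableSet_lowSet y) fun h hh => payoff_add_le hn2 hh
    _ = payoff g 0 * μ (lowSet y) + ∫⁻ h in lowSet y, payoff (subs n g) h ∂μ := by
        rw [lintegral_add_left measurable_const, setLIntegral_const]
    _ ≤ _ := add_le_add le_rfl hrest

end best

/-- The strategies whose first `m` leftmost guesses exceed `y`. -/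
def topSet (m : ℕ) (y : ℝ) : Set Strategy := {g | ∀ i < m, y < (lg g i : ℝ)}

lemma measurableSet_topSet (m : ℕ) (y : ℝ) : MeasurableSet (topSet m y) := by
  have e : topSet m y = ⋂ i : ℕ, ⋂ _ : i < m, {g : Strategy | y < (lg g i : ℝ)} := by
    ext g
    simp only [topSet, Set.mem_ofPred_eq, mem_iInter]
  rw [e]
  exact MeasurableSet.iInter fun i => MeasurableSet.iInter fun _ =>
    measurableSet_lt measurable_const (measurable_subtype_coe.comp (measurable_lg i))

/-- Almost every pure strategy in the support of an optimal mixed strategy is a best response. -/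
lemma best_ae {ν : ProbabilityMeasure (Icc (0 : ℝ) 1)} (hν : guaranteed ν = maximin)
    {σ : ProbabilityMeasure Strategy} (hσ : ∀ h, redCost σ h ≤ maximin) :
    ∀ᵐ g ∂(σ : Measure Strategy),
      ∫⁻ h, payoff g h ∂(ν : Measure (Icc (0 : ℝ) 1)) = maximin := by
  have hmeas : Measurable (fun g : Strategy => ∫⁻ h, payoff g h ∂(ν : Measure (Icc (0 : ℝ) 1))) :=
    measurable_payoff.lintegral_prod_left'
  have h1 : ∀ g : Strategy, maximin ≤ ∫⁻ h, payoff g h ∂(ν : Measure (Icc (0 : ℝ) 1)) := by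
    intro g; rw [← hν]; exact guaranteed_le ν g
  have h2 : ∫⁻ g, ∫⁻ h, payoff g h ∂(ν : Measure (Icc (0 : ℝ) 1)) ∂(σ : Measure Strategy) ≤
      ∫⁻ _, maximin ∂(σ : Measure Strategy) := by
    rw [← expectedPayoff_eq]
    simpa using expectedPayoff_le hσ ν
  have h3 := ae_eq_of_ae_le_of_lintegral_le (μ := (σ : Measure Strategy))
    (f := fun _ => maximin) (Filter.Eventually.of_forall h1) (by simpa using maximin_ne_top)
    hmeas.aemeasurable h2
  filter_upwards [h3] with g hg
  exact hg.symm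

/-- The main inequality after integration over an optimal mixed strategy. -/
lemma main_ineq {ν : ProbabilityMeasure (Icc (0 : ℝ) 1)} (hν : guaranteed ν = maximin)
    {σ : ProbabilityMeasure Strategy} (hσ : ∀ h, redCost σ h ≤ maximin) {y : ℝ} (hy0 : 0 < y)
    (hy1 : y ≤ 1) (m : ℕ) :
    (m * (σ : Measure Strategy) (topSet m y)) *
      ∫⁻ h in lowSet y, ENNReal.ofReal h ∂(ν : Measure (Icc (0 : ℝ) 1)) ≤
      ENNReal.ofReal (2 * y) * (ν : Measure (Icc (0 : ℝ) 1)) (lowSet y) := by
  set μ : Measure (Icc (0 : ℝ) 1) := (ν : Measure (Icc (0 : ℝ) 1)) with hμ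
  set S : Measure Strategy := (σ : Measure Strategy) with hS
  set I : ℝ≥0∞ := ∫⁻ h in lowSet y, ENNReal.ofReal h ∂μ with hI
  have hAm := measurableSet_lowSet y
  have hBm := measurableSet_topSet m y
  have hm1 : Measurable (fun g : Strategy => ∫⁻ h in lowSet y, payoff g h ∂μ) :=
    measurable_payoff.lintegral_prod_left'
  have hm2 : Measurable (fun g : Strategy => payoff g 0) := measurable_payoff_left 0
  have key : ∀ᵐ g ∂S, ∫⁻ h in lowSet y, payoff g h ∂μ +
      (topSet m y).indicator (fun _ => (m : ℝ≥0∞) * I) g ≤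
      payoff g 0 * μ (lowSet y) + ENNReal.ofReal (2 * y) * μ (lowSet y) := by
    filter_upwards [best_ae hν hσ] with g hg
    by_cases hgB : g ∈ topSet m y
    · rw [indicator_of_mem hgB]
      exact best_ineq hν hg hy0 hy1 hgB
    · rw [indicator_of_notMem hgB]
      have h1 := best_ineq hν hg hy0 hy1 (m := 0) (fun i hi => absurd hi (Nat.not_lt_zero i))
      simpa using h1
  have h1 := lintegral_mono_ae key
  rw [lintegral_add_left hm1, lintegral_indicator hBm, setLIntegral_const,
    lintegral_add_left (hm2.mul_const _), lintegral_mul_const _ hm2, lintegral_const] at h1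
  -- the first term
  have h2 : ∫⁻ g, ∫⁻ h in lowSet y, payoff g h ∂μ ∂S = maximin * μ (lowSet y) := by
    have e1 : ∫⁻ g, ∫⁻ h in lowSet y, payoff g h ∂μ ∂S =
        ∫⁻ h in lowSet y, ∫⁻ g, payoff g h ∂S ∂μ :=
      lintegral_lintegral_swap (measurable_payoff.comp measurable_swap).aemeasurable
    rw [e1]
    have e2 : ∫⁻ h in lowSet y, ∫⁻ g, payoff g h ∂S ∂μ = ∫⁻ h in lowSet y, maximin ∂μ := by
      refine setLIntegral_congr_fun_ae hAm ?_
      filter_upwards [equalise_ae hν hσ] with h hh _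
      exact hh
    rw [e2, setLIntegral_const]
  have h3 : ∫⁻ g, payoff g 0 ∂S ≤ maximin := hσ 0
  rw [h2, measure_univ, mul_one] at h1
  have h4 : maximin * μ (lowSet y) + (m : ℝ≥0∞) * I * S (topSet m y) ≤
      maximin * μ (lowSet y) + ENNReal.ofReal (2 * y) * μ (lowSet y) :=
    h1.trans (add_le_add (mul_le_mul_left h3 _) le_rfl)
  have h5 : maximin * μ (lowSet y) ≠ ∞ := ENNReal.mul_ne_top maximin_ne_top (measure_ne_top _ _)
  have h6 := (ENNReal.add_le_add_iff_left h5).1 h4
  calc (m * S (topSet m y)) * I = (m : ℝ≥0∞) * I * S (topSet m y) := by ring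
    _ ≤ _ := h6

/-- With probability at least one half the first `m` leftmost guesses are bounded away
from `0`. -/
lemma exists_topSet {ν : ProbabilityMeasure (Icc (0 : ℝ) 1)} (hν : guaranteed ν = maximin)
    {σ : ProbabilityMeasure Strategy} (hσ : ∀ h, redCost σ h ≤ maximin) (m : ℕ) :
    ∃ y₀ : ℝ, 0 < y₀ ∧ y₀ ≤ 1 ∧ ∀ y ≤ y₀, 1 / 2 ≤ (σ : Measure Strategy) (topSet m y) := by
  set S : Measure Strategy := (σ : Measure Strategy) with hS
  set s : ℕ → ℝ := fun k => 1 / ((k : ℝ) + 1) with hs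
  have hs0 : ∀ k, 0 < s k := fun k => by positivity
  have hmono : Monotone (fun k => topSet m (s k)) := by
    intro k l hkl g hg i hi
    refine lt_of_le_of_lt ?_ (hg i hi)
    simp only [hs]
    apply one_div_le_one_div_of_le (by positivity)
    have : (k : ℝ) ≤ l := by exact_mod_cast hkl
    linarith
  have hlim := tendsto_measure_iUnion_atTop (μ := S) hmono
  have hfull : S (⋃ k, topSet m (s k)) = 1 := by
    rw [← prob_compl_eq_zero_iff (MeasurableSet.iUnion fun k => measurableSet_topSet m (s k))]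
    have h1 : ∀ᵐ g ∂S, g ∈ ⋃ k, topSet m (s k) := by
      filter_upwards [best_ae hν hσ] with g hg
      obtain ⟨δ, hδ0, hδ⟩ := exists_lower m g (fun i _ => lg_pos hν hg i)
      obtain ⟨k, hk⟩ := exists_nat_one_div_lt hδ0
      rw [mem_iUnion]
      exact ⟨k, fun i hi => lt_of_lt_of_le hk (hδ i hi)⟩
    exact measure_eq_zero_iff_ae_notMem.2 (by
      filter_upwards [h1] with g hg
      exact fun hc => hc hg)
  rw [hfull] at hlim
  have h2 : ∀ᶠ k in atTop, 1 / 2 < S (topSet m (s k)) :=
    hlim.eventually (lt_mem_nhds (by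
      rw [one_div]; exact ENNReal.inv_lt_one.2 (by norm_num)))
  obtain ⟨k, hk⟩ := h2.exists
  refine ⟨s k, hs0 k, ?_, fun y hy => hk.le.trans (measure_mono ?_)⟩
  · simp only [hs]
    rw [div_le_one (by positivity)]
    have := Nat.cast_nonneg (α := ℝ) k
    linarith
  · intro g hg i hi
    exact lt_of_le_of_lt hy (hg i hi)

/-- **The first moment near the endpoint is small.** -/
theorem moment_small {ν : ProbabilityMeasure (Icc (0 : ℝ) 1)} (hν : guaranteed ν = maximin)
    (m : ℕ) : ∃ y₀ : ℝ, 0 < y₀ ∧ y₀ ≤ 1 ∧ ∀ y, 0 < y → y ≤ y₀ →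
      m * ∫⁻ h in lowSet y, ENNReal.ofReal h ∂(ν : Measure (Icc (0 : ℝ) 1)) ≤
      ENNReal.ofReal (4 * y) * (ν : Measure (Icc (0 : ℝ) 1)) (lowSet y) := by
  obtain ⟨σ, hσ⟩ := exists_red_optimal
  obtain ⟨y₀, h0, h1, h2⟩ := exists_topSet hν hσ m
  refine ⟨y₀, h0, h1, fun y hy0 hy => ?_⟩
  have h3 := main_ineq hν hσ hy0 (hy.trans h1) m
  have h4 : (m * (1 / 2 : ℝ≥0∞)) * ∫⁻ h in lowSet y, ENNReal.ofReal h
      ∂(ν : Measure (Icc (0 : ℝ) 1)) ≤
      ENNReal.ofReal (2 * y) * (ν : Measure (Icc (0 : ℝ) 1)) (lowSet y) :=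
    (mul_le_mul_left (mul_le_mul_right (h2 y hy) _) _).trans h3
  have h5 := mul_le_mul_right h4 (2 : ℝ≥0∞)
  calc (m : ℝ≥0∞) * ∫⁻ h in lowSet y, ENNReal.ofReal h ∂(ν : Measure (Icc (0 : ℝ) 1))
      = 2 * ((m * (1 / 2 : ℝ≥0∞)) * ∫⁻ h in lowSet y, ENNReal.ofReal h
          ∂(ν : Measure (Icc (0 : ℝ) 1))) := by
        rw [← mul_assoc, ← mul_assoc, mul_comm (2 : ℝ≥0∞) (m : ℝ≥0∞), mul_assoc (m : ℝ≥0∞)]
        rw [one_div, ENNReal.mul_inv_cancel (by norm_num) (by norm_num), mul_one]
    _ ≤ 2 * (ENNReal.ofReal (2 * y) * (ν : Measure (Icc (0 : ℝ) 1)) (lowSet y)) := h5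
    _ = _ := by
        rw [← mul_assoc, show (2 : ℝ≥0∞) = ENNReal.ofReal 2 by simp,
          ← ENNReal.ofReal_mul (by norm_num)]
        congr 2
        ring

end Pool.Agent.HighLow
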