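import Pool.Agent.HighLow_e5c6.Trunc

/-!
# The relaxed value is at most the maximin value

For an arbitrary probability measure on `[0, 1]` there are finite trees with null cuts whose cost
is at most the maximin value plus `ε`.
-/

set_option autoImplicit false
set_option linter.unusedSectionVars false
set_option linter.unusedVariables false

namespace Pool.Agent.HighLow

open MeasureTheory Set STree Filter Topology
open scoped ENNReal

lemma maximin_ne_top : maximin ≠ ∞ := ne_top_of_le_ne_top ENNReal.one_ne_top maximin_le_one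

/-- The maximin value as a real number. -/
noncomputable def vR : ℝ := maximin.toReal

lemma vR_nonneg : 0 ≤ vR := ENNReal.toReal_nonneg

lemma vR_le_one : vR ≤ 1 := by
  unfold vR
  have := (ENNReal.toReal_le_toReal maximin_ne_top ENNReal.one_ne_top).2 maximin_le_one
  simpa using this

lemma ofReal_vR : ENNReal.ofReal vR = maximin := ENNReal.ofReal_toReal maximin_ne_top

/-- A probability measure on `ℝ` carried by `[0, 1]`, as a measure on the interval. -/
lemma isProb_comap {μ : Measure ℝ} [IsProbabilityMeasure μ] (hμ : μ (Icc 0 1)ᶜ = 0) :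
    IsProbabilityMeasure (μ.comap ((↑) : Icc (0 : ℝ) 1 → ℝ)) := by
  constructor
  rw [Measure.comap_apply _ Subtype.val_injective
    (fun s hs => (MeasurableEmbedding.subtype_coe measurableSet_Icc).measurableSet_image.2 hs) _
    MeasurableSet.univ, image_univ, Subtype.range_coe]
  have h1 : μ (Icc 0 1) + μ (Icc 0 1)ᶜ = 1 := by
    rw [measure_add_measure_compl measurableSet_Icc, measure_univ]
  rwa [hμ, add_zero] at h1

lemma comap_singleton {μ : Measure ℝ} (h : Icc (0 : ℝ) 1) :
    (μ.comap ((↑) : Icc (0 : ℝ) 1 → ℝ)) {h} = μ {(h : ℝ)} := by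
  rw [Measure.comap_apply _ Subtype.val_injective
    (fun s hs => (MeasurableEmbedding.subtype_coe measurableSet_Icc).measurableSet_image.2 hs) _
    (measurableSet_singleton h), image_singleton]

lemma int_cost_eq_lint (μ : Measure ℝ) [IsFiniteMeasure μ] (T : STree) :
    ENNReal.ofReal (∫ h in Icc 0 1, cost T 0 1 h ∂μ) =
      ∫⁻ h in Icc 0 1, ENNReal.ofReal (cost T 0 1 h) ∂μ := by
  refine ofReal_integral_eq_lintegral_ofReal (cost_integrableOn μ T 0 1) ?_
  filter_upwards [ae_restrict_mem measurableSet_Icc] with h hh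
  exact cost_nonneg T hh.1 hh.2

lemma null_of_nonatomic {μ : Measure ℝ} (hμ : ∀ y : ℝ, μ {y} = 0) (T : STree) : Null μ T := by
  induction T with
  | leaf => trivial
  | node c l r ihl ihr => exact ⟨hμ c, ihl, ihr⟩

/-- The nonatomic case. -/
lemma relaxed_le_of_nonatomic (μ : Measure ℝ) [IsProbabilityMeasure μ] (hμ : μ (Icc 0 1)ᶜ = 0)
    (hna : ∀ y : ℝ, μ {y} = 0) {ε : ℝ} (hε : 0 < ε) :
    ∃ T, Null μ T ∧ ∫ h in Icc 0 1, cost T 0 1 h ∂μ ≤ vR + ε := by
  haveI := isProb_comap hμ
  set ν : ProbabilityMeasure (Icc (0 : ℝ) 1) := ⟨μ.comap ((↑) : Icc (0 : ℝ) 1 → ℝ), this⟩ with hν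
  have h1 : guaranteed ν ≤ maximin := le_iSup guaranteed ν
  have h2 : guaranteed ν < ENNReal.ofReal (vR + ε / 2) := by
    refine lt_of_le_of_lt h1 ?_
    rw [← ofReal_vR]
    exact (ENNReal.ofReal_lt_ofReal_iff (by have := vR_nonneg; linarith)).2 (by linarith)
  obtain ⟨g, hg⟩ := exists_near_guaranteed ν h2
  obtain ⟨T, hT⟩ := exists_trunc (μ.comap ((↑) : Icc (0 : ℝ) 1 → ℝ))
    (fun h => by rw [comap_singleton]; exact hna _) g (A := vR + ε / 2)
    (by have := vR_nonneg; linarith) hg.le (ε := ε / 2) (by linarith)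
  refine ⟨T, null_of_nonatomic hna T, ?_⟩
  have h3 : ENNReal.ofReal (∫ h in Icc 0 1, cost T 0 1 h ∂μ) ≤ ENNReal.ofReal (vR + ε) := by
    rw [int_cost_eq_lint, ← lintegral_subtype_comap measurableSet_Icc
      (fun h => ENNReal.ofReal (cost T 0 1 h))]
    refine hT.trans (le_of_eq ?_)
    congr 1
    ring
  exact (ENNReal.ofReal_le_ofReal_iff (by have := vR_nonneg; linarith)).1 h3

/-- Affine image of a tree. -/
noncomputable def mapT (s r : ℝ) : STree → STree
  | leaf => leaf
  | node c l r' => node (s * c + r) (mapT s r l) (mapT s r r')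

lemma cost_mapT {s r : ℝ} (hs : 0 < s) (T : STree) : ∀ (a b h : ℝ),
    cost (mapT s r T) (s * a + r) (s * b + r) (s * h + r) = s * cost T a b h := by
  have hmin : ∀ p q : ℝ, min (s * p + r) (s * q + r) = s * min p q + r := by
    intro p q
    rcases le_total p q with h | h
    · rw [min_eq_left h, min_eq_left (by nlinarith)]
    · rw [min_eq_right h, min_eq_right (by nlinarith)]
  have hmax : ∀ p q : ℝ, max (s * p + r) (s * q + r) = s * max p q + r := by
    intro p q
    rcases le_total p q with h | h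
    · rw [max_eq_right h, max_eq_right (by nlinarith)]
    · rw [max_eq_left h, max_eq_left (by nlinarith)]
  induction T with
  | leaf => intro a b h; simp only [mapT, cost_leaf]; ring
  | node c l r' ihl ihr =>
    intro a b h
    rw [mapT, cost_node, cost_node, hmin, hmax]
    have h1 : s * h + r < s * c + r ↔ h < c := by
      constructor
      · intro h2; by_contra h3; nlinarith
      · intro h2; nlinarith
    have h2 : |s * c + r - (s * h + r)| = s * |c - h| := by
      rw [show s * c + r - (s * h + r) = s * (c - h) by ring, abs_mul, abs_of_pos hs]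
    rw [h2, ihl, ihr]
    simp only [h1]
    split_ifs <;> ring

lemma null_mapT_countable (μ : Measure ℝ) [IsFiniteMeasure μ] {δ : ℝ} (hδ : 0 < δ) (T : STree) :
    {U : ℝ | ¬ Null μ (mapT (1 + δ) (-(δ * U)) T)}.Countable := by
  induction T with
  | leaf =>
    have : {U : ℝ | ¬ Null μ (mapT (1 + δ) (-(δ * U)) leaf)} = ∅ := by
      ext U; simp [mapT, Null, All]
    rw [this]
    exact countable_empty
  | node c l r ihl ihr =>
    have hat : Set.Countable {y : ℝ | μ {y} ≠ 0} := by
      have hc : Set.Countable {c : ℝ | 0 < μ {a : ℝ | (fun y : ℝ => y) a = c}} :=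
        Measure.countable_meas_level_set_pos (μ := μ) (g := fun y : ℝ => y) measurable_id
      refine hc.mono fun y hy => ?_
      have h2 : {a : ℝ | (fun z : ℝ => z) a = y} = {y} := by ext; simp
      show 0 < μ {a : ℝ | (fun z : ℝ => z) a = y}
      rw [h2]
      exact pos_iff_ne_zero.2 hy
    have hpre : Set.Countable ((fun U : ℝ => (1 + δ) * c + -(δ * U)) ⁻¹' {y : ℝ | μ {y} ≠ 0}) := by
      refine hat.preimage_of_injOn ?_
      intro U _ U' _ h
      simp only at h
      have : δ * U = δ * U' := by linarith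
      exact mul_left_cancel₀ hδ.ne' this
    refine ((hpre.union ihl).union ihr).mono ?_
    intro U hU
    simp only [mapT, Null, All, Set.mem_ofPred_eq, not_and_or] at hU
    rcases hU with h | h | h
    · left; left; exact h
    · left; right; exact h
    · right; exact h

/-- The relaxed value of an arbitrary hider strategy is at most the maximin value. -/
theorem relaxed_le (μ : Measure ℝ) (hp : IsProbabilityMeasure μ) (hμ : μ (Icc 0 1)ᶜ = 0)
    (ε : ℝ) (hε : 0 < ε) : ∃ T, Null μ T ∧ ∫ h in Icc 0 1, cost T 0 1 h ∂μ ≤ vR + ε := by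
  set δ := min 1 (ε / 4) with hδdef
  have hδ : 0 < δ := lt_min one_pos (by linarith)
  have hδ1 : δ ≤ 1 := min_le_left _ _
  have hδε : δ ≤ ε / 4 := min_le_right _ _
  set ρ : Measure ℝ := volume.restrict (Icc 0 1) with hρ
  haveI : IsProbabilityMeasure ρ := ⟨by rw [hρ, Measure.restrict_apply_univ, Real.volume_Icc]; simp⟩
  set φ : ℝ × ℝ → ℝ := fun p => (p.1 + δ * p.2) / (1 + δ) with hφ
  have hφm : Measurable φ := by
    apply Measurable.div_const
    exact measurable_fst.add (measurable_const.mul measurable_snd)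
  set μδ : Measure ℝ := (μ.prod ρ).map φ with hμδ
  haveI : IsProbabilityMeasure μδ := Measure.isProbabilityMeasure_map hφm.aemeasurable
  have hφmem : ∀ h U : ℝ, h ∈ Icc (0 : ℝ) 1 → U ∈ Icc (0 : ℝ) 1 → φ (h, U) ∈ Icc (0 : ℝ) 1 := by
    intro h U hh hU
    simp only [hφ]
    constructor
    · apply div_nonneg _ (by linarith)
      have := mul_nonneg hδ.le hU.1
      linarith [hh.1]
    · rw [div_le_one (by linarith)]
      have := mul_le_mul_of_nonneg_left hU.2 hδ.le
      linarith [hh.2]
  have hae : ∀ᵐ p ∂(μ.prod ρ), p.1 ∈ Icc (0 : ℝ) 1 ∧ p.2 ∈ Icc (0 : ℝ) 1 := by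
    have h1 : ∀ᵐ h ∂μ, h ∈ Icc (0 : ℝ) 1 := by
      rw [ae_iff]; exact hμ
    have h2 : ∀ᵐ U ∂ρ, U ∈ Icc (0 : ℝ) 1 := ae_restrict_mem measurableSet_Icc
    have h3 := Measure.ae_prod_mem_iff_ae_ae_mem (μ := μ) (ν := ρ)
      (s := {p : ℝ × ℝ | p.1 ∈ Icc (0 : ℝ) 1 ∧ p.2 ∈ Icc (0 : ℝ) 1})
      ((measurableSet_Icc.preimage measurable_fst).inter
        (measurableSet_Icc.preimage measurable_snd))
    refine h3.2 ?_
    filter_upwards [h1] with h hh
    filter_upwards [h2] with U hU
    exact ⟨hh, hU⟩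
  have hμδc : μδ (Icc 0 1)ᶜ = 0 := by
    rw [hμδ, Measure.map_apply hφm measurableSet_Icc.compl]
    have : ∀ᵐ p ∂(μ.prod ρ), p ∉ φ ⁻¹' (Icc 0 1)ᶜ := by
      filter_upwards [hae] with p hp
      simp only [mem_preimage, mem_compl_iff, not_not]
      exact hφmem p.1 p.2 hp.1 hp.2
    exact measure_eq_zero_iff_ae_notMem.2 this
  have hna : ∀ y : ℝ, μδ {y} = 0 := by
    intro y
    rw [hμδ, Measure.map_apply hφm (measurableSet_singleton y),
      Measure.prod_apply (hφm (measurableSet_singleton y))]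
    rw [lintegral_eq_zero_iff']
    · refine Filter.Eventually.of_forall fun h => ?_
      have : (Prod.mk h ⁻¹' (φ ⁻¹' {y})) ⊆ {((1 + δ) * y - h) / δ} := by
        intro U hU
        simp only [mem_preimage, mem_singleton_iff, hφ] at hU
        rw [mem_singleton_iff, eq_div_iff hδ.ne']
        rw [div_eq_iff (by linarith)] at hU
        linarith
      refine measure_mono_null this ?_
      rw [hρ]
      exact le_antisymm ((Measure.restrict_apply_le _ _).trans (by simp)) (zero_le)
    · exact (measurable_measure_prodMk_left (hφm (measurableSet_singleton y))).aemeasurable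
  obtain ⟨T, hT, hTle⟩ := relaxed_le_of_nonatomic μδ hμδc hna (ε := ε / 4) (by linarith)
  -- rewrite as a double integral
  set f : ℝ → ℝ≥0∞ := fun y => ENNReal.ofReal (cost T 0 1 y) with hf
  have hfm : Measurable f := ENNReal.measurable_ofReal.comp (measurable_cost T 0 1)
  have h1 : ∫⁻ y in Icc 0 1, f y ∂μδ ≤ ENNReal.ofReal (vR + ε / 4) := by
    rw [← int_cost_eq_lint]
    exact ENNReal.ofReal_le_ofReal hTle
  have h2 : ∫⁻ y in Icc 0 1, f y ∂μδ = ∫⁻ U, ∫⁻ h, f (φ (h, U)) ∂μ ∂ρ := by
    have e1 : μδ.restrict (Icc 0 1) = μδ := by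
      rw [Measure.restrict_eq_self_of_ae_mem]
      rw [ae_iff]; exact hμδc
    rw [e1, hμδ, lintegral_map hfm hφm]
    exact lintegral_prod_symm (fun p => f (φ p)) (hfm.comp hφm).aemeasurable
  rw [h2] at h1
  have hmeas : AEMeasurable (fun U => ∫⁻ h, f (φ (h, U)) ∂μ) ρ :=
    (Measurable.lintegral_prod_left' (hfm.comp hφm)).aemeasurable
  have hbad : ρ {U : ℝ | ¬ Null μ (mapT (1 + δ) (-(δ * U)) T)} = 0 :=
    le_antisymm ((Measure.restrict_apply_le _ _).trans
      ((null_mapT_countable μ hδ T).measure_zero volume).le) (zero_le)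
  have hbad2 : ρ (Icc 0 1)ᶜ = 0 := by
    rw [hρ, Measure.restrict_apply measurableSet_Icc.compl]; simp
  obtain ⟨U, hU, hUle⟩ := exists_notMem_null_le_lintegral hmeas
    (measure_union_null hbad hbad2)
  rw [mem_union, not_or] at hU
  have hUn : Null μ (mapT (1 + δ) (-(δ * U)) T) := by
    by_contra hcon; exact hU.1 hcon
  have hU01 : U ∈ Icc (0 : ℝ) 1 := by
    by_contra hcon; exact hU.2 hcon
  refine ⟨mapT (1 + δ) (-(δ * U)) T, hUn, ?_⟩
  have hpt : ∀ h ∈ Icc (0 : ℝ) 1, cost (mapT (1 + δ) (-(δ * U)) T) 0 1 h ≤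
      (1 + δ) * cost T 0 1 (φ (h, U)) := by
    intro h hh
    have e1 := cost_mapT (s := 1 + δ) (r := -(δ * U)) (by linarith) T 0 1 (φ (h, U))
    have e2 : (1 + δ) * φ (h, U) + -(δ * U) = h := by
      simp only [hφ]
      field_simp
      ring
    rw [e2] at e1
    rw [← e1]
    have := mul_nonneg hδ.le hU01.1
    have := mul_le_mul_of_nonneg_left hU01.2 hδ.le
    exact cost_mono _ (by linarith) (by linarith) hh.1 hh.2
  have h3 : ENNReal.ofReal (∫ h in Icc 0 1, cost (mapT (1 + δ) (-(δ * U)) T) 0 1 h ∂μ) ≤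
      ENNReal.ofReal (vR + ε) := by
    rw [int_cost_eq_lint]
    calc ∫⁻ h in Icc 0 1, ENNReal.ofReal (cost (mapT (1 + δ) (-(δ * U)) T) 0 1 h) ∂μ
        ≤ ∫⁻ h in Icc 0 1, ENNReal.ofReal (1 + δ) * f (φ (h, U)) ∂μ := by
          refine setLIntegral_mono' measurableSet_Icc fun h hh => ?_
          rw [hf, ← ENNReal.ofReal_mul (by linarith)]
          exact ENNReal.ofReal_le_ofReal (hpt h hh)
      _ ≤ ∫⁻ h, ENNReal.ofReal (1 + δ) * f (φ (h, U)) ∂μ := setLIntegral_le_lintegral _ _
      _ = ENNReal.ofReal (1 + δ) * ∫⁻ h, f (φ (h, U)) ∂μ := by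
          rw [lintegral_const_mul']
          exact ENNReal.ofReal_ne_top
      _ ≤ ENNReal.ofReal (1 + δ) * ENNReal.ofReal (vR + ε / 4) :=
          mul_le_mul_right (hUle.trans h1) _
      _ = ENNReal.ofReal ((1 + δ) * (vR + ε / 4)) := by
          rw [← ENNReal.ofReal_mul (by linarith)]
      _ ≤ ENNReal.ofReal (vR + ε) := by
          apply ENNReal.ofReal_le_ofReal
          have h5 := vR_le_one
          have h6 := vR_nonneg
          nlinarith
  exact (ENNReal.ofReal_le_ofReal_iff (by have := vR_nonneg; linarith)).1 h3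

end Pool.Agent.HighLow
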