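import Pool.Agent.HighLow_e5c6.Scale

/-!
# Right spines of search trees and grafting
-/

set_option autoImplicit false

namespace Pool.Agent.HighLow

namespace STree

/-- The total distance to `x` of the cuts of the right spine that come before the first spine cut
`≥ θ`. -/
noncomputable def spine (x θ : ℝ) : STree → ℝ
  | leaf => 0
  | node c _ r => if c < θ then (x - c) + spine x θ r else 0

/-- Follow the right spine up to the first cut `≥ θ` and replace what comes to the right of that
cut by a leaf; if there is no such cut, insert the cut `y`. -/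
noncomputable def graft (θ y : ℝ) : STree → STree
  | leaf => node y leaf leaf
  | node c l r => if c < θ then node c l (graft θ y r) else node c l leaf

lemma graft_all {p : ℝ → Prop} {θ y : ℝ} (hy : p y) {T : STree} (hT : All p T) :
    All p (graft θ y T) := by
  induction T with
  | leaf => exact ⟨hy, trivial, trivial⟩
  | node c l r ihl ihr =>
    unfold graft
    split_ifs
    · exact ⟨hT.1, hT.2.1, ihr hT.2.2⟩
    · exact ⟨hT.1, hT.2.1, trivial⟩

lemma spine_nonneg {x θ : ℝ} (hθ : θ ≤ x) (T : STree) : 0 ≤ spine x θ T := by
  induction T with
  | leaf => simp [spine]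
  | node c l r ihl ihr =>
    unfold spine
    split_ifs with h
    · linarith
    · exact le_refl _

lemma spine_mono {x θ θ' : ℝ} (hθ : θ ≤ θ') (hx : θ' ≤ x) (T : STree) :
    spine x θ T ≤ spine x θ' T := by
  induction T with
  | leaf => simp [spine]
  | node c l r ihl ihr =>
    unfold spine
    split_ifs with h h' h'
    · linarith
    · linarith
    · have := spine_nonneg hx r
      linarith
    · exact le_refl _

lemma spine_eq_zero {δ x θ : ℝ} {T : STree} {a b : ℝ} (hT : Fine δ T a b) (h : θ ≤ a) :
    spine x θ T = 0 := by
  cases T with
  | leaf => rfl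
  | node c l r =>
    unfold spine
    rw [if_neg]
    have := hT.1
    linarith

/-- The left point at distance `s` pays at least a third of the far part of the spine. -/
lemma spine_le_cost {δ x θ s : ℝ} (hs : 0 ≤ s) (hθ : θ ≤ x - 3 / 2 * s) (T : STree) :
    ∀ {a b : ℝ}, Fine δ T a b → a ≤ x - s → x - s ≤ b → spine x θ T ≤ 3 * cost T a b (x - s) := by
  induction T with
  | leaf =>
    intro a b hT ha hb
    have := cost_nonneg leaf ha hb
    simp only [spine]
    linarith
  | node c l r ihl ihr =>
    intro a b hT ha hb
    unfold spine
    split_ifs with h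
    · have hc : c ≤ x - s := by linarith
      rw [cost_node_ge' hc hT.1.le]
      have := ihr hT.2.2.2 hc hb
      linarith
    · have := cost_nonneg (node c l r) ha hb
      linarith

lemma graft_left {δ x θ y y' : ℝ} (hθy : θ ≤ y) (hyy' : y ≤ y') (hy'x : y' ≤ x) (T : STree) :
    ∀ {a h : ℝ}, Fine δ T a y → a ≤ h → h ≤ y →
    cost (graft θ y T) a y' h ≤ cost T a y h + 3 * (x - θ) + δ := by
  induction T with
  | leaf =>
    intro a h hT ha hb
    have hT' : y - a ≤ δ := hT
    unfold graft
    rcases lt_or_ge h y with hc | hc
    · rw [cost_node_lt' hc hyy']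
      simp only [cost_leaf]
      linarith
    · rw [cost_node_ge' hc (ha.trans hb)]
      simp only [cost_leaf]
      linarith
  | node c l r ihl ihr =>
    intro a h hT ha hb
    have hδ : 0 ≤ δ := by
      -- fine trees force a nonnegative leaf bound
      have key : ∀ (T : STree) (a b : ℝ), a < b → Fine δ T a b → 0 ≤ δ := by
        intro T
        induction T with
        | leaf => intro a b hab hF; exact le_trans (by linarith) hF
        | node c l r ihl ihr => intro a b _ hF; exact ihl a c hF.1 hF.2.2.1
      exact key (node c l r) a y (hT.1.trans hT.2.1) hT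
    unfold graft
    split_ifs with h'
    · rcases lt_or_ge h c with hc | hc
      · rw [cost_node_lt' hc (by linarith [hT.2.1]), cost_node_lt' hc hT.2.1.le]
        linarith
      · rw [cost_node_ge' hc hT.1.le, cost_node_ge' hc hT.1.le]
        have := ihr hT.2.2.2 hc hb
        linarith
    · rcases lt_or_ge h c with hc | hc
      · rw [cost_node_lt' hc (by linarith [hT.2.1]), cost_node_lt' hc hT.2.1.le]
        linarith
      · rw [cost_node_ge' hc hT.1.le, cost_node_ge' hc hT.1.le]
        have := cost_nonneg r hc hb
        simp only [cost_leaf]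
        linarith

lemma graft_right {δ x θ y y' : ℝ} (hθy : θ ≤ y) (hy'x : y' ≤ x) (T : STree) :
    ∀ {a h : ℝ}, Fine δ T a y → a ≤ y → y ≤ h → h ≤ y' →
    cost (graft θ y T) a y' h ≤ spine x θ T + 3 * (x - θ) := by
  induction T with
  | leaf =>
    intro a h hT ha hy hb
    unfold graft
    rw [cost_node_ge' hy ha]
    simp only [cost_leaf, spine]
    linarith
  | node c l r ihl ihr =>
    intro a h hT ha hy hb
    have hcy := hT.2.1
    have hch : c ≤ h := by linarith
    unfold graft spine
    split_ifs with h'
    · rw [cost_node_ge' hch hT.1.le]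
      have := ihr hT.2.2.2 hcy.le hy hb
      linarith
    · rw [cost_node_ge' hch hT.1.le]
      simp only [cost_leaf]
      linarith

end STree

end Pool.Agent.HighLow
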