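import Pool.Agent.HighLow_e5c6.Setup

/-!
# The potential inequality along right spines
-/

set_option autoImplicit false
set_option linter.unusedSectionVars false
set_option linter.unusedVariables false

namespace Pool.Agent.HighLow

open MeasureTheory Set STree

namespace Setup

variable {ν : Measure ℝ} [IsFiniteMeasure ν] {x : ℝ} (S : Setup ν x)

lemma near_le {p : ℝ} (hp : x - 2 * u S.ks ≤ p) : ν.real (Ico p x) ≤ ν.real {x} / 200 :=
  (measureReal_mono (Ico_subset_Ico_left hp)).trans S.near

lemma sum_split {k₀ j' j : ℕ} (h1 : k₀ ≤ j') (h2 : j' ≤ j) (f : ℕ → ℝ) :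
    ∑ k ∈ Finset.Ico k₀ j, f k = ∑ k ∈ Finset.Ico k₀ j', f k + ∑ k ∈ Finset.Ico j' j, f k :=
  (Finset.sum_Ico_consecutive f h1 h2).symm

/-- Half of the entropy bound, allowing an empty range. -/
lemma ent_half (X : STree) {a b : ℝ} {k₀ j j₂ : ℕ} (hks : S.ks ≤ k₀) (hk₀ : k₀ ≤ j)
    (hj : j ≤ S.Ke) (hj2 : j ≤ j₂) (hF : Fine S.δ X a b)
    (hp : ∀ k, k₀ ≤ k → k < j → a ≤ x - u k ∧ x - u k ≤ b) :
    S.N * ∑ k ∈ Finset.Ico k₀ j, S.τ k - S.M * S.τ (j₂ - 1) ≤
      1 / 2 * ∑ k ∈ Finset.Ico k₀ j, S.τ k * (cost X a b (x - u k) / u k) := by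
  rcases hk₀.eq_or_lt with h | h
  · rw [h, Finset.Ico_self, Finset.sum_empty, Finset.sum_empty]
    have := mul_nonneg S.hM (S.hτ (j₂ - 1))
    linarith
  · have h1 := S.ent X a b k₀ j hks h hj hF hp
    have h2 : S.M * S.τ (j - 1) ≤ S.M * S.τ (j₂ - 1) :=
      mul_le_mul_of_nonneg_left (S.hτm (by omega)) S.hM
    linarith

/-- The main potential inequality for a right spine close to the atom. -/
theorem spine_lemma {y ζ θ K : ℝ} {j : ℕ} (hj : j ≤ S.Ke) (hyx : y < x) (hy0 : ν {y} = 0)
    (hθ0 : 0 ≤ θ) (hθ : θ ≤ 1 / 6) (hζ : u (j - 1) ≤ ζ) (hK0 : 0 ≤ K)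
    (hK : K ≤ ν.real {x} / 8 * ζ) (X : STree) :
    ∀ (p R : ℝ) (k₀ : ℕ), S.ks ≤ k₀ → k₀ < j → Fine S.δ X p y → Null ν X →
    x - 2 * u S.ks ≤ p → (∀ k, k₀ ≤ k → k < j → u k ≤ x - p) → x - p ≤ 2 * u k₀ →
    (∀ k, k₀ ≤ k → k < j → x - u k ≤ y) → p < y → PP ν x X p y R K →
    -(6 / 5 * (ζ / u (j - 1))) * ∑ k ∈ Finset.Ico k₀ j, S.b k +
      (S.N * ∑ k ∈ Finset.Ico k₀ j, S.τ k - 2 * (S.M * S.τ (j - 1))) +
      θ * (S.b (j - 1) * ((spine x (x - 3 / 2 * u (j - 1)) X - R) / u (j - 1))) ≤
    ∑ k ∈ Finset.Ico k₀ j, S.b k * ((cost X p y (x - u k) - R) / u k) := by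
  set m := ν.real {x} with hm
  have hm0 : 0 < m := S.hm
  set ul := u (j - 1) with hul
  have hul0 : 0 < ul := u_pos _
  have hζ0 : 0 < ζ := lt_of_lt_of_le hul0 hζ
  have hMτ : 0 ≤ S.M * S.τ (j - 1) := mul_nonneg S.hM (S.hτ _)
  have hζul : 1 ≤ ζ / ul := by rw [le_div_iff₀ hul0]; linarith
  induction X with
  | leaf =>
    intro p R k₀ hks hk₀ hF hN hnear hup hu2 huy hpy hPP
    have hR : R ≤ 6 / 5 * ζ := by
      have h1 := pp_atom_le hpy.le hyx hK0 hPP
      have h2 := S.near_le hnear
      have h3 : y - p ≤ S.δ := hF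
      have h4 := S.hδ (j - 1) (by omega)
      have h5 := huy (j - 1) (by omega) (by omega)
      have h6 : x - p ≤ 3 / 2 * ζ := by linarith
      have h7 : (x - p) * ν.real (Ico p x) ≤ 3 / 2 * ζ * (m / 200) := by
        apply mul_le_mul h6 h2 measureReal_nonneg (by positivity)
      have h8 : R * m ≤ 6 / 5 * ζ * m := by
        have : 0 ≤ ζ * m := by positivity
        linarith
      exact le_of_mul_le_mul_right h8 hm0
    have := S.stop (y := y) (ζ := ζ) hj hθ0 hθ leaf hks hk₀ hF
      (fun k h1 h2 => ⟨by linarith [hup k h1 h2], huy k h1 h2⟩) hζ0.le hR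
    linarith
  | node d l r ihl ihr =>
    intro p R k₀ hks hk₀ hF hN hnear hup hu2 huy hpy hPP
    obtain ⟨hpd, hdy, hFl, hFr⟩ := hF
    set v := x - d with hv
    have hv0 : 0 < v := by linarith
    have hPPr : PP ν x r d y (R - v) K := pp_step hpd.le hdy.le hyx.le hN hPP
    have hRv : R ≤ 203 / 200 * v + ζ / 8 := by
      have h1 := pp_atom_le hdy.le hyx hK0 hPPr
      have h2 := S.near_le (p := d) (by linarith)
      have h7 : (x - d) * ν.real (Ico d x) ≤ v * (m / 200) :=
        mul_le_mul_of_nonneg_left h2 hv0.le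
      have h8 : R * m ≤ (203 / 200 * v + ζ / 8) * m := by
        have : 0 ≤ v * m := by positivity
        nlinarith
      exact le_of_mul_le_mul_right h8 hm0
    rcases lt_or_ge v ζ with hvζ | hvζ
    · -- stopping rule
      have hR : R ≤ 6 / 5 * ζ := by linarith
      have := S.stop (y := y) (ζ := ζ) hj hθ0 hθ (node d l r) hks hk₀ ⟨hpd, hdy, hFl, hFr⟩
        (fun k h1 h2 => ⟨by linarith [hup k h1 h2], huy k h1 h2⟩) hζ0.le hR
      linarith
    -- now `v ≥ ζ ≥ ul`
    have hvul : ul ≤ v := hζ.trans hvζ
    obtain ⟨j', hj1, hj2, hbig, hsmall⟩ := exists_split v k₀ j hk₀.le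
    have hj'j : j' < j := by
      by_contra hcon
      have := hbig (j - 1) (by omega) (by omega)
      linarith
    -- costs on both parts
    have hleft : ∀ k ∈ Finset.Ico k₀ j', cost (node d l r) p y (x - u k) =
        (u k - v) + cost l p d (x - u k) := by
      intro k hk
      rw [Finset.mem_Ico] at hk
      have := hbig k hk.1 hk.2
      rw [cost_node_lt' (by linarith) hdy.le]
      ring
    have hright : ∀ k ∈ Finset.Ico j' j, cost (node d l r) p y (x - u k) =
        (v - u k) + cost r d y (x - u k) := by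
      intro k hk
      rw [Finset.mem_Ico] at hk
      have := hsmall k hk.1 hk.2
      rw [cost_node_ge' (by linarith) hpd.le]
      ring
    have hlp : ∀ k, k₀ ≤ k → k < j' → p ≤ x - u k ∧ x - u k ≤ d := fun k h1 h2 =>
      ⟨by linarith [hup k h1 (by omega)], by linarith [hbig k h1 h2]⟩
    have hrp : ∀ k, j' ≤ k → k < j → d ≤ x - u k ∧ x - u k ≤ y := fun k h1 h2 =>
      ⟨by linarith [hsmall k h1 h2], huy k (by omega) h2⟩
    have hlc0 : ∀ k ∈ Finset.Ico k₀ j', 0 ≤ cost l p d (x - u k) := fun k hk => by
      rw [Finset.mem_Ico] at hk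
      exact cost_nonneg _ (hlp k hk.1 hk.2).1 (hlp k hk.1 hk.2).2
    have hrc0 : ∀ k ∈ Finset.Ico j' j, 0 ≤ cost r d y (x - u k) := fun k hk => by
      rw [Finset.mem_Ico] at hk
      exact cost_nonneg _ (hrp k hk.1 hk.2).1 (hrp k hk.1 hk.2).2
    -- first part
    have hfirst : -(6 / 5) * ∑ k ∈ Finset.Ico k₀ j', S.b k +
        ∑ k ∈ Finset.Ico k₀ j', S.b k * (cost l p d (x - u k) / u k) ≤
        ∑ k ∈ Finset.Ico k₀ j', S.b k * ((cost (node d l r) p y (x - u k) - R) / u k) := by
      rw [Finset.mul_sum, ← Finset.sum_add_distrib]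
      refine Finset.sum_le_sum fun k hk => ?_
      rw [hleft k hk]
      rw [Finset.mem_Ico] at hk
      have hku := hbig k hk.1 hk.2
      have huk := u_pos k
      have hbk := S.b_nonneg k
      have e1 : -(6 / 5 : ℝ) + cost l p d (x - u k) / u k ≤
          (u k - v + cost l p d (x - u k) - R) / u k := by
        rw [← sub_nonneg]
        have : (u k - v + cost l p d (x - u k) - R) / u k -
            (-(6 / 5 : ℝ) + cost l p d (x - u k) / u k) = (11 / 5 * u k - v - R) / u k := by
          field_simp
          ring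
        rw [this]
        apply div_nonneg _ huk.le
        linarith
      calc -(6 / 5) * S.b k + S.b k * (cost l p d (x - u k) / u k)
          = S.b k * (-(6 / 5 : ℝ) + cost l p d (x - u k) / u k) := by ring
        _ ≤ _ := mul_le_mul_of_nonneg_left e1 hbk
    have hentl := S.ent_half l hks hj1 (by omega) hj'j.le hFl hlp
    have hbτl : 1 / 2 * ∑ k ∈ Finset.Ico k₀ j', S.τ k * (cost l p d (x - u k) / u k) ≤
        ∑ k ∈ Finset.Ico k₀ j', S.b k * (cost l p d (x - u k) / u k) := by
      rw [Finset.mul_sum]
      refine Finset.sum_le_sum fun k hk => ?_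
      have h1 := div_nonneg (hlc0 k hk) (u_pos k).le
      have h2 := S.τ_le_b k
      have h3 := S.hτ k
      nlinarith
    have hsumb := sum_split hj1 hj2 S.b
    have hsumτ := sum_split hj1 hj2 S.τ
    have hsumc := sum_split hj1 hj2 (fun k => S.b k * ((cost (node d l r) p y (x - u k) - R) / u k))
    have hb1 := S.sum_b_nonneg k₀ j'
    have hb2 := S.sum_b_nonneg j' j
    have hspX : spine x (x - 3 / 2 * ul) (node d l r) ≤ v + spine x (x - 3 / 2 * ul) r := by
      have h1 : 0 ≤ spine x (x - 3 / 2 * ul) r := spine_nonneg (by linarith) r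
      rw [spine]
      split_ifs <;> linarith
    have hbl := S.b_nonneg (j - 1)
    have hζb1 : (∑ k ∈ Finset.Ico k₀ j', S.b k) ≤ ζ / ul * ∑ k ∈ Finset.Ico k₀ j', S.b k := by
      nlinarith
    have hζb2 : (∑ k ∈ Finset.Ico j' j, S.b k) ≤ ζ / ul * ∑ k ∈ Finset.Ico j' j, S.b k := by
      nlinarith
    rcases le_or_gt 0 (v - R) with hD | hD
    · -- the free case
      have hmem : j - 1 ∈ Finset.Ico j' j := by rw [Finset.mem_Ico]; omega
      have hterm : ∀ k ∈ Finset.Ico j' j,
          -1 * S.b k + 1 / 2 * (S.τ k * (cost r d y (x - u k) / u k)) +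
          (if k = j - 1 then S.b k * ((v - R + 1 / 2 * cost r d y (x - u k)) / ul) else 0) ≤
          S.b k * ((cost (node d l r) p y (x - u k) - R) / u k) := by
        intro k hk
        rw [hright k hk]
        have hck := hrc0 k hk
        have hbk := S.b_nonneg k
        have htk := S.τ_le_b k
        have hτk := S.hτ k
        have huk := u_pos k
        have hC0 : 0 ≤ cost r d y (x - u k) / u k := div_nonneg hck huk.le
        have e1 : S.b k * ((v - u k + cost r d y (x - u k) - R) / u k) =
            -1 * S.b k + S.b k * ((v - R) / u k) + S.b k * (cost r d y (x - u k) / u k) := by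
          field_simp
          ring
        rw [e1]
        have e2 : 0 ≤ S.b k * ((v - R) / u k) := mul_nonneg hbk (div_nonneg hD huk.le)
        have e3 : S.τ k * (cost r d y (x - u k) / u k) ≤ S.b k * (cost r d y (x - u k) / u k) :=
          mul_le_mul_of_nonneg_right htk hC0
        have e4 : 0 ≤ S.b k * (cost r d y (x - u k) / u k) := mul_nonneg hbk hC0
        split_ifs with hkj
        · subst hkj
          have e5 : S.b (j - 1) * ((v - R + 1 / 2 * cost r d y (x - u (j - 1))) / ul) =
              S.b (j - 1) * ((v - R) / u (j - 1)) +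
              1 / 2 * (S.b (j - 1) * (cost r d y (x - u (j - 1)) / u (j - 1))) := by
            rw [← hul]; ring
          rw [e5]
          linarith
        · linarith
      have hsum := Finset.sum_le_sum hterm
      rw [Finset.sum_add_distrib, Finset.sum_add_distrib, ← Finset.mul_sum, ← Finset.mul_sum,
        Finset.sum_ite_eq' (Finset.Ico j' j) (j - 1), if_pos hmem] at hsum
      have hentr := S.ent_half r (by omega) hj2 hj le_rfl hFr hrp
      have hsr := spine_le_cost (x := x) (θ := x - 3 / 2 * ul) (s := ul) hul0.le le_rfl r hFr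
        (hrp (j - 1) (by omega) (by omega)).1 (hrp (j - 1) (by omega) (by omega)).2
      have hsr0 : 0 ≤ spine x (x - 3 / 2 * ul) r := spine_nonneg (by linarith) r
      have hfin : θ * (S.b (j - 1) * ((spine x (x - 3 / 2 * ul) (node d l r) - R) / ul)) ≤
          S.b (j - 1) * ((v - R + 1 / 2 * cost r d y (x - u (j - 1))) / ul) := by
        have e1 : θ * (spine x (x - 3 / 2 * ul) (node d l r) - R) ≤
            v - R + 1 / 2 * cost r d y (x - u (j - 1)) := by
          have e2 : θ * (spine x (x - 3 / 2 * ul) (node d l r) - R) ≤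
              θ * (v - R + spine x (x - 3 / 2 * ul) r) :=
            mul_le_mul_of_nonneg_left (by linarith) hθ0
          have e3 : θ * (v - R + spine x (x - 3 / 2 * ul) r) ≤
              1 / 6 * (v - R + spine x (x - 3 / 2 * ul) r) :=
            mul_le_mul_of_nonneg_right hθ (by linarith)
          rw [← hul]
          linarith
        calc θ * (S.b (j - 1) * ((spine x (x - 3 / 2 * ul) (node d l r) - R) / ul))
            = S.b (j - 1) * ((θ * (spine x (x - 3 / 2 * ul) (node d l r) - R)) / ul) := by ring
          _ ≤ _ := mul_le_mul_of_nonneg_left (by gcongr) hbl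
      rw [hsumb, hsumτ, hsumc]
      linarith
    · -- the expensive case
      have hRpos : v < R := by linarith
      have hshift := shift_spine (K := K) ⟨hpd, hdy, hFl, hFr⟩ hyx hN hy0 hPP (by linarith)
      rw [← hv] at hshift
      set ΛV := spine x (x - 3 * v) l with hΛV
      set ρ := ν.real (Ico d (x - v / 2)) with hρ
      have hρ0 : 0 ≤ ρ := measureReal_nonneg
      have hΛρ : 11 / 50 * (v * m) ≤ ΛV * ρ := by
        have h2 := S.near_le (p := p) hnear
        have h4 := S.hδ (j - 1) (by omega)
        have h5 : (10 * v + S.δ) * ν.real (Ico p x) ≤ 11 * v * (m / 200) := by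
          apply mul_le_mul (by linarith) h2 measureReal_nonneg (by positivity)
        have h6 : v * m ≤ R * m := mul_le_mul_of_nonneg_right hRpos.le hm0.le
        have h7 : m / 8 * ζ ≤ m / 8 * v := mul_le_mul_of_nonneg_left hvζ (by positivity)
        have h8 : 0 ≤ v * m := by positivity
        linarith
      have hk0j' : k₀ < j' := by
        by_contra hcon
        have he : j' = k₀ := by omega
        have h1 := hsmall k₀ (by omega) hk₀
        have h2 : ΛV = 0 := spine_eq_zero hFl (by linarith)
        rw [h2, zero_mul] at hΛρ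
        have : 0 < v * m := by positivity
        linarith
      set k'' := j' - 1 with hk''
      have hk1 : v < u k'' := hbig k'' (by omega) (by omega)
      have hk2 : u k'' ≤ 2 * v := by
        have h1 := hsmall j' le_rfl hj'j
        have h2 : u j' = u k'' / 2 := by
          have h3 : j' = k'' + 1 := by omega
          rw [h3, u_succ]
        linarith
      have huk := u_pos k''
      set ρk := ν.real (Ioo (x - u k'') (x - u k'' / 4)) with hρk
      have hρle : ρ ≤ ρk := by
        refine measureReal_mono ?_ (measure_ne_top _ _)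
        intro h hh
        exact ⟨by linarith [hh.1], by linarith [hh.2]⟩
      have hcl := spine_le_cost (x := x) (θ := x - 3 * v) (s := u k'') huk.le (by linarith) l hFl
        (hlp k'' (by omega) (by omega)).1 (hlp k'' (by omega) (by omega)).2
      have hΛ0 : 0 ≤ ΛV := spine_nonneg (by linarith) l
      set C := cost l p d (x - u k'') / u k'' with hC
      have hCΛ : ΛV ≤ 6 * v * C := by
        have e1 : cost l p d (x - u k'') = C * u k'' := by
          rw [hC, div_mul_cancel₀ _ huk.ne']
        have hC0 : 0 ≤ C := div_nonneg (hlc0 k'' (by rw [Finset.mem_Ico]; omega)) huk.le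
        rw [e1] at hcl
        nlinarith
      have hC0 : 0 ≤ C := div_nonneg (hlc0 k'' (by rw [Finset.mem_Ico]; omega)) huk.le
      have hCρ : 11 / 300 * m ≤ C * ρk := by
        have e1 : 11 / 50 * (v * m) ≤ 6 * v * C * ρk := by
          calc 11 / 50 * (v * m) ≤ ΛV * ρ := hΛρ
            _ ≤ ΛV * ρk := mul_le_mul_of_nonneg_left hρle hΛ0
            _ ≤ 6 * v * C * ρk := mul_le_mul_of_nonneg_right hCΛ measureReal_nonneg
        have e2 : v * (11 / 50 * m) ≤ v * (6 * C * ρk) := by linarith
        have e3 := le_of_mul_le_mul_left e2 hv0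
        linarith
      have hβC : 1 ≤ S.β k'' * C := by
        rw [S.hβ, ← hρk, ← hm]
        have e1 : 40 / m * ρk * C = 40 / m * (C * ρk) := by ring
        rw [e1]
        have e2 : 40 / m * (11 / 300 * m) ≤ 40 / m * (C * ρk) :=
          mul_le_mul_of_nonneg_left hCρ (by positivity)
        have e3 : 40 / m * (11 / 300 * m) = 440 / 300 := by field_simp; norm_num
        rw [e3] at e2
        linarith
      have hτC : S.M * S.τ k'' ≤ 1 / 2 * (S.τ k'' * C) := by
        have h1 := S.small k''
        rw [← hρk, ← hm] at h1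
        -- τ * (100 M ρk) ≤ τ * m and (11/300) m ≤ C ρk
        have hτ0 := S.hτ k''
        have hρk0 : 0 ≤ ρk := measureReal_nonneg
        have hρkpos : 0 < ρk := by
          rcases hρk0.eq_or_lt with h | h
          · rw [← h, mul_zero] at hCρ
            linarith
          · exact h
        have e1 : S.τ k'' * (100 * S.M * ρk) ≤ S.τ k'' * (300 / 11 * (C * ρk)) :=
          h1.trans (mul_le_mul_of_nonneg_left (by linarith) hτ0)
        have e2 : (S.M * S.τ k'') * ρk ≤ (1 / 2 * (S.τ k'' * C)) * ρk := by
          have : 0 ≤ S.τ k'' * C * ρk := by positivity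
          nlinarith
        exact le_of_mul_le_mul_right e2 hρkpos
      -- first part gains
      have hgain : S.N * ∑ k ∈ Finset.Ico k₀ j', S.τ k + 1 ≤
          ∑ k ∈ Finset.Ico k₀ j', S.b k * (cost l p d (x - u k) / u k) := by
        have hent2 := S.ent_half l hks hj1 (by omega) le_rfl hFl hlp
        have hmem : k'' ∈ Finset.Ico k₀ j' := by rw [Finset.mem_Ico]; omega
        have hterm : ∀ k ∈ Finset.Ico k₀ j',
            1 / 2 * (S.τ k * (cost l p d (x - u k) / u k)) +
            (if k = k'' then (S.β k + 1 / 2 * S.τ k) * (cost l p d (x - u k) / u k) else 0) ≤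
            S.b k * (cost l p d (x - u k) / u k) := by
          intro k hk
          have h1 := div_nonneg (hlc0 k hk) (u_pos k).le
          have h2 := S.β_nonneg k
          have h3 := S.hτ k
          have h4 : S.b k = S.β k + S.τ k := rfl
          rw [h4]
          split_ifs
          · linarith
          · nlinarith
        have hsum := Finset.sum_le_sum hterm
        rw [Finset.sum_add_distrib, ← Finset.mul_sum,
          Finset.sum_ite_eq' (Finset.Ico k₀ j') k'', if_pos hmem, ← hC] at hsum
        linarith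
      -- second part
      have hsecond : ∑ k ∈ Finset.Ico j' j, S.b k * ((cost (node d l r) p y (x - u k) - R) / u k) =
          -∑ k ∈ Finset.Ico j' j, S.b k +
          ∑ k ∈ Finset.Ico j' j, S.b k * ((cost r d y (x - u k) - (R - v)) / u k) := by
        rw [← Finset.sum_neg_distrib, ← Finset.sum_add_distrib]
        refine Finset.sum_congr rfl fun k hk => ?_
        rw [hright k hk]
        have huk := (u_pos k).ne'
        field_simp
        ring
      have hIH := ihr d (R - v) j' (by omega) hj'j hFr hN.2.2 (by linarith)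
        (fun k h1 h2 => hsmall k h1 h2) (by
          have h2 : u j' = u k'' / 2 := by
            have h3 : j' = k'' + 1 := by omega
            rw [h3, u_succ]
          rw [← hv]; linarith)
        (fun k h1 h2 => huy k (by omega) h2) hdy hPPr
      have hsb := S.sum_b_le_one (k₀ := j') (j := j) (by omega) hj
      have hfin : θ * (S.b (j - 1) * ((spine x (x - 3 / 2 * ul) (node d l r) - R) / ul)) ≤
          θ * (S.b (j - 1) * ((spine x (x - 3 / 2 * ul) r - (R - v)) / ul)) := by
        apply mul_le_mul_of_nonneg_left _ hθ0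
        apply mul_le_mul_of_nonneg_left _ hbl
        exact div_le_div_of_nonneg_right (by linarith) hul0.le
      rw [hsumb, hsumτ, hsumc]
      rw [hsecond]
      linarith

end Setup

end Pool.Agent.HighLow
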