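import Mathlib

/-!
# Finite search trees for the continuous high-low game

A finite search tree has real cuts; a leaf with current interval `[a, b]` has terminal cost
`2 * (b - a)`, which is at least the cost of continuing by bisection.
-/

set_option autoImplicit false

namespace Pool.Agent.HighLow

/-- Finite search trees: `leaf` or a cut `c` with a left and a right subtree. -/
inductive STree : Type
  | leaf : STree
  | node (c : ℝ) (l r : STree) : STree

namespace STree

/-- Cost of the tree for the hidden number `h` if the current interval is `[a, b]`. -/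
noncomputable def cost : STree → ℝ → ℝ → ℝ → ℝ
  | leaf, a, b, _ => 2 * (b - a)
  | node c l r, a, b, h =>
      |c - h| + if h < c then cost l a (min b c) h else cost r (max a c) b h

@[simp] lemma cost_leaf (a b h : ℝ) : cost leaf a b h = 2 * (b - a) := rfl

lemma cost_node (c : ℝ) (l r : STree) (a b h : ℝ) : cost (node c l r) a b h =
    |c - h| + if h < c then cost l a (min b c) h else cost r (max a c) b h := rfl

lemma cost_node_lt {c : ℝ} {l r : STree} {a b h : ℝ} (hc : h < c) :
    cost (node c l r) a b h = (c - h) + cost l a (min b c) h := by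
  rw [cost_node, if_pos hc, abs_of_pos (by linarith)]

lemma cost_node_ge {c : ℝ} {l r : STree} {a b h : ℝ} (hc : c ≤ h) :
    cost (node c l r) a b h = (h - c) + cost r (max a c) b h := by
  rw [cost_node, if_neg (not_lt.2 hc), abs_sub_comm, abs_of_nonneg (by linarith)]

lemma cost_node_lt' {c : ℝ} {l r : STree} {a b h : ℝ} (hc : h < c) (hcb : c ≤ b) :
    cost (node c l r) a b h = (c - h) + cost l a c h := by
  rw [cost_node_lt hc, min_eq_right hcb]

lemma cost_node_ge' {c : ℝ} {l r : STree} {a b h : ℝ} (hc : c ≤ h) (hac : a ≤ c) :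
    cost (node c l r) a b h = (h - c) + cost r c b h := by
  rw [cost_node_ge hc, max_eq_right hac]

/-- Every cut of the tree satisfies `p`. -/
def All (p : ℝ → Prop) : STree → Prop
  | leaf => True
  | node c l r => p c ∧ All p l ∧ All p r

lemma All.mono {p q : ℝ → Prop} (h : ∀ c, p c → q c) {T : STree} (hT : All p T) : All q T := by
  induction T with
  | leaf => trivial
  | node c l r ihl ihr => exact ⟨h _ hT.1, ihl hT.2.1, ihr hT.2.2⟩

/-- All cuts lie strictly inside their intervals and all leaves have length at most `δ`. -/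
def Fine (δ : ℝ) : STree → ℝ → ℝ → Prop
  | leaf, a, b => b - a ≤ δ
  | node c l r, a, b => a < c ∧ c < b ∧ Fine δ l a c ∧ Fine δ r c b

lemma cost_nonneg (T : STree) : ∀ {a b h : ℝ}, a ≤ h → h ≤ b → 0 ≤ cost T a b h := by
  induction T with
  | leaf => intro a b h h1 h2; simp; linarith
  | node c l r ihl ihr =>
    intro a b h h1 h2
    rcases lt_or_ge h c with hc | hc
    · rw [cost_node_lt hc]
      have := ihl h1 (le_min h2 hc.le)
      linarith
    · rw [cost_node_ge hc]
      have := ihr (max_le h1 hc) h2
      linarith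

lemma cost_mono (T : STree) : ∀ {a b a' b' h : ℝ}, a' ≤ a → b ≤ b' → a ≤ h → h ≤ b →
    cost T a b h ≤ cost T a' b' h := by
  induction T with
  | leaf => intro a b a' b' h h1 h2 _ _; simp; linarith
  | node c l r ihl ihr =>
    intro a b a' b' h ha hb h1 h2
    rcases lt_or_ge h c with hc | hc
    · rw [cost_node_lt hc, cost_node_lt hc]
      have := ihl (h := h) ha (min_le_min_right c hb) h1 (le_min h2 hc.le)
      linarith
    · rw [cost_node_ge hc, cost_node_ge hc]
      have := ihr (h := h) (max_le_max_right c ha) hb (max_le h1 hc) h2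
      linarith

lemma cost_right_lip (T : STree) : ∀ {a b b' h : ℝ}, b ≤ b' → a ≤ h → h ≤ b →
    cost T a b' h ≤ cost T a b h + 2 * (b' - b) := by
  induction T with
  | leaf => intro a b b' h h1 h2 _; simp; linarith
  | node c l r ihl ihr =>
    intro a b b' h hb h1 h2
    rcases lt_or_ge h c with hc | hc
    · rw [cost_node_lt hc, cost_node_lt hc]
      have := ihl (h := h) (min_le_min_right c hb) h1 (le_min h2 hc.le)
      have h3 : min b' c - min b c ≤ b' - b := by
        rcases le_total b' c with h4 | h4
        · rw [min_eq_left h4, min_eq_left (hb.trans h4)]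
        · rw [min_eq_right h4]
          rcases le_total b c with h5 | h5
          · rw [min_eq_left h5]; linarith
          · rw [min_eq_right h5]; linarith
      linarith
    · rw [cost_node_ge hc, cost_node_ge hc]
      have := ihr (h := h) hb (max_le h1 hc) h2
      linarith

lemma measurable_cost (T : STree) : ∀ (a b : ℝ), Measurable (fun h => cost T a b h) := by
  induction T with
  | leaf => intro a b; simp only [cost_leaf]; exact measurable_const
  | node c l r ihl ihr =>
    intro a b
    simp only [cost_node]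
    exact ((measurable_const.sub measurable_id).abs).add
      (Measurable.ite measurableSet_Iio (ihl a (min b c)) (ihr (max a c) b))

lemma exists_bound (T : STree) (A B : ℝ) : ∃ M : ℝ, 0 ≤ M ∧ ∀ {a b h : ℝ}, A ≤ a → b ≤ B →
    a ≤ h → h ≤ b → cost T a b h ≤ M := by
  induction T with
  | leaf =>
    refine ⟨|2 * (B - A)|, abs_nonneg _, fun {a b h} h1 h2 h3 h4 => ?_⟩
    simp only [cost_leaf]
    refine le_trans ?_ (le_abs_self _)
    linarith
  | node c l r ihl ihr =>
    obtain ⟨M1, hM1, h1⟩ := ihl
    obtain ⟨M2, hM2, h2⟩ := ihr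
    refine ⟨|c| + |A| + |B| + M1 + M2, by positivity, fun {a b h} ha hb hh1 hh2 => ?_⟩
    have hh : |h| ≤ |A| + |B| := by
      rw [abs_le]
      constructor
      · have := neg_abs_le A; have := abs_nonneg B; linarith
      · have := le_abs_self B; have := abs_nonneg A; linarith
    have hch : |c - h| ≤ |c| + |A| + |B| := (abs_sub c h).trans (by linarith)
    rcases lt_or_ge h c with hc | hc
    · have := h1 (a := a) (b := min b c) (h := h) ha ((min_le_left _ _).trans hb) hh1
        (le_min hh2 hc.le)
      rw [cost_node, if_pos hc]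
      linarith
    · have := h2 (a := max a c) (b := b) (h := h) (ha.trans (le_max_left _ _)) hb
        (max_le hh1 hc) hh2
      rw [cost_node, if_neg (not_lt.2 hc)]
      linarith

/-- Refining a leaf. -/
lemma exists_refine_leaf {p : ℝ → Prop} (hp : ∀ s t : ℝ, s < t → ∃ c, s < c ∧ c < t ∧ p c)
    {δ : ℝ} (hδ : 0 < δ) (n : ℕ) : ∀ (a b : ℝ), a < b → b - a ≤ δ * (3 / 2) ^ n →
    ∃ T : STree, All p T ∧ Fine δ T a b ∧ ∀ h, a ≤ h → h ≤ b → cost T a b h ≤ 2 * (b - a) := by
  induction n with
  | zero =>
    intro a b hab h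
    refine ⟨leaf, trivial, ?_, fun h _ _ => le_refl _⟩
    simpa [Fine] using h
  | succ n ih =>
    intro a b hab h
    obtain ⟨c, hc1, hc2, hpc⟩ := hp (a + (b - a) / 3) (b - (b - a) / 3) (by linarith)
    have hpow : δ * (3 / 2 : ℝ) ^ (n + 1) = δ * (3 / 2) ^ n * (3 / 2) := by ring
    rw [hpow] at h
    obtain ⟨T1, h11, h12, h13⟩ := ih a c (by linarith) (by linarith)
    obtain ⟨T2, h21, h22, h23⟩ := ih c b (by linarith) (by linarith)
    refine ⟨node c T1 T2, ⟨hpc, h11, h21⟩, ⟨by linarith, by linarith, h12, h22⟩, ?_⟩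
    intro h ha hb
    rcases lt_or_ge h c with hc | hc
    · rw [cost_node_lt' hc (by linarith)]
      have := h13 h ha hc.le
      linarith
    · rw [cost_node_ge' hc (by linarith)]
      have := h23 h hc hb
      linarith

/-- Every tree can be replaced by a fine one of smaller cost. -/
lemma exists_fine {p : ℝ → Prop} (hp : ∀ s t : ℝ, s < t → ∃ c, s < c ∧ c < t ∧ p c)
    {δ : ℝ} (hδ : 0 < δ) (T : STree) : ∀ (a b : ℝ), a < b → All p T →
    ∃ T' : STree, All p T' ∧ Fine δ T' a b ∧ ∀ h, a ≤ h → h ≤ b → All (fun c => c ≠ h) T →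
      cost T' a b h ≤ cost T a b h := by
  induction T with
  | leaf =>
    intro a b hab _
    obtain ⟨n, hn⟩ := pow_unbounded_of_one_lt ((b - a) / δ) (by norm_num : (1 : ℝ) < 3 / 2)
    obtain ⟨T, h1, h2, h3⟩ := exists_refine_leaf hp hδ n a b hab (by
      rw [div_lt_iff₀ hδ] at hn; linarith)
    exact ⟨T, h1, h2, fun h ha hb _ => h3 h ha hb⟩
  | node c l r ihl ihr =>
    intro a b hab hall
    rcases le_or_gt c a with hca | hca
    · obtain ⟨T', h1, h2, h3⟩ := ihr a b hab hall.2.2
      refine ⟨T', h1, h2, fun h ha hb hne => ?_⟩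
      have hch : c ≤ h := hca.trans ha
      have := h3 h ha hb hne.2.2
      rw [cost_node_ge hch, max_eq_left hca]
      linarith
    · rcases le_or_gt b c with hbc | hbc
      · obtain ⟨T', h1, h2, h3⟩ := ihl a b hab hall.2.1
        refine ⟨T', h1, h2, fun h ha hb hne => ?_⟩
        have hch : h < c := lt_of_le_of_ne (hb.trans hbc) (Ne.symm hne.1)
        have := h3 h ha hb hne.2.1
        rw [cost_node_lt hch, min_eq_left hbc]
        linarith
      · obtain ⟨T1, h11, h12, h13⟩ := ihl a c hca hall.2.1
        obtain ⟨T2, h21, h22, h23⟩ := ihr c b hbc hall.2.2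
        refine ⟨node c T1 T2, ⟨hall.1, h11, h21⟩, ⟨hca, hbc, h12, h22⟩, fun h ha hb hne => ?_⟩
        rcases lt_or_ge h c with hc | hc
        · rw [cost_node_lt' hc hbc.le, cost_node_lt' hc hbc.le]
          have := h13 h ha hc.le hne.2.1
          linarith
        · rw [cost_node_ge' hc hca.le, cost_node_ge' hc hca.le]
          have := h23 h hc hb hne.2.2
          linarith

end STree

end Pool.Agent.HighLow
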