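import Pool.Agent.HighLow_e5c6.Game
import Pool.Agent.HighLow_e5c6.Atom

/-!
# Finite trees versus strategies
-/

set_option autoImplicit false
set_option linter.unusedSectionVars false
set_option linter.unusedVariables false

namespace Pool.Agent.HighLow

open MeasureTheory Set STree Filter Topology
open scoped ENNReal

/-- Every finite tree gives a strategy that costs at most as much. -/
lemma exists_strategy (T : STree) : ∀ (a b : ℝ), 0 ≤ a → b ≤ 1 →
    ∃ g : Strategy, ∀ h : Icc (0 : ℝ) 1, a ≤ h → (h : ℝ) ≤ b →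
      payoff g h ≤ ENNReal.ofReal (cost T a b h) := by
  induction T with
  | leaf =>
    intro a b ha hb
    refine ⟨bisS a b, fun h h1 h2 => (payoff_bisS ha hb h h1 h2).trans ?_⟩
    apply ENNReal.ofReal_le_ofReal
    rw [cost_leaf]
    linarith
  | node c l r ihl ihr =>
    intro a b ha hb
    obtain ⟨gl, hl⟩ := ihl a (min b c) ha ((min_le_left _ _).trans hb)
    obtain ⟨gr, hr⟩ := ihr (max a c) b (ha.trans (le_max_left _ _)) hb
    set c' : Icc (0 : ℝ) 1 := projIcc 0 1 zero_le_one c with hc'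
    refine ⟨nodeS c' gl gr, fun h h1 h2 => ?_⟩
    have hcval : (c' : ℝ) = max 0 (min 1 c) := by
      rw [hc', coe_projIcc]
    have hh := h.2
    rcases lt_trichotomy (c' : ℝ) (h : ℝ) with hlt | heq | hgt
    · have hch : c ≤ h := by
        rw [hcval] at hlt
        have h3 : min 1 c < h := lt_of_le_of_lt (le_max_right _ _) hlt
        rcases min_lt_iff.1 h3 with h4 | h4
        · exact absurd h4 (not_lt.2 hh.2)
        · exact h4.le
      rw [payoff_of_lt (show nodeS c' gl gr [] < h from hlt), nodeS_nil, sub_nodeS_true,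
        cost_node_ge hch, ENNReal.ofReal_add (by linarith)
          (cost_nonneg r (max_le h1 hch) h2)]
      have h5 : c ≤ (c' : ℝ) := by
        rw [hcval]
        have : min 1 c = c := min_eq_right (hch.trans hh.2)
        rw [this]
        exact le_max_right _ _
      exact add_le_add (ENNReal.ofReal_le_ofReal (by linarith)) (hr h (max_le h1 hch) h2)
    · rw [payoff_of_eq (g := nodeS c' gl gr) (h := h) (Subtype.ext heq)]
      exact zero_le
    · have hch : (h : ℝ) < c := by
        rw [hcval] at hgt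
        rcases lt_max_iff.1 hgt with h4 | h4
        · exact absurd h4 (not_lt.2 hh.1)
        · exact lt_of_lt_of_le h4 (min_le_right _ _)
      rw [payoff_of_gt (show h < nodeS c' gl gr [] from hgt), nodeS_nil, sub_nodeS_false,
        cost_node_lt hch, ENNReal.ofReal_add (by linarith)
          (cost_nonneg l h1 (le_min h2 hch.le))]
      have h5 : (c' : ℝ) ≤ c := by
        rw [hcval]
        exact max_le (hh.1.trans hch.le) (min_le_right _ _)
      exact add_le_add (ENNReal.ofReal_le_ofReal (by linarith)) (hl h h1 (le_min h2 hch.le))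

/-- The first `n` guesses of a strategy as a finite tree. -/
noncomputable def raw : ℕ → Strategy → STree
  | 0, _ => leaf
  | n + 1, g => node (g []) (raw n (sub g false)) (raw n (sub g true))

/-- The current interval after `n` guesses. -/
noncomputable def itv : ℕ → Strategy → ℝ → ℝ → ℝ → ℝ × ℝ
  | 0, _, a, b, _ => (a, b)
  | n + 1, g, a, b, h =>
      if h < g [] then itv n (sub g false) a (min b (g [])) h
      else itv n (sub g true) (max a (g [])) b h

lemma itv_zero (g : Strategy) (a b h : ℝ) : itv 0 g a b h = (a, b) := rfl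

lemma itv_lt {n : ℕ} {g : Strategy} {a b h : ℝ} (hc : h < g []) :
    itv (n + 1) g a b h = itv n (sub g false) a (min b (g [])) h := by
  rw [itv, if_pos hc]

lemma itv_ge {n : ℕ} {g : Strategy} {a b h : ℝ} (hc : (g [] : ℝ) ≤ h) :
    itv (n + 1) g a b h = itv n (sub g true) (max a (g [])) b h := by
  rw [itv, if_neg (not_lt.2 hc)]

lemma range_sub (g : Strategy) (b : Bool) {h : Icc (0 : ℝ) 1} (hh : h ∉ range g) :
    h ∉ range (sub g b) := by
  rintro ⟨L, hL⟩
  exact hh ⟨b :: L, hL⟩

/-- Cost of the truncated tree. -/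
lemma cost_raw (n : ℕ) : ∀ (g : Strategy) (a b : ℝ) (h : Icc (0 : ℝ) 1), h ∉ range g →
    a ≤ h → (h : ℝ) ≤ b → ENNReal.ofReal (cost (raw n g) a b h) =
      pay n g h + ENNReal.ofReal (2 * ((itv n g a b h).2 - (itv n g a b h).1)) := by
  induction n with
  | zero => intro g a b h _ _ _; simp [raw, pay, itv]
  | succ n ih =>
    intro g a b h hh h1 h2
    have hne : g [] ≠ h := fun he => hh ⟨[], he⟩
    rcases lt_or_gt_of_ne hne with hc | hc
    · have hc' : ((g [] : Icc (0 : ℝ) 1) : ℝ) < h := hc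
      rw [raw, cost_node_ge hc'.le, itv_ge hc'.le, pay, if_neg hne, if_pos hc,
        ENNReal.ofReal_add (by linarith) (cost_nonneg _ (max_le h1 hc'.le) h2),
        ih _ _ _ _ (range_sub g true hh) (max_le h1 hc'.le) h2, abs_sub_comm,
        abs_of_pos (by linarith), add_assoc]
    · have hc' : (h : ℝ) < ((g [] : Icc (0 : ℝ) 1) : ℝ) := hc
      rw [raw, cost_node_lt hc', itv_lt hc', pay, if_neg hne, if_neg (not_lt.2 hc.le),
        ENNReal.ofReal_add (by linarith) (cost_nonneg _ h1 (le_min h2 hc'.le)),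
        ih _ _ _ _ (range_sub g false hh) h1 (le_min h2 hc'.le),
        abs_of_pos (by linarith), add_assoc]

lemma itv_bounds (n : ℕ) : ∀ (g : Strategy) (a b h : ℝ), a ≤ h → h ≤ b →
    a ≤ (itv n g a b h).1 ∧ (itv n g a b h).1 ≤ h ∧ h ≤ (itv n g a b h).2 ∧
      (itv n g a b h).2 ≤ b := by
  induction n with
  | zero => intro g a b h h1 h2; exact ⟨le_refl _, h1, h2, le_refl _⟩
  | succ n ih =>
    intro g a b h h1 h2
    rcases lt_or_ge h (g [] : ℝ) with hc | hc
    · rw [itv_lt hc]
      obtain ⟨e1, e2, e3, e4⟩ := ih (sub g false) a (min b (g [])) h h1 (le_min h2 hc.le)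
      exact ⟨e1, e2, e3, e4.trans (min_le_left _ _)⟩
    · rw [itv_ge hc]
      obtain ⟨e1, e2, e3, e4⟩ := ih (sub g true) (max a (g [])) b h (max_le h1 hc) h2
      exact ⟨(le_max_left _ _).trans e1, e2, e3, e4⟩

lemma itv_mono (n : ℕ) : ∀ (g : Strategy) (a b h : ℝ), a ≤ h → h ≤ b →
    (itv n g a b h).1 ≤ (itv (n + 1) g a b h).1 ∧ (itv (n + 1) g a b h).2 ≤ (itv n g a b h).2 := by
  induction n with
  | zero =>
    intro g a b h h1 h2
    have := itv_bounds 1 g a b h h1 h2
    exact ⟨this.1, this.2.2.2⟩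
  | succ n ih =>
    intro g a b h h1 h2
    rcases lt_or_ge h (g [] : ℝ) with hc | hc
    · rw [itv_lt hc, itv_lt hc]
      exact ih (sub g false) a (min b (g [])) h h1 (le_min h2 hc.le)
    · rw [itv_ge hc, itv_ge hc]
      exact ih (sub g true) (max a (g [])) b h (max_le h1 hc) h2

lemma answers_lt {g : Strategy} {h : Icc (0 : ℝ) 1} (hc : g [] < h) (n : ℕ) :
    answers g h (n + 1) = true :: answers (sub g true) h n := by
  rw [answers_succ, decide_eq_true hc]

lemma answers_gt {g : Strategy} {h : Icc (0 : ℝ) 1} (hc : h < g []) (n : ℕ) :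
    answers g h (n + 1) = false :: answers (sub g false) h n := by
  rw [answers_succ, decide_eq_false (not_lt.2 hc.le)]

/-- Two secret numbers either receive the same answers or have disjoint current intervals. -/
lemma itv_disjoint (n : ℕ) : ∀ (g : Strategy) (a b : ℝ) (h h' : Icc (0 : ℝ) 1), h ∉ range g →
    h' ∉ range g → h < h' → a ≤ h → (h' : ℝ) ≤ b →
    answers g h n = answers g h' n ∨ (itv n g a b h).2 ≤ (itv n g a b h').1 := by
  induction n with
  | zero => intro g a b h h' _ _ _ _ _; left; rfl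
  | succ n ih =>
    intro g a b h h' hh hh' hlt h1 h2
    have hne : g [] ≠ h := fun he => hh ⟨[], he⟩
    have hne' : g [] ≠ h' := fun he => hh' ⟨[], he⟩
    have hlt' : (h : ℝ) < h' := hlt
    rcases lt_or_gt_of_ne hne with hc | hc
    · have hc2 : g [] < h' := hc.trans hlt
      have hcr : ((g [] : Icc (0 : ℝ) 1) : ℝ) < h := hc
      have hcr2 : ((g [] : Icc (0 : ℝ) 1) : ℝ) < h' := hc2
      rw [answers_lt hc, answers_lt hc2, itv_ge hcr.le, itv_ge hcr2.le]
      rcases ih (sub g true) (max a (g [])) b h h' (range_sub g true hh) (range_sub g true hh')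
        hlt (max_le h1 hcr.le) h2 with h3 | h3
      · left; rw [h3]
      · right; exact h3
    · have hcr : (h : ℝ) < ((g [] : Icc (0 : ℝ) 1) : ℝ) := hc
      rcases lt_or_gt_of_ne hne' with hc2 | hc2
      · have hcr2 : ((g [] : Icc (0 : ℝ) 1) : ℝ) < h' := hc2
        right
        rw [itv_lt hcr, itv_ge hcr2.le]
        have e1 := (itv_bounds n (sub g false) a (min b (g [])) h h1
          (le_min (by linarith) hcr.le)).2.2.2
        have e2 := (itv_bounds n (sub g true) (max a (g [])) b h' (max_le (by linarith)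
          hcr2.le) h2).1
        exact e1.trans ((min_le_right _ _).trans ((le_max_right _ _).trans e2))
      · have hcr2 : (h' : ℝ) < ((g [] : Icc (0 : ℝ) 1) : ℝ) := hc2
        rw [answers_gt hc, answers_gt hc2, itv_lt hcr, itv_lt hcr2]
        rcases ih (sub g false) a (min b (g [])) h h' (range_sub g false hh)
          (range_sub g false hh') hlt h1 (le_min h2 hcr2.le) with h3 | h3
        · left; rw [h3]
        · right; exact h3

/-- If the payoff is finite, the guesses converge to the secret number. -/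
lemma guess_tendsto {g : Strategy} {h : Icc (0 : ℝ) 1} (hh : h ∉ range g)
    (hfin : payoff g h ≠ ∞) : Tendsto (fun n => (guess g h n : ℝ)) atTop (𝓝 (h : ℝ)) := by
  unfold payoff at hfin
  have h1 := ENNReal.tendsto_atTop_zero_of_tsum_ne_top hfin
  have h2 : ∀ n, (if ∃ i < n, guess g h i = h then (0 : ℝ≥0∞)
      else ENNReal.ofReal |(guess g h n : ℝ) - h|) = ENNReal.ofReal |(guess g h n : ℝ) - h| := by
    intro n
    rw [if_neg]
    rintro ⟨i, _, hi⟩
    exact hh ⟨_, hi⟩
  simp only [h2] at h1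
  have h3 : Tendsto (fun n => |(guess g h n : ℝ) - h|) atTop (𝓝 0) := by
    have := (ENNReal.tendsto_toReal ENNReal.zero_ne_top).comp h1
    simp only [Function.comp_def, ENNReal.toReal_ofReal (abs_nonneg _), ENNReal.toReal_zero]
      at this
    exact this
  have h4 := (tendsto_zero_iff_abs_tendsto_zero (fun n => (guess g h n : ℝ) - h)).2 h3
  have := h4.add_const (h : ℝ)
  simpa using this

/-- The set of exceptional secret numbers is countable. -/
lemma bad_countable (g : Strategy) : {h : Icc (0 : ℝ) 1 | h ∉ range g ∧ payoff g h ≠ ∞ ∧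
    ¬ Tendsto (fun n => (itv n g 0 1 h).2 - (itv n g 0 1 h).1) atTop (𝓝 0)}.Countable := by
  set lo : Icc (0 : ℝ) 1 → ℝ := fun h => ⨆ n, (itv n g 0 1 h).1 with hlo
  set hi : Icc (0 : ℝ) 1 → ℝ := fun h => ⨅ n, (itv n g 0 1 h).2 with hhi
  have hb : ∀ (h : Icc (0 : ℝ) 1) n, 0 ≤ (itv n g 0 1 h).1 ∧ (itv n g 0 1 h).1 ≤ h ∧
      (h : ℝ) ≤ (itv n g 0 1 h).2 ∧ (itv n g 0 1 h).2 ≤ 1 :=
    fun h n => itv_bounds n g 0 1 h h.2.1 h.2.2
  have hloB : ∀ h : Icc (0 : ℝ) 1, BddAbove (range fun n => (itv n g 0 1 h).1) := fun h =>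
    ⟨h, by rintro _ ⟨n, rfl⟩; exact (hb h n).2.1⟩
  have hhiB : ∀ h : Icc (0 : ℝ) 1, BddBelow (range fun n => (itv n g 0 1 h).2) := fun h =>
    ⟨h, by rintro _ ⟨n, rfl⟩; exact (hb h n).2.2.1⟩
  have hloM : ∀ h : Icc (0 : ℝ) 1, Monotone (fun n => (itv n g 0 1 h).1) := fun h =>
    monotone_nat_of_le_succ fun n => (itv_mono n g 0 1 h h.2.1 h.2.2).1
  have hhiM : ∀ h : Icc (0 : ℝ) 1, Antitone (fun n => (itv n g 0 1 h).2) := fun h =>
    antitone_nat_of_succ_le fun n => (itv_mono n g 0 1 h h.2.1 h.2.2).2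
  have hlen : ∀ h : Icc (0 : ℝ) 1, Tendsto (fun n => (itv n g 0 1 h).2 - (itv n g 0 1 h).1)
      atTop (𝓝 (hi h - lo h)) := fun h =>
    (tendsto_atTop_ciInf (hhiM h) (hhiB h)).sub (tendsto_atTop_ciSup (hloM h) (hloB h))
  have hle : ∀ h : Icc (0 : ℝ) 1, lo h ≤ h ∧ (h : ℝ) ≤ hi h := fun h =>
    ⟨ciSup_le fun n => (hb h n).2.1, le_ciInf fun n => (hb h n).2.2.1⟩
  refine Set.PairwiseDisjoint.countable_of_isOpen (s := fun h => Ioo (lo h) (hi h)) ?_
    (fun h _ => isOpen_Ioo) ?_
  · -- disjointness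
    have key : ∀ h h' : Icc (0 : ℝ) 1, h ∉ range g → h' ∉ range g → payoff g h ≠ ∞ →
        payoff g h' ≠ ∞ → h < h' → hi h ≤ lo h' := by
      intro h h' hh hh' hf hf' hlt
      by_contra hcon
      have hall : ∀ n, answers g h n = answers g h' n := by
        intro n
        rcases itv_disjoint n g 0 1 h h' hh hh' hlt h.2.1 h'.2.2 with h1 | h1
        · exact h1
        · exfalso
          apply hcon
          exact (ciInf_le (hhiB h) n).trans (h1.trans (le_ciSup (hloB h') n))
      have hg : ∀ n, guess g h n = guess g h' n := fun n => by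
        unfold guess; rw [hall n]
      have t1 := guess_tendsto hh hf
      have t2 := guess_tendsto hh' hf'
      simp only [hg] at t1
      have : (h : ℝ) = h' := tendsto_nhds_unique t1 t2
      exact absurd (Subtype.ext this) hlt.ne
    intro h hh h' hh' hne
    simp only [Function.onFun]
    rw [Set.disjoint_left]
    intro y hy hy'
    rcases lt_or_gt_of_ne hne with hlt | hlt
    · have := key h h' hh.1 hh'.1 hh.2.1 hh'.2.1 hlt
      linarith [hy.2, hy'.1]
    · have := key h' h hh'.1 hh.1 hh'.2.1 hh.2.1 hlt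
      linarith [hy'.2, hy.1]
  · intro h hh
    rw [nonempty_Ioo]
    rcases lt_or_ge (lo h) (hi h) with h1 | h1
    · exact h1
    · exfalso
      apply hh.2.2
      have h2 : hi h - lo h = 0 := by
        have := hle h
        linarith [this.1, this.2]
      have := hlen h
      rwa [h2] at this

/-- Truncation: for a nonatomic measure a strategy can be replaced by a finite tree. -/
lemma exists_trunc (ν : Measure (Icc (0 : ℝ) 1)) [IsProbabilityMeasure ν]
    (hν : ∀ h : Icc (0 : ℝ) 1, ν ({h} : Set (Icc (0 : ℝ) 1)) = 0) (g : Strategy) {A : ℝ} (hA : 0 ≤ A)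
    (hg : ∫⁻ h, payoff g h ∂ν ≤ ENNReal.ofReal A) {ε : ℝ} (hε : 0 < ε) :
    ∃ T : STree, ∫⁻ h, ENNReal.ofReal (cost T 0 1 h) ∂ν ≤ ENNReal.ofReal (A + ε) := by
  have hcount0 : ∀ s : Set (Icc (0 : ℝ) 1), s.Countable → ν s = 0 := by
    intro s hs
    rw [← Set.biUnion_of_singleton s, measure_biUnion_null_iff hs]
    exact fun h _ => hν h
  have hrange : ∀ᵐ h ∂ν, h ∉ range g := by
    rw [ae_iff]
    simp only [not_not]
    exact hcount0 _ (countable_range g)
  have hfin : ∀ᵐ h ∂ν, payoff g h ≠ ∞ := by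
    have h1 : ∫⁻ h, payoff g h ∂ν ≠ ∞ := ne_top_of_le_ne_top ENNReal.ofReal_ne_top hg
    filter_upwards [ae_lt_top (measurable_payoff_right g) h1] with h hh
    exact hh.ne
  have hbad : ∀ᵐ h ∂ν, ¬ (h ∉ range g ∧ payoff g h ≠ ∞ ∧
      ¬ Tendsto (fun n => (itv n g 0 1 h).2 - (itv n g 0 1 h).1) atTop (𝓝 0)) := by
    rw [ae_iff]
    simp only [not_not]
    exact hcount0 _ (bad_countable g)
  have hlen : ∀ᵐ h : Icc (0 : ℝ) 1 ∂ν, Tendsto (fun n => ENNReal.ofReal
      (2 * ((itv n g 0 1 h).2 - (itv n g 0 1 h).1))) atTop (𝓝 0) := by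
    filter_upwards [hrange, hfin, hbad] with h h1 h2 h3
    have h4 : Tendsto (fun n => (itv n g 0 1 h).2 - (itv n g 0 1 h).1) atTop (𝓝 0) := by
      by_contra hcon
      exact h3 ⟨h1, h2, hcon⟩
    have h5 := (ENNReal.continuous_ofReal.tendsto 0).comp (by simpa using h4.const_mul 2)
    simpa [Function.comp_def] using h5
  -- measurability of the lengths
  have hmeas : ∀ n, AEMeasurable (fun h : Icc (0 : ℝ) 1 => ENNReal.ofReal
      (2 * ((itv n g 0 1 h).2 - (itv n g 0 1 h).1))) ν := by
    intro n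
    have key : ∀ (n : ℕ) (g : Strategy) (a b : ℝ), Measurable (fun h : ℝ => itv n g a b h) := by
      intro n
      induction n with
      | zero => intro g a b; exact measurable_const
      | succ n ih =>
        intro g a b
        simp only [itv]
        exact Measurable.ite measurableSet_Iio (ih _ _ _) (ih _ _ _)
    have h1 : Measurable (fun h : Icc (0 : ℝ) 1 => itv n g 0 1 h) :=
      (key n g 0 1).comp measurable_subtype_coe
    exact (ENNReal.measurable_ofReal.comp
      ((measurable_const.mul (h1.snd.sub h1.fst)))).aemeasurable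
  have hlim : Tendsto (fun n => ∫⁻ h, ENNReal.ofReal
      (2 * ((itv n g 0 1 h).2 - (itv n g 0 1 h).1)) ∂ν) atTop (𝓝 (∫⁻ h, 0 ∂ν)) := by
    refine tendsto_lintegral_of_dominated_convergence' (fun _ => 2) hmeas ?_ (by simp) hlen
    intro n
    refine Filter.Eventually.of_forall fun h => ?_
    have := itv_bounds n g 0 1 h h.2.1 h.2.2
    rw [show (2 : ℝ≥0∞) = ENNReal.ofReal 2 by simp]
    apply ENNReal.ofReal_le_ofReal
    linarith [this.1, this.2.2.2]
  rw [lintegral_zero] at hlim
  obtain ⟨n, hn⟩ := (hlim.eventually (gt_mem_nhds (ENNReal.ofReal_pos.2 hε))).exists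
  refine ⟨raw n g, ?_⟩
  have h1 : ∫⁻ h, ENNReal.ofReal (cost (raw n g) 0 1 h) ∂ν =
      ∫⁻ h, (pay n g h + ENNReal.ofReal (2 * ((itv n g 0 1 h).2 - (itv n g 0 1 h).1))) ∂ν := by
    refine lintegral_congr_ae ?_
    filter_upwards [hrange] with h hh
    exact cost_raw n g 0 1 h hh h.2.1 h.2.2
  rw [h1, lintegral_add_left (measurable_pay_right n g), ENNReal.ofReal_add hA hε.le]
  refine add_le_add ?_ hn.le
  exact (lintegral_mono fun h => pay_le_payoff n g h).trans hg

end Pool.Agent.HighLow
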