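import Pool.Agent.HighLow_e5c6.FarLemma

/-!
# Choice of the weights
-/

set_option autoImplicit false
set_option linter.unusedSectionVars false
set_option linter.unusedVariables false

namespace Pool.Agent.HighLow

open MeasureTheory Set STree

variable {ν : Measure ℝ} [IsFiniteMeasure ν] {x : ℝ}

lemma near_small (ν : Measure ℝ) [IsFiniteMeasure ν] (x : ℝ) {ε : ℝ} (hε : 0 < ε) :
    ∃ k₀ : ℕ, ∀ k, k₀ ≤ k → ν.real (Ico (x - 2 * u k) x) ≤ ε := by
  have hanti : Antitone (fun n : ℕ => Ico (x - 2 * u n) x) := by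
    intro n m hnm
    apply Ico_subset_Ico_left
    have := u_anti hnm
    linarith
  have ht := tendsto_measure_iInter_atTop (μ := ν)
    (fun n : ℕ => (measurableSet_Ico (a := x - 2 * u n) (b := x)).nullMeasurableSet)
    hanti ⟨0, measure_ne_top _ _⟩
  have hempty : (⋂ n : ℕ, Ico (x - 2 * u n) x) = ∅ := by
    rw [eq_empty_iff_forall_notMem]
    intro y hy
    rw [mem_iInter] at hy
    have hy0 := (hy 0).2
    obtain ⟨n, hn⟩ := exists_u_lt (s := (x - y) / 2) (by linarith)
    have := (hy n).1
    linarith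
  rw [hempty, measure_empty] at ht
  have hev := ht.eventually (gt_mem_nhds (ENNReal.ofReal_pos.2 hε))
  obtain ⟨k₀, hk₀⟩ := hev.exists_forall_of_atTop
  refine ⟨k₀, fun k hk => ?_⟩
  have h1 := hk₀ k hk
  exact ((ENNReal.lt_ofReal_iff_toReal_lt (measure_ne_top _ _)).1 h1).le

lemma block_le (ν : Measure ℝ) [IsFiniteMeasure ν] (x : ℝ) (k : ℕ) :
    ν.real (Ioo (x - u k) (x - u k / 4)) ≤
      ν.real (Ico (x - u k) (x - u (k + 1))) + ν.real (Ico (x - u (k + 1)) (x - u (k + 2))) := by
  have hsub : Ioo (x - u k) (x - u k / 4) ⊆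
      Ico (x - u k) (x - u (k + 1)) ∪ Ico (x - u (k + 1)) (x - u (k + 2)) := by
    intro h hh
    have h1 := u_succ k
    have h2 := u_succ (k + 1)
    rcases lt_or_ge h (x - u (k + 1)) with h3 | h3
    · left; exact ⟨hh.1.le, h3⟩
    · right; refine ⟨h3, ?_⟩
      have : u (k + 2) = u k / 4 := by
        rw [show k + 2 = k + 1 + 1 from rfl, h2, h1]; ring
      rw [this]; exact hh.2
  exact (measureReal_mono hsub (measure_ne_top _ _)).trans (measureReal_union_le _ _)

lemma telescope (ν : Measure ℝ) [IsFiniteMeasure ν] (x : ℝ) (s n : ℕ) (hn : s ≤ n) :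
    ∑ k ∈ Finset.Ico s n, ν.real (Ico (x - u k) (x - u (k + 1))) =
      ν.real (Ico (x - u s) (x - u n)) := by
  induction n, hn using Nat.le_induction with
  | base => simp
  | succ n hn ih =>
    rw [Finset.sum_Ico_succ_top hn, ih, ← measureReal_union _ measurableSet_Ico,
      Ico_union_Ico_eq_Ico]
    · have := u_anti hn; linarith
    · have := u_anti (Nat.le_succ n); linarith
    · rw [Set.disjoint_left]
      intro y h1 h2
      exact absurd h1.2 (not_lt.2 h2.1)

lemma block_sum (ν : Measure ℝ) [IsFiniteMeasure ν] (x : ℝ) (s n : ℕ) (hn : s ≤ n) :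
    ∑ k ∈ Finset.Ico s n, ν.real (Ioo (x - u k) (x - u k / 4)) ≤
      2 * ν.real (Ico (x - 2 * u s) x) := by
  have h1 : ∑ k ∈ Finset.Ico s n, ν.real (Ioo (x - u k) (x - u k / 4)) ≤
      ∑ k ∈ Finset.Ico s n, (ν.real (Ico (x - u k) (x - u (k + 1))) +
        ν.real (Ico (x - u (k + 1)) (x - u (k + 2)))) :=
    Finset.sum_le_sum fun k _ => block_le ν x k
  rw [Finset.sum_add_distrib, telescope ν x s n hn] at h1
  have h2 : ∑ k ∈ Finset.Ico s n, ν.real (Ico (x - u (k + 1)) (x - u (k + 2))) =
      ∑ k ∈ Finset.Ico (s + 1) (n + 1), ν.real (Ico (x - u k) (x - u (k + 1))) := by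
    rw [← Finset.sum_Ico_add' (fun k => ν.real (Ico (x - u k) (x - u (k + 1)))) s n 1]
  rw [h2, telescope ν x (s + 1) (n + 1) (by omega)] at h1
  have hs := u_pos s
  have h3 : ν.real (Ico (x - u s) (x - u n)) ≤ ν.real (Ico (x - 2 * u s) x) := by
    refine measureReal_mono ?_ (measure_ne_top _ _)
    have := u_pos n
    exact Ico_subset_Ico (by linarith) (by linarith)
  have h4 : ν.real (Ico (x - u (s + 1)) (x - u (n + 1))) ≤ ν.real (Ico (x - 2 * u s) x) := by
    refine measureReal_mono ?_ (measure_ne_top _ _)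
    have := u_pos (n + 1)
    have := u_anti (Nat.le_succ s)
    exact Ico_subset_Ico (by linarith) (by linarith)
  linarith

/-- Existence of good weights: the potential is at least `1` for nearly optimal trees. -/
theorem exists_setup (ν : Measure ℝ) [IsFiniteMeasure ν] {x : ℝ} (hx : 0 < x) (hm : 0 < ν.real {x})
    (hm1 : ν.real univ ≤ 1) : ∃ S : Setup ν x, 2 * u S.ks < x ∧ S.ks < S.Ke ∧ 0 < S.δ ∧ 0 < S.κ ∧
      S.κ ≤ 1 ∧ (∀ k, S.ks ≤ k → k < S.Ke → 0 ≤ S.b k) ∧
      (∃ k, S.ks ≤ k ∧ k < S.Ke ∧ 0 < S.b k) ∧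
      ∀ (T : STree) (b : ℝ), Fine S.δ T 0 b → Null ν T → NearOpt ν S.κ 0 b T → x ≤ b →
        cost T 0 b x ≤ 2 / ν.real {x} →
        1 ≤ ∑ k ∈ Finset.Ico S.ks S.Ke, S.b k * ((cost T 0 b (x - u k) - cost T 0 b x) / u k) := by
  set m := ν.real {x} with hmdef
  have hm1' : m ≤ 1 := (measureReal_mono (subset_univ _) (measure_ne_top _ _)).trans hm1
  obtain ⟨ka, hka⟩ := near_small ν x (ε := m / 200) (by positivity)
  obtain ⟨kb, hkb⟩ := exists_u_lt (s := x / 2) (by positivity)
  set ks := max ka kb with hks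
  have hnear := hka ks (le_max_left _ _)
  have hksx : 2 * u ks < x := by
    have := u_anti (le_max_right ka kb)
    linarith
  set C := (9 + 32 / m) + 2 * (2 / m) / (2 * u ks) with hC
  have hC0 : 0 ≤ C := by have := u_pos ks; positivity
  obtain ⟨n, hn⟩ := exists_nat_ge (2 * (C + 2))
  set t := 16 * n with ht
  set M : ℝ := 2 ^ (t + 1) / 16 with hM
  have hM0 : 0 < M := by positivity
  obtain ⟨kc, hkc⟩ := near_small ν x (ε := m / (100 * M)) (by positivity)
  set k₁ := max ks kc with hk₁
  obtain ⟨K, hK⟩ := exists_nat_ge (3 * M + 1)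
  have hK1 : (1 : ℝ) ≤ K := by linarith
  have hKpos : 0 < K := by
    have : (0 : ℝ) < K := by linarith
    exact_mod_cast this
  set τ : ℕ → ℝ := fun k => if k < k₁ then 0 else 1 / (2 * K) with hτ
  have hτ0 : ∀ k, 0 ≤ τ k := fun k => by
    simp only [hτ]; split_ifs <;> positivity
  have hτm : Monotone τ := by
    intro i j hij
    simp only [hτ]
    split_ifs with h1 h2 h2
    · exact le_refl _
    · positivity
    · omega
    · exact le_refl _
  set Ke := k₁ + K with hKe
  have hksk : ks ≤ k₁ := le_max_left _ _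
  have hsumτ : ∀ j, j ≤ Ke → ∑ k ∈ Finset.Ico ks j, τ k ≤ 1 / 2 := by
    intro j hj
    have h1 : ∑ k ∈ Finset.Ico ks j, τ k ≤ ∑ k ∈ Finset.Ico ks Ke, τ k :=
      Finset.sum_le_sum_of_subset_of_nonneg (Finset.Ico_subset_Ico le_rfl hj) fun k _ _ => hτ0 k
    refine h1.trans ?_
    rw [← Finset.sum_Ico_consecutive τ hksk (by omega : k₁ ≤ Ke)]
    have e1 : ∑ k ∈ Finset.Ico ks k₁, τ k = 0 := by
      refine Finset.sum_eq_zero fun k hk => ?_
      rw [Finset.mem_Ico] at hk
      simp only [hτ, if_pos hk.2]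
    have e2 : ∑ k ∈ Finset.Ico k₁ Ke, τ k = ∑ k ∈ Finset.Ico k₁ Ke, 1 / (2 * (K : ℝ)) := by
      refine Finset.sum_congr rfl fun k hk => ?_
      rw [Finset.mem_Ico] at hk
      simp only [hτ, if_neg (not_lt.2 hk.1)]
    rw [e1, e2, Finset.sum_const, Nat.card_Ico, zero_add, nsmul_eq_mul]
    have : Ke - k₁ = K := by omega
    rw [this]
    have : (K : ℝ) ≠ 0 := by positivity
    apply le_of_eq
    field_simp
  have hsumτ' : ∑ k ∈ Finset.Ico ks Ke, τ k = 1 / 2 := by
    rw [← Finset.sum_Ico_consecutive τ hksk (by omega : k₁ ≤ Ke)]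
    have e1 : ∑ k ∈ Finset.Ico ks k₁, τ k = 0 := by
      refine Finset.sum_eq_zero fun k hk => ?_
      rw [Finset.mem_Ico] at hk
      simp only [hτ, if_pos hk.2]
    have e2 : ∑ k ∈ Finset.Ico k₁ Ke, τ k = ∑ k ∈ Finset.Ico k₁ Ke, 1 / (2 * (K : ℝ)) := by
      refine Finset.sum_congr rfl fun k hk => ?_
      rw [Finset.mem_Ico] at hk
      simp only [hτ, if_neg (not_lt.2 hk.1)]
    rw [e1, e2, Finset.sum_const, Nat.card_Ico, zero_add, nsmul_eq_mul]
    have : Ke - k₁ = K := by omega
    rw [this]
    have : (K : ℝ) ≠ 0 := by positivity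
    field_simp
  set β : ℕ → ℝ := fun k => 40 / m * ν.real (Ioo (x - u k) (x - u k / 4)) with hβ
  have hsumβ : ∑ k ∈ Finset.Ico ks Ke, β k ≤ 2 / 5 := by
    simp only [hβ]
    rw [← Finset.mul_sum]
    have h1 := block_sum ν x ks Ke (by omega)
    have h2 : 40 / m * ∑ k ∈ Finset.Ico ks Ke, ν.real (Ioo (x - u k) (x - u k / 4)) ≤
        40 / m * (2 * (m / 200)) :=
      mul_le_mul_of_nonneg_left (h1.trans (by linarith)) (by positivity)
    refine h2.trans (le_of_eq ?_)
    field_simp
    norm_num
  set δ := u Ke / 4 with hδ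
  set κ := m / 100 * u (Ke - 1) with hκ
  have hu1 : ∀ k, u k ≤ 1 := fun k => by
    unfold u; exact pow_le_one₀ (by norm_num) (by norm_num)
  let S : Setup ν x :=
    { ks := ks
      Ke := Ke
      β := β
      τ := τ
      N := n
      M := M
      δ := δ
      κ := κ
      hm := hm
      hm1 := hm1
      near := hnear
      hβ := fun k => rfl
      hτ := hτ0
      hτm := hτm
      hsum := by
        rw [Finset.sum_add_distrib, hsumτ']
        linarith
      small := by
        intro k
        by_cases hk : k < k₁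
        · simp only [hτ, if_pos hk, zero_mul]; exact le_refl _
        · apply mul_le_mul_of_nonneg_left _ (hτ0 k)
          have h1 := hkc k (by
            have := le_max_right ks kc
            omega)
          have h2 : ν.real (Ioo (x - u k) (x - u k / 4)) ≤ m / (100 * M) := by
            refine le_trans (measureReal_mono ?_ (measure_ne_top _ _)) h1
            intro h hh
            have := u_pos k
            exact ⟨by linarith [hh.1], by linarith [hh.2]⟩
          rw [le_div_iff₀ (by positivity)] at h2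
          linarith
      ent := by
        intro X a b k₀ j hk₀ hj hjK hF hp
        by_cases hjk : j - 1 < k₁
        · -- all weights vanish
          have e1 : ∑ k ∈ Finset.Ico k₀ j, τ k = 0 := by
            refine Finset.sum_eq_zero fun k hk => ?_
            rw [Finset.mem_Ico] at hk
            simp only [hτ, if_pos (show k < k₁ by omega)]
          have e2 : τ (j - 1) = 0 := by simp only [hτ, if_pos hjk]
          rw [e1, e2, mul_zero, mul_zero, sub_zero, mul_zero]
          refine Finset.sum_nonneg fun k hk => ?_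
          rw [Finset.mem_Ico] at hk
          exact mul_nonneg (hτ0 k) (div_nonneg (cost_nonneg _ (hp k hk.1 hk.2).1
            (hp k hk.1 hk.2).2) (u_pos k).le)
        · have e2 : τ (j - 1) = 1 / (2 * K) := by simp only [hτ, if_neg hjk]
          set F := (Finset.Ico k₀ j).filter (fun k => ¬ k < k₁) with hFdef
          have hmem : ∀ k ∈ F, k₀ ≤ k ∧ k < j ∧ k₁ ≤ k := fun k hk => by
            rw [hFdef, Finset.mem_filter, Finset.mem_Ico] at hk
            exact ⟨hk.1.1, hk.1.2, not_lt.1 hk.2⟩
          have hent := entropy_bound x X a b F t hF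
            (fun k hk => hp k (hmem k hk).1 (hmem k hk).2.1) (fun k hk => by
              have h1 := hmem k hk
              have h2 : u Ke < u k := u_lt (by omega)
              have h3 := u_pos k
              have h4 := u_pos Ke
              rw [hδ]; linarith)
          have e3 : ∑ k ∈ Finset.Ico k₀ j, τ k = (1 / (2 * K)) * F.card := by
            have : ∀ k ∈ Finset.Ico k₀ j, τ k = if ¬ k < k₁ then 1 / (2 * (K : ℝ)) else 0 := by
              intro k _
              simp only [hτ]
              split_ifs <;> rfl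
            rw [Finset.sum_congr rfl this, ← Finset.sum_filter, Finset.sum_const, nsmul_eq_mul,
              mul_comm]
          have e4 : ∑ k ∈ Finset.Ico k₀ j, τ k * (cost X a b (x - u k) / u k) =
              (1 / (2 * K)) * ∑ k ∈ F, cost X a b (x - u k) / u k := by
            have : ∀ k ∈ Finset.Ico k₀ j, τ k * (cost X a b (x - u k) / u k) =
                if ¬ k < k₁ then 1 / (2 * (K : ℝ)) * (cost X a b (x - u k) / u k) else 0 := by
              intro k _
              simp only [hτ]
              split_ifs <;> simp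
            rw [Finset.sum_congr rfl this, ← Finset.sum_filter, Finset.mul_sum]
          rw [e2, e3, e4]
          have e5 : 2 * ((n : ℝ) * (1 / (2 * K) * F.card) - M * (1 / (2 * K))) =
              1 / (2 * K) * (2 * n * F.card - 2 * M) := by ring
          rw [e5]
          apply mul_le_mul_of_nonneg_left _ (by positivity)
          refine le_trans ?_ hent
          rw [hM, ht]
          push_cast
          linarith
      hM := hM0.le
      hN := Nat.cast_nonneg n
      hδ := by
        intro k hk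
        have h2 : u Ke < u k := u_lt hk
        have h3 := u_pos k
        have h4 := u_pos Ke
        rw [hδ]; linarith
      hκ0 := by have := u_pos (Ke - 1); positivity
      hκ := le_refl _ }
  refine ⟨S, hksx, show ks < Ke by omega, ?_, ?_, ?_, fun k _ _ => S.b_nonneg k, ?_, ?_⟩
  · show 0 < u Ke / 4
    have := u_pos Ke
    linarith
  · show 0 < m / 100 * u (Ke - 1)
    have := u_pos (Ke - 1)
    positivity
  · show m / 100 * u (Ke - 1) ≤ 1
    have := hu1 (Ke - 1)
    have := u_pos (Ke - 1)
    nlinarith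
  · refine ⟨k₁, hksk, by show k₁ < Ke; omega, ?_⟩
    show 0 < β k₁ + τ k₁
    have h1 : 0 ≤ β k₁ := S.β_nonneg k₁
    have h2 : τ k₁ = 1 / (2 * K) := by simp only [hτ, lt_irrefl, if_false]
    rw [h2]
    positivity
  · intro T b hF hN hopt hxb hcost
    have hfar := S.far_path (show ks < Ke by omega) T 0 b hF hN hopt hx hxb (by
      show 0 ≤ x - 2 * u ks
      linarith)
    refine le_trans ?_ hfar
    show 1 ≤ -(9 + 32 / m) - 2 * cost T 0 b x / (2 * u ks) +
      ((n : ℝ) * ∑ k ∈ Finset.Ico ks Ke, τ k - 6 * (M * τ (Ke - 1)))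
    rw [hsumτ']
    have e1 : τ (Ke - 1) = 1 / (2 * K) := by
      simp only [hτ, if_neg (show ¬ Ke - 1 < k₁ by omega)]
    rw [e1]
    have e2 : 6 * (M * (1 / (2 * (K : ℝ)))) ≤ 1 := by
      have : 6 * (M * (1 / (2 * (K : ℝ)))) = 3 * M / K := by field_simp; ring
      rw [this, div_le_iff₀ (by linarith)]
      linarith
    have e3 : 2 * cost T 0 b x / (2 * u ks) ≤ 2 * (2 / m) / (2 * u ks) := by
      have := u_pos ks
      gcongr
    linarith

end Pool.Agent.HighLow
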